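import Pool.Agent.H98.STB.S

/-!
# The algebra of branches
-/

set_option autoImplicit false

namespace Pool.STB

open Finset Real MvPolynomial

/-- Scaling of a homogeneous polynomial. -/
theorem hom_smul {b : ℕ} {Φ : Po} (h : Φ.IsHomogeneous b) (r : ℝ) (q : V3) :
    eval (r • q) Φ = r ^ b * eval q Φ := by
  rw [eval_eq, eval_eq, Finset.mul_sum]
  refine Finset.sum_congr rfl fun d hd => ?_
  have hdeg : d.degree = b := by
    by_contra hne
    exact (mem_support_iff.1 hd) (h.coeff_eq_zero hne)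
  have h1 : ∏ i ∈ d.support, (r • q) i ^ d i = r ^ b * ∏ i ∈ d.support, q i ^ d i := by
    rw [← hdeg, Finsupp.degree_apply, ← Finset.prod_pow_eq_pow_sum, ← Finset.prod_mul_distrib]
    refine Finset.prod_congr rfl fun i _ => ?_
    rw [Pi.smul_apply, smul_eq_mul, mul_pow]
  rw [h1]
  ring

theorem hom_zero {b : ℕ} {Φ : Po} (h : Φ.IsHomogeneous b) (hb : 1 ≤ b) : eval 0 Φ = 0 := by
  have h1 := hom_smul h 0 0
  rwa [zero_smul, zero_pow (by omega), zero_mul] at h1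

/-- The value of a homogeneous polynomial at a point of a large box. -/
theorem hom_bd {b : ℕ} {R : ℝ} {Φ : Po} (h : Hb b R Φ) {S : ℝ} (hS : 0 < S) {q : V3} (hq : Bx S q) :
    |eval q Φ| ≤ S ^ b * R := by
  have h1 : q = S • (S⁻¹ • q) := by rw [smul_smul, mul_inv_cancel₀ hS.ne', one_smul]
  have h2 : Bx 1 (S⁻¹ • q) := by
    intro i
    rw [Pi.smul_apply, smul_eq_mul, abs_mul, abs_of_pos (inv_pos.2 hS)]
    calc S⁻¹ * |q i| ≤ S⁻¹ * S := mul_le_mul_of_nonneg_left (hq i) (inv_pos.2 hS).le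
      _ = 1 := inv_mul_cancel₀ hS.ne'
  rw [h1, hom_smul h.hom, abs_mul, abs_of_pos (pow_pos hS b)]
  exact mul_le_mul_of_nonneg_left (h.bd _ h2) (pow_pos hS b).le

/-- Linear substitution. -/
theorem eval_lin (B : Matrix (Fin 3) (Fin 3) ℝ) (Φ : Po) (q : V3) :
    eval q (bind₁ (lin B) Φ) = eval (B.mulVec q) Φ := by
  have h1 : eval q (bind₁ (lin B) Φ) = eval (fun i => eval q (lin B i)) Φ := by
    show eval₂Hom (RingHom.id ℝ) q (bind₁ (lin B) Φ) = _
    rw [eval₂Hom_bind₁]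
    rfl
  rw [h1]
  congr 2
  funext i
  simp [lin, Matrix.mulVec, dotProduct]

theorem hom_lin (B : Matrix (Fin 3) (Fin 3) ℝ) {b : ℕ} {Φ : Po} (h : Φ.IsHomogeneous b) :
    (bind₁ (lin B) Φ).IsHomogeneous b := by
  have h1 : ∀ i, (lin B i).IsHomogeneous 1 := fun i =>
    IsHomogeneous.sum _ _ _ fun l _ => isHomogeneous_C_mul_X _ _
  have h2 := h.aeval (lin B) h1
  rwa [one_mul] at h2

/-! ### Coordinates -/

/-- The coordinates of a point. -/
noncomputable def crd (X : Fin 3 → V3) (q : V3) : V3 := (mt X)⁻¹.mulVec q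

theorem mt_mulVec (X : Fin 3 → V3) (s : V3) : (mt X).mulVec s = ∑ a, s a • X a := by
  funext j
  simp [mt, Matrix.mulVec, dotProduct, Finset.sum_apply, mul_comm]

theorem crd_sum {X : Fin 3 → V3} (h : (mt X).det ≠ 0) (q : V3) : ∑ a, crd X q a • X a = q := by
  rw [← mt_mulVec, crd, Matrix.mulVec_mulVec, Matrix.mul_nonsing_inv _ (isUnit_iff_ne_zero.2 h),
    Matrix.one_mulVec]

theorem crd_of_sum {X : Fin 3 → V3} (h : (mt X).det ≠ 0) (s : V3) : crd X (∑ a, s a • X a) = s := by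
  rw [← mt_mulVec, crd, Matrix.mulVec_mulVec, Matrix.nonsing_inv_mul _ (isUnit_iff_ne_zero.2 h),
    Matrix.one_mulVec]

theorem prj_mulVec (X : Fin 3 → V3) (S : Finset (Fin 3)) (q : V3) :
    (prj X S).mulVec q = ∑ a ∈ S, crd X q a • X a := by
  funext j
  simp only [prj, crd, Matrix.mulVec, dotProduct, Matrix.of_apply, Finset.sum_apply, Pi.smul_apply,
    smul_eq_mul, Finset.sum_mul]
  rw [Finset.sum_comm]
  refine Finset.sum_congr rfl fun a _ => Finset.sum_congr rfl fun l _ => ?_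
  ring

theorem crd_bd {X : Fin 3 → V3} {η : ℝ} (hη : 0 < η) (hX : ∀ a, Bx 1 (X a))
    (h : η ≤ |(mt X).det|) {q : V3} (hq : Bx 1 q) : Bx (6 / η) (crd X q) := by
  have hd : (mt X).det ≠ 0 := by
    intro h0
    rw [h0, abs_zero] at h
    linarith
  have hadj : ∀ a l, |(mt X).adjugate a l| ≤ 2 := by
    intro a l
    have hb : ∀ i j, |mt X i j| ≤ 1 := fun i j => hX j i
    have hp : ∀ i j k m, |mt X i j * mt X k m| ≤ 1 := fun i j k m => by
      rw [abs_mul]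
      exact mul_le_one₀ (hb i j) (abs_nonneg _) (hb k m)
    have h2 : ∀ i j k m i' j' k' m', |mt X i j * mt X k m - mt X i' j' * mt X k' m'| ≤ 2 := by
      intro i j k m i' j' k' m'
      have := abs_sub (mt X i j * mt X k m) (mt X i' j' * mt X k' m')
      linarith [hp i j k m, hp i' j' k' m']
    have h3 : ∀ i j k m i' j' k' m', |-(mt X i j * mt X k m) + mt X i' j' * mt X k' m'| ≤ 2 := by
      intro i j k m i' j' k' m'
      have := h2 i' j' k' m' i j k m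
      rwa [show -(mt X i j * mt X k m) + mt X i' j' * mt X k' m' =
        mt X i' j' * mt X k' m' - mt X i j * mt X k m by ring]
    rw [Matrix.adjugate_fin_three]
    fin_cases a <;> fin_cases l <;> simp [Matrix.of_apply] <;> first | exact h2 _ _ _ _ _ _ _ _ | exact h3 _ _ _ _ _ _ _ _
  intro a
  have h1 : crd X q a = ∑ l, (mt X).det⁻¹ * (mt X).adjugate a l * q l := by
    rw [crd, Matrix.inv_def, Ring.inverse_eq_inv']
    simp [Matrix.mulVec, dotProduct]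
  rw [h1]
  refine (Finset.abs_sum_le_sum_abs _ _).trans ?_
  have h2 : ∀ l ∈ (univ : Finset (Fin 3)), |(mt X).det⁻¹ * (mt X).adjugate a l * q l| ≤ 2 / η := by
    intro l _
    rw [abs_mul, abs_mul, abs_inv]
    have h4 : |(mt X).det|⁻¹ ≤ η⁻¹ := inv_anti₀ hη h
    calc |(mt X).det|⁻¹ * |(mt X).adjugate a l| * |q l| ≤ η⁻¹ * 2 * 1 := by
          have h5 : |(mt X).det|⁻¹ * |(mt X).adjugate a l| ≤ η⁻¹ * 2 :=
            mul_le_mul h4 (hadj a l) (abs_nonneg _) (inv_pos.2 hη).le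
          exact mul_le_mul h5 (hq l) (abs_nonneg _) (by positivity)
      _ = 2 / η := by rw [mul_one, div_eq_mul_inv, mul_comm]
  refine (Finset.sum_le_sum h2).trans (le_of_eq ?_)
  rw [Finset.sum_const, Finset.card_univ, Fintype.card_fin, nsmul_eq_mul]
  push_cast
  ring

/-! ### The polynomial of a branch -/

theorem fb_hom {X : Fin 3 → V3} {Φ : Fin 3 → Po} {b : ℕ} (h : ∀ a, (Φ a).IsHomogeneous b) :
    (fb X Φ).IsHomogeneous b :=
  ((h 0).add (hom_lin _ ((h 1).sub (h 0)))).add (hom_lin _ ((h 2).sub (h 1)))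

theorem fb_eval (X : Fin 3 → V3) (Φ : Fin 3 → Po) (q : V3) :
    eval q (fb X Φ) = eval q (Φ 0) +
      (eval (crd X q 1 • X 1 + crd X q 2 • X 2) (Φ 1) -
        eval (crd X q 1 • X 1 + crd X q 2 • X 2) (Φ 0)) +
      (eval (crd X q 2 • X 2) (Φ 2) - eval (crd X q 2 • X 2) (Φ 1)) := by
  rw [fb, map_add, map_add, eval_lin, eval_lin, prj_mulVec, prj_mulVec, map_sub, map_sub,
    Finset.sum_pair (by decide), Finset.sum_singleton]

/-- **FbvStmt.** -/
theorem t_fbv : FbvStmt := by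
  intro X Φ s h
  rw [fb_eval, crd_of_sum h]

/-- **FbbStmt.** -/
theorem t_fbb : FbbStmt := by
  intro b
  refine ⟨5 * 12 ^ b, by nlinarith [one_le_pow₀ (M₀ := ℝ) (n := b) (show (1 : ℝ) ≤ 12 by norm_num)],
    fun X Φ η hη hη1 hX hd hΦ => ⟨fb_hom fun a => (hΦ a).hom, fun q hq => ?_⟩⟩
  have hc := crd_bd hη hX hd hq
  have h12 : (1 : ℝ) ≤ 12 / η := by
    rw [le_div_iff₀ hη]
    linarith
  have b1 : Bx (12 / η) (crd X q 1 • X 1 + crd X q 2 • X 2) := by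
    intro i
    have e1 : |crd X q 1 * X 1 i| ≤ 6 / η := by
      rw [abs_mul]
      calc |crd X q 1| * |X 1 i| ≤ |crd X q 1| * 1 :=
            mul_le_mul_of_nonneg_left (hX 1 i) (abs_nonneg _)
        _ ≤ 6 / η := by rw [mul_one]; exact hc 1
    have e2 : |crd X q 2 * X 2 i| ≤ 6 / η := by
      rw [abs_mul]
      calc |crd X q 2| * |X 2 i| ≤ |crd X q 2| * 1 :=
            mul_le_mul_of_nonneg_left (hX 2 i) (abs_nonneg _)
        _ ≤ 6 / η := by rw [mul_one]; exact hc 2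
    have e3 : (12 : ℝ) / η = 6 / η + 6 / η := by ring
    simp only [Pi.add_apply, Pi.smul_apply, smul_eq_mul]
    exact (abs_add_le _ _).trans (by linarith)
  have b2 : Bx (12 / η) (crd X q 2 • X 2) := by
    intro i
    have e2 : |crd X q 2 * X 2 i| ≤ 6 / η := by
      rw [abs_mul]
      calc |crd X q 2| * |X 2 i| ≤ |crd X q 2| * 1 :=
            mul_le_mul_of_nonneg_left (hX 2 i) (abs_nonneg _)
        _ ≤ 6 / η := by rw [mul_one]; exact hc 2
    have e3 : (6 : ℝ) / η ≤ 12 / η := by gcongr; norm_num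
    simp only [Pi.smul_apply, smul_eq_mul]
    linarith
  have hS : (0 : ℝ) < 12 / η := by positivity
  have u0 := (hΦ 0).bd q hq
  have u1 := hom_bd (hΦ 1) hS b1
  have u2 := hom_bd (hΦ 0) hS b1
  have u3 := hom_bd (hΦ 2) hS b2
  have u4 := hom_bd (hΦ 1) hS b2
  have hP : (1 : ℝ) ≤ (12 / η) ^ b := one_le_pow₀ h12
  rw [fb_eval]
  have e5 : 5 * (12 : ℝ) ^ b / η ^ b = 5 * (12 / η) ^ b := by rw [div_pow]; ring
  rw [e5]
  rw [abs_le] at u0 u1 u2 u3 u4 ⊢
  constructor <;> nlinarith [u0.1, u0.2, u1.1, u1.2, u2.1, u2.2, u3.1, u3.2, u4.1, u4.2]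

/-- A point of the unit box, scaled: the coordinates are at most `1 / 3`. -/
theorem scale_pt {X : Fin 3 → V3} {η : ℝ} (hη : 0 < η) (hX : ∀ a, Bx 1 (X a))
    (h : η ≤ |(mt X).det|) {q : V3} (hq : Bx 1 q) :
    ∃ σ : Fin 3 → ℝ, (∀ a, |σ a| ≤ 1 / 3) ∧ q = (18 / η) • ∑ a, σ a • X a := by
  have hd : (mt X).det ≠ 0 := by
    intro h0
    rw [h0, abs_zero] at h
    linarith
  refine ⟨fun a => (η / 18) * crd X q a, fun a => ?_, ?_⟩
  · rw [abs_mul, abs_of_pos (by positivity : (0 : ℝ) < η / 18)]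
    calc η / 18 * |crd X q a| ≤ η / 18 * (6 / η) :=
          mul_le_mul_of_nonneg_left (crd_bd hη hX h hq a) (by positivity)
      _ = 1 / 3 := by field_simp; norm_num
  · conv_lhs => rw [← crd_sum hd q]
    rw [Finset.smul_sum]
    refine Finset.sum_congr rfl fun a _ => ?_
    rw [smul_smul, ← mul_assoc]
    congr 1
    have : (18 : ℝ) / η * (η / 18) = 1 := by field_simp
    rw [this, one_mul]

/-- Sums of small multiples are in the unit box. -/
theorem bx_sum {X : Fin 3 → V3} (hX : ∀ a, Bx 1 (X a)) {σ : Fin 3 → ℝ} (hσ : ∀ a, |σ a| ≤ 1 / 3) :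
    Bx 1 (σ 0 • X 0 + (σ 1 • X 1 + σ 2 • X 2)) ∧ Bx 1 (σ 1 • X 1 + σ 2 • X 2) ∧
      Bx 1 (σ 2 • X 2) := by
  have e : ∀ a i, |σ a * X a i| ≤ 1 / 3 := by
    intro a i
    rw [abs_mul]
    calc |σ a| * |X a i| ≤ 1 / 3 * 1 :=
          mul_le_mul (hσ a) (hX a i) (abs_nonneg _) (by norm_num)
      _ = 1 / 3 := mul_one _
  refine ⟨fun i => ?_, fun i => ?_, fun i => ?_⟩ <;>
    simp only [Pi.add_apply, Pi.smul_apply, smul_eq_mul]
  · have e0 := abs_le.1 (e 0 i)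
    have e1 := abs_le.1 (e 1 i)
    have e2 := abs_le.1 (e 2 i)
    rw [abs_le]
    constructor <;> linarith [e0.1, e0.2, e1.1, e1.2, e2.1, e2.2]
  · have e1 := abs_le.1 (e 1 i)
    have e2 := abs_le.1 (e 2 i)
    rw [abs_le]
    constructor <;> linarith [e1.1, e1.2, e2.1, e2.2]
  · exact (e 2 i).trans (by norm_num)

/-- **UnqStmt.** -/
theorem t_unq : UnqStmt := by
  intro b hb
  refine ⟨6 * 18 ^ b, by nlinarith [one_le_pow₀ (M₀ := ℝ) (n := b) (show (1 : ℝ) ≤ 18 by norm_num)],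
    fun X Φ f f' η δ hη hη1 hδ hX hd hf hf' h h' q hq => ?_⟩
  obtain ⟨σ, hσ, rfl⟩ := scale_pt hη hX hd hq
  have hdm : (f - f').IsHomogeneous b := hf.sub hf'
  have key : ∀ a (q : V3) (s : ℝ), Bx 1 q → |s| ≤ 1 →
      |eval (q + s • X a) (f - f') - eval q (f - f')| ≤ 2 * δ := by
    intro a q s hq hs
    have h1 := abs_le.1 (h a q hq s hs)
    have h2 := abs_le.1 (h' a q hq s hs)
    rw [map_sub, map_sub, abs_le]
    constructor <;> linarith [h1.1, h1.2, h2.1, h2.2]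
  obtain ⟨c0, c1, c2⟩ := bx_sum hX hσ
  have s1 : ∀ a, |σ a| ≤ 1 := fun a => (hσ a).trans (by norm_num)
  have k0 := key 0 (σ 1 • X 1 + σ 2 • X 2) (σ 0) c1 (s1 0)
  have k1 := key 1 (σ 2 • X 2) (σ 1) c2 (s1 1)
  have k2 := key 2 0 (σ 2) (fun i => by simp) (s1 2)
  rw [zero_add, hom_zero hdm hb, sub_zero] at k2
  have e1 : σ 1 • X 1 + σ 2 • X 2 + σ 0 • X 0 = ∑ a, σ a • X a := by
    rw [Fin.sum_univ_three]; abel
  have e2 : σ 2 • X 2 + σ 1 • X 1 = σ 1 • X 1 + σ 2 • X 2 := add_comm _ _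
  rw [e1] at k0
  rw [e2] at k1
  have hS : (0 : ℝ) < 18 / η := by positivity
  rw [← map_sub, hom_smul hdm, abs_mul, abs_of_pos (pow_pos hS b)]
  have h6 : |eval (∑ a, σ a • X a) (f - f')| ≤ 6 * δ := by
    have h1 := abs_le.1 k0
    have h2 := abs_le.1 k1
    have h3 := abs_le.1 k2
    rw [abs_le]
    constructor <;> linarith [h1.1, h1.2, h2.1, h2.2, h3.1, h3.2]
  calc (18 / η) ^ b * |eval (∑ a, σ a • X a) (f - f')| ≤ (18 / η) ^ b * (6 * δ) :=
        mul_le_mul_of_nonneg_left h6 (pow_pos hS b).le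
    _ = 6 * 18 ^ b * δ / η ^ b := by rw [div_pow]; ring

/-- **FbcStmt.** -/
theorem t_fbc : FbcStmt := by
  intro b hb
  refine ⟨18 ^ b, one_le_pow₀ (by norm_num),
    fun X Φ η δ hη hη1 hδ hX hd hd' hΦ hI q hq => ?_⟩
  have hX3 : ∀ a : Fin 3, Bx 1 ((![X 0, X 1, X 2] : Fin 3 → V3) a) := by
    intro a; fin_cases a <;> exact hX _
  obtain ⟨σ, hσ, rfl⟩ := scale_pt hη hX3 hd hq
  have hne : (mt ![X 0, X 1, X 2]).det ≠ 0 := by
    intro h0
    rw [h0, abs_zero] at hd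
    linarith
  have hne' : (mt ![X 1, X 2, X 3]).det ≠ 0 := by
    intro h0
    rw [h0, abs_zero] at hd'
    linarith
  obtain ⟨c0, c1, c2⟩ := bx_sum hX3 hσ
  have hF : (fb ![X 0, X 1, X 2] ![Φ 0, Φ 1, Φ 2]).IsHomogeneous b :=
    fb_hom fun a => by fin_cases a <;> exact hΦ _
  have hF' : (fb ![X 1, X 2, X 3] ![Φ 1, Φ 2, Φ 3]).IsHomogeneous b :=
    fb_hom fun a => by fin_cases a <;> exact hΦ _
  have v1 := t_fbv ![X 0, X 1, X 2] ![Φ 0, Φ 1, Φ 2] σ hne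
  have v2 := t_fbv ![X 1, X 2, X 3] ![Φ 1, Φ 2, Φ 3] ![σ 1, σ 2, 0] hne'
  have e1 : ∑ a, σ a • (![X 0, X 1, X 2] : Fin 3 → V3) a =
      σ 1 • X 1 + σ 2 • X 2 + σ 0 • X 0 := by
    rw [Fin.sum_univ_three]
    simp
    abel
  have e2 : ∑ a, (![σ 1, σ 2, 0] : Fin 3 → ℝ) a • (![X 1, X 2, X 3] : Fin 3 → V3) a =
      σ 1 • X 1 + σ 2 • X 2 := by
    rw [Fin.sum_univ_three]
    simp
  rw [e2] at v2
  simp only [Matrix.cons_val_zero, Matrix.cons_val_one, Matrix.cons_val_two, Matrix.head_cons,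
    Matrix.tail_cons, Matrix.cons_val] at v1 v2 c0 c1 c2
  have hz : eval (0 : V3) (Φ 3) = 0 := hom_zero (hΦ 3) hb
  have hz' : eval (0 : V3) (Φ 2) = 0 := hom_zero (hΦ 2) hb
  simp only [zero_smul, add_zero, hz, hz'] at v2
  have hk := hI (σ 1 • X 1 + σ 2 • X 2) c1 (σ 0) ((hσ 0).trans (by norm_num))
  have hS : (0 : ℝ) < 18 / η := by positivity
  rw [← map_sub, hom_smul (hF.sub hF'), abs_mul, abs_of_pos (pow_pos hS b), map_sub]
  rw [e1] at v1 ⊢
  have h6 : |eval (σ 1 • X 1 + σ 2 • X 2 + σ 0 • X 0) (fb ![X 0, X 1, X 2] ![Φ 0, Φ 1, Φ 2]) -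
      eval (σ 1 • X 1 + σ 2 • X 2 + σ 0 • X 0) (fb ![X 1, X 2, X 3] ![Φ 1, Φ 2, Φ 3])| ≤ δ := by
    rw [v1]
    rw [v2] at hk
    have h1 := abs_le.1 hk
    rw [abs_le]
    constructor <;> linarith [h1.1, h1.2]
  calc (18 / η) ^ b * _ ≤ (18 / η) ^ b * δ := mul_le_mul_of_nonneg_left h6 (pow_pos hS b).le
    _ = 18 ^ b * δ / η ^ b := by rw [div_pow]; ring

end Pool.STB
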