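import Pool.Agent.H40.BFL.MKO
import Pool.Agent.H98.STB.Alg

/-!
# Lipschitz bounds for homogeneous polynomials
-/

set_option autoImplicit false

namespace Pool.STB

open Finset Real MvPolynomial

/-- The polynomial on the line `a + t v`. -/
noncomputable def ln (a v : V3) (Φ : Po) : Polynomial ℝ :=
  aeval (fun j => Polynomial.C (a j) + Polynomial.C (v j) * Polynomial.X) Φ

theorem ln_eval (a v : V3) (Φ : Po) (t : ℝ) :
    (ln a v Φ).eval t = eval (fun j => a j + t * v j) Φ := by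
  unfold ln
  induction Φ using MvPolynomial.induction_on with
  | C c => simp
  | add p q hp hq => rw [map_add, Polynomial.eval_add, hp, hq, map_add]
  | mul_X p i hp =>
    rw [map_mul, Polynomial.eval_mul, hp, map_mul, aeval_X, eval_X, Polynomial.eval_add,
      Polynomial.eval_mul, Polynomial.eval_C, Polynomial.eval_C, Polynomial.eval_X]
    ring

theorem ln_deg (a v : V3) {Φ : Po} {K : ℕ} (h : Φ.totalDegree ≤ K) : (ln a v Φ).natDegree ≤ K := by
  have h1 := aeval_natDegree_le (n := 1) Φ h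
    (fun j => Polynomial.C (a j) + Polynomial.C (v j) * Polynomial.X) (fun j => by
      refine (Polynomial.natDegree_add_le _ _).trans (max_le ?_ ?_)
      · rw [Polynomial.natDegree_C]; exact Nat.zero_le _
      · exact (Polynomial.natDegree_C_mul_le _ _).trans Polynomial.natDegree_X_le)
  rw [mul_one] at h1
  exact h1

/-- The Lipschitz bound. -/
theorem po_lip (b : ℕ) : ∃ C : ℝ, 1 ≤ C ∧ ∀ (Φ : Po) (R : ℝ), Hb b R Φ → ∀ (u e : V3) (ε : ℝ),
    0 < ε → ε ≤ 1 → Bx 4 u → Bx ε e → |eval (u + e) Φ - eval u Φ| ≤ C * R * ε := by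
  obtain ⟨C, hC, h⟩ := Pool.Agent.H40.BFL.mko_thm b
  refine ⟨C * 5 ^ b, by nlinarith [one_le_pow₀ (M₀ := ℝ) (n := b) (show (1 : ℝ) ≤ 5 by norm_num)],
    fun Φ R hΦ u e ε hε hε1 hu he => ?_⟩
  obtain ⟨v, hv⟩ : ∃ v : V3, v = fun i => e i / ε := ⟨_, rfl⟩
  have hv1 : ∀ i, |v i| ≤ 1 := fun i => by
    rw [hv, abs_div, abs_of_pos hε]
    exact (div_le_one hε).2 (he i)
  obtain ⟨g, hg⟩ : ∃ g : Polynomial ℝ, g = ln u v Φ := ⟨_, rfl⟩
  have hge : ∀ s : ℝ, g.eval s = eval (fun j => u j + s * v j) Φ := fun s => by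
    rw [hg, ln_eval]
  have hdeg : g.natDegree ≤ b := by
    rw [hg]
    exact ln_deg _ _ hΦ.hom.totalDegree_le
  have hb : ∀ s ∈ Set.Icc (0 : ℝ) (0 + 1), |g.eval s| ≤ 5 ^ b * R := by
    intro s hs
    rw [hge]
    refine hom_bd hΦ (by norm_num) fun i => ?_
    have h1 := hu i
    have h2 := hv1 i
    have h3 : |s * v i| ≤ 1 := by
      rw [abs_mul, abs_of_nonneg hs.1]
      have := hs.2
      nlinarith [abs_nonneg (v i)]
    calc |u i + s * v i| ≤ |u i| + |s * v i| := abs_add_le _ _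
      _ ≤ 5 := by linarith
  have hd := h g 0 1 (5 ^ b * R) hdeg one_pos hb
  have e1 : g.eval 0 = eval u Φ := by
    rw [hge]
    congr 1
    congr 1
    funext j
    ring
  have e2 : g.eval ε = eval (u + e) Φ := by
    rw [hge]
    congr 1
    congr 1
    funext j
    rw [hv, Pi.add_apply]
    field_simp
  rw [← e1, ← e2]
  have hmvt := (convex_Icc (0 : ℝ) (0 + 1)).norm_image_sub_le_of_norm_hasDerivWithin_le
    (f := fun s => g.eval s) (f' := fun s => g.derivative.eval s) (C := C * (5 ^ b * R))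
    (x := 0) (y := ε) (fun s _ => (g.hasDerivAt s).hasDerivWithinAt) (fun s hs => by
      have := hd s hs
      rw [div_one] at this
      rwa [Real.norm_eq_abs]) ⟨le_rfl, by norm_num⟩ ⟨hε.le, by linarith⟩
  rw [Real.norm_eq_abs, Real.norm_eq_abs, sub_zero, abs_of_pos hε] at hmvt
  calc |g.eval ε - g.eval 0| ≤ C * (5 ^ b * R) * ε := hmvt
    _ = C * 5 ^ b * R * ε := by ring

end Pool.STB
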