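import Pool.Agent.H98.STB.Chn
import Pool.Agent.H98.STB.Alg

/-!
# General position of the lines through a record, and the comparison of two polynomials
-/

set_option autoImplicit false

namespace Pool.STB

open Finset Real
open Pool.Agent.H49.Ent Pool.Agent.H32.Dense Pool.STK Pool.MIC
open Pool.BFL (Pb)

/-- Normalisation of a covector. -/
theorem nrm_cov (h : V3) (hne : h ≠ 0) : ∃ h' : V3, (Bx 1 h' ∧ ∃ i, |h' i| = 1) ∧
    ∀ (x : V3) (j : Fin 3) (η : ℝ), 0 ≤ η → |∑ i, h i * x i| ≤ η * |h j| →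
      |∑ i, h' i * x i| ≤ η := by
  obtain ⟨k, _, hk⟩ := Finset.exists_max_image (univ : Finset (Fin 3)) (fun i => |h i|)
    Finset.univ_nonempty
  have hk' : ∀ i, |h i| ≤ |h k| := fun i => hk i (Finset.mem_univ i)
  have hpos : 0 < |h k| := by
    rcases (abs_nonneg (h k)).eq_or_lt with h0 | h0
    · exfalso
      refine hne (funext fun i => ?_)
      have := hk' i
      rw [← h0] at this
      exact abs_eq_zero.1 (le_antisymm this (abs_nonneg _))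
    · exact h0
  refine ⟨fun i => h i / |h k|, ⟨fun i => ?_, k, ?_⟩, fun x j η hη hx => ?_⟩
  · rw [abs_div, abs_abs]
    exact (div_le_one hpos).2 (hk' i)
  · rw [abs_div, abs_abs, div_self hpos.ne']
  · have e1 : ∑ i, h i / |h k| * x i = (∑ i, h i * x i) / |h k| := by
      rw [Finset.sum_div]
      exact Finset.sum_congr rfl fun i _ => by ring
    rw [e1, abs_div, abs_abs, div_le_iff₀ hpos]
    exact hx.trans (mul_le_mul_of_nonneg_left (hk' j) hη)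

section

variable {Ω W Z : Type} [Fintype Ω] [Fintype W] {p : Ω → ℝ} {V : W → ℝ}

/-- The general position of the copy with respect to a covector which is a function of the rest. -/
theorem gp_sel (hp : IsLaw p) (hV : IsLaw V) (z : Ω → Z) (zW : W → Z)
    (hz : ∀ r, law p z r = law V zW r) (Y : Ω → V3) {η c : ℝ} (hη : 0 ≤ η)
    (gp : ∀ H : Z → V3, (∀ r, Bx 1 (H r) ∧ ∃ i, |H r i| = 1) →
      Pb p (fun ω => |∑ i, H (z ω) i * Y ω i| ≤ η) ≤ c) (H : W → V3) :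
    Pb (glue p V z zW) (fun w => ∃ j, H w.2 j ≠ 0 ∧ |∑ i, H w.2 i * Y w.1 i| ≤ η * |H w.2 j|) ≤
      c := by
  classical
  refine avg_all hp hV z zW hz
    (fun ω v => ∃ j, H v j ≠ 0 ∧ |∑ i, H v i * Y ω i| ≤ η * |H v j|) fun β => ?_
  have hN : ∀ v : W, ∃ h' : V3, (Bx 1 h' ∧ ∃ i, |h' i| = 1) ∧ ∀ (x : V3),
      (∃ j, H v j ≠ 0 ∧ |∑ i, H v i * x i| ≤ η * |H v j|) → |∑ i, h' i * x i| ≤ η := by
    intro v
    by_cases hv : H v = 0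
    · refine ⟨fun _ => 1, ⟨fun i => by simp, 0, by simp⟩, fun x hx => ?_⟩
      obtain ⟨j, hj, _⟩ := hx
      exact absurd (by rw [hv]; rfl) hj
    · obtain ⟨h', h1, h2⟩ := nrm_cov (H v) hv
      exact ⟨h', h1, fun x ⟨j, _, hj⟩ => h2 x j η hη hj⟩
  choose N hN1 hN2 using hN
  refine (Pb_mono hp.nonneg fun ω _ hb => ?_).trans (gp (fun r => N (β r)) fun r => hN1 _)
  exact hN2 _ _ hb

end

theorem det_cross (x y w : V3) : (mt ![x, y, w]).det =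
    (x 1 * y 2 - x 2 * y 1) * w 0 + (x 2 * y 0 - x 0 * y 2) * w 1 +
      (x 0 * y 1 - x 1 * y 0) * w 2 := by
  rw [Matrix.det_fin_three]
  simp [mt]
  ring

section star

variable {Ω Λ Z : Type} [Fintype Ω] {p : Ω → ℝ} (hp : IsLaw p) (L : Ω → Λ) (z : Ω → Z)

include hp

/-- Three lines of the star are in general position. -/
theorem gp_three (Y : Ω → V3) {η c : ℝ} (hη : 0 < η)
    (gp : ∀ H : Z → V3, (∀ r, Bx 1 (H r) ∧ ∃ i, |H r i| = 1) →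
      Pb p (fun ω => |∑ i, H (z ω) i * Y ω i| ≤ η) ≤ c) :
    Pb (S3 p L z) (fun w => ¬ η ^ 3 ≤ |(mt ![Y w.2.2.1, Y w.2.1, Y w.1]).det|) ≤ 3 * c := by
  -- the first line
  have g1 : Pb (S3 p L z) (fun w => |Y w.2.2.1 0| ≤ η) ≤ c := by
    have m : Marg (S3 p L z) p (fun w => w.2.2.1) :=
      (S3_s hp L z).comp ((S2_s hp L z).comp (S1_f hp L z))
    rw [Marg.Pb_eq m (fun ω => |Y ω 0| ≤ η)]
    have h1 := gp (fun _ => Pi.single 0 1) fun r => ⟨fun i => by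
      fin_cases i <;> simp, 0, by simp⟩
    refine (Pb_mono hp.nonneg fun ω _ hω => ?_).trans h1
    rw [Fin.sum_univ_three]
    simpa using hω
  -- the second line
  have g2 := gp_sel hp (S1_law hp L z) z (fun w => z w.1) (S2_z hp L z) Y hη.le gp
    (fun w => ![-Y w.1 1, Y w.1 0, 0])
  have g2' : Pb (S3 p L z) (fun w => ∃ j : Fin 3, (![-Y w.2.2.1 1, Y w.2.2.1 0, 0] : V3) j ≠ 0 ∧
      |∑ i, (![-Y w.2.2.1 1, Y w.2.2.1 0, 0] : V3) i * Y w.2.1 i| ≤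
        η * |(![-Y w.2.2.1 1, Y w.2.2.1 0, 0] : V3) j|) ≤ c := by
    rw [Marg.Pb_eq (S3_s hp L z) (fun w => ∃ j : Fin 3, (![-Y w.2.1 1, Y w.2.1 0, 0] : V3) j ≠ 0 ∧
      |∑ i, (![-Y w.2.1 1, Y w.2.1 0, 0] : V3) i * Y w.1 i| ≤
        η * |(![-Y w.2.1 1, Y w.2.1 0, 0] : V3) j|)]
    exact g2
  -- the third line
  have g3 := gp_sel hp (S2_law hp L z) z (fun w => z w.1) (S3_z hp L z) Y hη.le gp
    (fun w => ![Y w.2.1 1 * Y w.1 2 - Y w.2.1 2 * Y w.1 1, Y w.2.1 2 * Y w.1 0 -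
      Y w.2.1 0 * Y w.1 2, Y w.2.1 0 * Y w.1 1 - Y w.2.1 1 * Y w.1 0])
  have key := (Pb_le2 (S3_law hp L z).nonneg (A := fun w =>
    ¬ η ^ 3 ≤ |(mt ![Y w.2.2.1, Y w.2.1, Y w.1]).det|)
    (B := fun w => |Y w.2.2.1 0| ≤ η)
    (C := fun w => (∃ j : Fin 3, (![-Y w.2.2.1 1, Y w.2.2.1 0, 0] : V3) j ≠ 0 ∧
      |∑ i, (![-Y w.2.2.1 1, Y w.2.2.1 0, 0] : V3) i * Y w.2.1 i| ≤
        η * |(![-Y w.2.2.1 1, Y w.2.2.1 0, 0] : V3) j|) ∨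
      ∃ j : Fin 3, (![Y w.2.2.1 1 * Y w.2.1 2 - Y w.2.2.1 2 * Y w.2.1 1,
        Y w.2.2.1 2 * Y w.2.1 0 - Y w.2.2.1 0 * Y w.2.1 2,
        Y w.2.2.1 0 * Y w.2.1 1 - Y w.2.2.1 1 * Y w.2.1 0] : V3) j ≠ 0 ∧
      |∑ i, (![Y w.2.2.1 1 * Y w.2.1 2 - Y w.2.2.1 2 * Y w.2.1 1,
        Y w.2.2.1 2 * Y w.2.1 0 - Y w.2.2.1 0 * Y w.2.1 2,
        Y w.2.2.1 0 * Y w.2.1 1 - Y w.2.2.1 1 * Y w.2.1 0] : V3) i * Y w.1 i| ≤
        η * |(![Y w.2.2.1 1 * Y w.2.1 2 - Y w.2.2.1 2 * Y w.2.1 1,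
        Y w.2.2.1 2 * Y w.2.1 0 - Y w.2.2.1 0 * Y w.2.1 2,
        Y w.2.2.1 0 * Y w.2.1 1 - Y w.2.2.1 1 * Y w.2.1 0] : V3) j|)
    (fun w _ h1 h2 h3 => h3 ?_)).trans
    (add_le_add g1 ((Pb_or (S3_law hp L z).nonneg _ _).trans (add_le_add g2' g3)))
  · linarith
  · rw [not_or] at h2
    obtain ⟨h2, h4⟩ := h2
    obtain ⟨x, hx⟩ : ∃ x, x = Y w.2.2.1 := ⟨_, rfl⟩
    obtain ⟨y, hy⟩ : ∃ y, y = Y w.2.1 := ⟨_, rfl⟩
    obtain ⟨v, hv⟩ : ∃ v, v = Y w.1 := ⟨_, rfl⟩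
    rw [← hx] at h1 h2 h4 ⊢
    rw [← hy] at h2 h4 ⊢
    rw [← hv] at h4 ⊢
    have a1 : η < |x 0| := not_le.1 h1
    have a2 : η * |x 0| < |x 0 * y 1 - x 1 * y 0| := by
      by_contra hc
      refine h2 ⟨1, ?_, ?_⟩
      · intro h0
        have h0' : x 0 = 0 := h0
        rw [h0', abs_zero] at a1
        linarith
      · rw [Fin.sum_univ_three]
        have e1 : (![-x 1, x 0, 0] : V3) 0 * y 0 + (![-x 1, x 0, 0] : V3) 1 * y 1 +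
            (![-x 1, x 0, 0] : V3) 2 * y 2 = x 0 * y 1 - x 1 * y 0 := by
          simp
          ring
        rw [e1]
        exact not_lt.1 hc
    have a3 : η * |x 0 * y 1 - x 1 * y 0| < |(mt ![x, y, v]).det| := by
      rw [det_cross]
      by_contra hc
      refine h4 ⟨2, ?_, ?_⟩
      · intro h0
        have h0' : x 0 * y 1 - x 1 * y 0 = 0 := h0
        rw [h0', abs_zero] at a2
        have : 0 ≤ η * |x 0| := by positivity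
        linarith
      · rw [Fin.sum_univ_three]
        exact not_lt.1 hc
    calc η ^ 3 = η * (η * η) := by ring
      _ ≤ η * (η * |x 0|) := by gcongr
      _ ≤ η * |x 0 * y 1 - x 1 * y 0| := by gcongr
      _ ≤ |(mt ![x, y, v]).det| := a3.le

/-- **Comparison with three lines of the star.** -/
theorem star_cmp (Y : Ω → V3) {η c c₁ c₂ : ℝ} (hη : 0 < η)
    (gp : ∀ H : Z → V3, (∀ r, Bx 1 (H r) ∧ ∃ i, |H r i| = 1) →
      Pb p (fun ω => |∑ i, H (z ω) i * Y ω i| ≤ η) ≤ c)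
    (St : Ω × ((((Ω × Ω) × Ω) × Ω) × Ω) → Prop) (Gd : Ω → Prop)
    (E : (((Ω × Ω) × Ω) × Ω) × Ω → Prop) (hSt : Pb (S1 p L z) (fun w => ¬ St w) ≤ c₁)
    (hGd : Pb p (fun ω => ¬ Gd ω) ≤ c₂)
    (hE : ∀ b b' b'' br, z b = z br.1.1.1.1 → z b' = z br.1.1.1.1 → z b'' = z br.1.1.1.1 →
      St (b, br) → St (b', br) → St (b'', br) → Gd b → Gd b' → Gd b'' →
      η ^ 3 ≤ |(mt ![Y b, Y b', Y b'']).det| → E br) :
    Pb (R5 p L z) (fun br => ¬ E br) ≤ 3 * c₁ + 3 * c₂ + 3 * c := by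
  have hn := (S3_law hp L z).nonneg
  have mR : Marg (S3 p L z) (R5 p L z) (fun w => w.2.2.2) :=
    (S3_s hp L z).comp ((S2_s hp L z).comp (S1_s hp L z))
  have m1 : Marg (S3 p L z) (S1 p L z) (fun w => w.2.2) := (S3_s hp L z).comp (S2_s hp L z)
  have m2 : Marg (S3 p L z) (S1 p L z) (fun w => (w.2.1, w.2.2.2)) :=
    (S3_s hp L z).comp (S2_o hp L z)
  have m3 : Marg (S3 p L z) (S1 p L z) (fun w => (w.1, w.2.2.2)) := S3_o hp L z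
  have n1 : Marg (S3 p L z) p (fun w => w.2.2.1) := m1.comp (S1_f hp L z)
  have n2 : Marg (S3 p L z) p (fun w => w.2.1) := m2.comp (S1_f hp L z)
  have n3 : Marg (S3 p L z) p (fun w => w.1) := m3.comp (S1_f hp L z)
  have s1 : Pb (S3 p L z) (fun w => ¬ St w.2.2) ≤ c₁ := by
    rw [Marg.Pb_eq m1 (fun w => ¬ St w)]; exact hSt
  have s2 : Pb (S3 p L z) (fun w => ¬ St (w.2.1, w.2.2.2)) ≤ c₁ := by
    rw [Marg.Pb_eq m2 (fun w => ¬ St w)]; exact hSt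
  have s3 : Pb (S3 p L z) (fun w => ¬ St (w.1, w.2.2.2)) ≤ c₁ := by
    rw [Marg.Pb_eq m3 (fun w => ¬ St w)]; exact hSt
  have d1 : Pb (S3 p L z) (fun w => ¬ Gd w.2.2.1) ≤ c₂ := by
    rw [Marg.Pb_eq n1 (fun w => ¬ Gd w)]; exact hGd
  have d2 : Pb (S3 p L z) (fun w => ¬ Gd w.2.1) ≤ c₂ := by
    rw [Marg.Pb_eq n2 (fun w => ¬ Gd w)]; exact hGd
  have d3 : Pb (S3 p L z) (fun w => ¬ Gd w.1) ≤ c₂ := by
    rw [Marg.Pb_eq n3 (fun w => ¬ Gd w)]; exact hGd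
  have g := gp_three hp L z Y hη gp
  rw [← Marg.Pb_eq mR (fun br => ¬ E br)]
  have h0 : Pb (S3 p L z) (fun w => ¬ E w.2.2.2) ≤ Pb (S3 p L z) (fun w =>
      ((¬ St w.2.2 ∨ ¬ St (w.2.1, w.2.2.2)) ∨ (¬ St (w.1, w.2.2.2) ∨ ¬ Gd w.2.2.1)) ∨
      ((¬ Gd w.2.1 ∨ ¬ Gd w.1) ∨ ¬ η ^ 3 ≤ |(mt ![Y w.2.2.1, Y w.2.1, Y w.1]).det|)) := by
    refine Pb_mono hn fun w hw hE' => ?_
    by_contra hc
    simp only [not_or, not_not] at hc
    obtain ⟨⟨⟨a1, a2⟩, a3, b1⟩, ⟨b2, b3⟩, a4⟩ := hc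
    obtain ⟨_, hw2, e3⟩ := S3_pos hp L z hw
    obtain ⟨_, hw1, e2⟩ := S2_pos hp L z hw2
    obtain ⟨_, _, e1⟩ := S1_pos hp L z hw1
    exact hE' (hE w.2.2.1 w.2.1 w.1 w.2.2.2 e1 (e2.trans e1) (e3.trans (e2.trans e1))
      a1 a2 a3 b1 b2 b3 a4)
  refine h0.trans ?_
  have u1 := Pb_or hn (fun w => ¬ St w.2.2) (fun w => ¬ St (w.2.1, w.2.2.2))
  have u2 := Pb_or hn (fun w => ¬ St (w.1, w.2.2.2)) (fun w => ¬ Gd w.2.2.1)
  have u3 := Pb_or hn (fun w => ¬ Gd w.2.1) (fun w => ¬ Gd w.1)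
  have u4 := Pb_or hn (fun w => ¬ St w.2.2 ∨ ¬ St (w.2.1, w.2.2.2))
    (fun w => ¬ St (w.1, w.2.2.2) ∨ ¬ Gd w.2.2.1)
  have u5 := Pb_or hn (fun w => ¬ Gd w.2.1 ∨ ¬ Gd w.1)
    (fun w => ¬ η ^ 3 ≤ |(mt ![Y w.2.2.1, Y w.2.1, Y w.1]).det|)
  have u6 := Pb_or hn (fun w => (¬ St w.2.2 ∨ ¬ St (w.2.1, w.2.2.2)) ∨
    (¬ St (w.1, w.2.2.2) ∨ ¬ Gd w.2.2.1))
    (fun w => (¬ Gd w.2.1 ∨ ¬ Gd w.1) ∨ ¬ η ^ 3 ≤ |(mt ![Y w.2.2.1, Y w.2.1, Y w.1]).det|)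
  linarith

end star

end Pool.STB
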