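import Pool.Agent.H98.STB.S
import Pool.Agent.H68.OWN.Hop4

/-!
# From the exact position to the position up to the unit

`cnt_int`: few integer values. `pass_law`: a function of the record has almost the same entropy given
the position up to the unit as given the exact position, if the exact position is full given the
record.
-/

set_option autoImplicit false

namespace Pool.STB

open Finset Real
open Pool.Agent.H49.Ent Pool.Agent.H32.Dense Pool.STK Pool.OWN68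

variable {Ω : Type} [Fintype Ω] {q : Ω → ℝ}

/-- **Few integer values**: the values for one value of the condition are in an interval. -/
theorem cnt_int (hq : IsLaw q) {SC : Type} (X : Ω → ℤ) (C : Ω → SC) {D : ℝ} (hD : 0 ≤ D)
    (h : ∀ ω ω', 0 < q ω → 0 < q ω' → C ω = C ω' → |(X ω : ℝ) - X ω'| ≤ D) :
    CH q X C ≤ Real.log (D + 1) := by
  classical
  -- a lower end of the values
  have hex : ∀ c : SC, ∃ a : ℤ, ∀ ω, 0 < q ω → C ω = c → a ≤ X ω ∧ (X ω : ℝ) ≤ a + D := by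
    intro c
    by_cases hne : ∃ ω, 0 < q ω ∧ C ω = c
    · have hfin : ((univ : Finset Ω).filter (fun ω => 0 < q ω ∧ C ω = c)).Nonempty := by
        obtain ⟨ω, h1, h2⟩ := hne
        exact ⟨ω, by simp [h1, h2]⟩
      obtain ⟨ω₀, h0, hmin⟩ := Finset.exists_min_image _ X hfin
      simp only [Finset.mem_filter, Finset.mem_univ, true_and] at h0 hmin
      refine ⟨X ω₀, fun ω h1 h2 => ⟨hmin ω ⟨h1, h2⟩, ?_⟩⟩
      have h3 := h ω ω₀ h1 h0.1 (h2.trans h0.2.symm)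
      have h4 := (abs_le.1 h3).2
      linarith
    · exact ⟨0, fun ω h1 h2 => absurd ⟨ω, h1, h2⟩ hne⟩
  choose a ha using hex
  refine (CH_le_card hq.nonneg hq.sum_one X C (fun c => Finset.Icc (a c) (a c + ⌊D⌋))
    (fun ω hω => ?_)).trans ?_
  · obtain ⟨h1, h2⟩ := ha (C ω) ω hω rfl
    rw [Finset.mem_Icc]
    refine ⟨h1, ?_⟩
    have h3 : ((X ω - a (C ω) : ℤ) : ℝ) ≤ D := by push_cast; linarith
    have h4 : X ω - a (C ω) ≤ ⌊D⌋ := Int.le_floor.2 h3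
    linarith
  · have hfl : 0 ≤ ⌊D⌋ := Int.floor_nonneg.2 hD
    have hle : ∀ c : SC, Real.log ((Finset.Icc (a c) (a c + ⌊D⌋)).card) ≤ Real.log (D + 1) := by
      intro c
      rw [Int.card_Icc]
      have e1 : a c + ⌊D⌋ + 1 - a c = ⌊D⌋ + 1 := by ring
      rw [e1]
      have e2 : (((⌊D⌋ + 1).toNat : ℕ) : ℝ) = (⌊D⌋ : ℝ) + 1 := by
        have h5 : (((⌊D⌋ + 1).toNat : ℕ) : ℤ) = ⌊D⌋ + 1 := Int.toNat_of_nonneg (by linarith)
        exact_mod_cast h5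
      rw [e2]
      have h6 : (0 : ℝ) ≤ (⌊D⌋ : ℝ) := by exact_mod_cast hfl
      refine Real.log_le_log (by linarith) ?_
      linarith [Int.floor_le D]
    unfold Ex
    calc ∑ ω, q ω * Real.log ((Finset.Icc (a (C ω)) (a (C ω) + ⌊D⌋)).card) ≤
          ∑ ω, q ω * Real.log (D + 1) :=
          Finset.sum_le_sum fun ω _ => mul_le_mul_of_nonneg_left (hle _) (hq.nonneg ω)
      _ = Real.log (D + 1) := by rw [← Finset.sum_mul, hq.sum_one, one_mul]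

/-- Exchange of the conditions. -/
theorem pass_two (hq : IsLaw q) {SN SX SC SZ : Type} (N : Ω → SN) (X : Ω → SX) (C : Ω → SC)
    (z : Ω → SZ) (hN : Det q z N) (hC : Det q z C) :
    CH q N C ≤ CH q N (fun ω => (X ω, C ω)) + (CH q X C - CH q X z) := by
  have h0 := hq.nonneg
  have c1 := CH_chain2 h0 N X C
  have c2 := CH_chain2 h0 X N C
  have c3 := CH_swap2 h0 N X C
  have c4 : CH q X z ≤ CH q X (fun ω => (N ω, C ω)) :=
    CH_mono_cond h0 fun ω ω' a b e => by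
      simp only [hN ω ω' a b e, hC ω ω' a b e]
  linarith

/-- **The passage**, with two coordinates `X₀`, `X₁` of the exact position and the exact time `W`. -/
theorem pass_law (hq : IsLaw q) {SN SW SC SZ : Type} (N : Ω → SN) (X₀ X₁ : Ω → ℤ) (W : Ω → SW)
    (C : Ω → SC) (z : Ω → SZ) (hN : Det q z N) (hC : Det q z C) {D₀ D₁ uW lW l₀ l₁ : ℝ}
    (hD₀ : 0 ≤ D₀) (hD₁ : 0 ≤ D₁) (hW : CH q W C ≤ uW)
    (h0 : ∀ ω ω', 0 < q ω → 0 < q ω' → C ω = C ω' → W ω = W ω' → |(X₀ ω : ℝ) - X₀ ω'| ≤ D₀)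
    (h1 : ∀ ω ω', 0 < q ω → 0 < q ω' → C ω = C ω' → W ω = W ω' → X₀ ω = X₀ ω' →
      |(X₁ ω : ℝ) - X₁ ω'| ≤ D₁)
    (k : lW ≤ CH q W z) (k0 : l₀ ≤ CH q X₀ (fun ω => (W ω, z ω)))
    (k1 : l₁ ≤ CH q X₁ (fun ω => (X₀ ω, W ω, z ω))) :
    CH q N C ≤ CH q N (fun ω => ((X₁ ω, X₀ ω, W ω), C ω)) +
      (uW + Real.log (D₀ + 1) + Real.log (D₁ + 1) - (lW + l₀ + l₁)) := by
  have hn := hq.nonneg
  have e1 := pass_two hq N (fun ω => (X₁ ω, X₀ ω, W ω)) C z hN hC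
  -- the upper bound
  have a1 : CH q (fun ω => (X₁ ω, X₀ ω, W ω)) C ≤ uW + Real.log (D₀ + 1) + Real.log (D₁ + 1) := by
    have b1 := CH_chain hn X₁ (fun ω => (X₀ ω, W ω)) C
    have b2 := CH_chain hn X₀ W C
    have b3 : CH q X₀ (fun ω => (W ω, C ω)) ≤ Real.log (D₀ + 1) :=
      cnt_int hq X₀ _ hD₀ fun ω ω' a b e => by
        simp only [Prod.mk.injEq] at e
        exact h0 ω ω' a b e.2 e.1
    have b4 : CH q X₁ (fun ω => ((X₀ ω, W ω), C ω)) ≤ Real.log (D₁ + 1) :=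
      cnt_int hq X₁ _ hD₁ fun ω ω' a b e => by
        simp only [Prod.mk.injEq] at e
        exact h1 ω ω' a b e.2 e.1.2 e.1.1
    linarith
  -- the lower bound
  have a2 : lW + l₀ + l₁ ≤ CH q (fun ω => (X₁ ω, X₀ ω, W ω)) z := by
    have b1 := CH_chain hn X₁ (fun ω => (X₀ ω, W ω)) z
    have b2 := CH_chain hn X₀ W z
    have b3 : CH q X₁ (fun ω => (X₀ ω, W ω, z ω)) ≤ CH q X₁ (fun ω => ((X₀ ω, W ω), z ω)) :=
      CH_mono_cond hn fun ω ω' _ _ e => by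
        simp only [Prod.mk.injEq] at e ⊢
        exact ⟨⟨e.1, e.2.1⟩, e.2.2⟩
    linarith
  linarith

/-- **The passage for laws of bounded density.** -/
theorem pass_dens {p : Ω → ℝ} (hp : IsLaw p) (hq : IsLaw q) {R : ℝ} (hR : 1 ≤ R)
    (hd : ∀ ω, q ω ≤ R * p ω) {SN SW SC SZ : Type} (N : Ω → SN) (X₀ X₁ : Ω → ℤ) (W : Ω → SW)
    (C : Ω → SC) (z : Ω → SZ) (hN : Det p z N) (hC : Det p z C) {D₀ D₁ uW lW l₀ l₁ : ℝ}
    (hD₀ : 0 ≤ D₀) (hD₁ : 0 ≤ D₁)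
    (hW : ∀ r : Ω → ℝ, IsLaw r → (∀ ω, 0 < r ω → 0 < p ω) → CH r W C ≤ uW)
    (h0 : ∀ ω ω', 0 < p ω → 0 < p ω' → C ω = C ω' → W ω = W ω' → |(X₀ ω : ℝ) - X₀ ω'| ≤ D₀)
    (h1 : ∀ ω ω', 0 < p ω → 0 < p ω' → C ω = C ω' → W ω = W ω' → X₀ ω = X₀ ω' →
      |(X₁ ω : ℝ) - X₁ ω'| ≤ D₁)
    (k : lW ≤ CH p W z) (k0 : l₀ ≤ CH p X₀ (fun ω => (W ω, z ω)))
    (k1 : l₁ ≤ CH p X₁ (fun ω => (X₀ ω, W ω, z ω))) :
    CH q N C ≤ CH q N (fun ω => ((X₁ ω, X₀ ω, W ω), C ω)) +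
      R * (uW + Real.log (D₀ + 1) + Real.log (D₁ + 1) - (lW + l₀ + l₁) + Real.log 2) := by
  have hpos : ∀ ω, 0 < q ω → 0 < p ω := fun ω hω => by
    by_contra hcon
    have h2 : p ω ≤ 0 := not_lt.mp hcon
    have h3 := hd ω
    nlinarith
  -- the bound for all laws on the support
  have up : ∀ r : Ω → ℝ, IsLaw r → (∀ ω, 0 < r ω → 0 < p ω) →
      CH r (fun ω => (X₁ ω, X₀ ω, W ω)) C ≤ uW + Real.log (D₀ + 1) + Real.log (D₁ + 1) := by
    intro r hr hrp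
    have hn := hr.nonneg
    have b1 := CH_chain hn X₁ (fun ω => (X₀ ω, W ω)) C
    have b2 := CH_chain hn X₀ W C
    have b3 : CH r X₀ (fun ω => (W ω, C ω)) ≤ Real.log (D₀ + 1) :=
      cnt_int hr X₀ _ hD₀ fun ω ω' a b e => by
        simp only [Prod.mk.injEq] at e
        exact h0 ω ω' (hrp _ a) (hrp _ b) e.2 e.1
    have b4 : CH r X₁ (fun ω => ((X₀ ω, W ω), C ω)) ≤ Real.log (D₁ + 1) :=
      cnt_int hr X₁ _ hD₁ fun ω ω' a b e => by
        simp only [Prod.mk.injEq] at e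
        exact h1 ω ω' (hrp _ a) (hrp _ b) e.2 e.1.2 e.1.1
    have b5 := hW r hr hrp
    linarith
  have low : lW + l₀ + l₁ ≤ CH p (fun ω => (X₁ ω, X₀ ω, W ω)) z := by
    have hn := hp.nonneg
    have b1 := CH_chain hn X₁ (fun ω => (X₀ ω, W ω)) z
    have b2 := CH_chain hn X₀ W z
    have b3 : CH p X₁ (fun ω => (X₀ ω, W ω, z ω)) ≤ CH p X₁ (fun ω => ((X₀ ω, W ω), z ω)) :=
      CH_mono_cond hn fun ω ω' _ _ e => by
        simp only [Prod.mk.injEq] at e ⊢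
        exact ⟨⟨e.1, e.2.1⟩, e.2.2⟩
    linarith
  have hCz : ∀ r : Ω → ℝ, IsLaw r → (∀ ω, 0 < r ω → 0 < p ω) →
      CH r (fun ω => (X₁ ω, X₀ ω, W ω)) z ≤ uW + Real.log (D₀ + 1) + Real.log (D₁ + 1) :=
    fun r hr hrp => (CH_mono_cond hr.nonneg (fun ω ω' a b e =>
      hC ω ω' (hrp _ a) (hrp _ b) e)).trans (up r hr hrp)
  obtain ⟨e, he⟩ : ∃ e : ℝ, e = uW + Real.log (D₀ + 1) + Real.log (D₁ + 1) - (lW + l₀ + l₁) :=
    ⟨_, rfl⟩
  have he0 : 0 ≤ e := by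
    have := hCz p hp fun _ h => h
    rw [he]
    linarith
  have hdd := deficit_dens hp hq hR hd (fun ω => (X₁ ω, X₀ ω, W ω)) z (L := uW +
    Real.log (D₀ + 1) + Real.log (D₁ + 1)) (e := e) he0 hCz (by rw [he]; linarith)
  have e1 := pass_two hq N (fun ω => (X₁ ω, X₀ ω, W ω)) C z
    (fun ω ω' a b e => hN ω ω' (hpos _ a) (hpos _ b) e)
    (fun ω ω' a b e => hC ω ω' (hpos _ a) (hpos _ b) e)
  have e2 := up q hq hpos
  have e3 : R * (e + Real.log 2) = R * (uW + Real.log (D₀ + 1) + Real.log (D₁ + 1) -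
      (lW + l₀ + l₁) + Real.log 2) := by rw [he]
  linarith

end Pool.STB
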