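import Pool.Agent.H98.STB.NfF
import Pool.Agent.H35.LBK.Lbk

/-!
# Nonfullness of the target in a window, class form

`winN_cls`: the field `nf` of the chains of lines for all windows, positions and targets which can be
read from the own height and the exact position, from the rows of the counted labels.
-/

set_option autoImplicit false

namespace Pool.STB

open Finset Real
open Pool.Agent.H49.Ent Pool.Agent.H32.Dense Pool.STK Pool.KA Pool.KSAT Pool.K2S Pool.PB Pool.S6C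
open Pool.GEN Pool.CHT Pool.CHX Pool.D2Con Pool.D2A Pool.D2F Pool.RCD
open Pool.STB82 Pool.ALT
open Pool.LA91 (FulC)
open Pool.UNJ (ceI)
open Pool.BFL (Pb)

variable {m : ℕ}

/-- **Nonfullness of the target in a window**, class form. -/
theorem winN_cls {S : PCl m} (hS : TmH S) {c : ℕ → Fin m} {a : ℝ} {sf : ℕ → ℝ} (ha1 : a ≤ 1)
    (hful : FulC S c 0 2 a sf) {I₀ : Finset (Fin m)} (hI₀ : ∀ i ∈ I₀, i = c 0 ∨ i = c 1)
    {κ : Fin m} {w s₁ s₂ d : ℝ} (hs : s₁ ≤ s₂) (hd : 0 ≤ d)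
    {Ψ : ∀ (J : ℕ) (F : Fam m J), (F.Ω → Prop) → ∀ V : Type, (PtT F → V) → (LnT F → V) →
      (V → MvPolynomial (Option (Fin m)) ℝ) → Prop}
    (Ψs : ∀ (J : ℕ) (F : Fam m J) (A B : F.Ω → Prop) (V : Type) (z : PtT F → V)
      (z' : LnT F → V) (G : V → MvPolynomial (Option (Fin m)) ℝ), Sub B A →
      Ψ J F A V z z' G → Ψ J F B V z z' G)
    (Ψc : ∀ (J : ℕ) (F : Fam m J) (A : F.Ω → Prop) (V : Type) (z : PtT F → V) (z' : LnT F → V)
      (G : V → MvPolynomial (Option (Fin m)) ℝ), Ψ J F A V z z' G →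
      ∀ ω, A ω → z (ptr F J ω) = z' (slam F ⌊w * J⌋₊ ω))
    (hrow : Bas S (fun J F A => ∀ (V : Type) (z : PtT F → V) (z' : LnT F → V)
      (G : V → MvPolynomial (Option (Fin m)) ℝ), Ψ J F A V z z' G →
      CH (Pool.Agent.H49.Ent.cond F.p A True) (xa F κ z' ⌊w * J⌋₊ G s₂)
        (ya F I₀ κ z' ⌊w * J⌋₊ G s₁) ≤ d * J))
    {R ε : ℝ} (hR : 1 ≤ R) (hε : 0 < ε) :
    Bas S (fun J F B => ∀ (V : Type) (z : PtT F → V) (z' : LnT F → V)
      (G : V → MvPolynomial (Option (Fin m)) ℝ), Ψ J F B V z z' G →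
      ∀ (W k : ℕ) (xo : F.Ω → V3) (Jo : F.Ω → Po) (Y₀ : Type) (y₀ : F.Ω → Y₀)
        (DT D₀ D₁ E₁ E₂ δ h e : ℝ), ⌊w * J⌋₊ ≤ W → W + k ≤ ⌊a * J⌋₊ →
      Cl2 (slam F (W + k)) (fun ω => ptr F J ω) B xo →
      Cl2 (slam F (W + k)) (fun ω => ptr F J ω) B Jo →
      Cl2 (slam F W) (fun ω => ptr F J ω) B y₀ → 0 ≤ DT → 0 ≤ D₀ → 0 ≤ D₁ → 0 ≤ E₁ → 0 ≤ E₂ →
      PosR F B k (c 0) (c 1) xo y₀ DT D₀ D₁ →
      ValR F B k (c 0) (c 1) xo Jo y₀ (xa F κ z' ⌊w * J⌋₊ G s₁) (xa F κ z' ⌊w * J⌋₊ G s₂) E₁ E₂ →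
      Real.log (E₁ + 1) + Real.log (E₂ + 1) ≤ δ * J →
      Real.log (DT + 1) + Real.log (D₀ + 1) + Real.log (D₁ + 1) ≤
        ((J : ℝ) - ((W + k : ℕ) : ℝ)) * Real.log 2 +
          (2 - sf 0 - sf 1) * Real.log 2 * J + δ * J →
      (d + ε + (R + 1) * δ) * J ≤ (1 - h) * Real.log ((2 ^ k : ℕ) : ℝ) + e →
      WinN F B W k xo Jo e h R) := by
  classical
  have hl2 : 0 < Real.log 2 := Real.log_pos one_lt_two
  have hl7 : 0 < Real.log 7 := Real.log_pos (by norm_num)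
  have hR0 : 0 < R := by linarith
  -- the constants
  obtain ⟨η, hη⟩ : ∃ η : ℝ, η = min 1 (ε / (8 * (d + 1))) := ⟨_, rfl⟩
  have hη0 : 0 < η := by
    rw [hη]
    exact lt_min one_pos (by positivity)
  have hη1 : η * d ≤ ε / 8 := by
    have h1 : η ≤ ε / (8 * (d + 1)) := hη ▸ min_le_right _ _
    have h2 : η * d ≤ ε / (8 * (d + 1)) * d := mul_le_mul_of_nonneg_right h1 hd
    refine h2.trans ?_
    rw [div_mul_eq_mul_div, div_le_div_iff₀ (by positivity) (by norm_num)]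
    nlinarith
  obtain ⟨V', hV'⟩ : ∃ V' : ℝ, V' = (s₂ - s₁) * Real.log 2 + Real.log 7 := ⟨_, rfl⟩
  have hV'0 : 0 < V' := by
    rw [hV']
    have := mul_nonneg (sub_nonneg.2 hs) hl2.le
    linarith
  obtain ⟨c₀, hc₀⟩ : ∃ c₀ : ℝ, c₀ = ε * η / (16 * R * (1 + η) * V') := ⟨_, rfl⟩
  have hc0 : 0 < c₀ := by
    rw [hc₀]
    positivity
  have hc1 : R * c₀ * (1 + η) / η * V' = ε / 16 := by
    rw [hc₀]
    field_simp
  obtain ⟨n, hn⟩ : ∃ n : ℕ, R / (1 + η) ^ n * V' ≤ ε / 16 := by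
    obtain ⟨n, hn⟩ := exists_pow_lt_of_lt_one (show 0 < ε / (16 * R * V') by positivity)
      (show (1 + η)⁻¹ < 1 from inv_lt_one_of_one_lt₀ (by linarith))
    refine ⟨n, ?_⟩
    rw [inv_pow] at hn
    have h1 : R / (1 + η) ^ n * V' = R * V' * ((1 + η) ^ n)⁻¹ := by
      rw [div_eq_mul_inv]
      ring
    rw [h1]
    have h2 : R * V' * ((1 + η) ^ n)⁻¹ ≤ R * V' * (ε / (16 * R * V')) :=
      mul_le_mul_of_nonneg_left hn.le (by positivity)
    refine h2.trans (le_of_eq ?_)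
    field_simp
  obtain ⟨ρ, hρ⟩ : ∃ ρ : ℝ, ρ = ε / (16 * R * (Real.log 2 + 1)) := ⟨_, rfl⟩
  have hρ0 : 0 < ρ := by
    rw [hρ]
    positivity
  have hρ1 : R * (2 * (ρ * Real.log 2)) ≤ ε / 8 := by
    have h1 : ρ * (Real.log 2 + 1) = ε / (16 * R) := by
      rw [hρ]
      field_simp
    have h2 : R * (ρ * (Real.log 2 + 1)) = ε / 16 := by
      rw [h1]
      field_simp
    nlinarith [mul_pos hR0 hρ0]
  obtain ⟨ε₁, hε₁⟩ : ∃ ε₁ : ℝ, ε₁ = ε / (8 * R) := ⟨_, rfl⟩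
  have hε₁0 : 0 < ε₁ := by
    rw [hε₁]
    positivity
  have hε₁1 : R * ε₁ = ε / 8 := by
    rw [hε₁]
    field_simp
  obtain ⟨J₂, hJ₂⟩ := exists_nat_ge ((Real.log (n + 1) + R * (Real.log 3 + Real.log 2) + 1) /
    (ε / 8))
  refine Bas.mono (max J₂ 1) (((Pool.LBK.Bas.ev hrow hc0).and (full_cls hS hε₁0)).and
    (hful ρ hρ0)) ?_
  rintro J hJ F B ⟨⟨Hr, hB, hT⟩, Hf⟩ V z z' G hΨ W k xo Jo Y₀ y₀ DT D₀ D₁ E₁ E₂ δ h e hwW hWa cx cJ
    cy p1 p2 p3 p4 p5 hpr hvr q1 q2 q3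
  have hJ1 : 1 ≤ J := (le_max_right _ _).trans hJ
  have hJ0 : (1 : ℝ) ≤ J := by exact_mod_cast hJ1
  have haJ : ⌊a * J⌋₊ ≤ J := by
    refine Nat.floor_le_of_le ?_
    nlinarith
  have hWk : W + k ≤ J := hWa.trans haJ
  -- time
  have kT : ((J : ℝ) - ((W + k : ℕ) : ℝ)) * Real.log 2 - (ε₁ * J + Real.log 3) ≤
      CH (Pool.Agent.H49.Ent.cond F.p B True) (fun ω => F.W ω) (slam F (W + k)) := by
    have h1 := hT (W + k) (J - (W + k)) (by omega)
    have h2 : ((J : ℝ) - ((W + k : ℕ) : ℝ)) * Real.log 2 ≤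
        Real.log (2 * ((2 ^ (J - (W + k)) : ℕ) : ℝ) + 1) := by
      have e1 : ((J : ℝ) - ((W + k : ℕ) : ℝ)) = ((J - (W + k) : ℕ) : ℝ) := by
        rw [Nat.cast_sub hWk]
      rw [e1, ← Real.log_pow]
      refine Real.log_le_log (by positivity) ?_
      push_cast
      have : (1 : ℝ) ≤ 2 ^ (J - (W + k)) := one_le_pow₀ one_le_two
      linarith
    have h3 : CH (Pool.Agent.H49.Ent.cond F.p B True) (dg F (W + k) (J - (W + k)))
        (slam F (W + k)) ≤ CH (Pool.Agent.H49.Ent.cond F.p B True) (fun ω => F.W ω)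
          (slam F (W + k)) :=
      CH_mono_left (isLaw_cond F.isLaw hB).nonneg fun ω ω' a b e => by
        simp only [Prod.mk.injEq] at e
        have e4 : F.T ω = F.T ω' := congrArg Prod.fst e.1
        unfold dg Fam.T1
        rw [e4]
    linarith
  -- the positions
  have k01 : ∀ (V₂ : Type) (z₂ : PtT F → V₂) (z₂' : LnT F → V₂),
      (∀ ω, B ω → z₂ (ptr F J ω) = z₂' (slam F (W + k) ω)) →
      (1 - sf 0 - ρ) * Real.log 2 * J ≤ CH (Pool.Agent.H49.Ent.cond F.p B True)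
        (fun ω => F.X J ω (c 0)) (fun ω => (z₂' (slam F (W + k) ω), F.W ω)) ∧
      (1 - sf 1 - ρ) * Real.log 2 * J ≤ CH (Pool.Agent.H49.Ent.cond F.p B True)
        (fun ω => F.X J ω (c 1)) (fun ω => (F.X J ω (c 0), z₂' (slam F (W + k) ω), F.W ω)) := by
    intro V₂ z₂ z₂' hz₂
    obtain ⟨D', hD'⟩ := lift_D F hWa haJ z₂'
    have h1 := Hf V₂ z₂ D' (fun ω hω => by rw [hD', hz₂ ω hω])
    have hn0 := (isLaw_cond F.isLaw hB).nonneg
    refine ⟨(h1 0 le_rfl (by norm_num)).trans ?_, (h1 1 (by norm_num) (by norm_num)).trans ?_⟩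
    · refine CH_mono_cond hn0 fun ω ω' _ _ e => ?_
      simp only [Prod.mk.injEq] at e ⊢
      rw [hD', hD'] at e
      exact e.2
    · refine CH_mono_cond hn0 fun ω ω' _ _ e => ?_
      simp only [Prod.mk.injEq] at e ⊢
      rw [hD', hD'] at e
      exact ⟨congrFun e.1 0, e.2⟩
  refine winN_fam F hB hWk hwW hI₀ cx cJ (Ψc J F B V z z' G hΨ) hs cy p1 p2 p3 p4 p5 hpr hvr kT k01
    hc0 hη0 (U := d * J) (mul_nonneg hd (by linarith)) hR (n := n)
    (fun A hA hP => Hr A hA hP V z z' G (Ψs J F B A V z z' G hA hΨ)) ?_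
  -- the numbers
  have n1 : (1 + η) * (d * J) ≤ (d + ε / 8) * J := by nlinarith
  have n2 : (R * c₀ * (1 + η) / η + R / (1 + η) ^ n) *
      ((s₂ - s₁) * Real.log 2 * J + Real.log 7) ≤ ε / 8 * J := by
    have h1 : (s₂ - s₁) * Real.log 2 * J + Real.log 7 ≤ V' * J := by
      rw [hV']
      nlinarith
    have h2 : 0 ≤ R * c₀ * (1 + η) / η + R / (1 + η) ^ n := by positivity
    have h3 := mul_le_mul_of_nonneg_left h1 h2
    refine h3.trans ?_
    have h4 : (R * c₀ * (1 + η) / η + R / (1 + η) ^ n) * (V' * J) =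
        (R * c₀ * (1 + η) / η * V' + R / (1 + η) ^ n * V') * J := by ring
    rw [h4, hc1]
    have h5 : ε / 16 + R / (1 + η) ^ n * V' ≤ ε / 8 := by linarith
    exact mul_le_mul_of_nonneg_right h5 (by linarith)
  have n3 : Real.log (n + 1) + R * (Real.log 3 + Real.log 2) ≤ ε / 8 * J := by
    have h1 : (Real.log (n + 1) + R * (Real.log 3 + Real.log 2) + 1) / (ε / 8) ≤ J :=
      hJ₂.trans (by exact_mod_cast (le_max_left _ _).trans hJ)
    rw [div_le_iff₀ (by positivity)] at h1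
    linarith
  have n4 : R * (Real.log (DT + 1) + Real.log (D₀ + 1) + Real.log (D₁ + 1) -
      ((((J : ℝ) - ((W + k : ℕ) : ℝ)) * Real.log 2 - (ε₁ * J + Real.log 3)) +
        (1 - sf 0 - ρ) * Real.log 2 * J + (1 - sf 1 - ρ) * Real.log 2 * J) + Real.log 2) ≤
      R * δ * J + ε / 4 * J + R * (Real.log 3 + Real.log 2) := by
    have h1 : Real.log (DT + 1) + Real.log (D₀ + 1) + Real.log (D₁ + 1) -
      ((((J : ℝ) - ((W + k : ℕ) : ℝ)) * Real.log 2 - (ε₁ * J + Real.log 3)) +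
        (1 - sf 0 - ρ) * Real.log 2 * J + (1 - sf 1 - ρ) * Real.log 2 * J) + Real.log 2 ≤
        δ * J + ε₁ * J + 2 * (ρ * Real.log 2) * J + (Real.log 3 + Real.log 2) := by
      nlinarith
    have h2 := mul_le_mul_of_nonneg_left h1 hR0.le
    refine h2.trans ?_
    have h3 : R * (δ * J + ε₁ * J + 2 * (ρ * Real.log 2) * J + (Real.log 3 + Real.log 2)) =
        R * δ * J + (R * ε₁) * J + R * (2 * (ρ * Real.log 2)) * J +
          R * (Real.log 3 + Real.log 2) := by ring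
    rw [h3, hε₁1]
    have h4 : R * (2 * (ρ * Real.log 2)) * J ≤ ε / 8 * J :=
      mul_le_mul_of_nonneg_right hρ1 (by linarith)
    linarith
  have n5 : (d + ε + (R + 1) * δ) * J = (d + ε / 8) * J + ε / 8 * J + ε / 8 * J + δ * J +
      R * δ * J + ε / 4 * J + 3 * (ε / 8 * J) := by ring
  have n6 : 0 ≤ ε / 8 * (J : ℝ) := by positivity
  linarith

end Pool.STB
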