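import Pool.Agent.H98.STB.NfC
import Pool.Agent.H65.STB.Pos

/-!
# The readings of the exact position and of the target

`posR_of`: the structure `PosR` from the positions in closed coordinates. `valR_of`: the structure
`ValR` from a formula for the target at the exact point.
-/

set_option autoImplicit false

namespace Pool.STB

open Finset Real
open Pool.Agent.H49.Ent Pool.Agent.H32.Dense Pool.STK Pool.KA Pool.KSAT Pool.K2S Pool.PB Pool.S6C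
open Pool.GEN Pool.CHT Pool.CHX Pool.D2Con Pool.D2A Pool.D2F Pool.RCD
open Pool.STB82 Pool.ALT Pool.STB65
open Pool.PB.Trl (rt rt_mem t_rt)

variable {m : ℕ}

/-- The cells of two vectors are equal. -/
theorem cv_near {M : ℕ} (hM : 0 < M) {v v' : V3} (h : cv M v = cv M v') (j : Fin 3) :
    |v j - v' j| ≤ 1 / M := by
  have hM' : (0 : ℝ) < M := by exact_mod_cast hM
  have h1 : ⌊(M : ℝ) * v j⌋ = ⌊(M : ℝ) * v' j⌋ := congrFun h j
  have h2 := Int.abs_sub_lt_one_of_floor_eq_floor h1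
  rw [← mul_sub, abs_mul, abs_of_pos hM'] at h2
  rw [le_div_iff₀ hM']
  linarith

/-- Two floors of near numbers. -/
theorem fl_near {x y D : ℝ} (h : |x - y| ≤ D) : |((⌊x⌋ : ℤ) : ℝ) - ((⌊y⌋ : ℤ) : ℝ)| ≤ D + 1 := by
  have h1 := abs_le.1 h
  have a1 := Int.floor_le x
  have a2 := Int.lt_floor_add_one x
  have b1 := Int.floor_le y
  have b2 := Int.lt_floor_add_one y
  rw [abs_le]
  constructor <;> linarith

/-- **The readings of the exact position** from the positions in closed coordinates: `y 0` is the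
relative time of the window `W₀`, `y 1` and `y 2` are the heights of `κ₀` over `b₀` and of `κ₁` over
`b₁`. -/
theorem posR_of {J : ℕ} (F : Fam m J) {B : F.Ω → Prop} {W₀ d k n : ℕ} {σ K : ℝ} {y : F.Ω → V3}
    {h : LnT F → Fin 3 → Polynomial ℝ} {ctr xo : ℕ → F.Ω → V3} {D₁ : LnT F → V3} (hσ : 0 < σ)
    (hO : PosO F B W₀ d k n σ K y h ctr xo D₁) {i : ℕ} (hi : i < n)
    (hJ : W₀ + d + i * k + k ≤ J) {κ₀ κ₁ : Fin m} {g₀ g₁ : ℕ} {b₀ b₁ : F.Ω → ℝ} {Lp : ℝ}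
    {Y₀ : Type} {y₀ : F.Ω → Y₀}
    (hc : ∀ ω ω', B ω → B ω' → y₀ ω = y₀ ω' → ctr i ω = ctr i ω' ∧
      (slam F W₀ ω).2.2 = (slam F W₀ ω').2.2)
    (h0 : ∀ ω, B ω → y ω 0 = rt F W₀ ω)
    (h1 : ∀ ω, B ω → y ω 1 = 2 ^ g₀ * (F.x ω κ₀ - b₀ ω))
    (h2 : ∀ ω, B ω → y ω 2 = 2 ^ g₁ * (F.x ω κ₁ - b₁ ω))
    (e0 : ∀ ω ω', B ω → B ω' → y₀ ω = y₀ ω' → F.W ω = F.W ω' → b₀ ω = b₀ ω')
    (e1 : ∀ ω ω', B ω → B ω' → y₀ ω = y₀ ω' → F.W ω = F.W ω' → F.X J ω κ₀ = F.X J ω' κ₀ →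
      |b₁ ω - b₁ ω'| ≤ Lp / 2 ^ J) :
    PosR F B k κ₀ κ₁ (xo i) y₀ (5 * σ * 2 ^ J / 2 ^ (W₀ + d + i * k + k))
      (5 * σ * 2 ^ J / 2 ^ (g₀ + d + i * k + k) + 1)
      (5 * σ * 2 ^ J / 2 ^ (g₁ + d + i * k + k) + Lp + 1) := by
  have hM : 0 < 2 ^ k := by positivity
  have hJp : (0 : ℝ) < 2 ^ J := by positivity
  -- the coordinates
  have hy : ∀ ω ω', B ω → B ω' → y₀ ω = y₀ ω' → cv (2 ^ k) (xo i ω) = cv (2 ^ k) (xo i ω') →
      ∀ j, |y ω j - y ω' j| ≤ 5 * σ / 2 ^ (d + i * k + k) := by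
    intro ω ω' hω hω' hyy hcv j
    have a1 := cv_near hM hcv j
    have a2 := hO.qx i hi ω hω j
    have a3 := hO.qx i hi ω' hω' j
    rw [Pi.sub_apply, Pi.smul_apply, smul_eq_mul, Pi.sub_apply] at a2 a3
    rw [(hc ω ω' hω hω' hyy).1] at a2
    have hR := Rs_pos (d := d) (k := k) hσ i
    have a4 : |Rs d k σ i * (y ω j - y ω' j)| ≤ 5 / 2 ^ k := by
      have e2 : Rs d k σ i * (y ω j - y ω' j) =
          (xo i ω j - xo i ω' j) - (xo i ω j - Rs d k σ i * (y ω j - ctr i ω' j)) +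
            (xo i ω' j - Rs d k σ i * (y ω' j - ctr i ω' j)) := by ring
      rw [e2]
      push_cast at a1
      have b1 := abs_le.1 a1
      have b2 := abs_le.1 a2
      have b3 := abs_le.1 a3
      have e3 : (5 : ℝ) / 2 ^ k = 1 / 2 ^ k + 2 / 2 ^ k + 2 / 2 ^ k := by ring
      rw [abs_le, e3]
      constructor <;> linarith
    rw [abs_mul, abs_of_pos hR] at a4
    have a5 : |y ω j - y ω' j| ≤ 5 / 2 ^ k / Rs d k σ i := by
      rw [le_div_iff₀ hR, mul_comm]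
      exact a4
    refine a5.trans (le_of_eq ?_)
    unfold Rs
    rw [pow_add 2 (d + i * k) k]
    field_simp
  refine ⟨?_, ?_, ?_⟩
  · intro ω ω' hω hω' hyy hcv
    have a1 := hy ω ω' hω hω' hyy hcv 0
    rw [h0 ω hω, h0 ω' hω'] at a1
    have a2 := (hc ω ω' hω hω' hyy).2
    have c1 : ∀ v : F.Ω, ((F.T v : ℤ) : ℝ) = 2 ^ J * F.t v := by
      intro v
      unfold Fam.t
      push_cast
      field_simp
    have hW : W₀ ≤ J := by omega
    rw [c1 ω, c1 ω', t_rt F hW ω, t_rt F hW ω', a2]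
    have e2 : (2 : ℝ) ^ J * ((((slam F W₀ ω').2.2 : ℝ) + rt F W₀ ω) / 2 ^ W₀) -
        2 ^ J * ((((slam F W₀ ω').2.2 : ℝ) + rt F W₀ ω') / 2 ^ W₀) =
        2 ^ J / 2 ^ W₀ * (rt F W₀ ω - rt F W₀ ω') := by ring
    rw [e2, abs_mul, abs_of_pos (by positivity)]
    refine (mul_le_mul_of_nonneg_left a1 (by positivity)).trans (le_of_eq ?_)
    rw [show W₀ + d + i * k + k = W₀ + (d + i * k + k) by ring, pow_add 2 W₀]
    field_simp
  · intro ω ω' hω hω' hyy hcv hWW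
    have a1 := hy ω ω' hω hω' hyy hcv 1
    rw [h1 ω hω, h1 ω' hω', e0 ω ω' hω hω' hyy hWW] at a1
    have e2 : (2 : ℝ) ^ g₀ * (F.x ω κ₀ - b₀ ω') - 2 ^ g₀ * (F.x ω' κ₀ - b₀ ω') =
        2 ^ g₀ * (F.x ω κ₀ - F.x ω' κ₀) := by ring
    rw [e2, abs_mul, abs_of_pos (by positivity : (0 : ℝ) < 2 ^ g₀)] at a1
    have a3 : |(2 : ℝ) ^ J * F.x ω κ₀ - 2 ^ J * F.x ω' κ₀| ≤
        5 * σ * 2 ^ J / 2 ^ (g₀ + d + i * k + k) := by
      rw [← mul_sub, abs_mul, abs_of_pos hJp]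
      rw [show g₀ + d + i * k + k = g₀ + (d + i * k + k) by ring, pow_add 2 g₀]
      rw [le_div_iff₀ (by positivity)]
      rw [le_div_iff₀ (by positivity)] at a1
      calc 2 ^ J * |F.x ω κ₀ - F.x ω' κ₀| * (2 ^ g₀ * 2 ^ (d + i * k + k)) =
          2 ^ J * (2 ^ g₀ * |F.x ω κ₀ - F.x ω' κ₀| * 2 ^ (d + i * k + k)) := by ring
        _ ≤ 2 ^ J * (5 * σ) := mul_le_mul_of_nonneg_left a1 hJp.le
        _ = 5 * σ * 2 ^ J := by ring
    exact fl_near a3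
  · intro ω ω' hω hω' hyy hcv hWW hX
    have a1 := hy ω ω' hω hω' hyy hcv 2
    rw [h2 ω hω, h2 ω' hω'] at a1
    have a4 := e1 ω ω' hω hω' hyy hWW hX
    have a5 : (2 : ℝ) ^ g₁ * |F.x ω κ₁ - F.x ω' κ₁| ≤
        5 * σ / 2 ^ (d + i * k + k) + 2 ^ g₁ * (Lp / 2 ^ J) := by
      have e2 : F.x ω κ₁ - F.x ω' κ₁ = ((F.x ω κ₁ - b₁ ω) - (F.x ω' κ₁ - b₁ ω')) +
          (b₁ ω - b₁ ω') := by ring
      have e3 : |(F.x ω κ₁ - b₁ ω) - (F.x ω' κ₁ - b₁ ω')| * 2 ^ g₁ ≤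
          5 * σ / 2 ^ (d + i * k + k) := by
        rw [← mul_sub, abs_mul, abs_of_pos (by positivity : (0 : ℝ) < 2 ^ g₁)] at a1
        linarith
      have e4 := abs_add_le ((F.x ω κ₁ - b₁ ω) - (F.x ω' κ₁ - b₁ ω')) (b₁ ω - b₁ ω')
      rw [← e2] at e4
      have hg : (0 : ℝ) < 2 ^ g₁ := by positivity
      nlinarith
    have a3 : |(2 : ℝ) ^ J * F.x ω κ₁ - 2 ^ J * F.x ω' κ₁| ≤
        5 * σ * 2 ^ J / 2 ^ (g₁ + d + i * k + k) + Lp := by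
      rw [← mul_sub, abs_mul, abs_of_pos hJp]
      have hg : (0 : ℝ) < 2 ^ g₁ := by positivity
      have e5 : |F.x ω κ₁ - F.x ω' κ₁| ≤
          (5 * σ / 2 ^ (d + i * k + k) + 2 ^ g₁ * (Lp / 2 ^ J)) / 2 ^ g₁ := by
        rw [le_div_iff₀ hg, mul_comm]
        exact a5
      refine (mul_le_mul_of_nonneg_left e5 hJp.le).trans (le_of_eq ?_)
      rw [show g₁ + d + i * k + k = g₁ + (d + i * k + k) by ring, pow_add 2 g₁]
      field_simp
    exact fl_near a3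

/-- **The readings of the target**: at the exact point `M val` is `μ hg - Cf` up to `E`, where `hg` is
the own height and `Cf` is nearly a function of the record and the exact position. -/
theorem valR_of {J : ℕ} (F : Fam m J) {B : F.Ω → Prop} {k : ℕ} {κ₀ κ₁ : Fin m} {xo : F.Ω → V3}
    {Jo : F.Ω → Po} {Y₀ : Type} {y₀ : F.Ω → Y₀} {hg Cf : F.Ω → ℝ} {a₁ a₂ μ E E' K : ℝ}
    (ha₁ : 0 < a₁) (ha₂ : 0 < a₂) (hμ : 0 < μ)
    (hv : ∀ ω, B ω → |((2 ^ k : ℕ) : ℝ) * MvPolynomial.eval (xo ω) (Jo ω) -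
      (μ * hg ω - Cf ω)| ≤ E)
    (hC : ∀ ω ω', B ω → B ω' → y₀ ω = y₀ ω' → F.W ω = F.W ω' → F.X J ω κ₀ = F.X J ω' κ₀ →
      F.X J ω κ₁ = F.X J ω' κ₁ → |Cf ω - Cf ω'| ≤ E')
    (hK : ∀ ω, B ω → |MvPolynomial.eval (xo ω) (Jo ω)| ≤ K) :
    ValR F B k κ₀ κ₁ xo Jo y₀ (fun ω => ⌊a₁ * hg ω⌋) (fun ω => ⌊a₂ * hg ω⌋)
      (a₁ / μ * (2 * K * 2 ^ k + 2 * E + E') + 1) (μ / a₂ + 2 * E + E' + 1) := by
  refine ⟨?_, ?_⟩
  · intro ω ω' hω hω' hyy hW h0 h1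
    have b1 := hv ω hω
    have b2 := hv ω' hω'
    have b3 := hC ω ω' hω hω' hyy hW h0 h1
    have b4 := hK ω hω
    have b5 := hK ω' hω'
    refine fl_near ?_
    rw [← mul_sub, abs_mul, abs_of_pos ha₁, div_mul_eq_mul_div, le_div_iff₀ hμ]
    have c1 : |μ * (hg ω - hg ω')| ≤ 2 * K * 2 ^ k + 2 * E + E' := by
      have e1 : μ * (hg ω - hg ω') =
          -(((2 ^ k : ℕ) : ℝ) * MvPolynomial.eval (xo ω) (Jo ω) - (μ * hg ω - Cf ω)) +
          (((2 ^ k : ℕ) : ℝ) * MvPolynomial.eval (xo ω') (Jo ω') - (μ * hg ω' - Cf ω')) +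
          (Cf ω - Cf ω') + ((2 ^ k : ℕ) : ℝ) * MvPolynomial.eval (xo ω) (Jo ω) -
          ((2 ^ k : ℕ) : ℝ) * MvPolynomial.eval (xo ω') (Jo ω') := by ring
      have hM : (0 : ℝ) < ((2 ^ k : ℕ) : ℝ) := by positivity
      have d1 : |((2 ^ k : ℕ) : ℝ) * MvPolynomial.eval (xo ω) (Jo ω)| ≤ K * 2 ^ k := by
        rw [abs_mul, abs_of_pos hM]
        push_cast
        have : (0 : ℝ) < 2 ^ k := by positivity
        nlinarith
      have d2 : |((2 ^ k : ℕ) : ℝ) * MvPolynomial.eval (xo ω') (Jo ω')| ≤ K * 2 ^ k := by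
        rw [abs_mul, abs_of_pos hM]
        push_cast
        have : (0 : ℝ) < 2 ^ k := by positivity
        nlinarith
      rw [e1]
      have f1 := abs_le.1 b1
      have f2 := abs_le.1 b2
      have f3 := abs_le.1 b3
      have f4 := abs_le.1 d1
      have f5 := abs_le.1 d2
      rw [abs_le]
      constructor <;> linarith
    rw [abs_mul, abs_of_pos hμ] at c1
    calc a₁ * |hg ω - hg ω'| * μ = a₁ * (μ * |hg ω - hg ω'|) := by ring
      _ ≤ a₁ * (2 * K * 2 ^ k + 2 * E + E') := mul_le_mul_of_nonneg_left c1 ha₁.le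
  · intro ω ω' hω hω' hyy hW h0 h1 hx
    have b1 := hv ω hω
    have b2 := hv ω' hω'
    have b3 := hC ω ω' hω hω' hyy hW h0 h1
    refine fl_near ?_
    have c1 : |a₂ * hg ω - a₂ * hg ω'| ≤ 1 := (Int.abs_sub_lt_one_of_floor_eq_floor hx).le
    rw [← mul_sub, abs_mul, abs_of_pos ha₂] at c1
    have c2 : |hg ω - hg ω'| ≤ 1 / a₂ := by
      rw [le_div_iff₀ ha₂, mul_comm]
      exact c1
    have c3 : |μ * (hg ω - hg ω')| ≤ μ / a₂ := by
      rw [abs_mul, abs_of_pos hμ]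
      refine (mul_le_mul_of_nonneg_left c2 hμ.le).trans (le_of_eq ?_)
      ring
    have e1 : ((2 ^ k : ℕ) : ℝ) * MvPolynomial.eval (xo ω) (Jo ω) -
        ((2 ^ k : ℕ) : ℝ) * MvPolynomial.eval (xo ω') (Jo ω') =
        (((2 ^ k : ℕ) : ℝ) * MvPolynomial.eval (xo ω) (Jo ω) - (μ * hg ω - Cf ω)) -
        (((2 ^ k : ℕ) : ℝ) * MvPolynomial.eval (xo ω') (Jo ω') - (μ * hg ω' - Cf ω')) +
        μ * (hg ω - hg ω') - (Cf ω - Cf ω') := by ring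
    rw [e1]
    have f1 := abs_le.1 b1
    have f2 := abs_le.1 b2
    have f3 := abs_le.1 b3
    have f4 := abs_le.1 c3
    rw [abs_le]
    constructor <;> linarith

end Pool.STB
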