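import Pool.Agent.H82.STB.Chp
import Pool.Agent.H19.STB.End
import Pool.Agent.H65.STB.Vtg
import Pool.Agent.H98.STB.NfC
import Pool.Agent.H98.STB.Rdg
import Pool.Agent.H2.GEN.ChU

/-!
# The data of the refutation from the jets

`re_of`: the data `Re` of the refutation for the target `c r`, `r = 2, 3`, from the positions and the jets in
closed coordinates, the value of the target at the position, and the boxes of a chart.
-/

set_option autoImplicit false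

namespace Pool.STB

open Finset Real MvPolynomial
open Pool.Agent.H49.Ent Pool.Agent.H32.Dense Pool.STK Pool.KA Pool.KSAT Pool.K2S Pool.PB Pool.S6C
open Pool.GEN Pool.CHT Pool.CHX Pool.D2F Pool.D2Con Pool.D2A Pool.RCD Pool.VIS24
open Pool.STB82 (yv)
open Pool.STB65 (PosO JetO nu Rs Rs_pos nu_pos)
open Pool.PB.Trl (rt rt_mem t_rt)

variable {m : ℕ}

/-- The coordinates of the positions, as polynomials. -/
noncomputable def yq (c : ℕ → Fin m) (W g1 T : ℕ) (P : MvPolynomial (Option (Fin m)) ℝ) :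
    Fin 3 → MvPolynomial (Option (Fin m)) ℝ :=
  ![C (2 ^ W) * X none - C (T : ℝ), C (2 ^ W) * X (some (c 0)), C (2 ^ g1) * (X (some (c 1)) - P)]

theorem yq_eval0 (c : ℕ → Fin m) (W g1 T : ℕ) (P : MvPolynomial (Option (Fin m)) ℝ)
    (b : Option (Fin m) → ℝ) : eval b (yq c W g1 T P 0) = 2 ^ W * b none - T := by
  show eval b (C (2 ^ W) * X none - C (T : ℝ)) = _
  rw [map_sub, map_mul, eval_C, eval_C, eval_X]

theorem yq_eval1 (c : ℕ → Fin m) (W g1 T : ℕ) (P : MvPolynomial (Option (Fin m)) ℝ)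
    (b : Option (Fin m) → ℝ) : eval b (yq c W g1 T P 1) = 2 ^ W * b (some (c 0)) := by
  show eval b (C (2 ^ W) * X (some (c 0))) = _
  rw [map_mul, eval_C, eval_X]

theorem yq_eval2 (c : ℕ → Fin m) (W g1 T : ℕ) (P : MvPolynomial (Option (Fin m)) ℝ)
    (b : Option (Fin m) → ℝ) : eval b (yq c W g1 T P 2) =
      2 ^ g1 * (b (some (c 1)) - eval b P) := by
  show eval b (C (2 ^ g1) * (X (some (c 1)) - P)) = _
  rw [map_mul, eval_C, map_sub, eval_X]

theorem yq_bt {J : ℕ} (F : Fam m J) (c : ℕ → Fin m) {W : ℕ} (hW : W ≤ J) (g1 : ℕ)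
    (Pl : LnT F → MvPolynomial (Option (Fin m)) ℝ) (ω : F.Ω) (j : Fin 3) :
    eval (bt F ω) (yq c W g1 (slam F W ω).2.2 (Pl (slam F W ω)) j) = yv F c W g1 Pl ω j := by
  fin_cases j
  · show eval (bt F ω) (yq c W g1 (slam F W ω).2.2 (Pl (slam F W ω)) 0) = rt F W ω
    rw [yq_eval0]
    have h1 := t_rt F hW ω
    show 2 ^ W * F.t ω - _ = _
    rw [h1]
    field_simp
    ring
  · show eval (bt F ω) (yq c W g1 (slam F W ω).2.2 (Pl (slam F W ω)) 1) = 2 ^ W * F.x ω (c 0)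
    rw [yq_eval1]
    rfl
  · show eval (bt F ω) (yq c W g1 (slam F W ω).2.2 (Pl (slam F W ω)) 2) =
      2 ^ g1 * (F.x ω (c 1) - eval (bt F ω) (Pl (slam F W ω)))
    rw [yq_eval2]
    rfl

theorem yq_dep {r : ℕ} (hr : 2 ≤ r) (c : ℕ → Fin m) (W g1 T : ℕ)
    {P : MvPolynomial (Option (Fin m)) ℝ} (hP : DepC c 1 P) (j : Fin 3) :
    DepC c r (yq c W g1 T P j) := by
  intro b b' hn hb
  fin_cases j
  · show eval b (yq c W g1 T P 0) = eval b' (yq c W g1 T P 0)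
    rw [yq_eval0, yq_eval0, hn]
  · show eval b (yq c W g1 T P 1) = eval b' (yq c W g1 T P 1)
    rw [yq_eval1, yq_eval1, hb 0 (by omega)]
  · show eval b (yq c W g1 T P 2) = eval b' (yq c W g1 T P 2)
    rw [yq_eval2, yq_eval2, hb 1 (by omega), hP b b' hn fun l hl => hb l (by omega)]

theorem yq_deg (c : ℕ → Fin m) (W g1 T : ℕ) {P : MvPolynomial (Option (Fin m)) ℝ} {K : ℕ}
    (hK : 1 ≤ K) (hP : P.totalDegree ≤ K) (j : Fin 3) : (yq c W g1 T P j).totalDegree ≤ K := by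
  have hX : ∀ o : Option (Fin m), (X o : MvPolynomial (Option (Fin m)) ℝ).totalDegree ≤ K :=
    fun o => (totalDegree_X o).le.trans hK
  have hCX : ∀ (r : ℝ) (Q : MvPolynomial (Option (Fin m)) ℝ), Q.totalDegree ≤ K →
      (C r * Q).totalDegree ≤ K := fun r Q hQ => by
    refine (totalDegree_mul _ _).trans ?_
    rw [totalDegree_C, zero_add]
    exact hQ
  fin_cases j
  · show (C (2 ^ W) * X none - C (T : ℝ) : MvPolynomial (Option (Fin m)) ℝ).totalDegree ≤ K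
    refine (totalDegree_sub _ _).trans (max_le (hCX _ _ (hX _)) ?_)
    rw [totalDegree_C]
    exact Nat.zero_le _
  · show (C (2 ^ W) * X (some (c 0)) : MvPolynomial (Option (Fin m)) ℝ).totalDegree ≤ K
    exact hCX _ _ (hX _)
  · show (C (2 ^ g1) * (X (some (c 1)) - P) : MvPolynomial (Option (Fin m)) ℝ).totalDegree ≤ K
    exact hCX _ _ ((totalDegree_sub _ _).trans (max_le (hX _) hP))

/-- The derivatives of the coordinates. -/
theorem yq_pd (c : ℕ → Fin m) (hc : Set.InjOn c (Set.Iio 3)) (W g1 T : ℕ) {e : ℕ}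
    (hW : W ≤ g1 + e) {P : MvPolynomial (Option (Fin m)) ℝ} (hP : DepC c 1 P)
    {b : Option (Fin m) → ℝ}
    (he : |eval b (pderiv (some (c 0)) P)| ≤ 2 ^ e) (j : Fin 3) :
    |eval b (pderiv (some (c 0)) (yq c W g1 T P j))| ≤ 2 ^ (g1 + e) ∧
    |eval b (pderiv (some (c 1)) (yq c W g1 T P j))| ≤ 2 ^ g1 ∧
    |eval b (pderiv (some (c 2)) (yq c W g1 T P j))| ≤ 0 := by
  have m0 : (0 : ℕ) ∈ Set.Iio 3 := by norm_num
  have m1 : (1 : ℕ) ∈ Set.Iio 3 := by norm_num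
  have m2 : (2 : ℕ) ∈ Set.Iio 3 := by norm_num
  have h01 : c 0 ≠ c 1 := fun h => absurd (hc m0 m1 h) (by norm_num)
  have h02 : c 0 ≠ c 2 := fun h => absurd (hc m0 m2 h) (by norm_num)
  have h12 : c 1 ≠ c 2 := fun h => absurd (hc m1 m2 h) (by norm_num)
  have z1 : eval b (pderiv (some (c 1)) P) = 0 := Pool.CHT.DepC.pd_zero hP (by simp) (fun l hl h => by
    have : l = 0 := by omega
    subst this
    exact h01 (Option.some.inj h).symm) b
  have z2 : eval b (pderiv (some (c 2)) P) = 0 := Pool.CHT.DepC.pd_zero hP (by simp) (fun l hl h => by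
    have : l = 0 := by omega
    subst this
    exact h02 (Option.some.inj h).symm) b
  have hp : (2 : ℝ) ^ W ≤ 2 ^ (g1 + e) := pow_le_pow_right₀ one_le_two hW
  have hp2 : (2 : ℝ) ^ g1 ≤ 2 ^ (g1 + e) := pow_le_pow_right₀ one_le_two (by omega)
  have hp0 : (0 : ℝ) < 2 ^ g1 := by positivity
  have hp1 : (0 : ℝ) < 2 ^ (g1 + e) := by positivity
  have a0 : ∀ l : ℕ, pderiv (some (c l)) (yq c W g1 T P 0) = 0 := fun l => by
    show pderiv (some (c l)) (C (2 ^ W) * X none - C (T : ℝ)) = 0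
    rw [map_sub, pderiv_C, pderiv_C_mul, pderiv_X_of_ne (by simp), mul_zero, sub_zero]
  have a1 : ∀ l : ℕ, pderiv (some (c l)) (yq c W g1 T P 1) =
      C (2 ^ W) * pderiv (some (c l)) (X (some (c 0))) := fun l => by
    show pderiv (some (c l)) (C (2 ^ W) * X (some (c 0))) = _
    rw [pderiv_C_mul]
  have a2 : ∀ l : ℕ, pderiv (some (c l)) (yq c W g1 T P 2) =
      C (2 ^ g1) * (pderiv (some (c l)) (X (some (c 1))) - pderiv (some (c l)) P) := fun l => by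
    show pderiv (some (c l)) (C (2 ^ g1) * (X (some (c 1)) - P)) = _
    rw [pderiv_C_mul, map_sub]
  fin_cases j
  · refine ⟨?_, ?_, ?_⟩
    · show |eval b (pderiv (some (c 0)) (yq c W g1 T P 0))| ≤ _
      rw [a0, map_zero, abs_zero]
      positivity
    · show |eval b (pderiv (some (c 1)) (yq c W g1 T P 0))| ≤ _
      rw [a0, map_zero, abs_zero]
      positivity
    · show |eval b (pderiv (some (c 2)) (yq c W g1 T P 0))| ≤ _
      rw [a0, map_zero, abs_zero]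
  · refine ⟨?_, ?_, ?_⟩
    · show |eval b (pderiv (some (c 0)) (yq c W g1 T P 1))| ≤ _
      rw [a1, pderiv_X_self, map_mul, eval_C, map_one, mul_one, abs_of_pos (by positivity)]
      exact hp
    · show |eval b (pderiv (some (c 1)) (yq c W g1 T P 1))| ≤ _
      rw [a1, pderiv_X_of_ne (by simpa using h01), mul_zero, map_zero, abs_zero]
      positivity
    · show |eval b (pderiv (some (c 2)) (yq c W g1 T P 1))| ≤ _
      rw [a1, pderiv_X_of_ne (by simpa using h02), mul_zero, map_zero, abs_zero]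
  · refine ⟨?_, ?_, ?_⟩
    · show |eval b (pderiv (some (c 0)) (yq c W g1 T P 2))| ≤ _
      rw [a2, pderiv_X_of_ne (by simpa using h01.symm), map_mul, eval_C, map_sub, map_zero,
        zero_sub, abs_mul, abs_neg, abs_of_pos hp0, pow_add]
      exact mul_le_mul_of_nonneg_left he hp0.le
    · show |eval b (pderiv (some (c 1)) (yq c W g1 T P 2))| ≤ _
      rw [a2, pderiv_X_self, map_mul, eval_C, map_sub, map_one, z1, sub_zero, mul_one,
        abs_of_pos hp0]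
    · show |eval b (pderiv (some (c 2)) (yq c W g1 T P 2))| ≤ _
      rw [a2, pderiv_X_of_ne (by simpa using h12), map_mul, eval_C, map_sub, map_zero, z2,
        sub_zero, mul_zero, abs_zero]

/-- The normalised coordinates. -/
noncomputable def qn (c : ℕ → Fin m) (W g1 T : ℕ) (P : MvPolynomial (Option (Fin m)) ℝ) (R : ℝ)
    (ctr : V3) (j : Fin 3) : MvPolynomial (Option (Fin m)) ℝ := C R * (yq c W g1 T P j - C (ctr j))

theorem qn_eval (c : ℕ → Fin m) (W g1 T : ℕ) (P : MvPolynomial (Option (Fin m)) ℝ) (R : ℝ)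
    (ctr : V3) (j : Fin 3) (b : Option (Fin m) → ℝ) : eval b (qn c W g1 T P R ctr j) =
      R * (eval b (yq c W g1 T P j) - ctr j) := by
  unfold qn
  rw [map_mul, eval_C, map_sub, eval_C]

theorem qn_pd (c : ℕ → Fin m) (W g1 T : ℕ) (P : MvPolynomial (Option (Fin m)) ℝ) (R : ℝ)
    (ctr : V3) (j : Fin 3) (b : Option (Fin m) → ℝ) (o : Option (Fin m)) :
    eval b (pderiv o (qn c W g1 T P R ctr j)) = R * eval b (pderiv o (yq c W g1 T P j)) := by
  unfold qn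
  rw [pderiv_C_mul, map_sub, pderiv_C, sub_zero, map_mul, eval_C]

/-- The closed part of the target. -/
noncomputable def cg (c : ℕ → Fin m) (W g1 T : ℕ) (P : MvPolynomial (Option (Fin m)) ℝ) (R : ℝ)
    (ctr : V3) (mu : ℝ) (G : MvPolynomial (Option (Fin m)) ℝ) (Ci : Po) :
    MvPolynomial (Option (Fin m)) ℝ := G + C mu * bind₁ (qn c W g1 T P R ctr) Ci

theorem cg_eval (c : ℕ → Fin m) (W g1 T : ℕ) (P : MvPolynomial (Option (Fin m)) ℝ) (R : ℝ)
    (ctr : V3) (mu : ℝ) (G : MvPolynomial (Option (Fin m)) ℝ) (Ci : Po) (b : Option (Fin m) → ℝ) :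
    eval b (cg c W g1 T P R ctr mu G Ci) = eval b G +
      mu * eval (fun j => eval b (qn c W g1 T P R ctr j)) Ci := by
  unfold cg
  rw [map_add, map_mul, eval_C, Pool.STB77.eval_bnd]

/-- The derivatives of the closed part. -/
theorem cg_pd (c : ℕ → Fin m) (W g1 T : ℕ) (P : MvPolynomial (Option (Fin m)) ℝ) {R : ℝ}
    (hR : 0 < R) (ctr : V3) {mu : ℝ} (hmu : 0 ≤ mu) (G : MvPolynomial (Option (Fin m)) ℝ) (Ci : Po)
    (b : Option (Fin m) → ℝ) (o : Option (Fin m)) {L G' Lm : ℝ} (hG' : 0 ≤ G')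
    (h1 : |eval b (pderiv o G)| ≤ L)
    (h2 : ∀ j, mu * |eval (fun j => eval b (qn c W g1 T P R ctr j)) (pderiv j Ci)| ≤ G' / R)
    (h3 : ∀ j, |eval b (pderiv o (yq c W g1 T P j))| ≤ Lm) :
    |eval b (pderiv o (cg c W g1 T P R ctr mu G Ci))| ≤ L + 3 * (G' * Lm) := by
  unfold cg
  rw [map_add, pderiv_C_mul, pd_bind₁, map_add, map_mul, eval_C, map_sum]
  refine (abs_add_le _ _).trans (add_le_add h1 ?_)
  rw [abs_mul, abs_of_nonneg hmu]
  have h4 : ∀ j : Fin 3, mu * |eval b (bind₁ (qn c W g1 T P R ctr) (pderiv j Ci) *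
      pderiv o (qn c W g1 T P R ctr j))| ≤ G' * Lm := by
    intro j
    rw [map_mul, Pool.STB77.eval_bnd, qn_pd, abs_mul, abs_mul, abs_of_pos hR]
    calc mu * (|eval (fun o => eval b (qn c W g1 T P R ctr o)) (pderiv j Ci)| *
          (R * |eval b (pderiv o (yq c W g1 T P j))|)) =
        (mu * |eval (fun o => eval b (qn c W g1 T P R ctr o)) (pderiv j Ci)|) *
          (R * |eval b (pderiv o (yq c W g1 T P j))|) := by ring
      _ ≤ (G' / R) * (R * Lm) := mul_le_mul (h2 j) (mul_le_mul_of_nonneg_left (h3 j) hR.le)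
          (by positivity) (by positivity)
      _ = G' * Lm := by field_simp
  calc mu * |∑ j, eval b (bind₁ (qn c W g1 T P R ctr) (pderiv j Ci) *
        pderiv o (qn c W g1 T P R ctr j))| ≤
      mu * ∑ j, |eval b (bind₁ (qn c W g1 T P R ctr) (pderiv j Ci) *
        pderiv o (qn c W g1 T P R ctr j))| :=
        mul_le_mul_of_nonneg_left (Finset.abs_sum_le_sum_abs _ _) hmu
    _ = ∑ j, mu * |eval b (bind₁ (qn c W g1 T P R ctr) (pderiv j Ci) *
        pderiv o (qn c W g1 T P R ctr j))| := Finset.mul_sum _ _ _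
    _ ≤ ∑ _j : Fin 3, G' * Lm := Finset.sum_le_sum fun j _ => h4 j
    _ = 3 * (G' * Lm) := by
        rw [Finset.sum_const, Finset.card_univ, Fintype.card_fin, nsmul_eq_mul]
        norm_num

theorem cg_dep {r : ℕ} (hr : 2 ≤ r) (c : ℕ → Fin m) (W g1 T : ℕ)
    {P : MvPolynomial (Option (Fin m)) ℝ}
    (hP : DepC c 1 P) (R : ℝ) (ctr : V3) (mu : ℝ) {G : MvPolynomial (Option (Fin m)) ℝ}
    (hG : DepC c r G) (Ci : Po) : DepC c r (cg c W g1 T P R ctr mu G Ci) := by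
  intro b b' hn hb
  rw [cg_eval, cg_eval, hG b b' hn hb]
  have h1 : (fun j => eval b (qn c W g1 T P R ctr j)) = fun j => eval b' (qn c W g1 T P R ctr j) := by
    funext j
    rw [qn_eval, qn_eval, yq_dep hr c W g1 T hP j b b' hn hb]
  rw [h1]

theorem qn_dep {r : ℕ} (hr : 2 ≤ r) (c : ℕ → Fin m) (W g1 T : ℕ)
    {P : MvPolynomial (Option (Fin m)) ℝ}
    (hP : DepC c 1 P) (R : ℝ) (ctr : V3) (j : Fin 3) : DepC c r (qn c W g1 T P R ctr j) := by
  intro b b' hn hb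
  rw [qn_eval, qn_eval, yq_dep hr c W g1 T hP j b b' hn hb]

theorem qn_deg (c : ℕ → Fin m) (W g1 T : ℕ) {P : MvPolynomial (Option (Fin m)) ℝ} {K : ℕ}
    (hK : 1 ≤ K) (hP : P.totalDegree ≤ K) (R : ℝ) (ctr : V3) (j : Fin 3) :
    (qn c W g1 T P R ctr j).totalDegree ≤ K := by
  unfold qn
  refine (totalDegree_mul _ _).trans ?_
  rw [totalDegree_C, zero_add]
  refine (totalDegree_sub _ _).trans (max_le (yq_deg c W g1 T hK hP j) ?_)
  rw [totalDegree_C]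
  exact Nat.zero_le _

theorem cg_deg (c : ℕ → Fin m) (W g1 T : ℕ) {P : MvPolynomial (Option (Fin m)) ℝ} {K KQ b' : ℕ}
    (hK : 1 ≤ KQ) (hP : P.totalDegree ≤ KQ) (R : ℝ) (ctr : V3) (mu : ℝ)
    {G : MvPolynomial (Option (Fin m)) ℝ} (hG : G.totalDegree ≤ K) {Ci : Po}
    (hC : Ci.totalDegree ≤ b') (hb : b' * KQ ≤ K) :
    (cg c W g1 T P R ctr mu G Ci).totalDegree ≤ K := by
  unfold cg
  refine (totalDegree_add _ _).trans (max_le hG ?_)
  refine (totalDegree_mul _ _).trans ?_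
  rw [totalDegree_C, zero_add]
  refine (Pool.STB77.deg_bnd _ (fun j => qn_deg c W g1 T hK hP R ctr j) Ci).trans ?_
  exact (Nat.mul_le_mul_right _ hC).trans hb

/-- Cut to the polynomials of a class. -/
noncomputable def gd (c : ℕ → Fin m) (i K : ℕ) (P : MvPolynomial (Option (Fin m)) ℝ) :
    MvPolynomial (Option (Fin m)) ℝ := by
  classical
  exact if P.totalDegree ≤ K ∧ DepC c i P then P else 0

theorem gd_deg (c : ℕ → Fin m) (i K : ℕ) (P : MvPolynomial (Option (Fin m)) ℝ) :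
    (gd c i K P).totalDegree ≤ K := by
  unfold gd
  split_ifs with h
  · exact h.1
  · rw [totalDegree_zero]
    exact Nat.zero_le _

theorem gd_dep (c : ℕ → Fin m) (i K : ℕ) (P : MvPolynomial (Option (Fin m)) ℝ) :
    DepC c i (gd c i K P) := by
  unfold gd
  split_ifs with h
  · exact h.2
  · intro b b' _ _
    rw [map_zero, map_zero]

theorem gd_of {c : ℕ → Fin m} {i K : ℕ} {P : MvPolynomial (Option (Fin m)) ℝ}
    (h1 : P.totalDegree ≤ K) (h2 : DepC c i P) : gd c i K P = P := by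
  unfold gd
  exact if_pos ⟨h1, h2⟩

/-- The bounds of the derivatives of the coordinates. -/
noncomputable def lm (g1 e : ℕ) (l : ℕ) : ℝ := if l = 0 then 2 ^ (g1 + e) else if l = 1 then 2 ^ g1
  else 0

theorem lm_nonneg (g1 e l : ℕ) : 0 ≤ lm g1 e l := by
  unfold lm
  split_ifs <;> positivity

theorem yq_lm (c : ℕ → Fin m) (hc : Set.InjOn c (Set.Iio 3)) (W g1 T : ℕ) {e : ℕ}
    (hW : W ≤ g1 + e) {P : MvPolynomial (Option (Fin m)) ℝ} (hP : DepC c 1 P)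
    {b : Option (Fin m) → ℝ}
    (he : |eval b (pderiv (some (c 0)) P)| ≤ 2 ^ e) (j : Fin 3) {l : ℕ} (hl : l < 3) :
    |eval b (pderiv (some (c l)) (yq c W g1 T P j))| ≤ lm g1 e l := by
  have h := yq_pd c hc W g1 T hW hP he j
  unfold lm
  interval_cases l
  · exact h.1
  · exact h.2.1
  · exact h.2.2

/-- **The data of the refutation** for the target `c r`, `r = 2` or `r = 3`. `T`: the closed part of
the target, `f` its height in closed coordinates. -/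
theorem re_of {r : ℕ} (hr2 : 2 ≤ r) (hr3 : r ≤ 3) {J : ℕ} {F : Fam m J} {B : F.Ω → Prop}
    {c : ℕ → Fin m}
    (hc : Set.InjOn c (Set.Iio 3)) {W₀ d k n b g1 g₃ e₁' s K KQ p e₁ : ℕ}
    {σ κ Kp Kc Gr Ev KJ : ℝ} {Pv : PtT F → MvPolynomial (Option (Fin m)) ℝ}
    {Pl : LnT F → MvPolynomial (Option (Fin m)) ℝ}
    {h : LnT F → Fin 3 → Polynomial ℝ} {ctr xo : ℕ → F.Ω → V3} {D₁ : LnT F → V3}
    {f : ℕ → PtT F → Po} {ji : ℕ → ℕ} {Jo Ci : ℕ → F.Ω → Po} {Φ₁ : LnT F → Po}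
    (O : PosO F B W₀ d k n σ Kp (yv F c W₀ g1 Pl) h ctr xo D₁)
    (Jt : JetO F B W₀ d k n b σ κ Kc Gr (yv F c W₀ g1 Pl) f ji ctr xo Jo Ci Φ₁)
    {i : ℕ} (hi : i < n) (hJ : W₀ + d + i * k ≤ J) (hσ : 0 < σ) (hκ : 0 < κ) (hGr : 0 ≤ Gr)
    (hPd : ∀ y, (Pv y).totalDegree ≤ KQ) (hPp : ∀ y, DepC c 1 (Pv y)) (hQ1 : 1 ≤ KQ)
    (hbK : b * KQ ≤ K) (hWg : W₀ ≤ g1 + e₁')
    (hPc : ∀ ω, B ω → Pv (ptr F J ω) = Pl (slam F W₀ ω))
    (hPl : ∀ ω, B ω → ∀ b : Option (Fin m) → ℝ, |b none - F.t ω| ≤ 1 / 2 ^ W₀ →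
      |b (some (c 0)) - F.x ω (c 0)| ≤ 1 / 2 ^ W₀ →
      |eval b (pderiv (some (c 0)) (Pv (ptr F J ω)))| ≤ 2 ^ e₁')
    {T : F.Ω → MvPolynomial (Option (Fin m)) ℝ}
    (cT : Cl2 (slam F (W₀ + d + i * k)) (fun ω => ptr F J ω) B T)
    (dT : ∀ ω, B ω → (T ω).totalDegree ≤ K) (pT : ∀ ω, B ω → DepC c r (T ω))
    (hT : ∀ ω, B ω → |eval (yv F c W₀ g1 Pl ω) (f (ji i) (ptr F J ω)) -
      2 ^ g₃ * (F.x ω (c r) - eval (bt F ω) (T ω))| ≤ Ev)
    {Gc : PtT F → ℕ → MvPolynomial (Option (Fin m)) ℝ} {gc : ℕ → ℕ} {LT Λ : ℕ → ℝ}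
    (hx0 : ∀ ω, B ω → ∀ b, NBx c (Gc (ptr F J ω)) gc (W₀ + d + i * k) (F.t ω) r b →
      |b (some (c 0)) - F.x ω (c 0)| ≤ 2 ^ s / 2 ^ (W₀ + d + i * k))
    (hx1 : ∀ ω, B ω → ∀ b, NBx c (Gc (ptr F J ω)) gc (W₀ + d + i * k) (F.t ω) r b →
      |(b (some (c 1)) - eval b (Pv (ptr F J ω))) -
        (F.x ω (c 1) - eval (bt F ω) (Pv (ptr F J ω)))| ≤ 2 ^ s / 2 ^ (g1 + (d + i * k)))
    (hlT : ∀ ω, B ω → ∀ b, NBx c (Gc (ptr F J ω)) gc (W₀ + d + i * k) (F.t ω) r b → ∀ l < r,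
      |eval b (pderiv (some (c l)) (T ω))| ≤ LT l)
    (hs : 2 * 2 ^ s ≤ σ) (hsd : s ≤ d + i * k)
    (hpos : nu κ (Rs d k σ i) b / 2 ^ g₃ * (Kc / 2 ^ k) + Ev / 2 ^ g₃ ≤ 1 / 2 ^ (p + 1))
    (hl : ∀ l < r, LT l + 3 * (Gr / 2 ^ g₃ * lm g1 e₁' l) ≤
      2 ^ (e₁ + nlp (fun j => if j < r then gc j else p) l r))
    (hΛ : ∀ l < r, Rs d k σ i * lm g1 e₁' l ≤ Λ l)
    {Zt : Type} {zp : PtT F → Zt} {x : Zt → V3} {Jz : Zt → Po}
    (hx : ∀ ω, B ω → x (zp (ptr F J ω)) = xo i ω)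
    (hJz : ∀ ω, B ω → Jz (zp (ptr F J ω)) = Jo i ω) (x1 : ∀ r', Bx 1 (x r'))
    (J1 : ∀ r', (Jz r').totalDegree ≤ b ∧ ∀ q, Bx 1 q → |eval q (Jz r')| ≤ KJ) :
    ∃ (V : Type) (zc : PtT F → V) (zc' : LnT F → V) (CG : V → MvPolynomial (Option (Fin m)) ℝ)
      (Q : V → Fin 3 → MvPolynomial (Option (Fin m)) ℝ),
      Re F c r K KQ (W₀ + d + i * k) e₁ p b gc B Gc zc zc' CG Q Λ zp x Jz
        (nu κ (Rs d k σ i) b / 2 ^ g₃) KJ (2 / 2 ^ k) := by
  classical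
  have hW : W₀ ≤ J := by omega
  obtain ⟨R, hRd⟩ : ∃ R, R = Rs d k σ i := ⟨_, rfl⟩
  have hR : 0 < R := hRd ▸ Rs_pos hσ i
  have hRe : R * (2 ^ s / 2 ^ (d + i * k)) ≤ 1 / 2 := by
    rw [hRd]
    unfold Rs
    have h1 : (2 : ℝ) ^ (d + i * k) / σ * (2 ^ s / 2 ^ (d + i * k)) = 2 ^ s / σ := by
      have : (2 : ℝ) ^ (d + i * k) ≠ 0 := by positivity
      field_simp
    rw [h1, div_le_iff₀ hσ]
    linarith
  rw [← hRd] at hpos hΛ ⊢
  obtain ⟨mu, hmu⟩ : ∃ mu, mu = nu κ R b / 2 ^ g₃ := ⟨_, rfl⟩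
  have hnu : 0 < nu κ R b := nu_pos hκ hR b
  have hmu0 : 0 ≤ mu := by rw [hmu]; positivity
  rw [← hmu] at hpos ⊢
  -- the codes
  have hcs : ∀ ω, Pool.STB77.cos F W₀ (W₀ + d + i * k) (slam F (W₀ + d + i * k) ω) = slam F W₀ ω :=
    fun ω => Pool.STB77.cos_slam F (by omega) hJ ω
  have cτ : Cl2 (slam F (W₀ + d + i * k)) (fun ω => ptr F J ω) B (fun ω => (slam F W₀ ω).2.2) := by
    refine ⟨⟨fun S => (Pool.STB77.cos F W₀ (W₀ + d + i * k) S).2.2, fun ω _ => ?_⟩,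
      fun y => y.2.1 / 2 ^ (J - W₀), fun ω _ => rfl⟩
    show _ = (Pool.STB77.cos F W₀ (W₀ + d + i * k) (slam F (W₀ + d + i * k) ω)).2.2
    rw [hcs ω]
  have cP : Cl2 (slam F (W₀ + d + i * k)) (fun ω => ptr F J ω) B (fun ω => Pv (ptr F J ω)) := by
    refine ⟨⟨fun S => Pl (Pool.STB77.cos F W₀ (W₀ + d + i * k) S), fun ω hω => ?_⟩,
      fun y => Pv y, fun ω _ => rfl⟩
    show _ = Pl (Pool.STB77.cos F W₀ (W₀ + d + i * k) (slam F (W₀ + d + i * k) ω))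
    rw [hcs ω]
    exact hPc ω hω
  have cA := (cτ.join cP).join (((O.cc i hi).join (Jt.cC i hi)).join cT)
  have cE := cA.comp (fun a => ((cg c W₀ g1 a.1.1 a.1.2 R a.2.1.1 mu a.2.2 a.2.1.2,
    qn c W₀ g1 a.1.1 a.1.2 R a.2.1.1) :
      MvPolynomial (Option (Fin m)) ℝ × (Fin 3 → MvPolynomial (Option (Fin m)) ℝ)))
  obtain ⟨⟨φ, hφ⟩, ψ, hψ⟩ := cE
  have hbd : b - 1 ≤ b := Nat.sub_le b 1
  have hbd2 : (b - 1) * KQ ≤ K := (Nat.mul_le_mul_right _ hbd).trans hbK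
  have eG : ∀ ω, B ω → gd c r K (ψ (ptr F J ω)).1 =
      cg c W₀ g1 (slam F W₀ ω).2.2 (Pv (ptr F J ω)) R (ctr i ω) mu (T ω) (Ci i ω) := by
    intro ω hω
    rw [← hψ ω hω]
    exact gd_of (cg_deg c W₀ g1 _ hQ1 (hPd _) R _ mu (dT ω hω) (Jt.dC i ω) hbd2)
      (cg_dep hr2 c W₀ g1 _ (hPp _) R _ mu (pT ω hω) _)
  have eQ : ∀ ω, B ω → ∀ j, gd c r KQ ((ψ (ptr F J ω)).2 j) =
      qn c W₀ g1 (slam F W₀ ω).2.2 (Pv (ptr F J ω)) R (ctr i ω) j := by
    intro ω hω j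
    rw [← hψ ω hω]
    exact gd_of (qn_deg c W₀ g1 _ hQ1 (hPd _) R _ j) (qn_dep hr2 c W₀ g1 _ (hPp _) R _ j)
  have eq0 : ∀ ω, B ω → (fun j => eval (bt F ω) (qn c W₀ g1 (slam F W₀ ω).2.2
      (Pv (ptr F J ω)) R (ctr i ω) j)) = R • (yv F c W₀ g1 Pl ω - ctr i ω) := by
    intro ω hω
    funext j
    rw [qn_eval, hPc ω hω, yq_bt F c hW]
    rfl
  -- the box
  have hbox : ∀ ω, B ω → ∀ b, NBx c (Gc (ptr F J ω)) gc (W₀ + d + i * k) (F.t ω) r b →
      Bx 1 (fun j => eval b (qn c W₀ g1 (slam F W₀ ω).2.2 (Pv (ptr F J ω)) R (ctr i ω) j)) := by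
    intro ω hω b hb j
    have a1 : |eval b (yq c W₀ g1 (slam F W₀ ω).2.2 (Pv (ptr F J ω)) j) - yv F c W₀ g1 Pl ω j| ≤
        2 ^ s / 2 ^ (d + i * k) := by
      rw [← yq_bt F c hW g1 Pl ω j, ← hPc ω hω]
      have p1 : (2 : ℝ) ^ (W₀ + d + i * k) = 2 ^ W₀ * 2 ^ (d + i * k) := by
        rw [← pow_add, add_assoc]
      have p2 : (2 : ℝ) ^ (g1 + (d + i * k)) = 2 ^ g1 * 2 ^ (d + i * k) := pow_add _ _ _
      have p3 : (1 : ℝ) ≤ 2 ^ s := one_le_pow₀ one_le_two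
      have hP0 : (0 : ℝ) < 2 ^ (d + i * k) := by positivity
      fin_cases j
      · show |eval b (yq c W₀ g1 (slam F W₀ ω).2.2 (Pv (ptr F J ω)) 0) -
          eval (bt F ω) (yq c W₀ g1 (slam F W₀ ω).2.2 (Pv (ptr F J ω)) 0)| ≤ _
        rw [yq_eval0, yq_eval0]
        have e1 : 2 ^ W₀ * b none - ((slam F W₀ ω).2.2 : ℝ) -
            (2 ^ W₀ * bt F ω none - ((slam F W₀ ω).2.2 : ℝ)) = 2 ^ W₀ * (b none - F.t ω) := by
          show _ - (2 ^ W₀ * F.t ω - _) = _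
          ring
        rw [e1, abs_mul, abs_of_pos (by positivity)]
        calc (2 : ℝ) ^ W₀ * |b none - F.t ω| ≤ 2 ^ W₀ * (1 / 2 ^ (W₀ + d + i * k)) :=
              mul_le_mul_of_nonneg_left hb.1 (by positivity)
          _ = 1 / 2 ^ (d + i * k) := by
              rw [p1]
              field_simp
          _ ≤ 2 ^ s / 2 ^ (d + i * k) := div_le_div_of_nonneg_right p3 hP0.le
      · show |eval b (yq c W₀ g1 (slam F W₀ ω).2.2 (Pv (ptr F J ω)) 1) -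
          eval (bt F ω) (yq c W₀ g1 (slam F W₀ ω).2.2 (Pv (ptr F J ω)) 1)| ≤ _
        rw [yq_eval1, yq_eval1, ← mul_sub, abs_mul, abs_of_pos (show (0 : ℝ) < 2 ^ W₀ by positivity)]
        calc (2 : ℝ) ^ W₀ * |b (some (c 0)) - bt F ω (some (c 0))| ≤
              2 ^ W₀ * (2 ^ s / 2 ^ (W₀ + d + i * k)) :=
              mul_le_mul_of_nonneg_left (hx0 ω hω b hb) (by positivity)
          _ = 2 ^ s / 2 ^ (d + i * k) := by
              rw [p1]
              field_simp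
      · show |eval b (yq c W₀ g1 (slam F W₀ ω).2.2 (Pv (ptr F J ω)) 2) -
          eval (bt F ω) (yq c W₀ g1 (slam F W₀ ω).2.2 (Pv (ptr F J ω)) 2)| ≤ _
        rw [yq_eval2, yq_eval2, ← mul_sub, abs_mul, abs_of_pos (show (0 : ℝ) < 2 ^ g1 by positivity)]
        calc (2 : ℝ) ^ g1 * |b (some (c 1)) - eval b (Pv (ptr F J ω)) -
                (bt F ω (some (c 1)) - eval (bt F ω) (Pv (ptr F J ω)))| ≤
              2 ^ g1 * (2 ^ s / 2 ^ (g1 + (d + i * k))) :=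
              mul_le_mul_of_nonneg_left (hx1 ω hω b hb) (by positivity)
          _ = 2 ^ s / 2 ^ (d + i * k) := by
              rw [p2]
              field_simp
    have a2 := O.q1 i hi ω hω j
    rw [← hRd, Pi.smul_apply, smul_eq_mul, Pi.sub_apply] at a2
    show |eval b (qn c W₀ g1 (slam F W₀ ω).2.2 (Pv (ptr F J ω)) R (ctr i ω) j)| ≤ 1
    rw [qn_eval]
    have a3 : |R * (eval b (yq c W₀ g1 (slam F W₀ ω).2.2 (Pv (ptr F J ω)) j) -
        yv F c W₀ g1 Pl ω j)| ≤ 1 / 2 := by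
      rw [abs_mul, abs_of_pos hR]
      exact (mul_le_mul_of_nonneg_left a1 hR.le).trans hRe
    rw [abs_le] at a2 a3 ⊢
    constructor <;> nlinarith
  refine ⟨MvPolynomial (Option (Fin m)) ℝ × (Fin 3 → MvPolynomial (Option (Fin m)) ℝ), ψ, φ,
    fun v => gd c r K v.1, fun v j => gd c r KQ (v.2 j), ?_⟩
  constructor
  · intro ω hω
    rw [← hψ ω hω, ← hφ ω hω]
  · exact fun v => gd_deg c r K _
  · exact fun v => gd_dep c r K _
  · exact fun v j => gd_deg c r KQ _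
  · exact fun v j => gd_dep c r KQ _
  · exact hbK
  · exact hmu0
  · intro ω hω
    have b1 := Jt.val i hi ω hω
    rw [← hRd] at b1
    rw [eG ω hω, cg_eval]
    simp only [eQ ω hω]
    rw [eq0 ω hω, hJz ω hω]
    have b2 := hT ω hω
    obtain ⟨q, hq⟩ : ∃ q, q = R • (yv F c W₀ g1 Pl ω - ctr i ω) := ⟨_, rfl⟩
    obtain ⟨fv, hfv⟩ : ∃ fv, fv = eval (yv F c W₀ g1 Pl ω) (f (ji i) (ptr F J ω)) := ⟨_, rfl⟩
    rw [← hq, ← hfv] at b1
    rw [← hfv] at b2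
    rw [← hq]
    have hg3 : (0 : ℝ) < 2 ^ g₃ := by positivity
    have c1 : F.x ω (c r) - (eval (bt F ω) (T ω) + mu * eval q (Ci i ω) +
        mu * eval q (Jo i ω)) =
        -(fv - 2 ^ g₃ * (F.x ω (c r) - eval (bt F ω) (T ω))) / 2 ^ g₃ -
          mu * (eval q (Jo i ω) + eval q (Ci i ω) - fv / nu κ R b) := by
      rw [hmu]
      field_simp
      ring
    rw [c1]
    have c2 : |-(fv - 2 ^ g₃ * (F.x ω (c r) - eval (bt F ω) (T ω))) / 2 ^ g₃| ≤ Ev / 2 ^ g₃ := by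
      rw [abs_div, abs_neg, abs_of_pos hg3]
      exact div_le_div_of_nonneg_right b2 hg3.le
    have c3 : |mu * (eval q (Jo i ω) + eval q (Ci i ω) - fv / nu κ R b)| ≤ mu * (Kc / 2 ^ k) := by
      rw [abs_mul, abs_of_nonneg hmu0]
      exact mul_le_mul_of_nonneg_left b1 hmu0
    refine (abs_sub _ _).trans ?_
    linarith
  · intro ω hω j
    simp only [eQ ω hω]
    have a1 := O.qx i hi ω hω j
    rw [← hRd] at a1
    have a2 := congrFun (eq0 ω hω) j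
    rw [a2, hx ω hω, abs_sub_comm]
    exact a1
  · intro ω hω b' hb' l hl3
    rw [eG ω hω]
    have q1 := hbox ω hω b' hb'
    have pW : (2 : ℝ) ^ (W₀ + d + i * k) = 2 ^ W₀ * 2 ^ (d + i * k) := by
      rw [← pow_add, add_assoc]
    have t1 : |b' none - F.t ω| ≤ 1 / 2 ^ W₀ := by
      refine hb'.1.trans ?_
      refine one_div_le_one_div_of_le (by positivity) (pow_le_pow_right₀ one_le_two (by omega))
    have t2 : |b' (some (c 0)) - F.x ω (c 0)| ≤ 1 / 2 ^ W₀ := by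
      refine (hx0 ω hω b' hb').trans ?_
      rw [pW, div_le_div_iff₀ (by positivity) (by positivity), one_mul]
      have : (2 : ℝ) ^ s ≤ 2 ^ (d + i * k) := pow_le_pow_right₀ one_le_two hsd
      nlinarith [show (0 : ℝ) < 2 ^ W₀ by positivity]
    have hmuG : ∀ j, mu * |eval (fun j => eval b' (qn c W₀ g1 (slam F W₀ ω).2.2
        (Pv (ptr F J ω)) R (ctr i ω) j)) (pderiv j (Ci i ω))| ≤ Gr / 2 ^ g₃ / R := by
      intro j
      have g1' := Jt.grad i hi ω hω j _ q1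
      rw [← hRd] at g1'
      rw [hmu, div_mul_eq_mul_div, div_div, mul_comm (2 ^ g₃ : ℝ) R, ← div_div]
      exact div_le_div_of_nonneg_right g1' (by positivity)
    refine (cg_pd c W₀ g1 _ _ hR _ hmu0 _ _ _ _ (by positivity) (hlT ω hω b' hb' l hl3) hmuG
      (fun j => yq_lm c hc W₀ g1 _ hWg (hPp _) (hPl ω hω b' t1 t2) j (by omega))).trans ?_
    exact hl l hl3
  · intro ω hω b' hb' l hl3 j
    simp only [eQ ω hω]
    have pW : (2 : ℝ) ^ (W₀ + d + i * k) = 2 ^ W₀ * 2 ^ (d + i * k) := by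
      rw [← pow_add, add_assoc]
    have t1 : |b' none - F.t ω| ≤ 1 / 2 ^ W₀ := by
      refine hb'.1.trans ?_
      refine one_div_le_one_div_of_le (by positivity) (pow_le_pow_right₀ one_le_two (by omega))
    have t2 : |b' (some (c 0)) - F.x ω (c 0)| ≤ 1 / 2 ^ W₀ := by
      refine (hx0 ω hω b' hb').trans ?_
      rw [pW, div_le_div_iff₀ (by positivity) (by positivity), one_mul]
      have : (2 : ℝ) ^ s ≤ 2 ^ (d + i * k) := pow_le_pow_right₀ one_le_two hsd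
      nlinarith [show (0 : ℝ) < 2 ^ W₀ by positivity]
    rw [qn_pd, abs_mul, abs_of_pos hR]
    exact (mul_le_mul_of_nonneg_left (yq_lm c hc W₀ g1 _ hWg (hPp _) (hPl ω hω b' t1 t2) j (by omega))
      hR.le).trans (hΛ l hl3)
  · intro ω hω b' hb' j
    simp only [eQ ω hω]
    exact hbox ω hω b' hb' j
  · exact x1
  · exact J1

end Pool.STB
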