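import Pool.Agent.H98.STB.End2

/-!
# `EndStmt` from `StarStmt`
-/

set_option autoImplicit false

namespace Pool.STB

open Finset Real MvPolynomial
open Pool.Agent.H49.Ent Pool.Agent.H32.Dense Pool.STK Pool.MIC
open Pool.BFL (Pb)

/-- Larger errors. -/
theorem ChH.mono {Ω Λ Z Y 𝒟 : Type} [Fintype Ω] {p : Ω → ℝ} {L : Ω → Λ} {z : Ω → Z} {y : Ω → Y}
    {t : Ω → ℤ} {D : Λ → 𝒟} {X : 𝒟 → V3} {Φ : 𝒟 → Po} {x : Z → V3} {J : Z → Po} {b M : ℕ}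
    {K e h R η c K' e' R' c' : ℝ} (H : ChH p L z y t D X Φ x J b M K e h R η c)
    (hK : K ≤ K') (he : e ≤ e') (hR : R' ≤ R) (hc : c ≤ c') (hM : 1 ≤ M) :
    ChH p L z y t D X Φ x J b M K' e' h R' η c' where
  law := H.law
  yL := H.yL
  yz := H.yz
  tz := H.tz
  tM := H.tM
  full := by have := H.full; linarith
  free := by have := H.free; linarith
  X1 := H.X1
  Φ1 := H.Φ1
  x1 := H.x1
  J1 := fun r => ⟨(H.J1 r).1, fun q hq => ((H.J1 r).2 q hq).trans hK⟩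
  pos := fun ω ω' h1 h2 h3 i => (H.pos ω ω' h1 h2 h3 i).trans
    (div_le_div_of_nonneg_right hK (by positivity))
  jet := fun ω ω' h1 h2 h3 q hq => (H.jet ω ω' h1 h2 h3 q hq).trans
    (div_le_div_of_nonneg_right hK (by positivity))
  nf := fun q hq hd => by
    have h1 := H.nf q hq fun ω => (hd ω).trans (mul_le_mul_of_nonneg_right hR (H.law.nonneg ω))
    linarith
  gp := fun Hc h1 => (H.gp Hc h1).trans hc

/-- The constants. -/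
theorem end_const {C γ κ : ℝ} (hC : 1 ≤ C) (hγ : 0 < γ) (hκ : 0 < κ) : ∃ M₀ : ℕ, 1 ≤ M₀ ∧
    ∀ M : ℕ, M₀ ≤ M → 2 * C ≤ (M : ℝ) ^ γ ∧ C ≤ (M : ℝ) ^ κ := by
  obtain ⟨N₁, hN₁⟩ := exists_nat_ge ((2 * C) ^ (1 / γ))
  obtain ⟨N₂, hN₂⟩ := exists_nat_ge (C ^ (1 / κ))
  refine ⟨max 1 (max N₁ N₂), le_max_left _ _, fun M hM => ?_⟩
  have h1 : N₁ ≤ M := (le_max_left _ _).trans ((le_max_right _ _).trans hM)
  have h2 : N₂ ≤ M := (le_max_right _ _).trans ((le_max_right _ _).trans hM)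
  have a1 : (2 * C) ^ (1 / γ) ≤ (M : ℝ) := hN₁.trans (by exact_mod_cast h1)
  have a2 : C ^ (1 / κ) ≤ (M : ℝ) := hN₂.trans (by exact_mod_cast h2)
  constructor
  · calc 2 * C = ((2 * C) ^ (1 / γ)) ^ γ := by
          rw [← Real.rpow_mul (by linarith), one_div_mul_cancel hγ.ne', Real.rpow_one]
      _ ≤ (M : ℝ) ^ γ := Real.rpow_le_rpow (by positivity) a1 hγ.le
  · calc C = (C ^ (1 / κ)) ^ κ := by
          rw [← Real.rpow_mul (by linarith), one_div_mul_cancel hκ.ne', Real.rpow_one]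
      _ ≤ (M : ℝ) ^ κ := Real.rpow_le_rpow (by positivity) a2 hκ.le

/-- **The end, with a gain which does not depend on `κ`.** -/
def EndStmt2 : Prop := ∀ (b : ℕ) (h c' : ℝ), 1 ≤ b → 0 < h → 0 < c' →
  ∃ γ : ℝ, 0 < γ ∧ ∀ κ : ℝ, 0 < κ → ∃ γ₀ e₀ c R : ℝ, ∃ M₀ : ℕ, 0 < γ₀ ∧ γ₀ ≤ κ ∧ 0 < e₀ ∧
  0 < c ∧ 0 < R ∧
  ∀ (M : ℕ), M₀ ≤ M → ∀ (Ω Λ Z Y 𝒟 : Type) [Fintype Ω] (p : Ω → ℝ) (L : Ω → Λ) (z : Ω → Z)
    (y : Ω → Y) (t : Ω → ℤ) (D : Λ → 𝒟) (X : 𝒟 → V3) (Φ : 𝒟 → Po) (x : Z → V3) (J : Z → Po),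
    ChH p L z y t D X Φ x J b M ((M : ℝ) ^ e₀) (e₀ * Real.log M) h R ((M : ℝ) ^ (-γ₀)) c →
    ∃ f : Z → Po, (∀ r, Hb b ((M : ℝ) ^ κ) (f r)) ∧
      Pb (glue p p L L) (fun w => ¬ ∀ q, Bx 1 q →
        |(eval q (J (z w.1)) + eval (q - x (z w.1)) (f (z w.1))) -
          (eval q (J (z w.2)) + eval (q - x (z w.2)) (f (z w.2)))| ≤ (M : ℝ) ^ (-γ)) ≤ c'

/-- **`EndStmt2` from `StarStmt`.** -/
theorem end_of2 (hS : StarStmt) : EndStmt2 := by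
  intro b h c' hb hh hc'
  have hb1 : (1 : ℝ) ≤ b := by exact_mod_cast hb
  obtain ⟨C, hC, hpp⟩ := pp_of_star b hb
  obtain ⟨γ, γ₁, hγ, hγ₁, hS⟩ := hS b h (c' / 28) hb hh (by positivity)
  -- the exponents
  obtain ⟨g, hg⟩ : ∃ g : ℝ, g = min γ (1 / 2) := ⟨_, rfl⟩
  have hg0 : 0 < g := by
    rw [hg]
    exact lt_min hγ (by norm_num)
  have hgγ : g ≤ γ := by rw [hg]; exact min_le_left _ _
  have hg2 : g ≤ 1 / 2 := by rw [hg]; exact min_le_right _ _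
  refine ⟨g / 4, by positivity, fun κ hκ => ?_⟩
  obtain ⟨γ₀, hγ₀⟩ : ∃ γ₀ : ℝ, γ₀ = min γ₁ (min g κ / (16 * b)) := ⟨_, rfl⟩
  have hgm : 0 < min g κ := lt_min hg0 hκ
  have hγ₀0 : 0 < γ₀ := by
    rw [hγ₀]
    exact lt_min hγ₁ (by positivity)
  have hγ₀1 : γ₀ ≤ γ₁ := by rw [hγ₀]; exact min_le_left _ _
  have hγ₀3 : 4 * b * γ₀ ≤ min g κ / 4 := by
    have h1 : γ₀ ≤ min g κ / (16 * b) := by rw [hγ₀]; exact min_le_right _ _
    rw [le_div_iff₀ (by positivity)] at h1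
    linarith
  have hγ₀2 : 4 * b * γ₀ ≤ g / 4 := by linarith [min_le_left g κ]
  have hγ₀κ : 4 * b * γ₀ ≤ κ / 4 := by linarith [min_le_right g κ]
  obtain ⟨e₀, c, R, M₁, he₀, hc, hR, hS⟩ := hS γ₀ hγ₀0 hγ₀1
  obtain ⟨M₂, hM₂, hM⟩ := end_const (γ := g / 4) (κ := κ / 2) hC (by positivity) (by positivity)
  refine ⟨γ₀, min e₀ (1 / 2), min c (c' / 12), R, max M₁ M₂, hγ₀0, by nlinarith,
    lt_min he₀ (by norm_num), lt_min hc (by positivity), hR, ?_⟩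
  intro M hMM Ω Λ Z Y 𝒟 _ p L z y t D X Φ x J H
  have hM1 : M₁ ≤ M := (le_max_left _ _).trans hMM
  have hM2 : M₂ ≤ M := (le_max_right _ _).trans hMM
  have hM1' : 1 ≤ M := hM₂.trans hM2
  have hMr : (1 : ℝ) ≤ M := by exact_mod_cast hM1'
  have hM0 : (0 : ℝ) < M := by linarith
  obtain ⟨m1, m2⟩ := hM M hM2
  have hlog : 0 ≤ Real.log M := Real.log_nonneg hMr
  have H' : ChH p L z y t D X Φ x J b M ((M : ℝ) ^ e₀) (e₀ * Real.log M) h R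
      ((M : ℝ) ^ (-γ₀)) c := H.mono
    (Real.rpow_le_rpow_of_exponent_le hMr (min_le_left _ _))
    (mul_le_mul_of_nonneg_right (min_le_left _ _) hlog) le_rfl (min_le_left _ _) hM1'
  have hst := hS M hM1 Ω Λ Z Y 𝒟 p L z y t D X Φ x J H'
  obtain ⟨η, hη⟩ : ∃ η : ℝ, η = (M : ℝ) ^ (-γ₀) := ⟨_, rfl⟩
  have hη0 : 0 < η := by rw [hη]; positivity
  have hη1 : η ≤ 1 := by
    rw [hη]
    exact Real.rpow_le_one_of_one_le_of_nonpos hMr (by linarith)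
  have hη4 : η ^ 4 = (M : ℝ) ^ (-γ₀ * 4) := by
    rw [hη, ← Real.rpow_natCast, ← Real.rpow_mul hM0.le]
    norm_num
  have hηb : η ^ (4 * b) = (M : ℝ) ^ (-(4 * b * γ₀)) := by
    rw [hη, ← Real.rpow_natCast, ← Real.rpow_mul hM0.le]
    congr 1
    push_cast
    ring
  rw [← hη4] at hst
  have hD : ∀ ω ω', 0 < p ω → 0 < p ω' → L ω = L ω' →
      X (D (L ω)) = X (D (L ω')) ∧ Φ (D (L ω)) = Φ (D (L ω')) := fun ω ω' _ _ e => by
    rw [e]; exact ⟨rfl, rfl⟩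
  have hK1 : (1 : ℝ) ≤ (M : ℝ) ^ min e₀ (1 / 2) :=
    Real.one_le_rpow hMr (le_min he₀.le (by norm_num))
  have hK2 : (M : ℝ) ^ min e₀ (1 / 2) ≤ M := by
    calc (M : ℝ) ^ min e₀ (1 / 2) ≤ (M : ℝ) ^ (1 : ℝ) :=
          Real.rpow_le_rpow_of_exponent_le hMr ((min_le_right _ _).trans (by norm_num))
      _ = M := Real.rpow_one _
  obtain ⟨f, hf, hPb⟩ := hpp H.law L z t (fun ω => X (D (L ω))) (fun ω => Φ (D (L ω))) x J
    (K := (M : ℝ) ^ min e₀ (1 / 2)) (η := η) (δ := (M : ℝ) ^ (-γ)) (c := min c (c' / 12))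
    (c₁ := c' / 28) hM1' hK1 hK2 hη0 hη1 (by positivity) hD H.tM (fun ω => H.X1 _)
    (fun ω => H.Φ1 _) H.x1 H.pos H.jet (by rw [hη]; exact H.gp) hst
  have hinv : 1 / η ^ (4 * b) = (M : ℝ) ^ (4 * b * γ₀) := by
    rw [hηb, Real.rpow_neg hM0.le, one_div, inv_inv]
  refine ⟨f, fun r => hb_mono (hf r) ?_, ?_⟩
  · have e1 : C / η ^ (4 * b) = C * (M : ℝ) ^ (4 * b * γ₀) := by
      rw [← hinv]
      ring
    rw [e1]
    calc C * (M : ℝ) ^ (4 * b * γ₀) ≤ (M : ℝ) ^ (κ / 2) * (M : ℝ) ^ (κ / 2) := by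
          refine mul_le_mul m2 (Real.rpow_le_rpow_of_exponent_le hMr (by linarith))
            (by positivity) (by positivity)
      _ = (M : ℝ) ^ κ := by
          rw [← Real.rpow_add hM0]
          congr 1
          ring
  · have hfin : C * ((M : ℝ) ^ (-γ) + (M : ℝ) ^ min e₀ (1 / 2) / M) / η ^ (4 * b) ≤
        (M : ℝ) ^ (-(g / 4)) := by
      have e1 : C * ((M : ℝ) ^ (-γ) + (M : ℝ) ^ min e₀ (1 / 2) / M) / η ^ (4 * b) =
          C * ((M : ℝ) ^ (-γ) + (M : ℝ) ^ min e₀ (1 / 2) / M) * (M : ℝ) ^ (4 * b * γ₀) := by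
        rw [← hinv]
        ring
      rw [e1]
      have f1 : (M : ℝ) ^ (-γ) ≤ (M : ℝ) ^ (-g) :=
        Real.rpow_le_rpow_of_exponent_le hMr (by linarith)
      have f2 : (M : ℝ) ^ min e₀ (1 / 2) / M ≤ (M : ℝ) ^ (-g) := by
        calc (M : ℝ) ^ min e₀ (1 / 2) / M = (M : ℝ) ^ (min e₀ (1 / 2) - 1) := by
              rw [Real.rpow_sub hM0, Real.rpow_one]
          _ ≤ (M : ℝ) ^ (-g) := Real.rpow_le_rpow_of_exponent_le hMr (by
              have := min_le_right e₀ (1 / 2 : ℝ)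
              linarith)
      have f3 : (M : ℝ) ^ (4 * b * γ₀) ≤ (M : ℝ) ^ (g / 4) :=
        Real.rpow_le_rpow_of_exponent_le hMr hγ₀2
      have f4 : 0 < (M : ℝ) ^ (-g) := by positivity
      calc C * ((M : ℝ) ^ (-γ) + (M : ℝ) ^ min e₀ (1 / 2) / M) * (M : ℝ) ^ (4 * b * γ₀) ≤
            C * ((M : ℝ) ^ (-g) + (M : ℝ) ^ (-g)) * (M : ℝ) ^ (g / 4) := by
            refine mul_le_mul (mul_le_mul_of_nonneg_left (add_le_add f1 f2) (by linarith)) f3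
              (by positivity) (by positivity)
        _ = 2 * C * ((M : ℝ) ^ (-g) * (M : ℝ) ^ (g / 4)) := by ring
        _ ≤ (M : ℝ) ^ (g / 4) * ((M : ℝ) ^ (-g) * (M : ℝ) ^ (g / 4)) :=
            mul_le_mul_of_nonneg_right m1 (by positivity)
        _ = (M : ℝ) ^ (-(g / 2)) := by
            rw [← Real.rpow_add hM0, ← Real.rpow_add hM0]
            congr 1
            ring
        _ ≤ (M : ℝ) ^ (-(g / 4)) := Real.rpow_le_rpow_of_exponent_le hMr (by linarith)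
    have hsum : 14 * (c' / 28) + 6 * min c (c' / 12) ≤ c' := by
      have := min_le_right c (c' / 12)
      linarith
    refine (Pb_mono (glueLaw' H.law H.law fun _ => rfl).nonneg fun w _ h1 h2 => h1 fun q hq =>
      (h2 q hq).trans hfin).trans (hPb.trans hsum)

/-- **`EndStmt` from `StarStmt`.** -/
theorem end_of (hS : StarStmt) : EndStmt := by
  intro b h c' κ hb hh hc' hκ
  obtain ⟨γ, hγ, h1⟩ := end_of2 hS b h c' hb hh hc'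
  obtain ⟨γ₀, e₀, c, R, M₀, h2, _, h3, h4, h5, h6⟩ := h1 κ hκ
  exact ⟨γ, γ₀, e₀, c, R, M₀, hγ, h2, h3, h4, h5, h6⟩

end Pool.STB
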