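import Pool.Agent.H76.CHN.Fin
import Pool.Agent.H98.STB.End3

/-! The end statements of the static blind chain, unconditionally:
helper76's star theorem through end_of and end_of2. -/

namespace Pool.STB

theorem t_end : EndStmt := end_of Pool.CHN76.star

theorem t_end2 : EndStmt2 := end_of2 Pool.CHN76.star

end Pool.STB
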