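import Pool.Agent.H98.STB.VbN
import Pool.Agent.H98.STB.Fin

/-!
# Case (B), a static target: the data of the event

`VbT`, `VbE`: the data and the properties of one event: charts, the closed polynomials, the labels of
the image of the target at a list of balls. `VbN`: the numbers.
-/

set_option autoImplicit false

namespace Pool.STB

open Finset Real MvPolynomial
open Pool.Agent.H49.Ent Pool.Agent.H32.Dense Pool.STK Pool.KA Pool.KSAT Pool.K2S Pool.PB Pool.S6C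
open Pool.GEN Pool.CHT Pool.CHX Pool.D2F Pool.D2Con Pool.D2A Pool.RCD Pool.VIS24
open Pool.STB82 (yv hgP WinN LevN chh_pos)
open Pool.ALT (xa ya)
open Pool.STB65 (InpP InpF PosO JetO nu Rs Rs_pos nu_pos se jet_evE)
open Pool.LBT (ThrOf)
open Pool.LA91 (FulC)
open Pool.FLF (Fam.sub)

variable {m : ℕ}

/-- **The data of the event.** `k` the digits of a window, `y` the losses, `x` the excess of the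
levels, `g1`, `g₃` the levels of `c 1`, `c 3` at the window `W₀`. -/
structure VbT {J : ℕ} (F : Fam m J) where
  W₀ : ℕ
  k : ℕ
  y : ℕ
  x : ℕ
  g1 : ℕ
  g₃ : ℕ
  e₁' : ℕ
  e₁ : ℕ
  e₂ : ℕ
  s : ℕ
  lz : ℕ
  Pv : PtT F → MvPolynomial (Option (Fin m)) ℝ
  Pl : LnT F → MvPolynomial (Option (Fin m)) ℝ
  yt : PtT F → V3
  e : ℕ → ℕ
  ji : ℕ → ℕ
  f : ℕ → PtT F → Po
  f' : ℕ → LnT F → Po
  kf : LnT F → Po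
  zP : PtT F → MvPolynomial (Option (Fin m)) ℝ
  zH : LnT F → MvPolynomial (Option (Fin m)) ℝ
  gc : ℕ → ℕ → ℕ
  Gc : ℕ → PtT F → ℕ → MvPolynomial (Option (Fin m)) ℝ
  Hc : ℕ → LnT F → ℕ → MvPolynomial (Option (Fin m)) ℝ

/-- The precision of the target in the window `i`. -/
def VbT.p {J : ℕ} {F : Fam m J} (t : VbT F) (b i : ℕ) : ℕ := t.g₃ + b * (t.k + i * t.k) + t.x

/-- **The event.** -/
structure VbE {J : ℕ} (F : Fam m J) (c : ℕ → Fin m) (B : F.Ω → Prop) (K n N b Wn : ℕ) {V : Type}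
    (z : PtT F → V) (z' : LnT F → V) (G : V → MvPolynomial (Option (Fin m)) ℝ) (t : VbT F) :
    Prop where
  iP : InpP F B t.W₀ t.k t.k n (K + 1) (2 ^ t.y) (yv F c t.W₀ t.g1 t.Pl) t.yt
    (hgP c t.W₀ t.g1 t.Pl)
  iF : InpF F B t.W₀ N (K + 1) b (2 ^ t.y) (yv F c t.W₀ t.g1 t.Pl) t.e t.f t.f' t.kf
  hji : ∀ i < n, t.ji i ≤ N ∧ t.e (t.ji i) ≤ t.k + i * t.k + t.k ∧
    (2 : ℝ) ^ (t.k + i * t.k + t.k) ≤ 2 ^ t.y * 2 ^ t.e (t.ji i)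
  zc : ∀ ω, B ω → z (ptr F J ω) = z' (slam F Wn ω)
  Gd : ∀ ω, B ω → (G (z (ptr F J ω))).totalDegree ≤ K
  Gp : ∀ ω, B ω → DepC c 3 (G (z (ptr F J ω)))
  zd : ∀ y, (t.zP y).totalDegree ≤ K
  zp : ∀ y, DepC c 2 (t.zP y)
  zcl : ∀ ω, B ω → t.zP (ptr F J ω) = t.zH (slam F t.W₀ ω)
  val : ∀ i < n, ∀ ω, B ω → |eval (yv F c t.W₀ t.g1 t.Pl ω) (t.f (t.ji i) (ptr F J ω)) -
    2 ^ t.g₃ * (F.x ω (c 3) - eval (bt F ω) (G (z (ptr F J ω))) -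
      eval (bt F ω) (t.zP (ptr F J ω)))| ≤ 2 ^ t.y * (1 / 2 ^ t.e (t.ji i)) ^ b
  Pd : ∀ y, (t.Pv y).totalDegree ≤ K
  Pp : ∀ y, DepC c 1 (t.Pv y)
  Pc : ∀ ω, B ω → t.Pv (ptr F J ω) = t.Pl (slam F t.W₀ ω)
  Pg : ∀ ω, B ω → ∀ b : Option (Fin m) → ℝ, |b none - F.t ω| ≤ 1 / 2 ^ t.W₀ →
    |b (some (c 0)) - F.x ω (c 0)| ≤ 1 / 2 ^ t.W₀ →
    |eval b (pderiv (some (c 0)) (t.Pv (ptr F J ω)))| ≤ 2 ^ t.e₁'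
  lz : ∀ ω, B ω → ∀ b : Option (Fin m) → ℝ, b none = F.t ω →
    (∀ l < 2, |b (some (c l)) - F.x ω (c l)| ≤ 1 / 2 ^ J) → ∀ l < 2,
      |eval b (pderiv (some (c l)) (t.zP (ptr F J ω)))| ≤ 2 ^ t.lz
  ch : ∀ i < n, ChOK F c 3 (fun _ => K) (t.W₀ + t.k + i * t.k) (t.W₀ + t.k + i * t.k) (t.e₁ + 1)
    (t.gc i) B (t.Gc i) (t.Hc i)
  hx0 : ∀ i < n, ∀ ω, B ω → ∀ b, NBx c (t.Gc i (ptr F J ω)) (t.gc i) (t.W₀ + t.k + i * t.k)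
    (F.t ω) 3 b → |b (some (c 0)) - F.x ω (c 0)| ≤ 2 ^ t.s / 2 ^ (t.W₀ + t.k + i * t.k)
  hx1 : ∀ i < n, ∀ ω, B ω → ∀ b, NBx c (t.Gc i (ptr F J ω)) (t.gc i) (t.W₀ + t.k + i * t.k)
    (F.t ω) 3 b → |(b (some (c 1)) - eval b (t.Pv (ptr F J ω))) -
      (F.x ω (c 1) - eval (bt F ω) (t.Pv (ptr F J ω)))| ≤ 2 ^ t.s / 2 ^ (t.g1 + (t.k + i * t.k))
  hlT : ∀ i < n, ∀ ω, B ω → ∀ b', NBx c (t.Gc i (ptr F J ω)) (t.gc i) (t.W₀ + t.k + i * t.k)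
    (F.t ω) 3 b' → ∀ l < 3, |eval b' (pderiv (some (c l)) (G (z (ptr F J ω)) + t.zP (ptr F J ω)))| ≤
      2 ^ (t.e₁ + nlp (fun j => if j < 3 then t.gc i j else t.p b i) l 3) / 2

/-- **The numbers.** `A`, `Cg`, `ne`, `τ`: the constants of the theorem; `wi`, `ai`: the windows of
the end and of the general position; `sf`: the levels of the two first coordinates; `s₁`, `s₂`: the
rows. -/
structure VbN {J : ℕ} {F : Fam m J} (P : List (Fin m) × Fin m → ℝ → ℝ → ℝ) (c : ℕ → Fin m)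
    (n b Cg ne : ℕ) (A τ kr ur η e0 eg wn : ℝ) (wi ai : ℕ → ℚ) (fi : ℕ → ℝ) (sf : ℕ → ℕ → ℝ)
    (s₁ s₂ : ℕ → ℝ) (t : VbT F) : Prop where
  kJ : t.k = ⌊kr * J⌋₊
  yJ : t.y = ⌊ur * J⌋₊
  H : A * ((t.y : ℝ) + t.x + 1) ≤ τ * t.k
  Wn : ⌊wn * J⌋₊ ≤ t.W₀
  Wi : ∀ i < n, t.W₀ + t.k + i * t.k ≤ ⌊(wi i : ℝ) * J⌋₊
  Wa : ∀ i < n, t.W₀ + t.k + i * t.k + t.k ≤ ⌊(ai i : ℝ) * J⌋₊
  Wf : ∀ i < n, t.W₀ + t.k + i * t.k + t.k ≤ ⌊fi i * J⌋₊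
  l3 : ∀ i < n, ⌊(bet P c 3 (wi i) (wi i) + η) * J⌋₊ + (t.W₀ + t.k + i * t.k) ≤
    t.p b i + ⌊(wi i : ℝ) * J⌋₊
  l0 : ∀ i < n, ⌊(bet P c 0 (ai i) (ai i) + η) * J⌋₊ ≤ ⌊(ai i : ℝ) * J⌋₊ + t.x
  l1 : ∀ i < n, ⌊(bet P c 1 (ai i) (ai i) + η) * J⌋₊ + t.W₀ ≤ t.g1 + ⌊(ai i : ℝ) * J⌋₊ + t.x
  Wg : t.W₀ ≤ t.g1 + t.x
  We : t.W₀ ≤ t.g1 + t.e₁'
  e12 : t.e₁' + 1 ≤ t.e₂
  e2y : t.y + 2 * t.x + 6 ≤ t.e₂
  e2J : t.e₂ ≤ ⌊e0 * J⌋₊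
  e1J : t.e₁ + 1 ≤ ⌊eg * J⌋₊
  J1 : ∀ i < n, t.e₂ + t.g1 + (t.k + i * t.k + t.k) + t.x + 4 ≤ J
  sy : t.s + 1 ≤ 2 * t.y
  gcJ : ∀ i < n, ∀ l < 3, t.gc i l ≤ J
  pJ : ∀ i < n, t.p b i ≤ J
  gr : ∀ i < n, ∀ l < 2, t.g1 + (if l = 0 then t.e₁' else 0) + ne * t.k + Cg * (t.y + 1) ≤
    t.g₃ + (t.e₁ + nlp (fun j => if j < 3 then t.gc i j else t.p b i) l 3)
  s1 : ∀ i < n, s₁ i * J ≤ t.g₃ + b * (t.k + i * t.k) + t.x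
  s2 : ∀ i < n, ((t.g₃ + b * (t.k + i * t.k) + t.k : ℕ) : ℝ) ≤ s₂ i * J + t.x
  s12 : ∀ i < n, (s₂ i - s₁ i) * J ≤ t.k + 2 * t.x + 2
  f0 : ∀ i < n, sf i 0 * J ≤ t.W₀ + t.k + i * t.k + t.k + t.x
  f1 : ∀ i < n, sf i 1 * J ≤ t.g1 + (t.k + i * t.k + t.k) + t.x
  JE1 : ∀ i < n, t.lz + t.g₃ + b * (t.k + i * t.k) + t.k + 2 ≤ J
  JE2 : ∀ i < n, t.g1 + t.e₁' + Cg * (t.y + 1) + b * (t.k + i * t.k) + t.k + 4 ≤ J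

theorem winN_R {J : ℕ} {F : Fam m J} {B : F.Ω → Prop} {W k : ℕ} {xo : F.Ω → V3} {Jo : F.Ω → Po}
    {e e' h R R' : ℝ} (H : WinN F B W k xo Jo e h R) (hR : R' ≤ R) (he : e ≤ e') :
    WinN F B W k xo Jo e' h R' := by
  intro Y y hy q hq hqR
  refine (H Y y hy q hq fun ω => (hqR ω).trans ?_).trans (add_le_add le_rfl he)
  refine mul_le_mul_of_nonneg_right hR ?_
  exact Pool.Agent.H49.Ent.cond_nonneg F.isLaw.nonneg B True ω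

end Pool.STB
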