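import Pool.Agent.H98.STB.VbD

/-!
# Nonfullness of the target in the windows of the event

`vb_winn`: the field `nf` of the chain of lines in the window `i`, from the class theorem of the rows.
-/

set_option autoImplicit false

namespace Pool.STB

open Finset Real MvPolynomial
open Pool.Agent.H49.Ent Pool.Agent.H32.Dense Pool.STK Pool.KA Pool.KSAT Pool.K2S Pool.PB Pool.S6C
open Pool.GEN Pool.CHT Pool.CHX Pool.D2F Pool.D2Con Pool.D2A Pool.RCD Pool.VIS24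
open Pool.STB82 (yv hgP WinN LevN chh_pos)
open Pool.ALT (xa ya)
open Pool.STB65 (InpP InpF PosO JetO nu Rs Rs_pos nu_pos se jet_evE)
open Pool.LBT (ThrOf)
open Pool.LA91 (FulC)
open Pool.FLF (Fam.sub)

variable {m : ℕ}

/-- The inequality of the row. -/
theorem row_num {k y x J q cN : ℕ} {A R' τ h₀ e₀ δ εr Dr kr s1 s2 : ℝ}
    (H : A * ((y : ℝ) + x + 1) ≤ τ * k) (hA : A = (R' + 1) * q) (hR' : 1 ≤ R')
    (hA2 : 2 ≤ A) (hτh : τ ≤ h₀ / 16) (hh0 : 0 < h₀) (hh1 : h₀ ≤ 1) (he₀ : 0 < e₀)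
    (hδJ : δ * J = (cN : ℝ) * Real.log 2) (hc : cN ≤ q * (y + x + 1))
    (hεr : εr = h₀ * kr * Real.log 2 / 128) (hku : kr * J < k + 1) (hk1 : 1 ≤ k) (hJ0 : (0 : ℝ) < J)
    (r1 : Dr ≤ (1 - h₀) * (s2 - s1) * Real.log 2 + εr) (r2 : (s2 - s1) * J ≤ k + 2 * x + 2) :
    (Dr + εr + (R' + 1) * δ) * J ≤ (1 - h₀ / 2) * Real.log (((2 ^ k : ℕ) : ℝ)) +
      e₀ * Real.log (((2 ^ k : ℕ) : ℝ)) := by
  have hl2 : 0 < Real.log 2 := Real.log_pos one_lt_two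
  have r3 : Dr * J ≤ (1 - h₀) * ((k : ℝ) + 2 * (y + x + 1)) * Real.log 2 + εr * J := by
    have h1 : Dr * J ≤ ((1 - h₀) * (s2 - s1) * Real.log 2 + εr) * J :=
      mul_le_mul_of_nonneg_right r1 hJ0.le
    have h2 : (1 - h₀) * ((s2 - s1) * J) ≤ (1 - h₀) * ((k : ℝ) + 2 * (y + x + 1)) := by
      refine mul_le_mul_of_nonneg_left ?_ (by linarith)
      have : (0 : ℝ) ≤ y := Nat.cast_nonneg _
      linarith
    have h3 := mul_le_mul_of_nonneg_right h2 hl2.le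
    have h4 : ((1 - h₀) * (s2 - s1) * Real.log 2 + εr) * J =
        (1 - h₀) * ((s2 - s1) * J) * Real.log 2 + εr * J := by ring
    linarith
  have r4 : (2 * εr + (R' + 1) * δ) * J ≤ h₀ / 8 * k * Real.log 2 := by
    have h1 : 2 * εr * J ≤ h₀ / 32 * k * Real.log 2 := by
      have h2 : kr * J ≤ 2 * k := by
        have h3 : (1 : ℝ) ≤ k := by exact_mod_cast hk1
        linarith
      have h3 : 0 < h₀ * Real.log 2 := by positivity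
      have h4 : 2 * εr * J = h₀ * Real.log 2 / 64 * (kr * J) := by
        rw [hεr]
        ring
      rw [h4]
      have h5 := mul_le_mul_of_nonneg_left h2 (show 0 ≤ h₀ * Real.log 2 / 64 by positivity)
      linarith
    have h4 : (R' + 1) * (δ * J) ≤ h₀ / 16 * k * Real.log 2 := by
      rw [hδJ]
      have h5 : (R' + 1) * (cN : ℝ) ≤ A * ((y : ℝ) + x + 1) := by
        rw [hA, mul_assoc]
        refine mul_le_mul_of_nonneg_left ?_ (by linarith)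
        exact_mod_cast hc
      have h7 : τ * k ≤ h₀ / 16 * k := mul_le_mul_of_nonneg_right hτh (Nat.cast_nonneg _)
      have h8 := mul_le_mul_of_nonneg_right (h5.trans (H.trans h7)) hl2.le
      linarith
    have h9 : 0 ≤ h₀ * k * Real.log 2 := by positivity
    have h10 : (2 * εr + (R' + 1) * δ) * J = 2 * εr * J + (R' + 1) * (δ * J) := by ring
    rw [h10]
    linarith
  have r5 := Pool.STB6.vn_row H (hr := h₀) (e₀ := e₀) (D := Dr * J) (R := R') (δ := δ)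
    (ε := εr) (a := 2) hh0.le hh1 (by norm_num) (by linarith) he₀.le (by linarith) r3 r4
  refine le_trans (le_of_eq ?_) r5
  ring

theorem c_num (E E' b x y : ℕ) : 4 * x + y * (E' + 4 * b + 12) + 21 ≤
    (E + E' + 4 * b + 30) * (y + x + 1) := by
  nlinarith [Nat.zero_le (E * y), Nat.zero_le (E * x), Nat.zero_le (E' * x), Nat.zero_le (b * x)]

theorem yE_num (E E' b y : ℕ) : y * E ≤ (E + E' + 4 * b + 30) * (y + 1) := by
  nlinarith [Nat.zero_le (E' * y), Nat.zero_le (b * y)]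

theorem c1_num (E' b x y : ℕ) : 2 * x + y * (E' + 4 * b + 6) + 12 ≤
    4 * x + y * (E' + 4 * b + 12) + 21 := by nlinarith

theorem c2_num (E' b x y : ℕ) : 2 * x + 6 * y + 9 ≤ 4 * x + y * (E' + 4 * b + 12) + 21 := by
  nlinarith [Nat.zero_le (y * E'), Nat.zero_le (y * b)]

/-- Closed functions of an earlier window. -/
theorem cl_earlier {J : ℕ} {F : Fam m J} {B : F.Ω → Prop} {W W' : ℕ} (hW : W ≤ W') (hJ : W' ≤ J)
    {V : Type} {z : PtT F → V} {z' : LnT F → V}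
    (h : ∀ ω, B ω → z (ptr F J ω) = z' (slam F W ω)) :
    Cl2 (slam F W') (fun ω => ptr F J ω) B (fun ω => z (ptr F J ω)) := by
  refine ⟨⟨fun S => z' (Pool.STB77.cos F W W' S), fun ω hω => ?_⟩, fun y => z y, fun ω _ => rfl⟩
  show _ = z' (Pool.STB77.cos F W W' (slam F W' ω))
  rw [Pool.STB77.cos_slam F hW hJ]
  exact h ω hω

/-- **Nonfullness in the window `i`.** -/
theorem vb_winn {J : ℕ} {F : Fam m J} {c : ℕ → Fin m} {B B' : F.Ω → Prop}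
    {K n N b Wn E E' q : ℕ} {V : Type} {z : PtT F → V} {z' : LnT F → V}
    {G : V → MvPolynomial (Option (Fin m)) ℝ} {t : VbT F}
    (hE : VbE F c B K n N b Wn z z' G t) (hb : 1 ≤ b) (hB' : Sub B' B)
    (hq : q = E + E' + 4 * b + 30) {Kc Kp : ℝ} (hKc0 : 0 ≤ Kc) (hKc : Kc ≤ 2 ^ t.y)
    {ctr xo : ℕ → F.Ω → V3} {D₁ : LnT F → V3} {Jo Ci : ℕ → F.Ω → Po} {Φ₁ : LnT F → Po}
    (O : PosO F B' t.W₀ t.k t.k n ((2 ^ t.y) ^ 2) Kp (yv F c t.W₀ t.g1 t.Pl)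
      (hgP c t.W₀ t.g1 t.Pl) ctr xo D₁)
    (Jt : JetO F B' t.W₀ t.k t.k n b ((2 ^ t.y) ^ 2) ((2 ^ t.y) ^ E') Kc ((2 ^ t.y) ^ E)
      (yv F c t.W₀ t.g1 t.Pl) t.f t.ji ctr xo Jo Ci Φ₁)
    {i : ℕ} (hi : i < n) (hi1 : t.W₀ + t.k + i * t.k + t.k ≤ J)
    (hWn : Wn ≤ t.W₀) (hWg : t.W₀ ≤ t.g1 + t.e₁')
    {A R' R τ h₀ e₀ εr Dr kr s1 s2 sf0 sf1 : ℝ}
    (H : A * ((t.y : ℝ) + t.x + 1) ≤ τ * t.k) (hA : A = (R' + 1) * q) (hR' : 1 ≤ R')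
    (hRR : R ≤ R') (hA2 : 2 ≤ A) (hτh : τ ≤ h₀ / 16) (hh0 : 0 < h₀) (hh1 : h₀ ≤ 1) (he₀ : 0 < e₀)
    (hεr : εr = h₀ * kr * Real.log 2 / 128) (hku : kr * J < t.k + 1) (hk1 : 1 ≤ t.k)
    (hJ0 : (0 : ℝ) < J) (r1 : Dr ≤ (1 - h₀) * (s2 - s1) * Real.log 2 + εr)
    (r2 : (s2 - s1) * J ≤ t.k + 2 * t.x + 2)
    (JE1 : t.lz + t.g₃ + b * (t.k + i * t.k) + t.k + 2 ≤ J)
    (JE2 : t.g1 + t.e₁' + q * (t.y + 1) + b * (t.k + i * t.k) + t.k + 4 ≤ J)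
    (hs1 : s1 * J ≤ t.g₃ + b * (t.k + i * t.k) + t.x)
    (hs2 : ((t.g₃ + b * (t.k + i * t.k) + t.k : ℕ) : ℝ) ≤ s2 * J + t.x)
    (hJ1 : t.e₁' + t.g1 + (t.k + i * t.k + t.k) ≤ J)
    (f0 : sf0 * J ≤ t.W₀ + t.k + i * t.k + t.k + t.x)
    (f1 : sf1 * J ≤ t.g1 + (t.k + i * t.k + t.k) + t.x)
    (HW : ∀ (xo : F.Ω → V3) (Jo : F.Ω → Po) (Y₀ : Type) (y₀ : F.Ω → Y₀)
        (DT D₀ D₁ E₁ E₂ δ h e : ℝ),
      Cl2 (slam F (t.W₀ + t.k + i * t.k + t.k)) (fun ω => ptr F J ω) B' xo →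
      Cl2 (slam F (t.W₀ + t.k + i * t.k + t.k)) (fun ω => ptr F J ω) B' Jo →
      Cl2 (slam F (t.W₀ + t.k + i * t.k)) (fun ω => ptr F J ω) B' y₀ → 0 ≤ DT → 0 ≤ D₀ → 0 ≤ D₁ →
      0 ≤ E₁ → 0 ≤ E₂ → PosR F B' t.k (c 0) (c 1) xo y₀ DT D₀ D₁ →
      ValR F B' t.k (c 0) (c 1) xo Jo y₀ (xa F (c 3) z' Wn G s1) (xa F (c 3) z' Wn G s2) E₁ E₂ →
      Real.log (E₁ + 1) + Real.log (E₂ + 1) ≤ δ * J →
      Real.log (DT + 1) + Real.log (D₀ + 1) + Real.log (D₁ + 1) ≤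
        ((J : ℝ) - ((t.W₀ + t.k + i * t.k + t.k : ℕ) : ℝ)) * Real.log 2 +
          (2 - sf0 - sf1) * Real.log 2 * J + δ * J →
      (Dr + εr + (R' + 1) * δ) * J ≤ (1 - h) * Real.log ((2 ^ t.k : ℕ) : ℝ) + e →
      WinN F B' (t.W₀ + t.k + i * t.k) t.k xo Jo e h R') :
    WinN F B' (t.W₀ + t.k + i * t.k) t.k (xo i) (Jo i) (e₀ * Real.log (((2 ^ t.k : ℕ) : ℝ)))
      (h₀ / 2) R := by
  have hl2 : 0 < Real.log 2 := Real.log_pos one_lt_two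
  have hEv := ev_num (b := b) (hE.hji i hi).2.2
  have hWi : t.W₀ + t.k + i * t.k ≤ J := by omega
  obtain ⟨δ, hδ⟩ : ∃ δ : ℝ, δ = ((4 * t.x + t.y * (E' + 4 * b + 12) + 21 : ℕ) : ℝ) *
    Real.log 2 / J := ⟨_, rfl⟩
  have hδJ : δ * J = ((4 * t.x + t.y * (E' + 4 * b + 12) + 21 : ℕ) : ℝ) * Real.log 2 := by
    rw [hδ]
    field_simp
  refine winN_R ?_ hRR le_rfl
  refine winn_of (z := z) (z' := z') (G := G) (g₃ := t.g₃) (b := b) (σ := (2 ^ t.y) ^ 2)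
    (κ := (2 ^ t.y) ^ E') (Ev := 2 ^ t.y * (1 / 2 ^ t.e (t.ji i)) ^ b) (s₁ := s1) (s₂ := s2)
    (δ := δ) (R₁ := ((J : ℝ) - ((t.W₀ + t.k + i * t.k + t.k : ℕ) : ℝ)) * Real.log 2 +
      (2 - sf0 - sf1) * Real.log 2 * J + δ * J) O Jt hi hi1 (by positivity)
    (by positivity) (by positivity) hKc0 (by positivity) hE.Pp hWg
    (fun ω hω => hE.Pc ω (hB' ω hω)) (fun ω hω => hE.Pg ω (hB' ω hω))
    (show Wn ≤ t.W₀ + t.k + i * t.k by omega)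
    (fun ω hω => hE.zc ω (hB' ω hω)) (pz := fun ω => t.zP (ptr F J ω)) (Lz := 2 ^ t.lz)
    (cl_earlier (show t.W₀ ≤ t.W₀ + t.k + i * t.k by omega) hWi
      fun ω hω => hE.zcl ω (hB' ω hω))
    (fun ω _ => hE.zp _) (by positivity) (fun ω hω => hE.lz ω (hB' ω hω)) ?_
    rfl rfl rfl rfl rfl ?_ ?_ ?_
  · intro ω hω
    have h1 := hE.val i hi ω (hB' ω hω)
    rw [← hE.zc ω (hB' ω hω), ← sub_sub]
    exact h1
  · intro xo' Jo' Y₀ y₀ DT D₀ D₁' E₁ E₂ a1 a2 a3 a4 a5 a6 a7 a8 a9 a10 a11 a12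
    refine HW xo' Jo' Y₀ y₀ DT D₀ D₁' E₁ E₂ δ _ _ a1 a2 a3 a4 a5 a6 a7 a8 a9 a10 a11 a12 ?_
    exact row_num H hA hR' hA2 hτh hh0 hh1 he₀ hδJ (hq ▸ c_num E E' b t.x t.y) hεr hku hk1 hJ0 r1 r2
  · refine (e_num (b := b) (E := E) (E' := E') (g1 := t.g1) (e₁' := t.e₁') (lz := t.lz)
      (g₃ := t.g₃) (x := t.x) (J := J) rfl rfl hKc0 hKc (by positivity) (ev_num2 hb hEv rfl) rfl
      (by positivity) le_rfl rfl JE1 ?_ hs1 hs2).trans ?_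
    · have h2 := yE_num E E' b t.y
      rw [← hq] at h2
      omega
    · rw [hδJ]
      refine mul_le_mul_of_nonneg_right ?_ hl2.le
      exact_mod_cast c1_num E' b t.x t.y
  · have h1 := d_num (J := J) (Wi := t.W₀ + t.k + i * t.k) (r := t.k + i * t.k + t.k)
      (g1 := t.g1) (k := t.k) (y := t.y) (x := t.x) (e₁' := t.e₁') (sf0 := sf0)
      (sf1 := sf1) hi1 (by omega) (by
        push_cast
        linarith) (by
        push_cast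
        linarith)
    rw [show t.g1 + (t.k + i * t.k + t.k) = t.g1 + t.k + i * t.k + t.k by ring] at h1
    refine h1.trans (add_le_add le_rfl ?_)
    rw [hδJ]
    refine mul_le_mul_of_nonneg_right ?_ hl2.le
    exact_mod_cast c2_num E' b t.x t.y

end Pool.STB
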