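import Pool.Agent.H98.STB.S

/-!
# Averaging over a glued law, and the laws of the chains
-/

set_option autoImplicit false

namespace Pool.STB

open Finset Real
open Pool.Agent.H49.Ent Pool.Agent.H32.Dense Pool.STK Pool.MIC
open Pool.BFL (Pb)

section basic

variable {Ω : Type} [Fintype Ω]

theorem Pb_mono {p : Ω → ℝ} (hp : ∀ ω, 0 ≤ p ω) {A B : Ω → Prop}
    (h : ∀ ω, 0 < p ω → A ω → B ω) : Pb p A ≤ Pb p B := by
  classical
  unfold Pb
  refine Finset.sum_le_sum fun ω _ => ?_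
  rcases (hp ω).eq_or_lt with h0 | h0
  · rw [← h0]
    simp
  · by_cases hA : A ω
    · rw [if_pos hA, if_pos (h ω h0 hA)]
    · rw [if_neg hA]
      split_ifs
      · exact h0.le
      · exact le_rfl

theorem Pb_or {p : Ω → ℝ} (hp : ∀ ω, 0 ≤ p ω) (A B : Ω → Prop) :
    Pb p (fun ω => A ω ∨ B ω) ≤ Pb p A + Pb p B := by
  classical
  unfold Pb
  rw [← Finset.sum_add_distrib]
  refine Finset.sum_le_sum fun ω _ => ?_
  have := hp ω
  by_cases hA : A ω <;> by_cases hB : B ω <;> simp [hA, hB, this]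

/-- Implication from a union of two events. -/
theorem Pb_le2 {p : Ω → ℝ} (hp : ∀ ω, 0 ≤ p ω) {A B C : Ω → Prop}
    (h : ∀ ω, 0 < p ω → ¬ B ω → ¬ C ω → ¬ A ω) : Pb p A ≤ Pb p B + Pb p C := by
  refine (Pb_mono hp fun ω h0 hA => ?_).trans (Pb_or hp B C)
  by_contra hn
  exact h ω h0 (fun hB => hn (Or.inl hB)) (fun hC => hn (Or.inr hC)) hA

/-- Congruence of a gluing in the second map. -/
theorem glue_congr2 {Ω₂ Z : Type} [Fintype Ω₂] {p₁ : Ω → ℝ} {p₂ : Ω₂ → ℝ} {Z₁ : Ω → Z}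
    {Z₂ Z₂' : Ω₂ → Z} (h₂ : ∀ ω, 0 ≤ p₂ ω) (h : ∀ ω, 0 < p₂ ω → Z₂ ω = Z₂' ω) :
    glue p₁ p₂ Z₁ Z₂ = glue p₁ p₂ Z₁ Z₂' := by
  classical
  funext w
  unfold glue
  rcases (h₂ w.2).eq_or_lt with h0 | h0
  · rw [← h0]
    simp
  · rw [h w.2 h0]

theorem glue_congr1 {Ω₂ Z : Type} [Fintype Ω₂] {p₁ : Ω → ℝ} {p₂ : Ω₂ → ℝ} {Z₁ Z₁' : Ω → Z}
    {Z₂ : Ω₂ → Z} (h₁ : ∀ ω, 0 ≤ p₁ ω) (h : ∀ ω, 0 < p₁ ω → Z₁ ω = Z₁' ω) :
    glue p₁ p₂ Z₁ Z₂ = glue p₁ p₂ Z₁' Z₂ := by
  classical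
  funext w
  have hl : ∀ z, law p₁ Z₁ z = law p₁ Z₁' z := by
    intro z
    unfold law
    refine Finset.sum_congr rfl fun ω _ => ?_
    rcases (h₁ ω).eq_or_lt with h0 | h0
    · rw [← h0]
      split_ifs <;> rfl
    · rw [h ω h0]
  unfold glue
  rcases (h₁ w.1).eq_or_lt with h0 | h0
  · rw [← h0]
    simp
  · rw [h w.1 h0, hl]

end basic

section avg

variable {Ω W Z : Type} [Fintype Ω] [Fintype W] {p : Ω → ℝ} {q : W → ℝ}

/-- **Selection of a good element of `W` for each value.** -/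
theorem avg_sel (hp : IsLaw p) (hq : IsLaw q) (z : Ω → Z) (zq : W → Z)
    (hz : ∀ r, law p z r = law q zq r) (Bad : Ω → W → Prop) :
    ∃ β : Z → W, Pb p (fun ω => Bad ω (β (z ω))) ≤ Pb (glue p q z zq) (fun w => Bad w.1 w.2) := by
  classical
  have hW : Nonempty W := by
    by_contra hne
    rw [not_nonempty_iff] at hne
    have := hq.sum_one
    rw [Finset.univ_eq_empty, Finset.sum_empty] at this
    exact zero_ne_one this
  -- the mass of the bad event for the value `r` and the element `v`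
  obtain ⟨m, hm⟩ : ∃ m : Z → W → ℝ, m = fun r v =>
    ∑ ω, if z ω = r ∧ Bad ω v then p ω else 0 := ⟨_, rfl⟩
  have hm0 : ∀ r v, 0 ≤ m r v := fun r v => by
    rw [hm]
    refine Finset.sum_nonneg fun ω _ => ?_
    split_ifs
    · exact hp.nonneg ω
    · exact le_rfl
  have hch : ∀ r : Z, ∃ v : W, ∀ v', m r v ≤ m r v' := fun r => by
    obtain ⟨v, _, hv⟩ := Finset.exists_min_image (univ : Finset W) (m r) Finset.univ_nonempty
    exact ⟨v, fun v' => hv v' (Finset.mem_univ _)⟩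
  choose β hβ using hch
  refine ⟨β, ?_⟩
  have h1 : Pb (glue p q z zq) (fun w => Bad w.1 w.2) =
      ∑ v, q v * (m (zq v) v / law q zq (zq v)) := by
    unfold Pb
    rw [Fintype.sum_prod_type, Finset.sum_comm]
    refine Finset.sum_congr rfl fun v _ => ?_
    rw [hm]
    simp only
    rw [Finset.sum_div, Finset.mul_sum]
    refine Finset.sum_congr rfl fun ω _ => ?_
    unfold glue
    by_cases h2 : z ω = zq v
    · by_cases h3 : Bad ω v
      · simp only [h2, h3, and_self, if_true]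
        rw [hz]
        ring
      · simp [h3]
    · simp [h2]
  have h2 : Pb p (fun ω => Bad ω (β (z ω))) = ∑ v, q v * (m (zq v) (β (zq v)) / law q zq (zq v)) := by
    have h3 : Pb p (fun ω => Bad ω (β (z ω))) =
        Pb (glue p q z zq) (fun w => Bad w.1 (β (z w.1))) :=
      (Marg.Pb_eq (marg_fst hp.nonneg hz) (fun ω => Bad ω (β (z ω)))).symm
    rw [h3]
    unfold Pb
    rw [Fintype.sum_prod_type, Finset.sum_comm]
    refine Finset.sum_congr rfl fun v _ => ?_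
    rw [hm]
    simp only
    rw [Finset.sum_div, Finset.mul_sum]
    refine Finset.sum_congr rfl fun ω _ => ?_
    unfold glue
    by_cases h2 : z ω = zq v
    · by_cases h3 : Bad ω (β (zq v))
      · simp only [h2, h3, and_self, if_true]
        rw [hz]
        ring
      · simp [h2, h3]
    · simp [h2]
  rw [h1, h2]
  refine Finset.sum_le_sum fun v _ => mul_le_mul_of_nonneg_left ?_ (hq.nonneg v)
  exact div_le_div_of_nonneg_right (hβ _ _) (law_nonneg hq.nonneg _ _)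

/-- The converse: an event which is unlikely for every selection is unlikely. -/
theorem avg_all (hp : IsLaw p) (hq : IsLaw q) (z : Ω → Z) (zq : W → Z)
    (hz : ∀ r, law p z r = law q zq r) (Bad : Ω → W → Prop) {c : ℝ}
    (h : ∀ β : Z → W, Pb p (fun ω => Bad ω (β (z ω))) ≤ c) :
    Pb (glue p q z zq) (fun w => Bad w.1 w.2) ≤ c := by
  obtain ⟨β, hβ⟩ := avg_sel hp hq z zq hz (fun ω v => ¬ Bad ω v)
  have h1 := Pb_not hp.sum_one (fun ω => Bad ω (β (z ω)))
  have hg : ∑ w, glue p q z zq w = 1 := by rw [sum_glue hp.nonneg hz, hp.sum_one]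
  have h2 := Pb_not hg (fun w => Bad w.1 w.2)
  have h3 := h β
  linarith

end avg

/-- **Associativity of gluings.** -/
theorem marg_assoc {Ω₁ Ω₂ Ω₃ Z Y : Type} [Fintype Ω₁] [Fintype Ω₂] [Fintype Ω₃] {p : Ω₁ → ℝ}
    {r : Ω₂ → ℝ} {q : Ω₃ → ℝ} (hr : ∀ ω, 0 ≤ r ω) {z : Ω₁ → Z} {z' : Ω₂ → Z}
    {X : Ω₂ → Y} {Y' : Ω₃ → Y} (h1 : ∀ u, law p z u = law r z' u) :
    Marg (glue p (glue r q X Y') z (fun w => z' w.1))
      (glue (glue p r z z') q (fun w => X w.2) Y') (fun w => ((w.1, w.2.1), w.2.2)) := by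
  classical
  have hl : ∀ u, law (glue p r z z') (fun w => X w.2) u = law r X u := fun u =>
    (marg_snd (Z₁ := z) (Z₂ := z') hr h1).law X u
  have hw : ∀ (a : Ω₁) (b : Ω₂) (c : Ω₃), glue p (glue r q X Y') z (fun w => z' w.1) (a, (b, c)) =
      glue (glue p r z z') q (fun w => X w.2) Y' ((a, b), c) := by
    intro a b c
    have hl' := hl (X b)
    unfold glue at hl' ⊢
    simp only at hl' ⊢
    rw [hl']
    by_cases h2 : z a = z' b
    · by_cases h3 : X b = Y' c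
      · simp only [h2, h3, if_true]
        ring
      · simp [h3]
    · simp [h2]
  rintro ⟨⟨a, b⟩, c⟩
  rw [← hw a b c]
  rw [Finset.sum_eq_single (a, (b, c))]
  · simp
  · rintro ⟨a', b', c'⟩ _ hne
    rw [if_neg]
    intro h
    simp only [Prod.mk.injEq] at h
    exact hne (by simp [h.1.1, h.1.2, h.2])
  · intro h
    exact absurd (Finset.mem_univ _) h

end Pool.STB
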