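import Pool.Agent.H98.STB.Nf
import Pool.Agent.H82.STB.Cls
import Pool.Agent.H60.ALT.Rec

/-!
# Nonfullness of the target in a window

`PosR`: the reading of the exact position from the position up to the unit. `ValR`: the reading of the
target from the own height. `winN_fam`: the field `nf`, for one family.
-/

set_option autoImplicit false

namespace Pool.STB

open Finset Real
open Pool.Agent.H49.Ent Pool.Agent.H32.Dense Pool.STK Pool.KA Pool.KSAT Pool.K2S Pool.PB Pool.S6C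
open Pool.GEN Pool.CHT Pool.CHX Pool.D2Con Pool.D2A Pool.D2F Pool.RCD
open Pool.STB82 Pool.ALT
open Pool.UNJ (ceI)
open Pool.BFL (Pb)

variable {m : ℕ}

/-- **The reading of the exact position**: time, the coordinates `κ₀`, `κ₁`, from the position up to
the unit and the record `y₀` of the window. -/
structure PosR {J : ℕ} (F : Fam m J) (B : F.Ω → Prop) (k : ℕ) (κ₀ κ₁ : Fin m) (xo : F.Ω → V3)
    {Y₀ : Type} (y₀ : F.Ω → Y₀) (DT D₀ D₁ : ℝ) : Prop where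
  tm : ∀ ω ω', B ω → B ω' → y₀ ω = y₀ ω' → cv (2 ^ k) (xo ω) = cv (2 ^ k) (xo ω') →
    |((F.T ω : ℤ) : ℝ) - ((F.T ω' : ℤ) : ℝ)| ≤ DT
  p0 : ∀ ω ω', B ω → B ω' → y₀ ω = y₀ ω' → cv (2 ^ k) (xo ω) = cv (2 ^ k) (xo ω') →
    F.W ω = F.W ω' → |(F.X J ω κ₀ : ℝ) - F.X J ω' κ₀| ≤ D₀
  p1 : ∀ ω ω', B ω → B ω' → y₀ ω = y₀ ω' → cv (2 ^ k) (xo ω) = cv (2 ^ k) (xo ω') →
    F.W ω = F.W ω' → F.X J ω κ₀ = F.X J ω' κ₀ → |(F.X J ω κ₁ : ℝ) - F.X J ω' κ₁| ≤ D₁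

/-- **The reading of the target** from the own height `hg`, whose digits to the levels `s₁`, `s₂` are
`x1`, `x2`. -/
structure ValR {J : ℕ} (F : Fam m J) (B : F.Ω → Prop) (k : ℕ) (κ₀ κ₁ : Fin m) (xo : F.Ω → V3)
    (Jo : F.Ω → Po) {Y₀ : Type} (y₀ : F.Ω → Y₀) (x1 x2 : F.Ω → ℤ) (E₁ E₂ : ℝ) : Prop where
  v1 : ∀ ω ω', B ω → B ω' → y₀ ω = y₀ ω' → F.W ω = F.W ω' → F.X J ω κ₀ = F.X J ω' κ₀ →
    F.X J ω κ₁ = F.X J ω' κ₁ → |(x1 ω : ℝ) - x1 ω'| ≤ E₁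
  v2 : ∀ ω ω', B ω → B ω' → y₀ ω = y₀ ω' → F.W ω = F.W ω' → F.X J ω κ₀ = F.X J ω' κ₀ →
    F.X J ω κ₁ = F.X J ω' κ₁ → x2 ω = x2 ω' →
    |(⌊((2 ^ k : ℕ) : ℝ) * MvPolynomial.eval (xo ω) (Jo ω)⌋ : ℝ) -
      ⌊((2 ^ k : ℕ) : ℝ) * MvPolynomial.eval (xo ω') (Jo ω')⌋| ≤ E₂

/-- **Nonfullness of the target in a window**, for one family. -/
theorem winN_fam {J : ℕ} (F : Fam m J) {B : F.Ω → Prop} (hB : 0 < Pe F.p B) {W k Wn : ℕ}
    (hWk : W + k ≤ J) (hWn : Wn ≤ W) {κ κ₀ κ₁ : Fin m} {I₀ : Finset (Fin m)}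
    (hI₀ : ∀ i ∈ I₀, i = κ₀ ∨ i = κ₁) {xo : F.Ω → V3} {Jo : F.Ω → Po}
    (cx : Cl2 (slam F (W + k)) (fun ω => ptr F J ω) B xo)
    (cJ : Cl2 (slam F (W + k)) (fun ω => ptr F J ω) B Jo) {V : Type} {z : PtT F → V}
    {z' : LnT F → V} (hz : ∀ ω, B ω → z (ptr F J ω) = z' (slam F Wn ω))
    {G : V → MvPolynomial (Option (Fin m)) ℝ} {s₁ s₂ : ℝ} (hs : s₁ ≤ s₂) {Y₀ : Type}
    {y₀ : F.Ω → Y₀} (cy : Cl2 (slam F W) (fun ω => ptr F J ω) B y₀)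
    {DT D₀ D₁ E₁ E₂ lT l₀ l₁ : ℝ} (hDT : 0 ≤ DT) (hD₀ : 0 ≤ D₀) (hD₁ : 0 ≤ D₁) (hE₁ : 0 ≤ E₁)
    (hE₂ : 0 ≤ E₂) (hpr : PosR F B k κ₀ κ₁ xo y₀ DT D₀ D₁)
    (hvr : ValR F B k κ₀ κ₁ xo Jo y₀ (xa F κ z' Wn G s₁) (xa F κ z' Wn G s₂) E₁ E₂)
    (kT : lT ≤ CH (Pool.Agent.H49.Ent.cond F.p B True) (fun ω => F.W ω) (slam F (W + k)))
    (k01 : ∀ (V₂ : Type) (z₂ : PtT F → V₂) (z₂' : LnT F → V₂),
      (∀ ω, B ω → z₂ (ptr F J ω) = z₂' (slam F (W + k) ω)) →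
      l₀ ≤ CH (Pool.Agent.H49.Ent.cond F.p B True) (fun ω => F.X J ω κ₀)
        (fun ω => (z₂' (slam F (W + k) ω), F.W ω)) ∧
      l₁ ≤ CH (Pool.Agent.H49.Ent.cond F.p B True) (fun ω => F.X J ω κ₁)
        (fun ω => (F.X J ω κ₀, z₂' (slam F (W + k) ω), F.W ω)))
    {c₀ η U R : ℝ} {n : ℕ} (hc : 0 < c₀) (hη : 0 < η) (hU : 0 ≤ U) (hR : 1 ≤ R)
    (row : ∀ A : F.Ω → Prop, Sub A B → c₀ * Pe F.p B ≤ Pe F.p A →
      CH (Pool.Agent.H49.Ent.cond F.p A True) (xa F κ z' Wn G s₂) (ya F I₀ κ z' Wn G s₁) ≤ U)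
    {h e : ℝ} (hnum : (1 + η) * U + (R * c₀ * (1 + η) / η + R / (1 + η) ^ n) *
      ((s₂ - s₁) * Real.log 2 * J + Real.log 7) + Real.log (n + 1) + Real.log (E₁ + 1) +
      Real.log (E₂ + 1) + R * (Real.log (DT + 1) + Real.log (D₀ + 1) + Real.log (D₁ + 1) -
        (lT + l₀ + l₁) + Real.log 2) ≤ (1 - h) * Real.log ((2 ^ k : ℕ) : ℝ) + e) :
    WinN F B W k xo Jo e h R := by
  classical
  intro Y y hy q hq hqd
  have hlaw := isLaw_cond F.isLaw hB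
  have h0 := hlaw.nonneg
  obtain ⟨p, hp⟩ : ∃ p, p = Pool.Agent.H49.Ent.cond F.p B True := ⟨_, rfl⟩
  have hpB : ∀ ω, 0 < p ω → B ω := fun ω h => cond_pos_B (hp ▸ h)
  obtain ⟨Zt, zA, hzA⟩ := exists_fst (slam F (W + k)) (fun ω => ptr F J ω) B
  obtain ⟨⟨φ, hφ⟩, ψ, hψ⟩ := hzA.cl
  -- the side information is closed
  have cZ : Cl2 (slam F W) (fun ω => ptr F J ω) B (fun ω => F.Z ω) :=
    ⟨⟨fun s => s.2.1, fun ω _ => rfl⟩, fun s => s.2.2, fun ω _ => rfl⟩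
  have cct : Cl2 (slam F W) (fun ω => ptr F J ω) B (fun ω => z' (slam F Wn ω)) := by
    obtain ⟨D', hD'⟩ := lift_D F hWn (by omega : W ≤ J) z'
    exact ⟨⟨D', fun ω _ => (hD' ω).symm⟩, z, fun ω hω => (hz ω hω).symm⟩
  have hyy : ∀ (V' : Type) (w : F.Ω → V'), Cl2 (slam F W) (fun ω => ptr F J ω) B w →
      ∀ ω ω', B ω → B ω' → y ω = y ω' → w ω = w ω' := fun V' w hw => hy.fin V' w hw
  -- the record behind the window determines the record of the window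
  have cyA : Cl2 (slam F (W + k)) (fun ω => ptr F J ω) B y := by
    obtain ⟨⟨φ', hφ'⟩, ψ', hψ'⟩ := hy.cl
    obtain ⟨D', hD'⟩ := lift_D F (show W ≤ W + k by omega) hWk φ'
    exact ⟨⟨D', fun ω hω => by rw [hφ' ω hω, hD']⟩, ψ', hψ'⟩
  have hN : Pool.Agent.H49.Ent.Det p zA (fun ω =>
      ⌊((2 ^ k : ℕ) : ℝ) * MvPolynomial.eval (xo ω) (Jo ω)⌋) := by
    intro ω ω' a b e1
    have e2 := hzA.fin _ _ cx ω ω' (hpB ω a) (hpB ω' b) e1
    have e3 := hzA.fin _ _ cJ ω ω' (hpB ω a) (hpB ω' b) e1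
    simp only [e2, e3]
  have hC : Pool.Agent.H49.Ent.Det p zA (fun ω => (cv (2 ^ k) (xo ω), y ω)) := by
    intro ω ω' a b e1
    have e2 := hzA.fin _ _ cx ω ω' (hpB ω a) (hpB ω' b) e1
    have e3 := hzA.fin _ _ cyA ω ω' (hpB ω a) (hpB ω' b) e1
    simp only [e2, e3]
  -- upper bound
  have up : ∀ r : F.Ω → ℝ, IsLaw r → (∀ ω, 0 < r ω → 0 < p ω) →
      CH r (fun ω => (F.X J ω κ₁, F.X J ω κ₀, F.W ω)) (fun ω => (cv (2 ^ k) (xo ω), y ω)) ≤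
        Real.log (DT + 1) + Real.log (D₀ + 1) + Real.log (D₁ + 1) := by
    intro r hr hrp
    have hn := hr.nonneg
    have hB' : ∀ ω, 0 < r ω → B ω := fun ω h => hpB ω (hrp ω h)
    have b1 := CH_chain hn (fun ω => F.X J ω κ₁) (fun ω => (F.X J ω κ₀, F.W ω))
      (fun ω => (cv (2 ^ k) (xo ω), y ω))
    have b2 := CH_chain hn (fun ω => F.X J ω κ₀) (fun ω => F.W ω)
      (fun ω => (cv (2 ^ k) (xo ω), y ω))
    have b3 : CH r (fun ω => F.X J ω κ₀) (fun ω => (F.W ω, (cv (2 ^ k) (xo ω), y ω))) ≤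
        Real.log (D₀ + 1) :=
      cnt_int hr _ _ hD₀ fun ω ω' a b e => by
        simp only [Prod.mk.injEq] at e
        exact hpr.p0 ω ω' (hB' _ a) (hB' _ b) (hyy _ _ cy _ _ (hB' _ a) (hB' _ b) e.2.2) e.2.1 e.1
    have b4 : CH r (fun ω => F.X J ω κ₁)
        (fun ω => ((F.X J ω κ₀, F.W ω), (cv (2 ^ k) (xo ω), y ω))) ≤ Real.log (D₁ + 1) :=
      cnt_int hr _ _ hD₁ fun ω ω' a b e => by
        simp only [Prod.mk.injEq] at e
        exact hpr.p1 ω ω' (hB' _ a) (hB' _ b) (hyy _ _ cy _ _ (hB' _ a) (hB' _ b) e.2.2) e.2.1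
          e.1.2 e.1.1
    have b5 : CH r (fun ω => F.W ω) (fun ω => (cv (2 ^ k) (xo ω), y ω)) ≤ Real.log (DT + 1) := by
      have c1 : CH r (fun ω => F.W ω) (fun ω => (cv (2 ^ k) (xo ω), y ω)) ≤
          CH r (fun ω => (F.T ω : ℤ)) (fun ω => (cv (2 ^ k) (xo ω), y ω)) :=
        CH_mono_left hn fun ω ω' a b e => by
          simp only [Prod.mk.injEq] at e
          have e4 : F.T ω = F.T ω' := by exact_mod_cast e.1
          have e5 := hyy _ _ cZ _ _ (hB' _ a) (hB' _ b) e.2.2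
          show F.W ω = F.W ω'
          unfold Fam.W
          rw [e4]
          exact congrArg _ e5
      refine c1.trans (cnt_int hr _ _ hDT fun ω ω' a b e => ?_)
      simp only [Prod.mk.injEq] at e
      exact hpr.tm ω ω' (hB' _ a) (hB' _ b) (hyy _ _ cy _ _ (hB' _ a) (hB' _ b) e.2) e.1
    linarith
  -- lower bound
  have low : (Real.log (DT + 1) + Real.log (D₀ + 1) + Real.log (D₁ + 1)) -
      (Real.log (DT + 1) + Real.log (D₀ + 1) + Real.log (D₁ + 1) - (lT + l₀ + l₁)) ≤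
      CH p (fun ω => (F.X J ω κ₁, F.X J ω κ₀, F.W ω)) zA := by
    have hn : ∀ ω, 0 ≤ p ω := fun ω => hp ▸ h0 ω
    obtain ⟨k0, k1⟩ := k01 Zt ψ φ fun ω hω => by rw [← hφ ω hω, ← hψ ω hω]
    rw [← hp] at k0 k1 kT
    have b1 := CH_chain hn (fun ω => F.X J ω κ₁) (fun ω => (F.X J ω κ₀, F.W ω)) zA
    have b2 := CH_chain hn (fun ω => F.X J ω κ₀) (fun ω => F.W ω) zA
    have b3 : CH p (fun ω => F.X J ω κ₀) (fun ω => (φ (slam F (W + k) ω), F.W ω)) ≤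
        CH p (fun ω => F.X J ω κ₀) (fun ω => (F.W ω, zA ω)) :=
      CH_mono_cond hn fun ω ω' a b e => by
        simp only [Prod.mk.injEq] at e ⊢
        exact ⟨e.2, by rw [hφ ω (hpB ω a), hφ ω' (hpB ω' b)]; exact e.1⟩
    have b4 : CH p (fun ω => F.X J ω κ₁) (fun ω => (F.X J ω κ₀, φ (slam F (W + k) ω), F.W ω)) ≤
        CH p (fun ω => F.X J ω κ₁) (fun ω => ((F.X J ω κ₀, F.W ω), zA ω)) :=
      CH_mono_cond hn fun ω ω' a b e => by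
        simp only [Prod.mk.injEq] at e ⊢
        exact ⟨⟨e.1, e.2.2⟩, by rw [hφ ω (hpB ω a), hφ ω' (hpB ω' b)]; exact e.2.1⟩
    have b5 : CH p (fun ω => F.W ω) (slam F (W + k)) ≤ CH p (fun ω => F.W ω) zA :=
      CH_mono_cond hn fun ω ω' a b e => by
        rw [hφ ω (hpB ω a), hφ ω' (hpB ω' b), e]
    linarith
  -- the rows
  have hrow : ∀ A : F.Ω → Prop, c₀ ≤ Pb p A → CH (Pool.Agent.H49.Ent.cond p A True)
      (xa F κ z' Wn G s₂) (fun ω => (xa F κ z' Wn G s₁ ω, z' (slam F Wn ω),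
        (F.X J ω κ₁, F.X J ω κ₀, F.W ω))) ≤ U := by
    intro A hA
    have hPA : c₀ ≤ Pe p A := by
      have e1 : Pe p A = Pb p A := Pool.NFD.Pb_law A
      rw [e1]
      exact hA
    have e2 : Pool.Agent.H49.Ent.cond p A True =
        Pool.Agent.H49.Ent.cond F.p (fun ω => B ω ∧ A ω) True := by
      rw [hp]
      exact Piece.cond_inter hB.ne'
    have e3 : Pe p A = Pe F.p (fun ω => B ω ∧ A ω) / Pe F.p B := by
      rw [hp]
      exact Pool.K2S.Pe_cond A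
    have e4 : c₀ * Pe F.p B ≤ Pe F.p (fun ω => B ω ∧ A ω) := by
      rw [e3, le_div_iff₀ hB] at hPA
      exact hPA
    have e5 := row (fun ω => B ω ∧ A ω) (fun ω h => h.1) e4
    rw [e2]
    have hAB : 0 < Pe F.p (fun ω => B ω ∧ A ω) := (mul_pos hc hB).trans_le e4
    have hn2 := (isLaw_cond F.isLaw hAB).nonneg
    refine le_trans (CH_mono_cond hn2 fun ω ω' a b e => ?_) e5
    simp only [Prod.mk.injEq] at e
    have hX : ∀ i ∈ I₀, F.X J ω i = F.X J ω' i := by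
      intro i hi
      rcases hI₀ i hi with rfl | rfl
      · exact e.2.2.2.1
      · exact e.2.2.1
    unfold ya
    refine Prod.ext e.1 (Prod.ext e.2.1 (Prod.ext ?_ e.2.2.2.2))
    show ceI I₀ (fun _ => J) (F.x ω) = ceI I₀ (fun _ => J) (F.x ω')
    funext i
    unfold Pool.UNJ.ceI
    split_ifs with hi
    · exact hX i hi
    · rfl
  have htriv : ∀ r : F.Ω → ℝ, IsLaw r → (∀ ω, 0 < r ω → 0 < p ω) →
      CH r (xa F κ z' Wn G s₂) (fun ω => (xa F κ z' Wn G s₁ ω, z' (slam F Wn ω),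
        (F.X J ω κ₁, F.X J ω κ₀, F.W ω))) ≤ (s₂ - s₁) * Real.log 2 * J + Real.log 7 := by
    intro r hr _
    refine le_trans (CH_mono_cond hr.nonneg fun ω ω' a b e => ?_)
      (xa_cnt (I₀ := I₀) (κ := κ) hr z' Wn G hs)
    simp only [Prod.mk.injEq] at e
    have hX : ∀ i ∈ I₀, F.X J ω i = F.X J ω' i := by
      intro i hi
      rcases hI₀ i hi with rfl | rfl
      · exact e.2.2.2.1
      · exact e.2.2.1
    unfold ya
    refine Prod.ext e.1 (Prod.ext e.2.1 (Prod.ext ?_ e.2.2.2.2))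
    show ceI I₀ (fun _ => J) (F.x ω) = ceI I₀ (fun _ => J) (F.x ω')
    funext i
    unfold Pool.UNJ.ceI
    split_ifs with hi
    · exact hX i hi
    · rfl
  have hV : 0 ≤ (s₂ - s₁) * Real.log 2 * J + Real.log 7 := by
    have h1 : 0 ≤ Real.log 2 := Real.log_nonneg one_le_two
    have h2 : 0 ≤ Real.log 7 := Real.log_nonneg (by norm_num)
    have h3 : 0 ≤ (s₂ - s₁) * Real.log 2 * J :=
      mul_nonneg (mul_nonneg (by linarith) h1) (Nat.cast_nonneg J)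
    linarith
  have hplaw : IsLaw p := hp ▸ hlaw
  have key := nf_law hplaw hq hR (fun ω => hp ▸ hqd ω)
    (fun ω => ⌊((2 ^ k : ℕ) : ℝ) * MvPolynomial.eval (xo ω) (Jo ω)⌋) (xa F κ z' Wn G s₁)
    (xa F κ z' Wn G s₂) (fun ω => (F.X J ω κ₁, F.X J ω κ₀, F.W ω)) (fun ω => cv (2 ^ k) (xo ω)) y
    (fun ω => z' (slam F Wn ω)) zA hN hC
    (fun ω ω' a b e1 => hyy _ _ cct _ _ (hpB _ a) (hpB _ b) e1) up low hE₁ hE₂
    (fun ω ω' a b e1 e2 => by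
      simp only [Prod.mk.injEq] at e2
      exact hvr.v1 ω ω' (hpB _ a) (hpB _ b) (hyy _ _ cy _ _ (hpB _ a) (hpB _ b) e1) e2.2.2
        e2.2.1 e2.1)
    (fun ω ω' a b e1 e2 e3 => by
      simp only [Prod.mk.injEq] at e2
      exact hvr.v2 ω ω' (hpB _ a) (hpB _ b) (hyy _ _ cy _ _ (hpB _ a) (hpB _ b) e1) e2.2.2
        e2.2.1 e2.1 e3) (n := n) hc hη hU hV hrow htriv
  exact key.trans hnum

end Pool.STB
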