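import Pool.Agent.H98.STB.VrL

/-!
# The real numbers of a static target at a record

`nsr_rec`: the numbers `NsR` from the linear levels and the static kind.
-/

set_option autoImplicit false

namespace Pool.STB

open Finset Real MvPolynomial
open Pool.Agent.H49.Ent Pool.Agent.H32.Dense Pool.STK Pool.KA Pool.KSAT Pool.K2S Pool.PB Pool.S6C
open Pool.GEN Pool.RCD Pool.LA91 Pool.PKG
open Pool.STB77 (NodF)
open Pool.STB65 (NsR NsQ)

section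

variable {m : ℕ} {S : PCl m} {al : ℝ} {g₀ : ℝ → ℝ} {P₀ : List (Fin m) × Fin m → ℝ → ℝ → ℝ}
  {θ : ℝ} {P₂ : ℕ → List (Fin m) × Fin m → ℝ → ℝ → ℝ} {θ₂ Eb e₂ : ℕ → ℝ}
  {c : ℕ → Fin m} {Pt : ℝ → ℝ → ℝ} {r : ℝ → ℝ} {h K₀ g : ℝ} {L T : ℕ → ℝ → ℝ → ℝ}
  {Sl : ℕ → ℝ} {κ : ℕ → Kg} {G : Set ℝ} {S₀ N₀ : ℕ} {A V : ℕ → ℝ} {S₂ N' : ℕ} {V' : ℕ → ℝ}
  {K ε q t : ℝ}
  (R : RecG S al g₀ P₀ θ P₂ θ₂ Eb e₂ c Pt r h K₀ g L T Sl κ G S₀ N₀ A V S₂ N' V' K ε q t)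
  {oW y ρ : ℝ} {Ng P pc N M' Nx : ℕ} {Ax Vx : ℕ → ℝ}
  (H : LsN oW y ρ Ng P Nx Ax Vx N₀ A V N' V' K) (gr : GrN y ρ Ng P pc N M')
include R H gr

/-- The balls of the list. -/
theorem ball_at {k : ℕ} (hk : k ≤ N + (P - pc)) :
    nAA t q oW y ρ Ng P Ax (nι N M' k) = t + (oW + (nι N M' k : ℕ) * ρ) * q ∧
    nWW t q oW ρ Ng P Vx (nι N M' k) = t + (oW + (nι N M' k : ℕ) * ρ) * q ∧
    -K ≤ oW + (nι N M' k : ℕ) * ρ ∧ oW + (nι N M' k : ℕ) * ρ ≤ K := by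
  have h1 := gr.ι_le hk
  exact ⟨nAA_ball h1, nWW_ball h1, H.ball gr h1⟩

theorem ball_zero : nAA t q oW y ρ Ng P Ax (nι N M' 0) = t + oW * q ∧
    nWW t q oW ρ Ng P Vx (nι N M' 0) = t + oW * q ∧ -K ≤ oW ∧ oW ≤ K := by
  obtain ⟨h1, h2, h3, h4⟩ := ball_at R H gr (k := 0) (Nat.zero_le _)
  have e : nι N M' 0 = 0 := nι_le (Nat.zero_le _)
  rw [e, Nat.cast_zero, zero_mul, add_zero] at h1 h2 h3 h4
  rw [e]
  exact ⟨h1, h2, h3, h4⟩

/-- The static pairs of the list. -/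
theorem pair_at {i : ℕ} (hi : pc + i ≤ P) :
    nAA t q oW y ρ Ng P Ax (nσ Ng pc N (N + i)) = nAA t q oW y ρ Ng P Ax (nι N M' (N + i)) ∧
    nWW t q oW ρ Ng P Vx (nσ Ng pc N (N + i)) = t + oW * q ∧
    nσ Ng pc N (N + i) < Ng + P + 2 + Nx ∧
    nAA t q oW y ρ Ng P Ax (nι N M' (N + i)) = t + (oW + ((pc + 1 + i : ℕ) : ℝ) * y) * q ∧
    -K ≤ oW + ((pc + 1 + i : ℕ) : ℝ) * y ∧ oW + ((pc + 1 + i : ℕ) : ℝ) * y ≤ K ∧
    oW ≤ oW + ((pc + 1 + i : ℕ) : ℝ) * y := by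
  have h0 : N + i ≤ N + (P - pc) := by omega
  obtain ⟨h1, h2, h3, h4⟩ := ball_at R H gr h0
  have e1 := gr.off i
  obtain ⟨b1, b2, b3⟩ := H.pr gr (j := pc + 1 + i) (by omega)
  rw [nσ_add, nAA_pair (by omega) (by omega), nWW_pair (by omega) (by omega), h1, e1]
  exact ⟨rfl, rfl, by omega, rfl, b2, b3, b1⟩

theorem ball_mono {j k : ℕ} (hjk : j ≤ k) (hk : k ≤ N + (P - pc)) :
    nAA t q oW y ρ Ng P Ax (nι N M' j) ≤ nAA t q oW y ρ Ng P Ax (nι N M' k) := by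
  rw [(ball_at R H gr (hjk.trans hk)).1, (ball_at R H gr hk).1]
  have hr := gr.r0
  have h1 : ((nι N M' j : ℕ) : ℝ) * ρ ≤ (nι N M' k : ℕ) * ρ :=
    mul_le_mul_of_nonneg_right (by exact_mod_cast nι_mono gr.M1 hjk) hr.le
  have hq := R.q0
  nlinarith

omit H gr in
/-- Monotone levels of balls. -/
theorem lv_mono {l : ℕ} (hl : l < m) {a a' w w' : ℝ} (hw : 0 ≤ w) (hww : w ≤ w') (haa : a ≤ a')
    (hwa : w ≤ a) (hwa' : w' ≤ a') (ha : a' ≤ 1) : L l a w ≤ L l a' w' :=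
  ((R.lawL l hl).mono_a a a' w hw hwa haa ha).trans ((R.lawL l hl).mono_w a' w w' hw hww hwa' ha)

/-- **The real numbers of a static target** at a record. -/
theorem nsr_rec (hm : 3 < m) {b : ℕ} (hS3 : Sl 3 = b) (hκ : κ 3 = .sta) {X η s₀ : ℝ} (hX : 0 ≤ X)
    (hη : 0 ≤ η) (hε : 0 ≤ ε) (hs : (X + 2 * η + 4 * ε) * q ≤ s₀) :
    NsR b N (L 3 (nAA t q oW y ρ Ng P Ax (nι N M' 0)) (nWW t q oW ρ Ng P Vx (nι N M' 0)) +
        b * (nAA t q oW y ρ Ng P Ax (nι N M' N) - nAA t q oW y ρ Ng P Ax (nι N M' 0)))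
      L (nAA t q oW y ρ Ng P Ax) (nWW t q oW ρ Ng P Vx) (nι N M') (nσ Ng pc N)
      (fun k => L 3 (nAA t q oW y ρ Ng P Ax (nι N M' k)) (nAA t q oW y ρ Ng P Ax (nι N M' k)) -
        2 * (η * q))
      (fun k => L 2 (nAA t q oW y ρ Ng P Ax (nι N M' k)) (nAA t q oW y ρ Ng P Ax (nι N M' k)) -
        L 3 (nAA t q oW y ρ Ng P Ax (nι N M' k)) (nAA t q oW y ρ Ng P Ax (nι N M' k)) + X * q)
      s₀ := by
  have hq := R.q0
  have hεq : 0 ≤ ε * q := by positivity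
  have hXq : 0 ≤ X * q := by positivity
  have hηq : 0 ≤ η * q := by positivity
  obtain ⟨z1, z2, z3, z4⟩ := ball_zero R H gr
  obtain ⟨w1, w2, w3⟩ := box_in R z3 z4
  have hs' : X * q + 2 * (η * q) + 4 * (ε * q) ≤ s₀ := by linarith
  have hlin : ∀ k ≤ N, L 3 (t + oW * q) (t + oW * q) +
      b * (nAA t q oW y ρ Ng P Ax (nι N M' k) - (t + oW * q)) ≤
      L 3 (nAA t q oW y ρ Ng P Ax (nι N M' k)) (nAA t q oW y ρ Ng P Ax (nι N M' k)) +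
        2 * (ε * q) := by
    intro k hk
    obtain ⟨h1, h2, h3, h4⟩ := ball_at R H gr (hk.trans (Nat.le_add_right _ _))
    rw [h1]
    have h5 := abs_le.1 (lv_lin R hm w1 (box_in R h3 h4).1)
    rw [hS3] at h5
    linarith [h5.1]
  have hww : ∀ k ≤ N, nWW t q oW ρ Ng P Vx (nι N M' k) =
      nAA t q oW y ρ Ng P Ax (nι N M' k) := fun k hk => by
    obtain ⟨h1, h2, -, -⟩ := ball_at R H gr (hk.trans (Nat.le_add_right _ _))
    rw [h1, h2]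
  have hσ := pair_at R H gr (i := 0) (by have := gr.pP; omega)
  rw [Nat.add_zero] at hσ
  obtain ⟨s1, s2, -, s4, s5, s6, s7⟩ := hσ
  constructor
  · rw [z1, z2]
    exact w2.le.trans (R.low_at hm w2.le le_rfl w3.le)
  · intro k hk
    rw [z1, z2, hww k hk]
    have := hlin k hk
    linarith
  · intro k hk
    show _ ≤ L 3 _ _ - 2 * (η * q) + s₀
    rw [z1, z2]
    have := hlin k hk
    linarith
  · exact le_rfl
  · rw [z1, z2, s1, s2]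
    have h1 := hlin N le_rfl
    have h2 := lv_sta R hm hκ (a := nAA t q oW y ρ Ng P Ax (nι N M' N)) (w := t + oW * q)
      (by nlinarith) (by rw [s4]; nlinarith) (by rw [s4]; nlinarith)
    linarith
  · intro l hl
    rw [s1, s2, hww N le_rfl]
    have h1 : L l (nAA t q oW y ρ Ng P Ax (nι N M' N)) (t + oW * q) ≤
        L l (nAA t q oW y ρ Ng P Ax (nι N M' N)) (nAA t q oW y ρ Ng P Ax (nι N M' N)) := by
      have h3 : t + oW * q ≤ nAA t q oW y ρ Ng P Ax (nι N M' N) := by rw [s4]; nlinarith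
      refine lv_mono R (by omega) w2.le h3 le_rfl h3 le_rfl ?_
      rw [s4]
      exact (box_in R s5 s6).2.2.le
    linarith
  · intro j k hjk hk l hl
    rw [hww j (hjk.trans hk), hww k hk]
    obtain ⟨a1, -, a3, a4⟩ := ball_at R H gr ((hjk.trans hk).trans (Nat.le_add_right _ _))
    obtain ⟨b1, -, b3, b4⟩ := ball_at R H gr (hk.trans (Nat.le_add_right _ (P - pc)))
    have h1 := ball_mono R H gr hjk (hk.trans (Nat.le_add_right _ (P - pc)))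
    have h2 : L l (nAA t q oW y ρ Ng P Ax (nι N M' j)) (nAA t q oW y ρ Ng P Ax (nι N M' j)) ≤
        L l (nAA t q oW y ρ Ng P Ax (nι N M' k)) (nAA t q oW y ρ Ng P Ax (nι N M' k)) := by
      refine lv_mono R (by omega) ?_ h1 h1 le_rfl le_rfl ?_
      · rw [a1]
        exact (box_in R a3 a4).2.1.le
      · rw [b1]
        exact (box_in R b3 b4).2.2.le
    linarith
  · intro k hk
    show L 2 _ _ - L 3 _ _ + X * q + _ ≤ _
    rw [z1, z2, hww k hk]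
    have := hlin k hk
    linarith

end

end Pool.STB
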