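import Pool.Agent.H98.STB.VbF

/-!
# Case (B), a static target: the class theorem

`vb_void`: in a class with the thresholds of the chain labels, nonfull rows of a label of the target
`c 3` over the two first coordinates and an event with the data `VbE`, `VbN` on every event of the
class are impossible.
-/

set_option autoImplicit false

namespace Pool.STB

open Finset Real MvPolynomial
open Pool.Agent.H49.Ent Pool.Agent.H32.Dense Pool.STK Pool.KA Pool.KSAT Pool.K2S Pool.PB Pool.S6C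
open Pool.GEN Pool.CHT Pool.CHX Pool.D2F Pool.D2Con Pool.D2A Pool.RCD Pool.VIS24
open Pool.STB82 (yv hgP WinN LevN chh_pos)
open Pool.ALT (xa ya)
open Pool.STB65 (InpP InpF PosO JetO nu Rs Rs_pos nu_pos se jet_evE)
open Pool.LBT (ThrOf)
open Pool.LA91 (FulC)
open Pool.FLF (Fam.sub)

variable {m : ℕ}

/-- The levels of the two places of slope one. -/
theorem vb_lev {J k y x W₀ g1 e₁ e₂ i : ℕ} {A τ γ₀ C β0 β1 e₀ : ℝ} {a : ℚ}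
    (H : A * ((y : ℝ) + x + 1) ≤ τ * k) (hC : C ≤ 2 ^ y) (hA3 : 3 ≤ A) (hτγ : τ ≤ γ₀)
    (hτ : τ ≤ 1) (hA9 : ((9 : ℕ) : ℝ) ≤ A) (aa : W₀ + k + i * k + k ≤ ⌊(a : ℝ) * J⌋₊)
    (l0 : ⌊β0 * J⌋₊ ≤ ⌊(a : ℝ) * J⌋₊ + x) (l1 : ⌊β1 * J⌋₊ + W₀ ≤ g1 + ⌊(a : ℝ) * J⌋₊ + x)
    (Wg : W₀ ≤ g1 + x) (e1 : e₁ + 1 ≤ e₂) (e2 : y + 2 * x + 6 ≤ e₂) (e2J : e₂ ≤ ⌊e₀ * J⌋₊)
    (J1 : e₂ + g1 + (k + i * k + k) + x + 4 ≤ J) :
    LevN J β0 β1 a e₀ (W₀ + k + i * k + k) W₀ (k + i * k + k) k k g1 e₁ e₂ x (2 * y + 1) (y + 1)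
      (2 ^ y) ((2 ^ y) ^ 2) ((((2 ^ k : ℕ) : ℝ)) ^ (-γ₀)) C := by
  have hA9' : (9 : ℝ) ≤ A := by exact_mod_cast hA9
  have hyk : 2 * y + 3 ≤ k := Pool.STB6.lin_nat H hτ (a := 2) (b := 0) (c := 3) (by omega)
    (by push_cast; linarith) (by push_cast; linarith) (by push_cast; linarith)
  refine ⟨by omega, by omega, aa, l0, l1, Wg, e1, by omega, e2J, by omega, J1, ?_, ?_, ?_, ?_⟩
  · rw [← pow_mul, pow_succ, mul_comm y 2]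
    exact (mul_comm _ _).le
  · exact Pool.STB6.vn_V H (by linarith) hτ
  · have h := Pool.STB6.vn_N H hA9' hτγ hτ
    have h1 : y + 1 + 2 * x + 6 = y + 2 * x + 7 := by ring
    rw [h1]
    exact h
  · exact Pool.STB6.vn_Er' H hC hA3 hτ

/-- **Case (B), a static target.** -/
theorem vb_void (m K b : ℕ) (hb : 1 ≤ b) (hbK : b ≤ K + 1) {h₀ : ℝ} (hh0 : 0 < h₀) (hh1 : h₀ ≤ 1) :
    ∃ (n : ℕ) (A τ : ℝ) (Cg ne : ℕ), 0 < n ∧ 1 ≤ A ∧ 0 < τ ∧ τ ≤ 1 ∧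
    ∀ (N : ℕ) (kr ur : ℝ), 0 < kr → 0 < ur →
    ∀ {θ : ℝ} {S : PCl m} {P : List (Fin m) × Fin m → ℝ → ℝ → ℝ} (_ : ThrOf (chsys m θ) S P)
      (_ : TmH S) (_ : S.Ne) (c : ℕ → Fin m) (_ : Set.InjOn c (Set.Iio 3)) {η e0 eg wn : ℝ}
      {wi ai : ℕ → ℚ} {fi : ℕ → ℝ} {sf : ℕ → ℕ → ℝ} {s₁ s₂ Dr : ℕ → ℝ} {I₀ : Finset (Fin m)}
      (_ : ∀ i ∈ I₀, i = c 0 ∨ i = c 1) (_ : 0 < θ) (_ : 0 < η)
      (_ : ∀ i < n, 0 ≤ wi i ∧ wi i ≤ 1 ∧ eg < θ * wi i ∧ bet P c 3 (wi i) (wi i) + η ≤ 1)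
      (_ : ∀ i < n, 0 < ai i ∧ ai i ≤ 1 ∧ e0 < θ * ai i ∧ bet P c 0 (ai i) (ai i) + η ≤ 1 ∧
        bet P c 1 (ai i) (ai i) + η ≤ 1)
      (_ : ∀ i < n, fi i ≤ 1) (_ : ∀ i < n, FulC S c 0 2 (fi i) (sf i))
      (_ : ∀ i < n, s₁ i ≤ s₂ i ∧ 0 ≤ Dr i ∧
        Dr i ≤ (1 - h₀) * (s₂ i - s₁ i) * Real.log 2 + h₀ * kr * Real.log 2 / 128)
      {Ψ : ∀ (J : ℕ) (F : Fam m J), (F.Ω → Prop) → ∀ V : Type, (PtT F → V) → (LnT F → V) →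
        (V → MvPolynomial (Option (Fin m)) ℝ) → Prop}
      (_ : ∀ (J : ℕ) (F : Fam m J) (A B : F.Ω → Prop) (V : Type) (z : PtT F → V)
        (z' : LnT F → V) (G : V → MvPolynomial (Option (Fin m)) ℝ), Sub B A →
        Ψ J F A V z z' G → Ψ J F B V z z' G)
      (_ : ∀ (J : ℕ) (F : Fam m J) (A : F.Ω → Prop) (V : Type) (z : PtT F → V) (z' : LnT F → V)
        (G : V → MvPolynomial (Option (Fin m)) ℝ), Ψ J F A V z z' G →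
        ∀ ω, A ω → z (ptr F J ω) = z' (slam F ⌊wn * J⌋₊ ω))
      (_ : ∀ i < n, Bas S (fun J F A => ∀ (V : Type) (z : PtT F → V) (z' : LnT F → V)
        (G : V → MvPolynomial (Option (Fin m)) ℝ), Ψ J F A V z z' G →
        CH (Pool.Agent.H49.Ent.cond F.p A True) (xa F (c 3) z' ⌊wn * J⌋₊ G (s₂ i))
          (ya F I₀ (c 3) z' ⌊wn * J⌋₊ G (s₁ i)) ≤ Dr i * J))
      {c₀ : ℝ} (_ : 0 < c₀)
      (_ : Bas S (fun J F A' => ∃ (V : Type) (z : PtT F → V) (z' : LnT F → V)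
        (G : V → MvPolynomial (Option (Fin m)) ℝ), Ψ J F A' V z z' G ∧
        ∃ B : F.Ω → Prop, Sub B A' ∧ c₀ * Pe F.p A' ≤ Pe F.p B ∧ ∃ t : VbT F,
          VbE F c B K n N b ⌊wn * J⌋₊ z z' G t ∧
          VbN P c n b Cg ne A τ kr ur η e0 eg wn wi ai fi sf s₁ s₂ t)), False := by
  classical
  have hl2 : 0 < Real.log 2 := Real.log_pos one_lt_two
  obtain ⟨γ, γ₀, e₀, c', R, C₀, M₀, hγ, hγ₀, he₀, hc', hR, hC₀, hend⟩ :=
    stb_false t_end b (h₀ / 2) (1 / 2) hb (by positivity) (by norm_num)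
  obtain ⟨E, E', hjet⟩ := jet_evE m (K + 1) b (by omega) hb hbK
  -- the integers
  obtain ⟨ne, hne⟩ : ∃ ne : ℕ, e₀ ≤ ne := exists_nat_ge e₀
  obtain ⟨n', hn'⟩ : ∃ n' : ℕ, 2 * ((3 + (se b).card : ℕ) : ℝ) / e₀ ≤ n' := exists_nat_ge _
  obtain ⟨n, hnd⟩ : ∃ n, n = n' + 1 := ⟨_, rfl⟩
  have hn0 : 0 < n := by omega
  have hncard : 2 * ((3 + (se b).card : ℕ) : ℝ) ≤ e₀ * n := by
    have h1 : 2 * ((3 + (se b).card : ℕ) : ℝ) / e₀ ≤ n := by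
      rw [hnd]
      push_cast at hn' ⊢
      linarith
    rw [div_le_iff₀ he₀] at h1
    linarith
  obtain ⟨R', hR'd⟩ : ∃ R', R' = max R 1 := ⟨_, rfl⟩
  have hR'1 : 1 ≤ R' := hR'd ▸ le_max_right _ _
  have hR'R : R ≤ R' := hR'd ▸ le_max_left _ _
  obtain ⟨q, hq⟩ : ∃ q : ℕ, q = E + E' + 4 * b + 30 := ⟨_, rfl⟩
  obtain ⟨A, hA⟩ : ∃ A : ℝ, A = (R' + 1) * q := ⟨_, rfl⟩
  have hq30 : (30 : ℝ) ≤ q := by
    rw [hq]
    push_cast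
    have h1 : (0 : ℝ) ≤ E := Nat.cast_nonneg _
    have h2 : (0 : ℝ) ≤ E' := Nat.cast_nonneg _
    have h3 : (0 : ℝ) ≤ b := Nat.cast_nonneg _
    linarith
  have hqA : (q : ℝ) ≤ A := by
    rw [hA]
    nlinarith
  have hA30 : (30 : ℝ) ≤ A := hq30.trans hqA
  have natA : ∀ a : ℕ, a ≤ q → (a : ℝ) ≤ A := fun a ha => le_trans (by exact_mod_cast ha) hqA
  obtain ⟨τ, hτ⟩ : ∃ τ : ℝ, τ = min (min (min γ γ₀) (min e₀ (h₀ / 16))) (1 / 2) := ⟨_, rfl⟩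
  have hτ0 : 0 < τ := by
    rw [hτ]
    exact lt_min (lt_min (lt_min hγ hγ₀) (lt_min he₀ (by positivity))) (by norm_num)
  have hτ2 : τ ≤ 1 / 2 := hτ ▸ min_le_right _ _
  have hτ1 : τ ≤ 1 := by linarith
  have hτγ : τ ≤ γ := by
    rw [hτ]
    exact (min_le_left _ _).trans ((min_le_left _ _).trans (min_le_left _ _))
  have hτγ₀ : τ ≤ γ₀ := by
    rw [hτ]
    exact (min_le_left _ _).trans ((min_le_left _ _).trans (min_le_right _ _))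
  have hτe : τ ≤ e₀ := by
    rw [hτ]
    exact (min_le_left _ _).trans ((min_le_right _ _).trans (min_le_left _ _))
  have hτh : τ ≤ h₀ / 16 := by
    rw [hτ]
    exact (min_le_left _ _).trans ((min_le_right _ _).trans (min_le_right _ _))
  refine ⟨n, A, τ, q, ne + 1, hn0, by linarith, hτ0, hτ1, ?_⟩
  intro N kr ur hkr hur
  obtain ⟨C₁, hC₁, hjetN⟩ := hjet N
  obtain ⟨εr, hεr⟩ : ∃ εr : ℝ, εr = h₀ * kr * Real.log 2 / 128 := ⟨_, rfl⟩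
  have hεr0 : 0 < εr := by rw [hεr]; positivity
  intro θ S P hP hS hSn c hc η e0 eg wn wi ai fi sf s₁ s₂ Dr I₀ hI₀ hθ hη hwi hai hfi hful hrw Ψ Ψs
    Ψc hrow c₀ hc₀ hev
  rw [← hεr] at hrw
  -- the constants of the class
  obtain ⟨C₂, hC₂, hchh⟩ := chh_pos hP hS c K n hn0 ai (e₀ := e0) (h := η)
    (ε := τ * kr * Real.log 2 / 4) (c₁ := c') (fun i hi => (hai i hi).1)
    (fun i hi => (hai i hi).2.1) hθ (fun i hi => (hai i hi).2.2.1) hη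
    (fun i hi => (hai i hi).2.2.2.1) (fun i hi => (hai i hi).2.2.2.2) (by positivity) hc'
  obtain ⟨sT, hsT⟩ : ∃ sT : ℝ, sT = ur * Real.log 2 / (4 * C₁) := ⟨_, rfl⟩
  have hsT0 : 0 < sT := by
    rw [hsT]
    have : 0 < C₁ := by linarith
    positivity
  have hwin := Bas.all n (Φ := fun i J F B => ∀ (V : Type) (z : PtT F → V) (z' : LnT F → V)
      (G : V → MvPolynomial (Option (Fin m)) ℝ), Ψ J F B V z z' G →
      ∀ (W k : ℕ) (xo : F.Ω → V3) (Jo : F.Ω → Po) (Y₀ : Type) (y₀ : F.Ω → Y₀)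
        (DT D₀ D₁ E₁ E₂ δ h e : ℝ), ⌊wn * J⌋₊ ≤ W → W + k ≤ ⌊fi i * J⌋₊ →
      Cl2 (slam F (W + k)) (fun ω => ptr F J ω) B xo →
      Cl2 (slam F (W + k)) (fun ω => ptr F J ω) B Jo →
      Cl2 (slam F W) (fun ω => ptr F J ω) B y₀ → 0 ≤ DT → 0 ≤ D₀ → 0 ≤ D₁ → 0 ≤ E₁ → 0 ≤ E₂ →
      PosR F B k (c 0) (c 1) xo y₀ DT D₀ D₁ →
      ValR F B k (c 0) (c 1) xo Jo y₀ (xa F (c 3) z' ⌊wn * J⌋₊ G (s₁ i))
        (xa F (c 3) z' ⌊wn * J⌋₊ G (s₂ i)) E₁ E₂ →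
      Real.log (E₁ + 1) + Real.log (E₂ + 1) ≤ δ * J →
      Real.log (DT + 1) + Real.log (D₀ + 1) + Real.log (D₁ + 1) ≤
        ((J : ℝ) - ((W + k : ℕ) : ℝ)) * Real.log 2 +
          (2 - sf i 0 - sf i 1) * Real.log 2 * J + δ * J →
      (Dr i + εr + (R' + 1) * δ) * J ≤ (1 - h) * Real.log ((2 ^ k : ℕ) : ℝ) + e →
      WinN F B W k xo Jo e h R') fun i hi =>
    winN_cls hS (hfi i hi) (hful i hi) hI₀ (hrw i hi).1 (hrw i hi).2.1 Ψs Ψc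
      (hrow i hi) hR'1 hεr0
  have hstb := Bas.all n fun i hi => hend m θ S P hP c 3 (b * (K + 1) + K) (wi i) (wi i) eg η
    (8 / c₀) (hwi i hi).1 le_rfl (hwi i hi).2.1 (hwi i hi).2.2.1 hη (hwi i hi).2.2.2 (by positivity)
  -- large numbers
  obtain ⟨c₂, hc₂⟩ : ∃ c₂ : ℕ, C₁ * (n + 1) + C₂ + C₀ ≤ (2 : ℝ) ^ c₂ :=
    (pow_unbounded_of_one_lt _ one_lt_two).imp fun _ h => h.le
  obtain ⟨N₁, hN₁⟩ : ∃ N₁ : ℕ, N₁ = 108 * n + 4 + c₂ + M₀ := ⟨_, rfl⟩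
  obtain ⟨J₁, hJ₁⟩ := exists_nat_ge (((N₁ : ℝ) + 2) / ur)
  obtain ⟨J₂, hJ₂⟩ := exists_nat_ge (((N₁ : ℝ) + 2) / kr)
  obtain ⟨J₃, hJ₃⟩ := exists_nat_ge (4 * (C₁ + Real.log 2) / (ur * Real.log 2))
  obtain ⟨J₄, hJ₄⟩ := exists_nat_ge (4 * (Real.log 3 + τ * Real.log 2) / (τ * kr * Real.log 2))
  obtain ⟨J₅, hJ₅⟩ : ∃ J₅ : ℕ, J₅ = max (max J₁ J₂) (max J₃ J₄) + 1 := ⟨_, rfl⟩
  have hall := ((Pool.LBK.Bas.ev (hchh.and hwin) (show 0 < c₀ / 8 by positivity)).and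
    (Pool.LBK.Bas.ev (hS.2 sT hsT0) hc₀)).and (hstb.and hev)
  obtain ⟨τ', hτ', J₆, hfin⟩ := hall
  obtain ⟨J, hJm, F, A', hA'⟩ := hSn τ' hτ' (max J₅ J₆)
  have hJ : J₅ ≤ J := (le_max_left _ _).trans hJm
  have hPA : 0 < Pe F.p A' := hS.1 τ' J F A' hA'
  obtain ⟨⟨hX, hTm⟩, hEnd, V, z, z', G, hΨ, B, hBA, hPB, t, hE, hN⟩ :=
    hfin J ((le_max_right _ _).trans hJm) F A' hA'
  clear hfin
  have hPB0 : 0 < Pe F.p B := lt_of_lt_of_le (by positivity) hPB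
  -- the size of `J`
  have c1 : ((J₁ : ℕ) : ℝ) ≤ J := by exact_mod_cast (show J₁ ≤ J by omega)
  have c2 : ((J₂ : ℕ) : ℝ) ≤ J := by exact_mod_cast (show J₂ ≤ J by omega)
  have c3 : ((J₃ : ℕ) : ℝ) ≤ J := by exact_mod_cast (show J₃ ≤ J by omega)
  have c4 : ((J₄ : ℕ) : ℝ) ≤ J := by exact_mod_cast (show J₄ ≤ J by omega)
  have hJ1 : (1 : ℝ) ≤ J := by exact_mod_cast (show 1 ≤ J by omega)
  have hJ0 : (0 : ℝ) < J := by linarith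
  obtain ⟨W₀, hW₀⟩ : ∃ W₀, W₀ = t.W₀ := ⟨_, rfl⟩
  have d1 : (N₁ : ℝ) + 2 ≤ ur * J := by
    have := hJ₁.trans c1
    rwa [div_le_iff₀ hur, mul_comm] at this
  have d2 : (N₁ : ℝ) + 2 ≤ kr * J := by
    have := hJ₂.trans c2
    rwa [div_le_iff₀ hkr, mul_comm] at this
  have hyu : ur * J < t.y + 1 := by rw [hN.yJ]; exact Nat.lt_floor_add_one _
  have hyu' : (t.y : ℝ) ≤ ur * J := by rw [hN.yJ]; exact Nat.floor_le (by positivity)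
  have hku : kr * J < t.k + 1 := by rw [hN.kJ]; exact Nat.lt_floor_add_one _
  have hku' : (t.k : ℝ) ≤ kr * J := by rw [hN.kJ]; exact Nat.floor_le (by positivity)
  have hyN : N₁ ≤ t.y := by
    have : (N₁ : ℝ) ≤ t.y := by linarith
    exact_mod_cast this
  have hkN : N₁ ≤ t.k := by
    have : (N₁ : ℝ) ≤ t.k := by linarith
    exact_mod_cast this
  have hC₁y : C₁ * (n + 1) + C₂ + C₀ ≤ 2 ^ t.y := hc₂.trans (p2 (by omega))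
  have hn1 : (1 : ℝ) ≤ n := by exact_mod_cast hn0
  have hC₁a : C₁ * (n + 1) ≤ 2 ^ t.y := by linarith
  have hC₁b : C₁ ≤ 2 ^ t.y := by nlinarith
  have hC₂b : C₂ ≤ 2 ^ t.y := by nlinarith
  have hC₀b : C₀ ≤ 2 ^ t.y := by nlinarith
  have H := hN.H
  have hyk : t.y ≤ t.k := Pool.STB6.lin_nat H hτ1 (a := 1) (b := 0) (c := 0) (by omega)
    (natA 1 (by omega)) (by push_cast; linarith) (by push_cast; linarith)
  -- sizes
  have hlast := hN.J1 (n - 1) (by omega)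
  have hnk : t.k + (n - 1) * t.k + t.k = t.k + n * t.k := by
    have h1 : (n - 1) * t.k + t.k = n * t.k := by
      rw [hnd]
      simp only [Nat.add_sub_cancel]
      ring
    omega
  rw [hnk] at hlast
  have hWJ : t.W₀ + t.k + n * t.k ≤ J := by
    have := hN.Wg
    omega
  have hWiJ : ∀ i < n, t.W₀ + t.k + i * t.k + t.k ≤ J := by
    intro i hi
    have h1 := hN.J1 i hi
    have := hN.Wg
    omega
  -- the jets
  have hTm' := hTm B hBA hPB hPB0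
  have hexp : C₁ * (sT * J + 1) ≤ t.y * Real.log 2 := by
    have h0 : 0 < C₁ := by linarith
    have h1 : C₁ * (sT * J) = ur * Real.log 2 / 4 * J := by
      rw [hsT]
      field_simp
    have h2 : 4 * (C₁ + Real.log 2) ≤ ur * Real.log 2 * J := by
      have := hJ₃.trans c3
      rw [div_le_iff₀ (by positivity)] at this
      linarith
    have h3 : ur * J * Real.log 2 ≤ (t.y + 1) * Real.log 2 :=
      mul_le_mul_of_nonneg_right hyu.le hl2.le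
    nlinarith
  obtain ⟨B', ctr, xo, D₁, Jo, Ci, hB', hPB', O, Jt⟩ := hjetN F B hPB0 t.W₀ t.k t.k n (2 ^ t.y)
    (sT * J) ((2 ^ t.y) ^ 2) (yv F c t.W₀ t.g1 t.Pl) t.yt (hgP c t.W₀ t.g1 t.Pl) t.e t.ji t.f t.f'
    t.kf hE.iP (fun _ => rfl) hE.iF hE.hji hn0 hWJ le_rfl hC₁b
    (Pool.STB6.vn_sig (by omega)).1 (Pool.STB6.vn_sig (n := n) (by omega)).2 le_rfl
    (Pool.STB6.vn_YE H (natA E (by omega)) hτ1) (by positivity) hTm' (by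
      refine hexp.trans ?_
      refine mul_le_mul_of_nonneg_right ?_ hl2.le
      have h1 : t.y + t.W₀ ≤ J := by
        have := hN.Wg
        have := hN.e2y
        omega
      have h2 : ((t.y + t.W₀ : ℕ) : ℝ) ≤ J := by exact_mod_cast h1
      push_cast at h2
      linarith) (Pool.STB6.vn_exp hexp)
  have hPB'0 : 0 < Pe F.p B' := by linarith
  have hPA' : c₀ / 8 * Pe F.p A' ≤ Pe F.p B' := by linarith
  have hBA' : Sub B' A' := fun ω hω => hBA ω (hB' ω hω)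
  obtain ⟨hchh', hwin'⟩ := hX B' hBA' hPA'
  have hKc0 : 0 ≤ C₁ * ((n : ℝ) + 1) := by
    have : 0 < C₁ := by linarith
    positivity
  have hM : Real.log (((2 ^ t.k : ℕ) : ℝ)) = t.k * Real.log 2 := Pool.STB6.rp_log t.k
  have hΨ' := Ψs J F A' B' V z z' G hBA' hΨ
  have hk3 : 1 ≤ t.k := by omega
  -- nonfullness
  have hWN : ∀ i < n, WinN F B' (t.W₀ + t.k + i * t.k) t.k (xo i) (Jo i)
      (e₀ * Real.log (((2 ^ t.k : ℕ) : ℝ))) (h₀ / 2) R := fun i hi =>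
    vb_winn hE hb hB' hq hKc0 hC₁a O Jt hi (hWiJ i hi) hN.Wn hN.We H hA hR'1 hR'R
      (by linarith) hτh hh0 hh1 he₀ hεr hku hk3 hJ0 (hrw i hi).2.2 (hN.s12 i hi) (hN.JE1 i hi)
      (hN.JE2 i hi) (hN.s1 i hi) (hN.s2 i hi) (by
        have := hN.J1 i hi
        have := hN.e12
        omega) (hN.f0 i hi) (hN.f1 i hi)
      (fun xo' Jo' Y₀ y₀ DT D₀ D₁' E₁ E₂ δ h e a1 a2 a3 a4 a5 a6 a7 a8 a9 a10 a11 a12 =>
        hwin' i hi V z z' G hΨ' _ _ xo' Jo' Y₀ y₀ DT D₀ D₁' E₁ E₂ δ h e (by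
          have := hN.Wn
          omega) (hN.Wf i hi) a1 a2 a3 a4 a5 a6 a7 a8 a9 a10 a11 a12)
  -- the chain
  have hfull : τ * kr * Real.log 2 / 4 * J + Real.log 3 ≤
      e₀ * Real.log (((2 ^ t.k : ℕ) : ℝ)) := by
    refine Pool.STB6.vn_full (τ := τ) ?_ hτe
    have h2 : 4 * (Real.log 3 + τ * Real.log 2) ≤ τ * kr * Real.log 2 * J := by
      have := hJ₄.trans c4
      rw [div_le_iff₀ (by positivity)] at this
      linarith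
    have h3 : τ * Real.log 2 * (kr * J) ≤ τ * Real.log 2 * (t.k + 1) :=
      mul_le_mul_of_nonneg_left hku.le (by positivity)
    have h4 : 0 ≤ Real.log 3 := Real.log_nonneg (by norm_num)
    nlinarith
  obtain ⟨i, hi, Zt, Yt, zp, y, D', x, Jz, -, -, -, hxx, hJz, hCh⟩ := hchh' t.W₀ t.k t.k b t.g1
    t.e₁' t.e₂ t.x (2 * t.y + 1) (t.y + 1) (2 ^ t.y) ((2 ^ t.y) ^ 2) (C₁ * 2 ^ t.y)
    (C₁ * ((n : ℝ) + 1)) (((2 ^ t.k : ℕ) : ℝ) ^ e₀) ((2 ^ t.y) ^ E') ((2 ^ t.y) ^ E)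
    (e₀ * Real.log (((2 ^ t.k : ℕ) : ℝ))) (h₀ / 2) R (((2 ^ t.k : ℕ) : ℝ) ^ (-γ₀)) t.Pv t.Pl t.yt
    t.f t.ji ctr xo D₁ Jo Ci _ (hE.iP.sub hB') O Jt
    (Pool.STB6.vn_CY' H hC₁b (by linarith) hτe)
    (Pool.STB6.vn_C' H hC₁a (by linarith) hτe) (by positivity) (by positivity) (by positivity)
    hE.Pd hE.Pp (fun ω hω => hE.Pc ω (hB' ω hω)) (fun ω hω => hE.Pg ω (hB' ω hω))
    (Pool.STB6.vn_card (T₀ := 3 + (se b).card) hn0 (by exact_mod_cast hncard) (by omega) (by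
      push_cast
      exact le_rfl)) hfull hWJ (fun i hi => vb_lev H hC₂b (by linarith) hτγ₀ hτ1
        (natA 9 (by omega)) (hN.Wa i hi) (hN.l0 i hi) (hN.l1 i hi) hN.Wg hN.e12 hN.e2y hN.e2J
        (hN.J1 i hi)) hWN
  refine vb_fin (A' := A') (ne := ne) (M₀ := M₀) (γ := γ) (γ₀ := γ₀) (C₀ := C₀) (c₀ := c₀ / 8)
    (β := bet P c 3 (wi i) (wi i)) (η := η) (e := eg) (w := wi i) hc hE hb hB' hBA' hq
    hKc0 hC₁a O Jt hi (hWiJ i hi) hN.Wn hN.We H hqA hτ2 hτγ hC₀b hne (by omega) (by omega)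
    (hN.gr i hi) hN.sy (hN.Wi i hi) hN.e1J (hN.gcJ i hi) (hN.pJ i hi) (hN.l3 i hi) hPB'0
    (by positivity) hPA' hxx hJz hCh ?_
  have h1 := hEnd i hi
  have e1 : 1 / (c₀ / 8) = 8 / c₀ := by field_simp
  rw [e1]
  exact h1

end Pool.STB
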