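import Pool.Agent.H98.STB.Wnn
import Pool.Agent.H6.STB.Vn
import Pool.Agent.H82.STB.Lev
import Pool.Agent.H82.STB.Ful

/-!
# The numbers of the class theorem

Inequalities of exponents: `nu_pow` the unit of the target, `e_num` the readings of the target, `d_num`
the readings of the position, `g_num` the gradients.
-/

set_option autoImplicit false

namespace Pool.STB

open Finset Real MvPolynomial
open Pool.STB65 (nu Rs Rs_pos nu_pos)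

/-- The unit of the target of a window: `Y = 2 ^ y`, `σ = Y ^ 2`, `κ = Y ^ E'`. -/
theorem nu_pow (E' b k y i : ℕ) : nu ((2 ^ y) ^ E') (Rs k k ((2 ^ y) ^ 2) i) b =
    2 ^ (y * E' + 2 * y * b) / 2 ^ (b * (k + i * k)) := by
  unfold nu Rs
  rw [inv_div, div_pow, ← pow_mul, ← pow_mul, ← pow_mul, ← pow_mul, pow_add, mul_div_assoc]
  congr 3
  all_goals ring

/-- `2 ^ a ≤ 2 ^ b` for exponents. -/
theorem p2 {a b : ℕ} (h : a ≤ b) : (2 : ℝ) ^ a ≤ 2 ^ b := pow_le_pow_right₀ one_le_two h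

/-- The logarithm of a number below a power of two. -/
theorem lg_le {z : ℝ} {a : ℕ} (h0 : 0 < z) (h : z ≤ 2 ^ a) : Real.log z ≤ a * Real.log 2 := by
  rw [← Real.log_pow]
  exact Real.log_le_log h0 h

theorem rpow_le_two {u : ℝ} {a : ℕ} (h : u ≤ a) : (2 : ℝ) ^ u ≤ 2 ^ a := by
  rw [← Real.rpow_natCast]
  exact Real.rpow_le_rpow_of_exponent_le one_le_two h

theorem two_le_rpow {u : ℝ} {a : ℕ} (h : (a : ℝ) ≤ u) : (2 : ℝ) ^ a ≤ 2 ^ u := by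
  rw [← Real.rpow_natCast]
  exact Real.rpow_le_rpow_of_exponent_le one_le_two h

/-- **The readings of the target.** -/
theorem e_num {b k y x i g1 g₃ e₁' lz J E E' : ℕ} {Kc Ev ν μ D D' Gr s₁ s₂ : ℝ}
    (hν : ν = nu ((2 ^ y) ^ E') (Rs k k ((2 ^ y) ^ 2) i) b)
    (hμ : μ = 2 ^ k * (2 ^ g₃ / ν)) (hKc0 : 0 ≤ Kc) (hKc : Kc ≤ 2 ^ y)
    (hEv0 : 0 ≤ Ev) (hEv : 2 ^ k * (Ev / ν) ≤ 2 ^ (y * (b + 1)))
    (hD : D = Kc + 2 ^ k * (Ev / ν)) (hGr0 : 0 ≤ Gr) (hGr : Gr ≤ (2 ^ y) ^ E)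
    (hD' : D' = 2 ^ k / ν * (2 ^ g₃ * (2 * 2 ^ lz) + 3 * Gr * 2 ^ (g1 + e₁' + 1)) / 2 ^ J)
    (hJ1 : lz + g₃ + b * (k + i * k) + k + 2 ≤ J)
    (hJ2 : g1 + e₁' + y * E + b * (k + i * k) + k + 4 ≤ J)
    (hs₁ : s₁ * J ≤ g₃ + b * (k + i * k) + x) (hs₂ : (g₃ + b * (k + i * k) + k : ℕ) ≤ s₂ * J + x) :
    Real.log (2 ^ (s₁ * J) / μ * (2 * Kc * 2 ^ k + 2 * D + D') + 1 + 1) +
      Real.log (μ / 2 ^ (s₂ * J) + 2 * D + D' + 1 + 1) ≤
      (2 * x + y * (E' + 4 * b + 6) + 12 : ℕ) * Real.log 2 := by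
  have hl : 0 < Real.log 2 := Real.log_pos one_lt_two
  rw [nu_pow] at hν
  have hν0 : 0 < ν := by rw [hν]; positivity
  have hμ0 : 0 < μ := by rw [hμ]; positivity
  have hνe : ν = 2 ^ (y * E' + 2 * y * b) / 2 ^ (b * (k + i * k)) := hν
  -- the unit
  have hμe : μ = 2 ^ (k + g₃ + b * (k + i * k)) / 2 ^ (y * E' + 2 * y * b) := by
    rw [hμ, hνe, pow_add (2 : ℝ) (k + g₃), pow_add (2 : ℝ) k g₃]
    field_simp
  have hinv : 2 ^ k / ν ≤ 2 ^ (k + b * (k + i * k)) := by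
    rw [hνe, pow_add (2 : ℝ) k]
    have h1 : (1 : ℝ) ≤ 2 ^ (y * E' + 2 * y * b) := one_le_pow₀ one_le_two
    rw [div_div_eq_mul_div]
    exact div_le_self (show (0 : ℝ) ≤ 2 ^ k * 2 ^ (b * (k + i * k)) by positivity) h1
  -- D' is at most one
  have hD1 : D' ≤ 2 := by
    rw [hD', div_le_iff₀ (by positivity)]
    have a1 : (2 : ℝ) ^ g₃ * (2 * 2 ^ lz) = 2 ^ (g₃ + lz + 1) := by
      rw [pow_succ, pow_add]
      ring
    have a2 : 3 * Gr * 2 ^ (g1 + e₁' + 1) ≤ 2 ^ (y * E + g1 + e₁' + 3) := by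
      calc 3 * Gr * 2 ^ (g1 + e₁' + 1) ≤ 4 * (2 ^ y) ^ E * 2 ^ (g1 + e₁' + 1) := by
            refine mul_le_mul_of_nonneg_right ?_ (by positivity)
            exact mul_le_mul (by norm_num) hGr hGr0 (by norm_num)
        _ = 2 ^ (y * E + g1 + e₁' + 3) := by
            rw [← pow_mul, show y * E + g1 + e₁' + 3 = 2 + y * E + (g1 + e₁' + 1) by ring,
              pow_add (2 : ℝ) (2 + y * E), pow_add (2 : ℝ) 2 (y * E)]
            norm_num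
    calc 2 ^ k / ν * (2 ^ g₃ * (2 * 2 ^ lz) + 3 * Gr * 2 ^ (g1 + e₁' + 1)) ≤
          2 ^ (k + b * (k + i * k)) * (2 ^ (g₃ + lz + 1) + 2 ^ (y * E + g1 + e₁' + 3)) := by
          rw [a1]
          refine mul_le_mul hinv (by linarith) (by positivity) (by positivity)
      _ = 2 ^ (k + b * (k + i * k) + (g₃ + lz + 1)) +
          2 ^ (k + b * (k + i * k) + (y * E + g1 + e₁' + 3)) := by
          rw [mul_add, ← pow_add, ← pow_add]
      _ ≤ 2 ^ J + 2 ^ J := add_le_add (p2 (by omega)) (p2 (by omega))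
      _ = 2 * 2 ^ J := by ring
  have hD0' : 0 ≤ D' := by rw [hD']; positivity
  have hD0 : 0 ≤ D := by rw [hD]; positivity
  have hDy : D ≤ 2 ^ (y * (b + 1) + 1) := by
    rw [hD, pow_succ]
    have h1 : (2 : ℝ) ^ y ≤ 2 ^ (y * (b + 1)) := p2 (by nlinarith)
    linarith
  have h2D : 2 * D + D' ≤ 2 ^ (y * (b + 1) + 3) := by
    have h1 : (1 : ℝ) ≤ 2 ^ (y * (b + 1)) := one_le_pow₀ one_le_two
    have h2 : (2 : ℝ) ^ (y * (b + 1) + 1) = 2 * 2 ^ (y * (b + 1)) := by rw [pow_succ]; ring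
    have h3 : (2 : ℝ) ^ (y * (b + 1) + 3) = 8 * 2 ^ (y * (b + 1)) := by
      rw [pow_add]
      norm_num
      ring
    rw [h3]
    rw [h2] at hDy
    linarith
  -- the first digits
  have c1 : 2 ^ (s₁ * J) / μ ≤ 2 ^ (x + y * E' + 2 * y * b) / 2 ^ k := by
    rw [hμe, div_div_eq_mul_div, div_le_div_iff₀ (by positivity) (by positivity)]
    have h1 : (2 : ℝ) ^ (s₁ * J) ≤ 2 ^ (g₃ + b * (k + i * k) + x) := by
      refine rpow_le_two ?_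
      push_cast
      exact hs₁
    calc (2 : ℝ) ^ (s₁ * J) * 2 ^ (y * E' + 2 * y * b) * 2 ^ k ≤
          2 ^ (g₃ + b * (k + i * k) + x) * 2 ^ (y * E' + 2 * y * b) * 2 ^ k :=
          mul_le_mul_of_nonneg_right (mul_le_mul_of_nonneg_right h1 (by positivity)) (by positivity)
      _ = 2 ^ (x + y * E' + 2 * y * b) * 2 ^ (k + g₃ + b * (k + i * k)) := by
          rw [← pow_add, ← pow_add, ← pow_add]
          congr 1
          ring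
  have c2 : 2 ^ (s₁ * J) / μ * (2 * Kc * 2 ^ k + 2 * D + D') ≤
      2 ^ (x + y * E' + 2 * y * b + y * (b + 1) + 4) := by
    have h1 : 2 * Kc * 2 ^ k + 2 * D + D' ≤ 2 ^ (y * (b + 1) + 4) * 2 ^ k := by
      have h2 : (1 : ℝ) ≤ 2 ^ k := one_le_pow₀ one_le_two
      have h3 : (2 : ℝ) ^ (y * (b + 1) + 4) = 2 ^ (y * (b + 1) + 3) + 8 * 2 ^ (y * (b + 1)) := by
        rw [pow_add, pow_add]
        norm_num
        ring
      have h4 : (2 : ℝ) ^ y ≤ 2 ^ (y * (b + 1)) := p2 (by nlinarith)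
      have h5 : 0 < (2 : ℝ) ^ (y * (b + 1) + 3) := by positivity
      rw [h3]
      nlinarith
    calc 2 ^ (s₁ * J) / μ * (2 * Kc * 2 ^ k + 2 * D + D') ≤
          2 ^ (x + y * E' + 2 * y * b) / 2 ^ k * (2 ^ (y * (b + 1) + 4) * 2 ^ k) :=
          mul_le_mul c1 h1 (by positivity) (by positivity)
      _ = 2 ^ (x + y * E' + 2 * y * b) * 2 ^ (y * (b + 1) + 4) := by field_simp
      _ = _ := by
          rw [← pow_add]
          congr 1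
  have c3 : 2 ^ (s₁ * J) / μ * (2 * Kc * 2 ^ k + 2 * D + D') + 1 + 1 ≤
      2 ^ (x + y * E' + 2 * y * b + y * (b + 1) + 6) := by
    have h1 : (1 : ℝ) ≤ 2 ^ (x + y * E' + 2 * y * b + y * (b + 1) + 4) := one_le_pow₀ one_le_two
    have h2 : (2 : ℝ) ^ (x + y * E' + 2 * y * b + y * (b + 1) + 6) =
        4 * 2 ^ (x + y * E' + 2 * y * b + y * (b + 1) + 4) := by
      rw [pow_succ, pow_succ]
      ring
    rw [h2]
    linarith
  -- the last digits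
  have c4 : μ / 2 ^ (s₂ * J) ≤ 2 ^ x := by
    rw [div_le_iff₀ (by positivity), hμe]
    have h1 : (2 : ℝ) ^ (g₃ + b * (k + i * k) + k) ≤ 2 ^ (s₂ * J + x) := two_le_rpow hs₂
    rw [Real.rpow_add two_pos, Real.rpow_natCast] at h1
    have h2 : (1 : ℝ) ≤ 2 ^ (y * E' + 2 * y * b) := one_le_pow₀ one_le_two
    refine (div_le_self (by positivity) h2).trans ?_
    rw [show k + g₃ + b * (k + i * k) = g₃ + b * (k + i * k) + k by ring]
    linarith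
  have c5 : μ / 2 ^ (s₂ * J) + 2 * D + D' + 1 + 1 ≤ 2 ^ (x + y * (b + 1) + 6) := by
    have h1 : (1 : ℝ) ≤ 2 ^ x := one_le_pow₀ one_le_two
    have h2 : (1 : ℝ) ≤ 2 ^ (y * (b + 1)) := one_le_pow₀ one_le_two
    have h3 : (2 : ℝ) ^ (x + y * (b + 1) + 6) = 64 * (2 ^ x * 2 ^ (y * (b + 1))) := by
      rw [pow_add, pow_add]
      norm_num
      ring
    have h4 : (2 : ℝ) ^ (y * (b + 1) + 3) = 8 * 2 ^ (y * (b + 1)) := by
      rw [pow_add]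
      norm_num
      ring
    rw [h3]
    rw [h4] at h2D
    nlinarith
  have d1 := lg_le (by positivity) c3
  have d2 := lg_le (by positivity) c5
  refine (add_le_add d1 d2).trans ?_
  rw [← add_mul]
  refine mul_le_mul_of_nonneg_right ?_ hl.le
  have h3 : x + y * E' + 2 * y * b + y * (b + 1) + 6 + (x + y * (b + 1) + 6) ≤
      2 * x + y * (E' + 4 * b + 6) + 12 := by nlinarith
  exact_mod_cast h3

/-- **The readings of the position.** -/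
theorem d_num {J Wi r g1 k y x e₁' : ℕ} {sf0 sf1 : ℝ} (hJ : Wi + k ≤ J) (hJ1 : g1 + r + e₁' ≤ J)
    (h0 : sf0 * J ≤ Wi + k + x) (h1 : sf1 * J ≤ g1 + r + x) :
    Real.log (5 * (2 ^ y) ^ 2 * 2 ^ J / 2 ^ (Wi + k) + 1) +
      Real.log (5 * (2 ^ y) ^ 2 * 2 ^ J / 2 ^ (Wi + k) + 1 + 1) +
      Real.log (5 * (2 ^ y) ^ 2 * 2 ^ J / 2 ^ (g1 + r) + 2 ^ e₁' + 1 + 1) ≤
      ((J : ℝ) - ((Wi + k : ℕ) : ℝ)) * Real.log 2 + (2 - sf0 - sf1) * Real.log 2 * J +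
        ((2 * x + 6 * y + 9 : ℕ) : ℝ) * Real.log 2 := by
  have hl : 0 < Real.log 2 := Real.log_pos one_lt_two
  have hy1 : (1 : ℝ) ≤ (2 ^ y) ^ 2 := by
    rw [← pow_mul]
    exact one_le_pow₀ one_le_two
  have e8 : (8 : ℝ) = 2 ^ 3 := by norm_num
  have k0 : ∀ {n : ℕ}, n ≤ J → ∀ z : ℝ, 0 < z → z ≤ 8 * (2 ^ y) ^ 2 * 2 ^ (J - n) →
      Real.log z ≤ ((J : ℝ) - n) * Real.log 2 + ((2 * y + 3 : ℕ) : ℝ) * Real.log 2 := by
    intro n hn z hz hz2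
    have h1 : z ≤ 2 ^ (J - n + (2 * y + 3)) := by
      refine hz2.trans (le_of_eq ?_)
      rw [← pow_mul, e8, ← pow_add, ← pow_add]
      congr 1
      ring
    have h2 := lg_le hz h1
    rw [← add_mul]
    refine h2.trans (le_of_eq ?_)
    rw [Nat.cast_add, Nat.cast_sub hn]
  have hpe : ∀ {n : ℕ}, n ≤ J → 5 * ((2 : ℝ) ^ y) ^ 2 * 2 ^ J / 2 ^ n =
      5 * (2 ^ y) ^ 2 * 2 ^ (J - n) := by
    intro n hn
    rw [mul_div_assoc]
    congr 1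
    rw [div_eq_iff (by positivity), ← pow_add, Nat.sub_add_cancel hn]
  have hb : ∀ n : ℕ, (1 : ℝ) ≤ 2 ^ n := fun n => one_le_pow₀ one_le_two
  have a1 := k0 hJ (5 * (2 ^ y) ^ 2 * 2 ^ J / 2 ^ (Wi + k) + 1) (by positivity) (by
    rw [hpe hJ]
    nlinarith [hb (J - (Wi + k))])
  have a2 := k0 hJ (5 * (2 ^ y) ^ 2 * 2 ^ J / 2 ^ (Wi + k) + 1 + 1) (by positivity) (by
    rw [hpe hJ]
    nlinarith [hb (J - (Wi + k))])
  have hg : g1 + r ≤ J := by omega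
  have a3 := k0 hg (5 * (2 ^ y) ^ 2 * 2 ^ J / 2 ^ (g1 + r) + 2 ^ e₁' + 1 + 1) (by positivity) (by
    rw [hpe hg]
    have h2 : (2 : ℝ) ^ e₁' ≤ 2 ^ (J - (g1 + r)) := p2 (by omega)
    nlinarith [hb (J - (g1 + r))])
  have k4 : (sf0 * J + sf1 * J) * Real.log 2 ≤ (Wi + k + x + (g1 + r + x)) * Real.log 2 :=
    mul_le_mul_of_nonneg_right (by linarith) hl.le
  push_cast at a1 a2 a3 ⊢
  nlinarith

/-- The error of the value. -/
theorem ev_num {b k y i ej : ℕ} (hej : (2 : ℝ) ^ (k + i * k + k) ≤ 2 ^ y * 2 ^ ej) :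
    2 ^ y * (1 / (2 : ℝ) ^ ej) ^ b ≤ 2 ^ (y * (b + 1)) / 2 ^ (b * (k + i * k + k)) := by
  have h1 : (1 : ℝ) / 2 ^ ej ≤ 2 ^ y / 2 ^ (k + i * k + k) := by
    rw [div_le_div_iff₀ (by positivity) (by positivity), one_mul]
    exact hej
  have h2 : (1 / (2 : ℝ) ^ ej) ^ b ≤ (2 ^ y / 2 ^ (k + i * k + k)) ^ b :=
    pow_le_pow_left₀ (by positivity) h1 b
  calc 2 ^ y * (1 / (2 : ℝ) ^ ej) ^ b ≤ 2 ^ y * (2 ^ y / 2 ^ (k + i * k + k)) ^ b :=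
        mul_le_mul_of_nonneg_left h2 (by positivity)
    _ = _ := by
        rw [div_pow, ← pow_mul, ← pow_mul, mul_comm (k + i * k + k) b, ← mul_div_assoc, ← pow_add]
        congr 2
        ring

theorem ev_num2 {b k y i E' : ℕ} (hb : 1 ≤ b) {Ev ν : ℝ}
    (hEv : Ev ≤ 2 ^ (y * (b + 1)) / 2 ^ (b * (k + i * k + k)))
    (hν : ν = nu ((2 ^ y) ^ E') (Rs k k ((2 ^ y) ^ 2) i) b) :
    2 ^ k * (Ev / ν) ≤ 2 ^ (y * (b + 1)) := by
  rw [nu_pow] at hν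
  have hν0 : 0 < ν := by rw [hν]; positivity
  have h0 : (1 : ℝ) ≤ 2 ^ (y * E' + 2 * y * b) := one_le_pow₀ one_le_two
  have h1 : 1 / ν ≤ 2 ^ (b * (k + i * k)) := by
    rw [hν, one_div_div]
    exact div_le_self (by positivity) h0
  calc 2 ^ k * (Ev / ν) ≤ 2 ^ k * (2 ^ (y * (b + 1)) / 2 ^ (b * (k + i * k + k)) *
        2 ^ (b * (k + i * k))) := by
        refine mul_le_mul_of_nonneg_left ?_ (by positivity)
        rw [div_eq_mul_one_div Ev ν]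
        exact mul_le_mul hEv h1 (by positivity) (by positivity)
    _ = 2 ^ (y * (b + 1)) * (2 ^ (k + b * (k + i * k)) / 2 ^ (b * (k + i * k + k))) := by
        rw [pow_add (2 : ℝ) k]
        ring
    _ ≤ 2 ^ (y * (b + 1)) * 1 := by
        refine mul_le_mul_of_nonneg_left ?_ (by positivity)
        rw [div_le_one (by positivity)]
        exact p2 (by nlinarith)
    _ = _ := mul_one _

/-- The factor of the target. -/
theorem mu_num {b k y x i g₃ E' : ℕ} : nu ((2 ^ y) ^ E') (Rs k k ((2 ^ y) ^ 2) i) b / 2 ^ g₃ =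
    2 ^ (y * E' + 2 * y * b + x) / 2 ^ (g₃ + b * (k + i * k) + x) := by
  rw [nu_pow, div_div, ← pow_add, div_eq_div_iff (by positivity) (by positivity), ← pow_add,
    ← pow_add]
  congr 1
  ring

/-- The error of the target. -/
theorem pos_num {b k y x i g₃ E' : ℕ} (hb : 1 ≤ b) {Kc Ev : ℝ} (hKc : Kc ≤ 2 ^ y)
    (hEv : Ev ≤ 2 ^ (y * (b + 1)) / 2 ^ (b * (k + i * k + k)))
    (hk : y * E' + 2 * y * b + y + x + 2 ≤ k) :
    nu ((2 ^ y) ^ E') (Rs k k ((2 ^ y) ^ 2) i) b / 2 ^ g₃ * (Kc / 2 ^ k) + Ev / 2 ^ g₃ ≤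
      1 / 2 ^ (g₃ + b * (k + i * k) + x + 1) := by
  rw [mu_num (x := x)]
  have h1 : (2 : ℝ) ^ (y * E' + 2 * y * b + x) / 2 ^ (g₃ + b * (k + i * k) + x) * (Kc / 2 ^ k) ≤
      1 / 2 ^ (g₃ + b * (k + i * k) + x + 2) := by
    calc (2 : ℝ) ^ (y * E' + 2 * y * b + x) / 2 ^ (g₃ + b * (k + i * k) + x) * (Kc / 2 ^ k) ≤
          2 ^ (y * E' + 2 * y * b + x) / 2 ^ (g₃ + b * (k + i * k) + x) * (2 ^ y / 2 ^ k) := by
          refine mul_le_mul_of_nonneg_left (div_le_div_of_nonneg_right hKc (by positivity))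
            (by positivity)
      _ = 2 ^ (y * E' + 2 * y * b + x + y) / 2 ^ (g₃ + b * (k + i * k) + x + k) := by
          rw [div_mul_div_comm, ← pow_add, ← pow_add]
      _ ≤ _ := by
          rw [div_le_div_iff₀ (by positivity) (by positivity), ← pow_add, one_mul]
          exact p2 (by omega)
  have h2 : Ev / 2 ^ g₃ ≤ 1 / 2 ^ (g₃ + b * (k + i * k) + x + 2) := by
    calc Ev / 2 ^ g₃ ≤ 2 ^ (y * (b + 1)) / 2 ^ (b * (k + i * k + k)) / 2 ^ g₃ :=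
          div_le_div_of_nonneg_right hEv (by positivity)
      _ = 2 ^ (y * (b + 1)) / 2 ^ (b * (k + i * k + k) + g₃) := by rw [div_div, ← pow_add]
      _ ≤ _ := by
          rw [div_le_div_iff₀ (by positivity) (by positivity), ← pow_add, one_mul]
          refine p2 ?_
          have h3 : k ≤ b * k := Nat.le_mul_of_pos_left k hb
          have h4 : b * (k + i * k + k) = b * (k + i * k) + b * k := by ring
          rw [h4]
          have h5 : y * (b + 1) ≤ 2 * y * b + y := by nlinarith [Nat.zero_le (y * b)]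
          omega
  have h3 : (1 : ℝ) / 2 ^ (g₃ + b * (k + i * k) + x + 1) =
      1 / 2 ^ (g₃ + b * (k + i * k) + x + 2) + 1 / 2 ^ (g₃ + b * (k + i * k) + x + 2) := by
    rw [show g₃ + b * (k + i * k) + x + 2 = g₃ + b * (k + i * k) + x + 1 + 1 by ring,
      pow_succ 2 (g₃ + b * (k + i * k) + x + 1)]
    field_simp
    norm_num
  rw [h3]
  exact add_le_add h1 h2

/-- The gradients of the closed part. -/
theorem g_num {g1 e₁' y E g₃ m₁ l : ℕ} {Gr LT : ℝ} (hGr : Gr ≤ (2 ^ y) ^ E)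
    (hLT : LT ≤ 2 ^ m₁ / 2)
    (h0 : l = 0 → g1 + e₁' + y * E + 3 ≤ g₃ + m₁) (h1 : l = 1 → g1 + y * E + 3 ≤ g₃ + m₁) :
    LT + 3 * (Gr / 2 ^ g₃ * lm g1 e₁' l) ≤ 2 ^ m₁ := by
  have key : ∀ a : ℕ, a + y * E + 3 ≤ g₃ + m₁ → 3 * (Gr / 2 ^ g₃ * 2 ^ a) ≤ 2 ^ m₁ / 2 := by
    intro a ha
    have e1 : (2 : ℝ) ^ a * (2 ^ y) ^ E * 2 ^ 3 ≤ 2 ^ g₃ * 2 ^ m₁ := by
      rw [← pow_mul, ← pow_add, ← pow_add, ← pow_add]
      exact p2 (by omega)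
    have e2 : 3 * (Gr / 2 ^ g₃ * 2 ^ a) = 3 * Gr * 2 ^ a / 2 ^ g₃ := by ring
    rw [e2, div_le_iff₀ (by positivity)]
    have e3 : Gr * 2 ^ a ≤ (2 ^ y) ^ E * 2 ^ a := mul_le_mul_of_nonneg_right hGr (by positivity)
    nlinarith [show (0 : ℝ) ≤ (2 ^ y) ^ E * 2 ^ a by positivity]
  have hm : (0 : ℝ) < 2 ^ m₁ := by positivity
  unfold lm
  split_ifs with h2 h3
  · have := key (g1 + e₁') (h0 h2)
    linarith
  · have := key g1 (h1 h3)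
    linarith
  · rw [mul_zero, mul_zero, add_zero]
    linarith

/-- The gradients of the coordinates. -/
theorem l_num {g1 e₁' y E' b k i g₃ m₁ l ne : ℕ} (hb : 1 ≤ b) {C₀ e₀ : ℝ} (hC₀ : C₀ ≤ 2 ^ y) (he₀ : e₀ ≤ ne) (hne : 1 ≤ ne)
    (h0 : l = 0 → g1 + e₁' + ne * k + y * (E' + 2 * b + 1) + 1 ≤ g₃ + m₁)
    (h1 : l = 1 → g1 + ne * k + y * (E' + 2 * b + 1) + 1 ≤ g₃ + m₁) :
    C₀ * (nu ((2 ^ y) ^ E') (Rs k k ((2 ^ y) ^ 2) i) b / 2 ^ g₃ *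
      ((((2 ^ k : ℕ) : ℝ)) ^ e₀ + (((2 ^ k : ℕ) : ℝ)) ^ (1 / 2 : ℝ)) *
        (Rs k k ((2 ^ y) ^ 2) i * lm g1 e₁' l)) ≤ 2 ^ m₁ := by
  obtain ⟨R, hR⟩ : ∃ R, R = Rs k k ((2 ^ y) ^ 2) i := ⟨_, rfl⟩
  have hRp : 0 < R := hR ▸ Rs_pos (by positivity) i
  rw [← hR]
  have hk0 : (0 : ℝ) ≤ k := Nat.cast_nonneg k
  have hne1 : (1 : ℝ) ≤ ne := by exact_mod_cast hne
  have a1 : (((2 ^ k : ℕ) : ℝ)) ^ e₀ ≤ 2 ^ (ne * k) :=
    Pool.STB6.rp_le_pow (by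
      push_cast
      exact mul_le_mul_of_nonneg_right he₀ hk0)
  have a2 : (((2 ^ k : ℕ) : ℝ)) ^ (1 / 2 : ℝ) ≤ 2 ^ (ne * k) :=
    Pool.STB6.rp_le_pow (by
      push_cast
      nlinarith)
  have a3 : 0 ≤ (((2 ^ k : ℕ) : ℝ)) ^ e₀ + (((2 ^ k : ℕ) : ℝ)) ^ (1 / 2 : ℝ) := by positivity
  have a4 : (((2 ^ k : ℕ) : ℝ)) ^ e₀ + (((2 ^ k : ℕ) : ℝ)) ^ (1 / 2 : ℝ) ≤ 2 ^ (ne * k + 1) := by
    rw [pow_succ]
    linarith
  -- the factor
  have a5 : nu ((2 ^ y) ^ E') R b * R ≤ 2 ^ (y * (E' + 2 * b)) := by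
    obtain ⟨b', rfl⟩ : ∃ b', b = b' + 1 := ⟨b - 1, by omega⟩
    have e1 : nu ((2 ^ y) ^ E') R (b' + 1) * R = (2 ^ y) ^ E' * R⁻¹ ^ b' := by
      unfold nu
      rw [pow_succ]
      field_simp
    have e2 : R⁻¹ ≤ (2 ^ y) ^ 2 := by
      rw [hR]
      unfold Rs
      rw [inv_div]
      exact div_le_self (by positivity) (one_le_pow₀ one_le_two)
    have e3 : R⁻¹ ^ b' ≤ ((2 ^ y) ^ 2) ^ b' := pow_le_pow_left₀ (by positivity) e2 b'
    rw [e1]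
    calc ((2 : ℝ) ^ y) ^ E' * R⁻¹ ^ b' ≤ (2 ^ y) ^ E' * ((2 ^ y) ^ 2) ^ b' :=
          mul_le_mul_of_nonneg_left e3 (by positivity)
      _ = 2 ^ (y * (E' + 2 * b')) := by
          rw [← pow_mul, ← pow_mul, ← pow_mul, ← pow_add]
          congr 1
          ring
      _ ≤ _ := p2 (Nat.mul_le_mul_left _ (by omega))
  have hnu : 0 < nu ((2 ^ y) ^ E') R b := nu_pos (by positivity) hRp b
  have key : ∀ a : ℕ, a + ne * k + y * (E' + 2 * b + 1) + 1 ≤ g₃ + m₁ →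
      C₀ * (nu ((2 ^ y) ^ E') R b / 2 ^ g₃ *
        ((((2 ^ k : ℕ) : ℝ)) ^ e₀ + (((2 ^ k : ℕ) : ℝ)) ^ (1 / 2 : ℝ)) * (R * 2 ^ a)) ≤ 2 ^ m₁ := by
    intro a ha
    have e1 : C₀ * (nu ((2 ^ y) ^ E') R b / 2 ^ g₃ *
        ((((2 ^ k : ℕ) : ℝ)) ^ e₀ + (((2 ^ k : ℕ) : ℝ)) ^ (1 / 2 : ℝ)) * (R * 2 ^ a)) =
        C₀ * (nu ((2 ^ y) ^ E') R b * R) *
          ((((2 ^ k : ℕ) : ℝ)) ^ e₀ + (((2 ^ k : ℕ) : ℝ)) ^ (1 / 2 : ℝ)) * 2 ^ a / 2 ^ g₃ := by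
      ring
    rw [e1, div_le_iff₀ (by positivity)]
    calc C₀ * (nu ((2 ^ y) ^ E') R b * R) *
          ((((2 ^ k : ℕ) : ℝ)) ^ e₀ + (((2 ^ k : ℕ) : ℝ)) ^ (1 / 2 : ℝ)) * 2 ^ a ≤
          2 ^ y * 2 ^ (y * (E' + 2 * b)) * 2 ^ (ne * k + 1) * 2 ^ a := by
          refine mul_le_mul_of_nonneg_right ?_ (by positivity)
          refine mul_le_mul ?_ a4 a3 (by positivity)
          exact mul_le_mul hC₀ a5 (by positivity) (by positivity)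
      _ = 2 ^ (y + y * (E' + 2 * b) + (ne * k + 1) + a) := by
          rw [← pow_add, ← pow_add, ← pow_add]
      _ ≤ 2 ^ (m₁ + g₃) := p2 (by
          have : y * (E' + 2 * b + 1) = y + y * (E' + 2 * b) := by ring
          omega)
      _ = 2 ^ m₁ * 2 ^ g₃ := pow_add _ _ _
  unfold lm
  split_ifs with h2 h3
  · exact key (g1 + e₁') (by have := h0 h2; omega)
  · exact key g1 (h1 h3)
  · rw [mul_zero, mul_zero, mul_zero]
    positivity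

end Pool.STB
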