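import Pool.Agent.H98.STB.VbW

/-!
# The end in a window of the event

`vb_fin`: the chain of lines in the window `i` contradicts the class statement of the end.
-/

set_option autoImplicit false

namespace Pool.STB

open Finset Real MvPolynomial
open Pool.Agent.H49.Ent Pool.Agent.H32.Dense Pool.STK Pool.KA Pool.KSAT Pool.K2S Pool.PB Pool.S6C
open Pool.GEN Pool.CHT Pool.CHX Pool.D2F Pool.D2Con Pool.D2A Pool.RCD Pool.VIS24
open Pool.STB82 (yv hgP WinN LevN chh_pos)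
open Pool.ALT (xa ya)
open Pool.STB65 (InpP InpF PosO JetO nu Rs Rs_pos nu_pos se jet_evE)
open Pool.LBT (ThrOf)
open Pool.LA91 (FulC)
open Pool.FLF (Fam.sub)

open Pool.STB65 (xD pD)
open Pool.STB82 (dg)

variable {m : ℕ}

/-- The density of a conditioned law. -/
theorem cond_dens {J : ℕ} (F : Fam m J) {A B : F.Ω → Prop} (hB : 0 < Pe F.p B) {c₀ : ℝ}
    (hc₀ : 0 < c₀) (h : c₀ * Pe F.p A ≤ Pe F.p B) (ω : F.Ω) :
    Pool.Agent.H49.Ent.cond F.p B True ω * Pe F.p A ≤ 1 / c₀ * F.p ω := by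
  have hl : law F.p B True = Pe F.p B := rfl
  have hp := F.isLaw.nonneg ω
  have hA := Pe_nonneg F.isLaw A
  unfold Pool.Agent.H49.Ent.cond
  split_ifs
  · rw [hl, div_mul_eq_mul_div, div_le_iff₀ hB]
    have h1 : Pe F.p A ≤ 1 / c₀ * Pe F.p B := by
      rw [one_div, ← div_eq_inv_mul, le_div_iff₀ hc₀]
      linarith
    calc F.p ω * Pe F.p A ≤ F.p ω * (1 / c₀ * Pe F.p B) := mul_le_mul_of_nonneg_left h1 hp
      _ = 1 / c₀ * F.p ω * Pe F.p B := by ring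
  · rw [zero_mul]
    positivity

theorem z_num (E E' b x y : ℕ) : y * E' + 2 * y * b + x ≤
    (E' + 2 * b + 1) * y + (E' + 2 * b + 1) * x + (E' + 2 * b + 1) := by
  nlinarith [Nat.zero_le (E' * x), Nat.zero_le (b * x)]

/-- **The end in the window `i`.** -/
theorem vb_fin {J : ℕ} {F : Fam m J} {c : ℕ → Fin m} (hc : Set.InjOn c (Set.Iio 3))
    {A' B B' : F.Ω → Prop}
    {K n N b Wn E E' q ne M₀ : ℕ} {V : Type} {z : PtT F → V} {z' : LnT F → V}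
    {G : V → MvPolynomial (Option (Fin m)) ℝ} {t : VbT F}
    (hE : VbE F c B K n N b Wn z z' G t) (hb : 1 ≤ b) (hB' : Sub B' B) (hBA : Sub B' A')
    (hq : q = E + E' + 4 * b + 30) {Kc Kp : ℝ} (hKc0 : 0 ≤ Kc) (hKc : Kc ≤ 2 ^ t.y)
    {ctr xo : ℕ → F.Ω → V3} {D₁ : LnT F → V3} {Jo Ci : ℕ → F.Ω → Po} {Φ₁ : LnT F → Po}
    (O : PosO F B' t.W₀ t.k t.k n ((2 ^ t.y) ^ 2) Kp (yv F c t.W₀ t.g1 t.Pl)
      (hgP c t.W₀ t.g1 t.Pl) ctr xo D₁)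
    (Jt : JetO F B' t.W₀ t.k t.k n b ((2 ^ t.y) ^ 2) ((2 ^ t.y) ^ E') Kc ((2 ^ t.y) ^ E)
      (yv F c t.W₀ t.g1 t.Pl) t.f t.ji ctr xo Jo Ci Φ₁)
    {i : ℕ} (hi : i < n) (hi1 : t.W₀ + t.k + i * t.k + t.k ≤ J)
    (hWn : Wn ≤ t.W₀) (hWg : t.W₀ ≤ t.g1 + t.e₁')
    {A τ γ γ₀ e₀ h R c' C₀ c₀ β η e w : ℝ}
    (H : A * ((t.y : ℝ) + t.x + 1) ≤ τ * t.k) (hqA : (q : ℝ) ≤ A) (hτ2 : τ ≤ 1 / 2) (hτγ : τ ≤ γ)
    (hC₀ : C₀ ≤ 2 ^ t.y) (he₀ : e₀ ≤ ne) (hM₀ : M₀ ≤ t.k) (hk2 : 2 ≤ t.k)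
    (gr : ∀ l < 2, t.g1 + (if l = 0 then t.e₁' else 0) + (ne + 1) * t.k + q * (t.y + 1) ≤
      t.g₃ + (t.e₁ + nlp (fun j => if j < 3 then t.gc i j else t.p b i) l 3))
    (sy : t.s + 1 ≤ 2 * t.y) (hWi : t.W₀ + t.k + i * t.k ≤ ⌊w * J⌋₊) (he1 : t.e₁ + 1 ≤ ⌊e * J⌋₊)
    (gcJ : ∀ l < 3, t.gc i l ≤ J) (pJ : t.p b i ≤ J)
    (l3 : ⌊(β + η) * J⌋₊ + (t.W₀ + t.k + i * t.k) ≤ t.p b i + ⌊w * J⌋₊)
    (hPB : 0 < Pe F.p B') (hc₀ : 0 < c₀) (hPA : c₀ * Pe F.p A' ≤ Pe F.p B')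
    {Zt Yt : Type} {zp : PtT F → Zt} {y : F.Ω → Yt} {D' : LnT F → V3 × Po} {x : Zt → V3}
    {Jz : Zt → Po} (hx : ∀ ω, B' ω → x (zp (ptr F J ω)) = xo i ω)
    (hJz : ∀ ω, B' ω → Jz (zp (ptr F J ω)) = Jo i ω)
    (hCh : ChH (Pool.Agent.H49.Ent.cond F.p B' True) (slam F (t.W₀ + t.k + i * t.k))
      (fun ω => zp (ptr F J ω)) y (dg F (t.W₀ + t.k + i * t.k) t.k) D' xD (pD b) x Jz b (2 ^ t.k)
      (((2 ^ t.k : ℕ) : ℝ) ^ e₀) (e₀ * Real.log ((2 ^ t.k : ℕ) : ℝ)) h R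
      (((2 ^ t.k : ℕ) : ℝ) ^ (-γ₀)) c')
    (hend : ∀ (KQ w₀ e₁ p M : ℕ) (Kv g : ℕ → ℕ)
      (G : PtT F → ℕ → MvPolynomial (Option (Fin m)) ℝ)
      (H : LnT F → ℕ → MvPolynomial (Option (Fin m)) ℝ) (V : Type) (zc : PtT F → V)
      (zc' : LnT F → V) (CG : V → MvPolynomial (Option (Fin m)) ℝ)
      (Q : V → Fin 3 → MvPolynomial (Option (Fin m)) ℝ) (Λ : ℕ → ℝ)
      (Z Y 𝒟 : Type) (zp : PtT F → Z) (y : F.Ω → Y) (t : F.Ω → ℤ) (D : LnT F → 𝒟) (X : 𝒟 → V3)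
      (Φ : 𝒟 → Po) (x : Z → V3) (Jz : Z → Po) (mu ε : ℝ) (B : F.Ω → Prop) (q : F.Ω → ℝ),
      M₀ ≤ M → w₀ ≤ ⌊w * J⌋₊ → e₁ + 1 ≤ ⌊e * J⌋₊ → (∀ l, Kv l ≤ b * (K + 1) + K) →
      (∀ l < 3, g l ≤ J) → p ≤ J → ⌊(β + η) * J⌋₊ + w₀ ≤ p + ⌊w * J⌋₊ →
      Sub B A' → ChOK F c 3 Kv w₀ w₀ (e₁ + 1) g B G H →
      Re F c 3 (b * (K + 1) + K) KQ w₀ e₁ p b g B G zc zc' CG Q Λ zp x Jz mu ((M : ℝ) ^ e₀) ε →
      0 < ε → ε ≤ 1 → mu * ((M : ℝ) ^ (1 / 2 : ℝ) * ε) ≤ 1 / 2 ^ (p + 1) →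
      (∀ l < 3, (0 ≤ Λ l) ∧ C₀ * (mu * ((M : ℝ) ^ e₀ + (M : ℝ) ^ (1 / 2 : ℝ)) * Λ l) ≤
        2 ^ (e₁ + nlp (fun j => if j < 3 then g j else p) l 3)) →
      mu * (M : ℝ) ^ (-γ) ≤ 1 / 2 ^ p →
      (∀ ω, 0 < q ω → B ω) → (∀ ω, q ω * Pe F.p A' ≤ 1 / c₀ * F.p ω) →
      ChH q (slam F w₀) (fun ω => zp (ptr F J ω)) y t D X Φ x Jz b M ((M : ℝ) ^ e₀)
        (e₀ * Real.log M) h R ((M : ℝ) ^ (-γ₀)) c' → False) : False := by
  have natA : ∀ a : ℕ, a ≤ q → (a : ℝ) ≤ A := fun a ha => le_trans (by exact_mod_cast ha) hqA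
  have hA30 : (30 : ℝ) ≤ A := natA 30 (by omega)
  have hτ1 : τ ≤ 1 := by linarith
  have hEv := ev_num (b := b) (hE.hji i hi).2.2
  have hWi' : t.W₀ + t.k + i * t.k ≤ J := by omega
  have hT : ∀ ω, B' ω → |eval (yv F c t.W₀ t.g1 t.Pl ω) (t.f (t.ji i) (ptr F J ω)) -
      2 ^ t.g₃ * (F.x ω (c 3) - eval (bt F ω) (G (z (ptr F J ω)) + t.zP (ptr F J ω)))| ≤
      2 ^ t.y * (1 / 2 ^ t.e (t.ji i)) ^ b := by
    intro ω hω
    have h1 := hE.val i hi ω (hB' ω hω)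
    rw [map_add, ← sub_sub]
    exact h1
  have cT : Cl2 (slam F (t.W₀ + t.k + i * t.k)) (fun ω => ptr F J ω) B'
      (fun ω => G (z (ptr F J ω)) + t.zP (ptr F J ω)) :=
    ((cl_earlier (show Wn ≤ t.W₀ + t.k + i * t.k by omega) hWi'
      fun ω hω => hE.zc ω (hB' ω hω)).join (cl_earlier (show t.W₀ ≤ t.W₀ + t.k + i * t.k by omega)
        hWi' fun ω hω => hE.zcl ω (hB' ω hω))).comp (fun a => G a.1 + a.2)
  have hsk : t.s ≤ t.k + i * t.k := by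
    have h1 : 2 * t.y ≤ t.k := Pool.STB6.lin_nat H hτ1 (a := 2) (b := 0) (c := 0) (by omega)
      (natA 2 (by omega)) (natA 0 (by omega)) (natA 0 (by omega))
    omega
  have h2s : 2 * (2 : ℝ) ^ t.s ≤ (2 ^ t.y) ^ 2 := by
    rw [← pow_mul, ← pow_succ']
    exact p2 (by omega)
  have hposk : t.y * E' + 2 * t.y * b + t.y + t.x + 2 ≤ t.k :=
    Pool.STB6.lin_nat H hτ1 (a := E' + 2 * b + 1) (b := 1) (c := 2) (by
      have : t.y * E' + 2 * t.y * b + t.y = (E' + 2 * b + 1) * t.y := by ring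
      omega) (natA _ (by omega)) (natA 1 (by omega)) (natA 2 (by omega))
  have grl : ∀ l < 2, ∀ a : ℕ, a ≤ q → t.g1 + (if l = 0 then t.e₁' else 0) + t.y * a + 3 ≤
      t.g₃ + (t.e₁ + nlp (fun j => if j < 3 then t.gc i j else t.p b i) l 3) := by
    intro l hl a ha
    have h1 := gr l hl
    have h2 : t.y * a + 30 ≤ q * (t.y + 1) := by
      have h3 : t.y * a ≤ q * t.y := by
        rw [mul_comm]
        exact Nat.mul_le_mul_right _ ha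
      have h4 : q * (t.y + 1) = q * t.y + q := by ring
      omega
    omega
  obtain ⟨V', zc, zc', CG, Q, hRe⟩ := re_of (r := 3) (by norm_num) le_rfl (F := F) (B := B') hc (g1 := t.g1) (g₃ := t.g₃)
    (e₁' := t.e₁') (s := t.s) (K := b * (K + 1) + K) (KQ := K + 1) (p := t.p b i) (e₁ := t.e₁)
    (Ev := 2 ^ t.y * (1 / 2 ^ t.e (t.ji i)) ^ b) (KJ := ((2 ^ t.k : ℕ) : ℝ) ^ e₀)
    (Gc := t.Gc i) (gc := t.gc i)
    (LT := fun l => 2 ^ (t.e₁ + nlp (fun j => if j < 3 then t.gc i j else t.p b i) l 3) / 2)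
    (Λ := fun l => Rs t.k t.k ((2 ^ t.y) ^ 2) i * lm t.g1 t.e₁' l) O Jt hi hWi' (by positivity)
    (by positivity) (by positivity) (fun y => (hE.Pd y).trans (by omega)) hE.Pp (by omega)
    (Nat.le_add_right _ _) hWg (fun ω hω => hE.Pc ω (hB' ω hω))
    (fun ω hω => hE.Pg ω (hB' ω hω)) cT (fun ω hω => (totalDegree_add _ _).trans
      (max_le ((hE.Gd ω (hB' ω hω)).trans (Nat.le_add_left _ _))
        ((hE.zd _).trans (Nat.le_add_left _ _))))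
    (fun ω hω b₁ b₂ hn hb' => by
      rw [map_add, map_add, hE.Gp ω (hB' ω hω) b₁ b₂ hn hb',
        hE.zp _ b₁ b₂ hn fun l hl => hb' l (by omega)]) hT
    (fun ω hω => hE.hx0 i hi ω (hB' ω hω)) (fun ω hω => hE.hx1 i hi ω (hB' ω hω))
    (fun ω hω => hE.hlT i hi ω (hB' ω hω)) h2s hsk
    (pos_num (x := t.x) hb hKc hEv hposk)
    (fun l hl => g_num (E := E) le_rfl le_rfl (fun h0 => by
      subst h0
      have := grl 0 (by norm_num) E (by omega)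
      rw [if_pos rfl] at this
      omega) (fun h1 => by
      subst h1
      have := grl 1 (by norm_num) E (by omega)
      rw [if_neg (by norm_num)] at this
      omega)) (fun l _ => le_rfl) hx hJz hCh.x1 hCh.J1
  have hM0 : (0 : ℝ) < 2 ^ t.k := by positivity
  have hk1 : (2 : ℝ) ≤ 2 ^ t.k := by
    calc (2 : ℝ) = 2 ^ 1 := (pow_one 2).symm
      _ ≤ 2 ^ t.k := p2 (by omega)
  refine hend (K + 1) (t.W₀ + t.k + i * t.k) t.e₁ (t.p b i) (2 ^ t.k) (fun _ => K) (t.gc i) (t.Gc i)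
    (t.Hc i) V' zc zc' CG Q (fun l => Rs t.k t.k ((2 ^ t.y) ^ 2) i * lm t.g1 t.e₁' l) Zt Yt (V3 × Po)
    zp y (dg F (t.W₀ + t.k + i * t.k) t.k) D' xD (pD b) x Jz _ (2 / 2 ^ t.k) B'
    (Pool.Agent.H49.Ent.cond F.p B' True)
    (hM₀.trans Nat.lt_two_pow_self.le) hWi he1 (fun _ => Nat.le_add_left _ _) gcJ pJ l3 hBA ?_ hRe
    (by positivity) (by rw [div_le_one hM0]; exact hk1) ?_ ?_ ?_ ?_ ?_ hCh
  · have h1 := hE.ch i hi
    exact ⟨h1.degG, h1.degH, h1.depG, h1.depH, fun ω hω => h1.pos ω (hB' ω hω),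
      fun ω hω => h1.agr ω (hB' ω hω), fun ω hω => h1.lip ω (hB' ω hω)⟩
  · refine Pool.STB6.vn_mu1 H (z := t.y * E' + 2 * t.y * b + t.x) (a := E' + 2 * b + 1) ?_
      (le_of_eq (mu_num (x := t.x))) (z_num E E' b t.x t.y) ?_ hτ2 ?_
    · have := nu_pos (κ := (2 ^ t.y) ^ E') (R := Rs t.k t.k ((2 ^ t.y) ^ 2) i) (by positivity)
        (Rs_pos (by positivity) i) b
      positivity
    · have := natA (E' + 2 * b + 4) (by omega)
      push_cast at this ⊢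
      linarith
    · exact div_le_div_of_nonneg_right (by norm_num) hM0.le
  · intro l hl
    refine ⟨mul_nonneg (Rs_pos (by positivity) i).le (lm_nonneg _ _ _), ?_⟩
    refine l_num (ne := ne + 1) hb hC₀ (by push_cast; linarith) (by omega) ?_ ?_
    · intro h0
      subst h0
      have h1 := gr 0 (by norm_num)
      rw [if_pos rfl] at h1
      have h2 : t.y * (E' + 2 * b + 1) + 1 ≤ q * (t.y + 1) := by
        have h3 : t.y * (E' + 2 * b + 1) ≤ q * t.y := by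
          rw [mul_comm]
          exact Nat.mul_le_mul_right _ (by omega)
        have h4 : q * (t.y + 1) = q * t.y + q := by ring
        omega
      omega
    · intro h0
      subst h0
      have h1 := gr 1 (by norm_num)
      rw [if_neg (by norm_num)] at h1
      have h2 : t.y * (E' + 2 * b + 1) + 1 ≤ q * (t.y + 1) := by
        have h3 : t.y * (E' + 2 * b + 1) ≤ q * t.y := by
          rw [mul_comm]
          exact Nat.mul_le_mul_right _ (by omega)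
        have h4 : q * (t.y + 1) = q * t.y + q := by ring
        omega
      omega
  · exact Pool.STB6.vn_mu2 H (z := t.y * E' + 2 * t.y * b + t.x) (a := E' + 2 * b + 1)
      (le_of_eq (mu_num (x := t.x))) (z_num E E' b t.x t.y) (natA _ (by omega)) hτγ
  · exact fun ω hω => Pool.STB82.cond_pos_B hω
  · exact fun ω => cond_dens F hPB hc₀ hPA ω

end Pool.STB
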