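import Pool.Agent.H98.STB.Law

/-!
# The laws of the chains
-/

set_option autoImplicit false

namespace Pool.STB

open Finset Real
open Pool.Agent.H49.Ent Pool.Agent.H32.Dense Pool.STK Pool.MIC
open Pool.BFL (Pb)

section defs

variable {Ω Λ Z : Type} [Fintype Ω]

noncomputable def R2 (p : Ω → ℝ) (L : Ω → Λ) : Ω × Ω → ℝ := glue p p L L

noncomputable def R3 (p : Ω → ℝ) (L : Ω → Λ) (z : Ω → Z) : (Ω × Ω) × Ω → ℝ :=
  glue (R2 p L) p (fun w => z w.2) z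

noncomputable def R4 (p : Ω → ℝ) (L : Ω → Λ) (z : Ω → Z) : ((Ω × Ω) × Ω) × Ω → ℝ :=
  glue (R3 p L z) p (fun w => L w.2) L

/-- The law of `a1 - L - b1 - z - a2 - L - b2 - z - a3`. -/
noncomputable def R5 (p : Ω → ℝ) (L : Ω → Λ) (z : Ω → Z) : (((Ω × Ω) × Ω) × Ω) × Ω → ℝ :=
  glue (R4 p L z) p (fun w => z w.2) z

noncomputable def R6 (p : Ω → ℝ) (L : Ω → Λ) (z : Ω → Z) : ((((Ω × Ω) × Ω) × Ω) × Ω) × Ω → ℝ :=
  glue (R5 p L z) p (fun w => L w.2) L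

noncomputable def R7 (p : Ω → ℝ) (L : Ω → Λ) (z : Ω → Z) :
    (((((Ω × Ω) × Ω) × Ω) × Ω) × Ω) × Ω → ℝ :=
  glue (R6 p L z) p (fun w => z w.2) z

/-- A further line at the first record of a branch. -/
noncomputable def S1 (p : Ω → ℝ) (L : Ω → Λ) (z : Ω → Z) :
    Ω × ((((Ω × Ω) × Ω) × Ω) × Ω) → ℝ :=
  glue p (R5 p L z) z (fun w => z w.1.1.1.1)

noncomputable def S2 (p : Ω → ℝ) (L : Ω → Λ) (z : Ω → Z) :
    Ω × (Ω × ((((Ω × Ω) × Ω) × Ω) × Ω)) → ℝ :=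
  glue p (S1 p L z) z (fun w => z w.1)

noncomputable def S3 (p : Ω → ℝ) (L : Ω → Λ) (z : Ω → Z) :
    Ω × (Ω × (Ω × ((((Ω × Ω) × Ω) × Ω) × Ω))) → ℝ :=
  glue p (S2 p L z) z (fun w => z w.1)

end defs

section laws

variable {Ω Λ Z : Type} [Fintype Ω] {p : Ω → ℝ} (hp : IsLaw p) (L : Ω → Λ) (z : Ω → Z)

theorem glueLaw' {A B T : Type} [Fintype A] [Fintype B] {q : A → ℝ} {r : B → ℝ} (hq : IsLaw q)
    (hr : IsLaw r) {X : A → T} {Y : B → T} (h : ∀ z, law q X z = law r Y z) :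
    IsLaw (glue q r X Y) :=
  ⟨glue_nonneg hq.nonneg hr.nonneg, by rw [sum_glue hq.nonneg h, hq.sum_one]⟩

include hp

theorem R2_law : IsLaw (R2 p L) := glueLaw' hp hp fun _ => rfl

theorem R2_s : Marg (R2 p L) p (fun w => w.2) := marg_snd hp.nonneg fun _ => rfl

theorem R2_f : Marg (R2 p L) p (fun w => w.1) := marg_fst hp.nonneg fun _ => rfl

theorem R3_z (u : Z) : law (R2 p L) (fun w => z w.2) u = law p z u := (R2_s hp L).law z u

theorem R3_law : IsLaw (R3 p L z) := glueLaw' (R2_law hp L) hp (R3_z hp L z)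

theorem R3_s : Marg (R3 p L z) p (fun w => w.2) := marg_snd hp.nonneg (R3_z hp L z)

theorem R3_f : Marg (R3 p L z) (R2 p L) (fun w => w.1) :=
  marg_fst (R2_law hp L).nonneg (R3_z hp L z)

theorem R4_z (u : Λ) : law (R3 p L z) (fun w => L w.2) u = law p L u := (R3_s hp L z).law L u

theorem R4_law : IsLaw (R4 p L z) := glueLaw' (R3_law hp L z) hp (R4_z hp L z)

theorem R4_s : Marg (R4 p L z) p (fun w => w.2) := marg_snd hp.nonneg (R4_z hp L z)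

theorem R4_f : Marg (R4 p L z) (R3 p L z) (fun w => w.1) :=
  marg_fst (R3_law hp L z).nonneg (R4_z hp L z)

theorem R5_z (u : Z) : law (R4 p L z) (fun w => z w.2) u = law p z u := (R4_s hp L z).law z u

theorem R5_law : IsLaw (R5 p L z) := glueLaw' (R4_law hp L z) hp (R5_z hp L z)

theorem R5_s : Marg (R5 p L z) p (fun w => w.2) := marg_snd hp.nonneg (R5_z hp L z)

theorem R5_f : Marg (R5 p L z) (R4 p L z) (fun w => w.1) :=
  marg_fst (R4_law hp L z).nonneg (R5_z hp L z)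

theorem R6_z (u : Λ) : law (R5 p L z) (fun w => L w.2) u = law p L u := (R5_s hp L z).law L u

theorem R6_law : IsLaw (R6 p L z) := glueLaw' (R5_law hp L z) hp (R6_z hp L z)

theorem R6_s : Marg (R6 p L z) p (fun w => w.2) := marg_snd hp.nonneg (R6_z hp L z)

theorem R6_f : Marg (R6 p L z) (R5 p L z) (fun w => w.1) :=
  marg_fst (R5_law hp L z).nonneg (R6_z hp L z)

theorem R7_z (u : Z) : law (R6 p L z) (fun w => z w.2) u = law p z u := (R6_s hp L z).law z u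

theorem R7_law : IsLaw (R7 p L z) := glueLaw' (R6_law hp L z) hp (R7_z hp L z)

theorem R7_s : Marg (R7 p L z) p (fun w => w.2) := marg_snd hp.nonneg (R7_z hp L z)

theorem R7_f : Marg (R7 p L z) (R6 p L z) (fun w => w.1) :=
  marg_fst (R6_law hp L z).nonneg (R7_z hp L z)

/-- The first branch. -/
theorem R7_fst : Marg (R7 p L z) (R5 p L z) (fun w => w.1.1) :=
  (R7_f hp L z).comp (R6_f hp L z)

/-- The first two samples. -/
theorem R5_two : Marg (R5 p L z) (R2 p L) (fun w => w.1.1.1) :=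
  (R5_f hp L z).comp ((R4_f hp L z).comp (R3_f hp L z))

theorem R7_two : Marg (R7 p L z) (R2 p L) (fun w => w.1.1.1.1.1) :=
  (R7_fst hp L z).comp (R5_two hp L z)

theorem R5_one : Marg (R5 p L z) p (fun w => w.1.1.1.1) := (R5_two hp L z).comp (R2_f hp L)

/-- The second branch. -/
theorem R7_snd : Marg (R7 p L z) (R5 p L z)
    (fun w => ((((w.1.1.1.1.2, w.1.1.1.2), w.1.1.2), w.1.2), w.2)) := by
  have h4 : Marg (R4 p L z) (R2 p L) (fun w => (w.1.2, w.2)) :=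
    Marg.glue (Z₁ := L) (Z₂ := L) (R3_s hp L z) (Marg.id p)
  have h5 : Marg (R5 p L z) (R3 p L z) (fun w => ((w.1.1.2, w.1.2), w.2)) :=
    Marg.glue (Z₁ := fun w : Ω × Ω => z w.2) (Z₂ := z) h4 (Marg.id p)
  have h6 : Marg (R6 p L z) (R4 p L z) (fun w => (((w.1.1.1.2, w.1.1.2), w.1.2), w.2)) :=
    Marg.glue (Z₁ := fun w : (Ω × Ω) × Ω => L w.2) (Z₂ := L) h5 (Marg.id p)
  exact Marg.glue (Z₁ := fun w : ((Ω × Ω) × Ω) × Ω => z w.2) (Z₂ := z) h6 (Marg.id p)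

/-- The line through the second record and the second branch. -/
theorem R7_Q6 : Marg (R7 p L z) (Q6 p L z)
    (fun w => (((((w.1.1.1.1.1.2, w.1.1.1.1.2), w.1.1.1.2), w.1.1.2), w.1.2), w.2)) := by
  have h3 : Marg (R3 p L z) (Q2 p z) (fun w => (w.1.2, w.2)) :=
    Marg.glue (Z₁ := z) (Z₂ := z) (R2_s hp L) (Marg.id p)
  have h4 : Marg (R4 p L z) (Q3 p L z) (fun w => ((w.1.1.2, w.1.2), w.2)) :=
    Marg.glue (Z₁ := fun w : Ω × Ω => L w.2) (Z₂ := L) h3 (Marg.id p)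
  have h5 : Marg (R5 p L z) (Q4 p L z) (fun w => (((w.1.1.1.2, w.1.1.2), w.1.2), w.2)) :=
    Marg.glue (Z₁ := fun w : (Ω × Ω) × Ω => z w.2) (Z₂ := z) h4 (Marg.id p)
  have h6 : Marg (R6 p L z) (Q5 p L z)
      (fun w => ((((w.1.1.1.1.2, w.1.1.1.2), w.1.1.2), w.1.2), w.2)) :=
    Marg.glue (Z₁ := fun w : ((Ω × Ω) × Ω) × Ω => L w.2) (Z₂ := L) h5 (Marg.id p)
  exact Marg.glue (Z₁ := fun w : (((Ω × Ω) × Ω) × Ω) × Ω => z w.2) (Z₂ := z) h6 (Marg.id p)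

/-! ### The stars -/

theorem S1_z (u : Z) : law p z u = law (R5 p L z) (fun w => z w.1.1.1.1) u :=
  ((R5_one hp L z).law z u).symm

theorem S1_law : IsLaw (S1 p L z) := glueLaw' hp (R5_law hp L z) (S1_z hp L z)

theorem S1_f : Marg (S1 p L z) p (fun w => w.1) := marg_fst hp.nonneg (S1_z hp L z)

theorem S1_s : Marg (S1 p L z) (R5 p L z) (fun w => w.2) :=
  marg_snd (R5_law hp L z).nonneg (S1_z hp L z)

theorem S1_pos {w : Ω × ((((Ω × Ω) × Ω) × Ω) × Ω)} (h : 0 < S1 p L z w) :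
    0 < p w.1 ∧ 0 < R5 p L z w.2 ∧ z w.1 = z w.2.1.1.1.1 :=
  (glue_pos_iff hp.nonneg (R5_law hp L z).nonneg w).mp h

theorem S2_z (u : Z) : law p z u = law (S1 p L z) (fun w => z w.1) u :=
  ((S1_f hp L z).law z u).symm

theorem S2_law : IsLaw (S2 p L z) := glueLaw' hp (S1_law hp L z) (S2_z hp L z)

theorem S2_f : Marg (S2 p L z) p (fun w => w.1) := marg_fst hp.nonneg (S2_z hp L z)

theorem S2_s : Marg (S2 p L z) (S1 p L z) (fun w => w.2) :=
  marg_snd (S1_law hp L z).nonneg (S2_z hp L z)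

theorem S2_pos {w : Ω × (Ω × ((((Ω × Ω) × Ω) × Ω) × Ω))} (h : 0 < S2 p L z w) :
    0 < p w.1 ∧ 0 < S1 p L z w.2 ∧ z w.1 = z w.2.1 :=
  (glue_pos_iff hp.nonneg (S1_law hp L z).nonneg w).mp h

/-- The second line of the star with the branch. -/
theorem S2_o : Marg (S2 p L z) (S1 p L z) (fun w => (w.1, w.2.2)) := by
  have h1 : S2 p L z = glue p (S1 p L z) z (fun w => z w.2.1.1.1.1) :=
    glue_congr2 (S1_law hp L z).nonneg fun w hw => (S1_pos hp L z hw).2.2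
  rw [h1]
  exact Marg.glue (Z₁ := z) (Z₂ := fun w : (((Ω × Ω) × Ω) × Ω) × Ω => z w.1.1.1.1) (Marg.id p)
    (S1_s hp L z)

theorem S3_z (u : Z) : law p z u = law (S2 p L z) (fun w => z w.1) u :=
  ((S2_f hp L z).law z u).symm

theorem S3_law : IsLaw (S3 p L z) := glueLaw' hp (S2_law hp L z) (S3_z hp L z)

theorem S3_f : Marg (S3 p L z) p (fun w => w.1) := marg_fst hp.nonneg (S3_z hp L z)

theorem S3_s : Marg (S3 p L z) (S2 p L z) (fun w => w.2) :=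
  marg_snd (S2_law hp L z).nonneg (S3_z hp L z)

theorem S3_pos {w : Ω × (Ω × (Ω × ((((Ω × Ω) × Ω) × Ω) × Ω)))} (h : 0 < S3 p L z w) :
    0 < p w.1 ∧ 0 < S2 p L z w.2 ∧ z w.1 = z w.2.1 :=
  (glue_pos_iff hp.nonneg (S2_law hp L z).nonneg w).mp h

/-- The third line of the star with the branch. -/
theorem S3_o : Marg (S3 p L z) (S1 p L z) (fun w => (w.1, w.2.2.2)) := by
  have h1 : S3 p L z = glue p (S2 p L z) z (fun w => z w.2.2.1.1.1.1) :=
    glue_congr2 (S2_law hp L z).nonneg fun w hw => by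
      have h2 := S2_pos hp L z hw
      exact h2.2.2.trans (S1_pos hp L z h2.2.1).2.2
  rw [h1]
  exact Marg.glue (Z₁ := z) (Z₂ := fun w : (((Ω × Ω) × Ω) × Ω) × Ω => z w.1.1.1.1) (Marg.id p)
    ((S2_s hp L z).comp (S1_s hp L z))

/-- The law of a line and a branch is `Q6`. -/
theorem S1_Q6 : Marg (S1 p L z) (Q6 p L z)
    (fun w => (((((w.1, w.2.1.1.1.1), w.2.1.1.1.2), w.2.1.1.2), w.2.1.2), w.2.2)) := by
  have a2 : Marg (glue p (R2 p L) z (fun w => z w.1)) (Q3 p L z)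
      (fun w => ((w.1, w.2.1), w.2.2)) :=
    marg_assoc (z := z) (z' := z) (X := L) (Y' := L) hp.nonneg fun _ => rfl
  have e3 : ∀ u, law p z u = law (R2 p L) (fun w => z w.1) u := fun u =>
    ((R2_f hp L).law z u).symm
  have a3 : Marg (glue p (R3 p L z) z (fun w => z w.1.1)) (Q4 p L z)
      (fun w => (((w.1, w.2.1.1), w.2.1.2), w.2.2)) :=
    (marg_assoc (z := z) (z' := fun w : Ω × Ω => z w.1) (X := fun w : Ω × Ω => z w.2) (Y' := z)
      (q := p) (R2_law hp L).nonneg e3).comp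
      (Marg.glue (Z₁ := fun w : (Ω × Ω) × Ω => z w.2) (Z₂ := z) a2 (Marg.id p))
  have e4 : ∀ u, law p z u = law (R3 p L z) (fun w => z w.1.1) u := fun u =>
    (((R3_f hp L z).comp (R2_f hp L)).law z u).symm
  have a4 : Marg (glue p (R4 p L z) z (fun w => z w.1.1.1)) (Q5 p L z)
      (fun w => ((((w.1, w.2.1.1.1), w.2.1.1.2), w.2.1.2), w.2.2)) :=
    (marg_assoc (z := z) (z' := fun w : (Ω × Ω) × Ω => z w.1.1)
      (X := fun w : (Ω × Ω) × Ω => L w.2) (Y' := L) (q := p) (R3_law hp L z).nonneg e4).comp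
      (Marg.glue (Z₁ := fun w : ((Ω × Ω) × Ω) × Ω => L w.2) (Z₂ := L) a3 (Marg.id p))
  have e5 : ∀ u, law p z u = law (R4 p L z) (fun w => z w.1.1.1) u := fun u =>
    (((R4_f hp L z).comp ((R3_f hp L z).comp (R2_f hp L))).law z u).symm
  exact (marg_assoc (z := z) (z' := fun w : ((Ω × Ω) × Ω) × Ω => z w.1.1.1)
      (X := fun w : ((Ω × Ω) × Ω) × Ω => z w.2) (Y' := z) (q := p) (R4_law hp L z).nonneg e5).comp
      (Marg.glue (Z₁ := fun w : (((Ω × Ω) × Ω) × Ω) × Ω => z w.2) (Z₂ := z) a4 (Marg.id p))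

/-- Support of the long chain. -/
theorem R7_pos {w : (((((Ω × Ω) × Ω) × Ω) × Ω) × Ω) × Ω} (h : 0 < R7 p L z w) :
    0 < p w.1.1.1.1.1.1 ∧ 0 < p w.1.1.1.1.1.2 ∧ L w.1.1.1.1.1.1 = L w.1.1.1.1.1.2 ∧
      z w.1.1.1.1.1.2 = z w.1.1.1.1.2 := by
  obtain ⟨h6, _, _⟩ := (glue_pos_iff (R6_law hp L z).nonneg hp.nonneg w).mp h
  obtain ⟨h5, _, _⟩ := (glue_pos_iff (R5_law hp L z).nonneg hp.nonneg w.1).mp h6
  obtain ⟨h4, _, _⟩ := (glue_pos_iff (R4_law hp L z).nonneg hp.nonneg w.1.1).mp h5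
  obtain ⟨h3, _, _⟩ := (glue_pos_iff (R3_law hp L z).nonneg hp.nonneg w.1.1.1).mp h4
  obtain ⟨h2, _, hz⟩ := (glue_pos_iff (R2_law hp L).nonneg hp.nonneg w.1.1.1.1).mp h3
  obtain ⟨h1, h1', hL⟩ := (glue_pos_iff hp.nonneg hp.nonneg w.1.1.1.1.1).mp h2
  exact ⟨h1, h1', hL, hz⟩

end laws

end Pool.STB
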