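import Pool.Agent.H98.STB.VrR

/-!
# The input of the jets for a static target at a record

`n1_rec`: `n1_cls` at a record, from the output `AlO` of the alternative.
-/

set_option autoImplicit false

namespace Pool.STB

open Finset Real MvPolynomial
open Pool.Agent.H49.Ent Pool.Agent.H32.Dense Pool.STK Pool.KA Pool.KSAT Pool.K2S Pool.PB Pool.S6C
open Pool.GEN Pool.RCD Pool.LA91 Pool.PKG
open Pool.GRD (LbP)
open Pool.ALT (AlO Fml NzF BlB)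
open Pool.STB77 (NodF Nls)
open Pool.STB65 (NsR NsQ MxS N1O n1_cls gST)

/-- The exact labels of a window of the alternative. -/
theorem alw_lab {S : PCl 4} {c : ℕ → Fin 4} {D : ℕ} {w pκ pu E Eu u : ℝ}
    (H : Pool.ALT.AlW S c 2 (c 3) D w pκ pu E Eu u) {p p₂ η' : ℝ} (hη : 0 < η')
    (hp : p + η' ≤ pκ) (hp₂ : p₂ + η' ≤ pu) (hp0 : 0 ≤ p + η' / 2) (hp20 : 0 ≤ p₂ + η' / 2) :
    (∃ χ : ℝ, 0 < χ ∧ Bas S (fun J F A => ∃ (P₁ : ℕ) (V₁ : Type) (z₁ : PtT F → V₁)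
      (z₁' : LnT F → V₁) (G₁ : V₁ → MvPolynomial (Option (Fin 4)) ℝ),
      LbP F ((range 3).image c) (c 3) D J ⌊w * J⌋₊ P₁ A z₁ z₁' G₁ ∧ (p + χ) * J ≤ P₁)) ∧
    ∃ χ : ℝ, 0 < χ ∧ Bas S (fun J F A => ∃ (P₁ : ℕ) (V₁ : Type) (z₁ : PtT F → V₁)
      (z₁' : LnT F → V₁) (G₁ : V₁ → MvPolynomial (Option (Fin 4)) ℝ),
      LbP F ((range 2).image c) (c 2) D J ⌊w * J⌋₊ P₁ A z₁ z₁' G₁ ∧ (p₂ + χ) * J ≤ P₁) := by
  have key : ∀ {x P : ℝ} {J : ℕ}, 0 ≤ x + η' / 2 → x + η' ≤ P → 4 / η' ≤ (J : ℝ) →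
      (x + η' / 4) * J ≤ ⌊(P - η' / 4) * J⌋₊ := by
    intro x P J h0 h1 h2
    rw [div_le_iff₀ hη] at h2
    have h3 := Nat.lt_floor_add_one ((P - η' / 4) * (J : ℝ))
    have h4 : (0 : ℝ) ≤ J := Nat.cast_nonneg J
    have h5 : (x + η' - η' / 4) * J ≤ (P - η' / 4) * J :=
      mul_le_mul_of_nonneg_right (by linarith) h4
    nlinarith
  obtain ⟨J₀, hJ₀⟩ := exists_nat_ge (4 / η')
  have h := H.lb (η' / 4) (by positivity)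
  refine ⟨⟨η' / 4, by positivity, Bas.mono J₀ h ?_⟩, ⟨η' / 4, by positivity, Bas.mono J₀ h ?_⟩⟩
  · rintro J hJ F A ⟨V, z, z', g, gu, h1, h2⟩
    have h3 : 4 / η' ≤ (J : ℝ) := hJ₀.trans (by exact_mod_cast hJ)
    exact ⟨_, V, z, z', g, Pool.GRD.LbP.of h1, key hp0 hp h3⟩
  · rintro J hJ F A ⟨V, z, z', g, gu, h1, h2⟩
    have h3 : 4 / η' ≤ (J : ℝ) := hJ₀.trans (by exact_mod_cast hJ)
    exact ⟨_, V, z, z', gu, Pool.GRD.LbP.of h2, key hp20 hp₂ h3⟩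

/-- **`n1_cls` at a record**, for a family `Ψ` of labels closed at the window `t + oV q`, of
precision `pN`, blind closed labels at the balls (with loss `X q`), and labels at the balls. -/
theorem n1_recA (D b : ℕ) (hD : 1 ≤ D) : ∃ C₀ C D' K₀ : ℕ, D ≤ D' ∧ ∀ {S : PCl 4} {al : ℝ}
    {g₀ : ℝ → ℝ} {P₀ : List (Fin 4) × Fin 4 → ℝ → ℝ → ℝ} {θ : ℝ}
    {P₂ : ℕ → List (Fin 4) × Fin 4 → ℝ → ℝ → ℝ} {θ₂ Eb e₂ : ℕ → ℝ}
    {c : ℕ → Fin 4} {Pt : ℝ → ℝ → ℝ} {r : ℝ → ℝ} {h Kn g : ℝ} {L T : ℕ → ℝ → ℝ → ℝ}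
    {Sl : ℕ → ℝ} {κ : ℕ → Kg} {G : Set ℝ} {S₀ N₀ : ℕ} {A V : ℕ → ℝ} {S₂ N' : ℕ} {V' : ℕ → ℝ}
    {K ε q t : ℝ}
    (_ : RecG S al g₀ P₀ θ P₂ θ₂ Eb e₂ c Pt r h Kn g L T Sl κ G S₀ N₀ A V S₂ N' V' K ε q t)
    (_ : Sl 1 = 1) (_ : Sl 3 = b) (_ : κ 3 = .sta) (_ : 0 ≤ ε)
    {oW y ρ : ℝ} {Ng P pc N M' Nx : ℕ} {Ax Vx : ℕ → ℝ}
    (_ : LsN oW y ρ Ng P Nx Ax Vx N₀ A V N' V' K) (_ : GrN y ρ Ng P pc N M')
    (_ : ∀ k < Ng + P + 2 + Nx, NodF S c 3 D L (Eb 3) (Eb 3) (nAA t q oW y ρ Ng P Ax k)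
      (nWW t q oW ρ Ng P Vx k))
    {Db : ℕ} {oV η X : ℝ} {Ψ : Fml 4} {pN : ℝ} (_ : Db ≤ D) (_ : 0 < η) (_ : 0 ≤ X) (_ : oV ≤ oW)
    (_ : ∀ (J : ℕ) (F : Fam 4 J) (A : F.Ω → Prop) (V : Type) (z : PtT F → V) (z' : LnT F → V)
      (G : V → MvPolynomial (Option (Fin 4)) ℝ), Ψ J F A V z z' G →
      LbP F ((range 3).image c) (c 3) D J ⌊(t + oV * q) * J⌋₊ ⌊pN * J⌋₊ A z z' G)
    (_ : ∀ k ≤ N + (P - pc), BlB S c 2 (c 3) (t + oV * q) (nAA t q oW y ρ Ng P Ax (nι N M' k))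
      Db Db (L 3 (nAA t q oW y ρ Ng P Ax (nι N M' k)) (nAA t q oW y ρ Ng P Ax (nι N M' k)) -
        2 * (η * q))
      (L 2 (nAA t q oW y ρ Ng P Ax (nι N M' k)) (nAA t q oW y ρ Ng P Ax (nι N M' k)) -
        2 * (η * q))
      (L 2 (nAA t q oW y ρ Ng P Ax (nι N M' k)) (nAA t q oW y ρ Ng P Ax (nι N M' k)) -
        L 3 (nAA t q oW y ρ Ng P Ax (nι N M' k)) (nAA t q oW y ρ Ng P Ax (nι N M' k)) + X * q) Ψ)
    (_ : ∀ k ≤ N + (P - pc), ∃ χ : ℝ, 0 < χ ∧ Bas S (fun J F A => ∃ (P₁ : ℕ) (V₁ : Type)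
      (z₁ : PtT F → V₁) (z₁' : LnT F → V₁) (G₁ : V₁ → MvPolynomial (Option (Fin 4)) ℝ),
      LbP F ((range 3).image c) (c 3) Db J ⌊nAA t q oW y ρ Ng P Ax (nι N M' k) * J⌋₊ P₁ A z₁ z₁'
        G₁ ∧ (L 3 (nAA t q oW y ρ Ng P Ax (nι N M' k)) (nAA t q oW y ρ Ng P Ax (nι N M' k)) -
        2 * (η * q) + χ) * J ≤ P₁))
    (_ : ∀ k ≤ N + (P - pc), ∃ χ : ℝ, 0 < χ ∧ Bas S (fun J F A => ∃ (P₁ : ℕ) (V₁ : Type)
      (z₁ : PtT F → V₁) (z₁' : LnT F → V₁) (G₁ : V₁ → MvPolynomial (Option (Fin 4)) ℝ),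
      LbP F ((range 2).image c) (c 2) Db J ⌊nAA t q oW y ρ Ng P Ax (nι N M' k) * J⌋₊ P₁ A z₁ z₁'
        G₁ ∧ (L 2 (nAA t q oW y ρ Ng P Ax (nι N M' k)) (nAA t q oW y ρ Ng P Ax (nι N M' k)) -
        2 * (η * q) + χ) * J ≤ P₁))
    {xx s₀ s : ℝ} (_ : 0 ≤ xx)
    (_ : L 3 (t + oW * q) (t + oW * q) ≤ pN + xx)
    (_ : (X + 2 * η + 4 * ε) * q ≤ s₀) {v : ℝ} (_ : ρ * q ≤ v)
    {Dr : ℕ} (_ : D' ≤ Dr)
    (_ : 0 < s) (_ : C₀ * (s₀ + 4 * s) ≤ 3 * K * q)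
    (_ : NsQ C₀ N (N + (P - pc)) (L 3 (nAA t q oW y ρ Ng P Ax (nι N M' 0))
          (nWW t q oW ρ Ng P Vx (nι N M' 0)) +
        b * (nAA t q oW y ρ Ng P Ax (nι N M' N) - nAA t q oW y ρ Ng P Ax (nι N M' 0)))
      L (nAA t q oW y ρ Ng P Ax) (nWW t q oW ρ Ng P Vx) (nι N M') (nσ Ng pc N)
      (fun k => L 3 (nAA t q oW y ρ Ng P Ax (nι N M' k)) (nAA t q oW y ρ Ng P Ax (nι N M' k)) -
        2 * (η * q))
      (fun k => L 2 (nAA t q oW y ρ Ng P Ax (nι N M' k)) (nAA t q oW y ρ Ng P Ax (nι N M' k)) -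
        L 3 (nAA t q oW y ρ Ng P Ax (nι N M' k)) (nAA t q oW y ρ Ng P Ax (nι N M' k)) + X * q)
      s₀ s ∨ MxS S c D Dr (Ng + P + 2 + Nx) L (Eb 3) (Eb 3) s s₀ (t + oV * q)
        (nAA t q oW y ρ Ng P Ax) (nWW t q oW ρ Ng P Vx) (nσ Ng pc N N)
        (L 3 (nAA t q oW y ρ Ng P Ax (nι N M' 0)) (nWW t q oW ρ Ng P Vx (nι N M' 0)) +
          b * (nAA t q oW y ρ Ng P Ax (nι N M' N) - nAA t q oW y ρ Ng P Ax (nι N M' 0))) Ψ),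
    ∃ (K₁ : ℝ) (d : ℕ → ℕ → ℝ) (ψ : ℝ), 0 < K₁ ∧ 0 < ψ ∧
      (∀ k < Ng + P + 2 + Nx, ∀ l ≤ 3, 0 < d k l ∧ d k l ≤ s ∧
        d k l < nAA t q oW y ρ Ng P Ax k) ∧
      Bas S (fun J F A => ∀ (V : Type) (z : PtT F → V) (z' : LnT F → V)
        (G : V → MvPolynomial (Option (Fin 4)) ℝ), Ψ J F A V z z' G →
        ∃ (B : F.Ω → Prop) (Gn : ℕ → PtT F → ℕ → MvPolynomial (Option (Fin 4)) ℝ)
          (Hn : ℕ → LnT F → ℕ → MvPolynomial (Option (Fin 4)) ℝ)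
          (pP : PtT F → ℕ → MvPolynomial (Option (Fin 4)) ℝ)
          (pH : LnT F → ℕ → MvPolynomial (Option (Fin 4)) ℝ) (xP : PtT F → ℝ) (xH : LnT F → ℝ)
          (zP : PtT F → MvPolynomial (Option (Fin 4)) ℝ)
          (zH : LnT F → MvPolynomial (Option (Fin 4)) ℝ) (f : ℕ → PtT F → Po)
          (f' : ℕ → LnT F → Po) (kf : LnT F → Po) (gS : ℕ), Sub B A ∧
          Pe F.p A ≤ K₁ * Pe F.p B ∧
          N1O F c D' K₀ b N ⌊(t + oW * q) * J⌋₊ (C₀ * (⌊(s₀ + 3 * s) * J⌋₊ + 1))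
            (⌊v * J⌋₊ + 1) (C * (⌊(s₀ + 3 * s) * J⌋₊ + ⌊v * J⌋₊ + 1)) ⌊Eb 3 * J⌋₊
            (C * (⌊(s₀ + 3 * s) * J⌋₊ + ⌊v * J⌋₊ + 1) + ⌊(Eb 3 + s) * J⌋₊ + ⌊xx * J⌋₊)
            ⌊(L 3 (t + oW * q) (t + oW * q) - d 0 3) * J⌋₊ gS
            (fun k => ⌊nAA t q oW y ρ Ng P Ax (nι N M' k) * J⌋₊) (fun _ => ⌊(Eb 3 + s) * J⌋₊)
            (fun k l => ⌊(L l (nAA t q oW y ρ Ng P Ax (nι N M' k))
              (nWW t q oW ρ Ng P Vx (nι N M' k)) - d (nι N M' k) l) * J⌋₊) B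
            Gn Hn pP pH xP xH (fun y => G (z y)) zP zH f f' kf) := by
  obtain ⟨C₀, C, D', K₀, hDD', hn1⟩ := n1_cls D b hD
  refine ⟨C₀, C, D', K₀, hDD', ?_⟩
  intro S al g₀ P₀ θ P₂ θ₂ Eb e₂ c Pt r h Kn g L T Sl κ G S₀ N₀ A V S₂ N' V' K ε q t R S1 S3 hκ hε
    oW y ρ Ng P pc N M' Nx Ax Vx H gr hnd Db oV η X Ψ pN hDb hη hX hio hΨ hbl hl3 hl2 xx s₀ s hxx hx
    hs₀ v hv Dr hDr hs hC hmx
  have hq := R.q0
  have hεq : 0 ≤ ε * q := by positivity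
  have hXq : 0 ≤ X * q := by positivity
  have hηq : 0 < η * q := by positivity
  have hs₀' : X * q + 2 * (η * q) + 4 * (ε * q) ≤ s₀ := by linarith
  have hs₀0 : 0 ≤ s₀ := by linarith
  have hr := gr.r0
  have hy := gr.y0
  obtain ⟨z1, z2, z3, z4⟩ := ball_zero R H gr
  obtain ⟨w1, w2, w3⟩ := box_in R z3 z4
  have h34 : (3 : ℕ) < 4 := by norm_num
  have hNN : N ≤ N + (P - pc) := Nat.le_add_right _ _
  have hT := R.tg 3 (by norm_num) h34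
  have hEb := hT.Eb0
  have hww : ∀ k ≤ N + (P - pc), nWW t q oW ρ Ng P Vx (nι N M' k) =
      nAA t q oW y ρ Ng P Ax (nι N M' k) := fun k hk => by
    obtain ⟨h1, h2, -, -⟩ := ball_at R H gr hk
    rw [h1, h2]
  have hMx : ∀ k ≤ N + (P - pc), nι N M' k < Ng + P + 2 + Nx := fun k hk => by
    have := gr.ι_le hk
    omega
  have hnsr := nsr_rec R H gr h34 S3 hκ hX hη.le hε hs₀
  have hres := hn1 (S := S) (c := c) (β := L) (e := Eb 3) (E := Eb 3) (Db := Db) R.tmh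
    (R.inj.mono fun x hx => hx) hEb.le (Ng + P + 2 + Nx) (nAA t q oW y ρ Ng P Ax)
    (nWW t q oW ρ Ng P Vx) (fun k hk => (nod_box R H gr hk).1) (fun k hk => (nod_box R H gr hk).2.1)
    (fun k hk => (nod_box R H gr hk).2.2) (fun j hj k hk h1 h2 => lv_mono R h34
      (nod_box R H gr hj).1 h2 h1 (nod_box R H gr hj).2.1 (nod_box R H gr hk).2.1
      (nod_box R H gr hk).2.2.le) hnd N (N + (P - pc)) hNN (nι N M') (nσ Ng pc N)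
    (fun k hk => ⟨hMx k hk, hww k hk⟩)
    (fun k hk => ball_mono R H gr (Nat.le_succ k) hk) (fun k hk1 hk2 => by
      obtain ⟨i', rfl⟩ : ∃ i', k = N + i' := ⟨k - N, by omega⟩
      obtain ⟨s1, s2, s3, -⟩ := pair_at R H gr (i := i') (by have := gr.pP; omega)
      exact ⟨s3, s1, by rw [s2, z1]⟩) v s₀ (fun k hk => by
      rw [(ball_at R H gr (hk.le.trans hNN)).1, (ball_at R H gr (Nat.le_trans hk hNN)).1,
        nι_le hk.le, nι_le hk]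
      push_cast
      nlinarith) hs₀0 (fun k hk => by
      obtain ⟨h1, -, h3, h4⟩ := ball_at R H gr (hk.trans hNN)
      rw [hww k (hk.trans hNN), h1]
      have := (abs_le.1 (R.l0 _ (box_in R h3 h4).1)).2
      linarith) (by
      rw [z1, z2]
      have := (abs_le.1 (R.l0 _ w1)).1
      linarith) (by
      rw [z1, z2]
      exact R.low_at (by norm_num) w2.le le_rfl w3.le) (fun k hk => by
      obtain ⟨h1, -, h3, h4⟩ := ball_at R H gr (hk.trans hNN)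
      rw [hww k (hk.trans hNN), h1, z1, z2]
      have := abs_le.1 (lv_lin R (l := 1) (by norm_num) w1 (box_in R h3 h4).1)
      rw [S1, one_mul] at this
      linarith [this.2]) (fun k hk => by
      obtain ⟨h1, -, h3, h4⟩ := ball_at R H gr (hk.trans hNN)
      rw [hww k (hk.trans hNN), h1, z1, z2]
      have := abs_le.1 (lv_lin R (l := 1) (by norm_num) w1 (box_in R h3 h4).1)
      rw [S1, one_mul] at this
      linarith [this.1]) (t + oV * q) pN xx _ _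
    (fun k => L 2 (nAA t q oW y ρ Ng P Ax (nι N M' k)) (nAA t q oW y ρ Ng P Ax (nι N M' k)) -
      2 * (η * q)) _ _ hnsr (by
      rw [z1]
      nlinarith) hxx (by
      rw [z1, z2]
      exact hx) hΨ hDb hbl hl3 hl2 Dr hDr s hs (by
      rw [z1, z2]
      have h1 := hT.room 1 (by norm_num) _ w1
      linarith) hmx
  obtain ⟨K₁, d, ψ, hK₁, hψ, hd, hbas⟩ := hres
  refine ⟨K₁, d, ψ, hK₁, hψ, hd, Bas.mono 0 hbas ?_⟩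
  intro J _ F A hA V z z' G hG
  obtain ⟨B, Gn, Hn, pP, pH, xP, xH, zP, zH, f, f', kf, h1, h2, -, h4⟩ := hA V z z' G hG
  have e0 : nι N M' 0 = 0 := nι_le (Nat.zero_le _)
  have hmax : max ⌊Eb 3 * (J : ℝ)⌋₊ ⌊(Eb 3 + s) * (J : ℝ)⌋₊ = ⌊(Eb 3 + s) * (J : ℝ)⌋₊ :=
    max_eq_right (Nat.floor_le_floor (mul_le_mul_of_nonneg_right (by linarith)
      (Nat.cast_nonneg J)))
  rw [hmax, e0] at h4
  have z1' : nAA t q oW y ρ Ng P Ax 0 = t + oW * q := by rw [← e0]; exact z1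
  have z2' : nWW t q oW ρ Ng P Vx 0 = t + oW * q := by rw [← e0]; exact z2
  rw [z1', z2'] at h4
  exact ⟨B, fun k => Gn (nι N M' k), fun k => Hn (nι N M' k), pP, pH, xP, xH, zP, zH, f, f', kf,
    _, h1, h2, h4⟩

/-- **`n1_cls` at a record.** -/
theorem n1_rec (D b : ℕ) (hD : 1 ≤ D) : ∃ C₀ C D' K₀ : ℕ, D ≤ D' ∧ ∀ {S : PCl 4} {al : ℝ}
    {g₀ : ℝ → ℝ} {P₀ : List (Fin 4) × Fin 4 → ℝ → ℝ → ℝ} {θ : ℝ}
    {P₂ : ℕ → List (Fin 4) × Fin 4 → ℝ → ℝ → ℝ} {θ₂ Eb e₂ : ℕ → ℝ}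
    {c : ℕ → Fin 4} {Pt : ℝ → ℝ → ℝ} {r : ℝ → ℝ} {h Kn g : ℝ} {L T : ℕ → ℝ → ℝ → ℝ}
    {Sl : ℕ → ℝ} {κ : ℕ → Kg} {G : Set ℝ} {S₀ N₀ : ℕ} {A V : ℕ → ℝ} {S₂ N' : ℕ} {V' : ℕ → ℝ}
    {K ε q t : ℝ}
    (_ : RecG S al g₀ P₀ θ P₂ θ₂ Eb e₂ c Pt r h Kn g L T Sl κ G S₀ N₀ A V S₂ N' V' K ε q t)
    (_ : Sl 1 = 1) (_ : Sl 3 = b) (_ : κ 3 = .sta) (_ : 0 ≤ ε)
    {oW y ρ : ℝ} {Ng P pc N M' Nx : ℕ} {Ax Vx : ℕ → ℝ}
    (_ : LsN oW y ρ Ng P Nx Ax Vx N₀ A V N' V' K) (_ : GrN y ρ Ng P pc N M')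
    (_ : ∀ k < Ng + P + 2 + Nx, NodF S c 3 D L (Eb 3) (Eb 3) (nAA t q oW y ρ Ng P Ax k)
      (nWW t q oW ρ Ng P Vx k))
    {Db i j : ℕ} {Rr hh δ lam rr ℓ g₂ X η μ e₀ π₀ : ℝ} {Ψ : Fml 4}
    {w p₁ p₂ eN uN pN pa₁ pa₂ ea ua pa : ℝ}
    (_ : AlO (r₀ := 2) S c L Db N' V' i j Rr hh δ lam rr ℓ g₂ X η μ e₀ π₀ q t Ψ w p₁ p₂ eN uN pN
      pa₁ pa₂ ea ua pa) (_ : Db * max 1 Db ≤ D) (_ : 0 < η) (_ : 0 ≤ X) (_ : 0 ≤ g₂)
    (_ : V' i + g₂ ≤ oW) (_ : -Rr ≤ oW) (_ : oW + ((P + 1 : ℕ) : ℝ) * y + g₂ ≤ Rr)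
    (_ : X * q ≤ μ) (_ : ∀ x, |x - t| ≤ K * q → X * q ≤ L 2 x x ∧ e₀ + L 3 x x < 1 ∧
      L 3 x x + L 2 x x + X * q ≤ 1 + π₀) {xx s₀ s : ℝ} (_ : 0 ≤ xx) (_ : |V' i| ≤ K)
    (_ : 0 ≤ δ * lam) (_ : (b * (oW - V' i) + δ * lam + 2 * ε) * q ≤ xx)
    (_ : (X + 2 * η + 4 * ε) * q ≤ s₀) (_ : 4 * (η * q) ≤ t - K * q) {v : ℝ} (_ : ρ * q ≤ v)
    {Dr : ℕ} (_ : D' ≤ Dr)
    (_ : 0 < s) (_ : C₀ * (s₀ + 4 * s) ≤ 3 * K * q)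
    (_ : NsQ C₀ N (N + (P - pc)) (L 3 (nAA t q oW y ρ Ng P Ax (nι N M' 0))
          (nWW t q oW ρ Ng P Vx (nι N M' 0)) +
        b * (nAA t q oW y ρ Ng P Ax (nι N M' N) - nAA t q oW y ρ Ng P Ax (nι N M' 0)))
      L (nAA t q oW y ρ Ng P Ax) (nWW t q oW ρ Ng P Vx) (nι N M') (nσ Ng pc N)
      (fun k => L 3 (nAA t q oW y ρ Ng P Ax (nι N M' k)) (nAA t q oW y ρ Ng P Ax (nι N M' k)) -
        2 * (η * q))
      (fun k => L 2 (nAA t q oW y ρ Ng P Ax (nι N M' k)) (nAA t q oW y ρ Ng P Ax (nι N M' k)) -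
        L 3 (nAA t q oW y ρ Ng P Ax (nι N M' k)) (nAA t q oW y ρ Ng P Ax (nι N M' k)) + X * q)
      s₀ s ∨ MxS S c D Dr (Ng + P + 2 + Nx) L (Eb 3) (Eb 3) s s₀ (t + V' i * q)
        (nAA t q oW y ρ Ng P Ax) (nWW t q oW ρ Ng P Vx) (nσ Ng pc N N)
        (L 3 (nAA t q oW y ρ Ng P Ax (nι N M' 0)) (nWW t q oW ρ Ng P Vx (nι N M' 0)) +
          b * (nAA t q oW y ρ Ng P Ax (nι N M' N) - nAA t q oW y ρ Ng P Ax (nι N M' 0)))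
        (NzF Ψ c 2 (c 3) Db Db Db w (t + V' i * q) p₁ p₂ eN uN pN)),
    ∃ (K₁ : ℝ) (d : ℕ → ℕ → ℝ) (ψ : ℝ), 0 < K₁ ∧ 0 < ψ ∧
      (∀ k < Ng + P + 2 + Nx, ∀ l ≤ 3, 0 < d k l ∧ d k l ≤ s ∧
        d k l < nAA t q oW y ρ Ng P Ax k) ∧
      Bas S (fun J F A => ∀ (V : Type) (z : PtT F → V) (z' : LnT F → V)
        (G : V → MvPolynomial (Option (Fin 4)) ℝ),
        NzF Ψ c 2 (c 3) Db Db Db w (t + V' i * q) p₁ p₂ eN uN pN J F A V z z' G →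
        ∃ (B : F.Ω → Prop) (Gn : ℕ → PtT F → ℕ → MvPolynomial (Option (Fin 4)) ℝ)
          (Hn : ℕ → LnT F → ℕ → MvPolynomial (Option (Fin 4)) ℝ)
          (pP : PtT F → ℕ → MvPolynomial (Option (Fin 4)) ℝ)
          (pH : LnT F → ℕ → MvPolynomial (Option (Fin 4)) ℝ) (xP : PtT F → ℝ) (xH : LnT F → ℝ)
          (zP : PtT F → MvPolynomial (Option (Fin 4)) ℝ)
          (zH : LnT F → MvPolynomial (Option (Fin 4)) ℝ) (f : ℕ → PtT F → Po)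
          (f' : ℕ → LnT F → Po) (kf : LnT F → Po) (gS : ℕ), Sub B A ∧
          Pe F.p A ≤ K₁ * Pe F.p B ∧
          N1O F c D' K₀ b N ⌊(t + oW * q) * J⌋₊ (C₀ * (⌊(s₀ + 3 * s) * J⌋₊ + 1))
            (⌊v * J⌋₊ + 1) (C * (⌊(s₀ + 3 * s) * J⌋₊ + ⌊v * J⌋₊ + 1)) ⌊Eb 3 * J⌋₊
            (C * (⌊(s₀ + 3 * s) * J⌋₊ + ⌊v * J⌋₊ + 1) + ⌊(Eb 3 + s) * J⌋₊ + ⌊xx * J⌋₊)
            ⌊(L 3 (t + oW * q) (t + oW * q) - d 0 3) * J⌋₊ gS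
            (fun k => ⌊nAA t q oW y ρ Ng P Ax (nι N M' k) * J⌋₊) (fun _ => ⌊(Eb 3 + s) * J⌋₊)
            (fun k l => ⌊(L l (nAA t q oW y ρ Ng P Ax (nι N M' k))
              (nWW t q oW ρ Ng P Vx (nι N M' k)) - d (nι N M' k) l) * J⌋₊) B
            Gn Hn pP pH xP xH (fun y => G (z y)) zP zH f f' kf) := by
  obtain ⟨C₀, C, D', K₀, hDD', hn1⟩ := n1_recA D b hD
  refine ⟨C₀, C, D', K₀, hDD', ?_⟩
  intro S al g₀ P₀ θ P₂ θ₂ Eb e₂ c Pt r h Kn g L T Sl κ G S₀ N₀ A V S₂ N' V' K ε q t R S1 S3 hκ hε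
    oW y ρ Ng P pc N M' Nx Ax Vx H gr hnd Db i j Rr hh δ lam rr ℓ g₂ X η μ e₀ π₀ Ψ w p₁ p₂ eN uN pN
    pa₁ pa₂ ea ua pa O hDb hη hX hg₂ hio hRo hRp hXμ hmar xx s₀ s hxx hVi hδl hx hs₀ hηt v hv Dr
    hDr hs hC hmx
  have hq := R.q0
  have hL3 : ∀ x, L (2 + 1) x x = L 3 x x := fun _ => rfl
  have hηq : 0 < η * q := by positivity
  have hr := gr.r0
  have hy := gr.y0
  obtain ⟨z1, z2, z3, z4⟩ := ball_zero R H gr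
  obtain ⟨w1, w2, w3⟩ := box_in R z3 z4
  have h34 : (3 : ℕ) < 4 := by norm_num
  -- the data at a ball
  have hbl : ∀ k ≤ N + (P - pc), ∃ k' < N', nAA t q oW y ρ Ng P Ax (nι N M' k) = t + V' k' * q ∧
      V' i + g₂ ≤ V' k' ∧ |V' k'| ≤ Rr ∧ V' k' + g₂ ≤ Rr ∧ |t + V' k' * q - t| ≤ K * q := by
    intro k hk
    obtain ⟨h1, h2, h3, h4⟩ := ball_at R H gr hk
    obtain ⟨k', hk', e1⟩ := H.grid _ (gr.ι_le hk)
    have h5 : 0 ≤ ((nι N M' k : ℕ) : ℝ) * ρ := by positivity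
    have h6 : oW + ((nι N M' k : ℕ) : ℝ) * ρ ≤ oW + ((P + 1 : ℕ) : ℝ) * y := by
      have h7 : ((nι N M' k : ℕ) : ℝ) * ρ ≤ (Ng : ℝ) * ρ :=
        mul_le_mul_of_nonneg_right (by exact_mod_cast gr.ι_le hk) hr.le
      have h8 : (Ng : ℝ) * ρ = ((P + 1 : ℕ) : ℝ) * y := by
        rw [gr.hg, gr.yr]
        push_cast
        ring
      linarith
    refine ⟨k', hk', by rw [h1, e1], by rw [e1]; linarith, abs_le.2 ?_, by rw [e1]; linarith, ?_⟩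
    · rw [e1]
      exact ⟨by linarith, by linarith⟩
    · rw [e1]
      exact (box_in R h3 h4).1
  have hΨ : ∀ (J : ℕ) (F : Fam 4 J) (A : F.Ω → Prop) (V : Type) (z : PtT F → V) (z' : LnT F → V)
      (G : V → MvPolynomial (Option (Fin 4)) ℝ),
      NzF Ψ c 2 (c 3) Db Db Db w (t + V' i * q) p₁ p₂ eN uN pN J F A V z z' G →
      LbP F ((range 3).image c) (c 3) D J ⌊(t + V' i * q) * J⌋₊ ⌊pN * J⌋₊ A z z' G := by
    intro J F A V z z' G hG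
    have h1 := Pool.GRD.LbP.of hG.lb
    rw [max_self] at h1
    exact { h1 with deg := fun v => (h1.deg v).trans hDb }
  obtain ⟨v1, -, -⟩ := box_in R (o := V' i) (by linarith [(abs_le.1 hVi).1]) (abs_le.1 hVi).2
  have hlab : ∀ k ≤ N + (P - pc),
      (∃ χ : ℝ, 0 < χ ∧ Bas S (fun J F A => ∃ (P₁ : ℕ) (V₁ : Type) (z₁ : PtT F → V₁)
      (z₁' : LnT F → V₁) (G₁ : V₁ → MvPolynomial (Option (Fin 4)) ℝ),
      LbP F ((range 3).image c) (c 3) Db J ⌊nAA t q oW y ρ Ng P Ax (nι N M' k) * J⌋₊ P₁ A z₁ z₁'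
        G₁ ∧ (L 3 (nAA t q oW y ρ Ng P Ax (nι N M' k)) (nAA t q oW y ρ Ng P Ax (nι N M' k)) -
        2 * (η * q) + χ) * J ≤ P₁)) ∧ (∃ χ : ℝ, 0 < χ ∧ Bas S (fun J F A => ∃ (P₁ : ℕ)
      (V₁ : Type) (z₁ : PtT F → V₁)
      (z₁' : LnT F → V₁) (G₁ : V₁ → MvPolynomial (Option (Fin 4)) ℝ),
      LbP F ((range 2).image c) (c 2) Db J ⌊nAA t q oW y ρ Ng P Ax (nι N M' k) * J⌋₊ P₁ A z₁ z₁'
        G₁ ∧ (L 2 (nAA t q oW y ρ Ng P Ax (nι N M' k)) (nAA t q oW y ρ Ng P Ax (nι N M' k)) -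
        2 * (η * q) + χ) * J ≤ P₁)) := by
    intro k hk
    obtain ⟨k', hk', e1, b1, b2, b3, b4⟩ := hbl k hk
    obtain ⟨E', Eu, hl⟩ := O.lab k' hk'
    have d1 := R.low_at (i := 3) (by norm_num) (a := t + V' k' * q) (w := t + V' k' * q)
      (by have := (abs_le.1 b4).1; have := R.t0; linarith) le_rfl
      (by have := (abs_le.1 b4).2; have := R.t1; linarith)
    have d2 := R.low_at (i := 2) (by norm_num) (a := t + V' k' * q) (w := t + V' k' * q)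
      (by have := (abs_le.1 b4).1; have := R.t0; linarith) le_rfl
      (by have := (abs_le.1 b4).2; have := R.t1; linarith)
    have d3 := (abs_le.1 b4).1
    have := alw_lab (p := L 3 (t + V' k' * q) (t + V' k' * q) - 2 * (η * q))
      (p₂ := L 2 (t + V' k' * q) (t + V' k' * q) - 2 * (η * q)) hl hηq
      (by linarith [hL3 (t + V' k' * q)]) (by linarith) (by linarith) (by linarith)
    rw [← e1] at this
    exact this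
  refine hn1 R S1 S3 hκ hε H gr hnd ((Nat.le_mul_of_pos_right _ (by simp)).trans hDb) hη hX
    (by linarith) hΨ (fun k hk => by
      obtain ⟨k', hk', e1, b1, b2, b3, b4⟩ := hbl k hk
      obtain ⟨c1, c2, c3⟩ := hmar _ b4
      have h5 := O.blb k' hk' b1 b2 b3 hXμ c1 c2 c3
      rw [e1]
      exact h5) (fun k hk => (hlab k hk).1) (fun k hk => (hlab k hk).2) hxx ?_ hs₀ hv hDr hs hC hmx
  have h1 := abs_le.1 (lv_lin R h34 v1 w1)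
  rw [S3] at h1
  have h2 := O.pN1
  have h3 : L (2 + 1) (t + V' i * q) (t + V' i * q) = L 3 (t + V' i * q) (t + V' i * q) := rfl
  rw [h3] at h2
  have h4 : δ * lam * q / 8 ≤ δ * lam * q := by
    have : 0 ≤ δ * lam * q := by positivity
    linarith
  have e1 : (b * (oW - V' i) + δ * lam + 2 * ε) * q =
    b * (t + oW * q - (t + V' i * q)) + δ * lam * q + 2 * (ε * q) := by ring
  rw [e1] at hx
  linarith [h1.2]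

end Pool.STB
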