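import Pool.Agent.H98.STB.VrE
import Pool.Agent.H98.STB.VrC
import Pool.Agent.H92.V0F.Vsd

/-!
# Case (B), a static target at a record: rows and fullness

`rows_rec`: the rows of the natural labels. `ful_rec`: the fullness of the two first coordinates at
the windows of the record.
-/

set_option autoImplicit false

namespace Pool.STB

open Finset Real MvPolynomial
open Pool.Agent.H49.Ent Pool.Agent.H32.Dense Pool.STK Pool.KA Pool.KSAT Pool.K2S Pool.PB Pool.S6C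
open Pool.GEN Pool.RCD Pool.LA91 Pool.PKG Pool.CHX
open Pool.ALT (AlO Fml NzF AlpD xa ya SubC)
open Pool.V0F (ChUQ)

/-- **The rows of the natural labels** of the alternative. -/
theorem rows_rec {S : PCl 4} {c : ℕ → Fin 4} {L : ℕ → ℝ → ℝ → ℝ} {Db N' : ℕ} {V' : ℕ → ℝ}
    {i j : ℕ} {Rr hh δ lam rr ℓ g₂ X η μ e₀ π₀ q t : ℝ} {Ψ : Fml 4}
    {w p₁ p₂ eN uN pN pa₁ pa₂ ea ua pa : ℝ}
    (hpos : ∀ (τ : ℝ) (J : ℕ) (F : Fam 4 J) (A : F.Ω → Prop), S.St τ J F A → 0 < Pe F.p A)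
    (O : AlO (r₀ := 2) S c L Db N' V' i j Rr hh δ lam rr ℓ g₂ X η μ e₀ π₀ q t Ψ w p₁ p₂ eN uN pN
      pa₁ pa₂ ea ua pa) (hμ : 0 ≤ μ) {sa sb δ' : ℝ}
    (h1 : L 3 (t + V' i * q) (t + V' i * q) ≤ sa) (h2 : sa ≤ sb)
    (h3 : sb ≤ L 3 (t + V' i * q) (t + V' i * q) + rr * q) (hδ : 0 < δ') :
    Bas S (fun J F A => ∀ (V : Type) (z : PtT F → V) (z' : LnT F → V)
      (G : V → MvPolynomial (Option (Fin 4)) ℝ),
      NzF Ψ c 2 (c 3) Db Db Db w (t + V' i * q) p₁ p₂ eN uN pN J F A V z z' G →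
      CH (Pool.Agent.H49.Ent.cond F.p A True)
        (xa F (c 3) z' ⌊(t + V' i * q) * J⌋₊ G sb)
        (ya F ((range 2).image c) (c 3) z' ⌊(t + V' i * q) * J⌋₊ G sa) ≤
        ((1 - hh) * (sb - sa) * Real.log 2 + δ * (lam * q) / 4 + δ') * J) := by
  refine Bas.mono 0 ((O.alp 1 (by linarith) le_rfl).row0 hpos h1 h2 h3 hδ) ?_
  intro J _ F A hA V z z' G hG
  refine le_trans (CH_mono_cond (fun ω => cond_nonneg F.isLaw.nonneg _ _ ω) ?_) (hA V z z' G hG)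
  intro ω ω' _ _ e
  obtain ⟨e1, e5⟩ := Prod.ext_iff.mp e
  obtain ⟨e3, e6⟩ := Prod.ext_iff.mp e5
  obtain ⟨e2, e4⟩ := Prod.ext_iff.mp e6
  exact Prod.ext e1 (Prod.ext e2 (Prod.ext e3 e4))

/-- **The fullness** of the two first coordinates at the windows of the record. -/
theorem ful_rec {S : PCl 4} {al : ℝ} {g₀ : ℝ → ℝ} {P₀ : List (Fin 4) × Fin 4 → ℝ → ℝ → ℝ} {θ : ℝ}
    {P₂ : ℕ → List (Fin 4) × Fin 4 → ℝ → ℝ → ℝ} {θ₂ Eb e₂ : ℕ → ℝ}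
    {c : ℕ → Fin 4} {Pt : ℝ → ℝ → ℝ} {r : ℝ → ℝ} {h Kn g : ℝ} {L T : ℕ → ℝ → ℝ → ℝ}
    {Sl : ℕ → ℝ} {κ : ℕ → Kg} {G : Set ℝ} {S₀ N₀ : ℕ} {A V : ℕ → ℝ} {S₂ N' : ℕ} {V' : ℕ → ℝ}
    {K ε q t : ℝ}
    (R : RecG S al g₀ P₀ θ P₂ θ₂ Eb e₂ c Pt r h Kn g L T Sl κ G S₀ N₀ A V S₂ N' V' K ε q t)
    {S' : PCl 4} (hs : SubC S S') {k₀ : ℕ} {g' : ℝ}
    (hch : ChUQ (n := 4) () k₀ S' P₀ θ c Pt r L T κ G g') {k : ℕ} (hk : k < N') :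
    FulC S c 0 2 (t + V' k * q) (fun l => L l (t + V' k * q) (t + V' k * q)) := by
  obtain ⟨rd, -, h2⟩ := hch _ (R.memG.2 k hk)
  intro ρ hρ
  exact Bas.mono 0 ((h2.sub hs).ful ρ hρ) fun J _ F A hA V z z' hc i hi1 hi2 =>
    hA V z z' hc i hi1 (by omega)

end Pool.STB
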