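import Pool.Agent.H77.STB.Vbl
import Pool.Agent.H98.STB.VcD

/-!
# The event of a static target at a record

`ev_core`: from the inputs of `n1_recL`, for an abstract family of labels, the event of `vb_void`
with the loss cut, if the natural numbers of the frame are right.
-/

set_option autoImplicit false

namespace Pool.STB

open Finset Real MvPolynomial
open Pool.Agent.H49.Ent Pool.Agent.H32.Dense Pool.STK Pool.KA Pool.KSAT Pool.K2S Pool.PB Pool.S6C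
open Pool.GEN Pool.RCD Pool.LA91 Pool.PKG Pool.CHT Pool.CHX
open Pool.GRD (LbP)
open Pool.ALT (Fml BlB)
open Pool.STB77 (NodF cut_s vb_eventL)
open Pool.STB65 (NsR NsQ MxS)

/-- **The event of a static target at a record.** -/
theorem ev_core (D b : ℕ) (hD : 1 ≤ D) (hb : 1 ≤ b) : ∃ C₀ C D' E C₁ K₂ : ℕ, D ≤ D' ∧ D' ≤ K₂ ∧
    ∀ {S : PCl 4} {al : ℝ}
    {g₀ : ℝ → ℝ} {P₀ : List (Fin 4) × Fin 4 → ℝ → ℝ → ℝ} {θ : ℝ}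
    {P₂ : ℕ → List (Fin 4) × Fin 4 → ℝ → ℝ → ℝ} {θ₂ Eb e₂ : ℕ → ℝ}
    {c : ℕ → Fin 4} {Pt : ℝ → ℝ → ℝ} {r : ℝ → ℝ} {h Kn g : ℝ} {L T : ℕ → ℝ → ℝ → ℝ}
    {Sl : ℕ → ℝ} {κ : ℕ → Kg} {G : Set ℝ} {S₀ N₀ : ℕ} {A V : ℕ → ℝ} {S₂ N' : ℕ} {V' : ℕ → ℝ}
    {K ε q t : ℝ}
    (_ : RecG S al g₀ P₀ θ P₂ θ₂ Eb e₂ c Pt r h Kn g L T Sl κ G S₀ N₀ A V S₂ N' V' K ε q t)
    (_ : Sl 1 = 1) (_ : Sl 3 = b) (_ : κ 3 = .sta) (_ : 0 ≤ ε)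
    {oW y ρ : ℝ} {Ng P pc N M' Nx : ℕ} {Ax Vx : ℕ → ℝ}
    (_ : LsN oW y ρ Ng P Nx Ax Vx N₀ A V N' V' K) (_ : GrN y ρ Ng P pc N M')
    (_ : ∀ k < Ng + P + 2 + Nx, NodF S c 3 D L (Eb 3) (Eb 3) (nAA t q oW y ρ Ng P Ax k)
      (nWW t q oW ρ Ng P Vx k))
    {Db : ℕ} {oV : ℝ} {Ψ : Fml 4} {pN : ℝ} {p p₂ yb : ℕ → ℝ} (_ : Db ≤ D) (_ : oV ≤ oW)
    (_ : ∀ (J : ℕ) (F : Fam 4 J) (A : F.Ω → Prop) (V : Type) (z : PtT F → V) (z' : LnT F → V)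
      (G : V → MvPolynomial (Option (Fin 4)) ℝ), Ψ J F A V z z' G →
      LbP F ((range 3).image c) (c 3) D J ⌊(t + oV * q) * J⌋₊ ⌊pN * J⌋₊ A z z' G)
    (_ : ∀ k ≤ N + (P - pc), BlB S c 2 (c 3) (t + oV * q) (nAA t q oW y ρ Ng P Ax (nι N M' k))
      Db Db (p k) (p₂ k) (yb k) Ψ)
    (_ : ∀ k ≤ N + (P - pc), ∃ χ : ℝ, 0 < χ ∧ Bas S (fun J F A => ∃ (P₁ : ℕ) (V₁ : Type)
      (z₁ : PtT F → V₁) (z₁' : LnT F → V₁) (G₁ : V₁ → MvPolynomial (Option (Fin 4)) ℝ),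
      LbP F ((range 3).image c) (c 3) Db J ⌊nAA t q oW y ρ Ng P Ax (nι N M' k) * J⌋₊ P₁ A z₁ z₁'
        G₁ ∧ (p k + χ) * J ≤ P₁))
    (_ : ∀ k ≤ N + (P - pc), ∃ χ : ℝ, 0 < χ ∧ Bas S (fun J F A => ∃ (P₁ : ℕ) (V₁ : Type)
      (z₁ : PtT F → V₁) (z₁' : LnT F → V₁) (G₁ : V₁ → MvPolynomial (Option (Fin 4)) ℝ),
      LbP F ((range 2).image c) (c 2) Db J ⌊nAA t q oW y ρ Ng P Ax (nι N M' k) * J⌋₊ P₁ A z₁ z₁'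
        G₁ ∧ (p₂ k + χ) * J ≤ P₁))
    {xx s₀ s : ℝ} (_ : 0 ≤ xx)
    (_ : L 3 (t + oW * q) (t + oW * q) ≤ pN + xx)
    (_ : NsR b N (L 3 (nAA t q oW y ρ Ng P Ax (nι N M' 0))
          (nWW t q oW ρ Ng P Vx (nι N M' 0)) +
        b * (nAA t q oW y ρ Ng P Ax (nι N M' N) - nAA t q oW y ρ Ng P Ax (nι N M' 0)))
      L (nAA t q oW y ρ Ng P Ax) (nWW t q oW ρ Ng P Vx) (nι N M') (nσ Ng pc N) p yb s₀)
    (_ : 0 ≤ s₀) (_ : 4 * ε * q ≤ s₀) {v : ℝ} (_ : ρ * q ≤ v)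
    {lamL : ℝ} (_ : 0 ≤ lamL) (_ : lamL ≤ L 3 (t + oW * q) (t + oW * q))
    {Dr : ℕ} (_ : D' ≤ Dr)
    (_ : 0 < s) (_ : C₀ * (s₀ + 4 * s) ≤ 3 * K * q)
    (_ : NsQ C₀ N (N + (P - pc)) (L 3 (nAA t q oW y ρ Ng P Ax (nι N M' 0))
          (nWW t q oW ρ Ng P Vx (nι N M' 0)) +
        b * (nAA t q oW y ρ Ng P Ax (nι N M' N) - nAA t q oW y ρ Ng P Ax (nι N M' 0)) - lamL)
      L (nAA t q oW y ρ Ng P Ax) (nWW t q oW ρ Ng P Vx) (nι N M') (nσ Ng pc N) p yb s₀ s ∨ MxS S c D Dr (Ng + P + 2 + Nx) L (Eb 3) (Eb 3) s s₀ (t + oV * q)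
        (nAA t q oW y ρ Ng P Ax) (nWW t q oW ρ Ng P Vx) (nσ Ng pc N N)
        (L 3 (nAA t q oW y ρ Ng P Ax (nι N M' 0)) (nWW t q oW ρ Ng P Vx (nι N M' 0)) +
          b * (nAA t q oW y ρ Ng P Ax (nι N M' N) - nAA t q oW y ρ Ng P Ax (nι N M' 0)) - lamL)
        Ψ)
    {N₁ : ℕ} (_ : N₁ ≤ N) (_ : lamL < ((N - N₁ : ℕ) : ℝ) * (ρ * q))
    (_ : ∀ (J : ℕ) (F : Fam 4 J) (A B : F.Ω → Prop) (V : Type) (z : PtT F → V)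
      (z' : LnT F → V) (G : V → MvPolynomial (Option (Fin 4)) ℝ), Sub B A →
      Ψ J F A V z z' G → Ψ J F B V z z' G)
    (_ : Bas S (fun J F A => ∃ (V : Type) (z : PtT F → V) (z' : LnT F → V)
      (G : V → MvPolynomial (Option (Fin 4)) ℝ), Ψ J F A V z z' G)),
    ∃ (K₁ : ℝ) (d : ℕ → ℕ → ℝ), 0 < K₁ ∧
      (∀ k < Ng + P + 2 + Nx, ∀ l ≤ 3, 0 < d k l ∧ d k l ≤ s ∧
        d k l < nAA t q oW y ρ Ng P Ax k) ∧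
      ∀ {K' n : ℕ} (_ : K₂ ≤ K') {kk yy x e₁' e₁ e₂' st lz : ℕ → ℕ} {jb ji : ℕ → ℕ} {w' ε' : ℝ}
        (_ : 0 < ε') (_ : w' < 1) {J₀ : ℕ}
        (_ : ∀ J ≥ J₀, FrN J n N₁ C₁ b ⌊(t + oW * q) * J⌋₊ (kk J) (yy J) (x J)
          ⌊(L 3 (t + oW * q) (t + oW * q) - d 0 3) * J⌋₊ (e₁' J) (e₁ J) (st J) (lz J)
          (C₀ * (⌊(s₀ + 3 * s) * J⌋₊ + 1)) (⌊v * J⌋₊ + 1)
          (C * (⌊(s₀ + 3 * s) * J⌋₊ + ⌊v * J⌋₊ + 1)) ⌊Eb 3 * J⌋₊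
          (C * (⌊(s₀ + 3 * s) * J⌋₊ + ⌊v * J⌋₊ + 1) + ⌊(Eb 3 + s) * J⌋₊ + ⌊xx * J⌋₊)
          (fun k => ⌊nAA t q oW y ρ Ng P Ax (nι N M' k) * J⌋₊) (fun _ => ⌊(Eb 3 + s) * J⌋₊)
          (fun k l => ⌊(L l (nAA t q oW y ρ Ng P Ax (nι N M' k))
            (nWW t q oW ρ Ng P Vx (nι N M' k)) - d (nι N M' k) l) * J⌋₊) jb ji w' ε')
        (_ : ∀ J ≥ J₀, (((E + 1) * (C₀ * (⌊(s₀ + 3 * s) * J⌋₊ + 1) +
          C * (⌊(s₀ + 3 * s) * J⌋₊ + ⌊v * J⌋₊ + 1) + 3) : ℕ) : ℝ) * Real.log 2 + ε' * J ≤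
          yy J * Real.log 2),
        Bas S (fun J F A' => ∃ (V : Type) (z : PtT F → V) (z' : LnT F → V)
          (G : V → MvPolynomial (Option (Fin 4)) ℝ), Ψ J F A' V z z' G ∧
          ∃ B : F.Ω → Prop, Sub B A' ∧ 1 / (8 * K₁) * Pe F.p A' ≤ Pe F.p B ∧ ∃ t' : VbT F,
            VbE F c B K' n N₁ b ⌊(t + oV * q) * J⌋₊ z z' G t' ∧
            ∃ Gn Hn pP pH zP zH f f' kf, t' = vbt F c ⌊(t + oW * q) * J⌋₊ (kk J) (yy J) (x J)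
              ⌊(L 3 (t + oW * q) (t + oW * q) - d 0 3) * J⌋₊ (e₁' J) (e₁ J) (e₂' J) (st J) (lz J)
              (fun k => ⌊nAA t q oW y ρ Ng P Ax (nι N M' k) * J⌋₊)
              (fun k l => ⌊(L l (nAA t q oW y ρ Ng P Ax (nι N M' k))
                (nWW t q oW ρ Ng P Vx (nι N M' k)) - d (nι N M' k) l) * J⌋₊)
              jb ji Gn Hn pP pH zP zH f f' kf) := by
  obtain ⟨C₀, C, D', K₀, hDD', hn1⟩ := n1_recL D b hD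
  obtain ⟨E, hcut⟩ := cut_s 4 (D' + K₀ + b + 1) b (by omega) hb (by omega)
  obtain ⟨C₁, K₂, hDK, hev⟩ := vb_eventL D' K₀ b hcut
  refine ⟨C₀, C, D', E, C₁, K₂, hDD', hDK, ?_⟩
  intro S al g₀ P₀ θ P₂ θ₂ Eb e₂ c Pt r h Kn g L T Sl κ G S₀ N₀ A V S₂ N' V' K ε q t R S1 S3 hκ hε
    oW y ρ Ng P pc N M' Nx Ax Vx H gr hnd Db oV Ψ pN p p₂ yb hDb hio hΨ hbl hl3 hl2 xx s₀ s hxx hx
    hnsr hs₀0 hs₀' v hv lamL hlL0 hlL1 Dr hDr hs hC hmx N₁ hN₁ hgap hher hex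
  obtain ⟨K₁, d, ψ, hK₁, hψ, hd, hbas⟩ := hn1 R S1 S3 hκ hε H gr hnd hDb hio hΨ hbl hl3 hl2 hxx hx
    hnsr hs₀0 hs₀' hv hlL0 hlL1 hDr hs hC hmx
  refine ⟨K₁, d, hK₁, hd, ?_⟩
  intro K' n hK' kk yy x e₁' e₁ e₂' st lz jb ji w' ε' hε' hw' J₀ hfr hln
  have hq := R.q0
  have hr := gr.r0
  -- the gap
  obtain ⟨J₁, hJ₁⟩ := exists_nat_ge (2 / (((N - N₁ : ℕ) : ℝ) * (ρ * q) - lamL))
  have hgap' : 0 < ((N - N₁ : ℕ) : ℝ) * (ρ * q) - lamL := by linarith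
  obtain ⟨z1, z2, z3, z4⟩ := ball_zero R H gr
  obtain ⟨-, b2, -⟩ := box_in R z3 z4
  have hA : ∀ k ≤ N, nAA t q oW y ρ Ng P Ax (nι N M' k) = t + (oW + k * ρ) * q := by
    intro k hk
    rw [(ball_at R H gr (hk.trans (Nat.le_add_right _ _))).1, nι_le hk]
  refine hev (K := K') (n := n) (N := N) (N₁ := N₁) hK' hN₁ R.tmh R.ne (c := c) (Ψ := Ψ)
    (wn := t + oV * q) (w := w') (ε := ε') (K₁ := K₁) hε' hw' hK₁ hher ?_ hex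
    (W := fun J => ⌊(t + oW * q) * J⌋₊) (k := kk) (y := yy) (x := x)
    (g₃ := fun J => ⌊(L 3 (t + oW * q) (t + oW * q) - d 0 3) * J⌋₊) (e₁' := e₁') (e₁ := e₁)
    (e₂ := e₂') (st := st) (lz := lz) (s := fun J => C₀ * (⌊(s₀ + 3 * s) * J⌋₊ + 1))
    (v := fun J => ⌊v * J⌋₊ + 1)
    (y₀ := fun J => C * (⌊(s₀ + 3 * s) * J⌋₊ + ⌊v * J⌋₊ + 1)) (e := fun J => ⌊Eb 3 * J⌋₊)
    (X := fun J => C * (⌊(s₀ + 3 * s) * J⌋₊ + ⌊v * J⌋₊ + 1) + ⌊(Eb 3 + s) * J⌋₊ + ⌊xx * J⌋₊)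
    (Lx := fun J => ⌊lamL * J⌋₊ + 1)
    (A := fun J k => ⌊nAA t q oW y ρ Ng P Ax (nι N M' k) * J⌋₊)
    (ee := fun J _ => ⌊(Eb 3 + s) * J⌋₊)
    (g := fun J k l => ⌊(L l (nAA t q oW y ρ Ng P Ax (nι N M' k))
      (nWW t q oW ρ Ng P Vx (nι N M' k)) - d (nι N M' k) l) * J⌋₊) (jb := jb) (ji := ji) hbas
    (J₀ := max J₀ J₁) (fun J hJ => hfr J ((le_max_left _ _).trans hJ)) (fun J hJ => ?_)
    (fun J hJ => hln J ((le_max_left _ _).trans hJ))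
  · intro J F A' V z z' Gz hG
    have h1 := hΨ J F A' V z z' Gz hG
    exact ⟨fun v => (h1.deg v).trans (hDD'.trans (hDK.trans hK')),
      fun v b b' hn hb => h1.dep v b b' hn fun j hj => by
        rw [mem_image] at hj
        obtain ⟨l, hl, rfl⟩ := hj
        exact hb l (mem_range.1 hl), h1.cls⟩
  · have hJJ : (J₁ : ℝ) ≤ J := by exact_mod_cast (le_max_right _ _).trans hJ
    have h2 := hJ₁.trans hJJ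
    rw [div_le_iff₀ hgap'] at h2
    rw [hA N₁ hN₁, hA N le_rfl]
    have hJ0 : (0 : ℝ) ≤ J := Nat.cast_nonneg J
    have hlJ : 0 ≤ lamL * J := mul_nonneg hlL0 hJ0
    have hN1 : 0 ≤ (t + (oW + N₁ * ρ) * q) * J := by
      have : 0 ≤ (N₁ : ℝ) * ρ * q := by positivity
      refine mul_nonneg ?_ hJ0
      linarith
    rw [← Nat.cast_le (α := ℝ)]
    push_cast
    have f1 := Nat.floor_le hN1
    have f2 := Nat.floor_le hlJ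
    have f3 := Nat.lt_floor_add_one ((t + (oW + N * ρ) * q) * (J : ℝ))
    have e1 : (t + (oW + N * ρ) * q) * (J : ℝ) = (t + (oW + N₁ * ρ) * q) * J +
        ((N - N₁ : ℕ) : ℝ) * (ρ * q) * J := by
      rw [Nat.cast_sub hN₁]
      ring
    have e2 : J * (((N - N₁ : ℕ) : ℝ) * (ρ * q) - lamL) = ((N - N₁ : ℕ) : ℝ) * (ρ * q) * J -
        lamL * J := by ring
    rw [e2] at h2
    linarith

end Pool.STB
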