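import Pool.Agent.H98.STB.VrL

/-!
# The lists of the joint: all pairs of whole offsets, a fine grid

`prA`, `prV`: the radii and the windows of all pairs of whole offsets from `-1`. `lsn_all`: the lists
contain the nodes of every whole base window.
-/

set_option autoImplicit false

namespace Pool.STB

/-- The radii of all pairs. -/
noncomputable def prA (B k : ℕ) : ℝ := -1 + (max (k / B) (k % B) : ℕ)

/-- The windows of all pairs. -/
noncomputable def prV (B k : ℕ) : ℝ := -1 + (min (k / B) (k % B) : ℕ)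

/-- The fine grid from `-1`. -/
noncomputable def grV (M' k : ℕ) : ℝ := -1 + (k : ℝ) / M'

theorem pr_ex {B i j : ℕ} (hij : i ≤ j) (hj : j < B) : ∃ k < B * B, prA B k = -1 + j ∧
    prV B k = -1 + i := by
  have hB : 0 < B := by omega
  refine ⟨i * B + j, ?_, ?_, ?_⟩
  · calc i * B + j < i * B + B := by omega
      _ = (i + 1) * B := by ring
      _ ≤ B * B := Nat.mul_le_mul_right _ (by omega)
  · unfold prA
    rw [Nat.mul_comm, Nat.mul_add_div hB, Nat.mul_add_mod, Nat.div_eq_of_lt hj,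
      Nat.mod_eq_of_lt hj, add_zero, max_eq_right hij]
  · unfold prV
    rw [Nat.mul_comm, Nat.mul_add_div hB, Nat.mul_add_mod, Nat.div_eq_of_lt hj,
      Nat.mod_eq_of_lt hj, add_zero, min_eq_left hij]

theorem pr_bd {B : ℕ} {K : ℝ} (hB : (B : ℝ) ≤ K) (hK : 1 ≤ K) : ∀ k < B * B,
    -K ≤ prV B k ∧ prV B k ≤ prA B k ∧ prA B k ≤ K := by
  intro k hk
  have hB0 : 0 < B := by
    rcases Nat.eq_zero_or_pos B with h | h
    · subst h
      simp at hk
    · exact h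
  have h1 : k / B < B := (Nat.div_lt_iff_lt_mul hB0).2 hk
  have h2 : k % B < B := Nat.mod_lt _ hB0
  have h3 : ((min (k / B) (k % B) : ℕ) : ℝ) ≤ (max (k / B) (k % B) : ℕ) := by
    exact_mod_cast min_le_max
  have h4 : ((max (k / B) (k % B) : ℕ) : ℝ) ≤ B := by
    exact_mod_cast (max_lt h1 h2).le
  have h5 : (0 : ℝ) ≤ ((min (k / B) (k % B) : ℕ) : ℝ) := Nat.cast_nonneg _
  unfold prA prV
  refine ⟨by linarith, by linarith, by linarith⟩

theorem gr_bd {B M' : ℕ} {K : ℝ} (hB : (B : ℝ) ≤ K) (hK : 1 ≤ K) (hM : 1 ≤ M') :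
    ∀ k < B * M' + 1, -K ≤ grV M' k ∧ grV M' k ≤ K := by
  intro k hk
  have hM0 : (0 : ℝ) < M' := by exact_mod_cast hM
  have h1 : (k : ℝ) / M' ≤ B := by
    rw [div_le_iff₀ hM0]
    have : k ≤ B * M' := by omega
    exact_mod_cast this
  have h2 : (0 : ℝ) ≤ (k : ℝ) / M' := by positivity
  unfold grV
  exact ⟨by linarith, by linarith⟩

/-- **The lists contain the nodes** of every whole base window. -/
theorem lsn_all {B M' R₀ P Nx N₀ N' : ℕ} {A V V' : ℕ → ℝ} {K : ℝ} (hM : 1 ≤ M')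
    (hB : (B : ℝ) ≤ K) (hK : 1 ≤ K) (hR : R₀ + P + 1 < B) (hNx : Nx ≤ B)
    (h1 : ∀ k < B * B, ∃ j < N₀, A j = prA B k ∧ V j = prV B k)
    (h2 : ∀ k < B * M' + 1, ∃ j < N', V' j = grV M' k) :
    LsN (-1 + (R₀ : ℝ)) 1 (1 / M') ((P + 1) * M') P Nx (fun k => -1 + (k : ℝ)) (fun _ => -1) N₀ A V
      N' V' K := by
  have hM0 : (0 : ℝ) < M' := by exact_mod_cast hM
  have hpr : ∀ i j : ℕ, i ≤ j → j < B → ∃ k < N₀, A k = -1 + (j : ℝ) ∧ V k = -1 + (i : ℝ) := by
    intro i j hij hj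
    obtain ⟨k, hk, e1, e2⟩ := pr_ex hij hj
    obtain ⟨l, hl, e3, e4⟩ := h1 k hk
    exact ⟨l, hl, e3.trans e1, e4.trans e2⟩
  refine ⟨fun j hj => ?_, fun j hj1 hj2 => ?_, fun j hj => ?_, fun j hj => ?_, ?_, ?_⟩
  · have h3 : R₀ * M' + j < B * M' + 1 := by
      have h4 : R₀ * M' + j ≤ R₀ * M' + (P + 1) * M' := by omega
      have h5 : R₀ * M' + (P + 1) * M' = (R₀ + P + 1) * M' := by ring
      have h6 : (R₀ + P + 1) * M' ≤ B * M' := Nat.mul_le_mul_right _ hR.le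
      omega
    obtain ⟨k, hk, e⟩ := h2 _ h3
    refine ⟨k, hk, ?_⟩
    rw [e]
    unfold grV
    push_cast
    field_simp
    ring
  · obtain ⟨k, hk, e1, e2⟩ := hpr R₀ (R₀ + j) (by omega) (by omega)
    refine ⟨k, hk, ?_, e2⟩
    rw [e1]
    push_cast
    ring
  · obtain ⟨k, hk, e1, e2⟩ := hpr 0 j (Nat.zero_le _) (by omega)
    refine ⟨k, hk, e1, ?_⟩
    rw [e2, Nat.cast_zero, add_zero]
  · have h3 : (j : ℝ) ≤ B := by exact_mod_cast (show j ≤ B by omega)
    have h4 : (0 : ℝ) ≤ j := Nat.cast_nonneg j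
    exact ⟨by linarith, by linarith, by linarith⟩
  · have : (0 : ℝ) ≤ R₀ := Nat.cast_nonneg _
    linarith
  · have h3 : ((R₀ + P + 1 : ℕ) : ℝ) ≤ B := by exact_mod_cast hR.le
    push_cast at h3 ⊢
    linarith

/-- The grid numbers. -/
theorem grn_all {P pc M' : ℕ} (hM : 1 ≤ M') (hP : pc ≤ P) :
    GrN 1 (1 / M') ((P + 1) * M') P pc ((pc + 1) * M') M' := by
  have hM0 : (0 : ℝ) < M' := by exact_mod_cast hM
  exact ⟨hM, hP, rfl, rfl, by field_simp, by positivity⟩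

end Pool.STB
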