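import Pool.Agent.H19.FLN.Jnt

/-!
# Case (B): void, from the natural labels of small rate

`VmV`: no record with natural labels of small rate. `voidZ_B`: then the windows with `LowE` are void.
-/

set_option autoImplicit false

namespace Pool.STB

open Finset Real MvPolynomial
open Pool.Agent.H49.Ent Pool.Agent.H32.Dense Pool.STK Pool.KA Pool.KSAT Pool.K2S Pool.PB Pool.GEN
open Pool.S6C Pool.RCD Pool.LA91 Pool.OWN68 Pool.PKG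
open Pool.GRD (LbP)
open Pool.NPZ (Fm4 NpC NpH ChJ)
open Pool.V0F (LbU ChUQ AttUQ recG_lbf)
open Pool.FLN19 Pool.ALT

/-- **Void, small rate**: there is no record at small scale with natural labels of a family of small
rate `(1 - hb) b log 2` (`AlO`, windows `t - y₁ q` and `t`). -/
def VmV (r : ℕ) (h hb : ℝ) (Sl : ℕ → ℝ) (κ : ℕ → Kg) {ι : Type} (Q : PropG (r + 2) ι) : Prop :=
  ∀ al : ℝ, 0 < al → ∀ K₀ : ℝ, 0 < K₀ → ∀ S₀ : ℕ, 1 ≤ S₀ →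
  ∃ (Kr : ℝ) (Nr : ℕ) (Ar Vr : ℕ → ℝ), 1 ≤ Kr ∧ (∀ k < Nr, -Kr ≤ Vr k ∧ Vr k ≤ Ar k ∧ Ar k ≤ Kr) ∧
  ∀ S₂ : ℕ, S₀ ≤ S₂ → ∃ D₁ : ℕ, ∀ Db : ℕ, D₁ ≤ Db →
  ∃ y₁ R lam rr gg X g₂ dt₀ ℓ₀ : ℝ, 0 < y₁ ∧ 1 + y₁ ≤ R ∧ 0 < lam ∧ lam ≤ rr ∧ 0 < gg ∧
  0 < X ∧ X ≤ 1 ∧ 0 < g₂ ∧ 2 * X ≤ Sl (r + 1) * g₂ ∧ 0 < dt₀ ∧ 0 < ℓ₀ ∧
  lam + gg ≤ Sl (r + 1) * y₁ ∧ rr + gg ≤ Sl (r + 1) * (R + y₁) ∧
  ∀ dt ℓ : ℝ, 0 < dt → dt ≤ dt₀ → 0 < ℓ → ℓ ≤ ℓ₀ → ∃ h₁ : ℝ, 0 < h₁ ∧ ∀ hh : ℝ, 0 < hh → hh ≤ h₁ →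
  ∃ (K₁ : ℝ) (Nv : ℕ) (Vv : ℕ → ℝ), (∀ j < Nv, -K₁ ≤ Vv j ∧ Vv j ≤ K₁) ∧ ∀ K' : ℝ, K₁ ≤ K' →
  ∃ ε₀ : ℝ, 0 < ε₀ ∧ ∀ ε : ℝ, 0 < ε → ε ≤ ε₀ →
  ∀ (S : PCl (r + 2)) (g₀ : ℝ → ℝ) (P : List (Fin (r + 2)) × Fin (r + 2) → ℝ → ℝ → ℝ)
    (θ : ℝ) (P₂ : ℕ → List (Fin (r + 2)) × Fin (r + 2) → ℝ → ℝ → ℝ) (θ₂ Eb e₂ : ℕ → ℝ)
    (c : ℕ → Fin (r + 2)) (Pt : ℝ → ℝ → ℝ) (rt : ℝ → ℝ) (L T : ℕ → ℝ → ℝ → ℝ) (G : Set ℝ)
    (g : ℝ), IsClosed G → g ∈ G → (∀ l < r + 2, HasDerivAt (fun x => L l x x) (Sl l) g) →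
    ∃ (p : ℕ → ι) (M : ℕ) (B₀ B₁ : ℕ → ℝ),
    (∀ j < M, B₀ j < B₁ j) ∧ ∀ k₀ : ℕ → ℕ, (∀ j < M, Q (p j) (k₀ j) S P θ c Pt rt L T κ G g) →
    ∀ μ : ℝ, 0 < μ → ∃ q₁ : ℝ, 0 < q₁ ∧ ∀ (q t : ℝ) (x : ℕ → ℝ),
      q < q₁ → (∀ j < M, x j ∈ G ∧ t + B₀ j * q ≤ x j ∧ x j ≤ t + B₁ j * q ∧
        Q (p j) (k₀ j) S P θ c Pt rt L T κ G (x j)) →
      ∀ (N : ℕ) (A V : ℕ → ℝ) (Na : ℕ) (Va : ℕ → ℝ) (S₁ : PCl (r + 2)), SubC S₁ S →
      RecG S₁ al g₀ P θ P₂ θ₂ Eb e₂ c Pt rt h K₀ g L T Sl κ G S₀ N A V S₂ Na Va K' ε q t →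
      (∀ k < Na, |Va k| ≤ K') →
      (∀ k < Nr, ∃ j < N, A j = Ar k ∧ V j = Vr k) → (∀ k < Nv, ∃ j < Na, Va j = Vv k) →
      ∀ (i j : ℕ) (e₀ π₀ : ℝ) (Ψ : Fml (r + 2)) (w p₁ p₂ eN uN pN pa₁ pa₂ ea ua pa : ℝ),
      i < Na → j < Na → Va i = -y₁ → Va j = 0 →
      (∀ k < Na, μ ≤ L (r + 1) (t + Va k * q) (t + Va k * q) ∧
        μ ≤ L r (t + Va k * q) (t + Va k * q) ∧ L r (t + Va k * q) (t + Va k * q) + μ ≤ 1 ∧
        e₀ + L (r + 1) (t + Va k * q) (t + Va k * q) + μ ≤ 1 ∧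
        π₀ + μ ≤ L (r + 1) (t + Va k * q) (t + Va k * q) ∧
        L (r + 1) (t + Va k * q) (t + Va k * q) + L r (t + Va k * q) (t + Va k * q) + μ ≤
          1 + π₀) →
      AlO S₁ c L Db Na Va i j R hb dt lam rr ℓ g₂ X hh μ e₀ π₀ q t Ψ w p₁ p₂ eN uN pN pa₁ pa₂ ea
        ua pa → False

set_option maxHeartbeats 1000000 in
/-- **Void, small rate.** -/
theorem voidZ_B {r : ℕ} (hr : 1 ≤ r) {h hb β' : ℝ} {Sl : ℕ → ℝ} {κ : ℕ → Kg} {ι : Type}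
    {Q : PropG (r + 2) ι} {Dv : ℕ} (hb0 : 0 < hb) (hb1 : hb ≤ 1)
    (hβ : β' ≤ (1 - hb) * Sl (r + 1) * Real.log 2) (hs : 0 < Sl (r + 1))
    (hV : VmV r h hb Sl κ Q) :
    VoidZ (r + 2) h Sl κ (sumQ Q (sumQ (ChUQ : PropG (r + 2) Unit)
      (AttUQ : PropG (r + 2) Unit)))
      (fun e : PosR => LowE (AdmL (r + 2)) β' Dv e) := by
  classical
  intro al hal K₀ hK₀ S₀ hS₀
  obtain ⟨Kr, Nr, Ar, Vr, hKr, hAV, hV⟩ := hV al hal K₀ hK₀ S₀ hS₀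
  obtain ⟨D₀, hD₀, halo⟩ := alo_rec r S₀ hS₀
  obtain ⟨Kl, hKl, hlbf⟩ := recG_lbf (r + 2) S₀ (by omega) hS₀
  refine ⟨Kr, Nr, Ar, Vr, hKr, hAV, fun S₂ hS₂ => ?_⟩
  obtain ⟨D₁, hV⟩ := hV S₂ hS₂
  obtain ⟨Db, hDb⟩ : ∃ Db : ℕ, Db = max D₀ (max D₁ Dv) := ⟨_, rfl⟩
  have hDb2 : D₀ ≤ Db := by rw [hDb]; exact le_max_left _ _
  have hDb3 : D₁ ≤ Db := by rw [hDb]; exact (le_max_left _ _).trans (le_max_right _ _)
  have hDb4 : Dv ≤ Db := by rw [hDb]; exact (le_max_right _ _).trans (le_max_right _ _)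
  obtain ⟨y₁, R, lam, rr, gg, X, g₂, dt₀, ℓ₀, hy₁, hyR, hlam, hrr, hgg, hX, hX1, hg₂,
    hXg, hdt₀, hℓ₀, hly, hrR, hV⟩ := hV Db hDb3
  obtain ⟨b, hbd⟩ : ∃ b : ℝ, b = Sl (r + 1) := ⟨_, rfl⟩
  rw [← hbd] at hβ hs hly hrR hXg
  have hr0 : (0 : ℝ) ≤ r := Nat.cast_nonneg r
  have hR0 : 0 < R := by linarith only [hyR, hy₁]
  obtain ⟨ℓ, h₁, ε₁, e₁, hℓ, hℓ₁, hh₁, hε₁, he₁, halo⟩ := halo Db hDb2 (b := b) (h := hb)
    (δ := dt₀) (lam := lam) (rr := rr) (gg := gg) (R := R) (K₁ := K₀) (ℓ₀ := ℓ₀) (X := X)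
    (g₂ := g₂) hs hb0 hb1 hdt₀ hlam hrr hgg hR0.le hK₀.le hℓ₀ hX hg₂ hXg
  obtain ⟨h₂, hh₂, hV⟩ := hV dt₀ ℓ hdt₀ le_rfl hℓ hℓ₁
  obtain ⟨hh, hhd⟩ : ∃ hh : ℝ, hh = min h₁ h₂ := ⟨_, rfl⟩
  have hhh : 0 < hh := by
    rw [hhd]
    exact lt_min hh₁ hh₂
  have hhh1 : hh ≤ h₁ := by
    rw [hhd]
    exact min_le_left _ _
  obtain ⟨K₁, Nv, Vv, hVv, hV⟩ := hV hh hhh (by
    rw [hhd]
    exact min_le_right _ _)
  -- the windows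
  obtain ⟨Va, hVa⟩ : ∃ Va : ℕ → ℝ, Va = fun k => if k < Nv then Vv k else if k = Nv then -y₁ else
    0 := ⟨_, rfl⟩
  have v0 : ∀ k < Nv, Va k = Vv k := fun k hk => by rw [hVa]; simp only [hk, if_true]
  have v1 : Va Nv = -y₁ := by rw [hVa]; simp
  have v2 : Va (Nv + 1) = 0 := by rw [hVa]; simp
  obtain ⟨K₂, hK₂⟩ : ∃ K₂ : ℝ, K₂ = max (max K₁ (R + 1)) (max (K₀ + 1) Kr) := ⟨_, rfl⟩
  have hKa : K₁ ≤ K₂ := by rw [hK₂]; exact (le_max_left _ _).trans (le_max_left _ _)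
  have hKb : R + 1 ≤ K₂ := by rw [hK₂]; exact (le_max_right _ _).trans (le_max_left _ _)
  have hKd : K₀ + 1 ≤ K₂ := by rw [hK₂]; exact (le_max_left _ _).trans (le_max_right _ _)
  have hKc : Kr ≤ K₂ := by rw [hK₂]; exact (le_max_right _ _).trans (le_max_right _ _)
  obtain ⟨Nn, hNn⟩ : ∃ Nn : ℕ, Nn = Nv + 2 := ⟨_, rfl⟩
  have hVaK : ∀ k < Nn, -K₂ ≤ Va k ∧ Va k ≤ K₂ := by
    intro k hk
    rcases Nat.lt_or_ge k Nv with h1 | h1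
    · rw [v0 k h1]
      obtain ⟨h2, h3⟩ := hVv k h1
      exact ⟨by linarith only [h2, hKa], by linarith only [h3, hKa]⟩
    · obtain ⟨j, rfl⟩ : ∃ j, k = Nv + j := ⟨k - Nv, by omega⟩
      have hj : j < 2 := by omega
      interval_cases j
      · rw [Nat.add_zero, v1]
        exact ⟨by linarith only [hKb, hyR], by linarith only [hKb, hyR, hy₁]⟩
      · rw [v2]
        exact ⟨by linarith only [hKb, hyR, hy₁], by linarith only [hKb, hyR, hy₁]⟩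
  obtain ⟨ε₀, hε₀, hV⟩ := hV K₂ hKa
  refine ⟨⟨e₁, he₁⟩, K₂, Nn, Va, hKc, hVaK, min ε₀ ε₁, by positivity, ?_⟩
  have hεa : min ε₀ ε₁ ≤ ε₀ := min_le_left _ _
  have hεb : min ε₀ ε₁ ≤ ε₁ := min_le_right _ _
  have hε : 0 < min ε₀ ε₁ := by positivity
  obtain ⟨ε, hεd⟩ : ∃ ε, ε = min ε₀ ε₁ := ⟨_, rfl⟩
  rw [← hεd] at hεa hεb hε ⊢
  intro S g₀ P θ P₂ θ₂ Eb e₂ c Pt rt L T G g hG hg hder hZ
  obtain ⟨i₀, ⟨a1, a2, a3, a4, a5, a6, a7⟩, hiD, φ₁, k₂, hφ10, hφ11, hrt⟩ := hZ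
  have hK'0 : K₀ ≤ K₂ := by linarith only [hKd]
  have hK'p : 0 < K₂ := by linarith only [hK'0, hK₀]
  by_cases hpos : 0 < L (r + 1) g g
  swap
  · obtain ⟨q₁, hq₁, H⟩ := rec_pos (by omega : r + 1 < r + 2) (hder (r + 1) (by omega)) hK₀ hK'0
      hpos
    exact ⟨fun _ => Sum.inr (Sum.inl ()), 0, fun _ => 0, fun _ => 1, fun j hj => by omega,
      fun k₀ _ => ⟨q₁, hq₁, fun q t x hq _ R => (H hq R).elim⟩⟩
  by_cases hposu : 0 < L r g g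
  swap
  · obtain ⟨q₁, hq₁, H⟩ := rec_pos (by omega : r < r + 2) (hder r (by omega)) hK₀ hK'0 hposu
    exact ⟨fun _ => Sum.inr (Sum.inl ()), 0, fun _ => 0, fun _ => 1, fun j hj => by omega,
      fun k₀ _ => ⟨q₁, hq₁, fun q t x hq _ R => (H hq R).elim⟩⟩
  have e1 : r + 2 - 1 = r + 1 := rfl
  have e2 : r + 2 - 2 = r := rfl
  rw [e1] at a1 a5 a6 a7
  rw [e2] at a2 a7
  obtain ⟨μ₁, d, hμ₁, hd, hmar⟩ := mar_lin (hder r (by omega)) (hder (r + 1) (by omega)) hpos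
    hposu a5 a6 a7
  obtain ⟨p, M, B₀, B₁, hB, hV⟩ := hV ε hε hεa S g₀ P θ P₂ θ₂ Eb e₂ c Pt rt L T G g hG hg hder
  refine ⟨fun j => if j < M then Sum.inl (p j) else if j = M then Sum.inr (Sum.inl ()) else
    Sum.inr (Sum.inr ()), M + 2, fun j => if j < M then B₀ j else 0,
    fun j => if j < M then B₁ j else 1, fun j hj => ?_, fun k₀ hk₀ => ?_⟩
  · by_cases h4 : j < M
    · simp only [h4, if_true]
      exact hB j h4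
    · simp only [h4, if_false]
      exact one_pos
  have hch : ChUQ (n := r + 2) () (k₀ M) S P θ c Pt rt L T κ G g := by
    have h4 := hk₀ M (by omega)
    simp only [lt_irrefl, if_false, if_true] at h4
    exact h4
  have hat : AttUQ (n := r + 2) () (k₀ (M + 1)) S P θ c Pt rt L T κ G g := by
    have h4 := hk₀ (M + 1) (by omega)
    simp only [show ¬ M + 1 < M by omega, show ¬ M + 1 = M by omega, if_false] at h4
    exact h4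
  obtain ⟨μ, hμ⟩ : ∃ μ : ℝ, μ = min μ₁ ((1 / 2) ^ k₀ (M + 1)) := ⟨_, rfl⟩
  have hμ0 : 0 < μ := by rw [hμ]; positivity
  have hμa : μ ≤ μ₁ := by rw [hμ]; exact min_le_left _ _
  have hμb : μ ≤ (1 / 2) ^ k₀ (M + 1) := by rw [hμ]; exact min_le_right _ _
  obtain ⟨q₁, hq₁, hV⟩ := hV k₀ (fun j hj => by
    have h4 := hk₀ j (by omega)
    simp only [hj, if_true] at h4
    exact h4) μ hμ0
  have hKK : 0 < K₂ + K₀ := by linarith only [hK'p, hK₀]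
  have hKK3 : 0 < 3 * K₂ + K₀ := by linarith only [hK'p, hK₀]
  have hb8 : 0 < 8 * b + 8 * rr := by linarith only [hs, hrr, hlam]
  have hKR : 0 < K₀ + R + 1 := by linarith only [hK₀, hR0]
  refine ⟨min q₁ (min (min (d / (K₂ + K₀)) ((1 / 2) ^ k₂ / (K₀ + R + 1))) (min
    (μ / (8 * b + 8 * rr)) (min ((1 / 2) ^ k₀ (M + 1) / (3 * K₂ + K₀)) μ))), by positivity,
    fun q t x hq hx Ra => ?_⟩
  have q1 := hq.trans_le (min_le_left _ _)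
  have q2 := hq.trans_le ((min_le_right _ _).trans ((min_le_left _ _).trans (min_le_left _ _)))
  have q3 := hq.trans_le ((min_le_right _ _).trans ((min_le_left _ _).trans (min_le_right _ _)))
  have q4 := hq.trans_le ((min_le_right _ _).trans ((min_le_right _ _).trans (min_le_left _ _)))
  have q5 := hq.trans_le ((min_le_right _ _).trans ((min_le_right _ _).trans
    ((min_le_right _ _).trans (min_le_left _ _))))
  have q6 := hq.trans_le ((min_le_right _ _).trans ((min_le_right _ _).trans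
    ((min_le_right _ _).trans (min_le_right _ _))))
  rw [lt_div_iff₀ hKK] at q2
  rw [lt_div_iff₀ hKK3] at q5
  rw [lt_div_iff₀ hKR] at q3
  rw [lt_div_iff₀ hb8] at q4
  have hq0 := Ra.q0
  have h9 : 0 < K₂ * q := mul_pos hK'p hq0
  have h10 : 0 < K₀ * q := mul_pos hK₀ hq0
  have hnear := Ra.near
  have hVaA : ∀ k < Nn, |Va k| ≤ K₂ := fun k hk => by
    obtain ⟨h2, h3⟩ := hVaK k hk
    exact abs_le.2 ⟨by linarith only [h2], by linarith only [h3]⟩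
  have hwd : ∀ k < Nn, |t + Va k * q - g| ≤ (K₂ + K₀) * q := by
    intro k hk
    have h1 : |Va k * q| ≤ K₂ * q := by
      rw [abs_mul, abs_of_pos hq0]
      exact mul_le_mul_of_nonneg_right (hVaA k hk) hq0.le
    calc |t + Va k * q - g| = |(t - g) + Va k * q| := by congr 1; ring
      _ ≤ |t - g| + |Va k * q| := abs_add_le _ _
      _ ≤ K₀ * q + K₂ * q := add_le_add hnear h1
      _ = (K₂ + K₀) * q := by ring
  have hmw : ∀ k < Nn, μ ≤ L (r + 1) (t + Va k * q) (t + Va k * q) ∧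
      μ ≤ L r (t + Va k * q) (t + Va k * q) ∧ L r (t + Va k * q) (t + Va k * q) + μ ≤ 1 ∧
      i₀.2.1 + L (r + 1) (t + Va k * q) (t + Va k * q) + μ ≤ 1 ∧
      i₀.2.2.2 + μ ≤ L (r + 1) (t + Va k * q) (t + Va k * q) ∧
      L (r + 1) (t + Va k * q) (t + Va k * q) + L r (t + Va k * q) (t + Va k * q) + μ ≤
        1 + i₀.2.2.2 := by
    intro k hk
    obtain ⟨b1, b2, b3, b4, b5, b6⟩ := hmar (t + Va k * q) ((hwd k hk).trans (by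
      linarith only [q2]))
    exact ⟨by linarith only [hμa, b1], by linarith only [hμa, b2], by linarith only [hμa, b3],
      by linarith only [hμa, b4], by linarith only [hμa, b5], by linarith only [hμa, b6]⟩
  have hn0 : Nv < Nn := by omega
  have hn1 : Nv + 1 < Nn := by omega
  -- the labels of the chain
  obtain ⟨S₁, hs₁, R₁, hlab⟩ := hlbf Ra hK'p hVaA (le_refl (3 * K₂ * q)) (fun k hk => by
      obtain ⟨rd, -, h2⟩ := hch _ (Ra.memG.2 k hk)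
      exact ⟨rd, h2⟩) (fun k hk => by
      obtain ⟨rk, E, h1, h2, h3, h4, h5⟩ := hat _ (Ra.memG.2 k hk) ((hwd k hk).trans (by
        linarith only [q5, h9]))
      refine ⟨rk, E, h3, ?_, fun e he => ?_⟩
      · show E + L (r + 2 - 1) _ _ + 3 * K₂ * q ≤ 1
        linarith only [h4, h10, q5]
      · exact h5 e he)
  -- the natural labels
  have hXq : X * q ≤ μ := by
    have h1 : X * q ≤ 1 * q := mul_le_mul_of_nonneg_right hX1 hq0.le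
    linarith only [h1, q6]
  have hs1 : SubC S₁ S := fun τ J F A h => hs₁ τ J F A h
  have hat' : ∀ k ≥ k₂, AltAt S₁ ((range (r + 1)).image c) ((range r).image c) (c (r + 1))
      i₀.1.2.2 i₀.2.1 i₀.2.2.1 i₀.2.2.2 (fun w => L (r + 1) w w) g φ₁ e₁ k := by
    intro k hk
    have h4 := hrt k hk
    rw [a1, a2] at h4
    exact h4.sub hs1
  obtain ⟨S₂', hs₂, R₂, Ψ, w, p₁, p₂, eN, uN, pN, pa₁, pa₂, ea, ua, pa, H⟩ := halo hh hhh hhh1 R₁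
    hbd.symm hKb hεb hVaA (fun k hk => by
      obtain ⟨rd, -, h2⟩ := hch _ (R₁.memG.2 k hk)
      exact ⟨rd, h2.sub hs1⟩) (μ := μ) (fun k hk => by
      obtain ⟨rk, E, c1, c2, c3, c4, c5⟩ := hat _ (R₁.memG.2 k hk) ((hwd k hk).trans (by
        linarith only [q5, h9]))
      exact ⟨E, rk, c3, by
        have c4' : E + L (r + 1) (t + Va k * q) (t + Va k * q) ≤ 1 - (1 / 2) ^ k₀ (M + 1) := c4
        linarith only [c4', hμb], (hmw k hk).2.2.1, c5.sub hs1⟩) (x := g) (e₀ := i₀.2.1)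
    (ρ₀ := i₀.2.2.1) (π₀ := i₀.2.2.2) (φ := φ₁) (e := e₁) (Kf := i₀.1.2.2) (k₁ := k₂) hnear
    (hiD.trans hDb4) he₁ le_rfl (hφ11.trans hβ) hat' (by linarith only [q3])
    (by exact_mod_cast a4) (by exact_mod_cast a3) hμ0 (by linarith only [q4]) (i := Nv)
    (j := Nv + 1) hn0 hn1 (by
      rw [v1, abs_neg, abs_of_pos hy₁]
      linarith only [hyR]) (by
      rw [v2, abs_zero]
      linarith only [hR0]) (by
      rw [v1, v2]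
      linarith only [hly]) (by
      rw [v1]
      linarith only [hrR]) (hmw Nv hn0).1 (by
      have h1 := (hmw (Nv + 1) hn1).2.2.2.1
      linarith only [h1])
    (by
      have h1 := (hmw Nv hn0).2.2.2.2.1
      linarith only [h1, hμ0]) (by
      have h1 := (hmw Nv hn0).2.2.2.2.2
      linarith only [h1, hμ0])
    (by
      have h1 := (hmw (Nv + 1) hn1).2.2.2.2.2
      linarith only [h1, hμ0])
  have hs3 : SubC S₂' S := fun τ J F A h => hs1 τ J F A (hs₂ τ J F A h)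
  exact hV q t x q1 (fun j hj => by
      obtain ⟨h4, h5, h6, h7⟩ := hx j (by omega)
      simp only [hj, if_true] at h5 h6 h7
      exact ⟨h4, h5, h6, h7⟩) Nr Ar Vr Nn Va S₂' hs3 R₂ hVaA
    (fun k hk => ⟨k, hk, rfl, rfl⟩)
    (fun k hk => ⟨k, by omega, v0 k hk⟩) Nv (Nv + 1) i₀.2.1 i₀.2.2.2 Ψ w p₁ p₂ eN uN pN pa₁ pa₂ ea
    ua pa hn0 hn1 v1 v2 hmw H

end Pool.STB
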