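import Pool.Agent.H98.STB.VcH

/-!
# Case (B), a static target at a record: void, the natural labels of the alternative

`void_alo`: `void_core` for the natural labels `NzF` of the output `AlO` of the alternative.
-/

set_option autoImplicit false

namespace Pool.STB

open Finset Real MvPolynomial
open Pool.Agent.H49.Ent Pool.Agent.H32.Dense Pool.STK Pool.KA Pool.KSAT Pool.K2S Pool.PB Pool.S6C
open Pool.GEN Pool.RCD Pool.LA91 Pool.PKG Pool.CHT Pool.CHX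
open Pool.GRD (LbP)
open Pool.ALT (Fml BlB xa ya AlO NzF)
open Pool.STB77 (NodF)
open Pool.STB65 (NsR NsQ MxS)

/-- **A static target of natural slope is void** at a record, for the natural labels. -/
theorem void_alo (D b : ℕ) (hD : 1 ≤ D) (hb : 1 ≤ b) {h₀ y0 : ℝ} (hh0 : 0 < h₀) (hh1 : h₀ ≤ 1)
    (hy0 : 0 < y0) : ∃ (C₀ D' n : ℕ) (v s₁ : ℝ), 1 ≤ C₀ ∧ D ≤ D' ∧ 0 < n ∧ 0 < v ∧ v ≤ y0 ∧
    0 < s₁ ∧ s₁ ≤ v ∧ ∀ Rg xq : ℝ, 0 ≤ xq → ∃ K₁ : ℝ, 1 ≤ K₁ ∧ ∀ {S : PCl 4} {al : ℝ}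
    {g₀ : ℝ → ℝ} {P₀ : List (Fin 4) × Fin 4 → ℝ → ℝ → ℝ} {θ : ℝ}
    {P₂ : ℕ → List (Fin 4) × Fin 4 → ℝ → ℝ → ℝ} {θ₂ Eb e₂ : ℕ → ℝ}
    {c : ℕ → Fin 4} {Pt : ℝ → ℝ → ℝ} {r : ℝ → ℝ} {h Kn g : ℝ} {L T : ℕ → ℝ → ℝ → ℝ}
    {Sl : ℕ → ℝ} {κ : ℕ → Kg} {G : Set ℝ} {S₀ N₀ : ℕ} {A V : ℕ → ℝ} {S₂ N' : ℕ} {V' : ℕ → ℝ}
    {K ε q t : ℝ}
    (_ : RecG S al g₀ P₀ θ P₂ θ₂ Eb e₂ c Pt r h Kn g L T Sl κ G S₀ N₀ A V S₂ N' V' K ε q t)
    (_ : K₁ ≤ K) (_ : 0 ≤ ε) (_ : 16 * ε ≤ v) (_ : Sl 1 = 1) (_ : Sl 3 = b) (_ : κ 3 = .sta)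
    {oW ρ : ℝ} {Ng P pc N M'' Nx : ℕ} {Ax Vx : ℕ → ℝ} (_ : |oW| ≤ Rg) (_ : ρ ≤ s₁)
    (_ : LsN oW y0 ρ Ng P Nx Ax Vx N₀ A V N' V' K)
    (_ : GrN y0 ρ Ng P pc N ((n + 4) * M''))
    (_ : ∀ k < Ng + P + 2 + Nx, NodF S c 3 D L (Eb 3) (Eb 3) (nAA t q oW y0 ρ Ng P Ax k)
      (nWW t q oW ρ Ng P Vx k))
    {Db i j : ℕ} {Rr δ lam rr ℓ g₂ X η μ e₀ π₀ : ℝ} {Ψ : Fml 4}
    {w p₁ p₂ eN uN pN pa₁ pa₂ ea ua pa : ℝ}
    (_ : AlO (r₀ := 2) S c L Db N' V' i j Rr h₀ δ lam rr ℓ g₂ X η μ e₀ π₀ q t Ψ w p₁ p₂ eN uN pN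
      pa₁ pa₂ ea ua pa) (_ : Db * max 1 Db ≤ D) (_ : 0 < η) (_ : 0 ≤ X) (_ : 0 ≤ g₂)
    (_ : V' i + g₂ ≤ oW) (_ : -Rr ≤ oW) (_ : oW + ((P + 1 : ℕ) : ℝ) * y0 + g₂ ≤ Rr)
    (_ : X * q ≤ μ) (_ : 0 ≤ μ) (_ : ∀ k < N', X * q ≤ L 2 (t + V' k * q) (t + V' k * q) ∧
      e₀ + L 3 (t + V' k * q) (t + V' k * q) < 1 ∧
      L 3 (t + V' k * q) (t + V' k * q) + L 2 (t + V' k * q) (t + V' k * q) + X * q ≤ 1 + π₀)
    {s₀ s sr : ℝ} (_ : |V' i| ≤ K)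
    (_ : 0 ≤ δ * lam) (_ : b * (oW - V' i) + δ * lam + 2 * ε ≤ xq)
    (_ : (X + 2 * η + 4 * ε) * q ≤ s₀) (_ : 4 * (η * q) ≤ t - K * q)
    (_ : 0 < sr) (_ : sr ≤ s₁) (_ : s = sr * q) (_ : s₀ ≤ sr * q)
    {lamL : ℝ} (_ : 0 ≤ lamL) (_ : lamL ≤ L 3 (t + oW * q) (t + oW * q))
    (_ : lamL < pc * y0 * q) {Dr : ℕ} (_ : D' ≤ Dr)
    (_ : b * (oW - V' i) + b * y0 + y0 + 2 * ε ≤ rr)
    (_ : 64 * (n + 4) * (δ * lam) ≤ h₀ * y0 * Real.log 2)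
    (_ : ∀ k < N', FulC S c 0 2 (t + V' k * q) (fun l => L l (t + V' k * q) (t + V' k * q)))
    (_ : NsQ C₀ N (N + (P - pc)) (L 3 (nAA t q oW y0 ρ Ng P Ax (nι N ((n + 4) * M'') 0))
          (nWW t q oW ρ Ng P Vx (nι N ((n + 4) * M'') 0)) +
        b * (nAA t q oW y0 ρ Ng P Ax (nι N ((n + 4) * M'') N) -
          nAA t q oW y0 ρ Ng P Ax (nι N ((n + 4) * M'') 0)) - lamL)
      L (nAA t q oW y0 ρ Ng P Ax) (nWW t q oW ρ Ng P Vx) (nι N ((n + 4) * M'')) (nσ Ng pc N)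
      (fun k => L 3 (nAA t q oW y0 ρ Ng P Ax (nι N ((n + 4) * M'') k))
        (nAA t q oW y0 ρ Ng P Ax (nι N ((n + 4) * M'') k)) - 2 * (η * q))
      (fun k => L 2 (nAA t q oW y0 ρ Ng P Ax (nι N ((n + 4) * M'') k))
        (nAA t q oW y0 ρ Ng P Ax (nι N ((n + 4) * M'') k)) -
        L 3 (nAA t q oW y0 ρ Ng P Ax (nι N ((n + 4) * M'') k))
        (nAA t q oW y0 ρ Ng P Ax (nι N ((n + 4) * M'') k)) + X * q) s₀ s ∨
        MxS S c D Dr (Ng + P + 2 + Nx) L (Eb 3) (Eb 3) s s₀ (t + V' i * q)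
        (nAA t q oW y0 ρ Ng P Ax) (nWW t q oW ρ Ng P Vx) (nσ Ng pc N N)
        (L 3 (nAA t q oW y0 ρ Ng P Ax (nι N ((n + 4) * M'') 0))
          (nWW t q oW ρ Ng P Vx (nι N ((n + 4) * M'') 0)) +
          b * (nAA t q oW y0 ρ Ng P Ax (nι N ((n + 4) * M'') N) -
            nAA t q oW y0 ρ Ng P Ax (nι N ((n + 4) * M'') 0)) - lamL)
        (NzF Ψ c 2 (c 3) Db Db Db w (t + V' i * q) p₁ p₂ eN uN pN)), False := by
  obtain ⟨C₀, D', n, v, s₁, hC₀, hDD', hn, hv0, hvy, hs₁, hsv, hcore⟩ :=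
    void_core D b hD hb hh0 hh1 hy0
  refine ⟨C₀, D', n, v, s₁, hC₀, hDD', hn, hv0, hvy, hs₁, hsv, fun Rg xq hxq => ?_⟩
  obtain ⟨K₁, hK₁, hcore⟩ := hcore Rg xq hxq
  refine ⟨K₁, hK₁, ?_⟩
  intro S al g₀ P₀ θ P₂ θ₂ Eb e₂ c Pt r h Kn g L T Sl κ G S₀ N₀ A V S₂ N' V' K ε q t R hKK hε hεv
    S1 S3 hκ oW ρ Ng P pc N M'' Nx Ax Vx hoW hρ H gr hnd Db i j Rr δ lam rr ℓ g₂ X η μ e₀ π₀ Ψ w
    p₁ p₂ eN uN pN pa₁ pa₂ ea ua pa O hDb hη hX hg₂ hio hRo hRp hXμ hμ hmar s₀ s sr hVi hδl hx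
    hs₀ hηt hsr hsr1 hs hs0q lamL hlL0 hlL1 hlL2 Dr hDr hrr hdl hful hmx
  have hq := R.q0
  have hL3 : ∀ x, L (2 + 1) x x = L 3 x x := fun _ => rfl
  have hηq : 0 < η * q := by positivity
  have hεq : 0 ≤ ε * q := by positivity
  have hXq : 0 ≤ X * q := by positivity
  have hr := gr.r0
  have hy := gr.y0
  have hb0 : (0 : ℝ) ≤ b := Nat.cast_nonneg b
  have hn4 : (0 : ℝ) < (n : ℝ) + 4 := by positivity
  have hlog : 0 < Real.log 2 := Real.log_pos one_lt_two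
  obtain ⟨z1, z2, z3, z4⟩ := ball_zero R H gr
  obtain ⟨w1, w2, w3⟩ := box_in R z3 z4
  have h34 : (3 : ℕ) < 4 := by norm_num
  -- the data at a ball
  have hbl : ∀ k ≤ N + (P - pc), ∃ k' < N', nAA t q oW y0 ρ Ng P Ax
      (nι N ((n + 4) * M'') k) = t + V' k' * q ∧
      V' i + g₂ ≤ V' k' ∧ |V' k'| ≤ Rr ∧ V' k' + g₂ ≤ Rr ∧ |t + V' k' * q - t| ≤ K * q := by
    intro k hk
    obtain ⟨h1, h2, h3, h4⟩ := ball_at R H gr hk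
    obtain ⟨k', hk', e1⟩ := H.grid _ (gr.ι_le hk)
    have h5 : 0 ≤ ((nι N ((n + 4) * M'') k : ℕ) : ℝ) * ρ := by positivity
    have h6 : oW + ((nι N ((n + 4) * M'') k : ℕ) : ℝ) * ρ ≤ oW + ((P + 1 : ℕ) : ℝ) * y0 := by
      have h7 : ((nι N ((n + 4) * M'') k : ℕ) : ℝ) * ρ ≤ (Ng : ℝ) * ρ :=
        mul_le_mul_of_nonneg_right (by exact_mod_cast gr.ι_le hk) hr.le
      have h8 : (Ng : ℝ) * ρ = ((P + 1 : ℕ) : ℝ) * y0 := by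
        rw [gr.hg, gr.yr]
        push_cast
        ring
      linarith
    refine ⟨k', hk', by rw [h1, e1], by rw [e1]; linarith, abs_le.2 ?_, by rw [e1]; linarith, ?_⟩
    · rw [e1]
      exact ⟨by linarith, by linarith⟩
    · rw [e1]
      exact (box_in R h3 h4).1
  have hΨ : ∀ (J : ℕ) (F : Fam 4 J) (A : F.Ω → Prop) (V : Type) (z : PtT F → V) (z' : LnT F → V)
      (G : V → MvPolynomial (Option (Fin 4)) ℝ),
      NzF Ψ c 2 (c 3) Db Db Db w (t + V' i * q) p₁ p₂ eN uN pN J F A V z z' G →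
      LbP F ((range 3).image c) (c 3) D J ⌊(t + V' i * q) * J⌋₊ ⌊pN * J⌋₊ A z z' G := by
    intro J F A V z z' G hG
    have h1 := Pool.GRD.LbP.of hG.lb
    rw [max_self] at h1
    exact { h1 with deg := fun v => (h1.deg v).trans hDb }
  obtain ⟨v1, -, -⟩ := box_in R (o := V' i) (by linarith [(abs_le.1 hVi).1]) (abs_le.1 hVi).2
  have hlab : ∀ k ≤ N + (P - pc),
      (∃ χ : ℝ, 0 < χ ∧ Bas S (fun J F A => ∃ (P₁ : ℕ) (V₁ : Type) (z₁ : PtT F → V₁)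
      (z₁' : LnT F → V₁) (G₁ : V₁ → MvPolynomial (Option (Fin 4)) ℝ),
      LbP F ((range 3).image c) (c 3) Db J
        ⌊nAA t q oW y0 ρ Ng P Ax (nι N ((n + 4) * M'') k) * J⌋₊ P₁ A z₁ z₁'
        G₁ ∧ (L 3 (nAA t q oW y0 ρ Ng P Ax (nι N ((n + 4) * M'') k))
          (nAA t q oW y0 ρ Ng P Ax (nι N ((n + 4) * M'') k)) -
        2 * (η * q) + χ) * J ≤ P₁)) ∧ (∃ χ : ℝ, 0 < χ ∧ Bas S (fun J F A => ∃ (P₁ : ℕ)
      (V₁ : Type) (z₁ : PtT F → V₁)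
      (z₁' : LnT F → V₁) (G₁ : V₁ → MvPolynomial (Option (Fin 4)) ℝ),
      LbP F ((range 2).image c) (c 2) Db J
        ⌊nAA t q oW y0 ρ Ng P Ax (nι N ((n + 4) * M'') k) * J⌋₊ P₁ A z₁ z₁'
        G₁ ∧ (L 2 (nAA t q oW y0 ρ Ng P Ax (nι N ((n + 4) * M'') k))
          (nAA t q oW y0 ρ Ng P Ax (nι N ((n + 4) * M'') k)) -
        2 * (η * q) + χ) * J ≤ P₁)) := by
    intro k hk
    obtain ⟨k', hk', e1, b1, b2, b3, b4⟩ := hbl k hk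
    obtain ⟨E', Eu, hl⟩ := O.lab k' hk'
    have d1 := R.low_at (i := 3) (by norm_num) (a := t + V' k' * q) (w := t + V' k' * q)
      (by have := (abs_le.1 b4).1; have := R.t0; linarith) le_rfl
      (by have := (abs_le.1 b4).2; have := R.t1; linarith)
    have d2 := R.low_at (i := 2) (by norm_num) (a := t + V' k' * q) (w := t + V' k' * q)
      (by have := (abs_le.1 b4).1; have := R.t0; linarith) le_rfl
      (by have := (abs_le.1 b4).2; have := R.t1; linarith)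
    have d3 := (abs_le.1 b4).1
    have := alw_lab (p := L 3 (t + V' k' * q) (t + V' k' * q) - 2 * (η * q))
      (p₂ := L 2 (t + V' k' * q) (t + V' k' * q) - 2 * (η * q)) hl hηq
      (by linarith [hL3 (t + V' k' * q)]) (by linarith) (by linarith) (by linarith)
    rw [← e1] at this
    exact this
  have hVo : 0 ≤ (b : ℝ) * (oW - V' i) := mul_nonneg hb0 (by linarith)
  have hs4 : 4 * ε * q ≤ s₀ := by
    have : (X + 2 * η + 4 * ε) * q = X * q + 2 * (η * q) + 4 * ε * q := by ring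
    linarith
  refine hcore R hKK hε hεv S1 S3 hκ hoW hρ H gr hnd (Db := Db) (oV := V' i)
    (Ψ := NzF Ψ c 2 (c 3) Db Db Db w (t + V' i * q) p₁ p₂ eN uN pN) (pN := pN)
    (p := fun k => L 3 (nAA t q oW y0 ρ Ng P Ax (nι N ((n + 4) * M'') k))
        (nAA t q oW y0 ρ Ng P Ax (nι N ((n + 4) * M'') k)) - 2 * (η * q))
    (p₂ := fun k => L 2 (nAA t q oW y0 ρ Ng P Ax (nι N ((n + 4) * M'') k))
        (nAA t q oW y0 ρ Ng P Ax (nι N ((n + 4) * M'') k)) - 2 * (η * q))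
    (yb := fun k => L 2 (nAA t q oW y0 ρ Ng P Ax (nι N ((n + 4) * M'') k))
        (nAA t q oW y0 ρ Ng P Ax (nι N ((n + 4) * M'') k)) -
        L 3 (nAA t q oW y0 ρ Ng P Ax (nι N ((n + 4) * M'') k))
        (nAA t q oW y0 ρ Ng P Ax (nι N ((n + 4) * M'') k)) + X * q)
    ((Nat.le_mul_of_pos_right _ (by simp)).trans hDb) (by linarith)
    (by linarith [(abs_le.1 hVi).1]) hΨ (fun k hk => by
      obtain ⟨k', hk', e1, b1, b2, b3, b4⟩ := hbl k hk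
      obtain ⟨c1, c2, c3⟩ := hmar _ hk'
      have h5 := O.blb k' hk' b1 b2 b3 hXμ c1 c2 c3
      rw [e1]
      exact h5) (fun k hk => (hlab k hk).1) (fun k hk => (hlab k hk).2)
    (xx := xq * q) (s₀ := s₀) (s := s) (sr := sr) (by positivity) le_rfl ?_
    (nsr_rec R H gr h34 S3 hκ hX hη.le hε hs₀) (by linarith) hs4 hsr hsr1 hs hs0q hlL0 hlL1 hlL2
    hDr hmx ?_ ?_ (rr := rr) (dr := δ * (lam * q) / 4 + h₀ * y0 * q * Real.log 2 / (256 * (n + 4)))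
    hrr ?_ ?_ (fun sa sb h1 h2 h3 => ?_) hful
  · have h1 := abs_le.1 (lv_lin R h34 v1 w1)
    rw [S3] at h1
    have h2 := O.pN1
    have h3 : L (2 + 1) (t + V' i * q) (t + V' i * q) = L 3 (t + V' i * q) (t + V' i * q) := rfl
    rw [h3] at h2
    have h4 : δ * lam * q / 8 ≤ δ * lam * q := by
      have : 0 ≤ δ * lam * q := by positivity
      linarith
    have h5 := mul_le_mul_of_nonneg_right hx hq.le
    have e1 : (b * (oW - V' i) + δ * lam + 2 * ε) * q =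
      b * (t + oW * q - (t + V' i * q)) + δ * lam * q + 2 * (ε * q) := by ring
    rw [e1] at h5
    linarith [h1.2]
  · rintro J F A B V z z' Gz hBA ⟨V₀, V₁, V₂, z₀, z₀', G₀, P₁, z₁, z₁', G₁, P₂', z₂, z₂', H', f,
      hΨ', hN⟩
    exact ⟨V₀, V₁, V₂, z₀, z₀', G₀, P₁, z₁, z₁', G₁, P₂', z₂, z₂', H', f,
      (O.alp 1 (by linarith) le_rfl).hs J F A B V₀ z₀ z₀' G₀ hBA hΨ', hN.sub hBA⟩
  · refine Bas.mono 0 O.nzq ?_
    rintro J - F A ⟨V, z, z', Gz, V₀, V₁, V₂, z₀, z₀', G₀, P₁, z₁, z₁', G₁, P₂', z₂, z₂', H', f,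
      hΨ', hN, -⟩
    exact ⟨V, z, z', Gz, V₀, V₁, V₂, z₀, z₀', G₀, P₁, z₁, z₁', G₁, P₂', z₂, z₂', H', f, hΨ', hN⟩
  · have h3 : δ * (lam * q) = δ * lam * q := by ring
    rw [h3]
    positivity
  · have h2 := mul_le_mul_of_nonneg_right hdl hq.le
    have e1 : 128 * ((n : ℝ) + 4) * (δ * (lam * q) / 4 +
        h₀ * y0 * q * Real.log 2 / (256 * (n + 4))) =
        32 * (n + 4) * (δ * lam) * q + h₀ * y0 * q * Real.log 2 / 2 := by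
      field_simp
      ring
    rw [e1]
    linarith
  · refine Bas.mono 0 (rows_rec R.pos O hμ (sa := sa) (sb := sb)
      (δ' := h₀ * y0 * q * Real.log 2 / (256 * (n + 4))) h1 h2 h3 (by positivity)) ?_
    intro J _ F A hA V z z' Gz hG
    refine (hA V z z' Gz hG).trans (le_of_eq ?_)
    ring

end Pool.STB
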