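import Pool.Agent.H65.STB.Ncl
import Pool.Agent.H60.ALT.Alo
import Pool.Agent.H82.STB.Nrc
import Pool.Agent.H3.D2G.RecN

/-!
# The lists of nodes at a record

`nAA`, `nWW`: the radii and the windows of a list of nodes at a record: a fine grid of balls, the
static pairs of a coarse grid, and further pairs. `nod_rec`: they are nodes. `lv_lin`, `lv_sta`: the
levels.
-/

set_option autoImplicit false

namespace Pool.STB

open Finset Real MvPolynomial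
open Pool.Agent.H49.Ent Pool.Agent.H32.Dense Pool.STK Pool.KA Pool.KSAT Pool.K2S Pool.PB Pool.S6C
open Pool.GEN Pool.RCD Pool.LA91 Pool.PKG
open Pool.STB77 (NodF)

/-- The radii: the balls `k ≤ Ng`, the static pairs, further pairs. -/
noncomputable def nAA (t q oW y ρ : ℝ) (Ng P : ℕ) (Ax : ℕ → ℝ) (k : ℕ) : ℝ :=
  if k ≤ Ng then t + (oW + k * ρ) * q
  else if k ≤ Ng + P + 1 then t + (oW + ((k - Ng : ℕ) : ℝ) * y) * q
  else t + Ax (k - (Ng + P + 2)) * q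

/-- The windows. -/
noncomputable def nWW (t q oW ρ : ℝ) (Ng P : ℕ) (Vx : ℕ → ℝ) (k : ℕ) : ℝ :=
  if k ≤ Ng then t + (oW + k * ρ) * q
  else if k ≤ Ng + P + 1 then t + oW * q
  else t + Vx (k - (Ng + P + 2)) * q

/-- The balls: fine up to `N`, then of the coarse grid. -/
def nι (N M' : ℕ) (k : ℕ) : ℕ := if k ≤ N then k else N + (k - N) * M'

/-- The static pairs. -/
def nσ (Ng p N : ℕ) (k : ℕ) : ℕ := Ng + (p + 1) + (k - N)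

section

variable {t q oW y ρ : ℝ} {Ng P p N M' : ℕ} {Ax Vx : ℕ → ℝ}

theorem nAA_ball {k : ℕ} (h : k ≤ Ng) : nAA t q oW y ρ Ng P Ax k = t + (oW + k * ρ) * q := if_pos h

theorem nWW_ball {k : ℕ} (h : k ≤ Ng) : nWW t q oW ρ Ng P Vx k = t + (oW + k * ρ) * q := if_pos h

theorem nAA_pair {k : ℕ} (h : 1 ≤ k) (h2 : k ≤ P + 1) :
    nAA t q oW y ρ Ng P Ax (Ng + k) = t + (oW + k * y) * q := by
  unfold nAA
  rw [if_neg (by omega), if_pos (by omega)]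
  congr 5
  omega

theorem nWW_pair {k : ℕ} (h : 1 ≤ k) (h2 : k ≤ P + 1) :
    nWW t q oW ρ Ng P Vx (Ng + k) = t + oW * q := by
  unfold nWW
  rw [if_neg (by omega), if_pos (by omega)]

theorem nAA_ext (k : ℕ) : nAA t q oW y ρ Ng P Ax (Ng + P + 2 + k) = t + Ax k * q := by
  unfold nAA
  rw [if_neg (by omega), if_neg (by omega)]
  congr 3
  omega

theorem nWW_ext (k : ℕ) : nWW t q oW ρ Ng P Vx (Ng + P + 2 + k) = t + Vx k * q := by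
  unfold nWW
  rw [if_neg (by omega), if_neg (by omega)]
  congr 3
  omega

/-- The three cases of an index. -/
theorem n_cases {k Nx : ℕ} (h : k < Ng + P + 2 + Nx) : k ≤ Ng ∨ (∃ j, 1 ≤ j ∧ j ≤ P + 1 ∧
    k = Ng + j) ∨ ∃ j < Nx, k = Ng + P + 2 + j := by
  rcases Nat.lt_or_ge Ng k with h1 | h1
  · rcases Nat.lt_or_ge (Ng + P + 1) k with h2 | h2
    · exact Or.inr (Or.inr ⟨k - (Ng + P + 2), by omega, by omega⟩)
    · exact Or.inr (Or.inl ⟨k - Ng, by omega, by omega, by omega⟩)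
  · exact Or.inl h1

theorem nι_le {k : ℕ} (h : k ≤ N) : nι N M' k = k := if_pos h

theorem nι_add (i : ℕ) : nι N M' (N + i) = N + i * M' := by
  unfold nι
  split_ifs with h
  · have : i = 0 := by omega
    subst this
    simp
  · congr 2
    omega

theorem nσ_add (i : ℕ) : nσ Ng p N (N + i) = Ng + (p + 1 + i) := by
  unfold nσ
  omega

/-- The numbers of the grid: `M'` fine steps in a coarse one, `N` fine steps to the ball `p + 1`. -/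
structure GrN (y ρ : ℝ) (Ng P p N M' : ℕ) : Prop where
  M1 : 1 ≤ M'
  pP : p ≤ P
  hN : N = (p + 1) * M'
  hg : Ng = (P + 1) * M'
  yr : y = M' * ρ
  r0 : 0 < ρ

theorem GrN.NNg (g : GrN y ρ Ng P p N M') : N ≤ Ng := by
  rw [g.hN, g.hg]
  exact Nat.mul_le_mul_right _ (by have := g.pP; omega)

theorem GrN.le_g (g : GrN y ρ Ng P p N M') {i : ℕ} (hi : p + i ≤ P) : N + i * M' ≤ Ng := by
  have h1 : N + i * M' = (p + 1 + i) * M' := by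
    rw [g.hN]
    ring
  rw [h1, g.hg]
  exact Nat.mul_le_mul_right _ (by omega)

theorem GrN.y0 (g : GrN y ρ Ng P p N M') : 0 < y := by
  rw [g.yr]
  have : (1 : ℝ) ≤ M' := by exact_mod_cast g.M1
  have := g.r0
  positivity

theorem GrN.ι_le (g : GrN y ρ Ng P p N M') {k : ℕ} (hk : k ≤ N + (P - p)) : nι N M' k ≤ Ng := by
  rcases le_or_gt k N with h | h
  · rw [nι_le h]
    exact h.trans g.NNg
  · obtain ⟨i, rfl⟩ : ∃ i, k = N + i := ⟨k - N, by omega⟩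
    rw [nι_add]
    exact g.le_g (by have := g.pP; omega)

/-- The radius of a ball of the list. -/
theorem GrN.off (g : GrN y ρ Ng P p N M') (i : ℕ) :
    ((nι N M' (N + i) : ℕ) : ℝ) * ρ = ((p + 1 + i : ℕ) : ℝ) * y := by
  rw [nι_add, g.hN, g.yr]
  push_cast
  ring

theorem nι_mono {k k' : ℕ} (hM : 1 ≤ M') (h : k ≤ k') : nι N M' k ≤ nι N M' k' := by
  unfold nι
  split_ifs with h1 h2 h2
  · exact h
  · have : 1 ≤ k' - N := by omega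
    nlinarith [Nat.mul_le_mul this hM]
  · omega
  · have : (k - N) * M' ≤ (k' - N) * M' := Nat.mul_le_mul_right _ (by omega)
    omega

end

section

variable {m : ℕ} {S : PCl m} {al : ℝ} {g₀ : ℝ → ℝ} {P₀ : List (Fin m) × Fin m → ℝ → ℝ → ℝ}
  {θ : ℝ} {P₂ : ℕ → List (Fin m) × Fin m → ℝ → ℝ → ℝ} {θ₂ Eb e₂ : ℕ → ℝ}
  {c : ℕ → Fin m} {Pt : ℝ → ℝ → ℝ} {r : ℝ → ℝ} {h K₀ g : ℝ} {L T : ℕ → ℝ → ℝ → ℝ}
  {Sl : ℕ → ℝ} {κ : ℕ → Kg} {G : Set ℝ} {S₀ N₀ : ℕ} {A V : ℕ → ℝ} {S₂ N' : ℕ} {V' : ℕ → ℝ}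
  {K ε q t : ℝ}

/-- The levels are linear. -/
theorem lv_lin (R : RecG S al g₀ P₀ θ P₂ θ₂ Eb e₂ c Pt r h K₀ g L T Sl κ G S₀ N₀ A V S₂ N' V' K ε q
    t) {l : ℕ} (hl : l < m) {x x' : ℝ} (hx : |x - t| ≤ K * q) (hx' : |x' - t| ≤ K * q) :
    |L l x' x' - L l x x - Sl l * (x' - x)| ≤ 2 * (ε * q) := by
  have h1 := R.dL l hl x hx
  have h2 := R.dL l hl x' hx'
  have e : L l x' x' - L l x x - Sl l * (x' - x) = (L l x' x' - L l t t - Sl l * (x' - t)) -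
      (L l x x - L l t t - Sl l * (x - t)) := by ring
  rw [e]
  refine (abs_sub _ _).trans ?_
  linarith

/-- A static level. -/
theorem lv_sta (R : RecG S al g₀ P₀ θ P₂ θ₂ Eb e₂ c Pt r h K₀ g L T Sl κ G S₀ N₀ A V S₂ N' V' K ε q
    t) {l : ℕ} (hl : l < m) (hκ : κ l = .sta) {a w : ℝ} (hw : t - K * q ≤ w) (hwa : w ≤ a)
    (ha : a ≤ t + K * q) : L l a a ≤ L l a w + ε * q := by
  have h1 := R.kd l hl
  rw [hκ] at h1
  exact h1.2 a w hw hwa ha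

theorem box_in (R : RecG S al g₀ P₀ θ P₂ θ₂ Eb e₂ c Pt r h K₀ g L T Sl κ G S₀ N₀ A V S₂ N' V' K ε q
    t) {o : ℝ} (h1 : -K ≤ o) (h2 : o ≤ K) : |t + o * q - t| ≤ K * q ∧ 0 < t + o * q ∧
    t + o * q < 1 := by
  have hq := R.q0
  have h3 : -K * q ≤ o * q := mul_le_mul_of_nonneg_right h1 hq.le
  have h4 : o * q ≤ K * q := mul_le_mul_of_nonneg_right h2 hq.le
  have h5 := R.t0
  have h6 := R.t1
  refine ⟨abs_le.2 ⟨by linarith, by linarith⟩, by linarith, by linarith⟩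

/-- The lists of the record contain the nodes. -/
structure LsN (oW y ρ : ℝ) (Ng P Nx : ℕ) (Ax Vx : ℕ → ℝ) (N₀ : ℕ) (A V : ℕ → ℝ) (N' : ℕ)
    (V' : ℕ → ℝ) (K : ℝ) : Prop where
  grid : ∀ j ≤ Ng, ∃ k < N', V' k = oW + j * ρ
  pair : ∀ j, 1 ≤ j → j ≤ P + 1 → ∃ k < N₀, A k = oW + j * y ∧ V k = oW
  ext : ∀ j < Nx, ∃ k < N₀, A k = Ax j ∧ V k = Vx j
  x0 : ∀ j < Nx, -K ≤ Vx j ∧ Vx j ≤ Ax j ∧ Ax j ≤ K
  o0 : -K ≤ oW
  o1 : oW + ((P + 1 : ℕ) : ℝ) * y ≤ K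

/-- The offsets of the balls are in the box. -/
theorem LsN.ball {oW y ρ : ℝ} {Ng P p N M' Nx : ℕ} {Ax Vx : ℕ → ℝ}
    (H : LsN oW y ρ Ng P Nx Ax Vx N₀ A V N' V' K) (g : GrN y ρ Ng P p N M') {j : ℕ} (hj : j ≤ Ng) :
    -K ≤ oW + j * ρ ∧ oW + j * ρ ≤ K := by
  have hr := g.r0
  have h1 : (j : ℝ) * ρ ≤ Ng * ρ := mul_le_mul_of_nonneg_right (by exact_mod_cast hj) hr.le
  have h2 : (Ng : ℝ) * ρ = ((P + 1 : ℕ) : ℝ) * y := by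
    rw [g.hg, g.yr]
    push_cast
    ring
  have h3 : 0 ≤ (j : ℝ) * ρ := by positivity
  have := H.o0
  have := H.o1
  exact ⟨by linarith, by linarith⟩

theorem LsN.pr {oW y ρ : ℝ} {Ng P p N M' Nx : ℕ} {Ax Vx : ℕ → ℝ}
    (H : LsN oW y ρ Ng P Nx Ax Vx N₀ A V N' V' K) (g : GrN y ρ Ng P p N M') {j : ℕ}
    (hj : j ≤ P + 1) : oW ≤ oW + j * y ∧ -K ≤ oW + j * y ∧ oW + j * y ≤ K := by
  have hy := g.y0
  have h1 : (j : ℝ) * y ≤ ((P + 1 : ℕ) : ℝ) * y :=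
    mul_le_mul_of_nonneg_right (by exact_mod_cast hj) hy.le
  have h3 : 0 ≤ (j : ℝ) * y := by positivity
  have := H.o0
  have := H.o1
  exact ⟨by linarith, by linarith, by linarith⟩

/-- The windows and the radii of the nodes. -/
theorem nod_box (R : RecG S al g₀ P₀ θ P₂ θ₂ Eb e₂ c Pt r h K₀ g L T Sl κ G S₀ N₀ A V S₂ N' V' K ε
    q t) {oW y ρ : ℝ} {Ng P p N M' Nx : ℕ} {Ax Vx : ℕ → ℝ}
    (H : LsN oW y ρ Ng P Nx Ax Vx N₀ A V N' V' K) (gr : GrN y ρ Ng P p N M') {k : ℕ}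
    (hk : k < Ng + P + 2 + Nx) : 0 ≤ nWW t q oW ρ Ng P Vx k ∧
      nWW t q oW ρ Ng P Vx k ≤ nAA t q oW y ρ Ng P Ax k ∧ nAA t q oW y ρ Ng P Ax k < 1 := by
  have hq := R.q0
  rcases n_cases hk with h1 | ⟨j, h1, h2, rfl⟩ | ⟨j, h1, rfl⟩
  · rw [nAA_ball h1, nWW_ball h1]
    obtain ⟨b1, b2⟩ := H.ball gr h1
    obtain ⟨-, b3, b4⟩ := box_in R b1 b2
    exact ⟨b3.le, le_rfl, b4⟩
  · rw [nAA_pair h1 h2, nWW_pair h1 h2]
    obtain ⟨b1, b2, b3⟩ := H.pr gr h2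
    obtain ⟨-, b4, -⟩ := box_in R H.o0 (b1.trans b3)
    obtain ⟨-, -, b5⟩ := box_in R b2 b3
    exact ⟨b4.le, by nlinarith, b5⟩
  · rw [nAA_ext, nWW_ext]
    obtain ⟨b1, b2, b3⟩ := H.x0 j h1
    obtain ⟨-, b4, -⟩ := box_in R b1 (b2.trans b3)
    obtain ⟨-, -, b5⟩ := box_in R (b1.trans b2) b3
    exact ⟨b4.le, by nlinarith, b5⟩

end

/-- **The nodes.** -/
theorem nod_rec (r S₀ S₂ : ℕ) (hr : 1 ≤ r) (hS₀ : 1 ≤ S₀) (hS₂ : 1 ≤ S₂) : ∃ D₀ : ℕ, 1 ≤ D₀ ∧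
    ∀ {m : ℕ} {S : PCl m} {al : ℝ} {g₀ : ℝ → ℝ} {P₀ : List (Fin m) × Fin m → ℝ → ℝ → ℝ}
    {θ : ℝ} {P₂ : ℕ → List (Fin m) × Fin m → ℝ → ℝ → ℝ} {θ₂ Eb e₂ : ℕ → ℝ}
    {c : ℕ → Fin m} {Pt : ℝ → ℝ → ℝ} {rt : ℝ → ℝ} {h K₀ g : ℝ} {L T : ℕ → ℝ → ℝ → ℝ}
    {Sl : ℕ → ℝ} {κ : ℕ → Kg} {G : Set ℝ} {N₀ : ℕ} {A V : ℕ → ℝ} {N' : ℕ} {V' : ℕ → ℝ}
    {K ε q t : ℝ}, RecG S al g₀ P₀ θ P₂ θ₂ Eb e₂ c Pt rt h K₀ g L T Sl κ G S₀ N₀ A V S₂ N' V' K ε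
      q t → r < m → ∀ {oW y ρ : ℝ} {Ng P Nx : ℕ} {Ax Vx : ℕ → ℝ},
      LsN oW y ρ Ng P Nx Ax Vx N₀ A V N' V' K → ∀ D ≥ D₀, ∀ k < Ng + P + 2 + Nx,
      NodF S c r D L (Eb r) (Eb r) (nAA t q oW y ρ Ng P Ax k) (nWW t q oW ρ Ng P Vx k) := by
  obtain ⟨D₁, hD₁, h1⟩ := Pool.STB82.nodF_rec r S₀ hr hS₀
  obtain ⟨D₂, hD₂, h2⟩ := Pool.STB82.nodF_pair r S₂ hr hS₂
  refine ⟨max D₁ D₂, hD₁.trans (le_max_left _ _), ?_⟩
  intro m S al g₀ P₀ θ P₂ θ₂ Eb e₂ c Pt rt h K₀ g L T Sl κ G N₀ A V N' V' K ε q t R hrm oW y ρ Ng P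
    Nx Ax Vx H D hD k hk
  rcases n_cases hk with h3 | ⟨j, h3, h4, rfl⟩ | ⟨j, h3, rfl⟩
  · obtain ⟨i, hi, e1⟩ := H.grid k h3
    rw [nAA_ball h3, nWW_ball h3, ← e1]
    exact (h1 R hrm i hi).up ((le_max_left _ _).trans hD)
  · obtain ⟨i, hi, e1, e2⟩ := H.pair j h3 h4
    rw [nAA_pair h3 h4, nWW_pair h3 h4, ← e1, ← e2]
    exact (h2 R hrm i hi).1.up ((le_max_right _ _).trans hD)
  · obtain ⟨i, hi, e1, e2⟩ := H.ext j h3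
    rw [nAA_ext, nWW_ext, ← e1, ← e2]
    exact (h2 R hrm i hi).1.up ((le_max_right _ _).trans hD)

end Pool.STB
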