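import Pool.Agent.H98.STB.VrE
import Pool.Agent.H98.STB.VrL
import Pool.Agent.H82.STB.Frm

/-!
# The numbers of the frame

`nlp_cmp`: natural exponents of two windows. `frn_num`: the numbers `FrN` from real inequalities
with a margin. `frn_rec`: at a record.
-/

set_option autoImplicit false

namespace Pool.STB

open Finset Real
open Pool.GEN
open Pool.STB82 (gjb gjb_le grid_num)

theorem nlp_cmp {h h' : ℕ → ℕ} {l d z : ℕ} (hl : l ≤ 3)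
    (hj : ∀ j, l ≤ j → j ≤ 3 → h j ≤ h' j + d) (h3 : h' 3 ≤ h 3 + z) :
    nlp h l 3 ≤ nlp h' l 3 + d + z := by
  unfold nlp
  have h1 : (Finset.Icc l 3).sup h ≤ (Finset.Icc l 3).sup h' + d := by
    refine Finset.sup_le fun j hj' => ?_
    rw [Finset.mem_Icc] at hj'
    have := Finset.le_sup (f := h') (Finset.mem_Icc.2 hj')
    exact (hj j hj'.1 hj'.2).trans (by omega)
  have h2 : h' 3 ≤ (Finset.Icc l 3).sup h' :=
    Finset.le_sup (f := h') (Finset.mem_Icc.2 ⟨hl, le_rfl⟩)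
  omega

theorem nlp_anti {h : ℕ → ℕ} {l l' : ℕ} (hl : l ≤ l') : nlp h l' 3 ≤ nlp h l 3 := by
  unfold nlp
  refine Nat.sub_le_sub_right (Finset.sup_mono fun j hj => ?_) _
  rw [Finset.mem_Icc] at hj ⊢
  exact ⟨hl.trans hj.1, hj.2⟩

/-- A sum of naturals below a floor. -/
theorem le_floor' {x : ℝ} {a : ℕ} (h : (a : ℝ) ≤ x) : a ≤ ⌊x⌋₊ := Nat.le_floor h

section

variable {n N C₁ C₀ C b J : ℕ} {A₀ q kr ρ U X₀ s₀ s v xx E e2 δ : ℝ}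

/-- **The numbers of the frame.** -/
theorem frn_num (n N C₁ C₀ C b : ℕ) {A₀ q kr ρ U X₀ s₀ s v xx E e2 δ : ℝ} {Lv d : ℕ → ℕ → ℝ}
    (hA : 0 ≤ A₀) (hq : 0 < q) (hρ : 0 < ρ) (hρk : ρ ≤ kr) (hN : ((n : ℝ) + 1) * kr ≤ N * ρ)
    (hv : v = 2 * ρ * q) (hδ : 0 < δ) (hs₀ : 0 ≤ s₀) (hs : 0 < s) (hE : 0 ≤ E) (hxx : 0 ≤ xx)
    (hX₀ : 0 ≤ X₀) (hL0 : ∀ k ≤ N, ∀ l, 0 ≤ Lv k l)
    (hd : ∀ k ≤ N, ∀ l < 3, 0 ≤ d k l ∧ d k l ≤ s)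
    (c1 : C₀ * (s₀ + 3 * s) + δ ≤ U) (c2 : C * (s₀ + 3 * s + v) + δ ≤ U) (c3 : v + δ ≤ U)
    (l0 : ∀ k ≤ N, A₀ + k * ρ * q ≤ Lv k 0 + s₀) (hC₀ : 1 ≤ C₀) (E1 : E + s + δ ≤ e2)
    (J1 : Lv 0 1 + E + C₀ * (s₀ + 3 * s) + (n + 1) * (kr * q) + δ ≤ 1)
    (J2 : A₀ + (n + 1) * (kr * q) + δ ≤ 1) (mono : ∀ k ≤ N, ∀ l < 3, Lv 0 l ≤ Lv k l)
    (nl : C * (s₀ + 3 * s + v) + (E + s) + xx + s + b * ((n + 1) * (kr * q)) + X₀ + δ ≤ e2) :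
    ∃ J₀ : ℕ, ∀ J ≥ J₀, ∀ (A : ℕ → ℕ) (g : ℕ → ℕ → ℕ) (g₃ : ℕ),
      (∀ k ≤ N, A k = ⌊(A₀ + k * ρ * q) * J⌋₊) →
      (∀ k ≤ N, ∀ l < 3, g k l = ⌊(Lv k l - d k l) * J⌋₊) →
      FrN J n N C₁ b ⌊A₀ * J⌋₊ ⌊kr * q * J⌋₊ ⌊U * J⌋₊ ⌊X₀ * J⌋₊ g₃
        (C₀ * (⌊(s₀ + 3 * s) * J⌋₊ + 1) + ⌊E * J⌋₊) (⌊e2 * J⌋₊ - 1)
        (C₁ * (C₀ * (⌊(s₀ + 3 * s) * J⌋₊ + 1) + (⌊v * J⌋₊ + 1) + 1))
        (C * (⌊(s₀ + 3 * s) * J⌋₊ + ⌊v * J⌋₊ + 1) + ⌊(E + s) * J⌋₊ + ⌊xx * J⌋₊ +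
          nlp (fun j => if j < 3 then g 0 j else g₃) 0 3)
        (C₀ * (⌊(s₀ + 3 * s) * J⌋₊ + 1)) (⌊v * J⌋₊ + 1)
        (C * (⌊(s₀ + 3 * s) * J⌋₊ + ⌊v * J⌋₊ + 1)) ⌊E * J⌋₊
        (C * (⌊(s₀ + 3 * s) * J⌋₊ + ⌊v * J⌋₊ + 1) + ⌊(E + s) * J⌋₊ + ⌊xx * J⌋₊)
        A (fun _ => ⌊(E + s) * J⌋₊) g (gjb kr ρ) (fun i => gjb kr ρ (i + 1)) A₀
        (δ / 2 * Real.log 2) := by
  have hkr : 0 < kr := hρ.trans_le hρk
  have hv0 : 0 < v := by rw [hv]; positivity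
  have hl2 : 0 < Real.log 2 := Real.log_pos one_lt_two
  obtain ⟨J₁, hJ₁⟩ := grid_num hA hq hρ hρk n
  obtain ⟨Q, hQ⟩ : ∃ Q : ℝ, Q = 2 * C₀ + 4 * C + b * (n + 1) + n + 20 := ⟨_, rfl⟩
  have hC₀r : (1 : ℝ) ≤ C₀ := by exact_mod_cast hC₀
  have hC0 : (0 : ℝ) ≤ C := Nat.cast_nonneg C
  have hb0 : (0 : ℝ) ≤ b := Nat.cast_nonneg b
  have hn0 : (0 : ℝ) ≤ n := Nat.cast_nonneg n
  obtain ⟨J₂, hJ₂⟩ := exists_nat_ge (2 * Q / δ)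
  refine ⟨max J₁ J₂, ?_⟩
  intro J hJ A g g₃ hAk hgk
  have hJ0 : (0 : ℝ) ≤ J := Nat.cast_nonneg J
  have hgrid := hJ₁ J ((le_max_left _ _).trans hJ) ⌊A₀ * J⌋₊ ⌊kr * q * J⌋₊ rfl rfl
  have hδJ : 2 * Q ≤ δ * J := by
    have h1 : 2 * Q / δ ≤ J := hJ₂.trans (by exact_mod_cast (le_max_right _ _).trans hJ)
    rw [div_le_iff₀ hδ] at h1
    linarith
  obtain ⟨W, hW⟩ : ∃ W, W = ⌊A₀ * (J : ℝ)⌋₊ := ⟨_, rfl⟩
  obtain ⟨k, hk⟩ : ∃ k, k = ⌊kr * q * (J : ℝ)⌋₊ := ⟨_, rfl⟩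
  obtain ⟨y, hy⟩ : ∃ y, y = ⌊U * (J : ℝ)⌋₊ := ⟨_, rfl⟩
  obtain ⟨x, hx⟩ : ∃ x, x = ⌊X₀ * (J : ℝ)⌋₊ := ⟨_, rfl⟩
  obtain ⟨a, ha⟩ : ∃ a, a = ⌊(s₀ + 3 * s) * (J : ℝ)⌋₊ := ⟨_, rfl⟩
  obtain ⟨v', hv'⟩ : ∃ v', v' = ⌊v * (J : ℝ)⌋₊ := ⟨_, rfl⟩
  obtain ⟨e, he⟩ : ∃ e, e = ⌊E * (J : ℝ)⌋₊ := ⟨_, rfl⟩
  obtain ⟨E', hE'⟩ : ∃ E', E' = ⌊(E + s) * (J : ℝ)⌋₊ := ⟨_, rfl⟩
  obtain ⟨x', hx'⟩ : ∃ x', x' = ⌊xx * (J : ℝ)⌋₊ := ⟨_, rfl⟩
  obtain ⟨e₂, he₂⟩ : ∃ e₂, e₂ = ⌊e2 * (J : ℝ)⌋₊ := ⟨_, rfl⟩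
  rw [← hW, ← hk] at hgrid
  rw [← hW, ← hk, ← hy, ← hx, ← ha, ← hv', ← he, ← hE', ← hx', ← he₂]
  -- bounds
  have fl : ∀ {z : ℝ} {i : ℕ}, 0 ≤ z → i = ⌊z * (J : ℝ)⌋₊ → (i : ℝ) ≤ z * J := fun hz hi => by
    rw [hi]
    exact Nat.floor_le (by positivity)
  have fg : ∀ {z : ℝ} {i : ℕ}, i = ⌊z * (J : ℝ)⌋₊ → z * J < i + 1 := fun hi => by
    rw [hi]
    exact Nat.lt_floor_add_one _
  have bW := fl hA hW
  have bk := fl (by positivity) hk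
  have by' := fg hy
  have bx := fl hX₀ hx
  have ba := fl (by positivity) ha
  have bv := fl hv0.le hv'
  have be := fl hE he
  have bE := fl (by linarith) hE'
  have bx' := fl hxx hx'
  have be₂ := fg he₂
  have ba0 : (0 : ℝ) ≤ a := Nat.cast_nonneg a
  have bv0 : (0 : ℝ) ≤ v' := Nat.cast_nonneg v'
  have hCa : (C₀ : ℝ) * a ≤ C₀ * (s₀ + 3 * s) * J := by
    have := mul_le_mul_of_nonneg_left ba (by linarith : (0 : ℝ) ≤ C₀)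
    linarith
  have hCv : (C : ℝ) * (a + v') ≤ C * (s₀ + 3 * s + v) * J := by
    have := mul_le_mul_of_nonneg_left (add_le_add ba bv) hC0
    nlinarith
  have c1' := mul_le_mul_of_nonneg_right c1 hJ0
  have c2' := mul_le_mul_of_nonneg_right c2 hJ0
  have c3' := mul_le_mul_of_nonneg_right c3 hJ0
  have hQ0 : 0 ≤ (b : ℝ) * (n + 1) := by positivity
  have hQC : (C₀ : ℝ) + 2 * C + 10 ≤ Q := by rw [hQ]; nlinarith
  have hQn : (b : ℝ) * (n + 1) + n + C + C₀ + 10 ≤ Q := by rw [hQ]; nlinarith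
  rw [add_mul] at c1' c2' c3'
  -- the balls
  have hgjN : ∀ i ≤ n, gjb kr ρ i ≤ N := fun i hi => gjb_le hρ hkr.le hi hN
  have hAg : ∀ i ≤ n, A (gjb kr ρ i) ≤ W + k + i * k ∧
      W + k + i * k ≤ A (gjb kr ρ i) + (v' + 1) := by
    intro i hi
    obtain ⟨h1, h2, -, -⟩ := hgrid i hi
    rw [hAk _ (hgjN i hi)]
    rw [← hv, ← hv'] at h2
    exact ⟨h1, h2⟩
  have hvy : v' + 1 ≤ y := by
    have h1 : ((v' + 1 : ℕ) : ℝ) < ((y + 1 : ℕ) : ℝ) := by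
      push_cast
      linarith
    have h2 : v' + 1 < y + 1 := by exact_mod_cast h1
    omega
  have hg0 : ∀ k' ≤ N, A k' ≤ g k' 0 + C₀ * (a + 1) := by
    intro k' hk'
    rw [hAk k' hk', hgk k' hk' 0 (by norm_num)]
    have h1 := l0 k' hk'
    have h2 := (hd k' hk' 0 (by norm_num)).2
    have h3 := Nat.lt_floor_add_one ((Lv k' 0 - d k' 0) * (J : ℝ))
    have h4 : ((⌊(A₀ + k' * ρ * q) * (J : ℝ)⌋₊ : ℕ) : ℝ) ≤ (A₀ + k' * ρ * q) * J :=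
      Nat.floor_le (by positivity)
    have h5 : (A₀ + k' * ρ * q) * J ≤ (Lv k' 0 - d k' 0) * J + (s₀ + s) * J := by
      rw [← add_mul]
      exact mul_le_mul_of_nonneg_right (by linarith) hJ0
    have h6 : (s₀ + s) * J ≤ (s₀ + 3 * s) * J := mul_le_mul_of_nonneg_right (by linarith) hJ0
    have h7 := fg ha
    have h8 : (a : ℝ) + 1 ≤ C₀ * (a + 1) := by nlinarith
    have h9 : ((⌊(A₀ + k' * ρ * q) * (J : ℝ)⌋₊ : ℕ) : ℝ) <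
        ((⌊(Lv k' 0 - d k' 0) * (J : ℝ)⌋₊ + C₀ * (a + 1) + 1 : ℕ) : ℝ) := by
      push_cast
      linarith
    have h10 := Nat.lt_succ_iff.1 (by exact_mod_cast h9 : ⌊(A₀ + k' * ρ * q) * (J : ℝ)⌋₊ <
      (⌊(Lv k' 0 - d k' 0) * (J : ℝ)⌋₊ + C₀ * (a + 1)).succ)
    exact h10
  have hEe : E' ≤ e₂ - 1 + 1 := by
    have h1 := mul_le_mul_of_nonneg_right E1 hJ0
    have h2 : (E' : ℝ) < ((e₂ + 1 : ℕ) : ℝ) := by
      push_cast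
      nlinarith
    have h3 : E' < e₂ + 1 := by exact_mod_cast h2
    omega
  have hnk : ∀ i < n, i * k + k ≤ n * k := fun i hi => by
    have := Nat.mul_le_mul_right k (Nat.succ_le_of_lt hi)
    rwa [Nat.succ_mul] at this
  have hknr : ((k + n * k : ℕ) : ℝ) ≤ (n + 1) * (kr * q) * J := by
    push_cast
    nlinarith
  constructor
  · exact bW
  · exact le_rfl
  · intro i hi
    obtain ⟨h1, h2⟩ := hAg i hi.le
    exact ⟨hgjN i hi.le, h1, h2, hg0 _ (hgjN i hi.le), hEe⟩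
  · intro i hi
    obtain ⟨h1, h2⟩ := hAg (i + 1) hi
    have e1 : W + k + (i + 1) * k = W + (k + i * k + k) := by ring
    rw [e1] at h1 h2
    exact ⟨hgjN (i + 1) hi, h1, by omega⟩
  · exact le_rfl
  · push_cast
    have h1 : (C₀ : ℝ) * (a + 1) + 1 + δ / 2 * J ≤ y := by nlinarith
    have := mul_le_mul_of_nonneg_right h1 hl2.le
    linarith
  · have h1 := mul_le_mul_of_nonneg_right J1 hJ0
    have h2 : (g 0 1 : ℝ) ≤ Lv 0 1 * J := by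
      rw [hgk 0 (Nat.zero_le _) 1 (by norm_num)]
      have h3 := (hd 0 (Nat.zero_le _) 1 (by norm_num)).1
      rcases le_or_gt 0 ((Lv 0 1 - d 0 1) * (J : ℝ)) with h | h
      · exact (Nat.floor_le h).trans (mul_le_mul_of_nonneg_right (by linarith) hJ0)
      · rw [Nat.floor_of_nonpos h.le, Nat.cast_zero]
        exact mul_nonneg (hL0 0 (Nat.zero_le _) 1) hJ0
    have h3 : ((g 0 1 + (C₀ * (a + 1) + e) + 1 + k + n * k : ℕ) : ℝ) ≤ J := by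
      have e1 : g 0 1 + (C₀ * (a + 1) + e) + 1 + k + n * k =
        g 0 1 + (C₀ * (a + 1) + e) + 1 + (k + n * k) := by ring
      rw [e1]
      push_cast at hknr ⊢
      nlinarith
    exact_mod_cast h3
  · have h1 := mul_le_mul_of_nonneg_right J2 hJ0
    have h3 : ((W + k + n * k : ℕ) : ℝ) ≤ J := by
      have e1 : W + k + n * k = W + (k + n * k) := by ring
      rw [e1]
      push_cast at hknr ⊢
      nlinarith
    exact_mod_cast h3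
  · have h1 : ((C * (a + v' + 1) : ℕ) : ℝ) < ((y + 1 : ℕ) : ℝ) := by
      push_cast
      nlinarith
    have h2 : C * (a + v' + 1) < y + 1 := by exact_mod_cast h1
    omega
  · intro l hl
    exact Nat.add_le_add_left (nlp_anti (Nat.zero_le l)) _
  · intro i hi l hl
    have hgm : ∀ j < 3, g 0 j ≤ g (gjb kr ρ i) j + (⌊s * (J : ℝ)⌋₊ + 1) := by
      intro j hj
      have hi' := hgjN i hi.le
      rw [hgk 0 (Nat.zero_le _) j hj, hgk _ hi' j hj]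
      have h1 := mono _ hi' j hj
      have h2 := (hd _ hi' j hj).2
      have h3 := (hd 0 (Nat.zero_le _) j hj).1
      have h4 := Nat.lt_floor_add_one ((Lv (gjb kr ρ i) j - d (gjb kr ρ i) j) * (J : ℝ))
      have h5 := Nat.lt_floor_add_one (s * (J : ℝ))
      have h6 : (Lv 0 j - d 0 j) * (J : ℝ) ≤ (Lv (gjb kr ρ i) j - d (gjb kr ρ i) j) * J + s * J := by
        rw [← add_mul]
        exact mul_le_mul_of_nonneg_right (by linarith) hJ0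
      rcases le_or_gt 0 ((Lv 0 j - d 0 j) * (J : ℝ)) with h | h
      · have h7 := Nat.floor_le h
        have h8 : ((⌊(Lv 0 j - d 0 j) * (J : ℝ)⌋₊ : ℕ) : ℝ) <
            ((⌊(Lv (gjb kr ρ i) j - d (gjb kr ρ i) j) * (J : ℝ)⌋₊ + (⌊s * (J : ℝ)⌋₊ + 1) + 1 : ℕ) :
              ℝ) := by
          push_cast
          linarith
        exact Nat.lt_succ_iff.1 (by exact_mod_cast h8)
      · rw [Nat.floor_of_nonpos h.le]
        exact Nat.zero_le _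
    have h1 : nlp (fun j => if j < 3 then g 0 j else g₃) l 3 ≤
        nlp (fun j => if j < 3 then g (gjb kr ρ i) j else g₃ + b * (k + i * k) + x) l 3 +
          (⌊s * (J : ℝ)⌋₊ + 1) + (b * (k + i * k) + x) := by
      refine nlp_cmp hl.le (fun j _ hj3 => ?_) ?_
      · by_cases h : j < 3
        · simp only [h, if_true]
          exact hgm j h
        · simp only [h, if_false]
          omega
      · simp only [lt_irrefl, if_false]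
        omega
    have h2 : C * (a + v' + 1) + E' + x' + (⌊s * (J : ℝ)⌋₊ + 1) + (b * (k + i * k) + x) + 1 ≤
        e₂ - 1 := by
      have h3 : b * (k + i * k) ≤ b * (k + n * k) := by
        have := hnk i hi
        exact Nat.mul_le_mul_left _ (by omega)
      have h4 := mul_le_mul_of_nonneg_right nl hJ0
      have h5 : ((⌊s * (J : ℝ)⌋₊ : ℕ) : ℝ) ≤ s * J := Nat.floor_le (by positivity)
      have h6 : (b : ℝ) * ((k + n * k : ℕ) : ℝ) ≤ b * ((n + 1) * (kr * q) * J) :=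
        mul_le_mul_of_nonneg_left hknr hb0
      have h7 : ((C * (a + v' + 1) + E' + x' + (⌊s * (J : ℝ)⌋₊ + 1) + (b * (k + n * k) + x) + 1 +
          2 : ℕ) : ℝ) < ((e₂ + 1 : ℕ) : ℝ) := by
        push_cast at h6 ⊢
        nlinarith
      have h8 : C * (a + v' + 1) + E' + x' + (⌊s * (J : ℝ)⌋₊ + 1) + (b * (k + n * k) + x) + 1 +
          2 < e₂ + 1 := by exact_mod_cast h7
      omega
    omega

end

end Pool.STB
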