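import Pool.Agent.H65.STB.Ncl

/-!
# The input of the jets for a static target, with a loss

`InpL`, `N1L`: `InpF` and `N1O` with a loss `2 ^ Lx` of the polynomial of the line at the last ball.
-/

set_option autoImplicit false

namespace Pool.STB

open Finset Real MvPolynomial
open Pool.Agent.H49.Ent Pool.Agent.H32.Dense Pool.STK Pool.KA Pool.KSAT Pool.K2S Pool.PB Pool.S6C
open Pool.GEN Pool.CHT Pool.CHX Pool.NVX
open Pool.STB82 (yv)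
open Pool.STB77 (Inc)
open Pool.STB65 (InpF N1O)

variable {m : ℕ}

/-- **The polynomials** of the target, with a loss `2 ^ Lx` at the last ball. -/
structure InpL {J : ℕ} (F : Fam m J) (B : F.Ω → Prop) (W₀ N K b Lx : ℕ) (Y : ℝ) (y : F.Ω → V3)
    (e : ℕ → ℕ) (f : ℕ → PtT F → Po) (f' : ℕ → LnT F → Po) (kf : LnT F → Po) : Prop where
  fd : ∀ j p, (f j p).totalDegree ≤ K
  kd : ∀ s, (kf s).totalDegree ≤ K
  em : ∀ j < N, e j ≤ e (j + 1) ∧ (2 : ℝ) ^ e (j + 1) ≤ Y * 2 ^ e j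
  f0 : ∀ ω, B ω → ∀ r, Bx 1 r → |eval (y ω + r) (f 0 (ptr F J ω))| ≤ Y
  ch : ∀ ω, B ω → ∀ j < N, ∀ r, Bx (1 / 2 ^ e (j + 1)) r →
    |eval (y ω + r) (f (j + 1) (ptr F J ω)) - eval (y ω + r) (f j (ptr F J ω))| ≤
      Y * (1 / 2 ^ e j) ^ b
  nr : ∀ ω, B ω → ∀ r, Bx (1 / 2 ^ e N) r →
    |eval (y ω + r) (kf (slam F W₀ ω)) - eval (y ω + r) (f N (ptr F J ω))| ≤
      Y * 2 ^ Lx * (1 / 2 ^ e N) ^ b
  fd' : ∀ j s, (f' j s).totalDegree ≤ K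
  agr : ∀ j ≤ N, ∀ ω, B ω → ∀ r, Bx (1 / 2 ^ e j) r →
    |eval (y ω + r) (f j (ptr F J ω)) - eval (y ω + r) (f' j (slam F (W₀ + e j) ω))| ≤
      Y * (1 / 2 ^ e j) ^ b

theorem InpL.sub {J : ℕ} {F : Fam m J} {B B' : F.Ω → Prop} {W₀ N K b Lx : ℕ} {Y : ℝ}
    {y : F.Ω → V3} {e : ℕ → ℕ} {f : ℕ → PtT F → Po} {f' : ℕ → LnT F → Po} {kf : LnT F → Po}
    (h : InpL F B W₀ N K b Lx Y y e f f' kf) (hB : Sub B' B) :
    InpL F B' W₀ N K b Lx Y y e f f' kf :=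
  { h with
    f0 := fun ω hω => h.f0 ω (hB ω hω)
    ch := fun ω hω => h.ch ω (hB ω hω)
    nr := fun ω hω => h.nr ω (hB ω hω)
    agr := fun j hj ω hω => h.agr j hj ω (hB ω hω) }

/-- **The output with a loss** `2 ^ Lx` of the polynomial of the line at the last ball. -/
structure N1L {J : ℕ} (F : Fam m J) (c : ℕ → Fin m) (D K b N W s v y e X g₃ gS Lx : ℕ)
    (A ee : ℕ → ℕ) (g : ℕ → ℕ → ℕ) (B : F.Ω → Prop)
    (G : ℕ → PtT F → ℕ → MvPolynomial (Option (Fin m)) ℝ)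
    (H : ℕ → LnT F → ℕ → MvPolynomial (Option (Fin m)) ℝ)
    (pP : PtT F → ℕ → MvPolynomial (Option (Fin m)) ℝ)
    (pH : LnT F → ℕ → MvPolynomial (Option (Fin m)) ℝ) (xP : PtT F → ℝ) (xH : LnT F → ℝ)
    (Gx zP : PtT F → MvPolynomial (Option (Fin m)) ℝ)
    (zH : LnT F → MvPolynomial (Option (Fin m)) ℝ) (f : ℕ → PtT F → Po) (f' : ℕ → LnT F → Po)
    (kf : LnT F → Po) : Prop where
  inc : Inc F c D N W s v A ee g B G H pP pH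
  Ns : N ≤ s
  n0' : W ≤ g 0 0 + s
  hp : ∀ S l, DepC c l (pH S l)
  xc : ∀ ω, B ω → xP (ptr F J ω) = xH (slam F W ω)
  xn : ∀ ω, B ω → |xP (ptr F J ω) - 2 ^ W * F.x ω (c 0)| ≤ 2 ^ s
  pg : ∀ ω, B ω → ∀ b' : Option (Fin m) → ℝ, |b' none - F.t ω| ≤ 1 / 2 ^ W →
    |b' (some (c 0)) - F.x ω (c 0)| ≤ 1 / 2 ^ W →
    |eval b' (pderiv (some (c 0)) (pP (ptr F J ω) 1))| ≤ 2 ^ (s + e)
  zd : ∀ y, (zP y).totalDegree ≤ D
  zd' : ∀ S, (zH S).totalDegree ≤ D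
  ze : ∀ y, DepC c 2 (zP y)
  ze' : ∀ S, DepC c 2 (zH S)
  zc : ∀ ω, B ω → zP (ptr F J ω) = zH (slam F W ω)
  inp : InpL F B W N K b Lx (2 ^ y) (yv F c W (g 0 1) (fun S => pH S 1)) (fun k => A k - W) f f' kf
  val : ∀ k ≤ N, ∀ ω, B ω → |eval (yv F c W (g 0 1) (fun S => pH S 1) ω) (f k (ptr F J ω)) -
    2 ^ g₃ * (F.x ω (c 3) - eval (bt F ω) (Gx (ptr F J ω) + zP (ptr F J ω)))| ≤
    2 ^ y * (1 / 2 ^ (A k - W)) ^ b
  gT : ∀ k ≤ N, ∀ ω, B ω → ∀ b', NBx c (G k (ptr F J ω)) (g k) (A k) (F.t ω) 3 b' → ∀ l < 3,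
    |eval b' (pderiv (some (c l)) (Gx (ptr F J ω) + zP (ptr F J ω)))| ≤
      2 ^ (X + nlp (fun j => if j < 3 then g 0 j else g₃) l 3)
  gz : ∀ ω, B ω → ∀ b' : Option (Fin m) → ℝ, b' none = F.t ω →
    (∀ l < 2, |b' (some (c l)) - F.x ω (c l)| ≤ 1 / 2 ^ J) → ∀ l < 2,
    |eval b' (pderiv (some (c l)) (zP (ptr F J ω)))| ≤
      2 ^ (X + nlp (fun j => if j < 3 then g 0 j else g₃) l 3)
  near : ∀ ω, B ω → ∀ r, Bx (1 / 2 ^ (A N - W)) r →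
    |eval (yv F c W (g 0 1) (fun S => pH S 1) ω + r) (kf (slam F W ω)) -
      eval (yv F c W (g 0 1) (fun S => pH S 1) ω + r) (f N (ptr F J ω))| ≤
      2 ^ (y + Lx) * (2 ^ g₃ / 2 ^ gS)

end Pool.STB
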