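import Pool.Agent.H98.STB.CutA
import Pool.Agent.H98.STB.Cut0

/-!
# The cut of a loss at the last ball

`nat_evL`: the input with a loss at the ball `N` gives the input at a ball `N₁`, by a truncation.
-/

set_option autoImplicit false

namespace Pool.STB

open Finset Real MvPolynomial
open Pool.Agent.H49.Ent Pool.Agent.H32.Dense Pool.STK Pool.KA Pool.KSAT Pool.K2S Pool.PB Pool.S6C
open Pool.GEN Pool.D2Con Pool.D2A Pool.RCD
open Pool.STB65
open Pool.PB.Trl (rt rt_mem t_rt)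
open Pool.FLF (Fam.sub)
open Pool.NFT33 (rem_evs)

/-- **The cut**: from a loss at the last ball `N` to no loss at the ball `N₁`, by the truncation at
the transversal order `b - 1`. -/
theorem nat_evL (m K b : ℕ) (hK : 1 ≤ K) (hb1 : 1 ≤ b) (hbK : b ≤ K) : ∃ E : ℕ, ∀ N : ℕ,
    ∃ C : ℝ, 1 ≤ C ∧
    ∀ {J : ℕ} (F : Fam m J) (B : F.Ω → Prop) (hB : 0 < Pe F.p B) (W₀ N₁ Lx : ℕ) (Y θ : ℝ)
      (y : F.Ω → V3) (h : LnT F → Fin 3 → Polynomial ℝ) (e : ℕ → ℕ) (f : ℕ → PtT F → Po)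
      (f' : ℕ → LnT F → Po) (kf : LnT F → Po),
      InpL F B W₀ N K b Lx Y y e f f' kf → N₁ ≤ N → e N₁ + Lx ≤ e N →
      (∀ s j, (h s j).natDegree ≤ K) → (∀ s, h s 0 = Polynomial.X) →
      (∀ ω, B ω → ∀ j, y ω j = (h (slam F W₀ ω) j).eval (rt F W₀ ω)) →
      (∀ ω, B ω → ∀ j, ∀ τ ∈ Set.Icc (0 : ℝ) 1,
        |(Polynomial.derivative (h (slam F W₀ ω) j)).eval τ| ≤ Y) →
      W₀ ≤ J → C ≤ Y → 0 ≤ θ → (Fam.sub F B hB).Tm θ →
      C * (θ + 1) ≤ ((J : ℝ) - W₀) * Real.log 2 → Real.exp (C * (θ + 1)) ≤ Y →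
      ∃ B' : F.Ω → Prop, Sub B' B ∧ Pe F.p B / 2 ≤ Pe F.p B' ∧
        InpF F B' W₀ N₁ (K * (K * K)) b (Y ^ E) y e f f'
          (fun s => ka (K * K) (b - 1) (h s) (kf s)) := by
  classical
  obtain ⟨K', hK'⟩ : ∃ K', K' = K * K := ⟨_, rfl⟩
  obtain ⟨K₂, hK₂⟩ : ∃ K₂, K₂ = K * (K * K) := ⟨_, rfl⟩
  have hKK' : K ≤ K' := by rw [hK']; nlinarith
  have hKK₂ : K ≤ K₂ := by rw [hK₂]; nlinarith [Nat.mul_le_mul hK hK]
  obtain ⟨C₁, hC₁, hrem⟩ := rem_evs m K'
  obtain ⟨C₂, hC₂, huni⟩ := uni_der K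
  obtain ⟨C₄, hC₄, hnat⟩ := nat_one K' (b - 1) ((Nat.sub_le _ _).trans (hbK.trans hKK'))
  obtain ⟨C₅, hC₅, hgr⟩ := grow_at K'
  obtain ⟨E₁, hE₁⟩ : ∃ E₁, E₁ = (b + 6 + 3 * K') + ((b + 2) * (K' + 1) + 1) := ⟨_, rfl⟩
  refine ⟨E₁ + (b + 1), fun N => ?_⟩
  obtain ⟨C₃, hC₃, hchain⟩ := chain_hc K b N
  obtain ⟨C₆, hC₆, hdown⟩ := downL K₂ b N
  obtain ⟨C₇, hC₇, hnr7⟩ := hc_near K₂
  obtain ⟨C, hC⟩ : ∃ C : ℝ, C = C₁ + C₂ + C₃ + C₄ + C₅ + C₆ + C₇ + (b + 1) + 2 := ⟨_, rfl⟩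
  have hb0 : (0 : ℝ) ≤ b := Nat.cast_nonneg b
  refine ⟨C, by rw [hC]; linarith, ?_⟩
  intro J F B hB W₀ N₁ Lx Y θ y h e f f' kf hin hN₁ heL hd h0 hy hv hW hCY hθ hTm hJ hexp
  have y1 : C₁ ≤ Y := by linarith
  have y2 : C₂ ≤ Y := by linarith
  have y3 : C₃ ≤ Y := by linarith
  have y4 : C₄ ≤ Y := by linarith
  have y5 : C₅ ≤ Y := by linarith
  have y6 : C₆ ≤ Y := by linarith
  have y7 : (b : ℝ) + 1 ≤ Y := by linarith
  have y8 : C₇ ≤ Y := by linarith
  have hY1 : 1 ≤ Y := by linarith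
  have hY9 : 9 ≤ Y := by linarith
  have hY0 : 0 ≤ Y := by linarith
  have pY : ∀ {a c : ℕ}, a ≤ c → Y ^ a ≤ Y ^ c := fun h => pow_le_pow_right₀ hY1 h
  have hpY : ∀ a : ℕ, 1 ≤ Y ^ a := fun a => one_le_pow₀ hY1
  have hε : ∀ j : ℕ, (0 : ℝ) < 1 / 2 ^ e j ∧ (1 : ℝ) / 2 ^ e j ≤ 1 := by
    intro j
    refine ⟨by positivity, ?_⟩
    rw [div_le_one (by positivity)]
    exact one_le_pow₀ (by norm_num)
  have hΘ : ∀ j < N, (1 : ℝ) / 2 ^ e (j + 1) ≤ 1 / 2 ^ e j ∧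
      (1 : ℝ) / 2 ^ e j ≤ Y * (1 / 2 ^ e (j + 1)) := by
    intro j hj
    obtain ⟨e1, e2⟩ := hin.em j hj
    refine ⟨one_div_le_one_div_of_le (by positivity) (pow_le_pow_right₀ (by norm_num) e1), ?_⟩
    rw [mul_one_div, div_le_div_iff₀ (by positivity) (by positivity), one_mul]
    exact e2
  -- the heights
  have hder : ∀ ω, B ω → ∀ j t, |t| ≤ 2 →
      |(Polynomial.derivative (h (slam F W₀ ω) j)).eval t| ≤ Y ^ 2 := by
    intro ω hω j t ht
    have h1 := (huni (Polynomial.derivative (h (slam F W₀ ω) j)) Y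
      ((Polynomial.natDegree_derivative_le _).trans ((Nat.sub_le _ _).trans (hd _ _)))
      (hv ω hω j) t ht).1
    refine h1.trans ?_
    rw [sq]
    exact mul_le_mul_of_nonneg_right y2 hY0
  have hash : ∀ ω, B ω → ∀ τ ∈ Set.Icc (0 : ℝ) 1, ∀ j x, |x| ≤ 1 →
      |ash (h (slam F W₀ ω)) τ j x| ≤ Y ^ 2 * |x| := by
    intro ω hω τ hτ j x hx
    have hx' := abs_le.1 hx
    have h1 := pol_lip (h (slam F W₀ ω) j) (a := -1) (b := 2) (M := Y ^ 2) (fun t ht =>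
      hder ω hω j t (by
        rw [abs_le]
        constructor <;> linarith [ht.1, ht.2])) (x := τ) (y := τ + x)
      ⟨by linarith [hτ.1], by linarith [hτ.2]⟩ ⟨by linarith [hτ.1], by linarith [hτ.2]⟩
    rw [add_sub_cancel_left] at h1
    exact h1
  have hylp : ∀ ω, B ω → y ω = lp (h (slam F W₀ ω)) (rt F W₀ ω) := fun ω hω =>
    funext fun j => hy ω hω j
  -- the samples
  obtain ⟨U, hU⟩ : ∃ U : ℝ, U = Y ^ (b + 2) := ⟨_, rfl⟩
  have hU1 : 1 ≤ U := by rw [hU]; exact hpY _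
  have hεe : ∀ i j, i ≤ j → j ≤ N → (1 : ℝ) / 2 ^ e j ≤ 1 / 2 ^ e i := by
    intro i j hij
    induction j, hij using Nat.le_induction with
    | base => exact fun _ => le_rfl
    | succ j hij ih => exact fun hj => (hΘ j (by omega)).1.trans (ih (by omega))
  have hδ : (2 : ℝ) ^ Lx * (1 / 2 ^ e N) ≤ 1 / 2 ^ e N₁ := by
    rw [mul_one_div, div_le_div_iff₀ (by positivity) (by positivity), one_mul, ← pow_add]
    exact pow_le_pow_right₀ (by norm_num) (by omega)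
  have hsam : ∀ ω, B ω →
      ∀ n ≤ b - 1, ∀ η : V3, (∀ i, i ≠ 0 → |η i| ≤ 1) → η 0 = rt F W₀ ω →
        |eval η (thc K' n (shp (h (slam F W₀ ω)) (kf (slam F W₀ ω))))| ≤ C₄ * U := by
    intro ω hω
    obtain ⟨hs, hhs⟩ : ∃ hs, hs = h (slam F W₀ ω) := ⟨_, rfl⟩
    obtain ⟨k, hk⟩ : ∃ k, k = kf (slam F W₀ ω) := ⟨_, rfl⟩
    have hyω := hylp ω hω
    have haω := hash ω hω (rt F W₀ ω) (rt_mem F W₀ ω)
    have hnr := hin.nr ω hω
    have hs0 : hs 0 = Polynomial.X := by rw [hhs]; exact h0 _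
    rw [← hhs] at hyω haω ⊢
    rw [← hk] at hnr ⊢
    have hkd : k.totalDegree ≤ K := by rw [hk]; exact hin.kd _
    have hQd : (shp hs k).totalDegree ≤ K' := by
      rw [hK']
      exact deg_shp hK (fun i => by rw [hhs]; exact hd _ i) hkd
    have hcomp := hchain (fun j => trs (y ω) (f j (ptr F J ω))) (fun j => 1 / 2 ^ e j) Y Y
      (fun j _ => (deg_trs _ _).trans (hin.fd j _)) (fun j _ => hε j) hY1 hY1 hΘ
      (fun q hq => by
        rw [eval_trs, add_comm]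
        exact hin.f0 ω hω q hq)
      (fun j hj q hq => by
        rw [eval_trs, eval_trs, add_comm]
        exact hin.ch ω hω j hj q hq)
    have hεN := hε N
    have hpb : ((1 : ℝ) / 2 ^ e N) ^ b = 1 / 2 ^ e N * (1 / 2 ^ e N) ^ (b - 1) := by
      rw [← pow_succ', Nat.sub_add_cancel hb1]
    refine (hnat (shp hs k) (trs (y ω) k) (trs (y ω) (f N (ptr F J ω))) (rt F W₀ ω)
      (1 / 2 ^ e N) U (ash hs (rt F W₀ ω) 1) (ash hs (rt F W₀ ω) 2) hQd
      ((deg_trs _ _).trans (hkd.trans hKK')) ((deg_trs _ _).trans ((hin.fd N _).trans hKK'))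
      (hε N).1 (hε N).2 hU1 (ash_zero _ _ _) (ash_zero _ _ _)
      (fun x hx => by
        have h3 : ∀ j, |ash hs (rt F W₀ ω) j x| ≤ U * (1 / 2 ^ e N) := by
          intro j
          refine (haω j x (hx.trans (hε N).2)).trans ?_
          refine mul_le_mul ?_ hx (abs_nonneg _) (by linarith)
          rw [hU]
          exact pY (by omega)
        exact ⟨h3 1, h3 2⟩)
      (fun r => by
        rw [eval_trs, add_comm, hyω]
        exact frame_k hs0 k _ r)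
      (fun r hr => by
        rw [eval_trs, eval_trs, add_comm]
        refine (hnr r hr).trans ?_
        rw [hpb]
        have h4 : (2 : ℝ) ^ Lx * (1 / 2 ^ e N) ≤ 1 := hδ.trans (hε N₁).2
        have h5 : Y ≤ U := by
          rw [hU]
          calc Y = Y ^ 1 := (pow_one Y).symm
            _ ≤ _ := pY (by omega)
        have h6 : 0 ≤ ((1 : ℝ) / 2 ^ e N) ^ (b - 1) := by positivity
        calc Y * 2 ^ Lx * (1 / 2 ^ e N * (1 / 2 ^ e N) ^ (b - 1)) =
            Y * (2 ^ Lx * (1 / 2 ^ e N)) * (1 / 2 ^ e N) ^ (b - 1) := by ring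
          _ ≤ U * 1 * (1 / 2 ^ e N) ^ (b - 1) := by
              refine mul_le_mul_of_nonneg_right ?_ h6
              exact mul_le_mul h5 h4 (by positivity) (by linarith)
          _ = _ := by rw [mul_one])
      (fun n r hr => by
        refine (hcomp n r hr).trans ?_
        have h7 : C₃ * Y * Y ^ b ≤ U := by
          rw [hU]
          calc C₃ * Y * Y ^ b = C₃ * Y ^ (b + 1) := by rw [pow_succ]; ring
            _ ≤ _ := mul_pow_le hY0 y3 (b + 1)
        refine mul_le_mul h7 ?_ (le_trans zero_le_one (le_max_left _ _)) (by linarith)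
        refine max_le_max le_rfl ?_
        refine mul_le_mul_of_nonneg_right ?_ (pow_nonneg (by positivity) _)
        exact pow_le_pow_of_le_one hεN.1.le hεN.2 (Nat.sub_le _ _))).1
  -- all times
  obtain ⟨ι, hι⟩ : ∃ ι : Type, ι = {p : ℕ × V3 // p.1 ≤ b - 1 ∧ ∀ i, i ≠ 0 → |p.2 i| ≤ 1} := ⟨_, rfl⟩
  subst hι
  have hU4 : 0 < C₄ * U := by positivity
  obtain ⟨B', hB', hP', hall⟩ := hrem F B hB W₀
    (ι := {p : ℕ × V3 // p.1 ≤ b - 1 ∧ ∀ i, i ≠ 0 → |p.2 i| ≤ 1})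
    (fun s a => tml (thc K' a.1.1 (shp (h s) (kf s))) a.1.2) (fun _ => C₄ * U) θ hW
    (fun s a => deg_tml (deg_thc K' _ (by
      rw [hK']
      exact deg_shp hK (fun i => hd s i) (hin.kd s))) _) (fun _ => hU4) hθ hTm
    (by
      have : C₁ * (θ + 1) ≤ C * (θ + 1) := by
        refine mul_le_mul_of_nonneg_right ?_ (by linarith)
        rw [hC]
        linarith
      linarith)
    (fun ω hω a => by
      rw [eval_tml]
      refine hsam ω hω a.1.1 a.2.1 _ (fun i hi => ?_) ?_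
      · rw [if_neg hi]
        exact a.2.2 i hi
      · exact if_pos rfl)
  obtain ⟨E, hE⟩ : ∃ E, E = E₁ + (b + 1) := ⟨_, rfl⟩
  rw [← hE]
  have hYE : Y ≤ Y ^ E := by
    calc Y = Y ^ 1 := (pow_one Y).symm
      _ ≤ _ := pY (by omega)
  have hKK₂' : K ≤ K * (K * K) := by rw [← hK₂]; exact hKK₂
  refine ⟨B', hB', hP', ?_⟩
  refine
    { fd := fun j p => (hin.fd j p).trans hKK₂'
      kd := fun s => deg_ka hK (fun i => hd _ i) (hin.kd s)
      em := fun j hj => ⟨(hin.em j (by omega)).1, (hin.em j (by omega)).2.trans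
        (mul_le_mul_of_nonneg_right hYE (by positivity))⟩
      f0 := fun ω hω r hr => (hin.f0 ω (hB' ω hω) r hr).trans hYE
      ch := fun ω hω j hj r hr => (hin.ch ω (hB' ω hω) j (by omega) r hr).trans
        (mul_le_mul_of_nonneg_right hYE (by positivity))
      nr := fun ω hω => ?_
      fd' := fun j s => (hin.fd' j s).trans hKK₂'
      agr := fun j hj ω hω r hr => (hin.agr j (by omega) ω (hB' ω hω) r hr).trans
        (mul_le_mul_of_nonneg_right hYE (by positivity)) }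
  have hωB := hB' ω hω
  obtain ⟨hs, hhs⟩ : ∃ hs, hs = h (slam F W₀ ω) := ⟨_, rfl⟩
  obtain ⟨k, hk⟩ : ∃ k, k = kf (slam F W₀ ω) := ⟨_, rfl⟩
  have hyω := hylp ω hωB
  have haω := hash ω hωB
  have hs0 : hs 0 = Polynomial.X := by rw [hhs]; exact h0 _
  have hkd : k.totalDegree ≤ K := by rw [hk]; exact hin.kd _
  have hQd : (shp hs k).totalDegree ≤ K' := by
    rw [hK']
    exact deg_shp hK (fun i => by rw [hhs]; exact hd _ i) hkd
  have hthc : ∀ n ≤ b - 1, ∀ η : V3, (∀ i, i ≠ 0 → |η i| ≤ 1) → η 0 ∈ Set.Icc (0 : ℝ) 1 →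
      |eval η (thc K' n (shp hs k))| ≤ Y ^ (b + 4) := by
    intro n hn η hη hη0
    have h1 := hall ω hω ⟨(n, η), hn, hη⟩ (η 0) hη0
    rw [eval_tml, pt_zero, ← hhs, ← hk] at h1
    refine h1.trans ?_
    have h2 : Real.exp (C₁ * (θ + 1)) ≤ Y := by
      refine le_trans (Real.exp_le_exp.2 ?_) hexp
      refine mul_le_mul_of_nonneg_right ?_ (by linarith)
      rw [hC]
      linarith
    calc Real.exp (C₁ * (θ + 1)) * (C₄ * U) ≤ Y * Y ^ (b + 3) := by
          refine mul_le_mul h2 ?_ hU4.le hY0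
          rw [hU]
          exact mul_pow_le hY0 y4 (b + 2)
      _ = _ := by rw [← pow_succ']
  rw [← hhs, ← hk, ← hK']
  rw [← hhs] at hyω haω
  have htrl : ∀ η : V3, Bx (1 / 2) (η - fun i => if i = 0 then 1 / 2 else 0) →
      |eval η (trl K' (b - 1) (shp hs k))| ≤ Y ^ (b + 5) := by
    intro η hη
    have h1 := abs_le.1 (hη 0)
    rw [Pi.sub_apply, if_pos rfl] at h1
    rw [eval_trl]
    refine (Finset.abs_sum_le_sum_abs _ _).trans ?_
    have h2 : ∀ n ∈ range (b - 1 + 1), |eval η (thc K' n (shp hs k))| ≤ Y ^ (b + 4) := by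
      intro n hn
      refine hthc n (Nat.lt_succ_iff.1 (mem_range.1 hn)) η (fun i hi => ?_)
        ⟨by linarith [h1.1], by linarith [h1.2]⟩
      have h3 := hη i
      rw [Pi.sub_apply, if_neg hi, sub_zero] at h3
      linarith
    refine (Finset.sum_le_sum h2).trans ?_
    rw [Finset.sum_const, card_range, nsmul_eq_mul, Nat.sub_add_cancel hb1]
    exact mul_pow_le hY0 (by linarith) (b + 4)
  have hnatB : ∀ τ ∈ Set.Icc (0 : ℝ) 1, ∀ s, Bx 1 s →
      |eval (lp hs τ + s) (ka K' (b - 1) hs k)| ≤ Y ^ (b + 6 + 3 * K') := by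
    intro τ hτ s hs1
    rw [frame_ka hs0]
    have h1 := hgr (trl K' (b - 1) (shp hs k)) 0 (fun i => if i = 0 then 1 / 2 else 0) (Y ^ (b + 5))
      (1 / 2) (1 + Y ^ 2) (deg_trl K' (b - 1) hQd) (by rw [totalDegree_zero]; exact Nat.zero_le _)
      (by norm_num) (by nlinarith) (fun q hq => by
        rw [map_zero, sub_zero]
        exact htrl q hq) (psi τ (ash hs τ 1) (ash hs τ 2) s) (fun i => by
        have a0 := abs_le.1 (hs1 0)
        have b0 := hτ.1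
        have b1 := hτ.2
        have hsi : ∀ i, |ash hs τ i (s 0)| ≤ Y ^ 2 := fun i =>
          (haω τ hτ i (s 0) (hs1 0)).trans (mul_le_of_le_one_right (by positivity) (hs1 0))
        have hY4 : 4 ≤ Y ^ 2 := by nlinarith
        rw [Pi.sub_apply]
        fin_cases i
        · simp only [psi, Fin.zero_eta, Fin.isValue, ite_true]
          rw [abs_le]
          constructor <;> linarith [a0.1, a0.2]
        · have h3 := hsi 1
          have h4 := hs1 1
          simp only [psi, Fin.mk_one, Fin.isValue, one_ne_zero, ite_false, ite_true, sub_zero]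
          refine (abs_sub _ _).trans ?_
          linarith
        · have h3 := hsi 2
          have h4 := hs1 2
          simp only [psi, Fin.reduceFinMk, Fin.isValue, Fin.reduceEq, ite_false, sub_zero]
          refine (abs_sub _ _).trans ?_
          linarith)
    rw [map_zero, sub_zero] at h1
    refine h1.trans ?_
    have h2 : (1 + Y ^ 2) / (1 / 2) ≤ Y ^ 3 := by
      have h4 : (1 : ℝ) ≤ Y ^ 2 := hpY 2
      have h5 : Y ^ 3 = Y ^ 2 * Y := by ring
      rw [h5]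
      nlinarith
    calc C₅ * Y ^ (b + 5) * ((1 + Y ^ 2) / (1 / 2)) ^ K' ≤ Y ^ (b + 6) * (Y ^ 3) ^ K' :=
          mul_le_mul (mul_pow_le hY0 y5 (b + 5)) (pow_le_pow_left₀ (by positivity) h2 _)
            (by positivity) (by positivity)
      _ = _ := by rw [← pow_mul, ← pow_add]
  -- down the chain
  have hT1 : ∀ q, Bx 1 q → |eval q (trs (y ω) (ka K' (b - 1) hs k))| ≤ Y ^ E₁ := by
    intro q hq
    rw [eval_trs, add_comm, hyω]
    exact (hnatB _ (rt_mem F W₀ ω) q hq).trans (pY (by omega))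
  have hTd : (trs (y ω) (ka K' (b - 1) hs k)).totalDegree ≤ K₂ := (deg_trs _ _).trans (by
    rw [hK₂, hK']
    exact deg_ka hK (fun i => by rw [hhs]; exact hd _ i) hkd)
  have hfN : (trs (y ω) (f N (ptr F J ω))).totalDegree ≤ K₂ :=
    (deg_trs _ _).trans ((hin.fd N _).trans hKK₂)
  have hkK : (trs (y ω) k).totalDegree ≤ K₂ := (deg_trs _ _).trans (hkd.trans hKK₂)
  have hlow : ∀ n < b, ∀ q, Bx 1 q → |eval q (homogeneousComponent n
      (trs (y ω) (ka K' (b - 1) hs k))) -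
      eval q (homogeneousComponent n (trs (y ω) (f N (ptr F J ω))))| ≤
      Y ^ E₁ * (1 / 2 ^ e N₁) ^ (b - n) := by
    intro n hn q hq
    have ha := haω (rt F W₀ ω) (rt_mem F W₀ ω)
    have e1 := low_hc (K := K') (K₂ := K₂) (b := b - 1) (Q := shp hs k) (κ := trs (y ω) k)
      (T := trs (y ω) (ka K' (b - 1) hs k)) hQd hkK hTd (τ := rt F W₀ ω) (A := Y ^ 2)
      (a₁ := ash hs (rt F W₀ ω) 1) (a₂ := ash hs (rt F W₀ ω) 2) (by positivity)
      (fun x hx => ha 1 x hx) (fun x hx => ha 2 x hx)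
      (fun r => by
        rw [eval_trs, add_comm, hyω]
        exact frame_k hs0 k _ r)
      (fun r => by rw [eval_trs, add_comm, hyω, frame_ka hs0]) (n := n) (by omega) hq
    rw [← e1]
    have h1 := hnr7 (trs (y ω) k) (trs (y ω) (f N (ptr F J ω))) (Y * 2 ^ Lx * (1 / 2 ^ e N) ^ b)
      (1 / 2 ^ e N) hkK hfN (hε N).1 (fun z hz => by
        rw [eval_trs, eval_trs, add_comm]
        have h2 := hin.nr ω hωB z hz
        rw [← hk] at h2
        exact h2) n q hq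
    refine h1.trans ?_
    have h3 : ((1 : ℝ) / 2 ^ e N) ^ b * (1 / (1 / 2 ^ e N)) ^ n = (1 / 2 ^ e N) ^ (b - n) :=
      pow_quo (hε N).1 hn.le
    obtain ⟨d, hd'⟩ : ∃ d, b - n = d + 1 := ⟨b - n - 1, by omega⟩
    have h4 : (2 : ℝ) ^ Lx * ((1 : ℝ) / 2 ^ e N) ^ (b - n) ≤ (1 / 2 ^ e N₁) ^ (b - n) := by
      rw [hd', pow_succ, pow_succ]
      have h5 : ((1 : ℝ) / 2 ^ e N) ^ d ≤ (1 / 2 ^ e N₁) ^ d :=
        pow_le_pow_left₀ (by positivity) (hεe N₁ N hN₁ le_rfl) d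
      calc (2 : ℝ) ^ Lx * ((1 / 2 ^ e N) ^ d * (1 / 2 ^ e N)) =
          (1 / 2 ^ e N) ^ d * (2 ^ Lx * (1 / 2 ^ e N)) := by ring
        _ ≤ (1 / 2 ^ e N₁) ^ d * (1 / 2 ^ e N₁) :=
            mul_le_mul h5 hδ (by positivity) (by positivity)
    have h6 : C₇ * Y ≤ Y ^ E₁ := by
      calc C₇ * Y ≤ Y * Y := mul_le_mul_of_nonneg_right y8 hY0
        _ = Y ^ 2 := (sq Y).symm
        _ ≤ _ := pY (by omega)
    calc C₇ * (Y * 2 ^ Lx * (1 / 2 ^ e N) ^ b) * (1 / (1 / 2 ^ e N)) ^ n =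
        C₇ * Y * (2 ^ Lx * ((1 / 2 ^ e N) ^ b * (1 / (1 / 2 ^ e N)) ^ n)) := by ring
      _ = C₇ * Y * (2 ^ Lx * (1 / 2 ^ e N) ^ (b - n)) := by rw [h3]
      _ ≤ Y ^ E₁ * (1 / 2 ^ e N₁) ^ (b - n) :=
          mul_le_mul h6 h4 (by positivity) (by positivity)
  intro r hr
  have h1 := hdown (fun j => trs (y ω) (f j (ptr F J ω))) (trs (y ω) (ka K' (b - 1) hs k))
    (fun j => 1 / 2 ^ e j) (Y ^ E₁) Y (1 / 2 ^ e N₁) hTd
    (fun j _ => (deg_trs _ _).trans ((hin.fd j _).trans hKK₂)) (fun j _ => hε j) (hpY _) hY1 hΘ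
    (fun q hq => by
      rw [eval_trs, add_comm]
      refine (hin.f0 ω hωB q hq).trans ?_
      calc Y = Y ^ 1 := (pow_one Y).symm
        _ ≤ _ := pY (by omega))
    (fun j hj q hq => by
      rw [eval_trs, eval_trs, add_comm]
      refine (hin.ch ω hωB j hj q hq).trans (mul_le_mul_of_nonneg_right ?_ (by positivity))
      calc Y = Y ^ 1 := (pow_one Y).symm
        _ ≤ _ := pY (by omega)) hT1 (by positivity) hlow N₁ hN₁ le_rfl r hr
  rw [eval_trs, eval_trs, add_comm r] at h1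
  refine h1.trans (mul_le_mul_of_nonneg_right ?_ (by positivity))
  calc C₆ * Y ^ E₁ * Y ^ b ≤ Y ^ (E₁ + 1) * Y ^ b :=
        mul_le_mul_of_nonneg_right (mul_pow_le hY0 y6 E₁) (by positivity)
    _ = _ := by rw [← pow_add, hE]; congr 1; ring

end Pool.STB
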