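import Pool.Agent.H65.STB.Knt

/-!
# The components of low order of a truncation

`low_hc`: a polynomial and its transversal truncation at order `b` have the same components of order
at most `b` at a sample. `downL`: down the chain of balls, from the components of low order.
-/

set_option autoImplicit false

namespace Pool.STB

open Finset Real MvPolynomial
open Pool.STB65 (tsc tln eval_tln deg_tln thc thc_coeff sum_thc trl eval_trl deg_trl hc_near hc_le
  chain_hc psi bxm bx_smul sum_hc pow_quo)

theorem tsc_tsc (x s : ℝ) (η : V3) : tsc x (tsc s η) = tsc (x * s) η := by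
  funext i
  by_cases h : i = 0
  · simp [tsc, h]
  · simp only [tsc, h, ite_false]
    ring

/-- The homogeneity of the transversal components. -/
theorem thc_tsc {Q : Po} {K : ℕ} (hQ : Q.totalDegree ≤ K) (n : ℕ) (s : ℝ) (η : V3) :
    eval (tsc s η) (thc K n Q) = s ^ n * eval η (thc K n Q) := by
  rw [thc_coeff hQ, thc_coeff hQ]
  have h1 : tln Q (tsc s η) = (tln Q η).comp (Polynomial.C s * Polynomial.X) := by
    refine Polynomial.funext fun x => ?_
    rw [eval_tln, tsc_tsc, Polynomial.eval_comp, Polynomial.eval_mul, Polynomial.eval_C,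
      Polynomial.eval_X, eval_tln, mul_comm]
  rw [h1, Polynomial.comp_C_mul_X_coeff, mul_comm]

/-- A polynomial is bounded on a box. -/
theorem bd_box (P : Po) (R : ℝ) : ∃ M : ℝ, 0 ≤ M ∧ ∀ q, Bx R q → |eval q P| ≤ M := by
  obtain ⟨M, hM⟩ := (isCompact_closedBall (0 : V3) |R|).exists_bound_of_continuousOn
    (f := fun q => eval q P) (MvPolynomial.continuous_eval P).continuousOn
  refine ⟨max M 0, le_max_right _ _, fun q hq => ?_⟩
  refine le_trans ?_ (le_max_left _ _)
  have h1 := hM q (by
    rw [mem_closedBall_zero_iff, pi_norm_le_iff_of_nonneg (abs_nonneg R)]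
    intro i
    rw [Real.norm_eq_abs]
    exact (hq i).trans (le_abs_self R))
  rwa [Real.norm_eq_abs] at h1

/-- **The components of low order** of a polynomial and of its truncation. -/
theorem low_hc {K K₂ b : ℕ} {Q κ T : Po} (hQ : Q.totalDegree ≤ K)
    (hκ : κ.totalDegree ≤ K₂) (hT : T.totalDegree ≤ K₂) {τ A : ℝ} {a₁ a₂ : ℝ → ℝ} (hA : 0 ≤ A)
    (h1 : ∀ x, |x| ≤ 1 → |a₁ x| ≤ A * |x|) (h2 : ∀ x, |x| ≤ 1 → |a₂ x| ≤ A * |x|)
    (e1 : ∀ r, eval r κ = eval (psi τ a₁ a₂ r) Q)
    (e2 : ∀ r, eval r T = eval (psi τ a₁ a₂ r) (trl K b Q)) {n : ℕ} (hn : n ≤ b) {q : V3}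
    (hq : Bx 1 q) :
    eval q (homogeneousComponent n κ) = eval q (homogeneousComponent n T) := by
  classical
  obtain ⟨C, hC, hnear⟩ := hc_near K₂
  -- a bound of the components
  obtain ⟨R, hR⟩ : ∃ R : ℝ, R = |τ| + 1 + A := ⟨_, rfl⟩
  have hbd : ∀ k : ℕ, ∃ M : ℝ, 0 ≤ M ∧ ∀ z, Bx R z → |eval z (thc K k Q)| ≤ M :=
    fun k => bd_box _ R
  choose M hM0 hM using hbd
  obtain ⟨S, hS⟩ : ∃ S : ℝ, S = ∑ k ∈ range (K + 1), M k := ⟨_, rfl⟩
  have hS0 : 0 ≤ S := by rw [hS]; exact sum_nonneg fun k _ => hM0 k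
  have key : ∀ s : ℝ, 0 < s → s ≤ 1 → ∀ z, Bx s z → |eval z κ - eval z T| ≤ S * s ^ (b + 1) := by
    intro s hs hs1 z hz
    obtain ⟨η, hη⟩ : ∃ η : V3, η = fun i => if i = 0 then τ + z 0 else psi τ a₁ a₂ z i / s :=
      ⟨_, rfl⟩
    have hpsi : psi τ a₁ a₂ z = tsc s η := by
      funext i
      rw [hη]
      fin_cases i
      · simp [psi, tsc]
      · simp only [psi, tsc, Fin.mk_one, Fin.isValue, one_ne_zero, ite_false, ite_true]
        field_simp
      · simp only [psi, tsc, Fin.reduceFinMk, Fin.isValue, Fin.reduceEq, ite_false]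
        field_simp
    have hz0 := hz 0
    have hηR : Bx R η := by
      intro i
      rw [hη, hR]
      have hτ := abs_nonneg τ
      fin_cases i
      · simp only [Fin.zero_eta, Fin.isValue, ite_true]
        refine (abs_add_le _ _).trans ?_
        linarith
      · simp only [psi, Fin.mk_one, Fin.isValue, one_ne_zero, ite_false, ite_true]
        rw [abs_div, abs_of_pos hs, div_le_iff₀ hs]
        have h3 := h1 (z 0) (hz0.trans hs1)
        have h4 := hz 1
        refine (abs_sub _ _).trans ?_
        have h5 : A * |z 0| ≤ A * s := mul_le_mul_of_nonneg_left hz0 hA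
        have h6 : 0 ≤ |τ| * s := by positivity
        nlinarith
      · simp only [psi, Fin.reduceFinMk, Fin.isValue, Fin.reduceEq, ite_false]
        rw [abs_div, abs_of_pos hs, div_le_iff₀ hs]
        have h3 := h2 (z 0) (hz0.trans hs1)
        have h4 := hz 2
        refine (abs_sub _ _).trans ?_
        have h5 : A * |z 0| ≤ A * s := mul_le_mul_of_nonneg_left hz0 hA
        have h6 : 0 ≤ |τ| * s := by positivity
        nlinarith
    have e3 : eval z κ - eval z T = ∑ k ∈ (range (K + 1)).filter (fun k => b < k),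
        eval (tsc s η) (thc K k Q) -
        ∑ k ∈ (range (b + 1)).filter (fun k => K < k), eval (tsc s η) (thc K k Q) := by
      rw [e1, e2, hpsi, sum_thc hQ, eval_trl]
      have s1 := Finset.sum_filter_add_sum_filter_not (range (K + 1)) (fun k => b < k)
        (fun k => eval (tsc s η) (thc K k Q))
      have s2 := Finset.sum_filter_add_sum_filter_not (range (b + 1)) (fun k => K < k)
        (fun k => eval (tsc s η) (thc K k Q))
      have s3 : (range (K + 1)).filter (fun k => ¬ b < k) =
          (range (b + 1)).filter (fun k => ¬ K < k) := by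
        ext k
        simp only [mem_filter, mem_range]
        omega
      rw [← s1, ← s2, s3]
      ring
    have e4 : ∑ k ∈ (range (b + 1)).filter (fun k => K < k), eval (tsc s η) (thc K k Q) = 0 := by
      refine Finset.sum_eq_zero fun k hk => ?_
      rw [thc_coeff hQ]
      exact Polynomial.coeff_eq_zero_of_natDegree_lt
        ((deg_tln hQ _).trans_lt (mem_filter.1 hk).2)
    rw [e3, e4, sub_zero]
    refine (Finset.abs_sum_le_sum_abs _ _).trans ?_
    have h3 : ∀ k ∈ (range (K + 1)).filter (fun k => b < k),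
        |eval (tsc s η) (thc K k Q)| ≤ M k * s ^ (b + 1) := by
      intro k hk
      rw [thc_tsc hQ, abs_mul, abs_of_pos (by positivity : (0 : ℝ) < s ^ k), mul_comm]
      refine mul_le_mul (hM k η hηR) (pow_le_pow_of_le_one hs.le hs1 (mem_filter.1 hk).2)
        (by positivity) (hM0 k)
    refine (Finset.sum_le_sum h3).trans ?_
    rw [← Finset.sum_mul, hS]
    refine mul_le_mul_of_nonneg_right ?_ (by positivity)
    exact Finset.sum_le_sum_of_subset_of_nonneg (Finset.filter_subset _ _) fun k _ _ => hM0 k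
  -- the limit
  have hlim : ∀ s : ℝ, 0 < s → s ≤ 1 → |eval q (homogeneousComponent n κ) -
      eval q (homogeneousComponent n T)| ≤ C * S * s := by
    intro s hs hs1
    have h3 := hnear κ T (S * s ^ (b + 1)) s hκ hT hs (key s hs hs1) n q hq
    refine h3.trans ?_
    have h4 : s ^ (b + 1) * (1 / s) ^ n ≤ s := by
      rw [pow_quo hs (by omega)]
      calc s ^ (b + 1 - n) ≤ s ^ 1 := pow_le_pow_of_le_one hs.le hs1 (by omega)
        _ = s := pow_one s
    calc C * (S * s ^ (b + 1)) * (1 / s) ^ n = C * S * (s ^ (b + 1) * (1 / s) ^ n) := by ring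
      _ ≤ _ := mul_le_mul_of_nonneg_left h4 (by positivity)
  by_contra hne
  have hpos : 0 < |eval q (homogeneousComponent n κ) - eval q (homogeneousComponent n T)| :=
    abs_pos.2 (sub_ne_zero.2 hne)
  obtain ⟨d, hd⟩ : ∃ d : ℝ, d = |eval q (homogeneousComponent n κ) -
    eval q (homogeneousComponent n T)| := ⟨_, rfl⟩
  rw [← hd] at hpos hlim
  have hCS : 0 ≤ C * S := by positivity
  obtain ⟨s, hs⟩ : ∃ s : ℝ, s = min 1 (d / (2 * (C * S + 1))) := ⟨_, rfl⟩
  have hs0 : 0 < s := by rw [hs]; exact lt_min one_pos (by positivity)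
  have hs1 : s ≤ 1 := by rw [hs]; exact min_le_left _ _
  have hs2 : s ≤ d / (2 * (C * S + 1)) := by rw [hs]; exact min_le_right _ _
  have h3 := hlim s hs0 hs1
  rw [le_div_iff₀ (by positivity)] at hs2
  nlinarith

/-- **Down the chain, from the components of low order** at the last ball, with a loss which the ball
`N₁` absorbs. -/
theorem downL (K b N : ℕ) : ∃ C : ℝ, 1 ≤ C ∧ ∀ (f : ℕ → Po) (T : Po) (ε : ℕ → ℝ) (U Θ δ : ℝ),
    T.totalDegree ≤ K → (∀ i ≤ N, (f i).totalDegree ≤ K) → (∀ i ≤ N, 0 < ε i ∧ ε i ≤ 1) →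
    1 ≤ U → 1 ≤ Θ → (∀ i < N, ε (i + 1) ≤ ε i ∧ ε i ≤ Θ * ε (i + 1)) →
    (∀ q, Bx 1 q → |eval q (f 0)| ≤ U) →
    (∀ i < N, ∀ q, Bx (ε (i + 1)) q → |eval q (f (i + 1)) - eval q (f i)| ≤ U * ε i ^ b) →
    (∀ q, Bx 1 q → |eval q T| ≤ U) → 0 ≤ δ →
    (∀ n < b, ∀ q, Bx 1 q → |eval q (homogeneousComponent n T) -
      eval q (homogeneousComponent n (f N))| ≤ U * δ ^ (b - n)) →
    ∀ j ≤ N, δ ≤ ε j → ∀ q, Bx (ε j) q →
      |eval q T - eval q (f j)| ≤ C * U * Θ ^ b * ε j ^ b := by
  classical
  choose Cc hCc hcc using fun j => chain_hc K b j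
  obtain ⟨C₁, hC₁, hnear⟩ := hc_near K
  obtain ⟨C₂, hC₂, hle⟩ := hc_le K
  obtain ⟨S, hS⟩ : ∃ S : ℝ, S = ∑ j ∈ range (N + 1), Cc j := ⟨_, rfl⟩
  have hCj : ∀ j ≤ N, Cc j ≤ S := by
    intro j hj
    rw [hS]
    exact Finset.single_le_sum (f := Cc) (fun i _ => by linarith [hCc i])
      (mem_range.2 (Nat.lt_succ_of_le hj))
  have hS1 : 1 ≤ S := (hCc 0).trans (hCj 0 (Nat.zero_le _))
  obtain ⟨C₃, hC₃⟩ : ∃ C₃ : ℝ, C₃ = C₂ + S + (N + 1) * C₁ := ⟨_, rfl⟩
  have hN0 : (0 : ℝ) ≤ N := Nat.cast_nonneg N
  have hK0 : (0 : ℝ) ≤ K := Nat.cast_nonneg K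
  have hC31 : 1 ≤ C₃ := by
    rw [hC₃]
    nlinarith
  refine ⟨(K + 1) * C₃, by nlinarith, ?_⟩
  intro f T ε U Θ δ hT hf hε hU hΘ hr h0 hs hTb hδ hTn j hj hδj q hq
  obtain ⟨hεj, hεj1⟩ := hε j hj
  have hΘb : 1 ≤ Θ ^ b := one_le_pow₀ hΘ
  obtain ⟨z, hz⟩ : ∃ z : V3, z = (ε j)⁻¹ • q := ⟨_, rfl⟩
  have hqz : q = ε j • z := by
    rw [hz, smul_smul, mul_inv_cancel₀ hεj.ne', one_smul]
  have hz1 : Bx 1 z := by
    rw [hz]
    refine bxm (bx_smul hq (inv_nonneg.2 hεj.le)) (le_of_eq ?_)
    rw [inv_mul_cancel₀ hεj.ne']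
  have hmono : ∀ i k, i ≤ k → k ≤ N → ε k ≤ ε i := by
    intro i k hik
    induction k, hik using Nat.le_induction with
    | base => exact fun _ => le_rfl
    | succ k hik ih => exact fun hk => (hr k (by omega)).1.trans (ih (by omega))
  -- one component
  have hcomp : ∀ n ∈ range (K + 1), |eval q (homogeneousComponent n T) -
      eval q (homogeneousComponent n (f j))| ≤ C₃ * U * Θ ^ b * ε j ^ b := by
    intro n _
    rw [hqz, hom_smul (homogeneousComponent_isHomogeneous n T),
      hom_smul (homogeneousComponent_isHomogeneous n (f j)), ← mul_sub, abs_mul,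
      abs_of_pos (by positivity : (0 : ℝ) < ε j ^ n)]
    rcases Nat.lt_or_ge n b with hn | hn
    · -- the low orders
      have hsum : ∀ k, j ≤ k → k ≤ N → |eval z (homogeneousComponent n (f k)) -
          eval z (homogeneousComponent n (f j))| ≤
            ((k - j : ℕ) : ℝ) * (C₁ * U * Θ ^ b * ε j ^ (b - n)) := by
        intro k hjk
        induction k, hjk using Nat.le_induction with
        | base =>
          intro _
          simp
        | succ k hjk ih =>
          intro hk
          have h1 := ih (by omega)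
          obtain ⟨e1, e1'⟩ := hε k (by omega)
          obtain ⟨e2, e2'⟩ := hε (k + 1) hk
          have h2 := hnear (f (k + 1)) (f k) (U * ε k ^ b) (ε (k + 1)) (hf _ hk) (hf _ (by omega))
            e2 (hs k (by omega)) n z hz1
          have h3 : C₁ * (U * ε k ^ b) * (1 / ε (k + 1)) ^ n ≤ C₁ * U * Θ ^ b * ε j ^ (b - n) := by
            have h4 : (1 / ε (k + 1)) ^ n ≤ Θ ^ b * (1 / ε k) ^ n := by
              have h5 : 1 / ε (k + 1) ≤ Θ * (1 / ε k) := by
                rw [mul_one_div, div_le_div_iff₀ e2 e1, one_mul]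
                exact (hr k (by omega)).2
              calc (1 / ε (k + 1)) ^ n ≤ (Θ * (1 / ε k)) ^ n := pow_le_pow_left₀ (by positivity) h5 n
                _ = Θ ^ n * (1 / ε k) ^ n := mul_pow _ _ _
                _ ≤ _ := mul_le_mul_of_nonneg_right (pow_le_pow_right₀ hΘ hn.le) (by positivity)
            have h6 : ε k ^ b * (1 / ε k) ^ n ≤ ε j ^ (b - n) := by
              rw [pow_quo e1 hn.le]
              exact pow_le_pow_left₀ e1.le (hmono j k hjk (by omega)) _
            calc C₁ * (U * ε k ^ b) * (1 / ε (k + 1)) ^ n ≤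
                C₁ * (U * ε k ^ b) * (Θ ^ b * (1 / ε k) ^ n) :=
                  mul_le_mul_of_nonneg_left h4 (by positivity)
              _ = C₁ * U * Θ ^ b * (ε k ^ b * (1 / ε k) ^ n) := by ring
              _ ≤ _ := mul_le_mul_of_nonneg_left h6 (by positivity)
          have e3 : eval z (homogeneousComponent n (f (k + 1))) -
              eval z (homogeneousComponent n (f j)) =
              (eval z (homogeneousComponent n (f (k + 1))) -
                eval z (homogeneousComponent n (f k))) +
              (eval z (homogeneousComponent n (f k)) -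
                eval z (homogeneousComponent n (f j))) := by ring
          rw [e3, show k + 1 - j = (k - j) + 1 by omega]
          refine (abs_add_le _ _).trans ?_
          push_cast
          linarith
      have h1 := hsum N hj le_rfl
      have h2 := hTn n hn z hz1
      have h3 : U * δ ^ (b - n) ≤ C₁ * U * Θ ^ b * ε j ^ (b - n) := by
        have h6 : δ ^ (b - n) ≤ ε j ^ (b - n) := pow_le_pow_left₀ hδ hδj _
        calc U * δ ^ (b - n) ≤ U * ε j ^ (b - n) := mul_le_mul_of_nonneg_left h6 (by positivity)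
          _ = 1 * (U * ε j ^ (b - n)) := (one_mul _).symm
          _ ≤ (C₁ * Θ ^ b) * (U * ε j ^ (b - n)) := by
              refine mul_le_mul_of_nonneg_right ?_ (by positivity)
              exact one_le_mul_of_one_le_of_one_le hC₁ hΘb
          _ = _ := by ring
      have e3 : eval z (homogeneousComponent n T) - eval z (homogeneousComponent n (f j)) =
          (eval z (homogeneousComponent n T) - eval z (homogeneousComponent n (f N))) +
          (eval z (homogeneousComponent n (f N)) - eval z (homogeneousComponent n (f j))) := by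
        ring
      have h4 : |eval z (homogeneousComponent n T) - eval z (homogeneousComponent n (f j))| ≤
          (N + 1) * C₁ * (U * Θ ^ b * ε j ^ (b - n)) := by
        rw [e3]
        refine (abs_add_le _ _).trans ?_
        have h5 : ((N - j : ℕ) : ℝ) ≤ N := by exact_mod_cast Nat.sub_le N j
        have h6 : 0 ≤ C₁ * U * Θ ^ b * ε j ^ (b - n) := by positivity
        have h7 := mul_le_mul_of_nonneg_right h5 h6
        nlinarith
      have h5 : ε j ^ n * ε j ^ (b - n) = ε j ^ b := by
        rw [← pow_add]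
        congr 1
        omega
      calc ε j ^ n * |eval z (homogeneousComponent n T) - eval z (homogeneousComponent n (f j))| ≤
          ε j ^ n * ((N + 1) * C₁ * (U * Θ ^ b * ε j ^ (b - n))) :=
            mul_le_mul_of_nonneg_left h4 (by positivity)
        _ = (N + 1) * C₁ * (U * Θ ^ b * (ε j ^ n * ε j ^ (b - n))) := by ring
        _ = (N + 1) * C₁ * (U * Θ ^ b * ε j ^ b) := by rw [h5]
        _ ≤ C₃ * (U * Θ ^ b * ε j ^ b) := by
            refine mul_le_mul_of_nonneg_right ?_ (by positivity)
            rw [hC₃]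
            linarith
        _ = _ := by ring
    · -- the high orders
      have h1 := hle T U 1 1 hT one_pos one_pos hTb n z hz1
      rw [div_one, one_pow, mul_one] at h1
      have h2 := hcc j f ε U Θ (fun i hi => hf i (by omega)) (fun i hi => hε i (by omega)) hU hΘ
        (fun i hi => hr i (by omega)) h0 (fun i hi => hs i (by omega)) n z hz1
      have h3 : max 1 (ε j ^ b * (1 / ε j) ^ n) = ε j ^ b * (1 / ε j) ^ n := by
        refine max_eq_right ?_
        obtain ⟨d, rfl⟩ : ∃ d, n = b + d := ⟨n - b, by omega⟩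
        rw [pow_add, ← mul_assoc, ← mul_pow, mul_one_div, div_self hεj.ne', one_pow, one_mul]
        exact one_le_pow₀ (by rwa [le_div_iff₀ hεj, one_mul])
      rw [h3] at h2
      have h4 : ε j ^ n ≤ ε j ^ b := pow_le_pow_of_le_one hεj.le hεj1 hn
      have h5 : ε j ^ n * (1 / ε j) ^ n = 1 := by
        rw [← mul_pow, mul_one_div, div_self hεj.ne', one_pow]
      calc ε j ^ n * |eval z (homogeneousComponent n T) - eval z (homogeneousComponent n (f j))| ≤
          ε j ^ n * (C₂ * U + Cc j * U * Θ ^ b * (ε j ^ b * (1 / ε j) ^ n)) := by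
            refine mul_le_mul_of_nonneg_left ?_ (by positivity)
            refine (abs_sub _ _).trans (add_le_add h1 h2)
        _ = ε j ^ n * (C₂ * U) + Cc j * U * Θ ^ b * ε j ^ b * (ε j ^ n * (1 / ε j) ^ n) := by ring
        _ ≤ ε j ^ b * (C₂ * U) + Cc j * U * Θ ^ b * ε j ^ b := by
            rw [h5, mul_one]
            have := mul_le_mul_of_nonneg_right h4 (by positivity : 0 ≤ C₂ * U)
            linarith
        _ ≤ C₂ * U * Θ ^ b * ε j ^ b + S * U * Θ ^ b * ε j ^ b := by
            refine add_le_add ?_ ?_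
            · calc ε j ^ b * (C₂ * U) = C₂ * U * ε j ^ b * 1 := by ring
                _ ≤ C₂ * U * ε j ^ b * Θ ^ b := mul_le_mul_of_nonneg_left hΘb (by positivity)
                _ = _ := by ring
            · refine mul_le_mul_of_nonneg_right ?_ (by positivity)
              refine mul_le_mul_of_nonneg_right ?_ (by positivity)
              exact mul_le_mul_of_nonneg_right (hCj j hj) (by linarith)
        _ = (C₂ + S) * (U * Θ ^ b * ε j ^ b) := by ring
        _ ≤ C₃ * (U * Θ ^ b * ε j ^ b) := by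
            refine mul_le_mul_of_nonneg_right ?_ (by positivity)
            rw [hC₃]
            nlinarith
        _ = _ := by ring
  rw [sum_hc T hT q, sum_hc (f j) (hf j hj) q, ← Finset.sum_sub_distrib]
  refine (Finset.abs_sum_le_sum_abs _ _).trans ((Finset.sum_le_sum hcomp).trans (le_of_eq ?_))
  rw [Finset.sum_const, card_range, nsmul_eq_mul]
  push_cast
  ring

end Pool.STB
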