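import Pool.Agent.H98.STB.Gp
import Pool.Agent.H98.STB.Lip

/-!
# From the star to the constancy of the Taylor polynomial
-/

set_option autoImplicit false

namespace Pool.STB

open Finset Real MvPolynomial
open Pool.Agent.H49.Ent Pool.Agent.H32.Dense Pool.STK Pool.MIC
open Pool.BFL (Pb)

/-- `Inv` on a larger box. -/
theorem inv_scale {b : ℕ} {X : V3} {Φ f : Po} {δ : ℝ} (hΦ : Φ.IsHomogeneous b)
    (hf : f.IsHomogeneous b) (h : Inv X Φ f δ) (q : V3) (hq : Bx 4 q) (s : ℝ) (hs : |s| ≤ 4) :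
    |(eval (q + s • X) Φ - eval (q + s • X) f) - (eval q Φ - eval q f)| ≤ 4 ^ b * δ := by
  have e1 : q + s • X = (4 : ℝ) • ((1 / 4 : ℝ) • q + (s / 4) • X) := by
    rw [smul_add, smul_smul, smul_smul]
    norm_num
    congr 2
    ring
  have e2 : q = (4 : ℝ) • ((1 / 4 : ℝ) • q) := by
    rw [smul_smul]
    norm_num
  have h1 := h ((1 / 4 : ℝ) • q) (fun i => by
    rw [Pi.smul_apply, smul_eq_mul, abs_mul, abs_of_pos (by norm_num : (0 : ℝ) < 1 / 4)]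
    have := hq i
    linarith) (s / 4) (by
    rw [abs_div, abs_of_pos (by norm_num : (0 : ℝ) < 4)]
    linarith)
  rw [e1]
  conv_lhs => rw [show eval q Φ - eval q f = eval ((4 : ℝ) • ((1 / 4 : ℝ) • q)) Φ -
    eval ((4 : ℝ) • ((1 / 4 : ℝ) • q)) f by rw [← e2]]
  rw [hom_smul hΦ, hom_smul hf, hom_smul hΦ, hom_smul hf, ← mul_sub, ← mul_sub, ← mul_sub,
    abs_mul, abs_of_pos (by positivity : (0 : ℝ) < 4 ^ b)]
  exact mul_le_mul_of_nonneg_left h1 (by positivity)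

theorem inv_nonneg {X : V3} {Φ f : Po} {δ : ℝ} (h : Inv X Φ f δ) : 0 ≤ δ :=
  (abs_nonneg _).trans (h 0 (fun i => by simp) 0 (by simp))

theorem hb_mono {b : ℕ} {R R' : ℝ} {Φ : Po} (h : Hb b R Φ) (hR : R ≤ R') : Hb b R' Φ :=
  ⟨h.hom, fun q hq => (h.bd q hq).trans hR⟩

theorem hb_zero {b : ℕ} {R : ℝ} (hR : 0 ≤ R) : Hb b R (0 : Po) :=
  ⟨isHomogeneous_zero _ _ _, fun q _ => by simpa using hR⟩

section

variable {Ω Λ Z 𝒟 : Type} [Fintype Ω]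

/-- The directions and polynomials of a branch. -/
def bX (Y : Ω → V3) (br : (((Ω × Ω) × Ω) × Ω) × Ω) : Fin 3 → V3 :=
  ![Y br.1.1.1.1, Y br.1.1.2, Y br.2]

def bΦ (Ψ : Ω → Po) (br : (((Ω × Ω) × Ω) × Ω) × Ω) : Fin 3 → Po :=
  ![Ψ br.1.1.1.1, Ψ br.1.1.2, Ψ br.2]

/-- **From the star**: the polynomial `f` of a record, its size, `Φ - f` nearly constant along the line,
and `f` nearly the same for two samples of a line. -/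
theorem f_of_star (b : ℕ) (hb : 1 ≤ b) : ∃ C : ℝ, 1 ≤ C ∧ ∀ {Ω Λ Z : Type} [Fintype Ω]
    {p : Ω → ℝ} (_ : IsLaw p) (L : Ω → Λ) (z : Ω → Z) (Y : Ω → V3) (Ψ : Ω → Po) {η δ c c₁ : ℝ},
    0 < η → η ≤ 1 → 0 ≤ δ → (∀ ω ω', 0 < p ω → 0 < p ω' → L ω = L ω' → Y ω = Y ω' ∧ Ψ ω = Ψ ω') →
    (∀ ω, Bx 1 (Y ω)) → (∀ ω, Hb b 1 (Ψ ω)) →
    (∀ H : Z → V3, (∀ r, Bx 1 (H r) ∧ ∃ i, |H r i| = 1) →
      Pb p (fun ω => |∑ i, H (z ω) i * Y ω i| ≤ η) ≤ c) →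
    Pb (Q6 p L z) (fun w => ¬ (
      η ^ 4 ≤ |(mt ![Y w.1.1.1.1.2, Y w.1.1.2, Y w.2]).det| ∧
      Inv (Y w.1.1.1.1.1) (Ψ w.1.1.1.1.1)
        (fb ![Y w.1.1.1.1.2, Y w.1.1.2, Y w.2] ![Ψ w.1.1.1.1.2, Ψ w.1.1.2, Ψ w.2]) δ)) ≤ c₁ →
    ∃ f : Z → Po, (∀ r, Hb b (C / η ^ (4 * b)) (f r)) ∧
      Pb p (fun ω => ¬ Inv (Y ω) (Ψ ω) (f (z ω)) δ) ≤ c₁ ∧
      Pb (R2 p L) (fun w => ¬ ∀ q, Bx 1 q →
        |eval q (f (z w.1)) - eval q (f (z w.2))| ≤ C * δ / η ^ (4 * b)) ≤ 13 * c₁ + 6 * c := by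
  obtain ⟨C₁, hC₁, hunq⟩ := t_unq b hb
  obtain ⟨C₂, hC₂, hfbb⟩ := t_fbb b
  obtain ⟨C₃, hC₃, hfbc⟩ := t_fbc b hb
  refine ⟨2 * C₁ + C₂ + C₃, by linarith, ?_⟩
  intro Ω Λ Z _ p hp L z Y Ψ η δ c c₁ hη hη1 hδ hL hY hΨ gp hst
  classical
  have hη4 : 0 < η ^ 4 := by positivity
  have hη41 : η ^ 4 ≤ 1 := pow_le_one₀ hη.le hη1
  have hpw : (η ^ 4) ^ b = η ^ (4 * b) := by rw [← pow_mul]
  -- the star event on `S1`
  obtain ⟨St, hSt⟩ : ∃ St : Ω × ((((Ω × Ω) × Ω) × Ω) × Ω) → Prop, St = fun w =>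
    η ^ 4 ≤ |(mt (bX Y w.2)).det| ∧ Inv (Y w.1) (Ψ w.1) (fb (bX Y w.2) (bΦ Ψ w.2)) δ := ⟨_, rfl⟩
  have hS1 : Pb (S1 p L z) (fun w => ¬ St w) ≤ c₁ := by
    have h1 := Marg.Pb_eq (S1_Q6 hp L z) (fun w => ¬ (
      η ^ 4 ≤ |(mt ![Y w.1.1.1.1.2, Y w.1.1.2, Y w.2]).det| ∧
      Inv (Y w.1.1.1.1.1) (Ψ w.1.1.1.1.1)
        (fb ![Y w.1.1.1.1.2, Y w.1.1.2, Y w.2] ![Ψ w.1.1.1.1.2, Ψ w.1.1.2, Ψ w.2]) δ))
    rw [hSt]
    exact h1.le.trans hst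
  -- the polynomial of a record
  obtain ⟨β, hβ⟩ := avg_sel hp (R5_law hp L z) z (fun w => z w.1.1.1.1) (S1_z hp L z)
    (fun ω br => ¬ St (ω, br))
  obtain ⟨f, hf⟩ : ∃ f : Z → Po, f = fun r => if η ^ 4 ≤ |(mt (bX Y (β r))).det| then
    fb (bX Y (β r)) (bΦ Ψ (β r)) else 0 := ⟨_, rfl⟩
  have hbX : ∀ br a, Bx 1 (bX Y br a) := fun br a => by
    fin_cases a <;> exact hY _
  have hbΦ : ∀ br a, Hb b 1 (bΦ Ψ br a) := fun br a => by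
    fin_cases a <;> exact hΨ _
  have hCη : ∀ C' : ℝ, 0 ≤ C' → C' ≤ 2 * C₁ + C₂ + C₃ → C' / η ^ (4 * b) ≤
      (2 * C₁ + C₂ + C₃) / η ^ (4 * b) := fun C' _ h =>
    div_le_div_of_nonneg_right h (by positivity)
  have hfH : ∀ r, Hb b ((2 * C₁ + C₂ + C₃) / η ^ (4 * b)) (f r) := by
    intro r
    rw [hf]
    simp only
    split_ifs with hd
    · refine hb_mono (hfbb (bX Y (β r)) (bΦ Ψ (β r)) (η ^ 4) hη4 hη41 (hbX _) hd (hbΦ _)) ?_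
      rw [hpw]
      exact hCη C₂ (by linarith) (by linarith)
    · exact hb_zero (by positivity)
  have hGd : Pb p (fun ω => ¬ Inv (Y ω) (Ψ ω) (f (z ω)) δ) ≤ c₁ := by
    refine (Pb_mono hp.nonneg fun ω _ h hs => ?_).trans (hβ.trans hS1)
    rw [hSt] at hs
    refine h ?_
    rw [hf]
    simp only
    rw [if_pos hs.1]
    exact hs.2
  refine ⟨f, hfH, hGd, ?_⟩
  -- comparison of `f` with the polynomial of a branch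
  obtain ⟨E, hE⟩ : ∃ E : (((Ω × Ω) × Ω) × Ω) × Ω → Prop, E = fun br =>
    η ^ 4 ≤ |(mt (bX Y br)).det| ∧ ∀ q, Bx 1 q → |eval q (f (z br.1.1.1.1)) -
      eval q (fb (bX Y br) (bΦ Ψ br))| ≤ C₁ * δ / η ^ (4 * b) := ⟨_, rfl⟩
  have hR5 : Pb (R5 p L z) (fun br => ¬ E br) ≤ 3 * c₁ + 3 * c₁ + 3 * c := by
    refine star_cmp hp L z Y hη gp St (fun ω => Inv (Y ω) (Ψ ω) (f (z ω)) δ) E hS1 hGd ?_
    intro u u' u'' br e1 e2 e3 s1 s2 s3 d1 d2 d3 hdet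
    rw [hSt] at s1 s2 s3
    rw [e1] at d1
    rw [e2] at d2
    rw [e3] at d3
    rw [hE]
    refine ⟨s1.1, fun q hq => ?_⟩
    have h1 := hunq ![Y u, Y u', Y u''] ![Ψ u, Ψ u', Ψ u''] (f (z br.1.1.1.1))
      (fb (bX Y br) (bΦ Ψ br)) (η ^ 3) δ (by positivity) (pow_le_one₀ hη.le hη1) hδ
      (fun a => by fin_cases a <;> exact hY _) hdet (hfH _).hom
      (fb_hom fun a => (hbΦ br a).hom)
      (fun a => by
        fin_cases a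
        · exact d1
        · exact d2
        · exact d3)
      (fun a => by
        fin_cases a
        · exact s1.2
        · exact s2.2
        · exact s3.2) q hq
    refine h1.trans ?_
    refine div_le_div_of_nonneg_left (by positivity) (by positivity) ?_
    rw [← pow_mul]
    exact pow_le_pow_of_le_one hη.le hη1 (by omega)
  -- the long chain
  have hn := (R7_law hp L z).nonneg
  have k1 : Pb (R7 p L z) (fun w => ¬ E w.1.1) ≤ 3 * c₁ + 3 * c₁ + 3 * c := by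
    rw [Marg.Pb_eq (R7_fst hp L z) (fun br => ¬ E br)]
    exact hR5
  have k2 : Pb (R7 p L z)
      (fun w => ¬ E ((((w.1.1.1.1.2, w.1.1.1.2), w.1.1.2), w.1.2), w.2)) ≤
      3 * c₁ + 3 * c₁ + 3 * c := by
    rw [Marg.Pb_eq (R7_snd hp L z) (fun br => ¬ E br)]
    exact hR5
  have k3 : Pb (R7 p L z) (fun w => ¬ (
      η ^ 4 ≤ |(mt ![Y w.1.1.1.1.2, Y w.1.1.2, Y w.2]).det| ∧
      Inv (Y w.1.1.1.1.1.2) (Ψ w.1.1.1.1.1.2)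
        (fb ![Y w.1.1.1.1.2, Y w.1.1.2, Y w.2] ![Ψ w.1.1.1.1.2, Ψ w.1.1.2, Ψ w.2]) δ)) ≤ c₁ := by
    have h1 := Marg.Pb_eq (R7_Q6 hp L z) (fun w => ¬ (
      η ^ 4 ≤ |(mt ![Y w.1.1.1.1.2, Y w.1.1.2, Y w.2]).det| ∧
      Inv (Y w.1.1.1.1.1) (Ψ w.1.1.1.1.1)
        (fb ![Y w.1.1.1.1.2, Y w.1.1.2, Y w.2] ![Ψ w.1.1.1.1.2, Ψ w.1.1.2, Ψ w.2]) δ))
    exact h1.le.trans hst
  have k4 : Pb (R7 p L z) (fun w => ¬ ∀ q, Bx 1 q →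
      |eval q (f (z w.1.1.1.1.1.1)) - eval q (f (z w.1.1.1.1.1.2))| ≤
        (2 * C₁ + C₂ + C₃) * δ / η ^ (4 * b)) ≤ 13 * c₁ + 6 * c := by
    have h0 : Pb (R7 p L z) (fun w => ¬ ∀ q, Bx 1 q →
      |eval q (f (z w.1.1.1.1.1.1)) - eval q (f (z w.1.1.1.1.1.2))| ≤
        (2 * C₁ + C₂ + C₃) * δ / η ^ (4 * b)) ≤ Pb (R7 p L z) (fun w => (¬ E w.1.1 ∨
        ¬ E ((((w.1.1.1.1.2, w.1.1.1.2), w.1.1.2), w.1.2), w.2)) ∨ ¬ (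
      η ^ 4 ≤ |(mt ![Y w.1.1.1.1.2, Y w.1.1.2, Y w.2]).det| ∧
      Inv (Y w.1.1.1.1.1.2) (Ψ w.1.1.1.1.1.2)
        (fb ![Y w.1.1.1.1.2, Y w.1.1.2, Y w.2] ![Ψ w.1.1.1.1.2, Ψ w.1.1.2, Ψ w.2]) δ)) := by
      refine Pb_mono hn fun w hw hA => ?_
      by_contra hc
      simp only [not_or, not_not] at hc
      obtain ⟨⟨a1, a2⟩, a3, a4⟩ := hc
      obtain ⟨p1, p2, eL, ez⟩ := R7_pos hp L z hw
      obtain ⟨eY, eΨ⟩ := hL _ _ p1 p2 eL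
      rw [← eY, ← eΨ] at a4
      rw [hE] at a1 a2
      obtain ⟨b1, b2⟩ := a1
      obtain ⟨b3, b4⟩ := a2
      refine hA fun q hq => ?_
      have h1 := b2 q hq
      have h2 := b4 q hq
      have h3 := hfbc ![Y w.1.1.1.1.1.1, Y w.1.1.1.1.2, Y w.1.1.2, Y w.2]
        ![Ψ w.1.1.1.1.1.1, Ψ w.1.1.1.1.2, Ψ w.1.1.2, Ψ w.2] (η ^ 4) δ hη4 hη41 hδ
        (fun a => by fin_cases a <;> exact hY _) b1 b3
        (fun a => by fin_cases a <;> exact (hΨ _).hom) a4 q hq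
      rw [hpw] at h3
      have h4 : |eval q (fb (bX Y w.1.1) (bΦ Ψ w.1.1)) - eval q (fb
          (bX Y ((((w.1.1.1.1.2, w.1.1.1.2), w.1.1.2), w.1.2), w.2))
          (bΦ Ψ ((((w.1.1.1.1.2, w.1.1.1.2), w.1.1.2), w.1.2), w.2)))| ≤
          C₃ * δ / η ^ (4 * b) := h3
      rw [ez]
      have e5 : (2 * C₁ + C₂ + C₃) * δ / η ^ (4 * b) = C₁ * δ / η ^ (4 * b) +
        C₁ * δ / η ^ (4 * b) + C₃ * δ / η ^ (4 * b) + C₂ * δ / η ^ (4 * b) := by ring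
      have e6 : 0 ≤ C₂ * δ / η ^ (4 * b) := by positivity
      rw [e5]
      have h1' := abs_le.1 h1
      have h2' := abs_le.1 h2
      have h4' := abs_le.1 h4
      simp only at h2'
      rw [abs_le]
      constructor <;> linarith [h1'.1, h1'.2, h2'.1, h2'.2, h4'.1, h4'.2]
    have u1 := Pb_or hn (fun w => ¬ E w.1.1)
      (fun w => ¬ E ((((w.1.1.1.1.2, w.1.1.1.2), w.1.1.2), w.1.2), w.2))
    have u2 := Pb_or hn (fun w => ¬ E w.1.1 ∨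
        ¬ E ((((w.1.1.1.1.2, w.1.1.1.2), w.1.1.2), w.1.2), w.2)) (fun w => ¬ (
      η ^ 4 ≤ |(mt ![Y w.1.1.1.1.2, Y w.1.1.2, Y w.2]).det| ∧
      Inv (Y w.1.1.1.1.1.2) (Ψ w.1.1.1.1.1.2)
        (fb ![Y w.1.1.1.1.2, Y w.1.1.2, Y w.2] ![Ψ w.1.1.1.1.2, Ψ w.1.1.2, Ψ w.2]) δ))
    linarith
  have h5 := Marg.Pb_eq (R7_two hp L z) (fun w => ¬ ∀ q, Bx 1 q →
      |eval q (f (z w.1)) - eval q (f (z w.2))| ≤ (2 * C₁ + C₂ + C₃) * δ / η ^ (4 * b))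
  exact h5.symm.le.trans k4

end

end Pool.STB
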