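import Pool.Agent.H98.STB.End

/-!
# The polynomial `J + f (· - x)` is nearly constant along the lines
-/

set_option autoImplicit false

namespace Pool.STB

open Finset Real MvPolynomial
open Pool.Agent.H49.Ent Pool.Agent.H32.Dense Pool.STK Pool.MIC
open Pool.BFL (Pb)

/-- The deterministic step. -/
theorem pp_const (b : ℕ) : ∃ C : ℝ, 1 ≤ C ∧ ∀ (X x x' e : V3) (Φ J J' f f' : Po)
    (s δ ε R τ : ℝ), 0 ≤ δ → 0 < ε → ε ≤ 1 → 1 ≤ R → |s| ≤ 2 → Bx 1 X → Bx 1 x → Bx 1 x' →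
    x' = x + s • X + e → Bx ε e → Hb b 1 Φ → Hb b R f → f'.IsHomogeneous b →
    (∀ q, Bx 4 q → |(eval q J' + eval (q - x') Φ) - (eval q J + eval (q - x) Φ)| ≤ ε) →
    Inv X Φ f δ → (∀ q, Bx 1 q → |eval q f - eval q f'| ≤ τ) →
    ∀ q, Bx 1 q → |(eval q J + eval (q - x) f) - (eval q J' + eval (q - x') f')| ≤
      C * (δ + R * ε + τ) := by
  obtain ⟨C, hC, hlip⟩ := po_lip b
  refine ⟨4 ^ b + 3 * C, by
    nlinarith [one_le_pow₀ (M₀ := ℝ) (n := b) (show (1 : ℝ) ≤ 4 by norm_num)], ?_⟩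
  intro X x x' e Φ J J' f f' s δ ε R τ hδ hε hε1 hR hs hX hx hx' hxx he hΦ hf hf' hjet hI hτ q hq
  have h4 : (1 : ℝ) ≤ 4 ^ b := one_le_pow₀ (by norm_num)
  -- the points
  have hqx : Bx 2 (q - x) := fun i => by
    have h1 := abs_le.1 (hq i)
    have h2 := abs_le.1 (hx i)
    rw [Pi.sub_apply, abs_le]
    constructor <;> linarith [h1.1, h1.2, h2.1, h2.2]
  have hqx' : Bx 2 (q - x') := fun i => by
    have h1 := abs_le.1 (hq i)
    have h2 := abs_le.1 (hx' i)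
    rw [Pi.sub_apply, abs_le]
    constructor <;> linarith [h1.1, h1.2, h2.1, h2.2]
  have hu : Bx 4 (q - x - s • X) := fun i => by
    have h1 := abs_le.1 (hqx i)
    have h3 : |s * X i| ≤ 2 := by
      rw [abs_mul]
      calc |s| * |X i| ≤ 2 * 1 := mul_le_mul hs (hX i) (abs_nonneg _) (by norm_num)
        _ = 2 := by norm_num
    have h2 := abs_le.1 h3
    have e1 : (q - x - s • X) i = (q - x) i - s * X i := rfl
    rw [e1, abs_le]
    constructor <;> linarith [h1.1, h1.2, h2.1, h2.2]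
  have e1 : q - x' = (q - x - s • X) + -e := by rw [hxx]; abel
  have e2 : q - x = (q - x - s • X) + s • X := by abel
  have hne : Bx ε (-e) := fun i => by rw [Pi.neg_apply, abs_neg]; exact he i
  -- the first bracket
  have a1 := hjet q (fun i => (hq i).trans (by norm_num))
  -- the second bracket
  have a2 := hlip Φ 1 hΦ (q - x - s • X) (-e) ε hε hε1 hu hne
  have a3 := hlip f R hf (q - x - s • X) (-e) ε hε hε1 hu hne
  have a4 := inv_scale hΦ.hom hf.hom hI (q - x - s • X) hu s (hs.trans (by norm_num))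
  rw [← e1] at a2 a3
  rw [← e2] at a4
  -- the third bracket
  have a5 : |eval (q - x') f - eval (q - x') f'| ≤ 4 ^ b * τ := by
    have e3 : q - x' = (4 : ℝ) • ((1 / 4 : ℝ) • (q - x')) := by
      rw [smul_smul]
      norm_num
    have h1 := hτ ((1 / 4 : ℝ) • (q - x')) (fun i => by
      rw [Pi.smul_apply, smul_eq_mul, abs_mul, abs_of_pos (by norm_num : (0 : ℝ) < 1 / 4)]
      have := hqx' i
      linarith)
    rw [e3, hom_smul hf.hom, hom_smul hf', ← mul_sub, abs_mul,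
      abs_of_pos (by positivity : (0 : ℝ) < 4 ^ b)]
    exact mul_le_mul_of_nonneg_left h1 (by positivity)
  have b1 := abs_le.1 a1
  have b2 := abs_le.1 a2
  have b3 := abs_le.1 a3
  have b4 := abs_le.1 a4
  have b5 := abs_le.1 a5
  have hRε : 0 ≤ R * ε := by positivity
  have hτ0 : 0 ≤ τ := (abs_nonneg _).trans (hτ 0 (fun i => by simp))
  have c1 : ε ≤ R * ε := by nlinarith
  have c2 : C * 1 * ε ≤ C * (R * ε) := by
    rw [mul_one]
    exact mul_le_mul_of_nonneg_left c1 (by linarith)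
  have c3 : R * ε ≤ C * (R * ε) := by nlinarith
  have c4 : C * R * ε = C * (R * ε) := by ring
  have c5 : 0 ≤ C * δ := by positivity
  have c6 : 0 ≤ C * τ := by positivity
  have c7 : 0 ≤ 4 ^ b * (R * ε) := by positivity
  have hsum : 4 ^ b * δ + (C * (R * ε) + C * (R * ε) + C * (R * ε)) + 4 ^ b * τ ≤
      (4 ^ b + 3 * C) * (δ + R * ε + τ) := by nlinarith
  refine le_trans ?_ hsum
  rw [abs_le]
  constructor <;> linarith [b1.1, b1.2, b2.1, b2.2, b3.1, b3.2, b4.1, b4.2, b5.1, b5.2]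

/-- **From the star**: the record polynomial `J + f (· - x)` is nearly constant along the lines. -/
theorem pp_of_star (b : ℕ) (hb : 1 ≤ b) : ∃ C : ℝ, 1 ≤ C ∧ ∀ {Ω Λ Z : Type} [Fintype Ω]
    {p : Ω → ℝ} (_ : IsLaw p) (L : Ω → Λ) (z : Ω → Z) (t : Ω → ℤ) (Y : Ω → V3) (Ψ : Ω → Po)
    (x : Z → V3) (J : Z → Po) {M : ℕ} {K η δ c c₁ : ℝ},
    1 ≤ M → 1 ≤ K → K ≤ M → 0 < η → η ≤ 1 → 0 ≤ δ →
    (∀ ω ω', 0 < p ω → 0 < p ω' → L ω = L ω' → Y ω = Y ω' ∧ Ψ ω = Ψ ω') →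
    (∀ ω, 0 < p ω → |t ω| ≤ (M : ℤ)) →
    (∀ ω, Bx 1 (Y ω)) → (∀ ω, Hb b 1 (Ψ ω)) → (∀ r, Bx 1 (x r)) →
    (∀ ω ω', 0 < p ω → 0 < p ω' → L ω = L ω' →
      Bx (K / M) (x (z ω') - x (z ω) - (((t ω' : ℝ) - t ω) / M) • Y ω)) →
    (∀ ω ω', 0 < p ω → 0 < p ω' → L ω = L ω' → ∀ q, Bx 4 q →
      |(eval q (J (z ω')) + eval (q - x (z ω')) (Ψ ω)) -
        (eval q (J (z ω)) + eval (q - x (z ω)) (Ψ ω))| ≤ K / M) →
    (∀ H : Z → V3, (∀ r, Bx 1 (H r) ∧ ∃ i, |H r i| = 1) →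
      Pb p (fun ω => |∑ i, H (z ω) i * Y ω i| ≤ η) ≤ c) →
    Pb (Q6 p L z) (fun w => ¬ (
      η ^ 4 ≤ |(mt ![Y w.1.1.1.1.2, Y w.1.1.2, Y w.2]).det| ∧
      Inv (Y w.1.1.1.1.1) (Ψ w.1.1.1.1.1)
        (fb ![Y w.1.1.1.1.2, Y w.1.1.2, Y w.2] ![Ψ w.1.1.1.1.2, Ψ w.1.1.2, Ψ w.2]) δ)) ≤ c₁ →
    ∃ f : Z → Po, (∀ r, Hb b (C / η ^ (4 * b)) (f r)) ∧
      Pb (glue p p L L) (fun w => ¬ ∀ q, Bx 1 q →
        |(eval q (J (z w.1)) + eval (q - x (z w.1)) (f (z w.1))) -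
          (eval q (J (z w.2)) + eval (q - x (z w.2)) (f (z w.2)))| ≤
            C * (δ + K / M) / η ^ (4 * b)) ≤ 14 * c₁ + 6 * c := by
  obtain ⟨C₁, hC₁, h1⟩ := f_of_star b hb
  obtain ⟨C₂, hC₂, h2⟩ := pp_const b
  refine ⟨C₂ * (2 * C₁ + 1), by nlinarith, ?_⟩
  intro Ω Λ Z _ p hp L z t Y Ψ x J M K η δ c c₁ hM hK hKM hη hη1 hδ hL htM hY hΨ hx hpos hjet gp hst
  obtain ⟨f, hf1, hf2, hf3⟩ := h1 hp L z Y Ψ hη hη1 hδ hL hY hΨ gp hst
  have hP : 0 < η ^ (4 * b) := by positivity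
  have hP1 : η ^ (4 * b) ≤ 1 := pow_le_one₀ hη.le hη1
  have hM0 : (0 : ℝ) < M := by exact_mod_cast hM
  have hCC : C₁ ≤ C₂ * (2 * C₁ + 1) := by nlinarith
  refine ⟨f, fun r => hb_mono (hf1 r) (div_le_div_of_nonneg_right hCC hP.le), ?_⟩
  have hn := (R2_law hp L).nonneg
  have k1 : Pb (R2 p L) (fun w => ¬ Inv (Y w.1) (Ψ w.1) (f (z w.1)) δ) ≤ c₁ := by
    rw [Marg.Pb_eq (R2_f hp L) (fun ω => ¬ Inv (Y ω) (Ψ ω) (f (z ω)) δ)]
    exact hf2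
  have k2 : Pb (R2 p L) (fun w => ¬ ∀ q, Bx 1 q →
        |(eval q (J (z w.1)) + eval (q - x (z w.1)) (f (z w.1))) -
          (eval q (J (z w.2)) + eval (q - x (z w.2)) (f (z w.2)))| ≤
            C₂ * (2 * C₁ + 1) * (δ + K / M) / η ^ (4 * b)) ≤
      Pb (R2 p L) (fun w => ¬ Inv (Y w.1) (Ψ w.1) (f (z w.1)) δ) +
      Pb (R2 p L) (fun w => ¬ ∀ q, Bx 1 q →
        |eval q (f (z w.1)) - eval q (f (z w.2))| ≤ C₁ * δ / η ^ (4 * b)) := by
    refine Pb_le2 hn fun w hw a1 a2 a3 => a3 ?_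
    rw [not_not] at a1 a2
    obtain ⟨p1, p2, eL⟩ := (glue_pos_iff hp.nonneg hp.nonneg w).mp hw
    obtain ⟨s, hs⟩ : ∃ s : ℝ, s = ((t w.2 : ℝ) - t w.1) / M := ⟨_, rfl⟩
    obtain ⟨e, he⟩ : ∃ e : V3, e = x (z w.2) - x (z w.1) - s • Y w.1 := ⟨_, rfl⟩
    have hs2 : |s| ≤ 2 := by
      have t1 : |(t w.1 : ℝ)| ≤ M := by exact_mod_cast htM _ p1
      have t2 : |(t w.2 : ℝ)| ≤ M := by exact_mod_cast htM _ p2
      rw [hs, abs_div, abs_of_pos hM0, div_le_iff₀ hM0]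
      have := abs_sub (t w.2 : ℝ) (t w.1 : ℝ)
      linarith
    have hR : 1 ≤ C₁ / η ^ (4 * b) := by
      rw [le_div_iff₀ hP]
      linarith
    have hKM' : K / M ≤ 1 := (div_le_one hM0).2 hKM
    have hKM0 : 0 < K / M := by positivity
    have h3 := h2 (Y w.1) (x (z w.1)) (x (z w.2)) e (Ψ w.1) (J (z w.1)) (J (z w.2)) (f (z w.1))
      (f (z w.2)) s δ (K / M) (C₁ / η ^ (4 * b)) (C₁ * δ / η ^ (4 * b)) hδ hKM0 hKM' hR hs2
      (hY _) (hx _) (hx _) (by rw [he]; abel) (by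
        have := hpos w.1 w.2 p1 p2 eL
        rw [← hs, ← he] at this
        exact this) (hΨ _) (hf1 _) (hf1 _).hom (fun q hq => hjet w.1 w.2 p1 p2 eL q hq) a1 a2
    intro q hq
    refine (h3 q hq).trans ?_
    have e1 : C₂ * (2 * C₁ + 1) * (δ + K / M) / η ^ (4 * b) =
        C₂ * (((2 * C₁ + 1) * (δ + K / M)) / η ^ (4 * b)) := by ring
    rw [e1]
    refine mul_le_mul_of_nonneg_left ?_ (by linarith)
    rw [le_div_iff₀ hP]
    have e2 : (δ + C₁ / η ^ (4 * b) * (K / M) + C₁ * δ / η ^ (4 * b)) * η ^ (4 * b) =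
        δ * η ^ (4 * b) + C₁ * (K / M) + C₁ * δ := by
      field_simp
    rw [e2]
    have e3 : δ * η ^ (4 * b) ≤ δ := mul_le_of_le_one_right hδ hP1
    have e4 : 0 ≤ C₁ * δ := by positivity
    have e5 : 0 ≤ C₁ * (K / M) := by positivity
    nlinarith
  have k3 := hf3
  show Pb (R2 p L) _ ≤ _
  linarith

end Pool.STB
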