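import Pool.Agent.H98.STB.Pass
import Pool.Agent.H89.OWN.NfD

/-!
# Nonfullness of the target given the position up to the unit

`pass_ab`: the exact position in the condition costs the deficit of its entropy. `nf_law`: the rows
of the digits of the own height given the exact position give the nonfullness of the target given
the position up to the unit, for laws of bounded density.
-/

set_option autoImplicit false

namespace Pool.STB

open Finset Real
open Pool.Agent.H49.Ent Pool.Agent.H32.Dense Pool.STK Pool.OWN68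
open Pool.BFL (Pb)

variable {Ω : Type} [Fintype Ω]

/-- **The passage**, with abstract bounds of the entropy of the exact position. -/
theorem pass_ab {p q : Ω → ℝ} (hp : IsLaw p) (hq : IsLaw q) {R : ℝ} (hR : 1 ≤ R)
    (hd : ∀ ω, q ω ≤ R * p ω) {SN SX SC SZ : Type} (N : Ω → SN) (X : Ω → SX) (C : Ω → SC)
    (z : Ω → SZ) (hN : Det p z N) (hC : Det p z C) {L e : ℝ}
    (up : ∀ r : Ω → ℝ, IsLaw r → (∀ ω, 0 < r ω → 0 < p ω) → CH r X C ≤ L)
    (low : L - e ≤ CH p X z) :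
    CH q N C ≤ CH q N (fun ω => (X ω, C ω)) + R * (e + Real.log 2) := by
  have hpos : ∀ ω, 0 < q ω → 0 < p ω := fun ω hω => by
    by_contra hcon
    have h2 : p ω ≤ 0 := not_lt.mp hcon
    have h3 := hd ω
    nlinarith
  have hCz : ∀ r : Ω → ℝ, IsLaw r → (∀ ω, 0 < r ω → 0 < p ω) → CH r X z ≤ L :=
    fun r hr hrp => (CH_mono_cond hr.nonneg (fun ω ω' a b e =>
      hC ω ω' (hrp _ a) (hrp _ b) e)).trans (up r hr hrp)
  have he0 : 0 ≤ e := by
    have := hCz p hp fun _ h => h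
    linarith
  have hdd := deficit_dens hp hq hR hd X z (L := L) (e := e) he0 hCz low
  have e1 := pass_two hq N X C z
    (fun ω ω' a b e => hN ω ω' (hpos _ a) (hpos _ b) e)
    (fun ω ω' a b e => hC ω ω' (hpos _ a) (hpos _ b) e)
  have e2 := up q hq hpos
  linarith

/-- **Nonfullness of the target**, law level: `x1`, `x2` the first digits and the digits of the own
height, `X` the exact position and time, `ct` the code of the label, `y` the record of the window,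
`cx` the position up to the unit. -/
theorem nf_law {p q : Ω → ℝ} (hp : IsLaw p) (hq : IsLaw q) {R : ℝ} (hR : 1 ≤ R)
    (hd : ∀ ω, q ω ≤ R * p ω) {SX SC SY SZ SV : Type} (N x1 x2 : Ω → ℤ) (X : Ω → SX)
    (cx : Ω → SC) (y : Ω → SY) (ct : Ω → SV) (z : Ω → SZ) (hN : Det p z N)
    (hC : Det p z (fun ω => (cx ω, y ω))) (hct : Det p y ct) {L e D₁ D₂ c0 eta U V : ℝ} {n : ℕ}
    (up : ∀ r : Ω → ℝ, IsLaw r → (∀ ω, 0 < r ω → 0 < p ω) → CH r X (fun ω => (cx ω, y ω)) ≤ L)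
    (low : L - e ≤ CH p X z) (hD₁ : 0 ≤ D₁) (hD₂ : 0 ≤ D₂)
    (l1 : ∀ ω ω', 0 < p ω → 0 < p ω' → y ω = y ω' → X ω = X ω' → |(x1 ω : ℝ) - x1 ω'| ≤ D₁)
    (l2 : ∀ ω ω', 0 < p ω → 0 < p ω' → y ω = y ω' → X ω = X ω' → x2 ω = x2 ω' →
      |(N ω : ℝ) - N ω'| ≤ D₂)
    (hc : 0 < c0) (heta : 0 < eta) (hU : 0 ≤ U) (hV : 0 ≤ V)
    (row : ∀ A : Ω → Prop, c0 ≤ Pb p A → CH (cond p A True) x2 (fun ω => (x1 ω, ct ω, X ω)) ≤ U)
    (triv : ∀ r : Ω → ℝ, IsLaw r → (∀ ω, 0 < r ω → 0 < p ω) →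
      CH r x2 (fun ω => (x1 ω, ct ω, X ω)) ≤ V) :
    CH q N (fun ω => (cx ω, y ω)) ≤ (1 + eta) * U +
      (R * c0 * (1 + eta) / eta + R / (1 + eta) ^ n) * V + Real.log (n + 1) +
      Real.log (D₁ + 1) + Real.log (D₂ + 1) + R * (e + Real.log 2) := by
  have hpos : ∀ ω, 0 < q ω → 0 < p ω := fun ω hω => by
    by_contra hcon
    have h2 : p ω ≤ 0 := not_lt.mp hcon
    have h3 := hd ω
    nlinarith
  have h0 := hq.nonneg
  have a1 := pass_ab hp hq hR hd N X (fun ω => (cx ω, y ω)) z hN hC up low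
  -- the first digits
  have a2 := CH_le_add h0 N x1 (fun ω => (X ω, (cx ω, y ω)))
  have a3 : CH q x1 (fun ω => (X ω, (cx ω, y ω))) ≤ Real.log (D₁ + 1) :=
    cnt_int hq x1 _ hD₁ fun ω ω' a b e => by
      simp only [Prod.mk.injEq] at e
      exact l1 ω ω' (hpos _ a) (hpos _ b) e.2.2 e.1
  have a4 := CH_le_add h0 N x2 (fun ω => (x1 ω, (X ω, (cx ω, y ω))))
  have a5 : CH q N (fun ω => (x2 ω, (x1 ω, (X ω, (cx ω, y ω))))) ≤ Real.log (D₂ + 1) :=
    cnt_int hq N _ hD₂ fun ω ω' a b e => by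
      simp only [Prod.mk.injEq] at e
      exact l2 ω ω' (hpos _ a) (hpos _ b) e.2.2.2.2 e.2.2.1 e.1
  have a6 : CH q x2 (fun ω => (x1 ω, (X ω, (cx ω, y ω)))) ≤
      CH q x2 (fun ω => (x1 ω, ct ω, X ω)) :=
    CH_mono_cond h0 fun ω ω' a b e => by
      simp only [Prod.mk.injEq] at e
      simp only [Prod.mk.injEq]
      exact ⟨e.1, hct ω ω' (hpos _ a) (hpos _ b) e.2.2.2, e.2.1⟩
  have a7 := Pool.NFD.nf_dens hp hq (M := R) (c0 := c0) (eta := eta) (U := U) (V := V) (L := n)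
    hR hd hc heta x2 (fun ω => (x1 ω, ct ω, X ω)) hU hV row triv
  linarith

end Pool.STB
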