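import Pool.Agent.H98.STB.Rdg

/-!
# Nonfullness of the target with a side

`nf_lawG`: as `nf_law`, for any condition `C`; the condition `ro` of the rows is few given `C` and the
exact position. `WinNb`: nonfullness of the last digits of the target given its first digits, the
position and a side. `winNb_cls`: the class form.
-/

set_option autoImplicit false

namespace Pool.STB

open Finset Real
open Pool.Agent.H49.Ent Pool.Agent.H32.Dense Pool.STK Pool.KA Pool.KSAT Pool.K2S Pool.PB Pool.S6C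
open Pool.GEN Pool.CHT Pool.CHX Pool.D2Con Pool.D2A Pool.D2F Pool.RCD
open Pool.STB82 Pool.ALT
open Pool.LA91 (FulC)
open Pool.UNJ (ceI)
open Pool.BFL (Pb)

section

variable {Ω : Type} [Fintype Ω]

/-- **Nonfullness of the target**, law level, for any condition `C`. -/
theorem nf_lawG {p q : Ω → ℝ} (hp : IsLaw p) (hq : IsLaw q) {R : ℝ} (hR : 1 ≤ R)
    (hd : ∀ ω, q ω ≤ R * p ω) {SX SC SZ SR : Type} (N x1 x2 : Ω → ℤ) (X : Ω → SX) (C : Ω → SC)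
    (ro : Ω → SR) (z : Ω → SZ) (hN : Pool.Agent.H49.Ent.Det p z N)
    (hC : Pool.Agent.H49.Ent.Det p z C) {L e D₁ D₂ E₀ c0 eta U V : ℝ} {n : ℕ}
    (up : ∀ r : Ω → ℝ, IsLaw r → (∀ ω, 0 < r ω → 0 < p ω) → CH r X C ≤ L)
    (low : L - e ≤ CH p X z) (hD₁ : 0 ≤ D₁) (hD₂ : 0 ≤ D₂)
    (l0 : ∀ r : Ω → ℝ, IsLaw r → (∀ ω, 0 < r ω → 0 < p ω) →
      CH r ro (fun ω => (X ω, C ω)) ≤ E₀)
    (l1 : ∀ ω ω', 0 < p ω → 0 < p ω' → C ω = C ω' → X ω = X ω' → |(x1 ω : ℝ) - x1 ω'| ≤ D₁)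
    (l2 : ∀ ω ω', 0 < p ω → 0 < p ω' → C ω = C ω' → X ω = X ω' → x2 ω = x2 ω' →
      |(N ω : ℝ) - N ω'| ≤ D₂)
    (hc : 0 < c0) (heta : 0 < eta) (hU : 0 ≤ U) (hV : 0 ≤ V)
    (row : ∀ A : Ω → Prop, c0 ≤ Pb p A →
      CH (Pool.Agent.H49.Ent.cond p A True) x2 (fun ω => (x1 ω, ro ω, X ω)) ≤ U)
    (triv : ∀ r : Ω → ℝ, IsLaw r → (∀ ω, 0 < r ω → 0 < p ω) →
      CH r x2 (fun ω => (x1 ω, ro ω, X ω)) ≤ V) :
    CH q N C ≤ (1 + eta) * U +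
      (R * c0 * (1 + eta) / eta + R / (1 + eta) ^ n) * V + Real.log (n + 1) + E₀ +
      Real.log (D₁ + 1) + Real.log (D₂ + 1) + R * (e + Real.log 2) := by
  have hpos : ∀ ω, 0 < q ω → 0 < p ω := fun ω hω => by
    by_contra hcon
    have h2 : p ω ≤ 0 := not_lt.mp hcon
    have h3 := hd ω
    nlinarith
  have h0 := hq.nonneg
  have a1 := pass_ab hp hq hR hd N X C z hN hC up low
  have b1 := CH_le_add h0 N ro (fun ω => (X ω, C ω))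
  have b2 := l0 q hq hpos
  -- the first digits
  have a2 := CH_le_add h0 N x1 (fun ω => (ro ω, (X ω, C ω)))
  have a3 : CH q x1 (fun ω => (ro ω, (X ω, C ω))) ≤ Real.log (D₁ + 1) :=
    cnt_int hq x1 _ hD₁ fun ω ω' a b e => by
      simp only [Prod.mk.injEq] at e
      exact l1 ω ω' (hpos _ a) (hpos _ b) e.2.2 e.2.1
  have a4 := CH_le_add h0 N x2 (fun ω => (x1 ω, (ro ω, (X ω, C ω))))
  have a5 : CH q N (fun ω => (x2 ω, (x1 ω, (ro ω, (X ω, C ω))))) ≤ Real.log (D₂ + 1) :=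
    cnt_int hq N _ hD₂ fun ω ω' a b e => by
      simp only [Prod.mk.injEq] at e
      exact l2 ω ω' (hpos _ a) (hpos _ b) e.2.2.2.2 e.2.2.2.1 e.1
  have a6 : CH q x2 (fun ω => (x1 ω, (ro ω, (X ω, C ω)))) ≤
      CH q x2 (fun ω => (x1 ω, ro ω, X ω)) :=
    CH_mono_cond h0 fun ω ω' a b e => by
      simp only [Prod.mk.injEq] at e
      simp only [Prod.mk.injEq]
      exact ⟨e.1, e.2.1, e.2.2.1⟩
  have a7 := Pool.NFD.nf_dens hp hq (M := R) (c0 := c0) (eta := eta) (U := U) (V := V) (L := n)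
    hR hd hc heta x2 (fun ω => (x1 ω, ro ω, X ω)) hU hV row triv
  linarith

end

variable {m : ℕ}

/-- **Nonfullness of the digits `q + 1, …, k`** of the target given its first `q` digits, the position
up to the unit, the closed record and the side `sd`. -/
def WinNb {J : ℕ} (F : Fam m J) (B : F.Ω → Prop) (W k q : ℕ) (xo : F.Ω → V3) (Jo : F.Ω → Po)
    {Sd : Type} (sd : F.Ω → Sd) (e h R : ℝ) : Prop :=
  ∀ (Y : Type) (y : F.Ω → Y), Fst (slam F W) (fun ω => ptr F J ω) B y → ∀ r : F.Ω → ℝ, IsLaw r →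
    (∀ ω, r ω ≤ R * Pool.Agent.H49.Ent.cond F.p B True ω) →
      CH r (fun ω => ⌊((2 ^ k : ℕ) : ℝ) * MvPolynomial.eval (xo ω) (Jo ω)⌋)
        (fun ω => (⌊((2 ^ q : ℕ) : ℝ) * MvPolynomial.eval (xo ω) (Jo ω)⌋,
          cv (2 ^ k) (xo ω), y ω, sd ω)) ≤ (1 - h) * Real.log ((2 ^ (k - q) : ℕ) : ℝ) + e

/-- **The reading of the target with a side**: `x1`, `x2` are the digits of the height of the target,
`ro` the condition of the rows. -/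
structure ValS {J : ℕ} (F : Fam m J) (B : F.Ω → Prop) (k q : ℕ) (κ₀ κ₁ : Fin m) (xo : F.Ω → V3)
    (Jo : F.Ω → Po) {Y₀ Sd SR : Type} (y₀ : F.Ω → Y₀) (sd : F.Ω → Sd) (ro : F.Ω → SR)
    (x1 x2 : F.Ω → ℤ) (E₀ E₁ E₂ : ℝ) : Prop where
  v0 : ∀ r : F.Ω → ℝ, IsLaw r → (∀ ω, 0 < r ω → B ω) →
    CH r ro (fun ω => ((F.X J ω κ₁, F.X J ω κ₀, F.W ω), (y₀ ω, sd ω))) ≤ E₀
  v1 : ∀ ω ω', B ω → B ω' → y₀ ω = y₀ ω' → F.W ω = F.W ω' → F.X J ω κ₀ = F.X J ω' κ₀ →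
    F.X J ω κ₁ = F.X J ω' κ₁ → ⌊((2 ^ q : ℕ) : ℝ) * MvPolynomial.eval (xo ω) (Jo ω)⌋ =
      ⌊((2 ^ q : ℕ) : ℝ) * MvPolynomial.eval (xo ω') (Jo ω')⌋ → |(x1 ω : ℝ) - x1 ω'| ≤ E₁
  v2 : ∀ ω ω', B ω → B ω' → y₀ ω = y₀ ω' → F.W ω = F.W ω' → F.X J ω κ₀ = F.X J ω' κ₀ →
    F.X J ω κ₁ = F.X J ω' κ₁ → x2 ω = x2 ω' →
    |(⌊((2 ^ k : ℕ) : ℝ) * MvPolynomial.eval (xo ω) (Jo ω)⌋ : ℝ) -
      ⌊((2 ^ k : ℕ) : ℝ) * MvPolynomial.eval (xo ω') (Jo ω')⌋| ≤ E₂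

/-- **Nonfullness with a side**, for one family. The rows are those of `x2` given `x1`, `ro` and the
exact position. -/
theorem winNb_fam {J : ℕ} (F : Fam m J) {B : F.Ω → Prop} (hB : 0 < Pe F.p B) {W k q : ℕ}
    (hWk : W + k ≤ J) {κ₀ κ₁ : Fin m} {xo : F.Ω → V3} {Jo : F.Ω → Po}
    (cx : Cl2 (slam F (W + k)) (fun ω => ptr F J ω) B xo)
    (cJ : Cl2 (slam F (W + k)) (fun ω => ptr F J ω) B Jo) {Y₀ : Type}
    {y₀ : F.Ω → Y₀} (cy : Cl2 (slam F W) (fun ω => ptr F J ω) B y₀) {Sd SR : Type}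
    {sd : F.Ω → Sd} (cs : Cl2 (slam F (W + k)) (fun ω => ptr F J ω) B sd) {ro : F.Ω → SR}
    {x1 x2 : F.Ω → ℤ}
    {DT D₀ D₁ E₀ E₁ E₂ lT l₀ l₁ V : ℝ} (hDT : 0 ≤ DT) (hD₀ : 0 ≤ D₀) (hD₁ : 0 ≤ D₁)
    (hE₁ : 0 ≤ E₁) (hE₂ : 0 ≤ E₂) (hpr : PosR F B k κ₀ κ₁ xo y₀ DT D₀ D₁)
    (hvr : ValS F B k q κ₀ κ₁ xo Jo y₀ sd ro x1 x2 E₀ E₁ E₂)
    (kT : lT ≤ CH (Pool.Agent.H49.Ent.cond F.p B True) (fun ω => F.W ω) (slam F (W + k)))
    (k01 : ∀ (V₂ : Type) (z₂ : PtT F → V₂) (z₂' : LnT F → V₂),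
      (∀ ω, B ω → z₂ (ptr F J ω) = z₂' (slam F (W + k) ω)) →
      l₀ ≤ CH (Pool.Agent.H49.Ent.cond F.p B True) (fun ω => F.X J ω κ₀)
        (fun ω => (z₂' (slam F (W + k) ω), F.W ω)) ∧
      l₁ ≤ CH (Pool.Agent.H49.Ent.cond F.p B True) (fun ω => F.X J ω κ₁)
        (fun ω => (F.X J ω κ₀, z₂' (slam F (W + k) ω), F.W ω)))
    {c₀ η U R : ℝ} {n : ℕ} (hc : 0 < c₀) (hη : 0 < η) (hU : 0 ≤ U) (hV : 0 ≤ V) (hR : 1 ≤ R)
    (row : ∀ A : F.Ω → Prop, Sub A B → c₀ * Pe F.p B ≤ Pe F.p A →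
      CH (Pool.Agent.H49.Ent.cond F.p A True) x2
        (fun ω => (x1 ω, ro ω, (F.X J ω κ₁, F.X J ω κ₀, F.W ω))) ≤ U)
    (triv : ∀ r : F.Ω → ℝ, IsLaw r → (∀ ω, 0 < r ω → B ω) →
      CH r x2 (fun ω => (x1 ω, ro ω, (F.X J ω κ₁, F.X J ω κ₀, F.W ω))) ≤ V)
    {h e : ℝ} (hnum : (1 + η) * U + (R * c₀ * (1 + η) / η + R / (1 + η) ^ n) * V +
      Real.log (n + 1) + E₀ + Real.log (E₁ + 1) +
      Real.log (E₂ + 1) + R * (Real.log (DT + 1) + Real.log (D₀ + 1) + Real.log (D₁ + 1) -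
        (lT + l₀ + l₁) + Real.log 2) ≤ (1 - h) * Real.log ((2 ^ (k - q) : ℕ) : ℝ) + e) :
    WinNb F B W k q xo Jo sd e h R := by
  classical
  intro Y y hy r₀ hr₀ hr₀d
  have hlaw := isLaw_cond F.isLaw hB
  have h0 := hlaw.nonneg
  obtain ⟨p, hp⟩ : ∃ p, p = Pool.Agent.H49.Ent.cond F.p B True := ⟨_, rfl⟩
  have hpB : ∀ ω, 0 < p ω → B ω := fun ω h => cond_pos_B (hp ▸ h)
  obtain ⟨Zt, zA, hzA⟩ := exists_fst (slam F (W + k)) (fun ω => ptr F J ω) B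
  obtain ⟨⟨φ, hφ⟩, ψ, hψ⟩ := hzA.cl
  have cZ : Cl2 (slam F W) (fun ω => ptr F J ω) B (fun ω => F.Z ω) :=
    ⟨⟨fun s => s.2.1, fun ω _ => rfl⟩, fun s => s.2.2, fun ω _ => rfl⟩
  have hyy : ∀ (V' : Type) (w : F.Ω → V'), Cl2 (slam F W) (fun ω => ptr F J ω) B w →
      ∀ ω ω', B ω → B ω' → y ω = y ω' → w ω = w ω' := fun V' w hw => hy.fin V' w hw
  have cyA : Cl2 (slam F (W + k)) (fun ω => ptr F J ω) B y := by
    obtain ⟨⟨φ', hφ'⟩, ψ', hψ'⟩ := hy.cl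
    obtain ⟨D', hD'⟩ := lift_D F (show W ≤ W + k by omega) hWk φ'
    exact ⟨⟨D', fun ω hω => by rw [hφ' ω hω, hD']⟩, ψ', hψ'⟩
  have hN : Pool.Agent.H49.Ent.Det p zA (fun ω =>
      ⌊((2 ^ k : ℕ) : ℝ) * MvPolynomial.eval (xo ω) (Jo ω)⌋) := by
    intro ω ω' a b e1
    have e2 := hzA.fin _ _ cx ω ω' (hpB ω a) (hpB ω' b) e1
    have e3 := hzA.fin _ _ cJ ω ω' (hpB ω a) (hpB ω' b) e1
    simp only [e2, e3]
  have hC : Pool.Agent.H49.Ent.Det p zA (fun ω =>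
      (⌊((2 ^ q : ℕ) : ℝ) * MvPolynomial.eval (xo ω) (Jo ω)⌋, cv (2 ^ k) (xo ω), y ω, sd ω)) := by
    intro ω ω' a b e1
    have e2 := hzA.fin _ _ cx ω ω' (hpB ω a) (hpB ω' b) e1
    have e3 := hzA.fin _ _ cyA ω ω' (hpB ω a) (hpB ω' b) e1
    have e4 := hzA.fin _ _ cJ ω ω' (hpB ω a) (hpB ω' b) e1
    have e5 := hzA.fin _ _ cs ω ω' (hpB ω a) (hpB ω' b) e1
    simp only [e2, e3, e4, e5]
  -- upper bound
  have up : ∀ r : F.Ω → ℝ, IsLaw r → (∀ ω, 0 < r ω → 0 < p ω) →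
      CH r (fun ω => (F.X J ω κ₁, F.X J ω κ₀, F.W ω)) (fun ω =>
        (⌊((2 ^ q : ℕ) : ℝ) * MvPolynomial.eval (xo ω) (Jo ω)⌋, cv (2 ^ k) (xo ω), y ω, sd ω)) ≤
        Real.log (DT + 1) + Real.log (D₀ + 1) + Real.log (D₁ + 1) := by
    intro r hr hrp
    have hn := hr.nonneg
    have hB' : ∀ ω, 0 < r ω → B ω := fun ω h => hpB ω (hrp ω h)
    have b0 : CH r (fun ω => (F.X J ω κ₁, F.X J ω κ₀, F.W ω)) (fun ω =>
        (⌊((2 ^ q : ℕ) : ℝ) * MvPolynomial.eval (xo ω) (Jo ω)⌋, cv (2 ^ k) (xo ω), y ω, sd ω)) ≤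
        CH r (fun ω => (F.X J ω κ₁, F.X J ω κ₀, F.W ω)) (fun ω => (cv (2 ^ k) (xo ω), y ω)) :=
      CH_mono_cond hn fun ω ω' _ _ e => by
        simp only [Prod.mk.injEq] at e ⊢
        exact ⟨e.2.1, e.2.2.1⟩
    have b1 := CH_chain hn (fun ω => F.X J ω κ₁) (fun ω => (F.X J ω κ₀, F.W ω))
      (fun ω => (cv (2 ^ k) (xo ω), y ω))
    have b2 := CH_chain hn (fun ω => F.X J ω κ₀) (fun ω => F.W ω)
      (fun ω => (cv (2 ^ k) (xo ω), y ω))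
    have b3 : CH r (fun ω => F.X J ω κ₀) (fun ω => (F.W ω, (cv (2 ^ k) (xo ω), y ω))) ≤
        Real.log (D₀ + 1) :=
      cnt_int hr _ _ hD₀ fun ω ω' a b e => by
        simp only [Prod.mk.injEq] at e
        exact hpr.p0 ω ω' (hB' _ a) (hB' _ b) (hyy _ _ cy _ _ (hB' _ a) (hB' _ b) e.2.2) e.2.1 e.1
    have b4 : CH r (fun ω => F.X J ω κ₁)
        (fun ω => ((F.X J ω κ₀, F.W ω), (cv (2 ^ k) (xo ω), y ω))) ≤ Real.log (D₁ + 1) :=
      cnt_int hr _ _ hD₁ fun ω ω' a b e => by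
        simp only [Prod.mk.injEq] at e
        exact hpr.p1 ω ω' (hB' _ a) (hB' _ b) (hyy _ _ cy _ _ (hB' _ a) (hB' _ b) e.2.2) e.2.1
          e.1.2 e.1.1
    have b5 : CH r (fun ω => F.W ω) (fun ω => (cv (2 ^ k) (xo ω), y ω)) ≤ Real.log (DT + 1) := by
      have c1 : CH r (fun ω => F.W ω) (fun ω => (cv (2 ^ k) (xo ω), y ω)) ≤
          CH r (fun ω => (F.T ω : ℤ)) (fun ω => (cv (2 ^ k) (xo ω), y ω)) :=
        CH_mono_left hn fun ω ω' a b e => by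
          simp only [Prod.mk.injEq] at e
          have e4 : F.T ω = F.T ω' := by exact_mod_cast e.1
          have e5 := hyy _ _ cZ _ _ (hB' _ a) (hB' _ b) e.2.2
          show F.W ω = F.W ω'
          unfold Fam.W
          rw [e4]
          exact congrArg _ e5
      refine c1.trans (cnt_int hr _ _ hDT fun ω ω' a b e => ?_)
      simp only [Prod.mk.injEq] at e
      exact hpr.tm ω ω' (hB' _ a) (hB' _ b) (hyy _ _ cy _ _ (hB' _ a) (hB' _ b) e.2) e.1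
    linarith
  -- lower bound
  have low : (Real.log (DT + 1) + Real.log (D₀ + 1) + Real.log (D₁ + 1)) -
      (Real.log (DT + 1) + Real.log (D₀ + 1) + Real.log (D₁ + 1) - (lT + l₀ + l₁)) ≤
      CH p (fun ω => (F.X J ω κ₁, F.X J ω κ₀, F.W ω)) zA := by
    have hn : ∀ ω, 0 ≤ p ω := fun ω => hp ▸ h0 ω
    obtain ⟨k0, k1⟩ := k01 Zt ψ φ fun ω hω => by rw [← hφ ω hω, ← hψ ω hω]
    rw [← hp] at k0 k1 kT
    have b1 := CH_chain hn (fun ω => F.X J ω κ₁) (fun ω => (F.X J ω κ₀, F.W ω)) zA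
    have b2 := CH_chain hn (fun ω => F.X J ω κ₀) (fun ω => F.W ω) zA
    have b3 : CH p (fun ω => F.X J ω κ₀) (fun ω => (φ (slam F (W + k) ω), F.W ω)) ≤
        CH p (fun ω => F.X J ω κ₀) (fun ω => (F.W ω, zA ω)) :=
      CH_mono_cond hn fun ω ω' a b e => by
        simp only [Prod.mk.injEq] at e ⊢
        exact ⟨e.2, by rw [hφ ω (hpB ω a), hφ ω' (hpB ω' b)]; exact e.1⟩
    have b4 : CH p (fun ω => F.X J ω κ₁) (fun ω => (F.X J ω κ₀, φ (slam F (W + k) ω), F.W ω)) ≤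
        CH p (fun ω => F.X J ω κ₁) (fun ω => ((F.X J ω κ₀, F.W ω), zA ω)) :=
      CH_mono_cond hn fun ω ω' a b e => by
        simp only [Prod.mk.injEq] at e ⊢
        exact ⟨⟨e.1, e.2.2⟩, by rw [hφ ω (hpB ω a), hφ ω' (hpB ω' b)]; exact e.2.1⟩
    have b5 : CH p (fun ω => F.W ω) (slam F (W + k)) ≤ CH p (fun ω => F.W ω) zA :=
      CH_mono_cond hn fun ω ω' a b e => by
        rw [hφ ω (hpB ω a), hφ ω' (hpB ω' b), e]
    linarith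
  -- the rows
  have hrow : ∀ A : F.Ω → Prop, c₀ ≤ Pb p A → CH (Pool.Agent.H49.Ent.cond p A True)
      x2 (fun ω => (x1 ω, ro ω, (F.X J ω κ₁, F.X J ω κ₀, F.W ω))) ≤ U := by
    intro A hA
    have hPA : c₀ ≤ Pe p A := by
      have e1 : Pe p A = Pb p A := Pool.NFD.Pb_law A
      rw [e1]
      exact hA
    have e2 : Pool.Agent.H49.Ent.cond p A True =
        Pool.Agent.H49.Ent.cond F.p (fun ω => B ω ∧ A ω) True := by
      rw [hp]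
      exact Piece.cond_inter hB.ne'
    have e3 : Pe p A = Pe F.p (fun ω => B ω ∧ A ω) / Pe F.p B := by
      rw [hp]
      exact Pool.K2S.Pe_cond A
    have e4 : c₀ * Pe F.p B ≤ Pe F.p (fun ω => B ω ∧ A ω) := by
      rw [e3, le_div_iff₀ hB] at hPA
      exact hPA
    rw [e2]
    exact row (fun ω => B ω ∧ A ω) (fun ω h => h.1) e4
  have hplaw : IsLaw p := hp ▸ hlaw
  have key := nf_lawG hplaw hr₀ hR (fun ω => hp ▸ hr₀d ω)
    (fun ω => ⌊((2 ^ k : ℕ) : ℝ) * MvPolynomial.eval (xo ω) (Jo ω)⌋) x1 x2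
    (fun ω => (F.X J ω κ₁, F.X J ω κ₀, F.W ω)) (fun ω =>
      (⌊((2 ^ q : ℕ) : ℝ) * MvPolynomial.eval (xo ω) (Jo ω)⌋, cv (2 ^ k) (xo ω), y ω, sd ω)) ro zA
    hN hC up low hE₁ hE₂
    (fun r hr hrp => (CH_mono_cond hr.nonneg fun ω ω' a b e1 => by
      simp only [Prod.mk.injEq] at e1 ⊢
      exact ⟨e1.1, hyy _ _ cy _ _ (hpB _ (hrp _ a)) (hpB _ (hrp _ b)) e1.2.2.2.1,
        e1.2.2.2.2⟩).trans (hvr.v0 r hr fun ω h => hpB ω (hrp ω h)))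
    (fun ω ω' a b e1 e2 => by
      simp only [Prod.mk.injEq] at e1 e2
      exact hvr.v1 ω ω' (hpB _ a) (hpB _ b) (hyy _ _ cy _ _ (hpB _ a) (hpB _ b) e1.2.2.1) e2.2.2
        e2.2.1 e2.1 e1.1)
    (fun ω ω' a b e1 e2 e3 => by
      simp only [Prod.mk.injEq] at e1 e2
      exact hvr.v2 ω ω' (hpB _ a) (hpB _ b) (hyy _ _ cy _ _ (hpB _ a) (hpB _ b) e1.2.2.1) e2.2.2
        e2.2.1 e2.1 e3) (n := n) hc hη hU hV hrow
    (fun r hr hrp => triv r hr fun ω h => hpB ω (hrp ω h))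
  exact key.trans hnum

/-- **Nonfullness with a side**, class form. `Rw` is any statement of the class about the rows; here it
is the bound `d J` for all events of mass at least `c₀ Pe B`. -/
theorem winNb_cls {S : PCl m} (hS : TmH S) {c : ℕ → Fin m} {a : ℝ} {sf : ℕ → ℝ} (ha1 : a ≤ 1)
    (hful : FulC S c 0 2 a sf) {d v : ℝ} (hd : 0 ≤ d) (hv : 0 ≤ v)
    {Φ : ∀ (J : ℕ) (F : Fam m J), (F.Ω → Prop) → ∀ SR : Type, (F.Ω → SR) → (F.Ω → ℤ) →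
      (F.Ω → ℤ) → Prop}
    (Φs : ∀ (J : ℕ) (F : Fam m J) (A B : F.Ω → Prop) (SR : Type) (ro : F.Ω → SR)
      (x1 x2 : F.Ω → ℤ), Sub B A → Φ J F A SR ro x1 x2 → Φ J F B SR ro x1 x2)
    (hrow : Bas S (fun J F A => ∀ (SR : Type) (ro : F.Ω → SR) (x1 x2 : F.Ω → ℤ),
      Φ J F A SR ro x1 x2 → CH (Pool.Agent.H49.Ent.cond F.p A True) x2
        (fun ω => (x1 ω, ro ω, (F.X J ω (c 1), F.X J ω (c 0), F.W ω))) ≤ d * J))
    {R ε : ℝ} (hR : 1 ≤ R) (hε : 0 < ε) :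
    Bas S (fun J F B => ∀ (SR : Type) (ro : F.Ω → SR) (x1 x2 : F.Ω → ℤ),
      Φ J F B SR ro x1 x2 →
      ∀ (W k q : ℕ) (xo : F.Ω → V3) (Jo : F.Ω → Po) (Y₀ Sd : Type) (y₀ : F.Ω → Y₀)
        (sd : F.Ω → Sd) (DT D₀ D₁ E₀ E₁ E₂ δ h e : ℝ), W + k ≤ ⌊a * J⌋₊ →
      Cl2 (slam F (W + k)) (fun ω => ptr F J ω) B xo →
      Cl2 (slam F (W + k)) (fun ω => ptr F J ω) B Jo →
      Cl2 (slam F W) (fun ω => ptr F J ω) B y₀ →
      Cl2 (slam F (W + k)) (fun ω => ptr F J ω) B sd → 0 ≤ DT → 0 ≤ D₀ → 0 ≤ D₁ → 0 ≤ E₁ →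
      0 ≤ E₂ → PosR F B k (c 0) (c 1) xo y₀ DT D₀ D₁ →
      ValS F B k q (c 0) (c 1) xo Jo y₀ sd ro x1 x2 E₀ E₁ E₂ →
      (∀ r : F.Ω → ℝ, IsLaw r → (∀ ω, 0 < r ω → B ω) →
        CH r x2 (fun ω => (x1 ω, ro ω, (F.X J ω (c 1), F.X J ω (c 0), F.W ω))) ≤ v * J) →
      E₀ + Real.log (E₁ + 1) + Real.log (E₂ + 1) ≤ δ * J →
      Real.log (DT + 1) + Real.log (D₀ + 1) + Real.log (D₁ + 1) ≤
        ((J : ℝ) - ((W + k : ℕ) : ℝ)) * Real.log 2 +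
          (2 - sf 0 - sf 1) * Real.log 2 * J + δ * J →
      (d + ε + (R + 1) * δ) * J ≤ (1 - h) * Real.log ((2 ^ (k - q) : ℕ) : ℝ) + e →
      WinNb F B W k q xo Jo sd e h R) := by
  classical
  have hl2 : 0 < Real.log 2 := Real.log_pos one_lt_two
  have hR0 : 0 < R := by linarith
  obtain ⟨η, hη⟩ : ∃ η : ℝ, η = min 1 (ε / (8 * (d + 1))) := ⟨_, rfl⟩
  have hη0 : 0 < η := by
    rw [hη]
    exact lt_min one_pos (by positivity)
  have hη1 : η * d ≤ ε / 8 := by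
    have h1 : η ≤ ε / (8 * (d + 1)) := hη ▸ min_le_right _ _
    have h2 : η * d ≤ ε / (8 * (d + 1)) * d := mul_le_mul_of_nonneg_right h1 hd
    refine h2.trans ?_
    rw [div_mul_eq_mul_div, div_le_div_iff₀ (by positivity) (by norm_num)]
    nlinarith
  obtain ⟨V', hV'⟩ : ∃ V' : ℝ, V' = v + 1 := ⟨_, rfl⟩
  have hV'0 : 0 < V' := by
    rw [hV']
    linarith
  obtain ⟨c₀, hc₀⟩ : ∃ c₀ : ℝ, c₀ = ε * η / (16 * R * (1 + η) * V') := ⟨_, rfl⟩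
  have hc0 : 0 < c₀ := by
    rw [hc₀]
    positivity
  have hc1 : R * c₀ * (1 + η) / η * V' = ε / 16 := by
    rw [hc₀]
    field_simp
  obtain ⟨n, hn⟩ : ∃ n : ℕ, R / (1 + η) ^ n * V' ≤ ε / 16 := by
    obtain ⟨n, hn⟩ := exists_pow_lt_of_lt_one (show 0 < ε / (16 * R * V') by positivity)
      (show (1 + η)⁻¹ < 1 from inv_lt_one_of_one_lt₀ (by linarith))
    refine ⟨n, ?_⟩
    rw [inv_pow] at hn
    have h1 : R / (1 + η) ^ n * V' = R * V' * ((1 + η) ^ n)⁻¹ := by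
      rw [div_eq_mul_inv]
      ring
    rw [h1]
    have h2 : R * V' * ((1 + η) ^ n)⁻¹ ≤ R * V' * (ε / (16 * R * V')) :=
      mul_le_mul_of_nonneg_left hn.le (by positivity)
    refine h2.trans (le_of_eq ?_)
    field_simp
  obtain ⟨ρ, hρ⟩ : ∃ ρ : ℝ, ρ = ε / (16 * R * (Real.log 2 + 1)) := ⟨_, rfl⟩
  have hρ0 : 0 < ρ := by
    rw [hρ]
    positivity
  have hρ1 : R * (2 * (ρ * Real.log 2)) ≤ ε / 8 := by
    have h1 : ρ * (Real.log 2 + 1) = ε / (16 * R) := by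
      rw [hρ]
      field_simp
    have h2 : R * (ρ * (Real.log 2 + 1)) = ε / 16 := by
      rw [h1]
      field_simp
    nlinarith [mul_pos hR0 hρ0]
  obtain ⟨ε₁, hε₁⟩ : ∃ ε₁ : ℝ, ε₁ = ε / (8 * R) := ⟨_, rfl⟩
  have hε₁0 : 0 < ε₁ := by
    rw [hε₁]
    positivity
  have hε₁1 : R * ε₁ = ε / 8 := by
    rw [hε₁]
    field_simp
  obtain ⟨J₂, hJ₂⟩ := exists_nat_ge ((Real.log (n + 1) + R * (Real.log 3 + Real.log 2) + 1) /
    (ε / 8))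
  refine Bas.mono (max J₂ 1) (((Pool.LBK.Bas.ev hrow hc0).and (full_cls hS hε₁0)).and
    (hful ρ hρ0)) ?_
  rintro J hJ F B ⟨⟨Hr, hB, hT⟩, Hf⟩ SR ro x1 x2 hΦ W k q xo Jo Y₀ Sd y₀ sd DT D₀ D₁ E₀ E₁ E₂ δ h e
    hWa cx cJ cy cs p1 p2 p3 p4 p5 hpr hvr htriv q1 q2 q3
  have hJ1 : 1 ≤ J := (le_max_right _ _).trans hJ
  have hJ0 : (1 : ℝ) ≤ J := by exact_mod_cast hJ1
  have haJ : ⌊a * J⌋₊ ≤ J := by
    refine Nat.floor_le_of_le ?_
    nlinarith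
  have hWk : W + k ≤ J := hWa.trans haJ
  have kT : ((J : ℝ) - ((W + k : ℕ) : ℝ)) * Real.log 2 - (ε₁ * J + Real.log 3) ≤
      CH (Pool.Agent.H49.Ent.cond F.p B True) (fun ω => F.W ω) (slam F (W + k)) := by
    have h1 := hT (W + k) (J - (W + k)) (by omega)
    have h2 : ((J : ℝ) - ((W + k : ℕ) : ℝ)) * Real.log 2 ≤
        Real.log (2 * ((2 ^ (J - (W + k)) : ℕ) : ℝ) + 1) := by
      have e1 : ((J : ℝ) - ((W + k : ℕ) : ℝ)) = ((J - (W + k) : ℕ) : ℝ) := by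
        rw [Nat.cast_sub hWk]
      rw [e1, ← Real.log_pow]
      refine Real.log_le_log (by positivity) ?_
      push_cast
      have : (1 : ℝ) ≤ 2 ^ (J - (W + k)) := one_le_pow₀ one_le_two
      linarith
    have h3 : CH (Pool.Agent.H49.Ent.cond F.p B True) (dg F (W + k) (J - (W + k)))
        (slam F (W + k)) ≤ CH (Pool.Agent.H49.Ent.cond F.p B True) (fun ω => F.W ω)
          (slam F (W + k)) :=
      CH_mono_left (isLaw_cond F.isLaw hB).nonneg fun ω ω' a b e => by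
        simp only [Prod.mk.injEq] at e
        have e4 : F.T ω = F.T ω' := congrArg Prod.fst e.1
        unfold dg Fam.T1
        rw [e4]
    linarith
  have k01 : ∀ (V₂ : Type) (z₂ : PtT F → V₂) (z₂' : LnT F → V₂),
      (∀ ω, B ω → z₂ (ptr F J ω) = z₂' (slam F (W + k) ω)) →
      (1 - sf 0 - ρ) * Real.log 2 * J ≤ CH (Pool.Agent.H49.Ent.cond F.p B True)
        (fun ω => F.X J ω (c 0)) (fun ω => (z₂' (slam F (W + k) ω), F.W ω)) ∧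
      (1 - sf 1 - ρ) * Real.log 2 * J ≤ CH (Pool.Agent.H49.Ent.cond F.p B True)
        (fun ω => F.X J ω (c 1)) (fun ω => (F.X J ω (c 0), z₂' (slam F (W + k) ω), F.W ω)) := by
    intro V₂ z₂ z₂' hz₂
    obtain ⟨D', hD'⟩ := lift_D F hWa haJ z₂'
    have h1 := Hf V₂ z₂ D' (fun ω hω => by rw [hD', hz₂ ω hω])
    have hn0 := (isLaw_cond F.isLaw hB).nonneg
    refine ⟨(h1 0 le_rfl (by norm_num)).trans ?_, (h1 1 (by norm_num) (by norm_num)).trans ?_⟩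
    · refine CH_mono_cond hn0 fun ω ω' _ _ e => ?_
      simp only [Prod.mk.injEq] at e ⊢
      rw [hD', hD'] at e
      exact e.2
    · refine CH_mono_cond hn0 fun ω ω' _ _ e => ?_
      simp only [Prod.mk.injEq] at e ⊢
      rw [hD', hD'] at e
      exact ⟨congrFun e.1 0, e.2⟩
  refine winNb_fam F hB hWk cx cJ cy cs p1 p2 p3 p4 p5 hpr hvr kT k01
    hc0 hη0 (U := d * J) (mul_nonneg hd (by linarith)) (V := v * J) (mul_nonneg hv (by linarith))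
    hR (n := n) (fun A hA hP => Hr A hA hP SR ro x1 x2 (Φs J F B A SR ro x1 x2 hA hΦ)) htriv ?_
  -- the numbers
  have n1 : (1 + η) * (d * J) ≤ (d + ε / 8) * J := by nlinarith
  have n2 : (R * c₀ * (1 + η) / η + R / (1 + η) ^ n) * (v * J) ≤ ε / 8 * J := by
    have h1 : v * J ≤ V' * J := by
      rw [hV']
      nlinarith
    have h2 : 0 ≤ R * c₀ * (1 + η) / η + R / (1 + η) ^ n := by positivity
    have h3 := mul_le_mul_of_nonneg_left h1 h2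
    refine h3.trans ?_
    have h4 : (R * c₀ * (1 + η) / η + R / (1 + η) ^ n) * (V' * J) =
        (R * c₀ * (1 + η) / η * V' + R / (1 + η) ^ n * V') * J := by ring
    rw [h4, hc1]
    have h5 : ε / 16 + R / (1 + η) ^ n * V' ≤ ε / 8 := by linarith
    exact mul_le_mul_of_nonneg_right h5 (by linarith)
  have n3 : Real.log (n + 1) + R * (Real.log 3 + Real.log 2) ≤ ε / 8 * J := by
    have h1 : (Real.log (n + 1) + R * (Real.log 3 + Real.log 2) + 1) / (ε / 8) ≤ J :=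
      hJ₂.trans (by exact_mod_cast (le_max_left _ _).trans hJ)
    rw [div_le_iff₀ (by positivity)] at h1
    linarith
  have n4 : R * (Real.log (DT + 1) + Real.log (D₀ + 1) + Real.log (D₁ + 1) -
      ((((J : ℝ) - ((W + k : ℕ) : ℝ)) * Real.log 2 - (ε₁ * J + Real.log 3)) +
        (1 - sf 0 - ρ) * Real.log 2 * J + (1 - sf 1 - ρ) * Real.log 2 * J) + Real.log 2) ≤
      R * δ * J + ε / 4 * J + R * (Real.log 3 + Real.log 2) := by
    have h1 : Real.log (DT + 1) + Real.log (D₀ + 1) + Real.log (D₁ + 1) -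
      ((((J : ℝ) - ((W + k : ℕ) : ℝ)) * Real.log 2 - (ε₁ * J + Real.log 3)) +
        (1 - sf 0 - ρ) * Real.log 2 * J + (1 - sf 1 - ρ) * Real.log 2 * J) + Real.log 2 ≤
        δ * J + ε₁ * J + 2 * (ρ * Real.log 2) * J + (Real.log 3 + Real.log 2) := by
      nlinarith
    have h2 := mul_le_mul_of_nonneg_left h1 hR0.le
    refine h2.trans ?_
    have h3 : R * (δ * J + ε₁ * J + 2 * (ρ * Real.log 2) * J + (Real.log 3 + Real.log 2)) =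
        R * δ * J + (R * ε₁) * J + R * (2 * (ρ * Real.log 2)) * J +
          R * (Real.log 3 + Real.log 2) := by ring
    rw [h3, hε₁1]
    have h4 : R * (2 * (ρ * Real.log 2)) * J ≤ ε / 8 * J :=
      mul_le_mul_of_nonneg_right hρ1 (by linarith)
    linarith
  have n5 : (d + ε + (R + 1) * δ) * J = (d + ε / 8) * J + ε / 8 * J + ε / 8 * J + δ * J +
      R * δ * J + ε / 4 * J + 3 * (ε / 8 * J) := by ring
  have n6 : 0 ≤ ε / 8 * (J : ℝ) := by positivity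
  linarith

end Pool.STB
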