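import Pool.Agent.H46.PR.Two
import Pool.Agent.H46.MIC.Cpn

/-!
# A static target which is nonfull alone: definitions and statements

Lines are in space-time of dimension three (the time and two contact coordinates). A line has a
direction `X` and a homogeneous polynomial `Φ` of degree `b`; a record has a position `x` and a
polynomial `J`, such that `J + Φ (· - x)` is the same polynomial for all samples of a line. The
statement `EndStmt`: if the target `J (x)` is not full given the position, then `Φ` may be replaced by a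
homogeneous polynomial which is a function of the record.
-/

set_option autoImplicit false

namespace Pool.STB

open Finset Real MvPolynomial
open Pool.Agent.H49.Ent Pool.Agent.H32.Dense Pool.STK
open Pool.BFL (Pb)

/-- Vectors of space-time. -/
abbrev V3 : Type := Fin 3 → ℝ

/-- Polynomials on space-time. -/
abbrev Po : Type := MvPolynomial (Fin 3) ℝ

/-- The box of size `r`. -/
def Bx (r : ℝ) (q : V3) : Prop := ∀ i, |q i| ≤ r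

/-- **`Φ - f` is nearly constant in the direction `X`.** -/
def Inv (X : V3) (Φ f : Po) (δ : ℝ) : Prop :=
  ∀ q : V3, Bx 1 q → ∀ s : ℝ, |s| ≤ 1 →
    |(eval (q + s • X) Φ - eval (q + s • X) f) - (eval q Φ - eval q f)| ≤ δ

/-- The linear substitution of a matrix. -/
noncomputable def lin (B : Matrix (Fin 3) (Fin 3) ℝ) (j : Fin 3) : Po :=
  ∑ l, C (B j l) * MvPolynomial.X l

/-- The matrix with the columns `X a`. -/
def mt (X : Fin 3 → V3) : Matrix (Fin 3) (Fin 3) ℝ := Matrix.of fun j a => X a j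

/-- The projection to the span of the `X a`, `a ∈ S`, along the other ones. -/
noncomputable def prj (X : Fin 3 → V3) (S : Finset (Fin 3)) : Matrix (Fin 3) (Fin 3) ℝ :=
  Matrix.of fun j l => ∑ a ∈ S, X a j * (mt X)⁻¹ a l

/-- **The polynomial of a branch** of three lines. -/
noncomputable def fb (X : Fin 3 → V3) (Φ : Fin 3 → Po) : Po :=
  Φ 0 + bind₁ (lin (prj X {1, 2})) (Φ 1 - Φ 0) + bind₁ (lin (prj X {2})) (Φ 2 - Φ 1)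

/-- A homogeneous polynomial of degree `b`, at most `R` on the unit box. -/
structure Hb (b : ℕ) (R : ℝ) (Φ : Po) : Prop where
  hom : Φ.IsHomogeneous b
  bd : ∀ q : V3, Bx 1 q → |eval q Φ| ≤ R

/-! ### The algebra -/

/-- Uniqueness: three directions determine the polynomial. -/
def UnqStmt : Prop := ∀ b : ℕ, 1 ≤ b → ∃ C : ℝ, 1 ≤ C ∧
  ∀ (X : Fin 3 → V3) (Φ : Fin 3 → Po) (f f' : Po) (η δ : ℝ), 0 < η → η ≤ 1 → 0 ≤ δ →
    (∀ a, Bx 1 (X a)) → η ≤ |(mt X).det| → f.IsHomogeneous b → f'.IsHomogeneous b →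
    (∀ a, Inv (X a) (Φ a) f δ) → (∀ a, Inv (X a) (Φ a) f' δ) →
    ∀ q : V3, Bx 1 q → |eval q f - eval q f'| ≤ C * δ / η ^ b

/-- The size of the polynomial of a branch. -/
def FbbStmt : Prop := ∀ b : ℕ, ∃ C : ℝ, 1 ≤ C ∧ ∀ (X : Fin 3 → V3) (Φ : Fin 3 → Po) (η : ℝ),
    0 < η → η ≤ 1 → (∀ a, Bx 1 (X a)) → η ≤ |(mt X).det| → (∀ a, Hb b 1 (Φ a)) →
    Hb b (C / η ^ b) (fb X Φ)

/-- The values of the polynomial of a branch. -/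
def FbvStmt : Prop := ∀ (X : Fin 3 → V3) (Φ : Fin 3 → Po) (s : Fin 3 → ℝ), (mt X).det ≠ 0 →
    eval (∑ a, s a • X a) (fb X Φ) = eval (∑ a, s a • X a) (Φ 0) +
      (eval (s 1 • X 1 + s 2 • X 2) (Φ 1) - eval (s 1 • X 1 + s 2 • X 2) (Φ 0)) +
      (eval (s 2 • X 2) (Φ 2) - eval (s 2 • X 2) (Φ 1))

/-- Two branches with a common line: `(l, 1, 2)` and `(1, 2, 3)`. -/
def FbcStmt : Prop := ∀ b : ℕ, 1 ≤ b → ∃ C : ℝ, 1 ≤ C ∧
  ∀ (X : Fin 4 → V3) (Φ : Fin 4 → Po) (η δ : ℝ), 0 < η → η ≤ 1 → 0 ≤ δ →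
    (∀ a, Bx 1 (X a)) → η ≤ |(mt ![X 0, X 1, X 2]).det| → η ≤ |(mt ![X 1, X 2, X 3]).det| →
    (∀ a, (Φ a).IsHomogeneous b) →
    Inv (X 0) (Φ 0) (fb ![X 1, X 2, X 3] ![Φ 1, Φ 2, Φ 3]) δ →
    ∀ q : V3, Bx 1 q → |eval q (fb ![X 0, X 1, X 2] ![Φ 0, Φ 1, Φ 2]) -
      eval q (fb ![X 1, X 2, X 3] ![Φ 1, Φ 2, Φ 3])| ≤ C * δ / η ^ b

/-! ### The law -/

section law

variable {Ω Λ Z Y 𝒟 : Type} [Fintype Ω]

/-- The value of the target at a record. -/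
noncomputable def val (x : Z → V3) (J : Z → Po) (r : Z) : ℝ := eval (x r) (J r)

/-- The cell of a vector in units `1 / M`. -/
noncomputable def cv (M : ℕ) (q : V3) : Fin 3 → ℤ := fun i => ⌊(M : ℝ) * q i⌋

/-- **The data of the chains of lines.** `L`: the line with its window; `z`: the record with the time
`t`; `y`: the closed record of the window; `D`: the data of a line. -/
structure ChH (p : Ω → ℝ) (L : Ω → Λ) (z : Ω → Z) (y : Ω → Y) (t : Ω → ℤ) (D : Λ → 𝒟)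
    (X : 𝒟 → V3) (Φ : 𝒟 → Po) (x : Z → V3) (J : Z → Po) (b M : ℕ) (K e h R η c : ℝ) : Prop where
  law : IsLaw p
  yL : ∀ ω ω', 0 < p ω → 0 < p ω' → L ω = L ω' → y ω = y ω'
  yz : ∀ ω ω', 0 < p ω → 0 < p ω' → z ω = z ω' → y ω = y ω'
  tz : ∀ ω ω', 0 < p ω → 0 < p ω' → z ω = z ω' → t ω = t ω'
  tM : ∀ ω, 0 < p ω → |t ω| ≤ (M : ℤ)
  full : Real.log (2 * M + 1) - e ≤ CH p t L
  free : CH p (fun ω => D (L ω)) y - e ≤ CH p (fun ω => D (L ω)) z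
  X1 : ∀ d, Bx 1 (X d)
  Φ1 : ∀ d, Hb b 1 (Φ d)
  x1 : ∀ r, Bx 1 (x r)
  J1 : ∀ r, (J r).totalDegree ≤ b ∧ ∀ q, Bx 1 q → |eval q (J r)| ≤ K
  pos : ∀ ω ω', 0 < p ω → 0 < p ω' → L ω = L ω' →
    Bx (K / M) (x (z ω') - x (z ω) - (((t ω' : ℝ) - t ω) / M) • X (D (L ω)))
  jet : ∀ ω ω', 0 < p ω → 0 < p ω' → L ω = L ω' → ∀ q, Bx 4 q →
    |(eval q (J (z ω')) + eval (q - x (z ω')) (Φ (D (L ω)))) -
      (eval q (J (z ω)) + eval (q - x (z ω)) (Φ (D (L ω))))| ≤ K / M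
  nf : ∀ q : Ω → ℝ, IsLaw q → (∀ ω, q ω ≤ R * p ω) →
    CH q (fun ω => ⌊(M : ℝ) * val x J (z ω)⌋) (fun ω => (cv M (x (z ω)), y ω)) ≤
      (1 - h) * Real.log M + e
  gp : ∀ H : Z → V3, (∀ r, Bx 1 (H r) ∧ ∃ i, |H r i| = 1) →
    Pb p (fun ω => |∑ i, H (z ω) i * X (D (L ω)) i| ≤ η) ≤ c

/-- The law of `b0 - z - a1 - L - b1 - z - a2 - L - b2 - z - a3`. -/
noncomputable def Q2 (p : Ω → ℝ) (z : Ω → Z) : Ω × Ω → ℝ := glue p p z z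

noncomputable def Q3 (p : Ω → ℝ) (L : Ω → Λ) (z : Ω → Z) : (Ω × Ω) × Ω → ℝ :=
  glue (Q2 p z) p (fun w => L w.2) L

noncomputable def Q4 (p : Ω → ℝ) (L : Ω → Λ) (z : Ω → Z) : ((Ω × Ω) × Ω) × Ω → ℝ :=
  glue (Q3 p L z) p (fun w => z w.2) z

noncomputable def Q5 (p : Ω → ℝ) (L : Ω → Λ) (z : Ω → Z) : (((Ω × Ω) × Ω) × Ω) × Ω → ℝ :=
  glue (Q4 p L z) p (fun w => L w.2) L

noncomputable def Q6 (p : Ω → ℝ) (L : Ω → Λ) (z : Ω → Z) : ((((Ω × Ω) × Ω) × Ω) × Ω) × Ω → ℝ :=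
  glue (Q5 p L z) p (fun w => z w.2) z

end law

/-- **The star** (helper76): a line through the record and a branch of three lines. -/
def StarStmt : Prop := ∀ (b : ℕ) (h c' : ℝ), 1 ≤ b → 0 < h → 0 < c' → ∃ γ γ₁ : ℝ, 0 < γ ∧ 0 < γ₁ ∧
  ∀ γ₀ : ℝ, 0 < γ₀ → γ₀ ≤ γ₁ → ∃ (e₀ c R : ℝ) (M₀ : ℕ), 0 < e₀ ∧ 0 < c ∧ 0 < R ∧
  ∀ (M : ℕ), M₀ ≤ M → ∀ (Ω Λ Z Y 𝒟 : Type) [Fintype Ω] (p : Ω → ℝ) (L : Ω → Λ) (z : Ω → Z)
    (y : Ω → Y) (t : Ω → ℤ) (D : Λ → 𝒟) (X : 𝒟 → V3) (Φ : 𝒟 → Po) (x : Z → V3) (J : Z → Po),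
    ChH p L z y t D X Φ x J b M ((M : ℝ) ^ e₀) (e₀ * Real.log M) h R ((M : ℝ) ^ (-γ₀)) c →
    Pb (Q6 p L z) (fun w => ¬ (
      (M : ℝ) ^ (-γ₀ * 4) ≤ |(mt ![X (D (L w.1.1.1.1.2)), X (D (L w.1.1.2)), X (D (L w.2))]).det| ∧
      Inv (X (D (L w.1.1.1.1.1))) (Φ (D (L w.1.1.1.1.1)))
        (fb ![X (D (L w.1.1.1.1.2)), X (D (L w.1.1.2)), X (D (L w.2))]
          ![Φ (D (L w.1.1.1.1.2)), Φ (D (L w.1.1.2)), Φ (D (L w.2))]) ((M : ℝ) ^ (-γ)))) ≤ c'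

/-- **The end** (helper98): the Taylor polynomial of degree `b` is a function of the record and nearly
constant along the lines. -/
def EndStmt : Prop := ∀ (b : ℕ) (h c' κ : ℝ), 1 ≤ b → 0 < h → 0 < c' → 0 < κ →
  ∃ γ γ₀ e₀ c R : ℝ, ∃ M₀ : ℕ, 0 < γ ∧ 0 < γ₀ ∧ 0 < e₀ ∧ 0 < c ∧ 0 < R ∧
  ∀ (M : ℕ), M₀ ≤ M → ∀ (Ω Λ Z Y 𝒟 : Type) [Fintype Ω] (p : Ω → ℝ) (L : Ω → Λ) (z : Ω → Z)
    (y : Ω → Y) (t : Ω → ℤ) (D : Λ → 𝒟) (X : 𝒟 → V3) (Φ : 𝒟 → Po) (x : Z → V3) (J : Z → Po),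
    ChH p L z y t D X Φ x J b M ((M : ℝ) ^ e₀) (e₀ * Real.log M) h R ((M : ℝ) ^ (-γ₀)) c →
    ∃ f : Z → Po, (∀ r, Hb b ((M : ℝ) ^ κ) (f r)) ∧
      Pb (glue p p L L) (fun w => ¬ ∀ q, Bx 1 q →
        |(eval q (J (z w.1)) + eval (q - x (z w.1)) (f (z w.1))) -
          (eval q (J (z w.2)) + eval (q - x (z w.2)) (f (z w.2)))| ≤ (M : ℝ) ^ (-γ)) ≤ c'

end Pool.STB
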