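import Pool.Agent.H6.STB.Vbx
import Pool.Agent.H98.STB.VcC

/-!
# Case (B), a static target at a record: the contradiction from an abstract event

`void_evB`: `vb_void` at a record for an abstract family of labels, with the coarse step `y0`.
-/

set_option autoImplicit false

namespace Pool.STB

open Finset Real MvPolynomial
open Pool.Agent.H49.Ent Pool.Agent.H32.Dense Pool.STK Pool.KA Pool.KSAT Pool.K2S Pool.PB Pool.S6C
open Pool.GEN Pool.RCD Pool.LA91 Pool.PKG Pool.CHX Pool.CHT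
open Pool.ALT (AlO Fml NzF xa ya)
open Pool.STB6 (vbn_vbt vb_line)
open Pool.STB82 (gjb)
open Pool.LBT (ThrOf)

/-- `FrN` for a smaller slack and a larger window bound. -/
theorem FrN.mono_eps {J n N C₁ b W k y x g₃ e₁' e₁ st lz s v y₀ e X : ℕ} {A ee : ℕ → ℕ}
    {g : ℕ → ℕ → ℕ} {jb ji : ℕ → ℕ} {w ε w' ε' : ℝ}
    (H : FrN J n N C₁ b W k y x g₃ e₁' e₁ st lz s v y₀ e X A ee g jb ji w ε) (hw : w ≤ w')
    (he : ε' ≤ ε) : FrN J n N C₁ b W k y x g₃ e₁' e₁ st lz s v y₀ e X A ee g jb ji w' ε' := by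
  have hJ : (0 : ℝ) ≤ J := Nat.cast_nonneg J
  exact
    { Ww := H.Ww.trans (mul_le_mul_of_nonneg_right hw hJ)
      es := H.es
      jb0 := H.jb0
      ji0 := H.ji0
      Cs := H.Cs
      sy := by
        have := mul_le_mul_of_nonneg_right he hJ
        linarith [H.sy]
      J1 := H.J1
      J2 := H.J2
      yy := H.yy
      lz0 := H.lz0
      nl := H.nl }

/-- **The contradiction from an abstract event**, at a record. The coarse step is `y0`;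
`kr = y0 / (n + 4)`. -/
theorem void_evB (K b C₀ C₁ C E : ℕ) (hb : 1 ≤ b) (hbK : b ≤ K + 1) (hC₀ : 1 ≤ C₀) {h₀ y0 : ℝ}
    (hh0 : 0 < h₀) (hh1 : h₀ ≤ 1) (hy0 : 0 < y0) : ∃ (n : ℕ) (v s₁ : ℝ), 0 < n ∧ 0 < v ∧
    v ≤ y0 ∧ 0 < s₁ ∧ s₁ ≤ v ∧ ∀ Rg xq : ℝ, 0 ≤ xq → ∃ K₁ : ℝ, 1 ≤ K₁ ∧ ∀ {S : PCl 4} {al : ℝ}
    {g₀ : ℝ → ℝ} {P₀ : List (Fin 4) × Fin 4 → ℝ → ℝ → ℝ} {θ : ℝ}
    {P₂ : ℕ → List (Fin 4) × Fin 4 → ℝ → ℝ → ℝ} {θ₂ Eb e₂ : ℕ → ℝ}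
    {c : ℕ → Fin 4} {Pt : ℝ → ℝ → ℝ} {r : ℝ → ℝ} {h Kn g : ℝ} {L T : ℕ → ℝ → ℝ → ℝ}
    {Sl : ℕ → ℝ} {κ : ℕ → Kg} {G : Set ℝ} {S₀ N₀ : ℕ} {A V : ℕ → ℝ} {S₂ N' : ℕ} {V' : ℕ → ℝ}
    {K' ε q t : ℝ}
    (_ : RecG S al g₀ P₀ θ P₂ θ₂ Eb e₂ c Pt r h Kn g L T Sl κ G S₀ N₀ A V S₂ N' V' K' ε q t)
    (_ : K₁ ≤ K') (_ : 0 ≤ ε) (_ : 16 * ε ≤ v) (_ : Sl 1 = 1) (_ : Sl 3 = b)
    {o0 rho sr s0 s w xx : ℝ} {M' : ℕ} (_ : |o0| ≤ Rg) (_ : 0 < sr) (_ : sr ≤ s₁)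
    (_ : 0 ≤ s0) (_ : s0 ≤ sr * q) (_ : s = sr * q) (_ : w = 2 * rho * q) (_ : 0 ≤ xx)
    (_ : xx ≤ xq * q) (_ : 0 < rho) (_ : rho ≤ s₁) (_ : (n + 4) * M' * rho = y0)
    (_ : ∀ j ≤ (n + 4) * M', ∃ k < N', V' k = o0 + j * rho)
    {oV rr dr : ℝ} {Ψ : Fml 4} (_ : -K' ≤ oV) (_ : oV ≤ o0)
    (_ : b * (o0 - oV) + b * y0 + y0 + 2 * ε ≤ rr)
    (_ : 0 ≤ dr) (_ : 128 * (n + 4) * dr ≤ h₀ * y0 * q * Real.log 2)
    (_ : ∀ (J : ℕ) (F : Fam 4 J) (A B : F.Ω → Prop) (V : Type) (z : PtT F → V)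
      (z' : LnT F → V) (G : V → MvPolynomial (Option (Fin 4)) ℝ), Sub B A →
      Ψ J F A V z z' G → Ψ J F B V z z' G)
    (_ : ∀ (J : ℕ) (F : Fam 4 J) (A : F.Ω → Prop) (V : Type) (z : PtT F → V) (z' : LnT F → V)
      (G : V → MvPolynomial (Option (Fin 4)) ℝ), Ψ J F A V z z' G →
      ∀ ω, A ω → z (ptr F J ω) = z' (slam F ⌊(t + oV * q) * J⌋₊ ω))
    (_ : ∀ sa sb : ℝ, L 3 (t + oV * q) (t + oV * q) ≤ sa → sa ≤ sb →
      sb ≤ L 3 (t + oV * q) (t + oV * q) + rr * q → Bas S (fun J F A => ∀ (V : Type)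
        (z : PtT F → V) (z' : LnT F → V) (G : V → MvPolynomial (Option (Fin 4)) ℝ),
        Ψ J F A V z z' G → CH (Pool.Agent.H49.Ent.cond F.p A True)
          (xa F (c 3) z' ⌊(t + oV * q) * J⌋₊ G sb)
          (ya F ((range 2).image c) (c 3) z' ⌊(t + oV * q) * J⌋₊ G sa) ≤
          ((1 - h₀) * (sb - sa) * Real.log 2 + dr) * J))
    (_ : ∀ k < N', FulC S c 0 2 (t + V' k * q) (fun l => L l (t + V' k * q) (t + V' k * q)))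
    {d : ℕ → ℕ → ℝ} {d3 : ℝ} (_ : ∀ k ≤ (n + 4) * M', ∀ l < 3, 0 ≤ d k l ∧ d k l ≤ s)
    (_ : 0 ≤ d3 ∧ d3 ≤ s) {Ab : ℕ → ℕ → ℕ} {g' : ℕ → ℕ → ℕ → ℕ}
    (_ : ∀ J, ∀ k ≤ (n + 4) * M', Ab J k = ⌊(t + o0 * q + k * rho * q) * (J : ℝ)⌋₊)
    (_ : ∀ J, ∀ k ≤ (n + 4) * M', ∀ l < 3, g' J k l = ⌊(L l (t + o0 * q + k * rho * q)
          (t + o0 * q + k * rho * q) - d k l) * (J : ℝ)⌋₊) {c₀ : ℝ} (_ : 0 < c₀) {Nv : ℕ}
    (_ : ∀ (w' ε' : ℝ), 0 < ε' → w' < 1 → (∃ J₀ : ℕ, ∀ J ≥ J₀,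
      FrN J n ((n + 4) * M') C₁ b ⌊(t + o0 * q) * J⌋₊
            ⌊y0 / (n + 4) * q * J⌋₊ ⌊v * q * J⌋₊ ⌊v * q * J⌋₊
            ⌊(L 3 (t + o0 * q) (t + o0 * q) - d3) * J⌋₊
            (C₀ * (⌊(s0 + 3 * s) * J⌋₊ + 1) + ⌊Eb 3 * J⌋₊) (⌊e₂ 3 * J⌋₊ - 1)
            (C₁ * (C₀ * (⌊(s0 + 3 * s) * J⌋₊ + 1) + (⌊w * J⌋₊ + 1) + 1))
            (C * (⌊(s0 + 3 * s) * J⌋₊ + ⌊w * J⌋₊ + 1) + ⌊(Eb 3 + s) * J⌋₊ + ⌊xx * J⌋₊ +
              nlp (fun j => if j < 3 then g' J 0 j else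
                ⌊(L 3 (t + o0 * q) (t + o0 * q) - d3) * J⌋₊) 0 3)
            (C₀ * (⌊(s0 + 3 * s) * J⌋₊ + 1)) (⌊w * J⌋₊ + 1)
            (C * (⌊(s0 + 3 * s) * J⌋₊ + ⌊w * J⌋₊ + 1)) ⌊Eb 3 * J⌋₊
            (C * (⌊(s0 + 3 * s) * J⌋₊ + ⌊w * J⌋₊ + 1) + ⌊(Eb 3 + s) * J⌋₊ + ⌊xx * J⌋₊)
            (Ab J) (fun _ => ⌊(Eb 3 + s) * J⌋₊) (g' J)
            (gjb (y0 / (n + 4)) rho) (fun i => gjb (y0 / (n + 4)) rho (i + 1)) w' ε' ∧
        (((E + 1) * (C₀ * (⌊(s0 + 3 * s) * J⌋₊ + 1) +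
          C * (⌊(s0 + 3 * s) * J⌋₊ + ⌊w * J⌋₊ + 1) + 3) : ℕ) : ℝ) * Real.log 2 + ε' * J ≤
          (⌊v * q * J⌋₊ : ℕ) * Real.log 2) →
      Bas S (fun J F A' => ∃ (V : Type) (z : PtT F → V) (z' : LnT F → V)
        (Gz : V → MvPolynomial (Option (Fin 4)) ℝ), Ψ J F A' V z z' Gz ∧
        ∃ B : F.Ω → Prop, Sub B A' ∧ c₀ * Pe F.p A' ≤ Pe F.p B ∧ ∃ t' : VbT F,
          VbE F c B K n Nv b ⌊(t + oV * q) * J⌋₊ z z' Gz t' ∧
          ∃ Gn Hn pP pH zP zH f f' kf, t' = vbt F c ⌊(t + o0 * q) * J⌋₊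
            ⌊y0 / (n + 4) * q * J⌋₊ ⌊v * q * J⌋₊ ⌊v * q * J⌋₊
            ⌊(L 3 (t + o0 * q) (t + o0 * q) - d3) * J⌋₊
            (C₀ * (⌊(s0 + 3 * s) * J⌋₊ + 1) + ⌊Eb 3 * J⌋₊) (⌊e₂ 3 * J⌋₊ - 1)
            (C₀ * (⌊(s0 + 3 * s) * J⌋₊ + 1) + ⌊Eb 3 * J⌋₊ + ⌊v * q * J⌋₊ +
              2 * ⌊v * q * J⌋₊ + 6)
            (C₁ * (C₀ * (⌊(s0 + 3 * s) * J⌋₊ + 1) + (⌊w * J⌋₊ + 1) + 1))
            (C * (⌊(s0 + 3 * s) * J⌋₊ + ⌊w * J⌋₊ + 1) + ⌊(Eb 3 + s) * J⌋₊ + ⌊xx * J⌋₊ +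
              nlp (fun j => if j < 3 then g' J 0 j else
                ⌊(L 3 (t + o0 * q) (t + o0 * q) - d3) * J⌋₊) 0 3) (Ab J) (g' J)
            (gjb (y0 / (n + 4)) rho) (fun i => gjb (y0 / (n + 4)) rho (i + 1)) Gn Hn pP pH zP zH
            f f' kf)), False := by
  obtain ⟨n, A, τ, Cg, ne, hn, hA, hτ, hτ1, hvoid⟩ := vb_void 4 K b hb hbK hh0 hh1
  have hn4 : (0 : ℝ) < (n : ℝ) + 4 := by positivity
  obtain ⟨kr, hkr⟩ : ∃ kr : ℝ, kr = y0 / ((n : ℝ) + 4) := ⟨_, rfl⟩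
  have hkr0 : 0 < kr := by rw [hkr]; positivity
  have hkr1 : ((n : ℝ) + 4) * kr = y0 := by
    rw [hkr]
    field_simp
  obtain ⟨u₀, hu₀, huk, hvb⟩ := vbn_vbt (n := n) (b := b) (Cg := Cg) (ne := ne) (C₀ := C₀)
    (C₁ := C₁) (C := C) (A := A) (τ := τ) (kr := kr) hn hb hA hτ hτ1 hkr0 hC₀
  obtain ⟨s₁, hs₁, hsv, hvb⟩ := hvb u₀ hu₀ le_rfl
  obtain ⟨s₂, hs₂, hvl⟩ := vb_line E C₀ C hu₀
  have hn0 : (0 : ℝ) ≤ n := Nat.cast_nonneg n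
  have hkr2 : kr ≤ y0 := by nlinarith
  refine ⟨n, u₀, min s₁ s₂, hn, hu₀, huk.trans hkr2, lt_min hs₁ hs₂, (min_le_left _ _).trans hsv,
    fun Rg xq hxq => ?_⟩
  obtain ⟨K₁, hK₁⟩ : ∃ K₁ : ℝ, K₁ = |Rg| + (ne + b * (n + 2) + n + 10) * kr + xq + 1 := ⟨_, rfl⟩
  have hK11 : 1 ≤ K₁ := by
    rw [hK₁]
    have := abs_nonneg Rg
    have : 0 ≤ ((ne : ℝ) + b * (n + 2) + n + 10) * kr := by positivity
    linarith
  refine ⟨K₁, hK11, ?_⟩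
  intro S al g₀ P₀ θ P₂ θ₂ Eb e₂ c Pt r h Kn g L T Sl κ G S₀ N₀ A₀ V S₂ N' V' K' ε q t R hKK hε hεv
    S1 S3 o0 rho sr s0 s w xx M' ho hsr hsr1 hs0 hs0q hs hw hxx hxxq hrho hrho1 hM hwin oV rr dr Ψ
    hVi0 hVi hrr hdr hdr1 hher hcls hrow hful d d3 hd hd3 Ab g' hAb hg' c₀ hc₀ Nv hev
  have hq := R.q0
  have h34 : (3 : ℕ) < 4 := by norm_num
  have hT := R.tg 3 (by norm_num) h34
  have hb0 : (0 : ℝ) ≤ b := Nat.cast_nonneg b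
  have ho0 : |o0| ≤ |Rg| := ho.trans (le_abs_self Rg)
  have hM1 : ((n : ℝ) + 4) * (M' * rho) = y0 := by rw [← mul_assoc]; exact hM
  have hkM : kr = M' * rho := by
    have : ((n : ℝ) + 4) * kr = (n + 4) * (M' * rho) := by rw [hkr1, hM1]
    exact mul_left_cancel₀ hn4.ne' this
  have hwink : ∀ i' : ℕ, i' ≤ n + 4 → ∃ k < N', V' k = o0 + (i' : ℝ) * kr := by
    intro i' hi'
    obtain ⟨k, hk, e⟩ := hwin (i' * M') (Nat.mul_le_mul_right _ hi')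
    refine ⟨k, hk, ?_⟩
    rw [e, hkM]
    push_cast
    ring
  have hbx : |t + o0 * q - t| ≤ K' * q := by
    have h1 : |o0| ≤ K' := by
      refine ho0.trans (le_trans ?_ hKK)
      rw [hK₁]
      have : 0 ≤ ((ne : ℝ) + b * (n + 2) + n + 10) * kr := by positivity
      linarith
    rw [add_sub_cancel_left, abs_mul, abs_of_pos hq]
    exact mul_le_mul_of_nonneg_right h1 hq.le
  have hbv : |t + oV * q - t| ≤ K' * q := by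
    have h1 := abs_le.1 hbx
    have h2 : oV * q ≤ o0 * q := mul_le_mul_of_nonneg_right hVi hq.le
    have h3 : -K' * q ≤ oV * q := mul_le_mul_of_nonneg_right hVi0 hq.le
    exact abs_le.2 ⟨by linarith, by linarith⟩
  -- the numbers
  obtain ⟨wi, w1, w2, J₀, hJ⟩ := hvb rho sr s0 o0 xq K' ε hrho (hrho1.trans (min_le_left _ _)) hsr
    (hsr1.trans (min_le_left _ _)) hxq (by
      refine le_trans ?_ hKK
      rw [hK₁]
      linarith) hε hεv R h34 S1 S3 hs0 hs0q (fun i' hi' => by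
      obtain ⟨k, hk, e⟩ := hwink (i' + 1) (by omega)
      refine ⟨k, hk, ?_⟩
      rw [e]
      push_cast
      ring) (wn := t + oV * q)
    (sf := fun i' l => L l (t + o0 * q + ((i' : ℝ) + 2) * kr * q)
      (t + o0 * q + ((i' : ℝ) + 2) * kr * q)) (by
      have : oV * q ≤ o0 * q := mul_le_mul_of_nonneg_right hVi hq.le
      linarith) (fun _ _ _ _ => le_rfl) (Nb := (n + 4) * M') (by
      push_cast
      rw [mul_assoc ((n : ℝ) + 4), hM1]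
      nlinarith) (by
      push_cast
      rw [mul_assoc ((n : ℝ) + 4), hM1]
      refine le_trans ?_ hKK
      rw [hK₁, ← hkr1]
      have h1 : 0 ≤ ((ne : ℝ) + b * (n + 2)) * kr := by positivity
      have h2 : ((ne : ℝ) + b * (n + 2) + n + 10) * kr = ((ne : ℝ) + b * (n + 2)) * kr +
        (n + 4) * kr + 6 * kr := by ring
      rw [h2]
      linarith) hs hw hxx hxxq hd hd3
  obtain ⟨J₂, hJ₂⟩ := hvl rho sr s0 q hrho (hrho1.trans (min_le_right _ _)) hsr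
    (hsr1.trans (min_le_right _ _)) hq hs0 hs0q hs hw
  -- the class theorem
  have hL3 := (abs_le.1 (lv_lin R h34 hbv hbx))
  rw [S3] at hL3
  have hlog : 0 < Real.log 2 := Real.log_pos one_lt_two
  have hVo : 0 ≤ o0 - oV := by linarith
  have hεq : 0 ≤ ε * q := by positivity
  obtain ⟨v3, hv3⟩ : ∃ v3, v3 = L 3 (t + oV * q) (t + oV * q) := ⟨_, rfl⟩
  obtain ⟨o3, ho3⟩ : ∃ o3, o3 = L 3 (t + o0 * q) (t + o0 * q) := ⟨_, rfl⟩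
  rw [← hv3, ← ho3] at hL3
  have hVq : oV * q ≤ o0 * q := mul_le_mul_of_nonneg_right hVi hq.le
  have hmono : v3 ≤ o3 := by
    rw [hv3, ho3]
    have h1 := (abs_le.1 hbv).1
    have h2 := (abs_le.1 hbx).2
    have h3 := R.t0
    have h4 := R.t1
    exact lv_mono R h34 (by linarith) (by linarith) (by linarith) le_rfl le_rfl (by linarith)
  have hkq : 0 < kr * q := by positivity
  have hthr : ThrOf (chsys 4 (θ₂ 3)) S (P₂ 3) := hT.thr₂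
  have key : ∀ i' < n, v3 ≤ o3 + b * (((i' : ℝ) + 1) * kr * q) ∧
      o3 + b * (((i' : ℝ) + 1) * kr * q) + kr * q ≤ v3 + rr * q := by
    intro i' hi'
    have h1 : (0 : ℝ) ≤ b * (((i' : ℝ) + 1) * kr * q) := by positivity
    have h2 : ((i' : ℝ) + 1) * kr ≤ y0 := by
      have h3 : (i' : ℝ) + 1 ≤ n + 4 := by
        have : ((i' + 1 : ℕ) : ℝ) ≤ n := by exact_mod_cast hi'
        push_cast at this
        linarith
      calc ((i' : ℝ) + 1) * kr ≤ (n + 4) * kr := mul_le_mul_of_nonneg_right h3 hkr0.le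
        _ = y0 := hkr1
    have h4 : ((i' : ℝ) + 1) * kr * q ≤ y0 * q := mul_le_mul_of_nonneg_right h2 hq.le
    have h5 : (b : ℝ) * (((i' : ℝ) + 1) * kr * q) ≤ b * (y0 * q) :=
      mul_le_mul_of_nonneg_left h4 hb0
    have h6 : kr * q ≤ y0 * q := mul_le_mul_of_nonneg_right hkr2 hq.le
    have h7 := mul_le_mul_of_nonneg_right hrr hq.le
    have e1 : (b * (o0 - oV) + b * y0 + y0 + 2 * ε) * q =
      b * (t + o0 * q - (t + oV * q)) + b * (y0 * q) + y0 * q + 2 * (ε * q) := by ring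
    rw [e1] at h7
    refine ⟨by linarith, by linarith [hL3.2]⟩
  have hDr : dr ≤ h₀ * (kr * q) * Real.log 2 / 128 := by
    have h2 : 128 * (n + 4) * dr * kr ≤ h₀ * y0 * q * Real.log 2 * kr :=
      mul_le_mul_of_nonneg_right hdr1 hkr0.le
    have e1 : 128 * ((n : ℝ) + 4) * dr * kr = 128 * dr * ((n + 4) * kr) := by ring
    rw [e1, hkr1] at h2
    have e2 : h₀ * y0 * q * Real.log 2 * kr = h₀ * (kr * q) * Real.log 2 * y0 := by ring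
    rw [e2] at h2
    have h3 := le_of_mul_le_mul_right h2 hy0
    linarith
  refine hvoid Nv (kr * q) (u₀ * q) hkq (mul_pos hu₀ hq) hthr R.tmh R.ne c
    (R.inj.mono fun x (hx : x < 3) => show x < 4 by omega) (η := u₀ * q / 16) (e0 := e₂ 3)
    (eg := e₂ 3) (wn := t + oV * q) (wi := wi) (ai := fun i => wi (i + 1))
    (fi := fun i => t + o0 * q + ((i : ℝ) + 2) * kr * q)
    (sf := fun i' l => L l (t + o0 * q + ((i' : ℝ) + 2) * kr * q)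
      (t + o0 * q + ((i' : ℝ) + 2) * kr * q))
    (s₁ := fun i => L 3 (t + o0 * q) (t + o0 * q) + b * (((i : ℝ) + 1) * kr * q))
    (s₂ := fun i => L 3 (t + o0 * q) (t + o0 * q) + b * (((i : ℝ) + 1) * kr * q) + kr * q)
    (Dr := fun _ => (1 - h₀) * (kr * q) * Real.log 2 + dr)
    (I₀ := (range 2).image c) (fun x hx => ?_) hT.th₂0 (by positivity) (fun i' hi' => ?_)
    (fun i' hi' => ?_) w2 (fun i' hi' => ?_) (fun i' hi' => ?_)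
    (Ψ := Ψ) hher hcls (fun i' hi' => ?_) hc₀
    (Bas.mono J₀ (hev (t + o0 * q) (u₀ * q / 16) (by positivity) ?_ ⟨max J₀ J₂, fun J hJJ => ?_⟩)
      ?_)
  · rw [mem_image] at hx
    obtain ⟨a, ha, rfl⟩ := hx
    rw [mem_range] at ha
    interval_cases a
    · exact Or.inl rfl
    · exact Or.inr rfl
  · obtain ⟨a1, a2, a3, a4⟩ := w1 i' hi'.le
    refine ⟨by exact_mod_cast a1.le, by exact_mod_cast a2, a3, a4 3 le_rfl⟩
  · obtain ⟨a1, a2, a3, a4⟩ := w1 (i' + 1) hi'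
    exact ⟨by exact_mod_cast a1, by exact_mod_cast a2, a3, a4 0 (by norm_num),
      a4 1 (by norm_num)⟩
  · obtain ⟨k, hk, e⟩ := hwink (i' + 2) (by omega)
    have h1 := hful k hk
    have e1 : t + V' k * q = t + o0 * q + ((i' : ℝ) + 2) * kr * q := by
      rw [e]
      push_cast
      ring
    rw [e1] at h1
    exact h1
  · have h2 : 0 ≤ (1 - h₀) * (kr * q) * Real.log 2 :=
      mul_nonneg (mul_nonneg (by linarith) hkq.le) hlog.le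
    refine ⟨by linarith, by linarith, ?_⟩
    have e1 : o3 + b * (((i' : ℝ) + 1) * kr * q) + kr * q -
      (o3 + b * (((i' : ℝ) + 1) * kr * q)) = kr * q := by ring
    rw [← ho3, e1]
    linarith
  · obtain ⟨k1, k2⟩ := key i' hi'
    rw [← ho3]
    refine Bas.mono 0 (hrow (o3 + b * (((i' : ℝ) + 1) * kr * q))
      (o3 + b * (((i' : ℝ) + 1) * kr * q) + kr * q) (by rw [← hv3]; exact k1)
      (by linarith) (by rw [← hv3]; exact k2)) ?_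
    intro J _ F A hA V z z' Gz hG
    refine (hA V z z' Gz hG).trans (le_of_eq ?_)
    ring
  · have h1 := (abs_le.1 hbx).2
    have h2 := R.t1
    have h3 := R.t0
    nlinarith
  · obtain ⟨f1, -⟩ := hJ J ((le_max_left _ _).trans hJJ) rfl rfl rfl rfl rfl rfl rfl rfl rfl rfl
      rfl rfl rfl (hAb J) (hg' J)
    have f2 := hJ₂ J ((le_max_right _ _).trans hJJ) rfl rfl rfl
    rw [← hkr]
    refine ⟨f1.mono_eps le_rfl ?_, f2⟩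
    have hl2'' : 1 / 2 < Real.log 2 := by linarith [Real.log_two_gt_d9]
    have : 0 < u₀ * q := by positivity
    nlinarith
  · rintro J hJJ F A' ⟨V, z, z', Gz, hG, B, hBA, hPB, t', hE, Gn, Hn, pP, pH, zP, zH, f, f', kf,
      ht⟩
    refine ⟨V, z, z', Gz, hG, B, hBA, hPB, t', hE, ?_⟩
    rw [ht]
    rw [← hkr]
    exact (hJ J hJJ rfl rfl rfl rfl rfl rfl rfl rfl rfl rfl rfl rfl rfl (hAb J) (hg' J)).2 F Gn Hn
      pP pH zP zH f f' kf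

end Pool.STB
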