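import Pool.Agent.H98.STB.VcF
import Pool.Agent.H98.STB.VcG

/-!
# Case (B), a static target at a record: void, abstract family

`void_core`: the event `ev_core1` and the contradiction `void_evB`.
-/

set_option autoImplicit false

namespace Pool.STB

open Finset Real MvPolynomial
open Pool.Agent.H49.Ent Pool.Agent.H32.Dense Pool.STK Pool.KA Pool.KSAT Pool.K2S Pool.PB Pool.S6C
open Pool.GEN Pool.RCD Pool.LA91 Pool.PKG Pool.CHT Pool.CHX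
open Pool.GRD (LbP)
open Pool.ALT (Fml BlB xa ya)
open Pool.STB77 (NodF)
open Pool.STB65 (NsR NsQ MxS)
open Pool.STB82 (gjb)

/-- **A static target of natural slope is void**, at a record, for an abstract family of labels
with rows of rate `(1 - h₀) log 2`. The coarse step is `y0`; the fine grid is `(n + 4) M''` to one
coarse step; `lamL` is the loss at the last ball. -/
theorem void_core (D b : ℕ) (hD : 1 ≤ D) (hb : 1 ≤ b) {h₀ y0 : ℝ} (hh0 : 0 < h₀) (hh1 : h₀ ≤ 1)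
    (hy0 : 0 < y0) : ∃ (C₀ D' n : ℕ) (v s₁ : ℝ), 1 ≤ C₀ ∧ D ≤ D' ∧ 0 < n ∧ 0 < v ∧ v ≤ y0 ∧
    0 < s₁ ∧ s₁ ≤ v ∧ ∀ Rg xq : ℝ, 0 ≤ xq → ∃ K₁ : ℝ, 1 ≤ K₁ ∧ ∀ {S : PCl 4} {al : ℝ}
    {g₀ : ℝ → ℝ} {P₀ : List (Fin 4) × Fin 4 → ℝ → ℝ → ℝ} {θ : ℝ}
    {P₂ : ℕ → List (Fin 4) × Fin 4 → ℝ → ℝ → ℝ} {θ₂ Eb e₂ : ℕ → ℝ}
    {c : ℕ → Fin 4} {Pt : ℝ → ℝ → ℝ} {r : ℝ → ℝ} {h Kn g : ℝ} {L T : ℕ → ℝ → ℝ → ℝ}
    {Sl : ℕ → ℝ} {κ : ℕ → Kg} {G : Set ℝ} {S₀ N₀ : ℕ} {A V : ℕ → ℝ} {S₂ N' : ℕ} {V' : ℕ → ℝ}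
    {K ε q t : ℝ}
    (_ : RecG S al g₀ P₀ θ P₂ θ₂ Eb e₂ c Pt r h Kn g L T Sl κ G S₀ N₀ A V S₂ N' V' K ε q t)
    (_ : K₁ ≤ K) (_ : 0 ≤ ε) (_ : 16 * ε ≤ v) (_ : Sl 1 = 1) (_ : Sl 3 = b) (_ : κ 3 = .sta)
    {oW ρ : ℝ} {Ng P pc N M'' Nx : ℕ} {Ax Vx : ℕ → ℝ} (_ : |oW| ≤ Rg) (_ : ρ ≤ s₁)
    (_ : LsN oW y0 ρ Ng P Nx Ax Vx N₀ A V N' V' K)
    (_ : GrN y0 ρ Ng P pc N ((n + 4) * M''))
    (_ : ∀ k < Ng + P + 2 + Nx, NodF S c 3 D L (Eb 3) (Eb 3) (nAA t q oW y0 ρ Ng P Ax k)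
      (nWW t q oW ρ Ng P Vx k))
    {Db : ℕ} {oV : ℝ} {Ψ : Fml 4} {pN : ℝ} {p p₂ yb : ℕ → ℝ} (_ : Db ≤ D) (_ : oV ≤ oW)
    (_ : -K ≤ oV)
    (_ : ∀ (J : ℕ) (F : Fam 4 J) (A : F.Ω → Prop) (V : Type) (z : PtT F → V) (z' : LnT F → V)
      (G : V → MvPolynomial (Option (Fin 4)) ℝ), Ψ J F A V z z' G →
      LbP F ((range 3).image c) (c 3) D J ⌊(t + oV * q) * J⌋₊ ⌊pN * J⌋₊ A z z' G)
    (_ : ∀ k ≤ N + (P - pc), BlB S c 2 (c 3) (t + oV * q)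
      (nAA t q oW y0 ρ Ng P Ax (nι N ((n + 4) * M'') k)) Db Db (p k) (p₂ k) (yb k) Ψ)
    (_ : ∀ k ≤ N + (P - pc), ∃ χ : ℝ, 0 < χ ∧ Bas S (fun J F A => ∃ (P₁ : ℕ) (V₁ : Type)
      (z₁ : PtT F → V₁) (z₁' : LnT F → V₁) (G₁ : V₁ → MvPolynomial (Option (Fin 4)) ℝ),
      LbP F ((range 3).image c) (c 3) Db J
        ⌊nAA t q oW y0 ρ Ng P Ax (nι N ((n + 4) * M'') k) * J⌋₊ P₁ A z₁ z₁'
        G₁ ∧ (p k + χ) * J ≤ P₁))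
    (_ : ∀ k ≤ N + (P - pc), ∃ χ : ℝ, 0 < χ ∧ Bas S (fun J F A => ∃ (P₁ : ℕ) (V₁ : Type)
      (z₁ : PtT F → V₁) (z₁' : LnT F → V₁) (G₁ : V₁ → MvPolynomial (Option (Fin 4)) ℝ),
      LbP F ((range 2).image c) (c 2) Db J
        ⌊nAA t q oW y0 ρ Ng P Ax (nι N ((n + 4) * M'') k) * J⌋₊ P₁ A z₁ z₁'
        G₁ ∧ (p₂ k + χ) * J ≤ P₁))
    {xx s₀ s sr : ℝ} (_ : 0 ≤ xx) (_ : xx ≤ xq * q)
    (_ : L 3 (t + oW * q) (t + oW * q) ≤ pN + xx)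
    (_ : NsR b N (L 3 (nAA t q oW y0 ρ Ng P Ax (nι N ((n + 4) * M'') 0))
          (nWW t q oW ρ Ng P Vx (nι N ((n + 4) * M'') 0)) +
        b * (nAA t q oW y0 ρ Ng P Ax (nι N ((n + 4) * M'') N) -
          nAA t q oW y0 ρ Ng P Ax (nι N ((n + 4) * M'') 0)))
      L (nAA t q oW y0 ρ Ng P Ax) (nWW t q oW ρ Ng P Vx) (nι N ((n + 4) * M'')) (nσ Ng pc N) p yb
      s₀)
    (_ : 0 ≤ s₀) (_ : 4 * ε * q ≤ s₀) (_ : 0 < sr) (_ : sr ≤ s₁) (_ : s = sr * q)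
    (_ : s₀ ≤ sr * q)
    {lamL : ℝ} (_ : 0 ≤ lamL) (_ : lamL ≤ L 3 (t + oW * q) (t + oW * q))
    (_ : lamL < pc * y0 * q) {Dr : ℕ} (_ : D' ≤ Dr)
    (_ : NsQ C₀ N (N + (P - pc)) (L 3 (nAA t q oW y0 ρ Ng P Ax (nι N ((n + 4) * M'') 0))
          (nWW t q oW ρ Ng P Vx (nι N ((n + 4) * M'') 0)) +
        b * (nAA t q oW y0 ρ Ng P Ax (nι N ((n + 4) * M'') N) -
          nAA t q oW y0 ρ Ng P Ax (nι N ((n + 4) * M'') 0)) - lamL)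
      L (nAA t q oW y0 ρ Ng P Ax) (nWW t q oW ρ Ng P Vx) (nι N ((n + 4) * M'')) (nσ Ng pc N) p yb
      s₀ s ∨ MxS S c D Dr (Ng + P + 2 + Nx) L (Eb 3) (Eb 3) s s₀ (t + oV * q)
        (nAA t q oW y0 ρ Ng P Ax) (nWW t q oW ρ Ng P Vx) (nσ Ng pc N N)
        (L 3 (nAA t q oW y0 ρ Ng P Ax (nι N ((n + 4) * M'') 0))
          (nWW t q oW ρ Ng P Vx (nι N ((n + 4) * M'') 0)) +
          b * (nAA t q oW y0 ρ Ng P Ax (nι N ((n + 4) * M'') N) -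
            nAA t q oW y0 ρ Ng P Ax (nι N ((n + 4) * M'') 0)) - lamL) Ψ)
    (_ : ∀ (J : ℕ) (F : Fam 4 J) (A B : F.Ω → Prop) (V : Type) (z : PtT F → V)
      (z' : LnT F → V) (G : V → MvPolynomial (Option (Fin 4)) ℝ), Sub B A →
      Ψ J F A V z z' G → Ψ J F B V z z' G)
    (_ : Bas S (fun J F A => ∃ (V : Type) (z : PtT F → V) (z' : LnT F → V)
      (G : V → MvPolynomial (Option (Fin 4)) ℝ), Ψ J F A V z z' G))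
    {rr dr : ℝ} (_ : b * (oW - oV) + b * y0 + y0 + 2 * ε ≤ rr) (_ : 0 ≤ dr)
    (_ : 128 * (n + 4) * dr ≤ h₀ * y0 * q * Real.log 2)
    (_ : ∀ sa sb : ℝ, L 3 (t + oV * q) (t + oV * q) ≤ sa → sa ≤ sb →
      sb ≤ L 3 (t + oV * q) (t + oV * q) + rr * q → Bas S (fun J F A => ∀ (V : Type)
        (z : PtT F → V) (z' : LnT F → V) (G : V → MvPolynomial (Option (Fin 4)) ℝ),
        Ψ J F A V z z' G → CH (Pool.Agent.H49.Ent.cond F.p A True)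
          (xa F (c 3) z' ⌊(t + oV * q) * J⌋₊ G sb)
          (ya F ((range 2).image c) (c 3) z' ⌊(t + oV * q) * J⌋₊ G sa) ≤
          ((1 - h₀) * (sb - sa) * Real.log 2 + dr) * J))
    (_ : ∀ k < N', FulC S c 0 2 (t + V' k * q) (fun l => L l (t + V' k * q) (t + V' k * q))),
    False := by
  obtain ⟨C₀, C, D', E, C₁, K₂, hC₀, hDD', hDK, hev⟩ := ev_core1 D b hD hb
  obtain ⟨Kd, hKd⟩ : ∃ Kd : ℕ, Kd = max K₂ b := ⟨_, rfl⟩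
  obtain ⟨n, v, s₁, hn, hv0, hvy, hs₁, hsv, hvoid⟩ := void_evB Kd b C₀ C₁ C E hb
    (by rw [hKd]; have := le_max_right K₂ b; omega) hC₀ hh0 hh1 hy0
  refine ⟨C₀, D', n, v, s₁, hC₀, hDD', hn, hv0, hvy, hs₁, hsv, fun Rg xq hxq => ?_⟩
  obtain ⟨K₁, hK₁, hvoid⟩ := hvoid Rg xq hxq
  refine ⟨max K₁ (2 * C₀ * y0), hK₁.trans (le_max_left _ _), ?_⟩
  intro S al g₀ P₀ θ P₂ θ₂ Eb e₂ c Pt r h Kn g L T Sl κ G S₀ N₀ A V S₂ N' V' K ε q t R hKK hε hεv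
    S1 S3 hκ oW ρ Ng P pc N M'' Nx Ax Vx hoW hρ H gr hnd Db oV Ψ pN p p₂ yb hDb hio hoV hΨ hbl hl3
    hl2 xx s₀ s sr hxx hxxq hx hnsr hs₀0 hs₀' hsr hsr1 hs hs0q lamL hlL0 hlL1 hlL2 Dr hDr hmx hher
    hex rr dr hrr hdr hdr1 hrow hful
  have hq := R.q0
  have hr := gr.r0
  have hM1 := gr.M1
  have hCy : (0 : ℝ) ≤ C₀ := Nat.cast_nonneg C₀
  have hsp : 0 < s := by rw [hs]; positivity
  have hρq : 0 < ρ * q := by positivity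
  have hyr : y0 = ((n : ℝ) + 4) * M'' * ρ := by
    have := gr.yr
    push_cast at this
    exact this
  have hNN : (n + 4) * M'' ≤ N := by
    rw [gr.hN]
    exact Nat.le_mul_of_pos_left _ (Nat.succ_pos _)
  have hNc : ((N - (n + 4) * M'' : ℕ) : ℝ) * (ρ * q) = pc * y0 * q := by
    rw [Nat.cast_sub hNN, gr.hN, hyr]
    push_cast
    ring
  have hAt : ∀ k ≤ N, nAA t q oW y0 ρ Ng P Ax (nι N ((n + 4) * M'') k) =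
      t + oW * q + k * ρ * q ∧ nWW t q oW ρ Ng P Vx (nι N ((n + 4) * M'') k) =
      t + oW * q + k * ρ * q := by
    intro k hk
    obtain ⟨h1, h2, -, -⟩ := ball_at R H gr (hk.trans (Nat.le_add_right _ _))
    rw [h1, h2, nι_le hk]
    constructor <;> ring
  have hNι : ∀ k ≤ N, nι N ((n + 4) * M'') k < Ng + P + 2 + Nx := fun k hk => by
    rw [nι_le hk]
    have := gr.NNg
    omega
  have hKy : 2 * C₀ * y0 ≤ K := (le_max_right _ _).trans hKK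
  obtain ⟨Ke, d, hKe, hd, hev⟩ := hev R S1 S3 hκ hε H gr hnd hDb hio hΨ hbl hl3 hl2 hxx hx hnsr
    hs₀0 hs₀' (v := 2 * ρ * q) (by linarith) hlL0 hlL1 hDr hsp (by
      have h1 : (C₀ : ℝ) * (s₀ + 4 * s) ≤ C₀ * (5 * (y0 * q)) := by
        have h2 : sr * q ≤ y0 * q :=
          mul_le_mul_of_nonneg_right (hsr1.trans (hsv.trans hvy)) hq.le
        exact mul_le_mul_of_nonneg_left (by rw [hs]; linarith) hCy
      have h3 := mul_le_mul_of_nonneg_right hKy hq.le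
      have h4 : 0 ≤ (C₀ : ℝ) * (y0 * q) := by positivity
      linarith) hmx (N₁ := (n + 4) * M'') hNN (by rw [hNc]; exact hlL2) hher hex
  refine hvoid R ((le_max_left _ _).trans hKK) hε hεv S1 S3 (o0 := oW) (rho := ρ) (sr := sr)
    (s0 := s₀) (s := s) (w := 2 * ρ * q) (xx := xx) (M' := M'') hoW hsr hsr1 hs₀0 hs0q hs rfl hxx
    hxxq hr hρ hyr.symm (fun j hj => H.grid j (hj.trans (hNN.trans gr.NNg))) (oV := oV) (rr := rr)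
    (dr := dr) (Ψ := Ψ) hoV hio hrr hdr hdr1 hher (fun J F A V z z' G hG ω hω =>
      (hΨ J F A V z z' G hG).cls ω hω) hrow hful
    (d := fun k l => d (nι N ((n + 4) * M'') k) l) (d3 := d 0 3)
    (fun k hk l hl => ?_) ?_
    (Ab := fun J k => ⌊nAA t q oW y0 ρ Ng P Ax (nι N ((n + 4) * M'') k) * (J : ℝ)⌋₊)
    (g' := fun J k l => ⌊(L l (nAA t q oW y0 ρ Ng P Ax (nι N ((n + 4) * M'') k))
      (nWW t q oW ρ Ng P Vx (nι N ((n + 4) * M'') k)) - d (nι N ((n + 4) * M'') k) l) * (J : ℝ)⌋₊)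
    (fun J k hk => ?_) (fun J k hk l hl => ?_) (c₀ := 1 / (8 * Ke)) (by positivity)
    (Nv := (n + 4) * M'') ?_
  · obtain ⟨h1, h2, -⟩ := hd _ (hNι k (hk.trans hNN)) l hl.le
    exact ⟨h1.le, h2⟩
  · obtain ⟨h1, h2, -⟩ := hd 0 (by omega) 3 le_rfl
    exact ⟨h1.le, h2⟩
  · show ⌊nAA t q oW y0 ρ Ng P Ax (nι N ((n + 4) * M'') k) * (J : ℝ)⌋₊ = _
    rw [(hAt k (hk.trans hNN)).1]
  · show ⌊(L l (nAA t q oW y0 ρ Ng P Ax (nι N ((n + 4) * M'') k))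
      (nWW t q oW ρ Ng P Vx (nι N ((n + 4) * M'') k)) - d (nι N ((n + 4) * M'') k) l) *
        (J : ℝ)⌋₊ = _
    rw [(hAt k (hk.trans hNN)).1, (hAt k (hk.trans hNN)).2]
  · intro w' ε' hε' hw' ⟨J₀, hJ₀⟩
    exact hev (K' := Kd) (n := n) (by rw [hKd]; exact le_max_left _ _)
      (kk := fun J => ⌊y0 / (n + 4) * q * J⌋₊) (yy := fun J => ⌊v * q * J⌋₊)
      (x := fun J => ⌊v * q * J⌋₊)
      (e₁' := fun J => C₀ * (⌊(s₀ + 3 * s) * J⌋₊ + 1) + ⌊Eb 3 * J⌋₊)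
      (e₁ := fun J => ⌊e₂ 3 * J⌋₊ - 1)
      (e₂' := fun J => C₀ * (⌊(s₀ + 3 * s) * J⌋₊ + 1) + ⌊Eb 3 * J⌋₊ + ⌊v * q * J⌋₊ +
              2 * ⌊v * q * J⌋₊ + 6)
      (st := fun J => C₁ * (C₀ * (⌊(s₀ + 3 * s) * J⌋₊ + 1) + (⌊2 * ρ * q * J⌋₊ + 1) + 1))
      (lz := fun J => C * (⌊(s₀ + 3 * s) * J⌋₊ + ⌊2 * ρ * q * J⌋₊ + 1) + ⌊(Eb 3 + s) * J⌋₊ +
        ⌊xx * J⌋₊ + nlp (fun j => if j < 3 then
          ⌊(L j (nAA t q oW y0 ρ Ng P Ax (nι N ((n + 4) * M'') 0))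
            (nWW t q oW ρ Ng P Vx (nι N ((n + 4) * M'') 0)) -
              d (nι N ((n + 4) * M'') 0) j) * (J : ℝ)⌋₊ else
                ⌊(L 3 (t + oW * q) (t + oW * q) - d 0 3) * J⌋₊) 0 3)
      (jb := gjb (y0 / (n + 4)) ρ) (ji := fun i => gjb (y0 / (n + 4)) ρ (i + 1)) hε' hw'
      (J₀ := J₀) (fun J hJ => (hJ₀ J hJ).1) (fun J hJ => (hJ₀ J hJ).2)

end Pool.STB
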