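import Pool.Agent.H6.STB.Nsq
import Pool.Agent.H65.STL.Mrl
import Pool.Agent.H98.STB.VcI
import Pool.Agent.H98.STB.VcB

/-!
# Case (B), a static target at a record: the alternative of the two chains

`alt_ex`: for `Sl 2 < b`, `b < Sl 2` or `c 2` static, the static chain (`NsQ`) or the crossing label
(`MxS`) with the loss `(b + 1 / 2) q`, at one of finitely many whole base windows.
-/

set_option autoImplicit false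

namespace Pool.STB

open Finset Real MvPolynomial
open Pool.Agent.H49.Ent Pool.Agent.H32.Dense Pool.STK Pool.KA Pool.KSAT Pool.K2S Pool.PB Pool.S6C
open Pool.GEN Pool.RCD Pool.LA91 Pool.PKG Pool.CHT Pool.CHX
open Pool.ALT (Fml AlO NzF)
open Pool.STB65 (NsQ MxS mxs_recL)
open Pool.STB6 (nsq_rec nsq_sta)

/-- **The two chains**, at a record. -/
theorem alt_ex {Sl : ℕ → ℝ} {κ : ℕ → Kg} {b : ℕ} (hb : 1 ≤ b) (S3 : Sl 3 = b) (hκ : κ 3 = .sta)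
    (hc : Sl 2 < b ∨ (b : ℝ) < Sl 2 ∨ κ 2 = .sta) : ∃ P B : ℕ, b + 1 ≤ P ∧ 1 ≤ B ∧
    ∀ D : ℕ, 1 ≤ D → ∃ Cx : ℕ, ∀ {S : PCl 4} {al : ℝ}
    {g₀ : ℝ → ℝ} {P₀ : List (Fin 4) × Fin 4 → ℝ → ℝ → ℝ} {θ : ℝ}
    {P₂ : ℕ → List (Fin 4) × Fin 4 → ℝ → ℝ → ℝ} {θ₂ Eb e₂ : ℕ → ℝ}
    {c : ℕ → Fin 4} {Pt : ℝ → ℝ → ℝ} {r : ℝ → ℝ} {h Kn g : ℝ} {L T : ℕ → ℝ → ℝ → ℝ}
    {G : Set ℝ} {S₀ N₀ : ℕ} {A V : ℕ → ℝ} {S₂ N' : ℕ} {V' : ℕ → ℝ} {K ε q t : ℝ}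
    (_ : RecG S al g₀ P₀ θ P₂ θ₂ Eb e₂ c Pt r h Kn g L T Sl κ G S₀ N₀ A V S₂ N' V' K ε q t)
    (_ : 0 ≤ ε) (_ : ε ≤ 1 / 16) (_ : (B : ℝ) ≤ K)
    {Db i j : ℕ} {Rr hh δ lam rr ℓ g₂ X' η' μ e₀ π₀ : ℝ} {Ψ : Fml 4}
    {w p₁ p₂ eN uN pN pa₁ pa₂ ea ua pa : ℝ}
    (_ : AlO (r₀ := 2) S c L Db N' V' i j Rr hh δ lam rr ℓ g₂ X' η' μ e₀ π₀ q t Ψ w p₁ p₂ eN uN pN
      pa₁ pa₂ ea ua pa) (_ : Db * max 1 Db ≤ D) (_ : 0 ≤ δ * lam) (_ : δ * lam ≤ 1 / 16)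
    (_ : V' i = -1),
    ∃ pc R₀ : ℕ, b + 1 ≤ pc ∧ pc ≤ P ∧ 1 ≤ R₀ ∧ R₀ + P + 1 < B ∧
    ∀ {ρ : ℝ} {Ng N M' Nx : ℕ}
      (_ : LsN (-1 + (R₀ : ℝ)) 1 ρ Ng P Nx (fun k => -1 + (k : ℝ)) (fun _ => -1) N₀ A V N' V' K)
      (_ : GrN 1 ρ Ng P pc N M') (_ : B ≤ Nx) {C₀ : ℕ} {s₀ s η X : ℝ} {Dr : ℕ} (_ : 0 ≤ s₀)
      (_ : 0 < s) (_ : Cx * s ≤ q / 16) (_ : C₀ * (s₀ + 6 * s) ≤ q) (_ : 2 * (η * q) ≤ q)
      (_ : X * q ≤ q) (_ : C₀ * (s₀ + 6 * s) + 2 * s ≤ t - K * q) (_ : D ≤ Dr),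
      NsQ C₀ N (N + (P - pc)) (L 3 (nAA t q (-1 + (R₀ : ℝ)) 1 ρ Ng P (fun k => -1 + (k : ℝ))
            (nι N M' 0)) (nWW t q (-1 + (R₀ : ℝ)) ρ Ng P (fun _ => -1) (nι N M' 0)) +
          b * (nAA t q (-1 + (R₀ : ℝ)) 1 ρ Ng P (fun k => -1 + (k : ℝ)) (nι N M' N) -
            nAA t q (-1 + (R₀ : ℝ)) 1 ρ Ng P (fun k => -1 + (k : ℝ)) (nι N M' 0)) -
              (b + 1 / 2) * q)
        L (nAA t q (-1 + (R₀ : ℝ)) 1 ρ Ng P (fun k => -1 + (k : ℝ)))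
        (nWW t q (-1 + (R₀ : ℝ)) ρ Ng P (fun _ => -1)) (nι N M') (nσ Ng pc N)
        (fun k => L 3 (nAA t q (-1 + (R₀ : ℝ)) 1 ρ Ng P (fun k => -1 + (k : ℝ)) (nι N M' k))
          (nAA t q (-1 + (R₀ : ℝ)) 1 ρ Ng P (fun k => -1 + (k : ℝ)) (nι N M' k)) - 2 * (η * q))
        (fun k => L 2 (nAA t q (-1 + (R₀ : ℝ)) 1 ρ Ng P (fun k => -1 + (k : ℝ)) (nι N M' k))
          (nAA t q (-1 + (R₀ : ℝ)) 1 ρ Ng P (fun k => -1 + (k : ℝ)) (nι N M' k)) -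
          L 3 (nAA t q (-1 + (R₀ : ℝ)) 1 ρ Ng P (fun k => -1 + (k : ℝ)) (nι N M' k))
          (nAA t q (-1 + (R₀ : ℝ)) 1 ρ Ng P (fun k => -1 + (k : ℝ)) (nι N M' k)) + X * q) s₀ s ∨
      MxS S c D Dr (Ng + P + 2 + Nx) L (Eb 3) (Eb 3) s s₀ (t + V' i * q)
        (nAA t q (-1 + (R₀ : ℝ)) 1 ρ Ng P (fun k => -1 + (k : ℝ)))
        (nWW t q (-1 + (R₀ : ℝ)) ρ Ng P (fun _ => -1)) (nσ Ng pc N N)
        (L 3 (nAA t q (-1 + (R₀ : ℝ)) 1 ρ Ng P (fun k => -1 + (k : ℝ)) (nι N M' 0))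
          (nWW t q (-1 + (R₀ : ℝ)) ρ Ng P (fun _ => -1) (nι N M' 0)) +
          b * (nAA t q (-1 + (R₀ : ℝ)) 1 ρ Ng P (fun k => -1 + (k : ℝ)) (nι N M' N) -
            nAA t q (-1 + (R₀ : ℝ)) 1 ρ Ng P (fun k => -1 + (k : ℝ)) (nι N M' 0)) -
              (b + 1 / 2) * q)
        (NzF Ψ c 2 (c 3) Db Db Db w (t + V' i * q) p₁ p₂ eN uN pN) := by
  have hb1 : (1 : ℝ) ≤ b := by exact_mod_cast hb
  rcases hc with hc | hc | hc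
  · -- `Sl 2 < b`
    obtain ⟨P₁, hP₁⟩ : ∃ P₁ : ℕ, (b * (b + 2) + 2) / (b - Sl 2) ≤ P₁ := exists_nat_ge _
    have hd : 0 < (b : ℝ) - Sl 2 := by linarith
    rw [div_le_iff₀ hd] at hP₁
    obtain ⟨P, hP⟩ : ∃ P : ℕ, P = max P₁ (b + 1) := ⟨_, rfl⟩
    have hPP : b * (b + 2) + 2 ≤ (b - Sl 2) * ((P + 1 : ℕ) : ℝ) := by
      have h1 : (P₁ : ℝ) ≤ ((P + 1 : ℕ) : ℝ) := by
        have : P₁ ≤ P + 1 := by
          rw [hP]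
          exact (le_max_left _ _).trans (Nat.le_succ _)
        exact_mod_cast this
      have h2 := mul_le_mul_of_nonneg_left h1 hd.le
      linarith
    refine ⟨P, P + 3, by rw [hP]; exact le_max_right _ _, by omega, fun D hD => ⟨0, ?_⟩⟩
    intro S al g₀ P₀ θ P₂ θ₂ Eb e₂ c Pt r h Kn g L T G S₀ N₀ A V S₂ N' V' K ε q t R hε hε1 hBK Db i
      j Rr hh δ lam rr ℓ g₂ X' η' μ e₀ π₀ Ψ w p₁ p₂ eN uN pN pa₁ pa₂ ea ua pa O hDb hdl hdl1 hVi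
    have hq := R.q0
    have hεq : 0 ≤ ε * q := by positivity
    have hεq1 : ε * q ≤ 1 / 16 * q := mul_le_mul_of_nonneg_right hε1 hq.le
    have hBK' : (P : ℝ) + 3 ≤ K := by
      push_cast at hBK
      exact hBK
    have hP0 : (0 : ℝ) ≤ P := Nat.cast_nonneg P
    obtain ⟨pc, h1, h2, h3⟩ := nsq_rec R (by norm_num) S3 hκ hε (oW := -1 + ((1 : ℕ) : ℝ)) (y := 1)
      one_pos (Q := b + 1) (P := P) (by rw [hP]; exact le_max_right _ _)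
      (by rw [Nat.cast_one]; linarith) (by push_cast; linarith)
    refine ⟨pc, 1, h1, h2, le_rfl, by omega, ?_⟩
    intro ρ Ng N M' Nx H gr hNx C₀ s₀ s η X Dr hs₀ hs hCx hCs hη hX hCt hDr
    refine Or.inl (h3 H gr (s₀ := s₀) (Lm := (b + 1 / 2) * q) (z := q) (by linarith) ?_ hs₀ hCs hη
      hX hCt)
    have h4 := mul_le_mul_of_nonneg_right hPP hq.le
    have e1 : (b : ℝ) * (((b + 1 + 1 : ℕ) : ℝ) * 1 * q) = b * (b + 2) * q := by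
      push_cast
      ring
    have e2 : ((b : ℝ) - Sl 2) * (((P + 1 : ℕ) : ℝ) * 1 * q) =
      (b - Sl 2) * ((P + 1 : ℕ) : ℝ) * q := by ring
    rw [e1, e2]
    have h5 : 0 ≤ (b : ℝ) * q := by positivity
    linarith
  · -- `b < Sl 2`
    have hd : 0 < Sl 2 - (b : ℝ) := by linarith
    obtain ⟨R₃, hR₃⟩ : ∃ R₃ : ℕ, (Sl 2 * (b + 2) + 1) / (Sl 2 - b) ≤ R₃ := exists_nat_ge _
    rw [div_le_iff₀ hd] at hR₃
    refine ⟨b + 1, R₃ + b + 1 + b + 1 + 5, le_rfl, by omega, fun D hD => ?_⟩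
    obtain ⟨Cx, hmx⟩ := mxs_recL D hD
    refine ⟨Cx, ?_⟩
    intro S al g₀ P₀ θ P₂ θ₂ Eb e₂ c Pt r h Kn g L T G S₀ N₀ A V S₂ N' V' K ε q t R hε hε1 hBK Db i
      j Rr hh δ lam rr ℓ g₂ X' η' μ e₀ π₀ Ψ w p₁ p₂ eN uN pN pa₁ pa₂ ea ua pa O hDb hdl hdl1 hVi
    have hq := R.q0
    have hεq : 0 ≤ ε * q := by positivity
    have hεq1 : ε * q ≤ 1 / 16 * q := mul_le_mul_of_nonneg_right hε1 hq.le
    have hR30 : (0 : ℝ) ≤ R₃ := Nat.cast_nonneg R₃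
    have hBK' : (R₃ : ℝ) + b + 1 + b + 1 + 5 ≤ K := by
      push_cast at hBK
      exact hBK
    obtain ⟨R', h1, h2, h3⟩ := hmx R S3 hκ hε hc.le O hDb hdl (y := 1) one_pos (pc := b + 1)
      (R₁ := b + 1 + 2) (R₂ := b + 1 + 2 + R₃) (by omega) (by omega) (by rw [hVi]; linarith)
      (by rw [hVi]; push_cast; linarith) (by
        push_cast
        have e1 : (Sl 2 - b) * (((b : ℝ) + 1 + 2 + R₃ - (b + 1 + 2)) * 1) = R₃ * (Sl 2 - b) := by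
          ring
        have e2 : Sl 2 * (((b : ℝ) + 1 + 1) * 1) = Sl 2 * (b + 2) := by ring
        rw [e1, e2]
        linarith)
    obtain ⟨R₀, hR₀⟩ : ∃ R₀ : ℕ, R' = R₀ + (b + 1 + 1) := ⟨R' - (b + 1 + 1), by omega⟩
    refine ⟨b + 1, R₀, le_rfl, le_rfl, by omega, by omega, ?_⟩
    intro ρ Ng N M' Nx H gr hNx C₀ s₀ s η X Dr hs₀ hs hCx hCs hη hX hCt hDr
    have e : V' i + ((R' : ℝ) - ((b + 1 + 1 : ℕ) : ℝ)) * 1 = -1 + (R₀ : ℝ) := by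
      rw [hVi, hR₀]
      push_cast
      ring
    rw [e] at h3
    refine Or.inr (h3 H gr (by omega) (fun k hk => ⟨?_, ?_⟩) hDr hs (s₀ := s₀) ?_)
    · rw [hVi, mul_one]
    · rw [hVi]
    · have h4 : (δ * lam + b * 1 + 4 * ε) * q = δ * lam * q + b * q + 4 * (ε * q) := by ring
      rw [h4]
      have h5 : δ * lam * q ≤ 1 / 16 * q := mul_le_mul_of_nonneg_right hdl1 hq.le
      linarith
  · -- static
    refine ⟨b + 1, b + 5, le_rfl, by omega, fun D hD => ⟨0, ?_⟩⟩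
    intro S al g₀ P₀ θ P₂ θ₂ Eb e₂ c Pt r h Kn g L T G S₀ N₀ A V S₂ N' V' K ε q t R hε hε1 hBK Db i
      j Rr hh δ lam rr ℓ g₂ X' η' μ e₀ π₀ Ψ w p₁ p₂ eN uN pN pa₁ pa₂ ea ua pa O hDb hdl hdl1 hVi
    have hq := R.q0
    have hεq : 0 ≤ ε * q := by positivity
    have hεq1 : ε * q ≤ 1 / 16 * q := mul_le_mul_of_nonneg_right hε1 hq.le
    refine ⟨b + 1, 1, le_rfl, le_rfl, le_rfl, by omega, ?_⟩
    intro ρ Ng N M' Nx H gr hNx C₀ s₀ s η X Dr hs₀ hs hCx hCs hη hX hCt hDr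
    have h5 : 1 * q ≤ (b : ℝ) * q := mul_le_mul_of_nonneg_right hb1 hq.le
    exact Or.inl (nsq_sta R (by norm_num) S3 hκ hc hε rfl H gr (s₀ := s₀)
      (Lm := (b + 1 / 2) * q) (z := q) (by linarith) (by linarith) hs₀ hCs hη hX hCt)

end Pool.STB
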