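import Pool.Agent.H98.STB.VcJ
import Pool.Agent.H98.STB.VcL
import Pool.Agent.H65.VS.Vni

/-!
# Case (B), a static target of natural slope: `VmV`

`vmV_sta`: `VmV 2` for a static target `c 3` of slope `b`, over `c 0`, `c 1` of slope one, if the
slope of `c 2` is not `b` or `c 2` is static. `voidZ_sta`: the windows of small rate are void.
-/

set_option autoImplicit false

namespace Pool.STB

open Finset Real MvPolynomial
open Pool.Agent.H49.Ent Pool.Agent.H32.Dense Pool.STK Pool.KA Pool.KSAT Pool.K2S Pool.PB Pool.S6C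
open Pool.GEN Pool.RCD Pool.LA91 Pool.OWN68 Pool.PKG Pool.CHT Pool.CHX
open Pool.ALT (Fml AlO NzF AdmL LowE)
open Pool.V0F (ChUQ AttUQ)

set_option maxHeartbeats 1000000 in
/-- **A static target of natural slope `b`**, over two places of slope one: no record with natural
labels of small rate (`VmV`), if the slope of the place `2` is not `b` or it is static. -/
theorem vmV_sta {h hb : ℝ} {Sl : ℕ → ℝ} {κ : ℕ → Kg} {b : ℕ} (hb0 : 0 < hb) (hb1 : hb ≤ 1)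
    (hbb : 1 ≤ b) (S1 : Sl 1 = 1) (S3 : Sl 3 = b) (hκ : κ 3 = .sta)
    (hc : Sl 2 < b ∨ (b : ℝ) < Sl 2 ∨ κ 2 = .sta) : VmV 2 h hb Sl κ (ChUQ : PropG 4 Unit) := by
  intro al hal K₀ hK₀ S₀ hS₀
  have hbr : (1 : ℝ) ≤ b := by exact_mod_cast hbb
  obtain ⟨P, B, hbP, hB1, halt⟩ := alt_ex hbb S3 hκ hc
  have hBr : (1 : ℝ) ≤ B := by exact_mod_cast hB1
  refine ⟨B, B * B, prA B, prV B, hBr, pr_bd le_rfl hBr, fun S₂ hS₂ => ⟨1, fun Db hDb => ?_⟩⟩
  obtain ⟨D₀, hD₀, hnod⟩ := nod_rec 3 S₀ S₂ (by norm_num) hS₀ (hS₀.trans hS₂)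
  obtain ⟨D, hD⟩ : ∃ D : ℕ, D = max D₀ (Db * max 1 Db) := ⟨_, rfl⟩
  have hD1 : 1 ≤ D := by rw [hD]; exact hD₀.trans (le_max_left _ _)
  have hDb2 : Db * max 1 Db ≤ D := by rw [hD]; exact le_max_right _ _
  have hDn : D ≥ D₀ := by rw [hD]; exact le_max_left _ _
  obtain ⟨C₀, D', n, v, s₁, hC₀, hDD', hn, hv0, hv1, hs₁, hsv, hvoid⟩ :=
    void_alo D b hD1 hbb hb0 hb1 (y0 := 1) one_pos
  obtain ⟨Cx, halt⟩ := halt D hD1
  have hlog : 0 < Real.log 2 := Real.log_pos one_lt_two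
  have hC₀r : (0 : ℝ) ≤ C₀ := Nat.cast_nonneg C₀
  have hCxr : (0 : ℝ) ≤ Cx := Nat.cast_nonneg Cx
  have hn4 : (0 : ℝ) < (n : ℝ) + 4 := by positivity
  -- the rate of the losses
  obtain ⟨sr, hsr⟩ : ∃ sr : ℝ, sr = min s₁ (min (1 / (16 * (Cx + 1))) (1 / (7 * (C₀ + 1)))) :=
    ⟨_, rfl⟩
  have hsr0 : 0 < sr := by
    rw [hsr]
    exact lt_min hs₁ (lt_min (by positivity) (by positivity))
  have hsr1 : sr ≤ s₁ := by rw [hsr]; exact min_le_left _ _
  have hsrx : Cx * sr ≤ 1 / 16 := by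
    have h1 : sr ≤ 1 / (16 * (Cx + 1)) := by
      rw [hsr]
      exact (min_le_right _ _).trans (min_le_left _ _)
    rw [le_div_iff₀ (by positivity)] at h1
    nlinarith
  have hsrc : C₀ * (7 * sr) ≤ 1 := by
    have h1 : sr ≤ 1 / (7 * (C₀ + 1)) := by
      rw [hsr]
      exact (min_le_right _ _).trans (min_le_right _ _)
    rw [le_div_iff₀ (by positivity)] at h1
    nlinarith
  have hsr7 : sr ≤ 1 := by linarith
  refine ⟨1, (B : ℝ) + 2, 1 / 2, b * ((B : ℝ) + 2 + 1) - 1 / 2, 1 / 2, min (1 / 2) (sr / 4), 1,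
    min (1 / 8) (hb * Real.log 2 / (64 * (n + 4))), 1, one_pos, by linarith, by norm_num,
    by nlinarith, by norm_num, lt_min (by norm_num) (by positivity),
    (min_le_left _ _).trans (by norm_num), one_pos, ?_, lt_min (by norm_num) (by positivity),
    one_pos, ?_, ?_, ?_⟩
  · show 2 * min (1 / 2 : ℝ) (sr / 4) ≤ Sl 3 * 1
    rw [S3]
    have := min_le_left (1 / 2 : ℝ) (sr / 4)
    linarith
  · show (1 / 2 : ℝ) + 1 / 2 ≤ Sl 3 * 1
    rw [S3]
    linarith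
  · show (b * ((B : ℝ) + 2 + 1) - 1 / 2) + 1 / 2 ≤ Sl 3 * ((B : ℝ) + 2 + 1)
    rw [S3]
    linarith
  intro dt ℓ hdt hdt1 hℓ hℓ1
  have hdt8 : dt ≤ 1 / 8 := hdt1.trans (min_le_left _ _)
  have hdtn : 64 * (n + 4) * (dt * (1 / 2)) ≤ hb * 1 * Real.log 2 := by
    have h1 : dt ≤ hb * Real.log 2 / (64 * (n + 4)) := hdt1.trans (min_le_right _ _)
    rw [le_div_iff₀ (by positivity)] at h1
    have : 0 < hb * Real.log 2 := by positivity
    linarith
  refine ⟨sr / 16, by positivity, fun hh hhh hhh1 => ?_⟩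
  -- the fine grid
  obtain ⟨M₀, hM₀⟩ : ∃ M₀ : ℕ, 1 / s₁ ≤ M₀ := exists_nat_ge _
  obtain ⟨M'', hM''⟩ : ∃ M'' : ℕ, M'' = M₀ + 1 := ⟨_, rfl⟩
  obtain ⟨M', hM'⟩ : ∃ M' : ℕ, M' = (n + 4) * M'' := ⟨_, rfl⟩
  have hM1 : 1 ≤ M' := by
    rw [hM', hM'']
    exact Nat.mul_pos (by omega) (Nat.succ_pos _)
  have hM0 : (0 : ℝ) < M' := by exact_mod_cast hM1
  have hρs : 1 / (M' : ℝ) ≤ s₁ := by
    rw [div_le_iff₀ hM0]
    rw [div_le_iff₀ hs₁] at hM₀
    have h1 : (M₀ : ℝ) ≤ M' := by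
      have : M₀ ≤ M' := by
        rw [hM', hM'']
        calc M₀ ≤ 1 * (M₀ + 1) := by omega
          _ ≤ (n + 4) * (M₀ + 1) := Nat.mul_le_mul_right _ (by omega)
      exact_mod_cast this
    have h2 := mul_le_mul_of_nonneg_right h1 hs₁.le
    linarith
  obtain ⟨K₁, hK₁, hvoid⟩ := hvoid B (b * B + 2) (by positivity)
  refine ⟨max K₁ (max B K₀), B * M' + 1, grV M',
    gr_bd ((le_max_left _ _).trans (le_max_right _ _)) (hK₁.trans (le_max_left _ _)) hM1,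
    fun K' hK' => ?_⟩
  have hK'1 : K₁ ≤ K' := (le_max_left _ _).trans hK'
  have hK'B : (B : ℝ) ≤ K' := ((le_max_left _ _).trans (le_max_right _ _)).trans hK'
  have hK'0 : K₀ ≤ K' := ((le_max_right _ _).trans (le_max_right _ _)).trans hK'
  have hK'11 : 1 ≤ K' := hK₁.trans hK'1
  refine ⟨min (v / 16) (sr / 32), lt_min (by positivity) (by positivity), fun ε hε hε1 => ?_⟩
  have hεv : 16 * ε ≤ v := by
    have := hε1.trans (min_le_left _ _)
    linarith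
  have hεs : ε ≤ sr / 32 := hε1.trans (min_le_right _ _)
  intro S g₀ P₀ θ P₂ θ₂ Eb e₂ c Pt rt L T G g hG hg hder
  refine ⟨fun _ => (), 1, fun _ => -1, fun _ => 1, fun _ _ => by norm_num, fun k₀ hQ μ hμ => ?_⟩
  have hch := hQ 0 one_pos
  rcases le_or_gt g 0 with hg0 | hg0
  · refine ⟨1, one_pos, ?_⟩
    intro q t x hq1 hx N A V Na Va S₁ hSS R
    exfalso
    have h1 := (abs_le.1 R.near).2
    have h2 := R.t0
    have h3 := mul_le_mul_of_nonneg_right hK'0 R.q0.le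
    linarith
  refine ⟨min (μ / (b + 2)) (g / (K₀ + K' + 3)), lt_min (by positivity) (by positivity), ?_⟩
  intro q t x hqq hx N A V Na Va S₁ hSS R hVa hl1 hl2 i j e₀ π₀ Ψ w p₁ p₂ eN uN pN pa₁ pa₂ ea ua pa
    hi hj hVi hVj hmar O
  have hq := R.q0
  have hqμ : (b + 2) * q ≤ μ := by
    have h1 := hqq.le.trans (min_le_left _ _)
    rw [le_div_iff₀ (by positivity)] at h1
    linarith
  have hqg : (K₀ + K' + 3) * q ≤ g := by
    have h1 := hqq.le.trans (min_le_right _ _)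
    rw [le_div_iff₀ (by positivity)] at h1
    linarith
  have htK : 3 * q ≤ t - K' * q := by
    have h1 := (abs_le.1 R.near).1
    linarith
  have hbq : 0 ≤ (b : ℝ) * q := by positivity
  have hεq : 0 ≤ ε * q := by positivity
  have hXq : min (1 / 2) (sr / 4) * q ≤ 1 / 2 * q :=
    mul_le_mul_of_nonneg_right (min_le_left _ _) hq.le
  have hX0 : 0 ≤ min (1 / 2) (sr / 4) := le_min (by norm_num) (by positivity)
  have hsq : sr * q ≤ 1 * q := mul_le_mul_of_nonneg_right hsr7 hq.le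
  have hC7 : C₀ * (sr * q + 6 * (sr * q)) ≤ q := by
    have h1 := mul_le_mul_of_nonneg_right hsrc hq.le
    have e1 : C₀ * (7 * sr) * q = C₀ * (sr * q + 6 * (sr * q)) := by ring
    linarith
  have hε16 : ε ≤ 1 / 16 := by linarith
  obtain ⟨pc, R₀, hp1, hp2, hR1, hR2, hal⟩ := halt R hε.le hε16 hK'B O hDb2 (by positivity)
    (by linarith) hVi
  have H := lsn_all (R₀ := R₀) (P := P) (Nx := B) hM1 hK'B hK'11 hR2 le_rfl hl1 hl2
  have gr := grn_all (P := P) hM1 hp2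
  have hR1r : (1 : ℝ) ≤ R₀ := by exact_mod_cast hR1
  have hR2r : (R₀ : ℝ) + P + 2 ≤ B := by
    have : R₀ + P + 2 ≤ B := by omega
    exact_mod_cast this
  have hP0 : (0 : ℝ) ≤ P := Nat.cast_nonneg P
  have hbR : (b : ℝ) * R₀ ≤ b * B := mul_le_mul_of_nonneg_left (by linarith) (by linarith)
  -- the window `oW`
  obtain ⟨k₁, hk₁, ek₁⟩ := H.grid 0 (Nat.zero_le _)
  have ek₂ : Va k₁ = -1 + (R₀ : ℝ) := by
    rw [ek₁]
    push_cast
    ring
  have hpcr : (b : ℝ) + 1 ≤ pc := by exact_mod_cast hp1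
  have hlam : (b + 1 / 2) * q ≤ L 3 (t + (-1 + (R₀ : ℝ)) * q) (t + (-1 + (R₀ : ℝ)) * q) := by
    have h1 := (hmar k₁ hk₁).1
    rw [ek₂] at h1
    have h2 : L (2 + 1) (t + (-1 + (R₀ : ℝ)) * q) (t + (-1 + (R₀ : ℝ)) * q) =
      L 3 (t + (-1 + (R₀ : ℝ)) * q) (t + (-1 + (R₀ : ℝ)) * q) := rfl
    rw [h2] at h1
    linarith
  have hXμ : min (1 / 2) (sr / 4) * q ≤ μ := by linarith
  have hal' := hal H gr le_rfl (C₀ := C₀) (s₀ := sr * q) (s := sr * q) (η := hh)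
    (X := min (1 / 2) (sr / 4)) (Dr := D') (by positivity) (by positivity) (by
      have h1 := mul_le_mul_of_nonneg_right hsrx hq.le
      have e1 : Cx * sr * q = Cx * (sr * q) := by ring
      linarith) hC7 (by
      have h1 : hh * q ≤ sr / 16 * q := mul_le_mul_of_nonneg_right hhh1 hq.le
      linarith) (by linarith) (by linarith) hDD'
  rw [hM'] at H gr hal' hρs
  refine hvoid R hK'1 hε.le hεv S1 S3 hκ (oW := -1 + (R₀ : ℝ)) (abs_le.2 ⟨by linarith, by linarith⟩)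
    hρs H gr (hnod R (by norm_num) H D hDn) O hDb2 hhh hX0 zero_le_one (by rw [hVi]; linarith)
    (by linarith) (by push_cast; linarith) hXμ hμ.le (fun k hk => ?_) (s₀ := sr * q) (s := sr * q)
    (sr := sr) (by rw [hVi]; exact abs_le.2 ⟨by linarith, by linarith⟩) (by positivity) ?_ ?_ ?_
    hsr0 hsr1 rfl le_rfl (lamL := (b + 1 / 2) * q) (by positivity) hlam ?_ le_rfl ?_ hdtn
    (fun k hk => ful_rec R hSS hch hk) hal'
  · obtain ⟨m1, m2, m3, m4, m5, m6⟩ := hmar k hk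
    have h2 : L (2 + 1) (t + Va k * q) (t + Va k * q) = L 3 (t + Va k * q) (t + Va k * q) := rfl
    rw [h2] at m1 m4 m5 m6
    exact ⟨by linarith, by linarith, by linarith⟩
  · rw [hVi]
    have e1 : (b : ℝ) * (-1 + (R₀ : ℝ) - -1) = b * R₀ := by ring
    rw [e1]
    linarith
  · have h1 : min (1 / 2) (sr / 4) ≤ sr / 4 := min_le_right _ _
    exact mul_le_mul_of_nonneg_right (by linarith) hq.le
  · have h1 : hh * q ≤ sr / 16 * q := mul_le_mul_of_nonneg_right hhh1 hq.le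
    linarith
  · have h1 : ((b : ℝ) + 1) * q ≤ pc * q := mul_le_mul_of_nonneg_right hpcr hq.le
    linarith
  · rw [hVi]
    have e1 : (b : ℝ) * (-1 + (R₀ : ℝ) - -1) = b * R₀ := by ring
    rw [e1]
    have e2 : (b : ℝ) * ((B : ℝ) + 2 + 1) = b * B + b + 2 * b := by ring
    rw [e2]
    linarith

/-- **Windows of small rate are void**: a static target of natural slope `b`. -/
theorem voidZ_sta {h β' : ℝ} {Sl : ℕ → ℝ} {κ : ℕ → Kg} {b Dv : ℕ} (hbb : 1 ≤ b) (S1 : Sl 1 = 1)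
    (S3 : Sl 3 = b) (hκ : κ 3 = .sta) (hc : Sl 2 < b ∨ (b : ℝ) < Sl 2 ∨ κ 2 = .sta)
    (hβ : β' < Sl 3 * Real.log 2) :
    VoidZ 4 h Sl κ (sumQ (ChUQ : PropG 4 Unit) (sumQ (ChUQ : PropG 4 Unit)
      (AttUQ : PropG 4 Unit))) (fun e : Pool.ALT.PosR => LowE (AdmL 4) β' Dv e) := by
  have hs : 0 < Sl 3 := by
    rw [S3]
    exact_mod_cast hbb
  obtain ⟨hb, hb0, hb1, h1⟩ := Pool.STB65.hb_ex hs hβ
  exact voidZ_B (r := 2) (by norm_num) hb0 hb1 h1 hs (vmV_sta hb0 hb1 hbb S1 S3 hκ hc)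

end Pool.STB
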