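import Pool.Agent.H98.STB.VcM
import Pool.Agent.H65.VS.Prt

/-!
# A static target of natural slope, small rate: the parts

`partB_int`: any kind of `u`, natural slope of the target, different from the slope of `u`.
`shA_tB3`: the field `tB3` of the sheet `ShA`. `shA_tB1_of`: the field `tB1` from the part with no
integer slope, `a + 1 ≤ b`.
-/

set_option autoImplicit false

namespace Pool.STB98B

open Finset Real
open Pool.GEN Pool.PKG Pool.ALT Pool.LA91 Pool.ASM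
open Pool.V0F (ChUQ AttUQ)
open Pool.STB65 (partB_mono)

/-- The slopes of `partB_int`. -/
def Nint (Sl : ℕ → ℝ) : Prop := Sl 1 = 1 ∧ (∃ b : ℕ, 1 ≤ b ∧ Sl 3 = b) ∧ Sl 2 ≠ Sl 3

/-- **Small rate, static target of natural slope `b ≠ a`**, any kind of `u`: void. -/
theorem partB_int {κ : ℕ → Kg} (k3 : κ 3 = .sta) :
    PartB κ Nint (fun _ => AdmL 4) (fun Sl => Sl 3 * Real.log 2) := by
  refine ⟨Unit ⊕ (Unit ⊕ Unit), inferInstance, sumQ (ChUQ : PropG 4 Unit) (sumQ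
    (ChUQ : PropG 4 Unit) (AttUQ : PropG 4 Unit)), ?_, ?_, ?_⟩
  · exact aePG_sum (Pool.V0F.aePG_chU 4) (Pool.V0F.her_chU 4) (aePG_sum (Pool.V0F.aePG_chU 4)
      (Pool.V0F.her_chU 4) (Pool.V0F.aePG_attU 4))
  · exact her_sum (Pool.V0F.her_chU 4) (her_sum (Pool.V0F.her_chU 4) (Pool.V0F.her_attU 4))
  intro h h0 h1 Sl hS b D
  obtain ⟨S1, ⟨b', hb', S3⟩, hne⟩ := hS
  have hb := b.2
  refine Pool.STB.voidZ_sta hb' S1 S3 k3 ?_ (by linarith)
  rcases lt_or_gt_of_ne hne with h2 | h2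
  · exact Or.inl (by rw [← S3]; exact h2)
  · exact Or.inr (Or.inl (by rw [← S3]; exact h2))

/-- **The field `tB3` of `ShA`**: `u` thin, small rate, `b < a`. -/
theorem shA_tB3 : PartB (kg4 .one .one .thin .sta) (fun Sl => NAt Sl ∧ Sl 3 < Sl 2)
    (fun _ => AdmL 4) (fun Sl => Sl 3 * Real.log 2) :=
  (partB_int rfl).num tni_B fun Sl hS => by
    by_cases hb : ∃ b : ℕ, Sl 3 = b
    · obtain ⟨b, hb⟩ := hb
      have h2 : (2 : ℝ) ≤ b := by rw [← hb]; exact hS.1.2.2.2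
      have h3 : 2 ≤ b := by exact_mod_cast h2
      exact Or.inl ⟨hS.1.2.1, ⟨b, by omega, hb⟩, hS.2.ne'⟩
    · exact Or.inr ⟨hS.1.2.1, fun b h => hb ⟨b, h⟩, by linarith [hS.2]⟩

/-- The slopes of the rest of `tB1`: no integer, `a + 1 ≤ b`. -/
def Nnf (Sl : ℕ → ℝ) : Prop := NAt Sl ∧ (∀ b : ℕ, Sl 3 ≠ b) ∧ Sl 2 + 1 ≤ Sl 3

/-- **The field `tB1` of `ShA`**, from the slopes no integer, `a + 1 ≤ b`. -/
theorem shA_tB1_of (H : PartB (kg4 .one .one .thin .sta) Nnf (fun _ => AdmL 4)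
    (fun Sl => Sl 3 * Real.log 2)) :
    PartB (kg4 .one .one .thin .sta) (fun Sl => NAt Sl ∧ Sl 2 < Sl 3)
      (fun _ => AdmL 4) (fun Sl => Sl 3 * Real.log 2) :=
  (partB_int rfl).num (tni_B.num H (Ψ := fun Sl => NAt Sl ∧ ∀ b : ℕ, Sl 3 ≠ b) fun Sl hS => by
    rcases lt_or_ge (Sl 3) (Sl 2 + 1) with h | h
    · exact Or.inl ⟨hS.1.2.1, hS.2, h⟩
    · exact Or.inr ⟨hS.1, hS.2, h⟩) fun Sl hS => by
    by_cases hb : ∃ b : ℕ, Sl 3 = b
    · obtain ⟨b, hb⟩ := hb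
      have h2 : (2 : ℝ) ≤ b := by rw [← hb]; exact hS.1.2.2.2
      have h3 : 2 ≤ b := by exact_mod_cast h2
      exact Or.inl ⟨hS.1.2.1, ⟨b, by omega, hb⟩, hS.2.ne⟩
    · exact Or.inr ⟨hS.1, fun b h => hb ⟨b, h⟩⟩

/-- **The part of `tB2` with no integer slope**: `u` thin, small rate, `a = b` no integer. -/
theorem tB2_ni : PartB (kg4 .one .one .thin .sta)
    (fun Sl => NAt Sl ∧ Sl 2 = Sl 3 ∧ ∀ b : ℕ, Sl 3 ≠ b) (fun _ => AdmL 4)
    (fun Sl => Sl 3 * Real.log 2) :=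
  partB_mono tni_B fun Sl hS => ⟨hS.1.2.1, hS.2.2, by linarith [hS.2.1]⟩

end Pool.STB98B
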