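import Pool.Agent.H77.STB.Nn12
import Pool.Agent.H90.STV.Low
import Pool.Agent.H98.STB.VcO

/-!
# No integer slope: the static chain with a gain

`nni4_rec`: 77's `nni3_rec'` with the unit `u`, from the static chain with the loss `2 mu u`.
-/

set_option autoImplicit false

namespace Pool.STB98B

open Finset Real MvPolynomial
open Pool.Agent.H49.Ent Pool.Agent.H32.Dense Pool.STK Pool.KA Pool.KSAT Pool.K2S Pool.PB Pool.S6C
open Pool.GEN Pool.RCD Pool.LA91 Pool.PKG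
open Pool.CHT Pool.CHX
open Pool.ALT (Fml BlB)
open Pool.GRD (LbP)
open Pool.STB (Po)
open Pool.STB77 (NodF n1o_void' recG_low)
open Pool.STB65 (NsR NsQ MxS n1_cls gST)
open Pool.STV90 (nodF_last)
open Pool.LEV (Law)

/-- The levels, the one of the place `3` lower at the radii below `t + 2 u`. -/
noncomputable def Lmu (L : ℕ → ℝ → ℝ → ℝ) (t u mu : ℝ) : ℕ → ℝ → ℝ → ℝ := fun l a w =>
  if l = 3 ∧ a < t + 2 * u then L l a w - mu * min (a - t) u else L l a w

section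

variable {L : ℕ → ℝ → ℝ → ℝ} {t u mu : ℝ}

theorem lmu_ne {l : ℕ} (hl : l < 3) (a w : ℝ) : Lmu L t u mu l a w = L l a w :=
  if_neg fun h => by omega

theorem lmu_hi (l : ℕ) {a : ℝ} (ha : t + 2 * u ≤ a) (w : ℝ) : Lmu L t u mu l a w = L l a w :=
  if_neg fun h => by linarith [h.2]

theorem lmu_lo {a : ℝ} (ha : a < t + 2 * u) (w : ℝ) :
    Lmu L t u mu 3 a w = L 3 a w - mu * min (a - t) u := if_pos ⟨rfl, ha⟩

theorem lmu_le {a : ℝ} (ha : t ≤ a) (hu : 0 < u) (hm : 0 ≤ mu) (w : ℝ) :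
    Lmu L t u mu 3 a w ≤ L 3 a w := by
  rcases lt_or_ge a (t + 2 * u) with h | h
  · rw [lmu_lo h]
    have : 0 ≤ mu * min (a - t) u := mul_nonneg hm (le_min (by linarith) hu.le)
    linarith
  · rw [lmu_hi 3 h]

theorem lmu_ge {a : ℝ} (ha : t ≤ a) (hm : 0 ≤ mu) (w : ℝ) :
    L 3 a w ≤ Lmu L t u mu 3 a w + mu * (a - t) := by
  rcases lt_or_ge a (t + 2 * u) with h | h
  · rw [lmu_lo h]
    have : mu * min (a - t) u ≤ mu * (a - t) := mul_le_mul_of_nonneg_left (min_le_left _ _) hm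
    linarith
  · rw [lmu_hi 3 h]
    have : 0 ≤ mu * (a - t) := mul_nonneg hm (by linarith)
    linarith

theorem lmu_t (hu : 0 < u) (w : ℝ) : Lmu L t u mu 3 t w = L 3 t w := by
  rw [lmu_lo (by linarith), sub_self, min_eq_left hu.le, mul_zero, sub_zero]

theorem lmu_u (hu : 0 < u) (w : ℝ) :
    Lmu L t u mu 3 (t + u) w = L 3 (t + u) w - mu * u := by
  rw [lmu_lo (by linarith), add_sub_cancel_left, min_self]

/-- The levels are monotone. -/
theorem lmu_mono (hL : Law (L 3)) (hu : 0 < u) (hm : 0 ≤ mu) (hm1 : mu ≤ 1) {a a' w w' : ℝ}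
    (hw : 0 ≤ w) (hwa : w ≤ a) (hta : t ≤ a) (haa : a ≤ a') (hww : w ≤ w') (hwa' : w' ≤ a')
    (ha' : a' ≤ 1) (h1' : L 3 a' w' < 1) : Lmu L t u mu 3 a w ≤ Lmu L t u mu 3 a' w' := by
  rcases lt_or_ge a' (t + 2 * u) with h | h
  · rw [lmu_lo (haa.trans_lt h), lmu_lo h]
    have h1 := hL.mono_w a' w w' hw hww hwa' ha'
    have h2 := hL.slope a w (a' - a) hw hwa (by linarith) (by linarith)
    rw [add_sub_cancel] at h2
    have h2 : L 3 a w + (a' - a) ≤ L 3 a' w := by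
      rcases le_total 1 (L 3 a w + (a' - a)) with h6 | h6
      · rw [min_eq_left h6] at h2
        linarith
      · rwa [min_eq_right h6] at h2
    have h3 : min (a' - t) u ≤ min (a - t) u + (a' - a) := by
      rcases le_total (a - t) u with h4 | h4
      · rw [min_eq_left h4]
        exact (min_le_left _ _).trans (by linarith)
      · rw [min_eq_right h4]
        exact (min_le_right _ _).trans (by linarith)
    have h4 := mul_le_mul_of_nonneg_left h3 hm
    have h5 : mu * (a' - a) ≤ 1 * (a' - a) := mul_le_mul_of_nonneg_right hm1 (by linarith)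
    linarith
  · rw [lmu_hi 3 h]
    exact (lmu_le hta hu hm w).trans (hL.mono hw hwa haa hww hwa' ha')

end

/-- `NsQ` depends on the levels at the pairs from `N` on and at the last ball. -/
theorem nsq_congr {C N Nm : ℕ} {γ : ℝ} {β β' : ℕ → ℝ → ℝ → ℝ} {AA WW : ℕ → ℝ} {ι σ : ℕ → ℕ}
    {p x : ℕ → ℝ} {s₀ s : ℝ} (H : NsQ C N Nm γ β AA WW ι σ p x s₀ s) (hN : N ≤ Nm)
    (h1 : ∀ l k, N ≤ k → k ≤ Nm → β' l (AA (σ k)) (WW (σ k)) = β l (AA (σ k)) (WW (σ k)))
    (h2 : ∀ l, β' l (AA (ι Nm)) (WW (ι Nm)) = β l (AA (ι Nm)) (WW (ι Nm))) :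
    NsQ C N Nm γ β' AA WW ι σ p x s₀ s where
  m2 := fun k a b => by rw [h1 2 k a b]; exact H.m2 k a b
  m2' := by rw [h2]; exact H.m2'
  c1 := fun k a b => by
    rw [h1 2 (k + 1) (by omega) (by omega), h1 2 N le_rfl hN, h1 3 k a b.le]
    exact H.c1 k a b
  c2 := fun k a b => by
    rw [h1 2 k a b, h1 2 N le_rfl hN, h1 3 k a b]
    exact H.c2 k a b
  c3 := by rw [h1 3 Nm hN le_rfl]; exact H.c3
  c4 := by rw [h2, h1 2 N le_rfl hN, h1 3 Nm hN le_rfl]; exact H.c4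
  c5 := by rw [h2, h1 2 N le_rfl hN]; exact H.c5
  gl := fun l hl => by rw [h1 l Nm hN le_rfl, h2]; exact H.gl l hl
  bm := by rw [h1 2 N le_rfl hN]; exact H.bm

end Pool.STB98B
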