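import Pool.Agent.H98.STB.VcP

/-!
# No integer slope: the static chain with a gain, at a record

`nni4_rec`: 77's `nni3_rec'` with the unit `u`, from the static chain with the loss `2 mu u`.
-/

set_option autoImplicit false

namespace Pool.STB98B

open Finset Real MvPolynomial
open Pool.Agent.H49.Ent Pool.Agent.H32.Dense Pool.STK Pool.KA Pool.KSAT Pool.K2S Pool.PB Pool.S6C
open Pool.GEN Pool.CHT Pool.NVX
open Pool.STB65 Pool.STB77
open Pool.PKG (Kg RecG KgQ)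
open Pool.GRD (LbP)
open Pool.ALT (Fml BlB)
open Pool.STV90 (nodF_last)

/-- **No static fourth place with a slope which is no integer**, at a record, from the static chain
with the loss `2 mu u`. The balls `ι` have the radii `t`, `t + u`, `t + 2 u` at `0`, `k₁`, `N`. -/
theorem nni4_rec (n D b : ℕ) (hD : 1 ≤ D) (hb2 : 2 ≤ b) {σ mu : ℝ} (hmu : 0 < mu)
    (h9 : 9 * mu ≤ σ - b) (h8 : 8 * mu ≤ b + 1 - σ) : ∃ (C₀ D' : ℕ) (ϰ : ℝ), D ≤ D' ∧ 0 < ϰ ∧ ϰ ≤ 1 ∧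
    ∀ {Db : ℕ} {S : PCl n} {al : ℝ} {g₀ : ℝ → ℝ} {P₀ : List (Fin n) × Fin n → ℝ → ℝ → ℝ} {θ : ℝ}
    {P₂ : ℕ → List (Fin n) × Fin n → ℝ → ℝ → ℝ} {θ₂ Eb e₂ : ℕ → ℝ} {c : ℕ → Fin n}
    {Pt : ℝ → ℝ → ℝ} {r : ℝ → ℝ} {h Kn g : ℝ} {L T : ℕ → ℝ → ℝ → ℝ} {Sl : ℕ → ℝ} {κ : ℕ → Kg}
    {G : Set ℝ} {S₀ N₀ : ℕ} {A V : ℕ → ℝ} {S₂ N' : ℕ} {V' : ℕ → ℝ} {K ε q t : ℝ}
    (_ : RecG S al g₀ P₀ θ P₂ θ₂ Eb e₂ c Pt r h Kn g L T Sl κ G S₀ N₀ A V S₂ N' V' K ε q t)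
    (_ : 3 < n) (_ : Sl 1 = 1) (_ : Sl 3 = σ) (_ : κ 3 = .sta) (_ : 0 ≤ ε) {u : ℝ}
    (_ : 0 < u) (M : ℕ)
    (AA WW : ℕ → ℝ) (_ : ∀ k < M, t ≤ AA k) (_ : ∀ k < M, t - K * q ≤ WW k) (_ : ∀ k < M, WW k ≤ AA k)
    (_ : ∀ k < M, AA k ≤ t + K * q)
    (_ : ∀ k < M, NodF S c 3 D L (Eb 3) (Eb 3) (AA k) (WW k)) (N Nm k₁ : ℕ)
    (_ : N ≤ Nm)
    (_ : k₁ ≤ N) (ι σ' : ℕ → ℕ) (_ : ∀ k ≤ Nm, ι k < M ∧ WW (ι k) = AA (ι k))
    (_ : ∀ k < Nm, AA (ι k) ≤ AA (ι (k + 1)))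
    (_ : ∀ k, N ≤ k → k ≤ Nm → σ' k < M ∧ AA (σ' k) = AA (ι k) ∧ WW (σ' k) = AA (ι 0))
    (_ : AA (ι 0) = t) (_ : AA (ι k₁) = t + u) (_ : AA (ι N) = t + 2 * u) (v s₀ s : ℝ)
    (_ : ∀ k < N, AA (ι (k + 1)) ≤ AA (ι k) + v) (_ : 0 ≤ v) (_ : v ≤ ϰ * u)
    (_ : s₀ ≤ ϰ * u) (_ : 4 * ε * q ≤ s₀) (_ : 0 < s) (_ : s ≤ ϰ * u)
    (_ : C₀ * (s₀ + 4 * s) ≤ 3 * K * q) {w pN x : ℝ} {p p₂ y : ℕ → ℝ} {Ψ : Fml n} (_ : w ≤ t)
    (_ : 0 ≤ x) (_ : L 3 t t ≤ pN + x) (_ : x + (3 * σ + 20) * u ≤ 3 * K * q)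
    (_ : (σ + 5) * u ≤ K * q) (_ : ∀ k ≤ N, L 3 t t + b * (AA (ι k) - t) ≤ p k + s₀)
    (_ : ∀ k ≤ N, y k + (L 3 t t + b * (AA (ι k) - t)) ≤
      L 2 (AA (ι k)) (AA (ι k)) + s₀)
    (_ : ∀ (J : ℕ) (F : Fam n J) (A : F.Ω → Prop) (V : Type) (z : PtT F → V) (z' : LnT F → V)
      (G : V → MvPolynomial (Option (Fin n)) ℝ), Ψ J F A V z z' G →
      LbP F ((range 3).image c) (c 3) D J ⌊w * J⌋₊ ⌊pN * J⌋₊ A z z' G) (_ : Db ≤ D)
    (_ : ∀ k ≤ Nm, BlB S c 2 (c 3) w (AA (ι k)) Db Db (p k) (p₂ k) (y k) Ψ)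
    (_ : ∀ k ≤ Nm, ∃ χ : ℝ, 0 < χ ∧ Bas S (fun J F A => ∃ (P₁ : ℕ) (V₁ : Type)
      (z₁ : PtT F → V₁) (z₁' : LnT F → V₁) (G₁ : V₁ → MvPolynomial (Option (Fin n)) ℝ),
      LbP F ((range 3).image c) (c 3) Db J ⌊AA (ι k) * J⌋₊ P₁ A z₁ z₁' G₁ ∧
        (p k + χ) * J ≤ P₁))
    (_ : ∀ k ≤ Nm, ∃ χ : ℝ, 0 < χ ∧ Bas S (fun J F A => ∃ (P₁ : ℕ) (V₁ : Type)
      (z₁ : PtT F → V₁) (z₁' : LnT F → V₁) (G₁ : V₁ → MvPolynomial (Option (Fin n)) ℝ),
      LbP F ((range 2).image c) (c 2) Db J ⌊AA (ι k) * J⌋₊ P₁ A z₁ z₁' G₁ ∧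
        (p₂ k + χ) * J ≤ P₁)) (Dr : ℕ) (_ : D' ≤ Dr)
    (_ : NsQ C₀ N Nm (L 3 t t + 2 * (σ - mu) * u) L AA WW ι σ' p y s₀ s) {k₂ : ℕ}
    (_ : k₂ < N') (_ : V' k₂ * q = u)
    (_ : Bas S (fun J F A => ∃ (V : Type) (z : PtT F → V) (z' : LnT F → V)
      (G : V → MvPolynomial (Option (Fin n)) ℝ), Ψ J F A V z z' G)), False := by
  obtain ⟨C₀, C, D', K₀, hDD', hn1⟩ := n1_cls D b hD
  have hσ1 : (b : ℝ) < σ := by linarith
  have hσ2 : σ < b + 1 := by linarith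
  obtain ⟨ϰ, hϰ0, hϰ1, hvoid⟩ := n1o_void' n D' K₀ b C₀ C (hD.trans hDD') hb2 (σ := σ - mu)
    (by linarith) (by linarith)
  refine ⟨C₀, D', ϰ, hDD', hϰ0, hϰ1, ?_⟩
  intro Db S al g₀ P₀ θ P₂ θ₂ Eb e₂ c Pt r h Kn g L T Sl κ G S₀ N₀ A V S₂ N' V' K ε q t R hn S1 S3
    hκ hε u hu M AA WW hta hWW hWA hAA hnod N Nm k₁ hNm hk₁ ι σ' hι ham hσ' a0 ak aN v s₀ s hv hv0 hvϰ hs₀ϰ
    hεs hs hsϰ hCs w pN x p p₂ y Ψ hwt hx hpN hKx hK7 lq bl hΨ hDb hbl hl3 hl2 Dr hDr hns k₂ hk₂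
    hV₂ hex
  have hq := R.q0
  have hmu1 : mu ≤ 1 := by linarith
  have hmuu : 0 < mu * u := mul_pos hmu hu
  have R3 := R.tg 3 (by norm_num) hn
  have hb2' : (2 : ℝ) ≤ b := by exact_mod_cast hb2
  have hεq : 0 ≤ ε * q := mul_nonneg hε hq.le
  have hεs' : 4 * (ε * q) ≤ s₀ := by linarith
  have hs₀0 : 0 ≤ s₀ := by linarith
  have hσq : 0 ≤ σ * u := mul_nonneg (by linarith) hu.le
  have h7q : 7 * u ≤ (σ + 5) * u := mul_le_mul_of_nonneg_right (by linarith) hu.le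
  have ht0 := R.t0
  have ht1 := R.t1
  have hbx : ∀ z : ℝ, t - K * q ≤ z → z ≤ t + K * q → |z - t| ≤ K * q := fun z h1 h2 => by
    rw [abs_le]
    constructor <;> linarith
  have hsta := R.kd 3 hn
  rw [hκ] at hsta
  have hsta := hsta.2
  have hw0 : ∀ k < M, 0 ≤ WW k := fun k hk => by linarith [hWW k hk]
  have hA1 : ∀ k < M, AA k < 1 := fun k hk => by linarith [hAA k hk]
  have hmon : ∀ l < n, ∀ j < M, ∀ k < M, AA j ≤ AA k → WW j ≤ WW k →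
      L l (AA j) (WW j) ≤ L l (AA k) (WW k) := fun l hl j hj k hk h1 h2 =>
    (R.lawL l hl).mono (hw0 j hj) (hWA j hj) h1 h2 (hWA k hk) (hA1 k hk).le
  have hιM : ∀ k ≤ Nm, ι k < M := fun k hk => (hι k hk).1
  have hιW : ∀ k ≤ Nm, WW (ι k) = AA (ι k) := fun k hk => (hι k hk).2
  have hmo : ∀ j k, j ≤ k → k ≤ Nm → AA (ι j) ≤ AA (ι k) := by
    intro j k hjk
    induction k, hjk using Nat.le_induction with
    | base => exact fun _ => le_rfl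
    | succ k hk ih => exact fun hk' => (ih (by omega)).trans (ham k (by omega))
  have ht : ∀ k ≤ Nm, t ≤ AA (ι k) := fun k hk => by
    rw [← a0]
    exact hmo 0 k (Nat.zero_le _) hk
  have htK : ∀ k ≤ Nm, AA (ι k) ≤ t + K * q := fun k hk => hAA _ (hιM k hk)
  have hKq0 : 0 ≤ K * q := by linarith
  have hbxι : ∀ k ≤ Nm, |AA (ι k) - t| ≤ K * q := fun k hk =>
    hbx _ (by linarith [ht k hk]) (htK k hk)
  have l0 : ∀ k ≤ Nm, |L 0 (AA (ι k)) (AA (ι k)) - AA (ι k)| ≤ ε * q := fun k hk =>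
    R.l0 _ (hbxι k hk)
  have l1 : ∀ k ≤ Nm, |L 1 (AA (ι k)) (AA (ι k)) - L 1 t t - (AA (ι k) - t)| ≤ ε * q :=
    fun k hk => by
      have h1 := R.dL 1 (by omega) _ (hbxι k hk)
      rwa [S1, one_mul] at h1
  have l3 : ∀ k ≤ Nm, |L 3 (AA (ι k)) (AA (ι k)) - L 3 t t - σ * (AA (ι k) - t)| ≤ ε * q :=
    fun k hk => by
      have h1 := R.dL 3 hn _ (hbxι k hk)
      rwa [S3] at h1
  have htp : 0 ≤ t := by linarith
  have low : ∀ l < n, ∀ z : ℝ, t ≤ z → z ≤ t + K * q → z ≤ L l z z := fun l hl z h1 h2 =>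
    recG_low R hl (by linarith) le_rfl (by linarith)
  have hW0 : WW (ι 0) = t := by rw [hιW 0 (Nat.zero_le _), a0]
  have hWN := hιW N hNm
  have hWk := hιW k₁ (hk₁.trans hNm)
  have bσ : ∀ k ≤ N, L 3 t t + b * (AA (ι k) - t) ≤ L 3 (AA (ι k)) (AA (ι k)) + ε * q :=
    fun k hk => by
      have h1 := (abs_le.1 (l3 k (hk.trans hNm))).1
      have h2 : (b : ℝ) * (AA (ι k) - t) ≤ σ * (AA (ι k) - t) :=
        mul_le_mul_of_nonneg_right hσ1.le (by linarith [ht k (hk.trans hNm)])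
      linarith
  have hN3 := l3 N hNm
  rw [aN] at hN3
  have hsN := hsta (t + 2 * u) t (by linarith) (by linarith) (by linarith)
  obtain ⟨m1, m2, m3⟩ := hσ' N le_rfl hNm
  have hroom := R3.room 1 (by norm_num) t (hbx t (by linarith) (by linarith))
  obtain ⟨K₁, d, ψ, hK₁, hψ, hd, hbas⟩ := hn1 (Db := Db) R.tmh
    (R.inj.mono fun z (hz : z < 4) => show z < n by omega) R3.Eb0.le M AA WW hw0 hWA hA1
    (fun j hj k hk h1 h2 => by
      refine lmu_mono (R.lawL 3 hn) hu hmu.le hmu1 (hw0 j hj) (hWA j hj) (hta j hj) h1 h2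
        (hWA k hk) (hA1 k hk).le ?_
      have h3 := (R.lawL 3 hn).mono_w (AA k) (WW k) (AA k) (hw0 k hk) (hWA k hk) le_rfl
        (hA1 k hk).le
      have h4 := R3.room 3 le_rfl (AA k) (hbx _ (by linarith [hta k hk]) (hAA k hk))
      linarith [R3.Eb0]) (fun k hk => nodF_last (hnod k hk) (fun l hl => lmu_ne hl _ _)
        (lmu_le (hta k hk) hu hmu.le _)) N Nm hNm ι σ' hι ham hσ' v s₀ hv hs₀0 (fun k hk => by
      rw [lmu_ne (by norm_num), hιW k (hk.trans hNm)]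
      linarith [(abs_le.1 (l0 k (hk.trans hNm))).2]) (by
      rw [lmu_ne (by norm_num), hιW 0 (Nat.zero_le _)]
      linarith [(abs_le.1 (l0 0 (Nat.zero_le _))).1]) (by
      rw [lmu_ne (by norm_num), hW0, a0]
      exact low 1 (by omega) t le_rfl (by linarith)) (fun k hk => by
      rw [lmu_ne (by norm_num), lmu_ne (by norm_num), hιW k (hk.trans hNm), hW0, a0]
      linarith [(abs_le.1 (l1 k (hk.trans hNm))).2]) (fun k hk => by
      rw [lmu_ne (by norm_num), lmu_ne (by norm_num), hιW k (hk.trans hNm), hW0, a0]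
      linarith [(abs_le.1 (l1 k (hk.trans hNm))).1]) w pN x (L 3 t t + 2 * (σ - mu) * u) p p₂
    y Ψ
    { g3 := by
        rw [hW0, a0, lmu_t hu]
        exact htp.trans (low 3 hn t le_rfl (by linarith))
      lv := fun k hk => by
        rw [hιW k (hk.trans hNm), hW0, a0, lmu_t hu]
        have h1 := lmu_ge (L := L) (t := t) (u := u) (mu := mu) (ht k (hk.trans hNm)) hmu.le
          (AA (ι k))
        have h2 := (abs_le.1 (l3 k (hk.trans hNm))).1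
        have h3 : (b + mu) * (AA (ι k) - t) ≤ σ * (AA (ι k) - t) :=
          mul_le_mul_of_nonneg_right (by linarith) (by linarith [ht k (hk.trans hNm)])
        linarith
      lq := fun k hk => by
        rw [hW0, a0, lmu_t hu]
        linarith [lq k hk]
      γ0 := by
        rw [hW0, a0, aN, lmu_t hu]
        have : (b + mu) * u ≤ σ * u := mul_le_mul_of_nonneg_right (by linarith) hu.le
        linarith
      ls := by
        rw [m2, m3, aN, a0, lmu_hi 3 le_rfl]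
        linarith [(abs_le.1 hN3).1]
      gsn := fun l hl => by
        rw [lmu_ne hl, lmu_ne hl, m2, m3, hWN]
        have h1 := (R.lawL l (by omega)).mono_w (AA (ι N)) (AA (ι 0)) (AA (ι N))
          (by rw [a0]; exact htp) (hmo 0 N (Nat.zero_le _) hNm) le_rfl (hA1 _ (hιM N hNm)).le
        linarith
      gm := fun j k hjk hk l hl => by
        rw [lmu_ne hl, lmu_ne hl]
        have h1 := hmo j k hjk (hk.trans hNm)
        have h2 := hmon l (by omega) _ (hιM j (by omega)) _ (hιM k (hk.trans hNm)) h1 (by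
          rw [hιW j (by omega), hιW k (hk.trans hNm)]
          exact h1)
        linarith
      bl := fun k hk => by
        rw [lmu_ne (l := 2) (by norm_num), hιW k (hk.trans hNm), hW0, a0, lmu_t hu]
        linarith [bl k hk] } (by rw [a0]; exact hwt) hx (by
      rw [hW0, a0, lmu_t hu]
      linarith) hΨ hDb hbl hl3 hl2 Dr hDr s hs (by
      rw [lmu_ne (by norm_num), hW0, a0]
      linarith) (Or.inl (nsq_congr hns hNm (fun l k h1 h2 => by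
        rw [(hσ' k h1 h2).2.1]
        exact lmu_hi l (by rw [← aN]; exact hmo N k h1 h2) _) (fun l =>
        lmu_hi l (by rw [← aN]; exact hmo N Nm hNm le_rfl) _)))
  have e0 : ∀ a w : ℝ, Lmu L t u mu 0 a w = L 0 a w := fun a w => lmu_ne (by norm_num) a w
  have e1 : ∀ a w : ℝ, Lmu L t u mu 1 a w = L 1 a w := fun a w => lmu_ne (by norm_num) a w
  have e2 : ∀ a w : ℝ, Lmu L t u mu 2 a w = L 2 a w := fun a w => lmu_ne (by norm_num) a w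
  have e3 : Lmu L t u mu 3 t t = L 3 t t := lmu_t hu t
  have e3' : Lmu L t u mu 3 (t + u) (t + u) = L 3 (t + u) (t + u) - mu * u := lmu_u hu _
  refine hvoid (S := S) (θ₂ := θ₂ 3) (P₂ := P₂ 3) (c := c) (β := Lmu L t u mu) (q := u) (t := t)
    (e := Eb 3) (E := Eb 3) (x := x) (s₀ := s₀) (s := s) (v := v) (w := w)
    (gam := L 3 t t + 2 * (σ - mu) * u) (e₂ := e₂ 3) (K₁ := K₁) (lam := mu) (N := N) (k₁ := k₁)
    (aa := fun k => AA (ι k)) (ww := fun k => WW (ι k)) (d := fun k l => d (ι k) l)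
    (gS := fun J => gST b N J (L 3 t t + 2 * (σ - mu) * u) (Lmu L t u mu) AA WW ι d) hmu.le
    (by linarith) (by linarith) R.ne R.tmh R3.thr₂ hu hK₁ htp
    (by linarith) hk₁ a0 ak aN hW0 (by rw [hWk, ak]) hs₀0 hs₀ϰ hs hsϰ hv0 hvϰ R3.Eb0.le R3.Eb0.le
    hx hwt (fun k hk l hl => ⟨(hd _ (hιM k (hk.trans hNm)) l hl).1,
      (hd _ (hιM k (hk.trans hNm)) l hl).2.1⟩) (fun J => le_max_right _ _) ?_ ?_ ?_ ?_ ?_ ?_
    (by rw [e3]; exact htp.trans (low 3 hn t le_rfl (by linarith))) ?_ ?_ ?_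
    (by rw [e3]; linarith) ?_ ?_ ?_ ?_ ?_
    (Bas.mono 0 (hbas.and hex) ?_)
  · have := (abs_le.1 (l0 0 (Nat.zero_le _))).2
    rw [a0] at this
    rw [e0]
    linarith
  · have := (abs_le.1 (l0 k₁ (hk₁.trans hNm))).1
    rw [ak] at this
    rw [e0]
    linarith
  · rw [e1]
    exact low 1 (by omega) t le_rfl (by linarith)
  · have := (abs_le.1 (l1 k₁ (hk₁.trans hNm))).1
    rw [ak] at this
    rw [e1, e1]
    linarith
  · have h1 := (R.lawL 2 (by omega)).mono (a := t) (a' := t + u) (w := t) (w' := t + u) htp le_rfl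
      (by linarith) (by linarith) le_rfl (by linarith)
    rw [e2, e2]
    linarith
  · rw [e2]
    exact htp.trans (low 2 (by omega) t le_rfl (by linarith))
  · rw [e0]
    exact htp.trans (low 0 (by omega) t le_rfl (by linarith))
  · intro l hl
    have h1 := low l (by omega) (t + u) (by linarith) (by linarith)
    have h2 := R3.room l hl (t + u) (hbx _ (by linarith) (by linarith))
    rcases Nat.lt_or_ge l 3 with h3 | h3
    · rw [lmu_ne h3]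
      exact ⟨by linarith, by linarith [R3.Eb0]⟩
    · have h4 : l = 3 := by omega
      subst h4
      rw [e3']
      have h5 : mu * u ≤ 1 * u := mul_le_mul_of_nonneg_right hmu1 hu.le
      exact ⟨by linarith, by linarith [R3.Eb0]⟩
  · have := (abs_le.1 (l3 k₁ (hk₁.trans hNm))).2
    rw [ak] at this
    rw [e3', e3]
    linarith
  · have h2 := R3.room 3 le_rfl (t + u) (hbx _ (by linarith) (by linarith))
    rw [e3']
    linarith [R3.Eb0]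
  · rw [max_self]
    linarith [R3.Ebe]
  · rw [max_self, e1]
    linarith
  · intro ε' hε'
    obtain ⟨δ, hδ, h1⟩ := R3.ratc k₂ hk₂ ε' hε'
    rw [hV₂] at h1
    refine ⟨δ, hδ, fun w' h2 h3 => ?_⟩
    rw [e3']
    linarith [h1 w' h2 h3 3 le_rfl]
  · intro w' h1 h2
    exact R3.eθ w' (hbx _ (by linarith) (by linarith))
  · rintro J - F A ⟨h1, V₁, z, z', G₁, hG⟩
    obtain ⟨B, Gn, Hn, pP, pH, xP, xH, zP, zH, f, f', kf, hBA, hBP, -, O⟩ := h1 V₁ z z' G₁ hG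
    have hL := hΨ J F A V₁ z z' G₁ hG
    refine ⟨B, fun k => Gn (ι k), fun k => Hn (ι k), pP, pH, xP, xH, fun y => G₁ (z y), zP, fun S => G₁ (z' S), zH, f, f', kf,
      hBA, hBP, fun ω hω => ?_, fun ω hω => ⟨(hL.deg _).trans hDD', fun b₁ b₂ hn hb =>
        hL.dep _ b₁ b₂ hn fun i hi => ?_⟩, O⟩
    · show G₁ (z (ptr F J ω)) = G₁ (z' (slam F ⌊w * J⌋₊ ω))
      rw [hL.cls ω (hBA ω hω)]
    · obtain ⟨l, hl, rfl⟩ := Finset.mem_image.1 hi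
      exact hb l (mem_range.1 hl)

end Pool.STB98B
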