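import Pool.Agent.H98.STB.VcQ
import Pool.Agent.H98.STB.VcI

/-!
# No integer slope: void at a record, from the natural labels and the static chain

`void_alo_ni`: `nni4_rec` for the natural labels of `AlO`, with the whole window `0` and the static
pairs `(t + j q, t)`, `j ≤ P + 1`.
-/

set_option autoImplicit false

namespace Pool.STB98B

open Finset Real MvPolynomial
open Pool.Agent.H49.Ent Pool.Agent.H32.Dense Pool.STK Pool.KA Pool.KSAT Pool.K2S Pool.PB Pool.S6C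
open Pool.GEN Pool.RCD Pool.LA91 Pool.CHT Pool.CHX
open Pool.GRD (LbP)
open Pool.PKG (Kg RecG KgQ)
open Pool.ALT (Fml BlB AlO NzF)
open Pool.STB77 (NodF)
open Pool.STB65 (NsR NsQ MxS)
open Pool.STB (nAA nWW nι nσ LsN GrN ball_at ball_zero pair_at box_in lv_lin lv_sta lv_mono nι_le
  ball_mono nod_box n_cases nAA_ball nAA_pair alw_lab)

/-- **A static target, the slope no integer, is void** at a record, for the natural labels. -/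
theorem void_alo_ni (D b : ℕ) (hD : 1 ≤ D) (hb2 : 2 ≤ b) {σ mu : ℝ} (hmu : 0 < mu)
    (h9 : 9 * mu ≤ σ - b) (h8 : 8 * mu ≤ b + 1 - σ) : ∃ (C₀ : ℕ) (ϰ : ℝ), 0 < ϰ ∧ ϰ ≤ 1 ∧
    ∀ {S : PCl 4} {al : ℝ}
    {g₀ : ℝ → ℝ} {P₀ : List (Fin 4) × Fin 4 → ℝ → ℝ → ℝ} {θ : ℝ}
    {P₂ : ℕ → List (Fin 4) × Fin 4 → ℝ → ℝ → ℝ} {θ₂ Eb e₂ : ℕ → ℝ}
    {c : ℕ → Fin 4} {Pt : ℝ → ℝ → ℝ} {r : ℝ → ℝ} {h Kn g : ℝ} {L T : ℕ → ℝ → ℝ → ℝ}
    {Sl : ℕ → ℝ} {κ : ℕ → Kg} {G : Set ℝ} {S₀ N₀ : ℕ} {A V : ℕ → ℝ} {S₂ N' : ℕ} {V' : ℕ → ℝ}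
    {K ε q t : ℝ}
    (_ : RecG S al g₀ P₀ θ P₂ θ₂ Eb e₂ c Pt r h Kn g L T Sl κ G S₀ N₀ A V S₂ N' V' K ε q t)
    (_ : 0 ≤ ε) (_ : Sl 1 = 1) (_ : Sl 3 = σ) (_ : κ 3 = .sta)
    {ρ : ℝ} {Ng P pc N M'' : ℕ} {Ax Vx : ℕ → ℝ}
    (_ : LsN 0 1 ρ Ng P 0 Ax Vx N₀ A V N' V' K) (_ : GrN 1 ρ Ng P pc N (2 * M''))
    (_ : ∀ k < Ng + P + 2 + 0, NodF S c 3 D L (Eb 3) (Eb 3) (nAA t q 0 1 ρ Ng P Ax k)
      (nWW t q 0 ρ Ng P Vx k)) (_ : ρ ≤ ϰ) (_ : 1 ≤ pc) (_ : (σ + 5) * (P + 1) ≤ K)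
    {Db i j : ℕ} {Rr hh δ lam rr ℓ g₂ X η μ e₀ π₀ : ℝ} {Ψ : Fml 4}
    {w p₁ p₂ eN uN pN pa₁ pa₂ ea ua pa : ℝ}
    (_ : AlO (r₀ := 2) S c L Db N' V' i j Rr hh δ lam rr ℓ g₂ X η μ e₀ π₀ q t Ψ w p₁ p₂ eN uN pN
      pa₁ pa₂ ea ua pa) (_ : Db * max 1 Db ≤ D) (_ : 0 < η) (_ : 0 ≤ X) (_ : g₂ ≤ 1)
    (_ : V' i = -1) (_ : (P : ℝ) + 2 ≤ Rr)
    (_ : X * q ≤ μ) (_ : 0 ≤ μ) (_ : ∀ k < N', X * q ≤ L 2 (t + V' k * q) (t + V' k * q) ∧
      e₀ + L 3 (t + V' k * q) (t + V' k * q) < 1 ∧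
      L 3 (t + V' k * q) (t + V' k * q) + L 2 (t + V' k * q) (t + V' k * q) + X * q ≤ 1 + π₀)
    {s₀ s : ℝ} (_ : 0 ≤ δ * lam) (_ : δ * lam + 2 * ε ≤ 1)
    (_ : (X + 2 * η + 4 * ε) * q ≤ s₀) (_ : 4 * (η * q) ≤ t - K * q)
    (_ : 0 < s) (_ : s₀ ≤ ϰ * q) (_ : s ≤ ϰ * q) (_ : C₀ * (s₀ + 4 * s) ≤ 3 * K * q)
    (_ : NsQ C₀ N (N + (P - pc)) (L 3 (nAA t q 0 1 ρ Ng P Ax (nι N (2 * M'') 0))
          (nWW t q 0 ρ Ng P Vx (nι N (2 * M'') 0)) +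
        σ * (nAA t q 0 1 ρ Ng P Ax (nι N (2 * M'') N) -
          nAA t q 0 1 ρ Ng P Ax (nι N (2 * M'') 0)) - mu * (((pc + 1 : ℕ) : ℝ) * q))
      L (nAA t q 0 1 ρ Ng P Ax) (nWW t q 0 ρ Ng P Vx) (nι N (2 * M'')) (nσ Ng pc N)
      (fun k => L 3 (nAA t q 0 1 ρ Ng P Ax (nι N (2 * M'') k))
        (nAA t q 0 1 ρ Ng P Ax (nι N (2 * M'') k)) - 2 * (η * q))
      (fun k => L 2 (nAA t q 0 1 ρ Ng P Ax (nι N (2 * M'') k))
        (nAA t q 0 1 ρ Ng P Ax (nι N (2 * M'') k)) -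
        L 3 (nAA t q 0 1 ρ Ng P Ax (nι N (2 * M'') k))
        (nAA t q 0 1 ρ Ng P Ax (nι N (2 * M'') k)) + X * q) s₀ s), False := by
  obtain ⟨C₀, D', ϰ, hDD', hϰ0, hϰ1, hcore⟩ := nni4_rec 4 D b hD hb2 hmu h9 h8
  refine ⟨C₀, ϰ, hϰ0, hϰ1, ?_⟩
  intro S al g₀ P₀ θ P₂ θ₂ Eb e₂ c Pt r h Kn g L T Sl κ G S₀ N₀ A V S₂ N' V' K ε q t R hε
    S1 S3 hκ ρ Ng P pc N M'' Ax Vx H gr hnd hρ hpc hKP Db i j Rr hh δ lam rr ℓ g₂ X η μ e₀ π₀ Ψ w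
    p₁ p₂ eN uN pN pa₁ pa₂ ea ua pa O hDb hη hX hg₂ hVi hRp hXμ hμ hmar s₀ s hδl hδε hs₀ hηt hs
    hs₀ϰ hsϰ hCs hns
  have hq := R.q0
  have hL3 : ∀ x, L (2 + 1) x x = L 3 x x := fun _ => rfl
  have hηq : 0 < η * q := by positivity
  have hεq : 0 ≤ ε * q := by positivity
  have hXq : 0 ≤ X * q := by positivity
  have hr := gr.r0
  have hb0 : (2 : ℝ) ≤ b := by exact_mod_cast hb2
  have hσb : (b : ℝ) < σ := by linarith
  have hP0 : (0 : ℝ) ≤ P := Nat.cast_nonneg P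
  have h34 : (3 : ℕ) < 4 := by norm_num
  have hNN : N ≤ N + (P - pc) := Nat.le_add_right _ _
  have hpP := gr.pP
  obtain ⟨z1, z2, z3, z4⟩ := ball_zero R H gr
  obtain ⟨w1, w2, w3⟩ := box_in R z3 z4
  have hz0 : t + 0 * q = t := by ring
  rw [hz0] at z1 z2 w1 w2 w3
  -- the unit
  obtain ⟨u, hu⟩ : ∃ u : ℝ, u = ((pc + 1 : ℕ) : ℝ) / 2 * q := ⟨_, rfl⟩
  have hpc1 : (1 : ℝ) ≤ pc := by exact_mod_cast hpc
  have hpcP : (pc : ℝ) ≤ P := by exact_mod_cast hpP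
  have hu1 : 1 * q ≤ u := by
    rw [hu]
    refine mul_le_mul_of_nonneg_right ?_ hq.le
    push_cast
    linarith
  have hu0 : 0 < u := by linarith
  have hu2 : u ≤ ((P : ℝ) + 1) / 2 * q := by
    rw [hu]
    refine mul_le_mul_of_nonneg_right ?_ hq.le
    push_cast
    linarith
  have hϰu : ϰ * q ≤ ϰ * u := mul_le_mul_of_nonneg_left (by linarith) hϰ0.le
  have hKPq : (σ + 5) * (P + 1) * q ≤ K * q := mul_le_mul_of_nonneg_right hKP hq.le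
  have hσu : (σ + 5) * u ≤ (σ + 5) * (P + 1) * q / 2 := by
    have h1 := mul_le_mul_of_nonneg_left hu2 (by linarith : (0 : ℝ) ≤ σ + 5)
    linarith
  have hσPq : (σ + 5) * q ≤ (σ + 5) * (P + 1) * q := by
    have h1 : (σ + 5) * 1 ≤ (σ + 5) * ((P : ℝ) + 1) :=
      mul_le_mul_of_nonneg_left (by linarith) (by linarith)
    have := mul_le_mul_of_nonneg_right h1 hq.le
    linarith
  have hσ5q : 7 * q ≤ (σ + 5) * q := mul_le_mul_of_nonneg_right (by linarith) hq.le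
  have hρM : (1 : ℝ) = 2 * M'' * ρ := by
    have := gr.yr
    push_cast at this
    exact this
  have hMM : (1 : ℕ) ≤ M'' := by
    have := gr.M1
    omega
  obtain ⟨k₁, hk₁⟩ : ∃ k₁ : ℕ, k₁ = (pc + 1) * M'' := ⟨_, rfl⟩
  have hk₁N : k₁ ≤ N := by
    rw [hk₁, gr.hN]
    exact Nat.mul_le_mul_left _ (by omega)
  have hk₁ρ : (k₁ : ℝ) * ρ * q = u := by
    rw [hk₁, hu]
    push_cast
    have : ((pc : ℝ) + 1) * M'' * ρ = (pc + 1) / 2 * (2 * M'' * ρ) := by ring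
    rw [this, ← hρM]
    ring
  have hNρ : (N : ℝ) * ρ * q = 2 * u := by
    rw [gr.hN, hu]
    push_cast
    have : ((pc : ℝ) + 1) * (2 * M'') * ρ = (pc + 1) * (2 * M'' * ρ) := by ring
    rw [this, ← hρM]
    ring
  have hAk : ∀ k ≤ N, nAA t q 0 1 ρ Ng P Ax (nι N (2 * M'') k) = t + k * ρ * q := by
    intro k hk
    rw [(ball_at R H gr (hk.trans hNN)).1, nι_le hk]
    ring
  have hww : ∀ k ≤ N + (P - pc), nWW t q 0 ρ Ng P Vx (nι N (2 * M'') k) =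
      nAA t q 0 1 ρ Ng P Ax (nι N (2 * M'') k) := fun k hk => by
    obtain ⟨h1, h2, -, -⟩ := ball_at R H gr hk
    rw [h1, h2]
  -- the data at a ball
  have hbl : ∀ k ≤ N + (P - pc), ∃ k' < N', nAA t q 0 1 ρ Ng P Ax
      (nι N (2 * M'') k) = t + V' k' * q ∧
      V' i + g₂ ≤ V' k' ∧ |V' k'| ≤ Rr ∧ V' k' + g₂ ≤ Rr ∧ |t + V' k' * q - t| ≤ K * q ∧
      0 ≤ V' k' := by
    intro k hk
    obtain ⟨h1, h2, h3, h4⟩ := ball_at R H gr hk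
    obtain ⟨k', hk', e1⟩ := H.grid _ (gr.ι_le hk)
    have h5 : 0 ≤ ((nι N (2 * M'') k : ℕ) : ℝ) * ρ := by positivity
    have h6 : ((nι N (2 * M'') k : ℕ) : ℝ) * ρ ≤ (P : ℝ) + 1 := by
      have h7 : ((nι N (2 * M'') k : ℕ) : ℝ) * ρ ≤ (Ng : ℝ) * ρ :=
        mul_le_mul_of_nonneg_right (by exact_mod_cast gr.ι_le hk) hr.le
      have h8 : (Ng : ℝ) * ρ = (P : ℝ) + 1 := by
        rw [gr.hg]
        push_cast
        have : ((P : ℝ) + 1) * (2 * M'') * ρ = (P + 1) * (2 * M'' * ρ) := by ring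
        rw [this, ← hρM]
        ring
      linarith
    rw [zero_add] at e1
    refine ⟨k', hk', by rw [h1, e1, zero_add], by rw [e1, hVi]; linarith, abs_le.2 ?_,
      by rw [e1]; linarith, ?_, by rw [e1]; exact h5⟩
    · rw [e1]
      exact ⟨by linarith, by linarith⟩
    · rw [e1]
      have := (box_in R h3 h4).1
      rwa [zero_add] at this
  have hΨ : ∀ (J : ℕ) (F : Fam 4 J) (A : F.Ω → Prop) (V : Type) (z : PtT F → V) (z' : LnT F → V)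
      (G : V → MvPolynomial (Option (Fin 4)) ℝ),
      NzF Ψ c 2 (c 3) Db Db Db w (t + V' i * q) p₁ p₂ eN uN pN J F A V z z' G →
      LbP F ((range 3).image c) (c 3) D J ⌊(t + V' i * q) * J⌋₊ ⌊pN * J⌋₊ A z z' G := by
    intro J F A V z z' G hG
    have h1 := Pool.GRD.LbP.of hG.lb
    rw [max_self] at h1
    exact { h1 with deg := fun v => (h1.deg v).trans hDb }
  have hKq : 0 < K * q := by linarith
  have hKq2 : q ≤ K * q := by linarith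
  have hK1 : (1 : ℝ) ≤ K := by
    by_contra hcon
    have h1 : K * q < 1 * q := mul_lt_mul_of_pos_right (by linarith) hq
    linarith
  obtain ⟨v1, v2, v3⟩ := box_in R (o := V' i) (by rw [hVi]; linarith) (by rw [hVi]; linarith)
  have hlab : ∀ k ≤ N + (P - pc),
      (∃ χ : ℝ, 0 < χ ∧ Bas S (fun J F A => ∃ (P₁ : ℕ) (V₁ : Type) (z₁ : PtT F → V₁)
      (z₁' : LnT F → V₁) (G₁ : V₁ → MvPolynomial (Option (Fin 4)) ℝ),
      LbP F ((range 3).image c) (c 3) Db J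
        ⌊nAA t q 0 1 ρ Ng P Ax (nι N (2 * M'') k) * J⌋₊ P₁ A z₁ z₁'
        G₁ ∧ (L 3 (nAA t q 0 1 ρ Ng P Ax (nι N (2 * M'') k))
          (nAA t q 0 1 ρ Ng P Ax (nι N (2 * M'') k)) -
        2 * (η * q) + χ) * J ≤ P₁)) ∧ (∃ χ : ℝ, 0 < χ ∧ Bas S (fun J F A => ∃ (P₁ : ℕ)
      (V₁ : Type) (z₁ : PtT F → V₁)
      (z₁' : LnT F → V₁) (G₁ : V₁ → MvPolynomial (Option (Fin 4)) ℝ),
      LbP F ((range 2).image c) (c 2) Db J
        ⌊nAA t q 0 1 ρ Ng P Ax (nι N (2 * M'') k) * J⌋₊ P₁ A z₁ z₁'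
        G₁ ∧ (L 2 (nAA t q 0 1 ρ Ng P Ax (nι N (2 * M'') k))
          (nAA t q 0 1 ρ Ng P Ax (nι N (2 * M'') k)) -
        2 * (η * q) + χ) * J ≤ P₁)) := by
    intro k hk
    obtain ⟨k', hk', e1, b1, b2, b3, b4, -⟩ := hbl k hk
    obtain ⟨E', Eu, hl⟩ := O.lab k' hk'
    have d1 := R.low_at (i := 3) (by norm_num) (a := t + V' k' * q) (w := t + V' k' * q)
      (by have := (abs_le.1 b4).1; have := R.t0; linarith) le_rfl
      (by have := (abs_le.1 b4).2; have := R.t1; linarith)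
    have d2 := R.low_at (i := 2) (by norm_num) (a := t + V' k' * q) (w := t + V' k' * q)
      (by have := (abs_le.1 b4).1; have := R.t0; linarith) le_rfl
      (by have := (abs_le.1 b4).2; have := R.t1; linarith)
    have d3 := (abs_le.1 b4).1
    have := alw_lab (p := L 3 (t + V' k' * q) (t + V' k' * q) - 2 * (η * q))
      (p₂ := L 2 (t + V' k' * q) (t + V' k' * q) - 2 * (η * q)) hl hηq
      (by linarith [hL3 (t + V' k' * q)]) (by linarith) (by linarith) (by linarith)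
    rw [← e1] at this
    exact this
  have hs' : X * q + 2 * (η * q) + 4 * (ε * q) ≤ s₀ := by linarith
  have hlev : ∀ k ≤ N + (P - pc), t ≤ nAA t q 0 1 ρ Ng P Ax (nι N (2 * M'') k) ∧
      L 3 t t + σ * (nAA t q 0 1 ρ Ng P Ax (nι N (2 * M'') k) - t) - ε * q ≤
      L 3 (nAA t q 0 1 ρ Ng P Ax (nι N (2 * M'') k))
        (nAA t q 0 1 ρ Ng P Ax (nι N (2 * M'') k)) := by
    intro k hk
    obtain ⟨k', hk', e1, -, -, -, b4, b5⟩ := hbl k hk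
    have h1 := (abs_le.1 (R.dL 3 h34 _ b4)).1
    rw [S3] at h1
    rw [e1]
    have : 0 ≤ V' k' * q := mul_nonneg b5 hq.le
    exact ⟨by linarith, by linarith⟩
  -- the window `t + u`
  obtain ⟨k₂, hk₂, e₂'⟩ := H.grid k₁ (hk₁N.trans gr.NNg)
  refine hcore R (by norm_num) S1 S3 hκ hε hu0 (Ng + P + 2 + 0) (nAA t q 0 1 ρ Ng P Ax)
    (nWW t q 0 ρ Ng P Vx) (fun k hk => ?_) (fun k hk => ?_) (fun k hk => (nod_box R H gr hk).2.1)
    (fun k hk => ?_) hnd N (N + (P - pc)) k₁ hNN hk₁N (nι N (2 * M'')) (nσ Ng pc N)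
    (fun k hk => ⟨by have := gr.ι_le hk; omega, hww k hk⟩)
    (fun k hk => ball_mono R H gr (Nat.le_succ k) hk) (fun k hk1 hk2 => by
      obtain ⟨i', rfl⟩ : ∃ i', k = N + i' := ⟨k - N, by omega⟩
      obtain ⟨s1, s2, s3, -⟩ := pair_at R H gr (i := i') (by omega)
      exact ⟨s3, s1, by rw [s2, z1, hz0]⟩) z1 (by rw [hAk k₁ hk₁N, hk₁ρ])
    (by rw [hAk N le_rfl, hNρ]) (ρ * q) s₀ s (fun k hk => by
      rw [hAk k hk.le, hAk (k + 1) hk]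
      push_cast
      linarith) (by positivity) (le_trans (mul_le_mul_of_nonneg_right hρ hq.le) hϰu)
    (hs₀ϰ.trans hϰu) (by linarith) hs (hsϰ.trans hϰu) hCs (w := t + V' i * q) (pN := pN)
    (x := (σ + 1) * q) (Db := Db) (Ψ := NzF Ψ c 2 (c 3) Db Db Db w (t + V' i * q) p₁ p₂ eN uN pN)
    (p := fun k => L 3 (nAA t q 0 1 ρ Ng P Ax (nι N (2 * M'') k))
        (nAA t q 0 1 ρ Ng P Ax (nι N (2 * M'') k)) - 2 * (η * q))
    (p₂ := fun k => L 2 (nAA t q 0 1 ρ Ng P Ax (nι N (2 * M'') k))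
        (nAA t q 0 1 ρ Ng P Ax (nι N (2 * M'') k)) - 2 * (η * q))
    (y := fun k => L 2 (nAA t q 0 1 ρ Ng P Ax (nι N (2 * M'') k))
        (nAA t q 0 1 ρ Ng P Ax (nι N (2 * M'') k)) -
        L 3 (nAA t q 0 1 ρ Ng P Ax (nι N (2 * M'') k))
        (nAA t q 0 1 ρ Ng P Ax (nι N (2 * M'') k)) + X * q)
    (by rw [hVi]; linarith) (by
      have : 0 ≤ σ * q := mul_nonneg (by linarith) hq.le
      linarith) ?_ ?_ (by linarith) (fun k hk => ?_) (fun k hk => ?_) hΨ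
    ((Nat.le_mul_of_pos_right _ (by simp)).trans hDb) (fun k hk => by
      obtain ⟨k', hk', e1, b1, b2, b3, b4, -⟩ := hbl k hk
      obtain ⟨c1, c2, c3⟩ := hmar _ hk'
      have h5 := O.blb k' hk' b1 b2 b3 hXμ c1 c2 c3
      rw [e1]
      exact h5) (fun k hk => (hlab k hk).1) (fun k hk => (hlab k hk).2) D' le_rfl ?_ hk₂ ?_ ?_
  · rcases n_cases hk with h1 | ⟨j', h1, h2, rfl⟩ | ⟨j', h1, rfl⟩
    · rw [nAA_ball h1]
      have : 0 ≤ (0 + (k : ℝ) * ρ) * q := by positivity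
      linarith
    · rw [nAA_pair h1 h2]
      have : 0 ≤ (0 + (j' : ℝ) * 1) * q := by positivity
      linarith
    · omega
  · rcases n_cases hk with h1 | ⟨j', h1, h2, rfl⟩ | ⟨j', h1, rfl⟩
    · rw [Pool.STB.nWW_ball h1]
      have : 0 ≤ (0 + (k : ℝ) * ρ) * q := by positivity
      linarith
    · rw [Pool.STB.nWW_pair h1 h2]
      linarith
    · omega
  · rcases n_cases hk with h1 | ⟨j', h1, h2, rfl⟩ | ⟨j', h1, rfl⟩
    · rw [nAA_ball h1]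
      obtain ⟨b1, b2⟩ := H.ball gr h1
      have := mul_le_mul_of_nonneg_right b2 hq.le
      linarith
    · rw [nAA_pair h1 h2]
      obtain ⟨b1, b2, b3⟩ := H.pr gr h2
      have := mul_le_mul_of_nonneg_right b3 hq.le
      linarith
    · omega
  · have h1 := abs_le.1 (lv_lin R h34 v1 w1)
    rw [S3, hVi] at h1
    have h2 := O.pN1
    have h3 : L (2 + 1) (t + V' i * q) (t + V' i * q) = L 3 (t + V' i * q) (t + V' i * q) := rfl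
    rw [h3, hVi] at h2
    have h4 : δ * lam * q / 8 ≤ δ * lam * q := by
      have : 0 ≤ δ * lam * q := by positivity
      linarith
    have h5 := mul_le_mul_of_nonneg_right hδε hq.le
    have h6 : σ * (t - (t + -1 * q)) = σ * q := by ring
    rw [h6] at h1
    linarith [h1.2]
  · have h1 : (σ + 1) * q + (3 * σ + 20) * u ≤ 3 * ((σ + 5) * (P + 1) * q) := by
      have h2 : (3 * σ + 20) * u ≤ 4 * ((σ + 5) * u) := by
        have h3 : 0 ≤ σ * u := mul_nonneg (by linarith) hu0.le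
        linarith
      have h4 : (σ + 1) * q ≤ (σ + 5) * q := mul_le_mul_of_nonneg_right (by linarith) hq.le
      linarith
    linarith
  · obtain ⟨h1, h2⟩ := hlev k (hk.trans hNN)
    have h3 : (b : ℝ) * (nAA t q 0 1 ρ Ng P Ax (nι N (2 * M'') k) - t) ≤
        σ * (nAA t q 0 1 ρ Ng P Ax (nι N (2 * M'') k) - t) :=
      mul_le_mul_of_nonneg_right hσb.le (by linarith)
    show _ ≤ L 3 _ _ - 2 * (η * q) + s₀
    linarith
  · obtain ⟨h1, h2⟩ := hlev k (hk.trans hNN)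
    have h3 : (b : ℝ) * (nAA t q 0 1 ρ Ng P Ax (nι N (2 * M'') k) - t) ≤
        σ * (nAA t q 0 1 ρ Ng P Ax (nι N (2 * M'') k) - t) :=
      mul_le_mul_of_nonneg_right hσb.le (by linarith)
    show L 2 _ _ - L 3 _ _ + X * q + _ ≤ _
    linarith
  · have e : L 3 (nAA t q 0 1 ρ Ng P Ax (nι N (2 * M'') 0))
          (nWW t q 0 ρ Ng P Vx (nι N (2 * M'') 0)) +
        σ * (nAA t q 0 1 ρ Ng P Ax (nι N (2 * M'') N) -
          nAA t q 0 1 ρ Ng P Ax (nι N (2 * M'') 0)) - mu * (((pc + 1 : ℕ) : ℝ) * q) =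
        L 3 t t + 2 * (σ - mu) * u := by
      rw [z1, z2, hAk N le_rfl, hNρ, hu]
      ring
    rw [e] at hns
    exact hns
  · rw [e₂', zero_add]
    exact hk₁ρ
  · refine Bas.mono 0 O.nzq ?_
    rintro J - F A ⟨V, z, z', Gz, V₀, V₁, V₂, z₀, z₀', G₀, P₁, z₁, z₁', G₁, P₂', z₂, z₂', H', f,
      hΨ', hN, -⟩
    exact ⟨V, z, z', Gz, V₀, V₁, V₂, z₀, z₀', G₀, P₁, z₁, z₁', G₁, P₂', z₂, z₂', H', f, hΨ', hN⟩

end Pool.STB98B
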