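import Pool.Agent.H98.STB.VcR
import Pool.Agent.H98.STB.VcN

/-!
# No integer slope, small rate: `VmV`, and the field `tB1` of `ShA`

`vmV_ni`: `VmV 2` for a static target whose slope is no integer and larger than the slope of `c 2`.
`shA_tB1`: the field `tB1` of the sheet `ShA`.
-/

set_option autoImplicit false

namespace Pool.STB98B

open Finset Real MvPolynomial
open Pool.Agent.H49.Ent Pool.Agent.H32.Dense Pool.STK Pool.KA Pool.KSAT Pool.K2S Pool.PB Pool.S6C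
open Pool.GEN Pool.RCD Pool.LA91 Pool.OWN68 Pool.PKG Pool.CHT Pool.CHX Pool.ASM
open Pool.ALT (Fml AlO NzF AdmL LowE)
open Pool.V0F (ChUQ AttUQ)
open Pool.STB (VmV voidZ_B prA prV grV pr_bd gr_bd lsn_all grn_all nod_rec LsN GrN nAA nWW)

set_option maxHeartbeats 1000000 in
/-- **A static target, the slope no integer and larger than the slope of `c 2`**, over two places of
slope one: no record with natural labels of small rate. -/
theorem vmV_ni {h hb : ℝ} {Sl : ℕ → ℝ} {κ : ℕ → Kg} (S1 : Sl 1 = 1) (hni : ∀ b : ℕ, Sl 3 ≠ b)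
    (h2 : 2 ≤ Sl 3) (hκ : κ 3 = .sta) (hc : Sl 2 < Sl 3) :
    VmV 2 h hb Sl κ (ChUQ : PropG 4 Unit) := by
  intro al hal K₀ hK₀ S₀ hS₀
  obtain ⟨σ, hσ⟩ : ∃ σ : ℝ, Sl 3 = σ := ⟨_, rfl⟩
  have hσ' : Sl (2 + 1) = σ := hσ
  rw [hσ] at h2 hc
  obtain ⟨b, hbd⟩ : ∃ b : ℕ, b = ⌊σ⌋₊ := ⟨_, rfl⟩
  have hb1 : (b : ℝ) ≤ σ := by
    rw [hbd]
    exact Nat.floor_le (by linarith)
  have hb2 : σ < b + 1 := by
    rw [hbd]
    exact Nat.lt_floor_add_one σ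
  have hbne : (b : ℝ) < σ := lt_of_le_of_ne hb1 fun hh => hni b (by rw [hσ, hh])
  have hb2' : 2 ≤ b := by
    rw [hbd]
    exact Nat.le_floor (by exact_mod_cast h2)
  obtain ⟨mu, hmud⟩ : ∃ mu : ℝ, mu = min (σ - b) (b + 1 - σ) / 9 := ⟨_, rfl⟩
  have hmu : 0 < mu := by
    rw [hmud]
    exact div_pos (lt_min (by linarith) (by linarith)) (by norm_num)
  have h9 : 9 * mu ≤ σ - b := by
    rw [hmud]
    linarith [min_le_left (σ - b) (b + 1 - σ)]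
  have h8 : 8 * mu ≤ b + 1 - σ := by
    have : 9 * mu ≤ b + 1 - σ := by
      rw [hmud]
      linarith [min_le_right (σ - b) (b + 1 - σ)]
    linarith
  -- the coarse grid
  obtain ⟨Q₁, hQ₁⟩ : ∃ Q₁ : ℕ, (σ + 1) / mu ≤ Q₁ := exists_nat_ge _
  rw [div_le_iff₀ hmu] at hQ₁
  obtain ⟨Q, hQd⟩ : ∃ Q : ℕ, Q = Q₁ + 1 := ⟨_, rfl⟩
  have hQmu : σ + 1 ≤ mu * ((Q + 1 : ℕ) : ℝ) := by
    rw [hQd]
    push_cast
    linarith
  have hd : 0 < σ - Sl 2 := by linarith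
  obtain ⟨P₁, hP₁⟩ : ∃ P₁ : ℕ, (σ * ((Q + 1 : ℕ) : ℝ) + 2) / (σ - Sl 2) ≤ P₁ := exists_nat_ge _
  rw [div_le_iff₀ hd] at hP₁
  obtain ⟨P, hPd⟩ : ∃ P : ℕ, P = P₁ + Q := ⟨_, rfl⟩
  have hPP : σ * ((Q + 1 : ℕ) : ℝ) + 2 ≤ (σ - Sl 2) * ((P + 1 : ℕ) : ℝ) := by
    have h1 : (P₁ : ℝ) ≤ ((P + 1 : ℕ) : ℝ) := by
      have : P₁ ≤ P + 1 := by omega
      exact_mod_cast this
    have h3 := mul_le_mul_of_nonneg_left h1 hd.le
    linarith
  obtain ⟨B, hB⟩ : ∃ B : ℕ, B = P + 3 := ⟨_, rfl⟩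
  have hP0 : (0 : ℝ) ≤ P := Nat.cast_nonneg P
  have hBr : (1 : ℝ) ≤ B := by
    rw [hB]
    push_cast
    linarith
  refine ⟨B, B * B, prA B, prV B, hBr, pr_bd le_rfl hBr, fun S₂ hS₂ => ⟨1, fun Db hDb => ?_⟩⟩
  obtain ⟨D₀, hD₀, hnod⟩ := nod_rec 3 S₀ S₂ (by norm_num) hS₀ (hS₀.trans hS₂)
  obtain ⟨D, hD⟩ : ∃ D : ℕ, D = max D₀ (Db * max 1 Db) := ⟨_, rfl⟩
  have hD1 : 1 ≤ D := by rw [hD]; exact hD₀.trans (le_max_left _ _)
  have hDb2 : Db * max 1 Db ≤ D := by rw [hD]; exact le_max_right _ _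
  have hDn : D ≥ D₀ := by rw [hD]; exact le_max_left _ _
  obtain ⟨C₀, ϰ, hϰ0, hϰ1, hvoid⟩ := void_alo_ni D b hD1 hb2' hmu h9 h8
  have hC₀r : (0 : ℝ) ≤ C₀ := Nat.cast_nonneg C₀
  -- the rate of the losses
  obtain ⟨sr, hsr⟩ : ∃ sr : ℝ, sr = min ϰ (1 / (7 * (C₀ + 1))) := ⟨_, rfl⟩
  have hsr0 : 0 < sr := by
    rw [hsr]
    exact lt_min hϰ0 (by positivity)
  have hsrϰ : sr ≤ ϰ := by rw [hsr]; exact min_le_left _ _
  have hsrc : C₀ * (7 * sr) ≤ 1 := by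
    have h1 : sr ≤ 1 / (7 * (C₀ + 1)) := by
      rw [hsr]
      exact min_le_right _ _
    rw [le_div_iff₀ (by positivity)] at h1
    nlinarith
  have hsr7 : sr ≤ 1 := by linarith
  refine ⟨1, (P : ℝ) + 2, 1 / 2, 1 / 2, 1 / 2, min (1 / 2) (sr / 4), 1,
    1, 1, one_pos, by linarith, by norm_num,
    le_rfl, by norm_num, lt_min (by norm_num) (by positivity),
    (min_le_left _ _).trans (by norm_num), one_pos, ?_, one_pos,
    one_pos, ?_, ?_, ?_⟩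
  · rw [hσ']
    have := min_le_left (1 / 2 : ℝ) (sr / 4)
    linarith
  · rw [hσ']
    linarith
  · rw [hσ']
    have : 0 ≤ σ * P := mul_nonneg (by linarith) hP0
    linarith
  intro dt ℓ hdt hdt1 hℓ hℓ1
  refine ⟨sr / 16, by positivity, fun hh hhh hhh1 => ?_⟩
  -- the fine grid
  obtain ⟨M₀, hM₀⟩ : ∃ M₀ : ℕ, 1 / ϰ ≤ M₀ := exists_nat_ge _
  obtain ⟨M'', hM''⟩ : ∃ M'' : ℕ, M'' = M₀ + 1 := ⟨_, rfl⟩
  obtain ⟨M', hM'⟩ : ∃ M' : ℕ, M' = 2 * M'' := ⟨_, rfl⟩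
  have hM1 : 1 ≤ M' := by omega
  have hM0 : (0 : ℝ) < M' := by exact_mod_cast hM1
  have hρs : 1 / (M' : ℝ) ≤ ϰ := by
    rw [div_le_iff₀ hM0]
    rw [div_le_iff₀ hϰ0] at hM₀
    have h1 : (M₀ : ℝ) ≤ M' := by
      have : M₀ ≤ M' := by omega
      exact_mod_cast this
    have h3 := mul_le_mul_of_nonneg_right h1 hϰ0.le
    linarith
  refine ⟨max B (max K₀ ((σ + 5) * (P + 1))), B * M' + 1, grV M',
    gr_bd (le_max_left _ _) (hBr.trans (le_max_left _ _)) hM1, fun K' hK' => ?_⟩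
  have hK'B : (B : ℝ) ≤ K' := (le_max_left _ _).trans hK'
  have hK'0 : K₀ ≤ K' := ((le_max_left _ _).trans (le_max_right _ _)).trans hK'
  have hK'P : (σ + 5) * (P + 1) ≤ K' := ((le_max_right _ _).trans (le_max_right _ _)).trans hK'
  have hK'11 : 1 ≤ K' := hBr.trans hK'B
  refine ⟨min (1 / 16) (sr / 32), lt_min (by norm_num) (by positivity), fun ε hε hε1 => ?_⟩
  have hε16 : ε ≤ 1 / 16 := hε1.trans (min_le_left _ _)
  have hεs : ε ≤ sr / 32 := hε1.trans (min_le_right _ _)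
  intro S g₀ P₀ θ P₂ θ₂ Eb e₂ c Pt rt L T G g hG hg hder
  refine ⟨fun _ => (), 1, fun _ => -1, fun _ => 1, fun _ _ => by norm_num, fun k₀ hQ μ hμ => ?_⟩
  rcases le_or_gt g 0 with hg0 | hg0
  · refine ⟨1, one_pos, ?_⟩
    intro q t x hq1 hx N A V Na Va S₁ hSS R
    exfalso
    have h1 := (abs_le.1 R.near).2
    have h3 := R.t0
    have h4 := mul_le_mul_of_nonneg_right hK'0 R.q0.le
    linarith
  refine ⟨min μ (g / (K₀ + K' + 3)), lt_min hμ (by positivity), ?_⟩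
  intro q t x hqq hx N A V Na Va S₁ hSS R hVa hl1 hl2 i j e₀ π₀ Ψ w p₁ p₂ eN uN pN pa₁ pa₂ ea ua pa
    hi hj hVi hVj hmar O
  have hq := R.q0
  have hqμ : q ≤ μ := hqq.le.trans (min_le_left _ _)
  have hqg : (K₀ + K' + 3) * q ≤ g := by
    have h1 := hqq.le.trans (min_le_right _ _)
    rw [le_div_iff₀ (by positivity)] at h1
    linarith
  have htK : 3 * q ≤ t - K' * q := by
    have h1 := (abs_le.1 R.near).1
    linarith
  have hεq : 0 ≤ ε * q := by positivity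
  have hεq1 : ε * q ≤ 1 / 16 * q := mul_le_mul_of_nonneg_right hε16 hq.le
  have hXq : min (1 / 2) (sr / 4) * q ≤ 1 / 2 * q :=
    mul_le_mul_of_nonneg_right (min_le_left _ _) hq.le
  have hX0 : 0 ≤ min (1 / 2) (sr / 4) := le_min (by norm_num) (by positivity)
  have hsq : sr * q ≤ 1 * q := mul_le_mul_of_nonneg_right hsr7 hq.le
  have hsqp : 0 < sr * q := by positivity
  have hC7 : C₀ * (sr * q + 6 * (sr * q)) ≤ q := by
    have h1 := mul_le_mul_of_nonneg_right hsrc hq.le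
    have e1 : C₀ * (7 * sr) * q = C₀ * (sr * q + 6 * (sr * q)) := by ring
    linarith
  have hhq : hh * q ≤ sr / 16 * q := mul_le_mul_of_nonneg_right hhh1 hq.le
  have hKq : 1 * q ≤ K' * q := mul_le_mul_of_nonneg_right hK'11 hq.le
  -- the static pair
  obtain ⟨pc, hp1, hp2, hns⟩ := nsq_recR R (by norm_num) (by linarith : (0 : ℝ) ≤ σ) hσ hκ hε.le
    (oW := 0) (y := 1) one_pos (Q := Q) (P := P) (by omega) (by linarith) (by
      rw [hB] at hK'B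
      push_cast at hK'B ⊢
      linarith)
  have H := lsn_all (R₀ := 1) (P := P) (Nx := 0) hM1 hK'B hK'11 (by omega) (Nat.zero_le _) hl1 hl2
  have e0 : -1 + ((1 : ℕ) : ℝ) = 0 := by norm_num
  rw [e0] at H
  have gr := grn_all (P := P) hM1 hp2
  have hpcr : ((Q + 1 : ℕ) : ℝ) ≤ ((pc + 1 : ℕ) : ℝ) := by
    have : Q + 1 ≤ pc + 1 := by omega
    exact_mod_cast this
  have hpmu : (σ + 1) * q ≤ mu * (((pc + 1 : ℕ) : ℝ) * q) := by
    have h1 := mul_le_mul_of_nonneg_left hpcr hmu.le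
    have h3 := mul_le_mul_of_nonneg_right (hQmu.trans h1) hq.le
    linarith
  have hXμ : min (1 / 2) (sr / 4) * q ≤ μ := by linarith
  have hns' := hns H gr (s₀ := sr * q) (Lm := mu * (((pc + 1 : ℕ) : ℝ) * q)) (z := q) (by linarith)
    (by
      have h1 := mul_le_mul_of_nonneg_right hPP hq.le
      have e1 : σ * (((Q + 1 : ℕ) : ℝ) * 1 * q) = σ * ((Q + 1 : ℕ) : ℝ) * q := by ring
      have e2 : (σ - Sl 2) * (((P + 1 : ℕ) : ℝ) * 1 * q) =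
        (σ - Sl 2) * ((P + 1 : ℕ) : ℝ) * q := by ring
      rw [e1, e2]
      have h3 : 0 ≤ σ * q := mul_nonneg (by linarith) hq.le
      linarith) (C := C₀) (s := sr * q) (η := hh) (X := min (1 / 2) (sr / 4)) hsqp.le hC7
    (by linarith) (by linarith) (by linarith)
  rw [hM'] at H gr hns' hρs
  refine hvoid R hε.le S1 hσ hκ H gr (hnod R (by norm_num) H D hDn) hρs (by omega) hK'P O hDb2 hhh
    hX0 le_rfl hVi le_rfl hXμ hμ.le (fun k hk => ?_) (s₀ := sr * q) (s := sr * q) (by positivity)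
    (by linarith) ?_ (by linarith) hsqp (mul_le_mul_of_nonneg_right hsrϰ hq.le)
    (mul_le_mul_of_nonneg_right hsrϰ hq.le) (by
      have h1 : C₀ * (sr * q + 4 * (sr * q)) ≤ C₀ * (sr * q + 6 * (sr * q)) :=
        mul_le_mul_of_nonneg_left (by linarith) hC₀r
      linarith) hns'
  · obtain ⟨m1, m2, m3, m4, m5, m6⟩ := hmar k hk
    have h3 : L (2 + 1) (t + Va k * q) (t + Va k * q) = L 3 (t + Va k * q) (t + Va k * q) := rfl
    rw [h3] at m1 m4 m5 m6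
    exact ⟨by linarith, by linarith, by linarith⟩
  · have h1 : min (1 / 2) (sr / 4) ≤ sr / 4 := min_le_right _ _
    exact mul_le_mul_of_nonneg_right (by linarith) hq.le

/-- **Small rate, a static target whose slope is no integer**, larger than the slope of `u`: void. -/
theorem partB_nint {κ : ℕ → Kg} (k3 : κ 3 = .sta) :
    PartB κ (fun Sl => Sl 1 = 1 ∧ (∀ b : ℕ, Sl 3 ≠ b) ∧ 2 ≤ Sl 3 ∧ Sl 2 < Sl 3)
      (fun _ => AdmL 4) (fun Sl => Sl 3 * Real.log 2) := by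
  refine ⟨Unit ⊕ (Unit ⊕ Unit), inferInstance, sumQ (ChUQ : PropG 4 Unit) (sumQ
    (ChUQ : PropG 4 Unit) (AttUQ : PropG 4 Unit)), ?_, ?_, ?_⟩
  · exact aePG_sum (Pool.V0F.aePG_chU 4) (Pool.V0F.her_chU 4) (aePG_sum (Pool.V0F.aePG_chU 4)
      (Pool.V0F.her_chU 4) (Pool.V0F.aePG_attU 4))
  · exact her_sum (Pool.V0F.her_chU 4) (her_sum (Pool.V0F.her_chU 4) (Pool.V0F.her_attU 4))
  intro h h0 h1 Sl hS b D
  obtain ⟨S1, hni, h2, hc⟩ := hS
  have hb := b.2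
  have hs : 0 < Sl 3 := by linarith
  obtain ⟨hb', hb0, hb1, h3⟩ := Pool.STB65.hb_ex hs (β := Sl 3 * Real.log 2 - b) (by linarith)
  exact voidZ_B (r := 2) (by norm_num) hb0 hb1 h3 hs (vmV_ni S1 hni h2 k3 hc)

/-- **The field `tB1` of `ShA`**: `u` thin, small rate, `a < b`. -/
theorem shA_tB1 : PartB (kg4 .one .one .thin .sta) (fun Sl => NAt Sl ∧ Sl 2 < Sl 3)
    (fun _ => AdmL 4) (fun Sl => Sl 3 * Real.log 2) :=
  shA_tB1_of (Pool.STB65.partB_mono (partB_nint rfl) fun Sl hS =>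
    ⟨hS.1.2.1, hS.2.1, hS.1.2.2.2, by linarith [hS.2.2]⟩)

end Pool.STB98B
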