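import Pool.Agent.H65.STB.Vbx
import Pool.Agent.H77.STB.Vbp
import Pool.Agent.H98.STB.Vb

/-!
# The event of the class theorem of case (B)

`FrN`: the natural numbers of the frame. `vb_event`: the event of `vb_void` from the labels `N1O` on
a part of each event, the frame and the numbers.
-/

set_option autoImplicit false

namespace Pool.STB

open Finset Real MvPolynomial
open Pool.Agent.H49.Ent Pool.Agent.H32.Dense Pool.STK Pool.KA Pool.KSAT Pool.K2S Pool.PB Pool.S6C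
open Pool.GEN Pool.CHT Pool.CHX Pool.NVX
open Pool.STB82 (yv yp hgP)
open Pool.STB77 (Inc cos VbP vbe_pos')
open Pool.STB65 (InpP InpF N1O VbX vbe_tgt)
open Pool.ALT (Fml)

variable {m : ℕ}

/-- **The natural numbers of the frame**: windows `W + k + i k`, balls `jb i` below them and `ji i`
below their ends; `s`, `v`, `y₀`, `X`, `e` the losses of the labels. -/
structure FrN (J n N : ℕ) (C₁ : ℕ) (b W k y x g₃ e₁' e₁ st lz s v y₀ e X : ℕ) (A ee : ℕ → ℕ)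
    (g : ℕ → ℕ → ℕ) (jb ji : ℕ → ℕ) (w ε : ℝ) : Prop where
  Ww : (W : ℝ) ≤ w * J
  es : s + e ≤ e₁'
  jb0 : ∀ i < n, jb i ≤ N ∧ A (jb i) ≤ W + k + i * k ∧ W + k + i * k ≤ A (jb i) + v ∧
    A (jb i) ≤ g (jb i) 0 + s ∧ ee (jb i) ≤ e₁ + 1
  ji0 : ∀ i < n, ji i ≤ N ∧ A (ji i) ≤ W + (k + i * k + k) ∧ W + (k + i * k + k) ≤ y + A (ji i)
  Cs : C₁ * (s + v + 1) ≤ st
  sy : ((s : ℝ) + 1) * Real.log 2 + ε * J ≤ y * Real.log 2
  J1 : g 0 1 + e₁' + 1 + k + n * k ≤ J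
  J2 : W + k + n * k ≤ J
  yy : y₀ ≤ y
  lz0 : ∀ l < 2, X + nlp (fun j => if j < 3 then g 0 j else g₃) l 3 ≤ lz
  nl : ∀ i < n, ∀ l < 3, X + nlp (fun j => if j < 3 then g 0 j else g₃) l 3 + 1 ≤
    e₁ + nlp (fun j => if j < 3 then g (jb i) j else g₃ + b * (k + i * k) + x) l 3

/-- **The data of the event** from the labels at the balls. -/
noncomputable def vbt {J : ℕ} (F : Fam m J) (c : ℕ → Fin m) (W k y x g₃ e₁' e₁ e₂ st lz : ℕ)
    (A : ℕ → ℕ) (g : ℕ → ℕ → ℕ) (jb ji : ℕ → ℕ)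
    (Gn : ℕ → PtT F → ℕ → MvPolynomial (Option (Fin m)) ℝ)
    (Hn : ℕ → LnT F → ℕ → MvPolynomial (Option (Fin m)) ℝ)
    (pP : PtT F → ℕ → MvPolynomial (Option (Fin m)) ℝ)
    (pH : LnT F → ℕ → MvPolynomial (Option (Fin m)) ℝ)
    (zP : PtT F → MvPolynomial (Option (Fin m)) ℝ)
    (zH : LnT F → MvPolynomial (Option (Fin m)) ℝ) (f : ℕ → PtT F → Po) (f' : ℕ → LnT F → Po)
    (kf : LnT F → Po) : VbT F where
  W₀ := W
  k := k
  y := y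
  x := x
  g1 := g 0 1
  g₃ := g₃
  e₁' := e₁'
  e₁ := e₁
  e₂ := e₂
  s := st
  lz := lz
  Pv := fun y => pP y 1
  Pl := fun S => pH S 1
  yt := yp F c W (g 0 1) (fun y => pP y 1)
  e := fun j => A j - W
  ji := ji
  f := f
  f' := f'
  kf := kf
  zP := zP
  zH := zH
  gc := fun i => g (jb i)
  Gc := fun i => Gn (jb i)
  Hc := fun i S => Hn (jb i) (cos F (A (jb i)) (W + k + i * k) S)

/-- **The event of `vb_void`.** -/
theorem vb_event (D' : ℕ) : ∃ C₁ : ℕ, ∀ {K K₀ n N b : ℕ} (_ : D' ≤ K) (_ : K₀ ≤ K + 1)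
    {S : PCl m} (_ : TmH S) (_ : S.Ne) {c : ℕ → Fin m} {Ψ : Fml m} {wn w ε K₁ : ℝ} (_ : 0 < ε)
    (_ : w < 1) (_ : 0 < K₁)
    (_ : ∀ (J : ℕ) (F : Fam m J) (A B : F.Ω → Prop) (V : Type) (z : PtT F → V)
      (z' : LnT F → V) (G : V → MvPolynomial (Option (Fin m)) ℝ), Sub B A →
      Ψ J F A V z z' G → Ψ J F B V z z' G)
    (_ : ∀ (J : ℕ) (F : Fam m J) (A : F.Ω → Prop) (V : Type) (z : PtT F → V) (z' : LnT F → V)
      (G : V → MvPolynomial (Option (Fin m)) ℝ), Ψ J F A V z z' G →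
      (∀ v, (G v).totalDegree ≤ K) ∧ (∀ v, DepC c 3 (G v)) ∧
      ∀ ω, A ω → z (ptr F J ω) = z' (slam F ⌊wn * J⌋₊ ω))
    (_ : Bas S (fun J F A => ∃ (V : Type) (z : PtT F → V) (z' : LnT F → V)
      (G : V → MvPolynomial (Option (Fin m)) ℝ), Ψ J F A V z z' G))
    {W k y x g₃ e₁' e₁ e₂ st lz s v y₀ e X : ℕ → ℕ} {A ee : ℕ → ℕ → ℕ} {g : ℕ → ℕ → ℕ → ℕ}
    {jb ji : ℕ → ℕ}
    (_ : Bas S (fun J F A' => ∀ (V : Type) (z : PtT F → V) (z' : LnT F → V)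
        (G : V → MvPolynomial (Option (Fin m)) ℝ), Ψ J F A' V z z' G →
        ∃ (B : F.Ω → Prop) (Gn : ℕ → PtT F → ℕ → MvPolynomial (Option (Fin m)) ℝ)
          (Hn : ℕ → LnT F → ℕ → MvPolynomial (Option (Fin m)) ℝ)
          (pP : PtT F → ℕ → MvPolynomial (Option (Fin m)) ℝ)
          (pH : LnT F → ℕ → MvPolynomial (Option (Fin m)) ℝ) (xP : PtT F → ℝ) (xH : LnT F → ℝ)
          (zP : PtT F → MvPolynomial (Option (Fin m)) ℝ)
          (zH : LnT F → MvPolynomial (Option (Fin m)) ℝ) (f : ℕ → PtT F → Po)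
          (f' : ℕ → LnT F → Po) (kf : LnT F → Po) (gS : ℕ), Sub B A' ∧
          Pe F.p A' ≤ K₁ * Pe F.p B ∧
          N1O F c D' K₀ b N (W J) (s J) (v J) (y₀ J) (e J) (X J) (g₃ J) gS (A J) (ee J) (g J) B
            Gn Hn pP pH xP xH (fun y => G (z y)) zP zH f f' kf))
    {J₀ : ℕ} (_ : ∀ J ≥ J₀, FrN J n N C₁ b (W J) (k J) (y J) (x J) (g₃ J) (e₁' J) (e₁ J) (st J)
      (lz J) (s J) (v J) (y₀ J) (e J) (X J) (A J) (ee J) (g J) jb ji w ε),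
    Bas S (fun J F A' => ∃ (V : Type) (z : PtT F → V) (z' : LnT F → V)
        (G : V → MvPolynomial (Option (Fin m)) ℝ), Ψ J F A' V z z' G ∧
        ∃ B : F.Ω → Prop, Sub B A' ∧ 1 / (4 * K₁) * Pe F.p A' ≤ Pe F.p B ∧ ∃ t : VbT F,
          VbE F c B K n N b ⌊wn * J⌋₊ z z' G t ∧
          ∃ Gn Hn pP pH zP zH f f' kf, t = vbt F c (W J) (k J) (y J) (x J) (g₃ J) (e₁' J) (e₁ J)
            (e₂ J) (st J) (lz J) (A J) (g J) jb ji Gn Hn pP pH zP zH f f' kf) := by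
  obtain ⟨C₁, hpos⟩ := vbe_pos' D'
  refine ⟨C₁, ?_⟩
  intro K K₀ n N b hDK hK₀ S hS hne c Ψ wn w ε K₁ hε hw hK₁ Ψs Ψc hex W k y x g₃ e₁' e₁ e₂ st lz s v
    y₀ e X A ee g jb ji hN1 J₀ hfr
  refine Bas.mono J₀ ((hex.and hN1).and (hpos hS K hDK K₁ hε hw)) ?_
  rintro J hJ F A' ⟨⟨⟨V, z, z', G, hΨ⟩, hN⟩, hP⟩
  have H := hfr J hJ
  obtain ⟨B, Gn, Hn, pP, pH, xP, xH, zP, zH, f, f', kf, gS, hBA, hPB, O⟩ := hN V z z' G hΨ
  obtain ⟨t, ht⟩ : ∃ t, t = vbt F c (W J) (k J) (y J) (x J) (g₃ J) (e₁' J) (e₁ J)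
            (e₂ J) (st J) (lz J) (A J) (g J) jb ji Gn Hn pP pH zP zH f f' kf := ⟨_, rfl⟩
  have hO : N1O F c D' K₀ b N t.W₀ (s J) (v J) (y₀ J) (e J) (X J) t.g₃ gS (A J) (ee J) (g J) B
            Gn Hn pP pH xP xH (fun y => G (z y)) t.zP t.zH t.f t.f' t.kf := by
    rw [ht]
    exact O
  obtain ⟨B', hB', hPB', hP0, VP⟩ := hP B c N (W J) (s J) (v J) n (A J) (ee J) (g J) Gn Hn pP pH jb
    t hBA hPB O.inc O.Ns H.Ww (fun ω hω b hb1 hb2 => by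
      rw [ht]
      exact (O.pg ω hω b hb1 hb2).trans (pow_le_pow_right₀ one_le_two H.es))
    (by rw [ht]; rfl) (by rw [ht]; rfl) (by rw [ht]; rfl) (by rw [ht]; rfl) (by rw [ht]; rfl)
    (by rw [ht]; exact H.jb0) (by rw [ht]; exact fun i hi => ⟨rfl, rfl, rfl⟩)
    (by rw [ht]; exact H.Cs) (by rw [ht]; exact H.sy) (by rw [ht]; exact H.J1)
    (by rw [ht]; exact H.J2)
  have VX : VbX F c B' K n N b ⌊wn * J⌋₊ z z' G t := by
    refine vbe_tgt (hO.sub hB') (by rw [ht]; rfl) (by rw [ht]; rfl) (by rw [ht]; rfl)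
      (by rw [ht]; exact H.yy) hK₀ hDK (fun ω _ => (Ψc J F A' V z z' G hΨ).1 _)
      (fun ω _ => (Ψc J F A' V z z' G hΨ).2.1 _)
      (fun ω hω => (Ψc J F A' V z z' G hΨ).2.2 ω (hBA ω (hB' ω hω))) jb (fun i hi => ?_)
      (by rw [ht]; exact H.ji0) (by rw [ht]; exact H.lz0) (fun i hi l hl => ?_)
    · rw [ht]
      obtain ⟨h1, h2, -⟩ := H.jb0 i hi
      exact ⟨h1, h2, rfl, rfl⟩
    · rw [ht]
      exact H.nl i hi l hl
  refine ⟨V, z, z', G, hΨ, B', fun ω hω => hBA ω (hB' ω hω), ?_, t, ?_, Gn, Hn, pP, pH, zP, zH, f,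
    f', kf, ht⟩
  · rw [div_mul_eq_mul_div, one_mul, div_le_iff₀ (by positivity)]
    nlinarith
  · exact
      { iP := VP.iP
        iF := VX.iF
        hji := VX.hji
        zc := VX.zc
        Gd := VX.Gd
        Gp := VX.Gp
        zd := VX.zd
        zp := VX.zp
        zcl := VX.zcl
        val := VX.val
        Pd := VP.Pd
        Pp := VP.Pp
        Pc := VP.Pc
        Pg := VP.Pg
        lz := VX.lz
        ch := VP.ch
        hx0 := VP.hx0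
        hx1 := VP.hx1
        hlT := VX.hlT }

end Pool.STB
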