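import Pool.Agent.H98.STB.Ree

/-!
# Nonfullness of the target in a window, from the jets

`winn_of`: the readings of the exact position and of the target in the class theorem `winN_cls`, from
the positions and the jets in closed coordinates, for a label `G` of the target.
-/

set_option autoImplicit false

namespace Pool.STB

open Finset Real MvPolynomial
open Pool.Agent.H49.Ent Pool.Agent.H32.Dense Pool.STK Pool.KA Pool.KSAT Pool.K2S Pool.PB Pool.S6C
open Pool.GEN Pool.CHT Pool.CHX Pool.D2F Pool.D2Con Pool.D2A Pool.RCD Pool.VIS24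
open Pool.STB82 (yv WinN)
open Pool.ALT (xa)
open Pool.STB65 (PosO JetO nu Rs Rs_pos nu_pos)
open Pool.PB.Trl (rt rt_mem t_rt)

/-- The mean value theorem, by coordinates. -/
theorem mv_pd {σ : Type} [Fintype σ] (P : MvPolynomial σ ℝ) (x x' : σ → ℝ) {M : σ → ℝ}
    (h : ∀ t ∈ Set.Icc (0 : ℝ) 1, ∀ o, |eval (fun o => x o + t * (x' o - x o)) (pderiv o P)| *
      |x' o - x o| ≤ M o) : |eval x' P - eval x P| ≤ ∑ o, M o := by
  classical
  obtain ⟨g, hg⟩ : ∃ g : σ → Polynomial ℝ, g = fun o =>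
      Polynomial.C (x o) + Polynomial.C (x' o - x o) * Polynomial.X := ⟨_, rfl⟩
  have hge : ∀ (Q : MvPolynomial σ ℝ) (t : ℝ), (aeval g Q).eval t =
      eval (fun o => x o + t * (x' o - x o)) Q := by
    intro Q t
    rw [Pool.KBX.eval_aeval_poly]
    congr 2
    funext j
    rw [hg]
    simp only [Polynomial.eval_add, Polynomial.eval_mul, Polynomial.eval_C, Polynomial.eval_X]
    ring
  obtain ⟨c, hc, h1⟩ := exists_hasDerivAt_eq_slope (fun t => (aeval g P).eval t)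
    (fun t => (Polynomial.derivative (aeval g P)).eval t) (show (0 : ℝ) < 1 by norm_num)
    (Polynomial.continuous _).continuousOn (fun t _ => Polynomial.hasDerivAt _ t)
  have e1 : (aeval g P).eval 1 = eval x' P := by
    rw [hge]
    congr 2
    funext o
    ring
  have e0 : (aeval g P).eval 0 = eval x P := by
    rw [hge]
    congr 2
    funext o
    ring
  rw [e1, e0, sub_zero, div_one] at h1
  rw [← h1, der_aevalσ, Polynomial.eval_finsetSum]
  refine (Finset.abs_sum_le_sum_abs _ _).trans (Finset.sum_le_sum fun o _ => ?_)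
  rw [Polynomial.eval_mul, hge]
  have e2 : (Polynomial.derivative (g o)).eval c = x' o - x o := by
    rw [hg]
    simp only [Polynomial.derivative_add, Polynomial.derivative_C, Polynomial.derivative_mul,
      Polynomial.derivative_X, Polynomial.eval_add, Polynomial.eval_mul, Polynomial.eval_C,
      Polynomial.eval_zero, Polynomial.eval_one, Polynomial.eval_X]
    ring
  rw [e2, abs_mul]
  exact h c ⟨hc.1.le, hc.2.le⟩ o

/-- Positions with the same digits. -/
theorem x_near {m J : ℕ} (F : Fam m J) {ω ω' : F.Ω} {κ : Fin m} (h : F.X J ω κ = F.X J ω' κ) :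
    |F.x ω κ - F.x ω' κ| ≤ 1 / 2 ^ J := by
  have h1 : ⌊(2 : ℝ) ^ J * F.x ω κ⌋ = ⌊(2 : ℝ) ^ J * F.x ω' κ⌋ := h
  have h2 := Int.abs_sub_lt_one_of_floor_eq_floor h1
  rw [← mul_sub, abs_mul, abs_of_pos (by positivity)] at h2
  rw [le_div_iff₀ (by positivity)]
  linarith

/-- The variation of a polynomial over the two first coordinates. -/
theorem dep_near {m J : ℕ} (F : Fam m J) {c : ℕ → Fin m} {ω ω' : F.Ω} (hW : F.W ω = F.W ω') (h0 : F.X J ω (c 0) = F.X J ω' (c 0))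
    (h1 : F.X J ω (c 1) = F.X J ω' (c 1)) {P : MvPolynomial (Option (Fin m)) ℝ} {i : ℕ} (hi : i ≤ 2)
    (hP : DepC c i P) {L : ℝ}
    (hL : ∀ b : Option (Fin m) → ℝ, b none = F.t ω → (∀ l < 2, |b (some (c l)) - F.x ω (c l)| ≤
      1 / 2 ^ J) → ∀ l < i, |eval b (pderiv (some (c l)) P)| ≤ L) :
    |eval (bt F ω) P - eval (bt F ω') P| ≤ i * (L / 2 ^ J) := by
  classical
  have ht : F.t ω = F.t ω' := by
    have h3 : F.T ω = F.T ω' := congrArg Prod.fst hW
    show (F.T ω : ℝ) / 2 ^ J = (F.T ω' : ℝ) / 2 ^ J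
    rw [h3]
  -- the point with the coordinates of the second sample
  obtain ⟨x', hx'⟩ : ∃ x' : Option (Fin m) → ℝ, x' = fun o => if ∃ l < i, o = some (c l) then
      bt F ω' o else bt F ω o := ⟨_, rfl⟩
  have e1 : eval (bt F ω') P = eval x' P := by
    refine hP _ _ ?_ fun l hl => ?_
    · rw [hx']
      simp only
      rw [if_neg (by rintro ⟨l, _, h⟩; exact absurd h (by simp))]
      exact ht.symm
    · rw [hx']
      simp only
      rw [if_pos ⟨l, hl, rfl⟩]
  have hd : ∀ l < 2, |F.x ω' (c l) - F.x ω (c l)| ≤ 1 / 2 ^ J := by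
    intro l hl
    rw [abs_sub_comm]
    interval_cases l
    · exact x_near F h0
    · exact x_near F h1
  have hL0 : ∀ l < i, 0 ≤ L := fun l hl =>
    (abs_nonneg _).trans (hL (bt F ω) rfl (fun l' _ => by
      show |F.x ω (c l') - F.x ω (c l')| ≤ _
      rw [sub_self, abs_zero]
      positivity) l hl)
  rw [abs_sub_comm, e1]
  refine (mv_pd P (bt F ω) x' (M := fun o => if ∃ l < i, o = some (c l) then L / 2 ^ J else 0)
    ?_).trans ?_
  · intro t ht' o
    split_ifs with ho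
    · obtain ⟨l, hl, rfl⟩ := ho
      have a1 : |x' (some (c l)) - bt F ω (some (c l))| ≤ 1 / 2 ^ J := by
        rw [hx']
        simp only
        rw [if_pos ⟨l, hl, rfl⟩]
        exact hd l (by omega)
      have a2 : |eval (fun o => bt F ω o + t * (x' o - bt F ω o)) (pderiv (some (c l)) P)| ≤ L := by
        refine hL _ ?_ ?_ l hl
        · rw [hx']
          simp only
          rw [if_neg (by rintro ⟨l, _, h⟩; exact absurd h (by simp)), sub_self, mul_zero, add_zero]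
          rfl
        · intro l' hl'
          have a3 : |x' (some (c l')) - bt F ω (some (c l'))| ≤ 1 / 2 ^ J := by
            rw [hx']
            simp only
            split_ifs
            · exact hd l' hl'
            · rw [sub_self, abs_zero]
              positivity
          have e2 : bt F ω (some (c l')) + t * (x' (some (c l')) - bt F ω (some (c l'))) -
              F.x ω (c l') = t * (x' (some (c l')) - bt F ω (some (c l'))) := by
            show F.x ω (c l') + _ - F.x ω (c l') = _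
            ring
          rw [e2, abs_mul, abs_of_nonneg ht'.1]
          have := abs_nonneg (x' (some (c l')) - bt F ω (some (c l')))
          nlinarith [ht'.1, ht'.2]
      calc _ ≤ L * (1 / 2 ^ J) := mul_le_mul a2 a1 (abs_nonneg _) (hL0 l hl)
        _ = L / 2 ^ J := by ring
    · have e3 : x' o - bt F ω o = 0 := by
        rw [hx']
        simp only
        rw [if_neg ho, sub_self]
      rw [e3, abs_zero, mul_zero]
  · rw [← Finset.sum_filter, Finset.sum_const, nsmul_eq_mul]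
    rcases Nat.eq_zero_or_pos i with h | h
    · subst h
      simp
    · have hLn : 0 ≤ L / 2 ^ J := div_nonneg (hL0 0 h) (by positivity)
      refine mul_le_mul_of_nonneg_right ?_ hLn
      have hsub : (Finset.univ.filter fun o : Option (Fin m) => ∃ l < i, o = some (c l)) ⊆
          (Finset.range i).image fun l => some (c l) := by
        intro o ho
        rw [Finset.mem_filter] at ho
        obtain ⟨l, hl, rfl⟩ := ho.2
        exact Finset.mem_image_of_mem _ (Finset.mem_range.2 hl)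
      have h5 := (Finset.card_le_card hsub).trans Finset.card_image_le
      rw [Finset.card_range] at h5
      exact_mod_cast h5

/-- **Nonfullness of the target in a window**, from the jets: `G` the label, `pz` a closed polynomial
over the two first coordinates. -/
theorem winn_of {m J : ℕ} {F : Fam m J} {B : F.Ω → Prop} {c : ℕ → Fin m}
    {W₀ d k n b g1 g₃ e₁' : ℕ}
    {σ κ Kp Kc Gr Ev : ℝ} {Pv : PtT F → MvPolynomial (Option (Fin m)) ℝ}
    {Pl : LnT F → MvPolynomial (Option (Fin m)) ℝ}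
    {hp : LnT F → Fin 3 → Polynomial ℝ} {ctr xo : ℕ → F.Ω → V3} {D₁ : LnT F → V3}
    {f : ℕ → PtT F → Po} {ji : ℕ → ℕ} {Jo Ci : ℕ → F.Ω → Po} {Φ₁ : LnT F → Po}
    (O : PosO F B W₀ d k n σ Kp (yv F c W₀ g1 Pl) hp ctr xo D₁)
    (Jt : JetO F B W₀ d k n b σ κ Kc Gr (yv F c W₀ g1 Pl) f ji ctr xo Jo Ci Φ₁)
    {i : ℕ} (hi : i < n) (hJ : W₀ + d + i * k + k ≤ J) (hσ : 0 < σ) (hκ : 0 < κ) (hGr : 0 ≤ Gr)
    (hKc : 0 ≤ Kc) (hEv : 0 ≤ Ev)
    (hPp : ∀ y, DepC c 1 (Pv y)) (hWg : W₀ ≤ g1 + e₁')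
    (hPc : ∀ ω, B ω → Pv (ptr F J ω) = Pl (slam F W₀ ω))
    (hPl : ∀ ω, B ω → ∀ b : Option (Fin m) → ℝ, |b none - F.t ω| ≤ 1 / 2 ^ W₀ →
      |b (some (c 0)) - F.x ω (c 0)| ≤ 1 / 2 ^ W₀ →
      |eval b (pderiv (some (c 0)) (Pv (ptr F J ω)))| ≤ 2 ^ e₁')
    {V : Type} {z : PtT F → V} {z' : LnT F → V} {G : V → MvPolynomial (Option (Fin m)) ℝ} {Wn : ℕ}
    (hWn : Wn ≤ W₀ + d + i * k) (hz : ∀ ω, B ω → z (ptr F J ω) = z' (slam F Wn ω))
    {pz : F.Ω → MvPolynomial (Option (Fin m)) ℝ} {Lz : ℝ}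
    (cz : Cl2 (slam F (W₀ + d + i * k)) (fun ω => ptr F J ω) B pz)
    (pz2 : ∀ ω, B ω → DepC c 2 (pz ω)) (hLz0 : 0 ≤ Lz)
    (hLz : ∀ ω, B ω → ∀ b : Option (Fin m) → ℝ, b none = F.t ω →
      (∀ l < 2, |b (some (c l)) - F.x ω (c l)| ≤ 1 / 2 ^ J) → ∀ l < 2,
        |eval b (pderiv (some (c l)) (pz ω))| ≤ Lz)
    (hT : ∀ ω, B ω → |eval (yv F c W₀ g1 Pl ω) (f (ji i) (ptr F J ω)) -
      2 ^ g₃ * (F.x ω (c 3) - (eval (bt F ω) (G (z' (slam F Wn ω))) + eval (bt F ω) (pz ω)))| ≤ Ev)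
    {s₁ s₂ δ R₁ e h R μ E E' DT D₁' : ℝ}
    (hμ : μ = 2 ^ k * (2 ^ g₃ / nu κ (Rs d k σ i) b))
    (hE : E = Kc + 2 ^ k * (Ev / nu κ (Rs d k σ i) b))
    (hE' : E' = 2 ^ k / nu κ (Rs d k σ i) b * (2 ^ g₃ * (2 * Lz) + 3 * Gr * 2 ^ (g1 + e₁' + 1)) /
      2 ^ J)
    (hDT : DT = 5 * σ * 2 ^ J / 2 ^ (W₀ + d + i * k + k))
    (hD₁ : D₁' = 5 * σ * 2 ^ J / 2 ^ (g1 + d + i * k + k) + 2 ^ e₁' + 1)
    (HW : ∀ (xo : F.Ω → V3) (Jo : F.Ω → Po) (Y₀ : Type) (y₀ : F.Ω → Y₀) (DT D₀ D₁ E₁ E₂ : ℝ),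
      Cl2 (slam F (W₀ + d + i * k + k)) (fun ω => ptr F J ω) B xo →
      Cl2 (slam F (W₀ + d + i * k + k)) (fun ω => ptr F J ω) B Jo →
      Cl2 (slam F (W₀ + d + i * k)) (fun ω => ptr F J ω) B y₀ → 0 ≤ DT → 0 ≤ D₀ → 0 ≤ D₁ →
      0 ≤ E₁ → 0 ≤ E₂ →
      PosR F B k (c 0) (c 1) xo y₀ DT D₀ D₁ →
      ValR F B k (c 0) (c 1) xo Jo y₀ (xa F (c 3) z' Wn G s₁) (xa F (c 3) z' Wn G s₂) E₁ E₂ →
      Real.log (E₁ + 1) + Real.log (E₂ + 1) ≤ δ * J →
      Real.log (DT + 1) + Real.log (D₀ + 1) + Real.log (D₁ + 1) ≤ R₁ →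
      WinN F B (W₀ + d + i * k) k xo Jo e h R)
    (n1 : Real.log (2 ^ (s₁ * J) / μ * (2 * Kc * 2 ^ k + 2 * E + E') + 1 + 1) +
      Real.log (μ / 2 ^ (s₂ * J) + 2 * E + E' + 1 + 1) ≤ δ * J)
    (n2 : Real.log (DT + 1) + Real.log (DT + 1 + 1) + Real.log (D₁' + 1) ≤ R₁) :
    WinN F B (W₀ + d + i * k) k (xo i) (Jo i) e h R := by
  classical
  have hW : W₀ ≤ J := by omega
  have hWi : W₀ + d + i * k ≤ J := by omega
  obtain ⟨Rr, hRd⟩ : ∃ Rr, Rr = Rs d k σ i := ⟨_, rfl⟩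
  have hRr : 0 < Rr := hRd ▸ Rs_pos hσ i
  obtain ⟨ν, hν⟩ : ∃ ν, ν = nu κ Rr b := ⟨_, rfl⟩
  have hν0 : 0 < ν := by rw [hν]; exact nu_pos hκ hRr b
  rw [← hRd, ← hν] at hμ hE hE'
  have hJp : (0 : ℝ) < 2 ^ J := by positivity
  have hμ0 : 0 < μ := by rw [hμ]; positivity
  have hE0 : 0 ≤ E := by rw [hE]; positivity
  have hE0' : 0 ≤ E' := by rw [hE']; positivity
  have hDT0 : 0 ≤ DT := by rw [hDT]; positivity
  have hD10 : 0 ≤ D₁' := by rw [hD₁]; positivity
  -- the codes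
  have hcs : ∀ ω, Pool.STB77.cos F W₀ (W₀ + d + i * k) (slam F (W₀ + d + i * k) ω) = slam F W₀ ω :=
    fun ω => Pool.STB77.cos_slam F (by omega) hWi ω
  have hcn : ∀ ω, Pool.STB77.cos F Wn (W₀ + d + i * k) (slam F (W₀ + d + i * k) ω) = slam F Wn ω :=
    fun ω => Pool.STB77.cos_slam F hWn hWi ω
  have cτ : Cl2 (slam F (W₀ + d + i * k)) (fun ω => ptr F J ω) B (fun ω => (slam F W₀ ω).2.2) := by
    refine ⟨⟨fun S => (Pool.STB77.cos F W₀ (W₀ + d + i * k) S).2.2, fun ω _ => ?_⟩,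
      fun y => y.2.1 / 2 ^ (J - W₀), fun ω _ => rfl⟩
    show _ = (Pool.STB77.cos F W₀ (W₀ + d + i * k) (slam F (W₀ + d + i * k) ω)).2.2
    rw [hcs ω]
  have cP : Cl2 (slam F (W₀ + d + i * k)) (fun ω => ptr F J ω) B (fun ω => Pv (ptr F J ω)) := by
    refine ⟨⟨fun S => Pl (Pool.STB77.cos F W₀ (W₀ + d + i * k) S), fun ω hω => ?_⟩,
      fun y => Pv y, fun ω _ => rfl⟩
    show _ = Pl (Pool.STB77.cos F W₀ (W₀ + d + i * k) (slam F (W₀ + d + i * k) ω))
    rw [hcs ω]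
    exact hPc ω hω
  have cG : Cl2 (slam F (W₀ + d + i * k)) (fun ω => ptr F J ω) B (fun ω => z (ptr F J ω)) := by
    refine ⟨⟨fun S => z' (Pool.STB77.cos F Wn (W₀ + d + i * k) S), fun ω hω => ?_⟩,
      fun y => z y, fun ω _ => rfl⟩
    show _ = z' (Pool.STB77.cos F Wn (W₀ + d + i * k) (slam F (W₀ + d + i * k) ω))
    rw [hcn ω]
    exact hz ω hω
  have cA := (cτ.join cP).join (((O.cc i hi).join (Jt.cC i hi)).join (cG.join cz))
  obtain ⟨y₀, hy₀⟩ : ∃ y₀ : F.Ω → ((ℕ × MvPolynomial (Option (Fin m)) ℝ) ×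
      ((V3 × Po) × (V × MvPolynomial (Option (Fin m)) ℝ))), y₀ = fun ω =>
      (((slam F W₀ ω).2.2, Pv (ptr F J ω)), ((ctr i ω, Ci i ω), (z (ptr F J ω), pz ω))) := ⟨_, rfl⟩
  have hye : ∀ ω ω', y₀ ω = y₀ ω' → (slam F W₀ ω).2.2 = (slam F W₀ ω').2.2 ∧
      Pv (ptr F J ω) = Pv (ptr F J ω') ∧ ctr i ω = ctr i ω' ∧ Ci i ω = Ci i ω' ∧
      z (ptr F J ω) = z (ptr F J ω') ∧ pz ω = pz ω' := by
    intro ω ω' h
    rw [hy₀] at h
    simp only [Prod.mk.injEq] at h
    exact ⟨h.1.1, h.1.2, h.2.1.1, h.2.1.2, h.2.2.1, h.2.2.2⟩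
  -- the polynomial of the chart
  have hPn : ∀ ω ω', B ω → B ω' → y₀ ω = y₀ ω' → F.W ω = F.W ω' →
      F.X J ω (c 0) = F.X J ω' (c 0) →
      |eval (bt F ω) (Pl (slam F W₀ ω)) - eval (bt F ω') (Pl (slam F W₀ ω'))| ≤ 2 ^ e₁' / 2 ^ J := by
    intro ω ω' hω hω' hy hWW h0
    obtain ⟨-, q2, -⟩ := hye ω ω' hy
    rw [← hPc ω hω, ← hPc ω' hω', ← q2]
    -- only the first coordinate matters
    have ht : F.t ω = F.t ω' := by
      have h3 : F.T ω = F.T ω' := congrArg Prod.fst hWW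
      show (F.T ω : ℝ) / 2 ^ J = (F.T ω' : ℝ) / 2 ^ J
      rw [h3]
    obtain ⟨x', hx'⟩ : ∃ x' : Option (Fin m) → ℝ, x' = fun o => if o = some (c 0) then
      bt F ω' o else bt F ω o := ⟨_, rfl⟩
    have e1 : eval (bt F ω') (Pv (ptr F J ω)) = eval x' (Pv (ptr F J ω)) := by
      refine hPp _ _ _ ?_ fun l hl => ?_
      · rw [hx']
        simp only
        rw [if_neg (by simp)]
        exact ht.symm
      · rw [hx']
        simp only
        have : l = 0 := by omega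
        subst this
        rw [if_pos rfl]
    have hd : |F.x ω' (c 0) - F.x ω (c 0)| ≤ 1 / 2 ^ J := by
      rw [abs_sub_comm]
      exact x_near F h0
    have hJW : (1 : ℝ) / 2 ^ J ≤ 1 / 2 ^ W₀ :=
      one_div_le_one_div_of_le (by positivity) (pow_le_pow_right₀ one_le_two hW)
    rw [abs_sub_comm, e1]
    refine (mv_pd (Pv (ptr F J ω)) (bt F ω) x' (M := fun o => if o = some (c 0) then
      2 ^ e₁' / 2 ^ J else 0) ?_).trans (le_of_eq ?_)
    · intro t ht' o
      split_ifs with ho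
      · subst ho
        have a1 : |x' (some (c 0)) - bt F ω (some (c 0))| ≤ 1 / 2 ^ J := by
          rw [hx']
          show |(if some (c 0) = some (c 0) then bt F ω' (some (c 0)) else bt F ω (some (c 0))) -
            bt F ω (some (c 0))| ≤ _
          rw [if_pos rfl]
          exact hd
        have a2 : |eval (fun o => bt F ω o + t * (x' o - bt F ω o))
            (pderiv (some (c 0)) (Pv (ptr F J ω)))| ≤ 2 ^ e₁' := by
          refine hPl ω hω _ ?_ ?_
          · have e3 : x' none - bt F ω none = 0 := by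
              rw [hx']
              simp only
              rw [if_neg (by simp), sub_self]
            simp only [e3]
            show |F.t ω + t * 0 - F.t ω| ≤ _
            rw [mul_zero, add_zero, sub_self, abs_zero]
            positivity
          · have e2 : bt F ω (some (c 0)) + t * (x' (some (c 0)) - bt F ω (some (c 0))) -
                F.x ω (c 0) = t * (x' (some (c 0)) - bt F ω (some (c 0))) := by
              show F.x ω (c 0) + _ - F.x ω (c 0) = _
              ring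
            simp only [e2]
            rw [abs_mul, abs_of_nonneg ht'.1]
            have := abs_nonneg (x' (some (c 0)) - bt F ω (some (c 0)))
            nlinarith [ht'.1, ht'.2]
        calc _ ≤ 2 ^ e₁' * (1 / 2 ^ J) := mul_le_mul a2 a1 (abs_nonneg _) (by positivity)
          _ = 2 ^ e₁' / 2 ^ J := by ring
      · have e3 : x' o - bt F ω o = 0 := by
          rw [hx']
          simp only
          rw [if_neg ho, sub_self]
        rw [e3, abs_zero, mul_zero]
    · rw [Finset.sum_ite_eq' Finset.univ, if_pos (Finset.mem_univ _)]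
  -- the positions
  have hpr := posR_of F hσ O hi hJ (κ₀ := c 0) (κ₁ := c 1) (g₀ := W₀) (g₁ := g1)
    (b₀ := fun _ => 0) (b₁ := fun ω => eval (bt F ω) (Pl (slam F W₀ ω))) (Lp := 2 ^ e₁') (y₀ := y₀)
    (fun ω ω' _ _ h => ⟨(hye ω ω' h).2.2.1, (hye ω ω' h).1⟩) (fun ω _ => rfl)
    (fun ω _ => by
      show 2 ^ W₀ * F.x ω (c 0) = _
      rw [sub_zero]) (fun ω _ => rfl) (fun ω ω' _ _ _ _ => rfl) hPn
  -- the target
  have hvr := valR_of F (B := B) (k := k) (κ₀ := c 0) (κ₁ := c 1) (xo := xo i) (Jo := Jo i)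
    (y₀ := y₀) (hg := fun ω => F.x ω (c 3) - eval (bt F ω) (G (z' (slam F Wn ω))))
    (Cf := fun ω => 2 ^ k * (2 ^ g₃ / ν * eval (bt F ω) (pz ω) +
      eval (Rr • (yv F c W₀ g1 Pl ω - ctr i ω)) (Ci i ω))) (a₁ := 2 ^ (s₁ * J)) (a₂ := 2 ^ (s₂ * J))
    (μ := μ) (E := E) (E' := E') (K := Kc) (by positivity) (by positivity) hμ0 ?_ ?_ ?_
  · have hxa : ∀ s : ℝ, xa F (c 3) z' Wn G s = fun ω => ⌊(2 : ℝ) ^ (s * J) *
        (F.x ω (c 3) - eval (bt F ω) (G (z' (slam F Wn ω))))⌋ := by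
      intro s
      funext ω
      unfold xa
      rw [Pool.OWN68.hgt_eq]
    rw [← hxa, ← hxa] at hvr
    exact HW (xo i) (Jo i) _ y₀ _ _ _ _ _ (O.cx i hi) (Jt.cJ i hi) (by rw [hy₀]; exact cA)
      (by positivity) (by positivity) (by positivity) (by positivity) (by positivity) hpr hvr n1
      (by rw [← hDT, ← hD₁]; exact n2)
  · intro ω hω
    have b1 := Jt.valx i hi ω hω
    rw [← hRd, ← hν] at b1
    have b2 := hT ω hω
    obtain ⟨fv, hfv⟩ : ∃ fv, fv = eval (yv F c W₀ g1 Pl ω) (f (ji i) (ptr F J ω)) := ⟨_, rfl⟩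
    rw [← hfv] at b1 b2
    push_cast
    have hk : (0 : ℝ) < 2 ^ k := by positivity
    have c1 : 2 ^ k * eval (xo i ω) (Jo i ω) -
        (μ * (F.x ω (c 3) - eval (bt F ω) (G (z' (slam F Wn ω)))) -
          2 ^ k * (2 ^ g₃ / ν * eval (bt F ω) (pz ω) +
            eval (Rr • (yv F c W₀ g1 Pl ω - ctr i ω)) (Ci i ω))) =
        2 ^ k * (eval (xo i ω) (Jo i ω) + eval (Rr • (yv F c W₀ g1 Pl ω - ctr i ω)) (Ci i ω) -
          fv / ν) + 2 ^ k * ((fv - 2 ^ g₃ * (F.x ω (c 3) -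
            (eval (bt F ω) (G (z' (slam F Wn ω))) + eval (bt F ω) (pz ω)))) / ν) := by
      rw [hμ]
      field_simp
      ring
    rw [c1]
    have c2 : |(2 : ℝ) ^ k * (eval (xo i ω) (Jo i ω) +
        eval (Rr • (yv F c W₀ g1 Pl ω - ctr i ω)) (Ci i ω) - fv / ν)| ≤ Kc := by
      rw [abs_mul, abs_of_pos hk]
      calc (2 : ℝ) ^ k * |_| ≤ 2 ^ k * (Kc / 2 ^ k) := mul_le_mul_of_nonneg_left b1 hk.le
        _ = Kc := by field_simp
    have c3 : |(2 : ℝ) ^ k * ((fv - 2 ^ g₃ * (F.x ω (c 3) -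
            (eval (bt F ω) (G (z' (slam F Wn ω))) + eval (bt F ω) (pz ω)))) / ν)| ≤
          2 ^ k * (Ev / ν) := by
      rw [abs_mul, abs_of_pos hk, abs_div, abs_of_pos hν0]
      exact mul_le_mul_of_nonneg_left (div_le_div_of_nonneg_right b2 hν0.le) hk.le
    rw [hE]
    exact (abs_add_le _ _).trans (add_le_add c2 c3)
  · intro ω ω' hω hω' hy hWW h0 h1
    obtain ⟨q1, q2, q3, q4, q5, q6⟩ := hye ω ω' hy
    have hk : (0 : ℝ) < 2 ^ k := by positivity
    -- the closed polynomial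
    have p1 : |eval (bt F ω) (pz ω) - eval (bt F ω') (pz ω')| ≤ 2 * (Lz / 2 ^ J) := by
      rw [← q6]
      have := dep_near F hWW h0 h1 le_rfl (pz2 ω hω) (L := Lz) (hLz ω hω)
      exact_mod_cast this
    -- the coordinates
    have p2 : ∀ j, |(Rr • (yv F c W₀ g1 Pl ω - ctr i ω)) j -
        (Rr • (yv F c W₀ g1 Pl ω' - ctr i ω')) j| ≤ Rr * (2 ^ (g1 + e₁' + 1) / 2 ^ J) := by
      intro j
      rw [← q3, Pi.smul_apply, Pi.smul_apply, Pi.sub_apply, Pi.sub_apply, smul_eq_mul, smul_eq_mul,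
        ← mul_sub, abs_mul, abs_of_pos hRr]
      refine mul_le_mul_of_nonneg_left ?_ hRr.le
      have e1 : yv F c W₀ g1 Pl ω j - ctr i ω j - (yv F c W₀ g1 Pl ω' j - ctr i ω j) =
          yv F c W₀ g1 Pl ω j - yv F c W₀ g1 Pl ω' j := by ring
      rw [e1]
      have hg : (0 : ℝ) < 2 ^ g1 := by positivity
      have he : (1 : ℝ) ≤ 2 ^ e₁' := one_le_pow₀ one_le_two
      have hpw : (2 : ℝ) ^ (g1 + e₁' + 1) = 2 ^ g1 * 2 ^ e₁' * 2 := by
        rw [pow_succ, pow_add]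
      have ha : (2 : ℝ) ^ W₀ ≤ 2 ^ (g1 + e₁') := pow_le_pow_right₀ one_le_two hWg
      fin_cases j
      · show |rt F W₀ ω - rt F W₀ ω'| ≤ _
        have h3 : F.T ω = F.T ω' := congrArg Prod.fst hWW
        have h4 : rt F W₀ ω = rt F W₀ ω' := by
          have t1 := t_rt F hW ω
          have t2 := t_rt F hW ω'
          have t3 : F.t ω = F.t ω' := by
            show (F.T ω : ℝ) / 2 ^ J = (F.T ω' : ℝ) / 2 ^ J
            rw [h3]
          rw [t3, t2, q1] at t1
          have hp2 : (0 : ℝ) < 2 ^ W₀ := by positivity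
          field_simp at t1
          linarith
        rw [h4, sub_self, abs_zero]
        positivity
      · show |2 ^ W₀ * F.x ω (c 0) - 2 ^ W₀ * F.x ω' (c 0)| ≤ _
        rw [← mul_sub, abs_mul, abs_of_pos (by positivity : (0 : ℝ) < 2 ^ W₀)]
        have e2 := x_near F h0
        calc (2 : ℝ) ^ W₀ * |F.x ω (c 0) - F.x ω' (c 0)| ≤ 2 ^ (g1 + e₁') * (1 / 2 ^ J) :=
              mul_le_mul ha e2 (abs_nonneg _) (by positivity)
          _ ≤ 2 ^ (g1 + e₁' + 1) * (1 / 2 ^ J) := by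
              refine mul_le_mul_of_nonneg_right (pow_le_pow_right₀ one_le_two (by omega))
                (by positivity)
          _ = _ := by ring
      · show |2 ^ g1 * (F.x ω (c 1) - eval (bt F ω) (Pl (slam F W₀ ω))) -
          2 ^ g1 * (F.x ω' (c 1) - eval (bt F ω') (Pl (slam F W₀ ω')))| ≤ _
        rw [← mul_sub, abs_mul, abs_of_pos hg]
        have e2 := x_near F h1
        have e3 := hPn ω ω' hω hω' hy hWW h0
        have e4 : |F.x ω (c 1) - eval (bt F ω) (Pl (slam F W₀ ω)) -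
            (F.x ω' (c 1) - eval (bt F ω') (Pl (slam F W₀ ω')))| ≤
            1 / 2 ^ J + 2 ^ e₁' / 2 ^ J := by
          have e5 : F.x ω (c 1) - eval (bt F ω) (Pl (slam F W₀ ω)) -
            (F.x ω' (c 1) - eval (bt F ω') (Pl (slam F W₀ ω'))) =
              (F.x ω (c 1) - F.x ω' (c 1)) -
                (eval (bt F ω) (Pl (slam F W₀ ω)) - eval (bt F ω') (Pl (slam F W₀ ω'))) := by ring
          rw [e5]
          exact (abs_sub _ _).trans (add_le_add e2 e3)
        have e6 : (1 : ℝ) / 2 ^ J + 2 ^ e₁' / 2 ^ J ≤ 2 ^ e₁' * 2 / 2 ^ J := by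
          rw [← add_div]
          exact div_le_div_of_nonneg_right (by linarith) hJp.le
        calc (2 : ℝ) ^ g1 * |_| ≤ 2 ^ g1 * (2 ^ e₁' * 2 / 2 ^ J) :=
              mul_le_mul_of_nonneg_left (e4.trans e6) hg.le
          _ = _ := by
              rw [hpw]
              ring
    -- the polynomial of the window
    have p3 : |eval (Rr • (yv F c W₀ g1 Pl ω - ctr i ω)) (Ci i ω) -
        eval (Rr • (yv F c W₀ g1 Pl ω' - ctr i ω')) (Ci i ω')| ≤
        3 * (Gr / ν * (2 ^ (g1 + e₁' + 1) / 2 ^ J)) := by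
      rw [← q4, abs_sub_comm]
      have b1 := O.q1 i hi ω hω
      have b2 := O.q1 i hi ω' hω'
      rw [← hRd] at b1 b2
      refine (mv_pd (Ci i ω) _ _ (M := fun _ => Gr / ν * (2 ^ (g1 + e₁' + 1) / 2 ^ J))
        ?_).trans (le_of_eq ?_)
      · intro t ht j
        have b3 : Bx 1 (fun o => (Rr • (yv F c W₀ g1 Pl ω - ctr i ω)) o + t *
            ((Rr • (yv F c W₀ g1 Pl ω' - ctr i ω')) o -
              (Rr • (yv F c W₀ g1 Pl ω - ctr i ω)) o)) := by
          intro o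
          have c1 := abs_le.1 (b1 o)
          have c2 := abs_le.1 (b2 o)
          obtain ⟨t0, t1⟩ := ht
          rw [abs_le]
          constructor <;> nlinarith
        have b4 := Jt.grad i hi ω hω j _ b3
        rw [← hRd, ← hν] at b4
        have b5 := p2 j
        rw [abs_sub_comm] at b5
        calc _ ≤ (Gr / Rr / ν) * (Rr * (2 ^ (g1 + e₁' + 1) / 2 ^ J)) := by
              refine mul_le_mul ?_ b5 (abs_nonneg _) (by positivity)
              rw [le_div_iff₀ hν0, mul_comm]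
              exact b4
          _ = _ := by field_simp
      · rw [Finset.sum_const, Finset.card_univ, Fintype.card_fin, nsmul_eq_mul]
        norm_num
    have c1 : 2 ^ k * (2 ^ g₃ / ν * eval (bt F ω) (pz ω) +
        eval (Rr • (yv F c W₀ g1 Pl ω - ctr i ω)) (Ci i ω)) -
        2 ^ k * (2 ^ g₃ / ν * eval (bt F ω') (pz ω') +
        eval (Rr • (yv F c W₀ g1 Pl ω' - ctr i ω')) (Ci i ω')) =
        2 ^ k * (2 ^ g₃ / ν) * (eval (bt F ω) (pz ω) - eval (bt F ω') (pz ω')) +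
        2 ^ k * (eval (Rr • (yv F c W₀ g1 Pl ω - ctr i ω)) (Ci i ω) -
          eval (Rr • (yv F c W₀ g1 Pl ω' - ctr i ω')) (Ci i ω')) := by ring
    rw [c1]
    refine (abs_add_le _ _).trans ?_
    have hkν : (0 : ℝ) < 2 ^ k * (2 ^ g₃ / ν) := by positivity
    rw [abs_mul (2 ^ k * (2 ^ g₃ / ν)), abs_mul (2 ^ k) (_ - _), abs_of_pos hkν, abs_of_pos hk]
    have c2 := mul_le_mul_of_nonneg_left p1 hkν.le
    have c3 := mul_le_mul_of_nonneg_left p3 hk.le
    have c4 : E' = 2 ^ k * (2 ^ g₃ / ν) * (2 * (Lz / 2 ^ J)) +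
        2 ^ k * (3 * (Gr / ν * (2 ^ (g1 + e₁' + 1) / 2 ^ J))) := by
      rw [hE']
      field_simp
    rw [c4]
    exact add_le_add c2 c3
  · intro ω hω
    exact Jt.J1 i hi ω hω _ (O.x1 i hi ω hω)

end Pool.STB
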